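import Pool.Agent.GTM.CoE

/-!
# Extension of the field of coefficients
-/

set_option autoImplicit false

noncomputable section

namespace Pool.Agent.GTM

open Pool.Agent.ZCyc Pool.Agent.Dess Pool.Agent.GT
open scoped Classical LinearAlgebra.Projectivization

variable {R R' : Type} [Field R] [CharZero R] [Field R'] [CharZero R'] [Algebra R R']
  {k : Type} [Field k] {m : ℕ} {X : Set (MvPolynomial (Fin (m + 1)) k)}

/-- a cycle with coefficients in `R` as a cycle with coefficients in a larger field -/
def toRR (R R' : Type) [Field R] [Field R'] [Algebra R R'] {T : Type} :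
    (T →₀ R) →ₗ[R] (T →₀ R') :=
  Finsupp.mapRange.linearMap (Algebra.linearMap R R')

theorem toRR_apply {T : Type} (z : T →₀ R) (x : T) :
    toRR R R' z x = algebraMap R R' (z x) := rfl

theorem toRR_toR {T : Type} (w : T →₀ ℚ) : toRR R R' (toR R w) = toR R' w := by
  refine Finsupp.ext fun x => ?_
  rw [toRR_apply, toR_apply, toR_apply]
  have h : (algebraMap R R').comp (algebraMap ℚ R) = algebraMap ℚ R' := RingHom.ext_rat _ _
  exact congrArg (fun f : ℚ →+* R' => f (w x)) h

theorem toRR_extR {T : Type} {n : ℕ} (z : Fin n → (T →₀ R)) :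
    toRR R R' (extR z) = extR (fun j => toRR R R' (z j)) := by
  refine Finsupp.ext fun x => ?_
  rw [toRR_apply, extR_apply, extR_apply, map_prod]
  rfl

/-- A cycle with coefficients in `R` which is rationally equivalent to zero with coefficients in a
larger field is rationally equivalent to zero. -/
theorem toRR_mem {ι : Type} {y : (ι → Pt X k) →₀ R} (hy : toRR R R' y ∈ RatR R' X ι) :
    y ∈ RatR R X ι := by
  obtain ⟨l, hl⟩ := (Algebra.linearMap R R').exists_leftInverse_of_injective
    (LinearMap.ker_eq_bot.2 (algebraMap R R').injective)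
  have hl1 : ∀ q : R, l (algebraMap R R' q) = q := fun q => LinearMap.congr_fun hl q
  let M : ((ι → Pt X k) →₀ R') →ₗ[R] ((ι → Pt X k) →₀ R) := Finsupp.mapRange.linearMap l
  have key : ∀ y ∈ RatR R' X ι, ∀ r : R', M (r • y) ∈ RatR R X ι := by
    intro y hy
    induction hy using Submodule.span_induction with
    | mem y hy =>
      obtain ⟨w, hw, rfl⟩ := hy
      intro r
      have h1 : M (r • toR R' w) = l r • toR R w := by
        refine Finsupp.ext fun x => ?_
        change l (r * algebraMap ℚ R' (w x)) = l r * algebraMap ℚ R (w x)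
        have h : (algebraMap R R').comp (algebraMap ℚ R) = algebraMap ℚ R' :=
          RingHom.ext_rat _ _
        rw [← h, RingHom.comp_apply, mul_comm, ← Algebra.smul_def, map_smul, smul_eq_mul,
          mul_comm]
      rw [h1]
      exact Submodule.smul_mem _ _ (Submodule.subset_span ⟨w, hw, rfl⟩)
    | zero =>
      intro r
      rw [smul_zero, map_zero]
      exact Submodule.zero_mem _
    | add a b _ _ ha hb =>
      intro r
      rw [smul_add, map_add]
      exact Submodule.add_mem _ (ha r) (hb r)
    | smul c a _ ha =>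
      intro r
      rw [smul_smul]
      exact ha _
  have h1 := key _ hy 1
  have h2 : M ((1 : R') • toRR R R' y) = y := by
    refine Finsupp.ext fun x => ?_
    change l (1 * algebraMap R R' (y x)) = y x
    rw [one_mul, hl1]
  rwa [h2] at h1

theorem toRR_rat1 {z : Pt X k →₀ R} (hz : z ∈ RatR1 R X) : toRR R R' z ∈ RatR1 R' X := by
  induction hz using Submodule.span_induction with
  | mem z hz =>
    obtain ⟨w, hw, rfl⟩ := hz
    rw [toRR_toR]
    exact Submodule.subset_span ⟨w, hw, rfl⟩
  | zero =>
    rw [map_zero]
    exact Submodule.zero_mem _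
  | add a b _ _ ha hb =>
    rw [map_add]
    exact Submodule.add_mem _ ha hb
  | smul c a _ ha =>
    rw [map_smul, ← algebraMap_smul R']
    exact Submodule.smul_mem _ _ ha

theorem killsTensors_toRR {n r : ℕ} {β : Equiv.Perm (Fin r) → R}
    (hβ : ZIso.KillsTensors n β) : ZIso.KillsTensors n fun τ => algebraMap R R' (β τ) := by
  intro w w'
  rw [← map_sum, hβ w w', map_zero]

theorem toRR_sum {r : ℕ} (β : Equiv.Perm (Fin r) → R) (z : Fin r → (Pt X k →₀ R)) :
    toRR R R' (∑ τ, β τ • extR (fun j => z (τ j))) =
      ∑ τ, algebraMap R R' (β τ) • extR (fun j => toRR R R' (z (τ j))) := by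
  rw [map_sum]
  refine Finset.sum_congr rfl fun τ _ => ?_
  rw [map_smul, toRR_extR, algebraMap_smul]

end Pool.Agent.GTM
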