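import Pool.Agent.TInc.OrdDiv

/-!
# The span of the principal divisors: definition
-/

set_option autoImplicit false

noncomputable section

namespace Pool.Agent.GTM

open Pool.Agent.ZCyc Pool.Agent.Dess Pool.Agent.TInc
open scoped Classical LinearAlgebra.Projectivization

variable {k L : Type} [Field k] [Field L] [Algebra k L]

/-- the span of the principal divisors with coefficients in `R` -/
def PrinR (R : Type) [Field R] [IsAlgClosed k] [CharZero k] (hL : IsCurve k L) :
    Submodule R (Place k L →₀ R) :=
  Submodule.span R (Set.range fun u : L =>
    ((dv hL u).mapRange (fun n : ℤ => (n : R)) Int.cast_zero : Place k L →₀ R))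

end Pool.Agent.GTM
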