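import Pool.Agent.GTM.RatC
import Pool.Agent.TInc.EmbD
import Pool.Agent.GT.Presc

/-!
# The sum over the points with `y = 0` as a function of the place of the base
-/

set_option autoImplicit false

noncomputable section

namespace Pool.Agent.GTM

open Pool.Agent.ZCyc Pool.Agent.Dess Pool.Agent.GT Polynomial
open Pool.Agent.VFP (Om tt)
open scoped Classical LinearAlgebra.Projectivization

open Pool.Agent.TInc

variable {k L : Type} [Field k] [IsAlgClosed k] [CharZero k] [Field L] [Algebra k L] {m : ℕ}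
  {X : Set (MvPolynomial (Fin (m + 1)) k)} {ν : ℕ}

omit [IsAlgClosed k] [CharZero k] in
/-- the value below (copied from `TInc/EmbD.lean`) -/
theorem at_below {φ : L} {ψ : Om k} {v : Place k (Om k)} {a : k} (ha : v.At ψ a)
    {c : Place k L} {σ : L →ₐ[k] Om k} (hσ : σ φ = ψ)
    (hv : v.ring.comap (σ : L →+* Om k) = c.ring) : c.At φ a := by
  unfold Place.At at ha ⊢
  rw [Place.vanishes_iff_or] at ha ⊢
  have h1 : σ (φ - algebraMap k L a) = ψ - algebraMap k (Om k) a := by
    rw [map_sub, hσ, AlgHom.commutes]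
  rw [← h1] at ha
  rcases ha with ha | ha
  · exact Or.inl ((map_eq_zero σ).1 ha)
  · right
    rw [← hv, ValuationSubring.mem_comap]
    intro h2
    apply ha
    have h3 : (σ : L →+* Om k) (φ - algebraMap k L a)⁻¹ = (σ (φ - algebraMap k L a))⁻¹ :=
      map_inv₀ σ _
    rw [← h3]
    exact h2

/-- a sum over the embeddings, as a sum over places -/
private theorem zrp_count (hL : IsCurve k L) {φ : L} (hφ : Transcendental k φ) {ψ : Om k}
    (hψ : Transcendental k ψ) {v : Place k (Om k)} {M : Type} [AddCommGroup M]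
    (g : Place k L → M) (G : (L →ₐ[k] Om k) → M)
    (hG : ∀ (σ : L →ₐ[k] Om k) (c : Place k L), σ φ = ψ →
      v.ring.comap (σ : L →+* Om k) = c.ring → G σ = g c)
    (T : Finset (Place k L)) (hT : ∀ (σ : L →ₐ[k] Om k) (c : Place k L), σ φ = ψ →
      v.ring.comap (σ : L →+* Om k) = c.ring → c ∈ T) (e : Place k L → ℤ)
    (he : ∀ c ∈ T, ({σ : L →ₐ[k] Om k | σ φ = ψ ∧
      v.ring.comap (σ : L →+* Om k) = c.ring}.ncard : ℤ) = e c) :
    ∑ σ ∈ (card_emb hL hφ hψ).1.toFinset, G σ = ∑ c ∈ T, e c • g c := by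
  choose β hβ using fun σ => exists_below hL v σ
  set S := (card_emb hL hφ hψ).1.toFinset with hS
  have hmem : ∀ σ, σ ∈ S ↔ σ φ = ψ := fun σ => (card_emb hL hφ hψ).1.mem_toFinset
  have hm : ∀ c' : Place k L, {σ : L →ₐ[k] Om k | σ φ = ψ ∧
      v.ring.comap (σ : L →+* Om k) = c'.ring}.ncard = (S.filter fun σ => β σ = c').card := by
    intro c'
    rw [← Set.ncard_coe_finset]
    congr 1
    ext σ
    simp only [Finset.coe_filter, Set.mem_ofPred_eq, hmem]
    refine and_congr_right fun _ => ?_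
    rw [hβ σ]
    exact ⟨fun h => Place.ext h, fun h => by rw [h]⟩
  rw [← Finset.sum_fiberwise_of_maps_to (g := β) (t := T)
    fun σ hσ => hT σ _ ((hmem σ).1 hσ) (hβ σ)]
  refine Finset.sum_congr rfl fun c hc => ?_
  have h1 : ∀ σ ∈ S.filter (fun σ => β σ = c), G σ = g c := by
    intro σ hσ
    rw [Finset.mem_filter] at hσ
    exact hG σ c ((hmem σ).1 hσ.1) (by rw [hβ σ, hσ.2])
  rw [Finset.sum_congr rfl h1, Finset.sum_const, ← he c hc, hm c, natCast_zsmul]

/-- a sum over the embeddings at a place where `ψ` has a value -/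
theorem sum_over (hL : IsCurve k L) {φ : L} (hφ : Transcendental k φ) {ψ : Om k}
    (hψ : Transcendental k ψ) {v : Place k (Om k)} {a : k} (ha : v.At ψ a) {M : Type}
    [AddCommGroup M] (g : Place k L → M) (G : (L →ₐ[k] Om k) → M)
    (hG : ∀ (σ : L →ₐ[k] Om k) (c : Place k L), σ φ = ψ →
      v.ring.comap (σ : L →+* Om k) = c.ring → G σ = g c) :
    ∑ σ ∈ (card_emb hL hφ hψ).1.toFinset, G σ =
      ∑ c ∈ (finite_at hL hφ a).toFinset, ord c (φ - algebraMap k L a) • g c :=
  zrp_count hL hφ hψ g G hG _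
    (fun σ c hσ hc => (finite_at hL hφ a).mem_toFinset.2 (at_below ha hσ hc)) _
    (fun c hc => card_over hL hφ hψ ha ((finite_at hL hφ a).mem_toFinset.1 hc))

/-- a sum over the embeddings at a place where `ψ` has a pole -/
theorem sum_over_pole (hL : IsCurve k L) {φ : L} (hφ : Transcendental k φ) {ψ : Om k}
    (hψ : Transcendental k ψ) {v : Place k (Om k)} (ha : ψ ∉ v.ring) {M : Type}
    [AddCommGroup M] (g : Place k L → M) (G : (L →ₐ[k] Om k) → M)
    (hG : ∀ (σ : L →ₐ[k] Om k) (c : Place k L), σ φ = ψ →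
      v.ring.comap (σ : L →+* Om k) = c.ring → G σ = g c)
    (T : Finset (Place k L)) (hT : ∀ c, c ∈ T ↔ φ ∉ c.ring) :
    ∑ σ ∈ (card_emb hL hφ hψ).1.toFinset, G σ = ∑ c ∈ T, (-ord c φ) • g c := by
  refine zrp_count hL hφ hψ g G hG T (fun σ c hσ hc => ?_) _
    (fun c hc => card_over_pole hL hφ hψ ha ((hT c).1 hc))
  rw [hT, ← hc, ValuationSubring.mem_comap]
  intro h
  apply ha
  rw [← hσ]
  exact h

/-- The class for the data over an open set (copied from `RatC.lean`). -/
private theorem zrp_map (hX : Hom X) {d : GD L m} (hd : OkW ν d X) {U : Set (Place k L)}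
    {d' : GD (regU U) m} (hd' : OkW ν d' X)
    (hdd : d'.map ((regU U).val : regU U →+* L) = d) (σ : L →ₐ[k] Om k) (v : Place k (Om k)) :
    zerV hX hd' (σ.comp (regU U).val) v = zerV hX hd σ v := by
  unfold zerV
  have h1 : wP ν ((σ.comp (regU U).val) d'.B) ((σ.comp (regU U).val) d'.α) =
      wP ν (σ d.B) (σ d.α) := by
    subst hdd
    rfl
  rw [h1]
  congr 1
  exact Multiset.map_congr rfl fun x _ => TV_map hX hd hd' hdd σ v x 0

/-- the sum of the classes `zerV` over all embeddings is the same for all places -/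
private theorem zrp_const (hX : Hom X) (hL : IsCurve k L) {d : GD L m} (hd : OkW ν d X) {φ : L}
    (hφ : Transcendental k φ) : ∃ C : CH X Unit, ∀ (ψ : Om k) (hψ : Transcendental k ψ)
      (v : Place k (Om k)),
      ∑ σ ∈ (card_emb hL hφ hψ).1.toFinset, zerV hX hd σ v = C := by
  obtain ⟨F, -, d', hd', hmap⟩ := spreadW hd ∅
  set U : Set (Place k L) := {c : Place k L | ∀ f ∈ F, f ∈ c.ring} with hU
  have hgood : ∀ (σ : L →ₐ[k] Om k) (v : Place k (Om k)) (c : U),
      v.ring.comap (σ : L →+* Om k) = c.1.ring →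
      zerV hX hd σ v = zerK hX hd' (evk hL c) := by
    intro σ v c hc
    rw [← zrp_map hX hd hd' hmap]
    exact zerV_good hX hd' fun a => over_ev hL (S := Sum.inl σ) (c := c) hc a
  -- the bad places and the bad values
  have hfin : (⋃ f ∈ F, {c : Place k L | ord c f ≠ 0}).Finite :=
    F.finite_toSet.biUnion fun f _ => finite_ord hL f
  set V : Finset k := hfin.toFinset.image fun c => val c φ with hV
  have hgv : ∀ a : k, a ∉ V → ∀ c : Place k L, c.At φ a → c ∈ U := by
    intro a ha c hc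
    by_contra hcU
    apply ha
    rw [hV, Finset.mem_image]
    refine ⟨c, ?_, val_eq hc⟩
    rw [Set.Finite.mem_toFinset]
    have h1 : ∃ f ∈ F, f ∉ c.ring := by
      by_contra h
      push Not at h
      exact hcU h
    obtain ⟨f, hf, hfc⟩ := h1
    refine Set.mem_iUnion₂.2 ⟨f, hf, fun h0 => hfc ?_⟩
    have hf0 : f ≠ 0 := by
      rintro rfl
      exact hfc (zero_mem _)
    exact (mem_iff_ord hL hf0).2 h0.ge
  set g : Place k L → CH X Unit := fun c => if h : c ∈ U then zerK hX hd' (evk hL ⟨c, h⟩) else 0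
    with hg
  have hval : ∀ (ψ : Om k) (hψ : Transcendental k ψ) (v : Place k (Om k)) (a : k), a ∉ V →
      v.At ψ a → ∑ σ ∈ (card_emb hL hφ hψ).1.toFinset, zerV hX hd σ v =
        ∑ c ∈ (finite_at hL hφ a).toFinset, ord c (φ - algebraMap k L a) • g c := by
    intro ψ hψ v a ha hva
    refine sum_over hL hφ hψ hva g (fun σ => zerV hX hd σ v) fun σ c hσ hc => ?_
    have h1 := hgv a ha c (at_below hva hσ hc)
    rw [hg]
    simp only [dif_pos h1]
    exact hgood σ v ⟨c, h1⟩ hc
  -- the sum is the limit of one cycle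
  have hcyc : ∀ (ψ : Om k) (hψ : Transcendental k ψ), ∃ z : Pt X (Om k) →₀ ℚ,
      ∀ v : Place k (Om k), lim1 hX v z =
        ∑ σ ∈ (card_emb hL hφ hψ).1.toFinset, zerV hX hd σ v := by
    intro ψ hψ
    choose z hz using fun σ : L →ₐ[k] Om k => zerV_cycle hX hd σ
    refine ⟨∑ σ ∈ (card_emb hL hφ hψ).1.toFinset, z σ, fun v => ?_⟩
    rw [map_sum]
    exact Finset.sum_congr rfl fun σ _ => hz σ v
  obtain ⟨a₀, ha₀⟩ := Infinite.exists_notMem_finset V
  set C := ∑ c ∈ (finite_at hL hφ a₀).toFinset, ord c (φ - algebraMap k L a₀) • g c with hC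
  have hsame : ∀ a, a ∉ V →
      ∑ c ∈ (finite_at hL hφ a).toFinset, ord c (φ - algebraMap k L a) • g c = C := by
    intro a ha
    obtain ⟨z, hz⟩ := hcyc (tt k) VFP.tt_transc
    refine bridge hX (Finsupp.lmapDomain ℚ ℚ (fun x (_ : Unit) => x) z) (c₀ := a) (c₁ := a₀)
      (fun v hv => ?_) fun v hv => ?_
    · exact (hz v).trans (hval (tt k) VFP.tt_transc v a ha hv)
    · exact (hz v).trans (hval (tt k) VFP.tt_transc v a₀ ha₀ hv)
  refine ⟨C, fun ψ hψ v => ?_⟩
  obtain ⟨z, hz⟩ := hcyc ψ hψ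
  obtain ⟨y₀, hy₀⟩ := exists_const hX C
  have hmain := moving hX (Finsupp.lmapDomain ℚ ℚ (fun x (_ : Unit) => x) (z - y₀))
    ({ψ} ∪ V.image fun a => ψ - algebraMap k (Om k) a) (by
      rw [Finset.mem_union, Finset.mem_singleton, Finset.mem_image]
      rintro (h | ⟨a, -, h⟩)
      · exact hψ (h ▸ isAlgebraic_zero)
      · exact hψ (sub_eq_zero.1 h ▸ isAlgebraic_algebraMap a))
    (fun v' hv' => by
      obtain ⟨a, ha⟩ := HasRes.res v' ψ (hv' ψ (by simp)).1
      have haV : a ∉ V := by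
        intro h
        have h1 := hv' (ψ - algebraMap k (Om k) a) (Finset.mem_union_right _
          (Finset.mem_image.2 ⟨a, h, rfl⟩))
        have h2 : v'.Vanishes (ψ - algebraMap k (Om k) a) := ha
        rw [Place.vanishes_iff_or] at h2
        rcases h2 with h2 | h2
        · exact hψ (sub_eq_zero.1 h2 ▸ isAlgebraic_algebraMap a)
        · exact h2 h1.2
      change lim1 hX v' (z - y₀) = 0
      rw [map_sub, hz, hy₀, hval ψ hψ v' a haV ha, hsame a haV, sub_self]) v
  change lim1 hX v (z - y₀) = 0 at hmain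
  rw [map_sub, hz, hy₀, sub_eq_zero] at hmain
  exact hmain

/-- The sum of the classes of the points with `y = 0` depends only on the place of the base. -/
private theorem zrp_below (hX : Hom X) (hL : IsCurve k L) {d : GD L m} (hd : OkW ν d X)
    (c : Place k L) {σ σ' : L →ₐ[k] Om k} {v v' : Place k (Om k)}
    (h : v.ring.comap (σ : L →+* Om k) = c.ring)
    (h' : v'.ring.comap (σ' : L →+* Om k) = c.ring) : zerV hX hd σ v = zerV hX hd σ' v' := by
  obtain ⟨F, -, d', hd', hmap⟩ := spreadW hd ∅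
  set U : Set (Place k L) := {c : Place k L | ∀ f ∈ F, f ∈ c.ring} with hU
  have hgood : ∀ (σ : L →ₐ[k] Om k) (v : Place k (Om k)) (c : U),
      v.ring.comap (σ : L →+* Om k) = c.1.ring →
      zerV hX hd σ v = zerK hX hd' (evk hL c) := by
    intro σ v c hc
    rw [← zrp_map hX hd hd' hmap]
    exact zerV_good hX hd' fun a => over_ev hL (S := Sum.inl σ) (c := c) hc a
  have hfin : (⋃ f ∈ F, {c : Place k L | ord c f ≠ 0}).Finite :=
    F.finite_toSet.biUnion fun f _ => finite_ord hL f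
  obtain ⟨φ, hφ0, hφ1, hφ2⟩ := exists_prescribed hL c hfin.toFinset
  have hφ : Transcendental k φ := by
    refine transc_of_ne hL fun a ha => ?_
    rw [ha, ord_const hL] at hφ1
    exact zero_ne_one hφ1
  have hφc : c.At φ 0 := by
    rw [Place.at_zero_iff, vanishes_iff_ord hL hφ0, hφ1]
    exact one_pos
  have hUc : ∀ c' : Place k L, c'.At φ 0 → c' ≠ c → c' ∈ U := by
    intro c' hc' hne
    by_contra hcU
    have h1 : ∃ f ∈ F, f ∉ c'.ring := by
      by_contra h
      push Not at h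
      exact hcU h
    obtain ⟨f, hf, hfc⟩ := h1
    have hf0 : f ≠ 0 := by
      rintro rfl
      exact hfc (zero_mem _)
    have h2 : c' ∈ hfin.toFinset := by
      rw [Set.Finite.mem_toFinset]
      exact Set.mem_iUnion₂.2 ⟨f, hf, fun h0 => hfc ((mem_iff_ord hL hf0).2 h0.ge)⟩
    have h3 := hφ2 c' h2 hne
    rw [Place.at_zero_iff, vanishes_iff_ord hL hφ0, h3] at hc'
    exact lt_irrefl _ hc'
  obtain ⟨C, hC⟩ := zrp_const hX hL hd hφ
  -- the sum over the zeros of `φ`
  have key : ∀ (σ : L →ₐ[k] Om k) (v : Place k (Om k)),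
      v.ring.comap (σ : L →+* Om k) = c.ring →
      C = zerV hX hd σ v + ∑ c' ∈ (finite_at hL hφ 0).toFinset.erase c,
        ord c' (φ - algebraMap k L 0) •
          (if h : c' ∈ U then zerK hX hd' (evk hL ⟨c', h⟩) else 0) := by
    intro σ v hσ
    have hψ : Transcendental k (σ φ) := by
      intro h
      exact hφ ((isAlgebraic_algHom_iff σ σ.toRingHom.injective).1 h)
    have hat : v.At (σ φ) 0 := by
      rw [Place.at_zero_iff, Place.vanishes_iff_or]
      rw [Place.at_zero_iff, Place.vanishes_iff_or] at hφc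
      rcases hφc with hφc | hφc
      · exact absurd hφc hφ0
      · right
        intro h
        apply hφc
        rw [← hσ, ValuationSubring.mem_comap]
        have h3 : (σ : L →+* Om k) φ⁻¹ = (σ φ)⁻¹ := map_inv₀ σ _
        rw [h3]
        exact h
    have h1 := card_over hL hφ hψ hat hφc
    rw [map_zero, sub_zero, hφ1] at h1
    have h2 : {σ' : L →ₐ[k] Om k | σ' φ = σ φ ∧
        v.ring.comap (σ' : L →+* Om k) = c.ring} = {σ} := by
      obtain ⟨τ, hτ⟩ := Set.ncard_eq_one.1 (by exact_mod_cast h1)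
      have h3 : σ ∈ {σ' : L →ₐ[k] Om k | σ' φ = σ φ ∧
          v.ring.comap (σ' : L →+* Om k) = c.ring} := ⟨rfl, hσ⟩
      rw [hτ] at h3 ⊢
      rw [Set.mem_singleton_iff.1 h3]
    have huniq : ∀ σ' : L →ₐ[k] Om k, σ' φ = σ φ →
        v.ring.comap (σ' : L →+* Om k) = c.ring → σ' = σ := by
      intro σ' h3 h4
      have h5 : σ' ∈ {σ' : L →ₐ[k] Om k | σ' φ = σ φ ∧
          v.ring.comap (σ' : L →+* Om k) = c.ring} := ⟨h3, h4⟩
      rw [h2] at h5
      exact h5
    rw [← hC (σ φ) hψ v]
    have h3 := sum_over hL hφ hψ hat (M := CH X Unit)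
      (fun c' => if c' = c then zerV hX hd σ v else
        if h : c' ∈ U then zerK hX hd' (evk hL ⟨c', h⟩) else 0) (fun σ => zerV hX hd σ v)
      (fun σ' c' h4 h5 => by
        by_cases hcc : c' = c
        · subst hcc
          simp only [if_true]
          rw [huniq σ' h4 h5]
        · simp only [if_neg hcc]
          have h6 := hUc c' (at_below hat h4 h5) hcc
          rw [dif_pos h6]
          exact hgood σ' v ⟨c', h6⟩ h5)
    rw [h3, ← Finset.add_sum_erase _ _ ((finite_at hL hφ 0).mem_toFinset.2 hφc)]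
    congr 1
    · simp only [if_true]
      rw [map_zero, sub_zero, hφ1, one_smul]
    · refine Finset.sum_congr rfl fun c' hc' => ?_
      rw [if_neg (Finset.ne_of_mem_erase hc')]
  have h1 := key σ v h
  rw [key σ' v' h'] at h1
  exact (add_right_cancel h1).symm

/-- The sum of the classes of the points with `y = 0`, as a function of the place of the base: it
is additive and zero for principal divisors. -/
theorem exists_zerP (hX : Hom X) (hL : IsCurve k L) {d : GD L m} (hd : OkW ν d X) :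
    ∃ Zc : Place k L → CH X Unit,
      (∀ (σ : L →ₐ[k] Om k) (v : Place k (Om k)) (c : Place k L),
        v.ring.comap (σ : L →+* Om k) = c.ring → zerV hX hd σ v = Zc c) ∧
      ∀ u : L, ((dv hL u).sum fun c n => n • Zc c) = 0 := by
  have hex : ∀ c : Place k L, ∃ Z : CH X Unit, ∀ (σ : L →ₐ[k] Om k) (v : Place k (Om k)),
      v.ring.comap (σ : L →+* Om k) = c.ring → zerV hX hd σ v = Z := by
    intro c
    by_cases h : ∃ (σ : L →ₐ[k] Om k) (v : Place k (Om k)),
      v.ring.comap (σ : L →+* Om k) = c.ring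
    · obtain ⟨σ₀, v₀, h₀⟩ := h
      exact ⟨zerV hX hd σ₀ v₀, fun σ v h => zrp_below hX hL hd c h h₀⟩
    · exact ⟨0, fun σ v h' => absurd ⟨σ, v, h'⟩ h⟩
  choose Zc hZc using hex
  refine ⟨Zc, fun σ v c h => hZc c σ v h, fun u => ?_⟩
  by_cases hu : ∃ a : k, u = algebraMap k L a
  · obtain ⟨a, rfl⟩ := hu
    refine Finset.sum_eq_zero fun c _ => ?_
    rw [dv_apply, ord_const hL]
    exact zero_smul _ _
  push Not at hu
  have hφ := transc_of_ne hL hu
  have hu0 : u ≠ 0 := fun h => hu 0 (by rw [h, map_zero])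
  obtain ⟨C, hC⟩ := zrp_const hX hL hd hφ
  obtain ⟨v₀, hv₀⟩ := exists_place (F := Om k) (VFP.tt_transc (k := k)) 0
  have htt : Transcendental k (tt k) := VFP.tt_transc
  have h1 := sum_over hL hφ htt hv₀ Zc (fun σ => zerV hX hd σ v₀)
    (fun σ c _ h => hZc c σ v₀ h)
  have hti : Transcendental k (tt k)⁻¹ := fun h => htt (by simpa using h.inv)
  have hpole : (tt k)⁻¹ ∉ v₀.ring := by
    rw [Place.at_zero_iff, Place.vanishes_iff_or] at hv₀
    rcases hv₀ with h | h
    · exact absurd (h ▸ isAlgebraic_zero) htt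
    · exact h
  set P : Finset (Place k L) := (dv hL u).support.filter fun c => u ∉ c.ring with hP
  have hPm : ∀ c, c ∈ P ↔ u ∉ c.ring := by
    intro c
    rw [hP, Finset.mem_filter, Finsupp.mem_support_iff, dv_apply]
    refine ⟨fun h => h.2, fun h => ⟨fun h0 => h ((mem_iff_ord hL hu0).2 h0.ge), h⟩⟩
  have h2 := sum_over_pole hL hφ hti hpole Zc (fun σ => zerV hX hd σ v₀)
    (fun σ c _ h => hZc c σ v₀ h) P hPm
  rw [hC _ htt] at h1
  rw [hC _ hti] at h2
  have h3 : (dv hL u).sum (fun c n => n • Zc c) =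
      ∑ c ∈ (dv hL u).support.filter (fun c => u ∈ c.ring), ord c u • Zc c +
        ∑ c ∈ P, ord c u • Zc c := by
    rw [Finsupp.sum, ← Finset.sum_filter_add_sum_filter_not _ (fun c => u ∈ c.ring)]
    rfl
  have h4 : ∑ c ∈ (dv hL u).support.filter (fun c => u ∈ c.ring), ord c u • Zc c =
      ∑ c ∈ (finite_at hL hφ 0).toFinset, ord c (u - algebraMap k L 0) • Zc c := by
    rw [map_zero, sub_zero]
    refine Finset.sum_congr ?_ fun _ _ => rfl
    ext c
    rw [Finset.mem_filter, Finsupp.mem_support_iff, dv_apply, Set.Finite.mem_toFinset,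
      Set.mem_ofPred_eq, Place.at_zero_iff, vanishes_iff_ord hL hu0, mem_iff_ord hL hu0]
    omega
  rw [h3, h4, ← h1, h2, ← Finset.sum_add_distrib]
  refine Finset.sum_eq_zero fun c _ => ?_
  rw [neg_smul, neg_add_cancel]

end Pool.Agent.GTM
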