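import Pool.Agent.GTM.DkG
import Pool.Agent.GTM.ZerP
import Pool.Agent.GTM.CoF
import Pool.Agent.GTM.PrinDef

/-!
# Zero-cycles on varieties covered by Dickson curves
-/

set_option autoImplicit false

noncomputable section

namespace Pool.Agent.GTM

open Pool.Agent.ZCyc Pool.Agent.Dess Pool.Agent.GT Polynomial Pool.Agent.ZIso
open Pool.Agent.VFP (Om tt)
open scoped Classical LinearAlgebra.Projectivization

open Pool.Agent.TInc

section defs

variable {k L : Type} [Field k] [Field L] [Algebra k L] {m : ℕ}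

/-- The pairs of a cycle of values `∑ θ, [φ_θ(x, y)]` and the place of the base curve below. -/
def PairD (R : Type) [Field R] (μ : ℕ) (d : GD L m) (X : Set (MvPolynomial (Fin (m + 1)) k)) :
    Set ((Pt X k →₀ R) × (Place k L →₀ R)) :=
  {w | ∃ (K : Type) (_ : Field K) (_ : Algebra k K) (_ : IsCurve k K) (σ : L →ₐ[k] K)
    (v : Place k K) (c : Place k L) (e : ℕ) (θ : Fin e → K) (x y : K) (P : Fin e → Pt X k),
    v.ring.comap (σ : L →+* K) = c.ring ∧ IsValsD μ d X σ v θ x y P ∧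
      w = (∑ a, Finsupp.single (P a) 1, Finsupp.single c 1)}

/-- The cycles `∑ a_i ∑ θ, [φ_θ(p_i)]`, up to rational equivalence, such that the divisor `∑ a_i c_i`
is a combination of principal divisors, where `c_i` is the point of the base below `p_i`. -/
def KerD (R : Type) [Field R] [CharZero R] [IsAlgClosed k] [CharZero k] (hL : IsCurve k L)
    (μ : ℕ) (d : GD L m) (X : Set (MvPolynomial (Fin (m + 1)) k)) : Set (Pt X k →₀ R) :=
  {z | ∃ D ∈ PrinR R hL, (z, D) ∈ Submodule.span R (PairD R μ d X) ⊔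
    (RatR1 R X).prod (⊥ : Submodule R (Place k L →₀ R))}

end defs

variable {k L : Type} [Field k] [IsAlgClosed k] [CharZero k] [Field L] [Algebra k L] {m μ : ℕ}
  {X : Set (MvPolynomial (Fin (m + 1)) k)} {R : Type} [Field R] [CharZero R]

/-- `4 μ` times a value minus the sum over the points with `y = 0` -/
private theorem dkh_value (hX : Hom X) {d : GD L m} (hd : OkD μ d X) (σ : L →ₐ[k] Om k)
    (v : Place k (Om k)) {x y : Om k} (hx : x ≠ 0)
    (hxy : y ^ 2 = x ^ (2 * (2 * μ)) + σ (pullD μ d).B * x ^ (2 * μ) + σ (pullD μ d).α) :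
    ((2 * (2 * μ) : ℕ) : ℚ) • TV hX (hd.pull hX) σ v x y - zerV hX (hd.pull hX) σ v ∈
      Submodule.span ℚ (DiffD hX hd) := by
  have hpos : 0 < 2 * μ := (hd.pull hX).pos
  have hcard : Multiset.card (wP (2 * μ) (σ (pullD μ d).B) (σ (pullD μ d).α)).roots =
      2 * (2 * μ) := by
    rw [← wP_natDegree hpos (σ (pullD μ d).B) (σ (pullD μ d).α)]
    exact (IsAlgClosed.splits _).natDegree_eq_card_roots.symm
  have h1 : ((2 * (2 * μ) : ℕ) : ℚ) • TV hX (hd.pull hX) σ v x y -
      zerV hX (hd.pull hX) σ v =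
      ((wP (2 * μ) (σ (pullD μ d).B) (σ (pullD μ d).α)).roots.map fun x' =>
        TV hX (hd.pull hX) σ v x y - TV hX (hd.pull hX) σ v x' 0).sum := by
    rw [Multiset.sum_map_sub, Multiset.map_const', Multiset.sum_replicate, hcard,
      Nat.cast_smul_eq_nsmul]
    rfl
  rw [h1]
  refine multiset_sum_mem _ fun w hw => ?_
  obtain ⟨x', hx', rfl⟩ := Multiset.mem_map.1 hw
  have h2 := Polynomial.isRoot_of_mem_roots hx'
  rw [Polynomial.IsRoot, wP_eval] at h2
  have h3 : x' ≠ 0 := by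
    rintro rfl
    rw [zero_pow (by omega), zero_pow (by omega), mul_zero, add_zero, zero_add] at h2
    exact ((hd.pull hX).unit.map σ).ne_zero h2
  refine Submodule.subset_span ⟨σ, v, x, y, x', 0, hx, h3, hxy, ?_, rfl⟩
  rw [h2]
  ring

/-- the span of the differences -/
private theorem dkh_span (hX : Hom X) [NeZero (2 * μ)] {ζ : k} (hζ : IsPrimitiveRoot ζ (2 * μ))
    {d : GD L m} (hd : OkD μ d X) (hμ3 : 3 ≤ μ) {ξ : R} (hξ : IsPrimitiveRoot ξ (2 * μ))
    {z : Pt X k →₀ ℚ} (hz : cl1 X z ∈ Submodule.span ℚ (DiffD hX hd)) :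
    toR R z ∈ ⨆ i : Fin ((μ - 1) / 2), WR R (RotD hX ζ hd) (-ξ ^ (2 * (i.val + 1))) := by
  have i0 : 0 < (μ - 1) / 2 := by omega
  have hle := le_iSup (fun i : Fin ((μ - 1) / 2) =>
    WR R (RotD hX ζ hd) (-ξ ^ (2 * (i.val + 1)))) ⟨0, i0⟩
  have key : ∀ c ∈ Submodule.span ℚ (DiffD hX hd), ∀ u : Pt X k →₀ ℚ, cl1 X u = c →
      toR R u ∈ ⨆ i : Fin ((μ - 1) / 2), WR R (RotD hX ζ hd) (-ξ ^ (2 * (i.val + 1))) := by
    intro c hc
    induction hc using Submodule.span_induction with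
    | mem c hc =>
      intro u hu
      exact diff_mem_D hX hζ hd hμ3 hξ (by rw [hu]; exact hc)
    | zero =>
      intro u hu
      have h2 : toR R u ∈ RatR1 R X := toR_rat1 (mem_rat1.2 hu)
      exact hle (Submodule.mem_sup_right h2)
    | add c c' _ _ ih ih' =>
      intro u hu
      obtain ⟨b, hb⟩ := dke_surj c'
      have h2 := Submodule.add_mem _ (ih (u - b) (by rw [map_sub, hu, hb, add_sub_cancel_right]))
        (ih' b hb)
      rwa [← map_add, sub_add_cancel] at h2
    | smul q c _ ih =>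
      intro u hu
      obtain ⟨b, hb⟩ := dke_surj c
      have h2 : toR R (u - q • b) ∈ RatR1 R X := toR_rat1 (mem_rat1.2 (by
        rw [map_sub, map_smul, hu, hb, sub_self]))
      have h3 := hle (Submodule.mem_sup_right h2)
      have h4 := Submodule.smul_mem _ (algebraMap ℚ R q) (ih b hb)
      rw [algebraMap_smul, ← map_smul] at h4
      have h5 := Submodule.add_mem _ h3 h4
      rwa [← map_add, sub_add_cancel] at h5
  exact key _ hz z rfl

/-- The cycles in the kernel are combinations of eigenvectors, with coefficients in a field with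
enough roots of unity. -/
private theorem dkh_ker {R' : Type} [Field R'] [CharZero R'] [Algebra R R'] (hX : Hom X)
    (hL : IsCurve k L) [NeZero (2 * μ)] {ζ : k} (hζ : IsPrimitiveRoot ζ (2 * μ)) {d : GD L m}
    (hd : OkD μ d X) (hμ3 : 3 ≤ μ) {ξ : R'} (hξ : IsPrimitiveRoot ξ (2 * μ)) {z : Pt X k →₀ R}
    (hz : z ∈ KerD R hL μ d X) : toRR R R' z ∈
      ⨆ i : Fin ((μ - 1) / 2), WR R' (RotD hX ζ hd) (-ξ ^ (2 * (i.val + 1))) := by
  set T := ⨆ i : Fin ((μ - 1) / 2), WR R' (RotD hX ζ hd) (-ξ ^ (2 * (i.val + 1))) with hT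
  have i0 : 0 < (μ - 1) / 2 := by omega
  have hrat : RatR1 R' X ≤ T := le_sup_right.trans (le_iSup (fun i : Fin ((μ - 1) / 2) =>
    WR R' (RotD hX ζ hd) (-ξ ^ (2 * (i.val + 1)))) ⟨0, i0⟩)
  obtain ⟨Zc, hZ1, hZ2⟩ := exists_zerP hX hL (hd.pull hX)
  choose Y hY using fun c : Place k L => dke_surj (Zc c)
  let Γ : (Place k L →₀ R) →ₗ[R] (Pt X k →₀ R') :=
    Finsupp.linearCombination R fun c => toR R' (Y c)
  obtain ⟨D, hD, hzD⟩ := hz
  -- principal divisors
  have hΓ : Γ D ∈ T := by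
    have h1 : PrinR R hL ≤ (T.restrictScalars R).comap Γ := by
      refine Submodule.span_le.2 ?_
      rintro _ ⟨u, rfl⟩
      rw [SetLike.mem_coe, Submodule.mem_comap, Submodule.restrictScalars_mem]
      apply hrat
      have h2 : Γ ((dv hL u).mapRange (fun n : ℤ => (n : R)) Int.cast_zero) =
          toR R' ((dv hL u).sum fun c n => n • Y c) := by
        change Finsupp.linearCombination R (fun c => toR R' (Y c)) _ = _
        rw [Finsupp.linearCombination_apply, Finsupp.sum_mapRange_index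
          (h := fun c a => a • toR R' (Y c)) (fun c => zero_smul _ _),
          Finsupp.sum, Finsupp.sum, map_sum]
        refine Finset.sum_congr rfl fun c _ => ?_
        rw [map_zsmul, Int.cast_smul_eq_zsmul]
      rw [h2]
      refine toR_rat1 (mem_rat1.2 ?_)
      rw [Finsupp.sum, map_sum, ← hZ2 u, Finsupp.sum]
      refine Finset.sum_congr rfl fun c _ => ?_
      rw [map_zsmul, hY]
    exact h1 hD
  -- the linear map
  let Ψ : ((Pt X k →₀ R) × (Place k L →₀ R)) →ₗ[R] (Pt X k →₀ R') :=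
    ((2 * (2 * μ) : ℕ) : R) • (toRR R R').comp (LinearMap.fst R _ _) -
      Γ.comp (LinearMap.snd R _ _)
  have hΨ : ∀ w, Ψ w = ((2 * (2 * μ) : ℕ) : R) • toRR R R' w.1 - Γ w.2 := fun w => rfl
  have h1 : Submodule.span R (PairD R μ d X) ⊔
      (RatR1 R X).prod (⊥ : Submodule R (Place k L →₀ R)) ≤
        (T.restrictScalars R).comap Ψ := by
    refine sup_le (Submodule.span_le.2 ?_) ?_
    · rintro _ ⟨K, _, _, hK, σ₀, v₀, c, e, θ, x₀, y₀, P, hc, hP, rfl⟩
      rw [SetLike.mem_coe, Submodule.mem_comap, Submodule.restrictScalars_mem, hΨ]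
      obtain ⟨ι, v, hv⟩ := exists_embed hK v₀
      have g := hP.map hv
      obtain ⟨w, s, hw, hws, hx, hy⟩ := dk_lift' hd g.on
      have g2 := g.cls hX hd hw hws hx hy
      have g3 : v.ring.comap ((ι.comp σ₀ : L →ₐ[k] Om k) : L →+* Om k) = c.ring := by
        rw [← hc, ← hv]
        rfl
      have g4 := dkh_value hX hd (ι.comp σ₀) v hw hws
      rw [hZ1 _ v c g3, ← g2, ← hY c, ← map_smul, ← map_sub] at g4
      have g5 := dkh_span (R := R') hX hζ hd hμ3 hξ g4
      have g6 : toR R' (((2 * (2 * μ) : ℕ) : ℚ) • (∑ b, Finsupp.single (P b) 1) - Y c) =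
          ((2 * (2 * μ) : ℕ) : R) • toRR R R' (∑ b, Finsupp.single (P b) 1) -
            Γ (Finsupp.single c 1) := by
        have e1 : toRR R R' (∑ b, Finsupp.single (P b) (1 : R)) =
            toR R' (∑ b, Finsupp.single (P b) (1 : ℚ)) := by
          rw [← toRR_toR (R := R), map_sum (toR R)]
          congr 1
          refine Finset.sum_congr rfl fun b _ => ?_
          rw [toR_single, map_one]
        have e2 : Γ (Finsupp.single c 1) = toR R' (Y c) := by
          change Finsupp.linearCombination R (fun c => toR R' (Y c)) _ = _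
          rw [Finsupp.linearCombination_single, one_smul]
        rw [e1, e2, map_sub, map_smul, Nat.cast_smul_eq_nsmul, Nat.cast_smul_eq_nsmul]
      rw [← g6]
      exact g5
    · rintro ⟨z, D'⟩ ⟨hz1, hz2⟩
      have hz2' : D' = 0 := hz2
      rw [Submodule.mem_comap, Submodule.restrictScalars_mem, hΨ, hz2', map_zero, sub_zero,
        Nat.cast_smul_eq_nsmul]
      exact Submodule.smul_of_tower_mem _ _ (hrat (toRR_rat1 hz1))
  have h2 := h1 hzD
  rw [Submodule.mem_comap, Submodule.restrictScalars_mem, hΨ] at h2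
  have h3 := T.add_mem h2 hΓ
  rw [sub_add_cancel, ← algebraMap_smul R'] at h3
  refine (Submodule.smul_mem_iff _ ?_).1 h3
  rw [map_natCast, Nat.cast_ne_zero]
  omega

/-- **Zero-cycles on varieties covered by Dickson curves.** -/
theorem main_dickson (hX : Hom X) (hL : IsCurve k L) {d : GD L m} (hd : OkD μ d X)
    (hμ3 : 3 ≤ μ) {A : Place k L →₀ ℤ} {a g : ℕ} (hA : deg A = a) (ha : 0 < a)
    (hf : ∀ v, 0 ≤ ord v d.α + 4 * A v) (hB : ∀ v, 0 ≤ ord v d.B + 2 * μ * A v)
    (hJ : ∀ c : k, d.B ^ 2 ≠ algebraMap k L c * d.α ^ μ) (hg : Riemann hL g) {N : ℕ}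
    (hN : N + 1 = (μ - 2) * a + g) {ξ : k} (hξ : IsPrimitiveRoot ξ μ) {h r : ℕ}
    {β : Equiv.Perm (Fin r) → R} (hβ : KillsTensors (h * N) β) (z : Fin r → (Pt X k →₀ R))
    (hz : (∃ Ω : Fin h → R, (∀ i, Ω i ^ μ = 1 ∧ Ω i ^ 2 ≠ 1) ∧
        ∀ j, z j ∈ (⨆ i, Submodule.span R (EigCycD R μ d X ξ (Ω i))) ⊔ RatR1 R X) ∨
      h = (μ - 1) / 2 ∧ ∀ j, z j ∈ KerD R hL μ d X) :
    ∑ τ : Equiv.Perm (Fin r), β τ • extR (fun j => z (τ j)) ∈ RatR R X (Fin r) := by
  have : NeZero μ := ⟨by omega⟩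
  have : NeZero (2 * μ) := ⟨by omega⟩
  obtain ⟨ζ, hζ, hζξ⟩ := exists_zeta hd.pos hξ
  have hB' : ∀ v, 0 ≤ ord v (pullD μ d).B + (2 * μ : ℕ) * A v := by
    intro v
    push_cast
    exact hB v
  have hδ' : ∀ v, 0 ≤ ord v (pullD μ d).α + 2 * (2 * μ : ℕ) * A v := by
    intro v
    have h1 : (pullD μ d).α = d.α ^ μ := rfl
    rw [h1, ord_pow hL]
    have h2 := mul_nonneg (Nat.cast_nonneg (α := ℤ) μ) (hf v)
    push_cast
    linarith
  -- the main theorem for a field of coefficients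
  have main : ∀ (R' : Type) [Field R'] [CharZero R'] (β' : Equiv.Perm (Fin r) → R'),
      KillsTensors (h * N) β' → ∀ Ω : Fin h → R', (∀ i, Ω i ^ μ = 1 ∧ Ω i ^ 2 ≠ 1) →
      ∀ z : Fin r → (Pt X k →₀ R'), (∀ j, z j ∈ ⨆ i, WR R' (RotD hX ζ hd) (-Ω i)) →
      ∑ τ : Equiv.Perm (Fin r), β' τ • extR (fun j => z (τ j)) ∈ RatR R' X (Fin r) := by
    intro R' _ _ β' hβ' Ω hΩ z hz
    refine kill_II hX hL (hd.pull hX) hζ hA ha hB' hδ' (fun c => hJ c) hg (f := d.α) rfl
      hN.ge (isRotL_D hX ζ hd) (fun i => -Ω i) (fun i => ⟨?_, ?_⟩) hβ' z hz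
    · rw [neg_pow, (hΩ i).1, mul_one]
    · rw [neg_sq]
      exact (hΩ i).2
  rcases hz with ⟨Ω, hΩ, hz⟩ | ⟨hh, hz⟩
  · rcases Nat.eq_zero_or_pos h with h0 | h0
    · subst h0
      have hz' : ∀ j, z j ∈ RatR1 R X := by
        intro j
        have h1 := hz j
        rw [iSup_of_empty, bot_sup_eq] at h1
        exact h1
      rcases Nat.eq_zero_or_pos r with hr | hr
      · subst hr
        have h1 := hβ (fun i => i.elim0) (fun i => i.elim0)
        have h2 : ∀ τ : Equiv.Perm (Fin 0), β τ = 0 := by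
          intro τ
          rw [Finset.sum_eq_single τ (fun b _ hb => absurd (Subsingleton.elim b τ) hb)] at h1
          · exact h1
          · intro h3
            exact (h3 (Finset.mem_filter.2 ⟨Finset.mem_univ _, by
              exact Subsingleton.elim (α := Fin 0 → _) _ _⟩)).elim
        refine Submodule.sum_mem _ fun τ _ => ?_
        rw [h2 τ, zero_smul]
        exact Submodule.zero_mem _
      · exact Submodule.sum_mem _ fun τ _ => Submodule.smul_mem _ _
          (extR_rat hX _ ⟨0, hr⟩ (hz' _))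
    · refine main R β hβ Ω hΩ z fun j => ?_
      have h1 : (⨆ i, Submodule.span R (EigCycD R μ d X ξ (Ω i))) ⊔ RatR1 R X ≤
          ⨆ i, WR R (RotD hX ζ hd) (-Ω i) := by
        refine sup_le (iSup_le fun i => Submodule.span_le.2 fun w hw => ?_) ?_
        · exact le_iSup (fun i => WR R (RotD hX ζ hd) (-Ω i)) i
            (eigCycD_mem hX hζ hζξ hd (hΩ i).1 (hΩ i).2 hw)
        · exact le_sup_right.trans (le_iSup (fun i => WR R (RotD hX ζ hd) (-Ω i)) ⟨0, h0⟩)
      exact h1 (hz j)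
  · subst hh
    let R' := AlgebraicClosure R
    have : CharZero R' := charZero_of_injective_algebraMap (algebraMap R R').injective
    obtain ⟨η, hη⟩ : ∃ η : R', IsPrimitiveRoot η (2 * μ) :=
      HasEnoughRootsOfUnity.exists_primitiveRoot R' (2 * μ)
    refine toRR_mem (R' := R') ?_
    rw [toRR_sum]
    refine main R' _ (killsTensors_toRR hβ) (fun i => η ^ (2 * (i.val + 1)))
      (fun i => ⟨?_, fun h1 => ?_⟩) (fun j => toRR R R' (z j)) fun j => ?_
    · rw [← pow_mul, mul_comm, mul_comm 2, ← mul_assoc, mul_comm, ← mul_assoc, pow_mul,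
        hη.pow_eq_one, one_pow]
    · rw [← pow_mul] at h1
      have h2 := Nat.le_of_dvd (by omega) ((hη.pow_eq_one_iff_dvd _).1 h1)
      have h3 := i.2
      omega
    · exact dkh_ker hX hL hζ hd hμ3 hη (hz j)

end Pool.Agent.GTM
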