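import Pool.Agent.GTM.CoB

/-!
# Alternating sums of products of cycles with coefficients in a field
-/

set_option autoImplicit false

noncomputable section

namespace Pool.Agent.GTM

open Pool.Agent.ZCyc Pool.Agent.Dess Pool.Agent.GT
open scoped Classical LinearAlgebra.Projectivization

variable {R : Type} [Field R] [CharZero R] {n : ℕ}

omit [CharZero R] in
/-- A multilinear map which vanishes on generators vanishes on their span. -/
private theorem mna_span {V W : Type} [AddCommGroup V] [Module R V] [AddCommGroup W] [Module R W]
    (E : MultilinearMap R (fun _ : Fin n => V) W) (S : Set V)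
    (h : ∀ z : Fin n → V, (∀ j, z j ∈ S) → E z = 0) (T : Finset (Fin n)) :
    ∀ z : Fin n → V, (∀ j ∈ T, z j ∈ Submodule.span R S) → (∀ j ∉ T, z j ∈ S) → E z = 0 := by
  induction T using Finset.induction_on with
  | empty => exact fun z _ hz => h z fun j => hz j (Finset.notMem_empty j)
  | insert a T ha ih =>
    intro z hz hz'
    have key : ∀ u ∈ Submodule.span R S, E (Function.update z a u) = 0 := by
      intro u hu
      induction hu using Submodule.span_induction with
      | mem u hu =>
        refine ih _ (fun j hj => ?_) (fun j hj => ?_)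
        · have hja : j ≠ a := fun h0 => ha (h0 ▸ hj)
          rw [Function.update_of_ne hja]
          exact hz j (Finset.mem_insert_of_mem hj)
        · by_cases hja : j = a
          · subst hja
            rw [Function.update_self]
            exact hu
          · rw [Function.update_of_ne hja]
            exact hz' j fun h0 => (Finset.mem_insert.1 h0).elim hja hj
      | zero => exact E.map_update_zero _ _
      | add u w _ _ hu hw => rw [E.map_update_add, hu, hw, add_zero]
      | smul c u _ hu => rw [E.map_update_smul, hu, smul_zero]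
    have h1 := key (z a) (hz a (Finset.mem_insert_self a T))
    rwa [Function.update_eq_self] at h1

variable {k : Type} [Field k] [IsAlgClosed k] [CharZero k] {m : ℕ}
  {X : Set (MvPolynomial (Fin (m + 1)) k)}

/-- the alternating sum of the products -/
def altR (z : Fin n → (Pt X k →₀ R)) : (Fin n → Pt X k) →₀ R :=
  ∑ π : Equiv.Perm (Fin n), ((Equiv.Perm.sign π : ℤˣ) : ℤ) • extR (fun j => z (π j))

omit [IsAlgClosed k] [CharZero k] in
/-- the alternating sum is multilinear -/
private theorem mna_lin : ∃ E : MultilinearMap R (fun _ : Fin n => Pt X k →₀ R)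
    ((Fin n → Pt X k) →₀ R), ∀ z, E z = altR z := by
  obtain ⟨F, hF⟩ := extR_linear R (Pt X k) n
  refine ⟨∑ π : Equiv.Perm (Fin n), ((Equiv.Perm.sign π : ℤˣ) : ℤ) • F.domDomCongr π⁻¹,
    fun z => ?_⟩
  unfold altR
  rw [sum_apply, ← Equiv.sum_comp (Equiv.inv (Equiv.Perm (Fin n)))]
  refine Finset.sum_congr rfl fun π _ => ?_
  rw [smul_apply, MultilinearMap.domDomCongr_apply]
  simp only [Equiv.inv_apply, Equiv.Perm.sign_inv, inv_inv]
  rw [hF]

/-- If the alternating sum is rationally equivalent to zero for generators then this is so for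
their span, and for cycles which are rationally equivalent to elements of the span. -/
theorem altR_span (hX : Hom X) (G : Set (Pt X k →₀ R))
    (h : ∀ z : Fin n → (Pt X k →₀ R), (∀ j, z j ∈ G) → altR z ∈ RatR R X (Fin n))
    (z : Fin n → (Pt X k →₀ R)) (hz : ∀ j, z j ∈ Submodule.span R G ⊔ RatR1 R X) :
    altR z ∈ RatR R X (Fin n) := by
  obtain ⟨E, hE⟩ := mna_lin (R := R) (n := n) (X := X)
  have h1 := mna_span ((RatR R X (Fin n)).mkQ.compMultilinearMap E)
    (G ∪ (RatR1 R X : Set (Pt X k →₀ R))) ?_ Finset.univ z (fun j _ => ?_)
    (fun j hj => absurd (Finset.mem_univ j) hj)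
  · rw [LinearMap.compMultilinearMap_apply, hE, Submodule.mkQ_apply,
      Submodule.Quotient.mk_eq_zero] at h1
    exact h1
  · intro z hz
    rw [LinearMap.compMultilinearMap_apply, hE, Submodule.mkQ_apply,
      Submodule.Quotient.mk_eq_zero]
    by_cases hj : ∃ j, z j ∈ RatR1 R X
    · obtain ⟨j, hj⟩ := hj
      unfold altR
      refine Submodule.sum_mem _ fun π _ => ?_
      have h2 : extR (fun j => z (π j)) ∈ RatR R X (Fin n) :=
        extR_rat hX _ (π⁻¹ j) (by simpa using hj)
      exact zsmul_mem h2 _
    · push Not at hj
      exact h z fun j => (hz j).resolve_right (hj j)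
  · rw [Submodule.span_union, Submodule.span_eq]
    exact hz j

end Pool.Agent.GTM
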