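import Pool.Agent.GTM.CoC

/-!
# Elements of the group algebra of the symmetric group and sums of subspaces
-/

set_option autoImplicit false

noncomputable section

namespace Pool.Agent.GTM

open Pool.Agent.ZCyc Pool.Agent.Dess Pool.Agent.GT Pool.Agent.ZIso
open scoped Classical LinearAlgebra.Projectivization

variable {R : Type} [Field R] [CharZero R] {k : Type} [Field k] [IsAlgClosed k] [CharZero k]
  {m : ℕ} {X : Set (MvPolynomial (Fin (m + 1)) k)}

omit [CharZero R] [IsAlgClosed k] [CharZero k] in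
private theorem mem_fix {r : ℕ} {J : Finset (Fin r)} {π : Equiv.Perm (Fin r)} :
    π ∈ fixing J ↔ ∀ i ∉ J, π i = i := by
  simp [fixing]

/-- The alternating sum over the permutations of `J'`, composed with a permutation. -/
private theorem inner_zero {r : ℕ} {J' : Finset (Fin r)}
    (u : Fin r → (Pt X k →₀ R))
    (h : ∑ ρ ∈ fixing J', ((Equiv.Perm.sign ρ : ℤ) : R) • extR (u ∘ ⇑ρ) ∈ RatR R X (Fin r))
    (π : Equiv.Perm (Fin r)) :
    ∑ ρ ∈ fixing J', ((Equiv.Perm.sign ρ : ℤ) : R) • extR (u ∘ ⇑(ρ * π)) ∈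
      RatR R X (Fin r) := by
  have h1 := extR_perm_rat _ h π
  have h2 : Finsupp.mapDomain (fun (x : Fin r → Pt X k) j => x (π j))
      (∑ ρ ∈ fixing J', ((Equiv.Perm.sign ρ : ℤ) : R) • extR (u ∘ ⇑ρ)) =
      ∑ ρ ∈ fixing J', ((Equiv.Perm.sign ρ : ℤ) : R) • extR (u ∘ ⇑(ρ * π)) := by
    rw [← Finsupp.lmapDomain_apply R R, map_sum]
    refine Finset.sum_congr rfl fun ρ _ => ?_
    rw [map_smul, Finsupp.lmapDomain_apply, ← extR_perm]
    rfl
  rwa [h2] at h1

/-- The alternating sum over the permutations of `J`, from the one for `J' ⊆ J`. -/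
private theorem outer_zero {r : ℕ} {J J' : Finset (Fin r)} (hJ : J' ⊆ J)
    (u : Fin r → (Pt X k →₀ R))
    (h : ∑ ρ ∈ fixing J', ((Equiv.Perm.sign ρ : ℤ) : R) • extR (u ∘ ⇑ρ) ∈ RatR R X (Fin r)) :
    ∑ π ∈ fixing J, ((Equiv.Perm.sign π : ℤ) : R) • extR (u ∘ ⇑π) ∈ RatR R X (Fin r) := by
  set S := ∑ π ∈ fixing J, ((Equiv.Perm.sign π : ℤ) : R) • extR (u ∘ ⇑π) with hS
  have h1 : ∀ ρ ∈ fixing J', ∑ π ∈ fixing J, ((Equiv.Perm.sign π : ℤ) : R) •
      (((Equiv.Perm.sign ρ : ℤ) : R) • extR (u ∘ ⇑(ρ * π))) = S := by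
    intro ρ hρ
    rw [mem_fix] at hρ
    have hρ' : ∀ i ∉ J, ρ i = i := fun i hi => hρ i fun h => hi (hJ h)
    rw [hS]
    refine Finset.sum_bij (fun π _ => ρ * π) ?_ ?_ ?_ ?_
    · intro π hπ
      rw [mem_fix] at hπ ⊢
      intro i hi
      rw [Equiv.Perm.mul_apply, hπ i hi, hρ' i hi]
    · intro π _ π' _ h
      exact mul_left_cancel h
    · intro π hπ
      rw [mem_fix] at hπ
      refine ⟨ρ⁻¹ * π, ?_, mul_inv_cancel_left ρ π⟩
      rw [mem_fix]
      intro i hi
      rw [Equiv.Perm.mul_apply, hπ i hi, Equiv.Perm.inv_eq_iff_eq, hρ' i hi]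
    · intro π _
      rw [smul_smul, Equiv.Perm.sign_mul]
      push_cast
      rw [mul_comm]
  have h2 : ((fixing J').card : R) • S ∈ RatR R X (Fin r) := by
    have h3 : ((fixing J').card : R) • S = ∑ π ∈ fixing J, ((Equiv.Perm.sign π : ℤ) : R) •
        ∑ ρ ∈ fixing J', ((Equiv.Perm.sign ρ : ℤ) : R) • extR (u ∘ ⇑(ρ * π)) := by
      simp_rw [Finset.smul_sum]
      rw [Finset.sum_comm, Finset.sum_congr rfl h1, Finset.sum_const, Nat.cast_smul_eq_nsmul]
    rw [h3]
    exact Submodule.sum_mem _ fun π _ => Submodule.smul_mem _ _ (inner_zero u h π)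
  have h3 : ((fixing J').card : R) ≠ 0 := by
    rw [Nat.cast_ne_zero, Finset.card_ne_zero]
    exact ⟨1, mem_fix.2 fun _ _ => rfl⟩
  exact (Submodule.smul_mem_iff _ h3).1 h2

/-- The alternating sum over a set `J` with `h * N + 1` elements. -/
private theorem alt_zero (hX : Hom X) {N h : ℕ} (W : Fin h → Submodule R (Pt X k →₀ R))
    (h0 : ∀ (i : Fin h) (w : Fin (N + 1) → (Pt X k →₀ R)), (∀ j, w j ∈ W i) →
      ∑ π : Equiv.Perm (Fin (N + 1)), ((Equiv.Perm.sign π : ℤ) : R) • extR (fun j => w (π j)) ∈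
        RatR R X (Fin (N + 1)))
    {r : ℕ} {J : Finset (Fin r)} (hJ : J.card = h * N + 1) :
    ∀ (T : Finset (Fin r)) (u : Fin r → (Pt X k →₀ R)), (∀ j, u j ∈ ⨆ i, W i) →
      (∀ j ∉ T, ∃ i, u j ∈ W i) →
      ∑ π ∈ fixing J, ((Equiv.Perm.sign π : ℤ) : R) • extR (u ∘ ⇑π) ∈ RatR R X (Fin r) := by
  obtain ⟨F, hF⟩ := extR_linear R (Pt X k) r
  set G : MultilinearMap R (fun _ : Fin r => Pt X k →₀ R) ((Fin r → Pt X k) →₀ R) :=
    ∑ π ∈ fixing J, ((Equiv.Perm.sign π : ℤ) : R) • F.domDomCongr π with hG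
  have hGu : ∀ u : Fin r → (Pt X k →₀ R),
      ∑ π ∈ fixing J, ((Equiv.Perm.sign π : ℤ) : R) • extR (u ∘ ⇑π) = G u := by
    intro u
    rw [hG, sum_apply]
    refine Finset.sum_congr rfl fun π _ => ?_
    rw [smul_apply, MultilinearMap.domDomCongr_apply, hF]
    rfl
  intro T
  induction T using Finset.induction_on with
  | empty =>
    intro u _ hu
    choose i hi using fun j => hu j (Finset.notMem_empty j)
    obtain ⟨y, _, hy⟩ := Finset.exists_lt_card_fiber_of_mul_lt_card_of_maps_to
      (s := J) (t := (Finset.univ : Finset (Fin h))) (f := i) (n := N)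
      (fun _ _ => Finset.mem_univ _) (by rw [hJ, Finset.card_univ, Fintype.card_fin]; omega)
    obtain ⟨J', hJ', hc⟩ := Finset.exists_subset_card_eq (Nat.succ_le_of_lt hy)
    have hsub : J' ⊆ J := hJ'.trans (Finset.filter_subset _ _)
    refine outer_zero hsub u (fixing_extR hX (N := N + 1) hc u ?_)
    refine h0 y (fun a => u ((J'.orderIsoOfFin hc).toEquiv a : Fin r)) fun a => ?_
    have h1 := hJ' ((J'.orderIsoOfFin hc).toEquiv a).2
    rw [Finset.mem_filter] at h1
    rw [← h1.2]
    exact hi _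
  | insert a T _ ih =>
    intro u hu hT
    have h1 : ∀ x ∈ ⨆ i, W i, G (Function.update u a x) ∈ RatR R X (Fin r) := by
      intro x hx
      refine Submodule.iSup_induction' W
        (motive := fun x _ => G (Function.update u a x) ∈ RatR R X (Fin r)) ?_ ?_ ?_ hx
      · intro i x hx
        rw [← hGu]
        refine ih _ (fun j => ?_) fun j hj => ?_
        · by_cases hja : j = a
          · rw [hja, Function.update_self]
            exact Submodule.mem_iSup_of_mem i hx
          · rw [Function.update_of_ne hja]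
            exact hu j
        · by_cases hja : j = a
          · rw [hja, Function.update_self]
            exact ⟨i, hx⟩
          · rw [Function.update_of_ne hja]
            exact hT j fun h => (Finset.mem_insert.1 h).elim hja hj
      · rw [MultilinearMap.map_update_zero]
        exact Submodule.zero_mem _
      · intro x y _ _ hx hy
        rw [MultilinearMap.map_update_add]
        exact Submodule.add_mem _ hx hy
    rw [hGu]
    have h2 := h1 (u a) (hu a)
    rwa [Function.update_eq_self] at h2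

/-- Let `W i`, for `i < h`, be spaces of cycles such that the alternating sums of the products of
`N + 1` cycles in `W i` are rationally equivalent to zero, and let `β` be an element of the group
algebra of `S_r` which kills the tensors of degree `r` in `h N` dimensions. Then `β` kills the
products of `r` cycles in the sum of the `W i`. Proof: `second_fundamental` (`ZIso/SFT.lean`) in the
quotient by `RatR R X (Fin r)`, with `n = h * N`, `f τ = ` the class of `extR (w ∘ τ)`. For `J` with
`h * N + 1` elements, and `u = w ∘ τ` (`τ` fixed) we have to show that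
`∑ π ∈ fixing J, sign π • extR (u ∘ π)` is zero. By multilinearity (`Submodule.iSup_induction` for
every factor) we may assume `u j ∈ W (i j)` for all `j`. There is an `i` and a subset `J'` of `J`
with `N + 1` elements such that `i j = i` for `j ∈ J'`. For `ρ ∈ fixing J'` the map `π ↦ ρ * π` is a
permutation of `fixing J`, so `(N + 1)!` times the sum is the sum over `π ∈ fixing J` of `sign π •`
(the sum over `ρ ∈ fixing J'` of `sign ρ • extR (u ∘ ρ ∘ π)`), and the inner sum is zero by
`fixing_extR`, `extR_perm`, `extR_perm_rat`. -/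
theorem kill_extR (hX : Hom X) {N h : ℕ} (W : Fin h → Submodule R (Pt X k →₀ R))
    (h0 : ∀ (i : Fin h) (w : Fin (N + 1) → (Pt X k →₀ R)), (∀ j, w j ∈ W i) →
      ∑ π : Equiv.Perm (Fin (N + 1)), ((Equiv.Perm.sign π : ℤ) : R) • extR (fun j => w (π j)) ∈
        RatR R X (Fin (N + 1)))
    {r : ℕ} {β : Equiv.Perm (Fin r) → R} (hβ : KillsTensors (h * N) β)
    (w : Fin r → (Pt X k →₀ R)) (hw : ∀ j, w j ∈ ⨆ i, W i) :
    ∑ τ : Equiv.Perm (Fin r), β τ • extR (fun j => w (τ j)) ∈ RatR R X (Fin r) := by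
  have h1 : ∑ τ : Equiv.Perm (Fin r), β τ •
      (RatR R X (Fin r)).mkQ (extR (fun j => w (τ j))) = 0 := by
    refine second_fundamental (n := h * N) (fun τ J hJ => ?_) hβ
    have h2 := alt_zero hX W h0 hJ Finset.univ (fun j => w (τ j)) (fun j => hw _)
      (fun j hj => absurd (Finset.mem_univ j) hj)
    rw [← Submodule.Quotient.mk_eq_zero, ← Submodule.mkQ_apply, map_sum] at h2
    rw [← h2]
    refine Finset.sum_congr rfl fun π _ => ?_
    rw [map_smul]
    rfl
  rw [← Submodule.Quotient.mk_eq_zero, ← Submodule.mkQ_apply, map_sum, ← h1]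
  exact Finset.sum_congr rfl fun τ _ => map_smul _ _ _

end Pool.Agent.GTM
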