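import Pool.Agent.GTM.Cong

/-!
# The points at infinity
-/

set_option autoImplicit false

noncomputable section

namespace Pool.Agent.GTM

open Pool.Agent.ZCyc Pool.Agent.Dess Pool.Agent.GT Polynomial
open Pool.Agent.VFP (Om tt)
open scoped Classical LinearAlgebra.Projectivization

variable {k : Type} [Field k] [IsAlgClosed k] [CharZero k] {m : ℕ} {d : ℕ}
  {X : Set (MvPolynomial (Fin (m + 1)) k)}

/-- the coordinates in terms of `x' = 1 / x`, `y' = y / x ^ d` -/
def flipN {K : Type} [Field K] (E d : ℕ) (N : Mp K m) : Mp K m :=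
  ⟨fun i => (N.G i).reflect E, fun i => (N.H i).reflect (E - d)⟩

/-- `E` is large enough -/
def FlipOk {K : Type} [Field K] (E d : ℕ) (N : Mp K m) : Prop :=
  ∀ i, (N.G i).natDegree ≤ E ∧ (N.H i).natDegree + d ≤ E

private theorem eval_reflect {K : Type} [Field K] {n : ℕ} {p : K[X]} (hp : p.natDegree ≤ n) {x : K}
    (hx : x ≠ 0) : p.eval x = x ^ n * (p.reflect n).eval x⁻¹ := by
  have : Invertible x := invertibleOfNonzero hx
  have h := eval₂_reflect_mul_pow (RingHom.id K) x n p hp
  rw [invOf_eq_inv] at h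
  simp only [eval₂_id] at h
  rw [← h, mul_comm]

/-- `Polynomial.eval₂_reflect_mul_pow` -/
theorem flip_co {K : Type} [Field K] {E : ℕ} {N : Mp K m} (hE : FlipOk E d N) {x : K}
    (hx : x ≠ 0) (y : K) (i : Fin (m + 1)) :
    N.co x y i = x ^ E * (flipN E d N).co x⁻¹ (y / x ^ d) i := by
  have hG := (hE i).1
  have hH := (hE i).2
  have h1 := eval_reflect hG hx
  have h2 : (N.H i).eval x = x ^ (E - d) * ((N.H i).reflect (E - d)).eval x⁻¹ :=
    eval_reflect (by omega) hx
  have h3 : x ^ E = x ^ (E - d) * x ^ d := by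
    rw [← pow_add, Nat.sub_add_cancel (by omega)]
  change (N.G i).eval x + (N.H i).eval x * y = x ^ E * (((N.G i).reflect E).eval x⁻¹ +
    ((N.H i).reflect (E - d)).eval x⁻¹ * (y / x ^ d))
  rw [h1, h2, mul_add]
  congr 1
  rw [h3]
  field_simp

/-- the roots of the reversed polynomial -/
private theorem roots_rev {K : Type} [Field K] [IsAlgClosed K] (n : ℕ) : ∀ p : K[X],
    p.natDegree = n → p.coeff 0 ≠ 0 → p.reverse.roots = p.roots.map fun a => a⁻¹ := by
  induction n with
  | zero =>
    intro p hp _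
    rw [eq_C_of_natDegree_eq_zero hp, reverse_C, roots_C, Multiset.map_zero]
  | succ n ih =>
    intro p hp h0
    obtain ⟨a, ha⟩ := IsAlgClosed.exists_root p (by
      intro h1
      have h2 : p.natDegree = 0 := natDegree_eq_of_degree_eq_some h1
      omega)
    obtain ⟨q, rfl⟩ := dvd_iff_isRoot.2 ha
    have hq0 : q ≠ 0 := by
      rintro rfl
      simp at h0
    rw [mul_coeff_zero] at h0
    have ha0 : a ≠ 0 := by
      rintro rfl
      simp at h0
    have hqc : q.coeff 0 ≠ 0 := right_ne_zero_of_mul h0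
    have hdeg : q.natDegree = n := by
      rw [natDegree_mul (X_sub_C_ne_zero a) hq0, natDegree_X_sub_C] at hp
      omega
    have h1 : (Polynomial.X - C a : K[X]).reverse = C (-a) * (Polynomial.X - C a⁻¹) := by
      have h2 : (Polynomial.X - C a : K[X]).reverse = reflect 1 (Polynomial.X - C a) := by
        rw [reverse, natDegree_X_sub_C]
      rw [h2, reflect_sub, reflect_one_X, reflect_C, pow_one, mul_sub, ← C_mul, neg_mul,
        mul_inv_cancel₀ ha0, C_neg, C_neg, C_1]
      ring
    have hr0 : q.reverse ≠ 0 := by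
      rw [Ne, reverse_eq_zero]
      exact hq0
    rw [reverse_mul_of_domain, h1, mul_assoc, roots_C_mul _ (neg_ne_zero.2 ha0),
      roots_mul (mul_ne_zero (X_sub_C_ne_zero _) hr0), roots_mul (mul_ne_zero (X_sub_C_ne_zero _) hq0),
      roots_X_sub_C, roots_X_sub_C, ih q hdeg hqc, Multiset.map_add, Multiset.map_singleton]

omit [IsAlgClosed k] [CharZero k] in
private theorem exists_ab {K : Type} [Field K] [Algebra k K] (P : K[X]) (N : Mp K m)
    (f : MvPolynomial (Fin (m + 1)) k) : ∃ a b : K[X], ∀ x y : K, y ^ 2 = P.eval x →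
      MvPolynomial.aeval (N.co x y) f = a.eval x + b.eval x * y := by
  induction f using MvPolynomial.induction_on with
  | C r =>
    refine ⟨C (algebraMap k K r), 0, ?_⟩
    intro x y _
    rw [MvPolynomial.aeval_C, eval_C, eval_zero, zero_mul, add_zero]
  | add f g hf hg =>
    obtain ⟨a, b, h1⟩ := hf
    obtain ⟨a', b', h2⟩ := hg
    refine ⟨a + a', b + b', ?_⟩
    intro x y hy
    rw [map_add, h1 x y hy, h2 x y hy, eval_add, eval_add]
    ring
  | mul_X f i hf =>
    obtain ⟨a, b, h1⟩ := hf
    refine ⟨a * N.G i + b * N.H i * P, a * N.H i + b * N.G i, ?_⟩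
    intro x y hy
    rw [map_mul, h1 x y hy, MvPolynomial.aeval_X]
    have hco : N.co x y i = (N.G i).eval x + (N.H i).eval x * y := rfl
    rw [hco]
    simp only [eval_add, eval_mul]
    linear_combination (b.eval x * (N.H i).eval x) * hy

/-- The conditions for the flipped data. The equations at the points with `x' ≠ 0` follow from
`flip_co` and homogeneity (`aeval_smul_homog`). For fixed `f ∈ X` there are polynomials `a`, `b` with
`f(co(x', y')) = a(x') + b(x') y'` on the curve (by induction on `f`, compare `exists_ab` in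
`GT/RedPol.lean`); for `x' ≠ 0`, `P'(x') ≠ 0` both square roots give zero, so `a(x') = b(x') = 0`, hence
`a = b = 0`. -/
theorem OkH.flip {K : Type} [Field K] [IsAlgClosed K] [CharZero K] [Algebra k K] {P : K[X]}
    {N : Mp K m} (hX : Hom X) (hN : OkH d P N X) (h0 : P.coeff 0 ≠ 0) {E : ℕ}
    (hE : FlipOk E d N) : OkH d P.reverse (flipN E d N) X := by
  have hP0 : P ≠ 0 := by
    rintro rfl
    simp at h0
  have hrev : P.reverse = P.reflect (2 * d) := by
    rw [reverse, hN.deg]
  have hr0 : P.reverse ≠ 0 := by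
    rw [Ne, reverse_eq_zero]
    exact hP0
  refine ⟨hN.pos, ?_, ?_, ?_, ?_⟩
  · rw [reverse_natDegree, hN.deg, natTrailingDegree_eq_zero.2 (Or.inr h0), Nat.sub_zero]
  · rw [← nodup_roots_iff_of_splits hr0 (IsAlgClosed.splits _), roots_rev _ P rfl h0]
    exact Multiset.Nodup.map inv_injective (nodup_roots hN.sep)
  · obtain ⟨i, hi⟩ := hN.ne
    refine ⟨i, hi.imp (fun h => ?_) fun h => ?_⟩
    · change (N.G i).reflect E ≠ 0
      rwa [Ne, reflect_eq_zero_iff]
    · change (N.H i).reflect (E - d) ≠ 0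
      rwa [Ne, reflect_eq_zero_iff]
  · intro f hf
    obtain ⟨e, he⟩ := hX f hf
    obtain ⟨a, b, hab⟩ := exists_ab P.reverse (flipN E d N) f
    have key : ∀ x y : K, x ≠ 0 → y ^ 2 = P.reverse.eval x →
        MvPolynomial.aeval ((flipN E d N).co x y) f = 0 := by
      intro x y hx hy
      have hx' : x⁻¹ ≠ 0 := inv_ne_zero hx
      have h1 : P.eval x⁻¹ = x⁻¹ ^ (2 * d) * P.reverse.eval x := by
        rw [hrev, eval_reflect hN.deg.le hx', inv_inv]
      have h2 : (y * x⁻¹ ^ d) ^ 2 = P.eval x⁻¹ := by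
        rw [h1, ← hy]
        ring
      have h3 := hN.onX f hf _ _ h2
      have h4 : N.co x⁻¹ (y * x⁻¹ ^ d) = fun i => x⁻¹ ^ E * (flipN E d N).co x y i := by
        funext i
        rw [flip_co hE hx', inv_inv, mul_div_cancel_right₀ _ (pow_ne_zero d hx')]
      rw [h4, aeval_smul_homog he] at h3
      exact (mul_eq_zero.1 h3).resolve_left (pow_ne_zero _ (pow_ne_zero _ hx'))
    have hab0 : ∀ x : K, x ≠ 0 → P.reverse.eval x ≠ 0 → a.eval x = 0 ∧ b.eval x = 0 := by
      intro x hx hPx
      obtain ⟨y, hy⟩ := IsAlgClosed.exists_pow_nat_eq (P.reverse.eval x) two_pos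
      have hy0 : y ≠ 0 := by
        rintro rfl
        apply hPx
        rw [← hy]
        ring
      have hy' : (-y) ^ 2 = P.reverse.eval x := by
        rw [← hy]
        ring
      have h1 := hab x y hy
      have h2 := hab x (-y) hy'
      rw [key x y hx hy] at h1
      rw [key x (-y) hx hy'] at h2
      have h3 : 2 * a.eval x = 0 := by linear_combination -h1 - h2
      have h4 : 2 * y * b.eval x = 0 := by linear_combination h2 - h1
      refine ⟨(mul_eq_zero.1 h3).resolve_left two_ne_zero,
        (mul_eq_zero.1 h4).resolve_left (mul_ne_zero two_ne_zero hy0)⟩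
    have ha : a = 0 := by
      have h1 : a * (Polynomial.X * P.reverse) = 0 := by
        refine Polynomial.funext fun x => ?_
        rw [eval_mul, eval_mul, eval_X, eval_zero]
        by_cases hx : x = 0
        · rw [hx]
          ring
        · by_cases hPx : P.reverse.eval x = 0
          · rw [hPx]
            ring
          · rw [(hab0 x hx hPx).1, zero_mul]
      exact (mul_eq_zero.1 h1).resolve_right (mul_ne_zero X_ne_zero hr0)
    have hb : b = 0 := by
      have h1 : b * (Polynomial.X * P.reverse) = 0 := by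
        refine Polynomial.funext fun x => ?_
        rw [eval_mul, eval_mul, eval_X, eval_zero]
        by_cases hx : x = 0
        · rw [hx]
          ring
        · by_cases hPx : P.reverse.eval x = 0
          · rw [hPx]
            ring
          · rw [(hab0 x hx hPx).2, zero_mul]
      exact (mul_eq_zero.1 h1).resolve_right (mul_ne_zero X_ne_zero hr0)
    intro x y hy
    rw [hab x y hy, ha, hb, eval_zero, zero_mul, add_zero]

private theorem line_flip (hX : Hom X) {P : (Om k)[X]} {N : Mp (Om k) m} (hN : OkH d P N X)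
    {E : ℕ} (hE : FlipOk E d N) (hN' : OkH d P.reverse (flipN E d N) X)
    {g R e : (Om k)[X]} (h : Ln d P g e R) (he0 : e.coeff 0 ≠ 0) (h0 : R.coeff 0 ≠ 0)
    (hc : Clean N g R) :
    Ln d P.reverse (g.reflect d) e.reverse R.reverse ∧ Clean (flipN E d N) (g.reflect d) R.reverse ∧
      LR hX hN g R = LR hX hN' (g.reflect d) R.reverse := by
  have hrev : P.reverse = P.reflect (2 * d) := by
    rw [reverse, hN.deg]
  have hdeg : (g ^ 2 - P).natDegree = 2 * d := by
    refine natDegree_eq_of_le_of_coeff_ne_zero ?_ ?_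
    · refine (natDegree_sub_le _ _).trans (max_le ?_ hN.deg.le)
      refine (natDegree_pow_le).trans ?_
      exact Nat.mul_le_mul_left 2 h.deg
    · rw [coeff_sub, coeff_pow_of_natDegree_le h.deg]
      exact sub_ne_zero.2 h.lead
  have hrt : R.reverse.roots = R.roots.map fun a => a⁻¹ := roots_rev _ R rfl h0
  have hne : ∀ x ∈ R.roots, x ≠ 0 := by
    rintro x hx rfl
    rw [mem_roots', IsRoot.def, ← coeff_zero_eq_eval_zero] at hx
    exact h0 hx.2
  have hy : ∀ x ∈ R.roots, (g.eval x) ^ 2 = P.eval x := by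
    intro x hx
    rw [mem_roots', IsRoot.def] at hx
    have h1 := congrArg (eval x) h.eq
    rw [eval_sub, eval_pow, eval_mul, hx.2, mul_zero] at h1
    exact sub_eq_zero.1 h1
  have hg : ∀ x : Om k, x ≠ 0 → (g.reflect d).eval x⁻¹ = g.eval x / x ^ d := by
    intro x hx
    rw [eval_reflect h.deg hx, mul_div_cancel_left₀ _ (pow_ne_zero d hx)]
  have hco : ∀ x ∈ R.roots, ∀ i, N.co x (g.eval x) i =
      x ^ E * (flipN E d N).co x⁻¹ ((g.reflect d).eval x⁻¹) i := by
    intro x hx i
    rw [flip_co hE (hne x hx), hg x (hne x hx)]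
  refine ⟨⟨?_, ?_, ?_⟩, ?_, ?_⟩
  · refine (natDegree_reflect_le).trans ?_
    exact max_le le_rfl h.deg
  · rw [coeff_reflect, hrev, coeff_reflect, revAt_le le_rfl, revAt_le le_rfl, Nat.sub_self,
      Nat.sub_self]
    intro h1
    have h2 := congrArg (fun p => coeff p 0) h.eq
    simp only [mul_coeff_zero, coeff_sub] at h2
    rw [pow_two, mul_coeff_zero] at h2
    have h3 : e.coeff 0 * R.coeff 0 = 0 := by
      rw [← h2, ← h1]
      ring
    exact mul_ne_zero he0 h0 h3
  · have hr2 : (g ^ 2 - P).reverse = (g ^ 2 - P).reflect (2 * d) := by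
      rw [reverse, hdeg]
    rw [← reverse_mul_of_domain, ← h.eq, hr2, reflect_sub, hrev, pow_two, pow_two, two_mul d,
      reflect_mul g g h.deg h.deg]
  · intro x' hx'
    rw [hrt, Multiset.mem_map] at hx'
    obtain ⟨x, hx, rfl⟩ := hx'
    intro h1
    apply hc x hx
    funext i
    rw [hco x hx i, h1]
    simp
  · rw [LR, LR, hrt, Multiset.map_map]
    congr 1
    refine Multiset.map_congr rfl fun x hx => ?_
    have hx0 := hne x hx
    refine cyp_congr hX hN hN' (hy x hx) ?_ (pow_ne_zero E hx0) (hco x hx)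
    change ((g.reflect d).eval x⁻¹) ^ 2 = P.reverse.eval x⁻¹
    rw [hg x hx0, div_pow, hy x hx, eval_reflect hN.deg.le hx0, ← hrev, ← pow_mul, mul_comm d 2,
      mul_div_cancel_left₀ _ (pow_ne_zero _ hx0)]

/-- The class of a point with `x ≠ 0` and the class of the flipped point are equal. `cv_congr` with
`F = {0}`: `g' = reflect d g`, `R'` = `reflect (2 d) R` for `e = 1`, `R' = - x (reflect (2 d - 1) R)` for
`e = X - x`; the roots of `R'` are the inverses of the roots of `R` (which are not zero, and the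
degree of `R` is `2 d` or `2 d - 1`), `g'.coeff d = g.eval 0`, and `cyp_congr` with `flip_co`. -/
theorem cv_flip (hX : Hom X) {P : (Om k)[X]} {N : Mp (Om k) m} (hN : OkH d P N X)
    (v : Place k (Om k)) (h0 : P.coeff 0 ≠ 0) {E : ℕ} (hE : FlipOk E d N) {x y : Om k}
    (h : y ^ 2 = P.eval x) (hx : x ≠ 0) :
    cv hX hN v x y = cv hX (hN.flip hX h0 hE) v x⁻¹ (y / x ^ d) := by
  have hN' := hN.flip hX h0 hE
  have hrev : P.reverse = P.reflect (2 * d) := by
    rw [reverse, hN.deg]
  have h' : (y / x ^ d) ^ 2 = P.reverse.eval x⁻¹ := by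
    rw [div_pow, h, eval_reflect hN.deg.le hx, ← hrev, ← pow_mul, mul_comm d 2,
      mul_div_cancel_left₀ _ (pow_ne_zero _ hx)]
  refine cv_congr hX hN (hN.flip hX h0 hE) v h h' {0} ?_ ?_
  · intro g R hL hF hc
    have hR : R.coeff 0 ≠ 0 := by
      rw [coeff_zero_eq_eval_zero]
      exact hF 0 (Finset.mem_singleton_self 0)
    have h1 := line_flip hX hN hE (hN.flip hX h0 hE) hL (by simp) hR hc
    have h2 : (1 : (Om k)[X]).reverse = 1 := by
      rw [← C_1, reverse_C]
    rw [h2] at h1
    exact ⟨_, _, h1⟩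
  · intro g R hL hg _ hF hc
    have hR : R.coeff 0 ≠ 0 := by
      rw [coeff_zero_eq_eval_zero]
      exact hF 0 (Finset.mem_singleton_self 0)
    obtain ⟨h1, h2, h3⟩ := line_flip hX hN hE (hN.flip hX h0 hE) hL (by
      rw [coeff_sub, coeff_X_zero, coeff_C_zero, zero_sub]
      exact neg_ne_zero.2 hx) hR hc
    have h4 : (Polynomial.X - C x : (Om k)[X]).reverse = C (-x) * (Polynomial.X - C x⁻¹) := by
      have h5 : (Polynomial.X - C x : (Om k)[X]).reverse = reflect 1 (Polynomial.X - C x) := by
        rw [reverse, natDegree_X_sub_C]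
      rw [h5, reflect_sub, reflect_one_X, reflect_C, pow_one, mul_sub, ← C_mul, neg_mul,
        mul_inv_cancel₀ hx, C_neg, C_neg, C_1]
      ring
    have hrt : (C (-x) * R.reverse).roots = R.reverse.roots := roots_C_mul _ (neg_ne_zero.2 hx)
    refine ⟨g.reflect d, C (-x) * R.reverse, ⟨h1.deg, h1.lead, ?_⟩, ?_, ?_, ?_⟩
    · rw [h1.eq, h4]
      ring
    · rw [← hg, eval_reflect hL.deg hx, mul_div_cancel_left₀ _ (pow_ne_zero d hx)]
    · intro x' hx'
      rw [hrt] at hx'
      exact h2 x' hx'
    · rw [h3, LR, LR, hrt]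

end Pool.Agent.GTM
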