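import Pool.Agent.GTM.Cong

/-!
# Scaling
-/

set_option autoImplicit false

noncomputable section

namespace Pool.Agent.GTM

open Pool.Agent.ZCyc Pool.Agent.Dess Pool.Agent.GT Polynomial
open Pool.Agent.VFP (Om tt)
open scoped Classical LinearAlgebra.Projectivization

variable {k : Type} [Field k] [IsAlgClosed k] [CharZero k] {m : ℕ} {d : ℕ}
  {X : Set (MvPolynomial (Fin (m + 1)) k)}

/-- the polynomial for the coordinates `x' = u x`, `y' = u ^ d y` -/
def sclP {K : Type} [Field K] (d : ℕ) (u : K) (P : K[X]) : K[X] :=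
  C (u ^ (2 * d)) * P.comp (C u⁻¹ * Polynomial.X)

/-- the coordinates in terms of `x' = u x`, `y' = u ^ d y` -/
def sclN {K : Type} [Field K] (d : ℕ) (u : K) (N : Mp K m) : Mp K m :=
  ⟨fun i => (N.G i).comp (C u⁻¹ * Polynomial.X),
    fun i => C (u ^ d)⁻¹ * (N.H i).comp (C u⁻¹ * Polynomial.X)⟩

section aux

variable {K : Type} [Field K]

private theorem scl_eval (u : K) (hu : u ≠ 0) (p : K[X]) (x : K) :
    (p.comp (C u⁻¹ * Polynomial.X)).eval (u * x) = p.eval x := by
  rw [eval_comp, eval_mul, eval_C, eval_X, inv_mul_cancel_left₀ hu]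

private theorem scl_comp_ne {u : K} (hu : u ≠ 0) {p : K[X]} (hp : p ≠ 0) :
    p.comp (C u⁻¹ * Polynomial.X) ≠ 0 := fun h =>
  hp ((comp_C_mul_X_eq_zero_iff (mem_nonZeroDivisors_of_ne_zero (inv_ne_zero hu))).1 h)

private theorem scl_natDegree {u : K} (hu : u ≠ 0) (p : K[X]) :
    (p.comp (C u⁻¹ * Polynomial.X)).natDegree = p.natDegree := by
  rw [natDegree_comp, natDegree_C_mul_X _ (inv_ne_zero hu), mul_one]

private theorem scl_roots {u : K} (hu : u ≠ 0) (p : K[X]) {c : K} (hc : c ≠ 0) :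
    (C c * p.comp (C u⁻¹ * Polynomial.X)).roots = p.roots.map fun x => u * x := by
  rw [roots_C_mul _ hc]
  have h := map_roots_comp_C_mul_X_add_C p u⁻¹ 0 (inv_ne_zero hu).isUnit
  rw [C_0, add_zero] at h
  rw [← h, Multiset.map_map]
  conv_lhs => rw [← Multiset.map_id (p.comp (C u⁻¹ * Polynomial.X)).roots]
  refine Multiset.map_congr rfl fun x _ => ?_
  simp [mul_inv_cancel_left₀ hu]

end aux

theorem scl_co {K : Type} [Field K] {u : K} (hu : u ≠ 0) (N : Mp K m) (x y : K)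
    (i : Fin (m + 1)) : (sclN d u N).co (u * x) (u ^ d * y) i = N.co x y i := by
  show ((N.G i).comp (C u⁻¹ * Polynomial.X)).eval (u * x) +
    (C (u ^ d)⁻¹ * (N.H i).comp (C u⁻¹ * Polynomial.X)).eval (u * x) * (u ^ d * y) =
      (N.G i).eval x + (N.H i).eval x * y
  rw [eval_mul, eval_C, scl_eval u hu, scl_eval u hu]
  have h : u ^ d ≠ 0 := pow_ne_zero _ hu
  field_simp

theorem OkH.scl {K : Type} [Field K] [CharZero K] [Algebra k K] {P : K[X]}
    {N : Mp K m} (hN : OkH d P N X) {u : K} (hu : u ≠ 0) :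
    OkH d (sclP d u P) (sclN d u N) X where
  pos := hN.pos
  deg := by
    unfold sclP
    rw [natDegree_C_mul (pow_ne_zero _ hu), scl_natDegree hu, hN.deg]
  sep := by
    have hs := hN.sep
    unfold Separable at hs ⊢
    obtain ⟨a, b, hab⟩ := hs
    have h1 := congrArg (fun p => p.comp (C u⁻¹ * Polynomial.X)) hab
    simp only [add_comp, mul_comp, one_comp] at h1
    unfold sclP
    rw [derivative_C_mul, derivative_comp, derivative_C_mul, derivative_X, mul_one]
    refine ⟨C (u ^ (2 * d))⁻¹ * a.comp (C u⁻¹ * Polynomial.X),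
      C (u ^ (2 * d))⁻¹ * C u * b.comp (C u⁻¹ * Polynomial.X), ?_⟩
    have h2 : C (u ^ (2 * d))⁻¹ * C (u ^ (2 * d)) = (1 : K[X]) := by
      rw [← C_mul, inv_mul_cancel₀ (pow_ne_zero _ hu), C_1]
    have h3 : C u * C u⁻¹ = (1 : K[X]) := by
      rw [← C_mul, mul_inv_cancel₀ hu, C_1]
    calc _ = (C (u ^ (2 * d))⁻¹ * C (u ^ (2 * d))) * (a.comp (C u⁻¹ * Polynomial.X) *
          P.comp (C u⁻¹ * Polynomial.X)) + (C (u ^ (2 * d))⁻¹ * C (u ^ (2 * d))) *
          (C u * C u⁻¹) * (b.comp (C u⁻¹ * Polynomial.X) *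
          (derivative P).comp (C u⁻¹ * Polynomial.X)) := by ring
      _ = 1 := by
        rw [h2, h3, one_mul, one_mul, one_mul]
        simpa only [mul_comp, C_comp, X_comp] using h1
  ne := by
    obtain ⟨i, hi⟩ := hN.ne
    refine ⟨i, ?_⟩
    rcases hi with hi | hi
    · exact Or.inl (scl_comp_ne hu hi)
    · right
      refine mul_ne_zero ?_ (scl_comp_ne hu hi)
      exact fun h => inv_ne_zero (pow_ne_zero d hu) (C_eq_zero.1 h)
  onX := by
    intro f hf x y hxy
    obtain ⟨x, rfl⟩ : ∃ x₀, x = u * x₀ := ⟨u⁻¹ * x, by rw [mul_inv_cancel_left₀ hu]⟩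
    obtain ⟨y, rfl⟩ : ∃ y₀, y = u ^ d * y₀ :=
      ⟨(u ^ d)⁻¹ * y, by rw [mul_inv_cancel_left₀ (pow_ne_zero _ hu)]⟩
    have h1 : (sclN d u N).co (u * x) (u ^ d * y) = N.co x y := by
      funext i
      exact scl_co hu N x y i
    rw [h1]
    refine hN.onX f hf x y ?_
    unfold sclP at hxy
    rw [eval_mul, eval_C, scl_eval u hu] at hxy
    have h2 : u ^ (2 * d) ≠ 0 := pow_ne_zero _ hu
    apply mul_left_cancel₀ h2
    rw [← hxy]
    ring

private theorem scl_cyp (hX : Hom X) {P : (Om k)[X]} {N : Mp (Om k) m} (hN : OkH d P N X)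
    {u : Om k} (hu : u ≠ 0) {x y : Om k} (h : y ^ 2 = P.eval x) :
    (u ^ d * y) ^ 2 = (sclP d u P).eval (u * x) ∧
      cyp hX hN x y = cyp hX (hN.scl hu) (u * x) (u ^ d * y) := by
  have h' : (u ^ d * y) ^ 2 = (sclP d u P).eval (u * x) := by
    unfold sclP
    rw [eval_mul, eval_C, scl_eval u hu, ← h]
    ring
  refine ⟨h', cyp_congr hX hN (hN.scl hu) h h' one_ne_zero fun i => ?_⟩
  rw [one_mul, scl_co hu]

/-- the line in the new coordinates -/
private theorem scl_line (hX : Hom X) {P : (Om k)[X]} {N : Mp (Om k) m} (hN : OkH d P N X)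
    {u : Om k} (hu : u ≠ 0) {g R e e' : (Om k)[X]} {c : Om k} (hc : c ≠ 0)
    (he : C (u ^ (2 * d)) * e.comp (C u⁻¹ * Polynomial.X) = C c * e') (h : Ln d P g e R)
    (hcl : Clean N g R) :
    Ln d (sclP d u P) (C (u ^ d) * g.comp (C u⁻¹ * Polynomial.X)) e'
      (C c * R.comp (C u⁻¹ * Polynomial.X)) ∧
    Clean (sclN d u N) (C (u ^ d) * g.comp (C u⁻¹ * Polynomial.X))
      (C c * R.comp (C u⁻¹ * Polynomial.X)) ∧
    LR hX hN g R = LR hX (hN.scl hu) (C (u ^ d) * g.comp (C u⁻¹ * Polynomial.X))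
      (C c * R.comp (C u⁻¹ * Polynomial.X)) := by
  have hud : u ^ d ≠ 0 := pow_ne_zero _ hu
  have hev : ∀ x, (C (u ^ d) * g.comp (C u⁻¹ * Polynomial.X)).eval (u * x) =
      u ^ d * g.eval x := by
    intro x
    rw [eval_mul, eval_C, scl_eval u hu]
  have hcurve : ∀ x ∈ R.roots, (g.eval x) ^ 2 = P.eval x := by
    intro x hx
    have h1 := congrArg (fun p => p.eval x) h.eq
    simp only [eval_sub, eval_pow, eval_mul] at h1
    have h2 : R.eval x = 0 := (mem_roots'.1 hx).2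
    rw [h2, mul_zero] at h1
    exact sub_eq_zero.1 h1
  refine ⟨⟨?_, ?_, ?_⟩, ?_, ?_⟩
  · rw [natDegree_C_mul hud, scl_natDegree hu]
    exact h.deg
  · unfold sclP
    rw [coeff_C_mul, coeff_C_mul, comp_C_mul_X_coeff, comp_C_mul_X_coeff]
    have h1 : u ^ d * (g.coeff d * u⁻¹ ^ d) = g.coeff d := by
      rw [inv_pow]
      field_simp
    have h2 : u ^ (2 * d) * (P.coeff (2 * d) * u⁻¹ ^ (2 * d)) = P.coeff (2 * d) := by
      rw [inv_pow]
      field_simp
    rw [h1, h2]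
    exact h.lead
  · unfold sclP
    have h1 := congrArg (fun p => C (u ^ (2 * d)) * p.comp (C u⁻¹ * Polynomial.X)) h.eq
    simp only [sub_comp, pow_comp, mul_comp] at h1
    have h2 : (C (u ^ d) : (Om k)[X]) ^ 2 = C (u ^ (2 * d)) := by
      rw [← C_pow]
      congr 1
      ring
    calc _ = C (u ^ (2 * d)) * ((g.comp (C u⁻¹ * Polynomial.X)) ^ 2 -
          P.comp (C u⁻¹ * Polynomial.X)) := by rw [mul_pow, h2]; ring
      _ = (C (u ^ (2 * d)) * e.comp (C u⁻¹ * Polynomial.X)) *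
          R.comp (C u⁻¹ * Polynomial.X) := by rw [h1]; ring
      _ = _ := by rw [he]; ring
  · intro x' hx'
    rw [scl_roots hu R hc, Multiset.mem_map] at hx'
    obtain ⟨x, hx, rfl⟩ := hx'
    rw [hev]
    have h1 : (sclN d u N).co (u * x) (u ^ d * g.eval x) = N.co x (g.eval x) := by
      funext i
      exact scl_co hu N _ _ i
    rw [h1]
    exact hcl x hx
  · unfold LR
    rw [scl_roots hu R hc, Multiset.map_map]
    congr 1
    refine Multiset.map_congr rfl fun x hx => ?_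
    rw [Function.comp_apply, hev]
    exact (scl_cyp hX hN hu (hcurve x hx)).2

/-- `cv_congr` with `F = ∅`, `g' = u ^ d g(x / u)`, `R' = u ^ (2 d) R(x / u)` for `e = 1` and
`R' = u ^ (2 d - 1) R(x / u)` for `e = X - x` (`e' = X - u x`). -/
theorem cv_scl (hX : Hom X) {P : (Om k)[X]} {N : Mp (Om k) m} (hN : OkH d P N X)
    (v : Place k (Om k)) {u : Om k} (hu : u ≠ 0) {x y : Om k} (h : y ^ 2 = P.eval x) :
    cv hX hN v x y = cv hX (hN.scl hu) v (u * x) (u ^ d * y) := by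
  have hu2 : u ^ (2 * d) ≠ 0 := pow_ne_zero _ hu
  refine cv_congr hX hN (hN.scl hu) v h (scl_cyp hX hN hu h).1 ∅ ?_ ?_
  · intro g R hL _ hcl
    obtain ⟨h1, h2, h3⟩ := scl_line hX hN hu (e' := 1) hu2 (by rw [one_comp]) hL hcl
    exact ⟨_, _, h1, h2, h3⟩
  · intro g R hL hgx _ _ hcl
    obtain ⟨h1, h2, h3⟩ := scl_line hX hN hu (e' := Polynomial.X - C (u * x))
      (c := u ^ (2 * d) * u⁻¹) (mul_ne_zero hu2 (inv_ne_zero hu)) (by
        rw [sub_comp, X_comp, C_comp, C_mul, C_mul]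
        have h3 : C u⁻¹ * C u = (1 : (Om k)[X]) := by
          rw [← C_mul, inv_mul_cancel₀ hu, C_1]
        linear_combination (C (u ^ (2 * d)) * C x : (Om k)[X]) * h3) hL hcl
    refine ⟨_, _, h1, ?_, h2, h3⟩
    rw [eval_mul, eval_C, scl_eval u hu, hgx]

/-- The coordinates can be multiplied by a constant: `N' = l N`. -/
def mulN {K : Type} [Field K] (l : K) (N : Mp K m) : Mp K m :=
  ⟨fun i => C l * N.G i, fun i => C l * N.H i⟩

private theorem mulN_co {K : Type} [Field K] (l : K) (N : Mp K m) (x y : K) :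
    (mulN l N).co x y = fun i => l * N.co x y i := by
  funext i
  show (C l * N.G i).eval x + (C l * N.H i).eval x * y =
    l * ((N.G i).eval x + (N.H i).eval x * y)
  rw [eval_mul, eval_mul, eval_C]
  ring

theorem OkH.mul {K : Type} [Field K] [Algebra k K] {P : K[X]} (hX : Hom X)
    {N : Mp K m} (hN : OkH d P N X) {l : K} (hl : l ≠ 0) : OkH d P (mulN l N) X where
  pos := hN.pos
  deg := hN.deg
  sep := hN.sep
  ne := by
    obtain ⟨i, hi⟩ := hN.ne
    refine ⟨i, ?_⟩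
    have hC : (C l : K[X]) ≠ 0 := fun h => hl (C_eq_zero.1 h)
    rcases hi with hi | hi
    · exact Or.inl (mul_ne_zero hC hi)
    · exact Or.inr (mul_ne_zero hC hi)
  onX := by
    intro f hf x y hxy
    obtain ⟨e, he⟩ := hX f hf
    rw [mulN_co, aeval_smul_homog he, hN.onX f hf x y hxy, mul_zero]

/-- `cv_congr` with `F = ∅`, the same lines, `cyp_congr` -/
theorem cv_mul (hX : Hom X) {P : (Om k)[X]} {N : Mp (Om k) m} (hN : OkH d P N X)
    (v : Place k (Om k)) {l : Om k} (hl : l ≠ 0) {x y : Om k} (h : y ^ 2 = P.eval x) :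
    cv hX hN v x y = cv hX (hN.mul hX hl) v x y := by
  have hcl : ∀ {g R : (Om k)[X]}, Clean N g R → Clean (mulN l N) g R := by
    intro g R hc x hx h0
    refine hc x hx ?_
    rw [mulN_co] at h0
    funext i
    exact (mul_eq_zero.1 (congrFun h0 i)).resolve_left hl
  have hLR : ∀ {g R e : (Om k)[X]}, Ln d P g e R → LR hX hN g R = LR hX (hN.mul hX hl) g R := by
    intro g R e hL
    unfold LR
    congr 1
    refine Multiset.map_congr rfl fun x hx => ?_
    have h1 := congrArg (fun p => p.eval x) hL.eq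
    simp only [eval_sub, eval_pow, eval_mul] at h1
    have h2 : R.eval x = 0 := (mem_roots'.1 hx).2
    rw [h2, mul_zero] at h1
    have h3 := sub_eq_zero.1 h1
    refine cyp_congr hX hN (hN.mul hX hl) h3 h3 (inv_ne_zero hl) fun i => ?_
    rw [mulN_co]
    simp only
    rw [inv_mul_cancel_left₀ hl]
  refine cv_congr hX hN (hN.mul hX hl) v h h ∅ ?_ ?_
  · intro g R hL _ hc
    exact ⟨g, R, hL, hcl hc, hLR hL⟩
  · intro g R hL hgx _ _ hc
    exact ⟨g, R, hL, hgx, hcl hc, hLR hL⟩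

end Pool.Agent.GTM
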