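import Pool.Agent.GTM.BadJ
import Pool.Agent.GTM.Scl
import Pool.Agent.GTM.Flip

/-!
# The bad place: the rotations do not change the classes
-/

set_option autoImplicit false

noncomputable section

namespace Pool.Agent.GTM

open Pool.Agent.ZCyc Pool.Agent.Dess Pool.Agent.GT Polynomial
open Pool.Agent.VFP (Om tt)
open scoped Classical LinearAlgebra.Projectivization

variable {k : Type} [Field k] [IsAlgClosed k] [CharZero k] {m : ℕ}
  {X : Set (MvPolynomial (Fin (m + 1)) k)} {v : Place k (Om k)} {M : ℕ} {b : Om k}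

private instance : CharZero (Om k) :=
  charZero_of_injective_algebraMap (algebraMap k (Om k)).injective

omit [IsAlgClosed k] in
/-- the polynomial for `b = -2` is not separable -/
private theorem bk_ne {N : Mp (Om k) m} (hN : OkH M (wP M b 1) N X) : b ≠ -2 := by
  rintro rfl
  obtain ⟨u, w, h⟩ := hN.sep
  have h1 := congrArg (fun p => p.eval 1) h
  have h2 : (wP M (-2 : Om k) 1).eval 1 = 0 := by
    rw [wP_eval, one_pow, one_pow]
    ring
  have h3 : (derivative (wP M (-2 : Om k) 1)).eval 1 = 0 := by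
    unfold wP
    simp only [derivative_add, derivative_X_pow, derivative_C_mul, derivative_C, eval_add,
      eval_mul, eval_C, eval_pow, eval_X, one_pow, mul_one, eval_zero, add_zero]
    push_cast
    ring
  simp only [eval_add, eval_mul, h2, h3, mul_zero, add_zero, eval_one] at h1
  exact zero_ne_one h1

omit [IsAlgClosed k] [CharZero k] in
private theorem bk_reverse (hM : 0 < M) (b : Om k) : (wP M b 1).reverse = wP M b 1 := by
  have h1 : (wP M b 1).reverse = (wP M b 1).reflect (2 * M) := by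
    unfold Polynomial.reverse
    rw [wP_natDegree hM]
  rw [h1]
  unfold wP
  rw [reflect_add, reflect_add, reflect_C_mul_X_pow, reflect_C, reflect_monomial,
    revAt_le (by omega), revAt_le (by omega)]
  have h2 : 2 * M - 2 * M = 0 := by omega
  have h3 : 2 * M - M = M := by omega
  rw [h2, h3, pow_zero, C_1, one_mul]
  ring

omit [IsAlgClosed k] [CharZero k] in
private theorem bk_flip (N : Mp (Om k) m) : ∃ E, FlipOk E M N := by
  refine ⟨∑ i, (N.G i).natDegree + (∑ i, (N.H i).natDegree + M), fun i => ?_⟩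
  have h1 : (N.G i).natDegree ≤ ∑ i, (N.G i).natDegree :=
    Finset.single_le_sum (f := fun i => (N.G i).natDegree) (fun _ _ => Nat.zero_le _)
      (Finset.mem_univ i)
  have h2 : (N.H i).natDegree ≤ ∑ i, (N.H i).natDegree :=
    Finset.single_le_sum (f := fun i => (N.H i).natDegree) (fun _ _ => Nat.zero_le _)
      (Finset.mem_univ i)
  constructor <;> omega

private theorem bk_one (hX : Hom X) (hb : v.At b (-2)) {P : (Om k)[X]} (hP : P = wP M b 1)
    {N : Mp (Om k) m} (hN : OkH M P N X) {ζ : k} (hζ : ζ ^ M = 1) {x y : Om k}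
    (hx : x ∈ v.ring) (hxy : y ^ 2 = P.eval x) :
    cv hX hN v (algebraMap k (Om k) ζ * x) y = cv hX hN v x y := by
  subst hP
  exact cv_bad_one hX hN.pos hb (bk_ne hN) hN hζ hx hxy

/-- All points, in the normal form: `cv_bad_one`, `cv_flip`. -/
private theorem bk_norm (hX : Hom X) (hb : v.At b (-2)) {P : (Om k)[X]} (hP : P = wP M b 1)
    {N : Mp (Om k) m} (hN : OkH M P N X) {ζ : k} (hζ : ζ ^ M = 1) {x y : Om k}
    (hx0 : x ≠ 0) (hxy : y ^ 2 = P.eval x) :
    cv hX hN v (algebraMap k (Om k) ζ * x) y = cv hX hN v x y := by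
  by_cases hx : x ∈ v.ring
  · exact bk_one hX hb hP hN hζ hx hxy
  · obtain ⟨E, hE⟩ := bk_flip (M := M) N
    have hM := hN.pos
    have h0 : P.coeff 0 ≠ 0 := by
      rw [hP, wP_coeff_zero hM]
      exact one_ne_zero
    have hζ0 : ζ ≠ 0 := by
      rintro rfl
      rw [zero_pow hM.ne'] at hζ
      exact zero_ne_one hζ
    have hζ1 : (algebraMap k (Om k) ζ) ^ M = 1 := by rw [← map_pow, hζ, map_one]
    have hζ2 : algebraMap k (Om k) ζ ≠ 0 := by
      rw [Ne, map_eq_zero]
      exact hζ0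
    have hζ3 : (algebraMap k (Om k) ζ) ^ (2 * M) = 1 := by rw [mul_comm, pow_mul, hζ1, one_pow]
    have hrot : y ^ 2 = P.eval (algebraMap k (Om k) ζ * x) := by
      rw [hxy, hP, wP_eval, wP_eval, mul_pow, mul_pow, hζ1, hζ3, one_mul, one_mul]
    rw [cv_flip hX hN v h0 hE hrot (mul_ne_zero hζ2 hx0), cv_flip hX hN v h0 hE hxy hx0]
    have h1 : (algebraMap k (Om k) ζ * x)⁻¹ = algebraMap k (Om k) ζ⁻¹ * x⁻¹ := by
      rw [mul_inv, map_inv₀]
    have h2 : y / (algebraMap k (Om k) ζ * x) ^ M = y / x ^ M := by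
      rw [mul_pow, hζ1, one_mul]
    rw [h1, h2]
    have hxinv : x⁻¹ ∈ v.ring := (v.ring.mem_or_inv_mem x).resolve_left hx
    refine bk_one hX hb (by rw [hP, bk_reverse hM]) (hN.flip hX h0 hE)
      (by rw [inv_pow, hζ, inv_one]) hxinv ?_
    rw [hP, bk_reverse hM, wP_eval, div_pow, hxy, hP, wP_eval, inv_pow, inv_pow]
    have hxM : x ^ M ≠ 0 := pow_ne_zero _ hx0
    have hxM2 : x ^ (2 * M) = (x ^ M) ^ 2 := by rw [mul_comm, pow_mul]
    rw [hxM2]
    field_simp
    ring

/-- Rotation does not change the classes at a place where `B ² / δ` has the value `4`. -/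
theorem cv_bad_all (hX : Hom X) {ν : ℕ} {B δ : Om k} {N : Mp (Om k) m}
    (hN : OkH ν (wP ν B δ) N X) (hδ : δ ≠ 0) {v : Place k (Om k)} (hB : v.At (B ^ 2 / δ) 4)
    {ζ : k} (hζ : ζ ^ ν = 1) {x y : Om k} (hx : x ≠ 0) (h : y ^ 2 = (wP ν B δ).eval x) :
    cv hX hN v (algebraMap k (Om k) ζ * x) y = cv hX hN v x y := by
  have hν := hN.pos
  -- the scaling
  obtain ⟨u, hu1, hu2⟩ : ∃ u : Om k, u ^ (2 * ν) * δ = 1 ∧ v.At (u ^ ν * B) (-2) := by
    obtain ⟨u₀, hu₀⟩ := IsAlgClosed.exists_pow_nat_eq (δ⁻¹) (show 0 < 2 * ν by omega)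
    have h1 : (u₀ ^ ν * B) ^ 2 = B ^ 2 / δ := by
      rw [mul_pow, ← pow_mul, mul_comm ν 2, hu₀]
      field_simp
    have h2 : u₀ ^ ν * B ∈ v.ring := by
      have h3 := hB.mem
      rw [← h1, ← v.ring.valuation_le_one_iff, map_pow] at h3
      rw [← v.ring.valuation_le_one_iff]
      exact (pow_le_one_iff (by norm_num)).1 h3
    obtain ⟨c, hc⟩ := DCI57.exists_at v h2
    have h3 : c ^ 2 = 2 ^ 2 := by
      have h4 := hc.pow 2
      rw [h1] at h4
      rw [h4.unique hB]
      norm_num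
    rcases sq_eq_sq_iff_eq_or_eq_neg.1 h3 with h4 | h4
    · obtain ⟨ω, hω⟩ := IsAlgClosed.exists_pow_nat_eq (-1 : k) hν
      refine ⟨algebraMap k (Om k) ω * u₀, ?_, ?_⟩
      · have h5 : (algebraMap k (Om k) ω) ^ (2 * ν) = 1 := by
          rw [mul_comm, pow_mul, ← map_pow, hω, map_neg, map_one]
          norm_num
        rw [mul_pow, h5, one_mul, hu₀, inv_mul_cancel₀ hδ]
      · have h5 : (algebraMap k (Om k) ω * u₀) ^ ν * B = -(u₀ ^ ν * B) := by
          rw [mul_pow, ← map_pow, hω, map_neg, map_one]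
          ring
        rw [h5, ← h4]
        exact hc.neg
    · exact ⟨u₀, by rw [hu₀, inv_mul_cancel₀ hδ], h4 ▸ hc⟩
  have hu : u ≠ 0 := by
    rintro rfl
    rw [zero_pow (by omega), zero_mul] at hu1
    exact zero_ne_one hu1
  have hP : sclP ν u (wP ν B δ) = wP ν (u ^ ν * B) 1 := by
    unfold sclP wP
    simp only [add_comp, mul_comp, pow_comp, X_comp, C_comp]
    rw [mul_pow, mul_pow, ← C_pow, ← C_pow, mul_add, mul_add]
    have e1 : C (u ^ (2 * ν)) * (C (u⁻¹ ^ (2 * ν)) * (Polynomial.X : (Om k)[X]) ^ (2 * ν)) =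
        Polynomial.X ^ (2 * ν) := by
      rw [← mul_assoc, ← C_mul, inv_pow, mul_inv_cancel₀ (pow_ne_zero _ hu), C_1, one_mul]
    have e2 : C (u ^ (2 * ν)) * (C B * (C (u⁻¹ ^ ν) * (Polynomial.X : (Om k)[X]) ^ ν)) =
        C (u ^ ν * B) * Polynomial.X ^ ν := by
      rw [← mul_assoc, ← mul_assoc, ← C_mul, ← C_mul]
      congr 2
      rw [mul_comm 2 ν, pow_mul, inv_pow]
      have := pow_ne_zero ν hu
      field_simp
    rw [e1, e2, ← C_mul, hu1]
  have hζ1 : (algebraMap k (Om k) ζ) ^ ν = 1 := by rw [← map_pow, hζ, map_one]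
  have hζ3 : (algebraMap k (Om k) ζ) ^ (2 * ν) = 1 := by rw [mul_comm, pow_mul, hζ1, one_pow]
  have hrot : y ^ 2 = (wP ν B δ).eval (algebraMap k (Om k) ζ * x) := by
    rw [h, wP_eval, wP_eval, mul_pow, mul_pow, hζ1, hζ3, one_mul, one_mul]
  rw [cv_scl hX hN v hu hrot, cv_scl hX hN v hu h]
  have h1 : u * (algebraMap k (Om k) ζ * x) = algebraMap k (Om k) ζ * (u * x) := by ring
  rw [h1]
  refine bk_norm hX hu2 hP (hN.scl hu) hζ (mul_ne_zero hu hx) ?_
  rw [hP, wP_eval, mul_pow, h, wP_eval]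
  have h2 : u ^ (2 * ν) = (u ^ ν) ^ 2 := by rw [mul_comm, pow_mul]
  rw [mul_pow, mul_pow, ← h2]
  linear_combination hu1

end Pool.Agent.GTM
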