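import Pool.Agent.GTM.TrC
import Pool.Agent.GTM.BadK

/-!
# Places with multiplicative reduction
-/

set_option autoImplicit false

noncomputable section

namespace Pool.Agent.GTM

open Pool.Agent.ZCyc Pool.Agent.Dess Pool.Agent.GT Polynomial
open Pool.Agent.VFP (Om tt)
open scoped Classical LinearAlgebra.Projectivization

open Pool.Agent.TInc

variable {k L : Type} [Field k] [IsAlgClosed k] [CharZero k] [Field L] [Algebra k L] {m : ℕ}
  {X : Set (MvPolynomial (Fin (m + 1)) k)} {ν : ℕ}

/-- Rotation does not change the classes at a place where `B ² / δ` has the value `4`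
(`cv_bad_all`). -/
theorem cv_bad (hX : Hom X) {B δ : Om k} {N : Mp (Om k) m} (hN : OkH ν (wP ν B δ) N X)
    (hδ : δ ≠ 0) {v : Place k (Om k)} (hB : v.At (B ^ 2 / δ) 4) {ζ : k} (hζ : ζ ^ ν = 1)
    {x y : Om k} (hx : x ≠ 0) (h : y ^ 2 = (wP ν B δ).eval x) :
    cv hX hN v (algebraMap k (Om k) ζ * x) y = cv hX hN v x y :=
  cv_bad_all hX hN hδ hB hζ hx h

end Pool.Agent.GTM
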