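import Pool.Agent.GT.Val

/-!
# The bad place: reduction of roots

`K = Om k`, `v` is a place. The curve is `y ² = x ^ (2 M) + b x ^ M + 1`, and `b` has the value
`-2`, so
that the reduction consists of the two components `y = ± (x ^ M - 1)`, which meet in the `M` nodes
`x = ν`, `ν ^ M = 1`.
-/

set_option autoImplicit false

noncomputable section

namespace Pool.Agent.GTM

open Pool.Agent.ZCyc Polynomial
open Pool.Agent.VFP (Om tt)
open scoped Classical

variable {k : Type} [Field k]

/-- the polynomial `x ^ (2 M) + b x ^ M + 1` -/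
def pol {K : Type} [Field K] (M : ℕ) (b : K) : K[X] := X ^ (2 * M) + C b * X ^ M + 1

theorem pol_eval {K : Type} [Field K] (M : ℕ) (b x : K) :
    (pol M b).eval x = x ^ (2 * M) + b * x ^ M + 1 := by
  simp [pol]

/-- A function `f` on the points of the curve `y ² = x ^ (2 M) + b x ^ M + 1` whose sums over the
intersections with the lines `y = g(x)` are the same, and which has the value `κ ε` at the points
with general reductions on the component `y = ε (x ^ M - 1)`. -/
structure BadFn (v : Place k (Om k)) (M : ℕ) (b : Om k) {V : Type} [AddCommGroup V] [Module ℚ V]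
    (f : Om k → Om k → V) (κ : ℤˣ → V) (E : Finset k) (Γ : V) : Prop where
  two_le : 2 ≤ M
  at_b : v.At b (-2)
  b_ne : b ≠ -2
  line : ∀ g : (Om k)[X], g.natDegree ≤ M → g.coeff M ^ 2 ≠ 1 →
    ((g ^ 2 - pol M b).roots.map fun x => f x (g.eval x)).sum = Γ
  gen : ∀ (ε : ℤˣ) (z : k), z ∉ E → ∀ x y : Om k, v.At x z →
    v.At y (((ε : ℤ) : k) * (z ^ M - 1)) → y ^ 2 = (pol M b).eval x → f x y = κ ε

private theorem at_mprod {K : Type} [Field K] [Algebra k K] {v : Place k K} {ι : Type}
    {s : Multiset ι} {f : ι → K} {g : ι → k} (h : ∀ i ∈ s, v.At (f i) (g i)) :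
    v.At (s.map f).prod (s.map g).prod := by
  induction s using Multiset.induction_on with
  | empty =>
    have h1 := Place.at_const (v := v) (1 : k)
    rw [map_one] at h1
    simpa using h1
  | cons a s ih =>
    rw [Multiset.map_cons, Multiset.map_cons, Multiset.prod_cons, Multiset.prod_cons]
    exact (h a (Multiset.mem_cons_self a s)).mul (ih fun i hi => h i (Multiset.mem_cons_of_mem hi))

private theorem at_zero_eq {K : Type} [Field K] [Algebra k K] {v : Place k K} {c : k}
    (h : v.At 0 c) : c = 0 := by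
  have h1 := Place.at_const (v := v) (0 : k)
  rw [map_zero] at h1
  exact h.unique h1

private theorem at_ne_zero {K : Type} [Field K] [Algebra k K] {v : Place k K} {f : K} {c : k}
    (h : v.At f c) (hc : c ≠ 0) : f ≠ 0 := by
  rintro rfl
  exact hc (at_zero_eq h)

private theorem val_one {K : Type} [Field K] [Algebra k K] {v : Place k K} {f : K} {c : k}
    (h : v.At f c) (hc : c ≠ 0) : v.ring.valuation f = 1 := by
  refine le_antisymm ((v.ring.valuation_le_one_iff f).2 h.mem) ?_
  by_contra hlt
  have h1 : v.Vanishes f := (v.vanishes_iff f).2 (not_le.1 hlt)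
  exact hc (h.unique (Place.at_zero_iff.2 h1))

variable [IsAlgClosed k] [CharZero k]

omit [IsAlgClosed k] [CharZero k] in
/-- Values of polynomials. Proof: `F.eval x = ∑ i ∈ range (N + 1), F.coeff i * x ^ i` for
`N ≥` both degrees (`Polynomial.eval_eq_sum_range'`), and `Place.At.sum`, `Place.At.mul`,
`Place.At.pow`. -/
theorem eval_at {v : Place k (Om k)} {F : (Om k)[X]} {F' : k[X]}
    (h : ∀ i, v.At (F.coeff i) (F'.coeff i)) {x : Om k} {z : k} (hx : v.At x z) :
    v.At (F.eval x) (F'.eval z) := by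
  rw [eval_eq_sum_range' (n := F.natDegree + F'.natDegree + 1) (by omega),
    eval_eq_sum_range' (p := F') (n := F.natDegree + F'.natDegree + 1) (by omega)]
  exact Place.At.sum fun i _ => (h i).mul (hx.pow i)

private theorem eval_roots (F : (Om k)[X]) (x : Om k) :
    F.eval x = F.leadingCoeff * (F.roots.map fun w => x - w).prod := by
  conv_lhs => rw [(IsAlgClosed.splits F).eq_prod_roots]
  rw [eval_mul, eval_C, eval_multiset_prod, Multiset.map_map]
  congr 2
  refine Multiset.map_congr rfl fun w _ => ?_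
  rw [Function.comp_apply, eval_sub, eval_X, eval_C]

omit [IsAlgClosed k] [CharZero k] in
private theorem degs {v : Place k (Om k)} {F : (Om k)[X]} {F' : k[X]} {n : ℕ}
    (h : ∀ i, v.At (F.coeff i) (F'.coeff i)) (hd : F.natDegree ≤ n) (hn : F'.coeff n ≠ 0) :
    F.natDegree = n ∧ F.leadingCoeff = F.coeff n := by
  have h1 : F.natDegree = n := le_antisymm hd (le_natDegree_of_ne_zero (at_ne_zero (h n) hn))
  exact ⟨h1, by rw [leadingCoeff, h1]⟩

/-- If the coefficients of `F` have as values the coefficients of `F'`, and `F'` has the same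
degree,
then the roots of `F` are integral and their values are the roots of `F'`, with multiplicities.
Proof. `F.natDegree = n = F'.natDegree`, `c = F.leadingCoeff` has the value `c' ≠ 0`. Roots are
integral: if
`x ∉ v.ring` then `v.At x⁻¹ 0`, and `0 = F.eval x / x ^ n = c + ∑ i < n, F.coeff i * x⁻¹ ^ (n - i)`
has the value `c' ≠ 0`, a contradiction. So every root has a value (`DCI57.exists_at`), choose `r`.
`F = C c * ∏ (X - x_i)` over the roots (`IsAlgClosed.splits`,
`Polynomial.Splits.eq_prod_roots`), for all `t : k` both `F'.eval t` and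
`c' * ∏ (t - r x_i)` are the value of `F.eval t`, so `F' = C c' * ∏ (X - C (r x_i))`
(`Polynomial.funext`, see `TInf.S_at`), and `roots_C_mul`, `roots_multiset_prod_X_sub_C`. -/
theorem exists_red_roots {v : Place k (Om k)} {F : (Om k)[X]} {F' : k[X]} {n : ℕ}
    (h : ∀ i, v.At (F.coeff i) (F'.coeff i)) (hd : F.natDegree ≤ n) (hn : F'.coeff n ≠ 0) :
    ∃ r : Om k → k, (∀ x ∈ F.roots, v.At x (r x)) ∧ F.roots.map r = F'.roots := by
  obtain ⟨hn1, hlc⟩ := degs h hd hn
  have hc := h n
  have hc0 := at_ne_zero hc hn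
  have hF0 : F ≠ 0 := by
    rintro rfl
    exact hc0 (coeff_zero n)
  have hmem : ∀ x ∈ F.roots, x ∈ v.ring := by
    intro x hx
    have hl : C (F.coeff n)⁻¹ * F ∈ lifts v.ring.subtype := by
      rw [lifts_iff_coeff_lifts]
      intro i
      rw [coeff_C_mul]
      exact ⟨⟨_, ((hc.inv hn).mul (h i)).mem⟩, rfl⟩
    have hm : (C (F.coeff n)⁻¹ * F).Monic := by
      rw [Monic, leadingCoeff_mul, leadingCoeff_C, hlc, inv_mul_cancel₀ hc0]
    obtain ⟨q, hq1, -, hq2⟩ := lifts_and_natDegree_eq_and_monic hl hm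
    have hint : IsIntegral v.ring x := by
      refine ⟨q, hq2, ?_⟩
      have h2 : Polynomial.eval₂ v.ring.subtype x q = 0 := by
        rw [← eval_map, hq1, eval_mul, (mem_roots hF0).1 hx, mul_zero]
      exact h2
    obtain ⟨y, hy⟩ := IsIntegrallyClosed.isIntegral_iff.1 hint
    rw [← hy]
    exact y.2
  have hex : ∀ x : Om k, ∃ z : k, x ∈ F.roots → v.At x z := by
    intro x
    by_cases hx : x ∈ F.roots
    · obtain ⟨z, hz⟩ := DCI57.exists_at v (hmem x hx)
      exact ⟨z, fun _ => hz⟩
    · exact ⟨0, fun h => absurd h hx⟩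
  choose r hr using hex
  refine ⟨r, hr, ?_⟩
  have key : F' = C (F'.coeff n) * ((F.roots.map r).map fun a => X - C a).prod := by
    refine Polynomial.funext fun t => ?_
    have h1 := eval_at h (Place.at_const (v := v) t)
    rw [eval_roots, hlc] at h1
    have h2 : v.At (F.coeff n * (F.roots.map fun w => algebraMap k (Om k) t - w).prod)
        (F'.coeff n * (F.roots.map fun w => t - r w).prod) :=
      hc.mul (at_mprod fun w hw => (Place.at_const t).sub (hr w hw))
    rw [h1.unique h2, eval_mul, eval_C, eval_multiset_prod, Multiset.map_map, Multiset.map_map]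
    congr 2
    refine Multiset.map_congr rfl fun w _ => ?_
    simp only [Function.comp_apply, eval_sub, eval_X, eval_C]
  conv_rhs => rw [key]
  rw [roots_C_mul _ hn, roots_multiset_prod_X_sub_C]

/-- The value of `F` at a point in terms of the roots with the same value. If `x` has the value
`z`, then the quotient of `F.eval x` and of the product of the `x - w` over the roots `w` of `F`
with
value `z` is a unit at `v` (if these are not zero; this is stated with valuations). Proof:
`F.eval x = c * ∏ (x - w)` over all roots, `c` is a unit (its value is `F'.coeff n ≠ 0`), and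
`x - w` is
a unit if the value `r w` of `w` is not `z` (`Place.At.sub`; an element with a value `≠ 0` has
valuation `1`). -/
theorem eval_valuation {v : Place k (Om k)} {F : (Om k)[X]} {F' : k[X]} {n : ℕ}
    (h : ∀ i, v.At (F.coeff i) (F'.coeff i)) (hd : F.natDegree ≤ n) (hn : F'.coeff n ≠ 0)
    {r : Om k → k} (hr : ∀ x ∈ F.roots, v.At x (r x)) {x : Om k} {z : k} (hx : v.At x z) :
    v.ring.valuation (F.eval x) =
      v.ring.valuation (((F.roots.filter fun w => r w = z).map fun w => x - w).prod) := by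
  obtain ⟨-, hlc⟩ := degs h hd hn
  have h2 : v.At (((F.roots.filter fun w => ¬ r w = z).map fun w => x - w).prod)
      (((F.roots.filter fun w => ¬ r w = z).map fun w => z - r w).prod) :=
    at_mprod fun w hw => hx.sub (hr w (Multiset.mem_of_mem_filter hw))
  have h3 : ((F.roots.filter fun w => ¬ r w = z).map fun w => z - r w).prod ≠ 0 := by
    intro h0
    rw [Multiset.prod_eq_zero_iff, Multiset.mem_map] at h0
    obtain ⟨w, hw, hw0⟩ := h0
    exact (Multiset.mem_filter.1 hw).2 (sub_eq_zero.1 hw0).symm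
  rw [eval_roots, hlc]
  conv_lhs => rw [← Multiset.filter_add_not (fun w => r w = z) F.roots]
  rw [Multiset.map_add, Multiset.prod_add, map_mul, map_mul, val_one (h n) hn, one_mul,
    val_one h2 h3, mul_one]

omit [IsAlgClosed k] [CharZero k] in
private theorem pa_mul {v : Place k (Om k)} {F G : (Om k)[X]} {F' G' : k[X]}
    (hF : ∀ i, v.At (F.coeff i) (F'.coeff i)) (hG : ∀ i, v.At (G.coeff i) (G'.coeff i)) (i : ℕ) :
    v.At ((F * G).coeff i) ((F' * G').coeff i) := by
  rw [coeff_mul, coeff_mul]
  exact Place.At.sum fun p _ => (hF p.1).mul (hG p.2)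

omit [IsAlgClosed k] [CharZero k] in
private theorem pa_X {v : Place k (Om k)} (M i : ℕ) :
    v.At ((X ^ M : (Om k)[X]).coeff i) ((X ^ M : k[X]).coeff i) := by
  rw [coeff_X_pow, coeff_X_pow]
  split_ifs
  · simpa using Place.at_const (v := v) (1 : k)
  · simpa using Place.at_const (v := v) (0 : k)

omit [IsAlgClosed k] [CharZero k] in
private theorem pa_one {v : Place k (Om k)} (i : ℕ) :
    v.At ((1 : (Om k)[X]).coeff i) ((1 : k[X]).coeff i) := by
  have h := pa_X (k := k) (v := v) 0 i
  rwa [pow_zero, pow_zero] at h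

/-- the coefficients of the reduction of `g ² - pol M b` -/
theorem coeff_line_at {v : Place k (Om k)} {M : ℕ} {b : Om k} (hb : v.At b (-2)) {g : (Om k)[X]}
    {g' : k[X]} (hg : ∀ i, v.At (g.coeff i) (g'.coeff i)) (i : ℕ) :
    v.At ((g ^ 2 - pol M b).coeff i)
      (((g' - (X ^ M - 1)) * (g' + (X ^ M - 1))).coeff i) := by
  have e1 : (g' - (X ^ M - 1)) * (g' + (X ^ M - 1)) =
      g' * g' - (X ^ (2 * M) + C (-2) * X ^ M + 1) := by
    have e2 : (C (-2) : k[X]) = -2 := by
      rw [C_neg]
      rfl
    rw [e2]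
    ring
  rw [e1, pow_two, pol, coeff_sub, coeff_sub, coeff_add, coeff_add, coeff_add, coeff_add,
    coeff_C_mul, coeff_C_mul]
  exact (pa_mul hg hg i).sub (((pa_X _ i).add (hb.mul (pa_X M i))).add (pa_one i))

/-- the degree of `g ² - pol M b`: for `M ≥ 1`, `natDegree g' ≤ M` and `g'.coeff M ^ 2 ≠ 1` the
coefficient of `(g' - (X ^ M - 1)) * (g' + (X ^ M - 1))` at `2 M` is `g'.coeff M ^ 2 - 1 ≠ 0` -/
theorem line_deg {v : Place k (Om k)} {M : ℕ} (hM : 1 ≤ M) {b : Om k} {g : (Om k)[X]}
    {g' : k[X]} (hg : ∀ i, v.At (g.coeff i) (g'.coeff i)) (hd : g.natDegree ≤ M)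
    (h1 : g'.coeff M ^ 2 ≠ 1) : (g ^ 2 - pol M b).natDegree ≤ 2 * M ∧
      ((g' - (X ^ M - 1)) * (g' + (X ^ M - 1))).coeff (2 * M) ≠ 0 ∧
      (g' - (X ^ M - 1)).coeff M ≠ 0 ∧ (g' + (X ^ M - 1)).coeff M ≠ 0 ∧ g'.natDegree ≤ M ∧
      g.coeff M ^ 2 ≠ 1 := by
  have hM0 : M ≠ 0 := by omega
  have hd' : g'.natDegree ≤ M := by
    rw [natDegree_le_iff_coeff_eq_zero]
    intro i hi
    have h2 := hg i
    rw [coeff_eq_zero_of_natDegree_lt (lt_of_le_of_lt hd hi)] at h2
    exact at_zero_eq h2
  have hX : (X ^ M - 1 : k[X]).coeff M = 1 := by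
    rw [coeff_sub, coeff_X_pow_self, coeff_one, if_neg hM0, sub_zero]
  have hXd : (X ^ M - 1 : k[X]).natDegree ≤ M :=
    (natDegree_sub_le _ _).trans (by rw [natDegree_X_pow, natDegree_one]; simp)
  have h3 : (g' - (X ^ M - 1)).coeff M ≠ 0 := by
    rw [coeff_sub, hX]
    intro h0
    exact h1 (by rw [sub_eq_zero.1 h0, one_pow])
  have h4 : (g' + (X ^ M - 1)).coeff M ≠ 0 := by
    rw [coeff_add, hX]
    intro h0
    exact h1 (by rw [eq_neg_of_add_eq_zero_left h0, neg_one_sq])
  refine ⟨?_, ?_, h3, h4, hd', ?_⟩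
  · refine (natDegree_sub_le _ _).trans (max_le ?_ ?_)
    · exact (natDegree_pow_le (p := g) (n := 2)).trans (by omega)
    · unfold pol
      refine (natDegree_add_le _ _).trans (max_le ((natDegree_add_le _ _).trans (max_le ?_ ?_)) ?_)
      · rw [natDegree_X_pow]
      · refine natDegree_C_mul_le _ _ |>.trans ?_
        rw [natDegree_X_pow]
        omega
      · rw [natDegree_one]
        omega
  · rw [two_mul, coeff_mul_add_eq_of_natDegree_le]
    · exact mul_ne_zero h3 h4
    · exact (natDegree_sub_le _ _).trans (max_le hd' hXd)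
    · exact (natDegree_add_le _ _).trans (max_le hd' hXd)
  · intro h0
    have h5 := (hg M).pow 2
    rw [h0] at h5
    have h6 := Place.at_const (v := v) (1 : k)
    rw [map_one] at h6
    exact h1 (h5.unique h6)

end Pool.Agent.GTM
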