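import Pool.Agent.GTM.BadA

/-!
# The bad place: points whose reduction is not a node
-/

set_option autoImplicit false

noncomputable section

namespace Pool.Agent.GTM

open Pool.Agent.ZCyc Polynomial
open Pool.Agent.VFP (Om tt)
open scoped Classical

variable {k : Type} [Field k] [IsAlgClosed k] [CharZero k] {v : Place k (Om k)} {M : ℕ}
  {b : Om k} {V : Type} [AddCommGroup V] [Module ℚ V] {f : Om k → Om k → V} {κ : ℤˣ → V}
  {E : Finset k} {Γ : V}

/-- the reduction of the roots, split into the two components -/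
private theorem line_roots (hM : 1 ≤ M) (hb : v.At b (-2)) (ε : ℤˣ) {g : (Om k)[X]} {g' : k[X]}
    (hg : ∀ i, v.At (g.coeff i) (g'.coeff i)) (hd : g.natDegree ≤ M)
    (h1 : g'.coeff M ^ 2 ≠ 1) :
    g ^ 2 - pol M b ≠ 0 ∧ g.coeff M ^ 2 ≠ 1 ∧
    ∃ r : Om k → k, (∀ x ∈ (g ^ 2 - pol M b).roots, v.At x (r x)) ∧
      (g ^ 2 - pol M b).roots.map r =
        (g' - (((ε : ℤ) : k)) • (X ^ M - 1)).roots + (g' + (((ε : ℤ) : k)) • (X ^ M - 1)).roots ∧
      (g' - (((ε : ℤ) : k)) • (X ^ M - 1)).roots.card = M ∧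
      (g' + (((ε : ℤ) : k)) • (X ^ M - 1)).roots.card = M := by
  obtain ⟨d1, d2, d3, d4, d5, d6⟩ := line_deg (v := v) (b := b) hM hg hd h1
  have hco := coeff_line_at (M := M) hb hg
  have hF0 : g ^ 2 - pol M b ≠ 0 := by
    intro h0
    have := hco (2 * M)
    rw [h0, coeff_zero] at this
    have h00 : v.At (0 : Om k) 0 := by simpa using Place.at_const (v := v) (0 : k)
    exact d2 (this.unique h00)
  obtain ⟨r, hr, hr2⟩ := exists_red_roots hco d1 d2
  have hprod : (g' - (X ^ M - 1)) * (g' + (X ^ M - 1)) ≠ 0 := by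
    intro h0
    rw [h0, coeff_zero] at d2
    exact d2 rfl
  rw [roots_mul hprod] at hr2
  have hXd : (X ^ M - 1 : k[X]).natDegree ≤ M := by
    refine (natDegree_sub_le _ _).trans ?_
    simp
  have c1 : (g' - (X ^ M - 1)).roots.card = M := by
    rw [IsAlgClosed.card_roots_eq_natDegree]
    exact le_antisymm ((natDegree_sub_le _ _).trans (max_le d5 hXd)) (le_natDegree_of_ne_zero d3)
  have c2 : (g' + (X ^ M - 1)).roots.card = M := by
    rw [IsAlgClosed.card_roots_eq_natDegree]
    exact le_antisymm ((natDegree_add_le _ _).trans (max_le d5 hXd)) (le_natDegree_of_ne_zero d4)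
  refine ⟨hF0, d6, r, hr, ?_⟩
  rcases Int.units_eq_one_or ε with rfl | rfl
  · simp only [Units.val_one, Int.cast_one, one_smul]
    exact ⟨hr2, c1, c2⟩
  · simp only [Units.val_neg, Units.val_one, Int.cast_neg, Int.cast_one, neg_smul, one_smul,
      sub_neg_eq_add, ← sub_eq_add_neg]
    exact ⟨hr2.trans (add_comm _ _), c2, c1⟩

omit [IsAlgClosed k] in
/-- the values at a root -/
private theorem val_root (h : BadFn v M b f κ E Γ) (ε : ℤˣ) {g : (Om k)[X]} {g' : k[X]}
    (hg : ∀ i, v.At (g.coeff i) (g'.coeff i)) {x : Om k} {z : k} (hx : v.At x z) (hz : z ∉ E)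
    (hzM : z ^ M ≠ 1) (hroot : (g.eval x) ^ 2 = (pol M b).eval x)
    (hz2 : z ∈ (g' - (((ε : ℤ) : k)) • (X ^ M - 1)).roots +
      (g' + (((ε : ℤ) : k)) • (X ^ M - 1)).roots) :
    f x (g.eval x) = if g'.eval z = ((ε : ℤ) : k) * (z ^ M - 1) then κ ε else κ (-ε) := by
  have hev := eval_at hg hx
  rcases Multiset.mem_add.1 hz2 with h1 | h1
  · have h2 := isRoot_of_mem_roots h1
    have h3 : g'.eval z = ((ε : ℤ) : k) * (z ^ M - 1) := by
      simpa [IsRoot, sub_eq_zero] using h2
    rw [if_pos h3]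
    rw [h3] at hev
    exact h.gen ε z hz x _ hx hev hroot
  · have h2 := isRoot_of_mem_roots h1
    have h3 : g'.eval z = (((-ε : ℤˣ) : ℤ) : k) * (z ^ M - 1) := by
      have : g'.eval z + ((ε : ℤ) : k) * (z ^ M - 1) = 0 := by
        simpa [IsRoot] using h2
      push_cast
      linear_combination this
    have h4 : g'.eval z ≠ ((ε : ℤ) : k) * (z ^ M - 1) := by
      rw [h3]
      intro h5
      have h6 : (2 : k) * (((ε : ℤ) : k) * (z ^ M - 1)) = 0 := by
        push_cast at h5
        linear_combination -h5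
      rcases mul_eq_zero.1 h6 with h7 | h7
      · exact two_ne_zero h7
      · rcases mul_eq_zero.1 h7 with h8 | h8
        · rcases Int.units_eq_one_or ε with rfl | rfl <;> simp at h8
        · exact hzM (sub_eq_zero.1 h8)
    rw [if_neg h4]
    rw [h3] at hev
    exact h.gen (-ε) z hz x _ hx hev hroot

omit [IsAlgClosed k] [Module ℚ V] in
/-- the sum of the values at the reductions -/
private theorem sum_red (ε : ℤˣ) (κ : ℤˣ → V) {g' : k[X]} {A B : Multiset k}
    (hA : A = (g' - (((ε : ℤ) : k)) • (X ^ M - 1)).roots)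
    (hB : B = (g' + (((ε : ℤ) : k)) • (X ^ M - 1)).roots)
    (cA : A.card = M) (cB : B.card = M) (hB1 : ∀ z ∈ B, z ^ M ≠ 1) :
    ((A + B).map fun z => if g'.eval z = ((ε : ℤ) : k) * (z ^ M - 1) then κ ε else κ (-ε)).sum =
      M • κ ε + M • κ (-ε) := by
  rw [Multiset.map_add, Multiset.sum_add]
  congr 1
  · rw [Multiset.map_congr (g := fun _ => κ ε) rfl, Multiset.map_const', Multiset.sum_replicate, cA]
    intro z hz
    rw [hA] at hz
    have h2 := isRoot_of_mem_roots hz
    have h3 : g'.eval z = ((ε : ℤ) : k) * (z ^ M - 1) := by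
      simpa [IsRoot, sub_eq_zero] using h2
    rw [if_pos h3]
  · rw [Multiset.map_congr (g := fun _ => κ (-ε)) rfl, Multiset.map_const',
      Multiset.sum_replicate, cB]
    intro z hz
    have hz1 := hB1 z hz
    rw [hB] at hz
    have h2 := isRoot_of_mem_roots hz
    have h3 : g'.eval z + ((ε : ℤ) : k) * (z ^ M - 1) = 0 := by
      simpa [IsRoot] using h2
    rw [if_neg]
    intro h5
    have h6 : (2 : k) * (((ε : ℤ) : k) * (z ^ M - 1)) = 0 := by
      linear_combination h3 - h5
    rcases mul_eq_zero.1 h6 with h7 | h7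
    · exact two_ne_zero h7
    · rcases mul_eq_zero.1 h7 with h8 | h8
      · rcases Int.units_eq_one_or ε with rfl | rfl <;> simp at h8
      · exact hz1 (sub_eq_zero.1 h8)

/-- A general line through a point `z₀` (not a node) of the component `ε`: there is `g'` with
`natDegree g' ≤ M`, `g'.coeff M ^ 2 ≠ 1`, `g'.eval z₀ = ε (z₀ ^ M - 1)`, such that `z₀` is a simple
root of the product `(g' - (X ^ M - 1)) * (g' + (X ^ M - 1))`, all its other roots are not in
`S` and are no nodes, the factor `g' - ε (X ^ M - 1)` has `M` roots, and the other factor too. Proof: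
`g' = ε (X ^ M - 1) + μ h`, where `h` is the product of `X - z₀` and of `M - 1` different factors
`X - e_i`, `e_i ∉ S ∪ {z₀}`, `e_i ^ M ≠ 1`. The factors are `μ h` and `μ h + 2 ε (X ^ M - 1)`; for every `z`
in the finite set `S ∪ {z₀} ∪ {z | z ^ M = 1}` one has `μ h(z) + 2 ε (z ^ M - 1) ≠ 0` for all `μ ≠ 0`
if `h(z) = 0` or `z ^ M = 1` (not both are zero, since the zeros of `h` are no nodes), and for all
`μ` except one otherwise. Moreover `μ ≠ 0`, `μ ≠ - 2 ε` (leading coefficients). So a general `μ` is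
good (`k` is infinite). -/
theorem exists_bad_line (hM : 1 ≤ M) (S : Finset k) (ε : ℤˣ) {z₀ : k} (hz : z₀ ^ M ≠ 1) :
    ∃ g' : k[X], g'.natDegree ≤ M ∧ g'.coeff M ^ 2 ≠ 1 ∧
      g'.eval z₀ = ((ε : ℤ) : k) * (z₀ ^ M - 1) ∧
      (g' - (((ε : ℤ) : k)) • (X ^ M - 1)).roots.count z₀ = 1 ∧
      (∀ z ∈ (g' - (((ε : ℤ) : k)) • (X ^ M - 1)).roots, z ≠ z₀ → z ∉ S ∧ z ^ M ≠ 1) ∧
      ∀ z ∈ (g' + (((ε : ℤ) : k)) • (X ^ M - 1)).roots, z ≠ z₀ ∧ z ∉ S ∧ z ^ M ≠ 1 := by
  set e : k := ((ε : ℤ) : k) with he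
  have he0 : e ≠ 0 := by
    rcases Int.units_eq_one_or ε with rfl | rfl <;> simp [he]
  have he2 : e ^ 2 = 1 := by
    rcases Int.units_eq_one_or ε with rfl | rfl <;> simp [he]
  set B : Finset k := S ∪ {z₀} ∪ (nthRoots M (1 : k)).toFinset with hB
  have hBn : ∀ z : k, z ^ M = 1 → z ∈ B := by
    intro z hz
    rw [hB, Finset.mem_union, Multiset.mem_toFinset, mem_nthRoots (by omega)]
    exact Or.inr hz
  obtain ⟨T, hTsub, hTc⟩ := (Set.Finite.infinite_compl (s := (B : Set k))
    (Finset.finite_toSet B)).exists_subset_card_eq (M - 1)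
  have hTB : ∀ z ∈ T, z ∉ B := fun z hz => by
    have := hTsub hz
    simpa using this
  set h : k[X] := (X - C z₀) * ∏ t ∈ T, (X - C t) with hh
  have hmonic : h.Monic := (monic_X_sub_C z₀).mul (monic_prod_of_monic _ _ fun t _ => monic_X_sub_C t)
  have hdeg : h.natDegree = M := by
    rw [hh, (monic_X_sub_C z₀).natDegree_mul (monic_prod_of_monic _ _ fun t _ => monic_X_sub_C t),
      natDegree_X_sub_C, natDegree_prod_of_monic _ _ fun t _ => monic_X_sub_C t]
    simp only [natDegree_X_sub_C, Finset.sum_const, smul_eq_mul, mul_one, hTc]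
    omega
  have hroots : h.roots = z₀ ::ₘ T.val := by
    have h0 : (X - C z₀) * ∏ t ∈ T, (X - C t) ≠ 0 := hmonic.ne_zero
    rw [hh, roots_mul h0, roots_X_sub_C]
    have : (∏ t ∈ T, (X - C t)) = (T.val.map fun t => X - C t).prod := rfl
    rw [this, roots_multiset_prod_X_sub_C]
    rfl
  have hhr : ∀ z, h.eval z = 0 → z = z₀ ∨ z ∈ T := by
    intro z hz
    have h1 : z ∈ h.roots := (mem_roots hmonic.ne_zero).2 hz
    rw [hroots, Multiset.mem_cons] at h1
    exact h1.imp id id
  have hh0 : h.eval z₀ = 0 := by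
    rw [hh]
    simp
  obtain ⟨μ, hμ⟩ := Infinite.exists_notMem_finset
    ({0, -2 * e} ∪ B.image fun z => -2 * e * (z ^ M - 1) / h.eval z)
  simp only [Finset.mem_union, Finset.mem_insert, Finset.mem_singleton, Finset.mem_image,
    not_or, not_exists, not_and] at hμ
  obtain ⟨⟨hμ0, hμ1⟩, hμ2⟩ := hμ
  have hcX : (X ^ M - 1 : k[X]).coeff M = 1 := by
    rw [coeff_sub, coeff_X_pow_self, coeff_one, if_neg (by omega), sub_zero]
  have hch : h.coeff M = 1 := by
    rw [← hdeg]
    exact hmonic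
  have hgc : (e • (X ^ M - 1 : k[X]) + μ • h).coeff M = e + μ := by
    rw [coeff_add, coeff_smul, coeff_smul, hcX, hch, smul_eq_mul, smul_eq_mul, mul_one, mul_one]
  have hplus : ∀ z ∈ B, (e • (X ^ M - 1 : k[X]) + μ • h + e • (X ^ M - 1)).eval z ≠ 0 := by
    intro z hzB h0
    simp only [eval_add, eval_smul, eval_sub, eval_pow, eval_X, eval_one, smul_eq_mul] at h0
    by_cases hz1 : h.eval z = 0
    · rcases hhr z hz1 with rfl | h2
      · rw [hz1, mul_zero, add_zero, ← two_mul] at h0
        rcases mul_eq_zero.1 h0 with h3 | h3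
        · exact two_ne_zero h3
        · rcases mul_eq_zero.1 h3 with h4 | h4
          · exact he0 h4
          · exact hz (sub_eq_zero.1 h4)
      · exact hTB z h2 hzB
    · apply hμ2 z hzB
      rw [div_eq_iff hz1]
      linear_combination -h0
  have hminus : (e • (X ^ M - 1 : k[X]) + μ • h - e • (X ^ M - 1)).roots = z₀ ::ₘ T.val := by
    rw [add_sub_cancel_left, ← hroots, smul_eq_C_mul, roots_C_mul _ hμ0]
  have hXd : (X ^ M - 1 : k[X]).natDegree ≤ M := by
    refine (natDegree_sub_le _ _).trans ?_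
    simp
  refine ⟨e • (X ^ M - 1) + μ • h, ?_, ?_, ?_, ?_, ?_, ?_⟩
  · refine (natDegree_add_le _ _).trans (max_le ((natDegree_smul_le _ _).trans hXd)
      ((natDegree_smul_le _ _).trans hdeg.le))
  · rw [hgc]
    intro h1
    have h2 : μ * (μ + 2 * e) = 0 := by linear_combination h1 - he2
    rcases mul_eq_zero.1 h2 with h3 | h3
    · exact hμ0 h3
    · exact hμ1 (by linear_combination h3)
  · simp only [eval_add, eval_smul, eval_sub, eval_pow, eval_X, eval_one, smul_eq_mul, hh0]
    ring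
  · rw [hminus, Multiset.count_cons_self, Multiset.count_eq_zero_of_notMem]
    intro h1
    apply hTB z₀ h1
    rw [hB]
    simp
  · intro z hz h1
    rw [hminus, Multiset.mem_cons] at hz
    rcases hz with hz | hz
    · exact absurd hz h1
    · have h2 := hTB z hz
      exact ⟨fun h3 => h2 (by rw [hB]; simp [h3]), fun h3 => h2 (hBn z h3)⟩
  · intro z hz
    have h1 := isRoot_of_mem_roots hz
    have h2 : z ∉ B := fun h3 => hplus z h3 h1
    refine ⟨?_, fun h3 => h2 (by rw [hB]; simp [h3]), fun h3 => h2 (hBn z h3)⟩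
    rintro rfl
    exact h2 (by rw [hB]; simp)

/-- The constant is `M (κ 1 + κ (-1))`. Proof: take any `z₀ ∉ E`, `z₀ ^ M ≠ 1`, and `g'` from `exists_bad_line`
with `S = E`, `g = g'.map (algebraMap k (Om k))`: all roots of the reduction of `g ² - pol M b`
(`exists_red_roots`, `coeff_line_at`, `line_deg`) are not in `E` (also `z₀`), `M` of them are roots of
`g' - (X ^ M - 1)` and `M` of `g' + (X ^ M - 1)` (both polynomials have degree `M`:
`IsAlgClosed.card_roots_eq_natDegree` or `splits`), and no root is a root of both (it would be a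
node). So `h.line` and `h.gen` (the value of `g.eval x` is `g'.eval (r x)`, `eval_at`) give the
sum. -/
theorem BadFn.const_eq (h : BadFn v M b f κ E Γ) : Γ = (M : ℚ) • (κ 1 + κ (-1)) := by
  have hM1 : 1 ≤ M := le_trans (by norm_num) h.two_le
  have hinf : Infinite k := inferInstance
  obtain ⟨z₀, hz₀⟩ := Infinite.exists_notMem_finset (E ∪ (nthRoots M (1 : k)).toFinset)
  rw [Finset.mem_union, Multiset.mem_toFinset, mem_nthRoots (by omega), not_or] at hz₀
  obtain ⟨hz₀E, hz₀M⟩ := hz₀
  obtain ⟨g', g1, g2, g3, g4, g5, g6⟩ := exists_bad_line hM1 E 1 hz₀M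
  have hg : ∀ i, v.At ((g'.map (algebraMap k (Om k))).coeff i) (g'.coeff i) := fun i => by
    rw [coeff_map]
    exact Place.at_const _
  obtain ⟨hF0, l2, r, hr, hr2, c1, c2⟩ := line_roots hM1 h.at_b 1 hg
    ((natDegree_map_le).trans g1) g2
  have hline := h.line _ ((natDegree_map_le).trans g1) l2
  have hall : ∀ z ∈ (g' - ((((1 : ℤˣ) : ℤ) : k)) • (X ^ M - 1)).roots +
      (g' + ((((1 : ℤˣ) : ℤ) : k)) • (X ^ M - 1)).roots, z ∉ E ∧ z ^ M ≠ 1 := by
    intro z hz
    rcases Multiset.mem_add.1 hz with h1 | h1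
    · by_cases hzz : z = z₀
      · rw [hzz]
        exact ⟨hz₀E, hz₀M⟩
      · exact g5 z h1 hzz
    · exact (g6 z h1).2
  rw [← hline]
  have hcongr : ∀ x ∈ ((g'.map (algebraMap k (Om k))) ^ 2 - pol M b).roots,
      f x ((g'.map (algebraMap k (Om k))).eval x) =
      (fun z => if g'.eval z = ((((1 : ℤˣ) : ℤ)) : k) * (z ^ M - 1) then κ 1 else κ (-1)) (r x) := by
    intro x hx
    have h1 : r x ∈ ((g'.map (algebraMap k (Om k))) ^ 2 - pol M b).roots.map r :=
      Multiset.mem_map_of_mem r hx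
    rw [hr2] at h1
    obtain ⟨e1, e2⟩ := hall _ h1
    have h2 := isRoot_of_mem_roots hx
    rw [IsRoot, eval_sub, eval_pow, sub_eq_zero] at h2
    exact val_root h 1 hg (hr x hx) e1 e2 h2 h1
  have hsum := sum_red 1 κ rfl rfl c1 c2 fun z hz => (g6 z hz).2.2
  rw [← hr2, Multiset.map_map] at hsum
  rw [Multiset.map_congr rfl hcongr]
  refine hsum.trans ?_
  rw [← smul_add]
  exact (Nat.cast_smul_eq_nsmul ℚ M _).symm

/-- The value is `κ ε` at all points whose reduction is on the component `ε` and is not a node.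
Proof. `g'` from `exists_bad_line` with `S = E`, `z₀ = z`. Let `G = g'.map (algebraMap k (Om k))`,
`g = G + C (y - G.eval x)`; the constant has the value `0`, so `g` has the reduction `g'`. `x` is a root
of `g ² - pol M b`, and by `exists_red_roots` exactly one root (with multiplicity) has the value
`z`, so it is `x`. The others (`M - 1` with values on the component `ε`, `M` on the component `-ε`)
have values not in `E`, so `h.gen` applies, and `h.line`, `h.const_eq` give
`f x y + (M - 1) κ ε + M κ (-ε) = M (κ ε + κ (-ε))`. -/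
theorem BadFn.nonnodal (h : BadFn v M b f κ E Γ) {ε : ℤˣ} {z : k} (hz : z ^ M ≠ 1) {x y : Om k}
    (hx : v.At x z) (hy : v.At y (((ε : ℤ) : k) * (z ^ M - 1)))
    (hxy : y ^ 2 = (pol M b).eval x) : f x y = κ ε := by
  have hM1 : 1 ≤ M := le_trans (by norm_num) h.two_le
  obtain ⟨g', g1, g2, g3, g4, g5, g6⟩ := exists_bad_line hM1 (insert z E) ε hz
  set G : (Om k)[X] := g'.map (algebraMap k (Om k)) with hG
  have hGat : ∀ i, v.At (G.coeff i) (g'.coeff i) := fun i => by
    rw [hG, coeff_map]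
    exact Place.at_const _
  set g : (Om k)[X] := G + C (y - G.eval x) with hgd
  have h00 : v.At (0 : Om k) 0 := by simpa using Place.at_const (v := v) (0 : k)
  have hg : ∀ i, v.At (g.coeff i) (g'.coeff i) := fun i => by
    have h1 : v.At ((C (y - G.eval x)).coeff i) 0 := by
      rw [coeff_C]
      split_ifs
      · have h2 := hy.sub (eval_at hGat hx)
        rw [g3, sub_self] at h2
        exact h2
      · exact h00
    have h3 := (hGat i).add h1
    rw [add_zero] at h3
    rw [hgd, coeff_add]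
    exact h3
  have hgdeg : g.natDegree ≤ M := by
    refine (natDegree_add_le _ _).trans (max_le ((natDegree_map_le).trans g1) ?_)
    rw [natDegree_C]
    exact Nat.zero_le _
  have hgx : g.eval x = y := by
    rw [hgd, eval_add, eval_C]
    ring
  obtain ⟨hF0, l2, r, hr, hr2, c1, c2⟩ := line_roots hM1 h.at_b ε hg hgdeg g2
  have hline := h.line _ hgdeg l2
  have hxr : x ∈ (g ^ 2 - pol M b).roots := by
    rw [mem_roots hF0, IsRoot, eval_sub, eval_pow, hgx, hxy, sub_self]
  have hrx : r x = z := (hr x hxr).unique hx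
  have hcount : ((g' - (((ε : ℤ) : k)) • (X ^ M - 1)).roots +
      (g' + (((ε : ℤ) : k)) • (X ^ M - 1)).roots).count z = 1 := by
    rw [Multiset.count_add, g4, Multiset.count_eq_zero_of_notMem]
    intro h1
    exact (g6 z h1).1 rfl
  set A : Multiset k := (g' - (((ε : ℤ) : k)) • (X ^ M - 1)).roots +
      (g' + (((ε : ℤ) : k)) • (X ^ M - 1)).roots with hA
  have hcons : x ::ₘ (g ^ 2 - pol M b).roots.erase x = (g ^ 2 - pol M b).roots :=
    Multiset.cons_erase hxr
  have hAcons : z ::ₘ ((g ^ 2 - pol M b).roots.erase x).map r = A := by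
    rw [← hr2, ← hrx, ← Multiset.map_cons, hcons]
  have hnot : z ∉ ((g ^ 2 - pol M b).roots.erase x).map r := by
    rw [← Multiset.count_eq_zero]
    have h1 := hcount
    rw [← hAcons, Multiset.count_cons_self] at h1
    omega
  set φ : k → V := fun z => if g'.eval z = ((ε : ℤ) : k) * (z ^ M - 1) then κ ε else κ (-ε)
    with hφ
  have hsum : (A.map φ).sum = M • κ ε + M • κ (-ε) := by
    rw [hA, hφ]
    exact sum_red ε κ rfl rfl c1 c2 fun z hz => (g6 z hz).2.2
  have hφz : φ z = κ ε := by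
    rw [hφ]
    exact if_pos g3
  have hcongr : ∀ w ∈ (g ^ 2 - pol M b).roots.erase x, f w (g.eval w) = φ (r w) := by
    intro w hw
    have hw1 := Multiset.mem_of_mem_erase hw
    have h1 : r w ∈ ((g ^ 2 - pol M b).roots.erase x).map r := Multiset.mem_map_of_mem r hw
    have h2 : r w ∈ A := by
      rw [← hAcons, Multiset.mem_cons]
      exact Or.inr h1
    have hne : r w ≠ z := fun h3 => hnot (h3 ▸ h1)
    have h3 : r w ∉ insert z E ∧ (r w) ^ M ≠ 1 := by
      rcases Multiset.mem_add.1 h2 with h4 | h4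
      · exact g5 _ h4 hne
      · exact (g6 _ h4).2
    have h4 := isRoot_of_mem_roots hw1
    rw [IsRoot, eval_sub, eval_pow, sub_eq_zero] at h4
    exact val_root h ε hg (hr w hw1) (fun h5 => h3.1 (Finset.mem_insert_of_mem h5)) h3.2 h4 h2
  rw [← hcons, Multiset.map_cons, Multiset.sum_cons, hgx, Multiset.map_congr rfl hcongr] at hline
  rw [← hAcons, Multiset.map_cons, Multiset.sum_cons, hφz, Multiset.map_map] at hsum
  have hΓ := h.const_eq
  have hκ : κ 1 + κ (-1) = κ ε + κ (-ε) := by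
    rcases Int.units_eq_one_or ε with rfl | rfl
    · rfl
    · rw [neg_neg]
      exact add_comm _ _
  rw [hκ, Nat.cast_smul_eq_nsmul, smul_add, ← hsum, ← hline] at hΓ
  exact add_right_cancel hΓ

end Pool.Agent.GTM
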