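import Pool.Agent.GTM.BadB

/-!
# The bad place: the sum over a line in terms of the points near the nodes
-/

set_option autoImplicit false

noncomputable section

namespace Pool.Agent.GTM

open Pool.Agent.ZCyc Polynomial
open Pool.Agent.VFP (Om tt)
open scoped Classical

variable {k : Type} [Field k] [IsAlgClosed k] [CharZero k] {v : Place k (Om k)} {M : ℕ}
  {b : Om k} {V : Type} [AddCommGroup V] [Module ℚ V] {f : Om k → Om k → V} {κ : ℤˣ → V}
  {E : Finset k} {Γ : V}

/-- The sum over the intersections with a line. Proof: `r` from `exists_red_roots` for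
`F = g ² - pol M b` (`coeff_line_at`, `line_deg`), the roots of the product are the sum of the
multisets of the roots (`roots_mul`). Split the multiset of the roots of `F` into the nodal
ones and the others. For a root `x` with `z = r x`, `z ^ M ≠ 1`: the value of `g.eval x` is
`g'.eval z = ± (z ^ M - 1)`, so `f x (g.eval x)` is `κ 1` if `g'.eval z = z ^ M - 1` and `κ (-1)`
otherwise (`h.nonnodal`), i.e. it is `τ (r x)`; so the sum over the non-nodal `x` is the sum of `τ` over
the filtered multiset of the values, and `τ z = κ 1` for the roots of `g' - (X ^ M - 1)`,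
`τ z = κ (-1)` for the roots of `g' + (X ^ M - 1)` which are no nodes (since
`2 (z ^ M - 1) ≠ 0`). -/
theorem BadFn.line_sum (h : BadFn v M b f κ E Γ) {g : (Om k)[X]} {g' : k[X]}
    (hg : ∀ i, v.At (g.coeff i) (g'.coeff i)) (hd : g.natDegree ≤ M) (h1 : g'.coeff M ^ 2 ≠ 1) :
    ∃ r : Om k → k, (∀ x ∈ (g ^ 2 - pol M b).roots, v.At x (r x)) ∧
      (g ^ 2 - pol M b).roots.map r = (g' - (X ^ M - 1)).roots + (g' + (X ^ M - 1)).roots ∧
      (((g ^ 2 - pol M b).roots.filter fun x => r x ^ M = 1).map fun x => f x (g.eval x)).sum +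
        (Multiset.card ((g' - (X ^ M - 1)).roots.filter fun z => z ^ M ≠ 1) : ℚ) • κ 1 +
        (Multiset.card ((g' + (X ^ M - 1)).roots.filter fun z => z ^ M ≠ 1) : ℚ) • κ (-1) = Γ := by
  have hM : 1 ≤ M := by have := h.two_le; omega
  obtain ⟨hd1, hn, hA, hB, -, hgM⟩ := line_deg (b := b) hM hg hd h1
  obtain ⟨r, hr, hmap⟩ := exists_red_roots (coeff_line_at h.at_b hg) hd1 hn
  have hA0 : g' - (X ^ M - 1) ≠ 0 := by
    intro h0
    rw [h0, coeff_zero] at hA
    exact hA rfl
  have hB0 : g' + (X ^ M - 1) ≠ 0 := by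
    intro h0
    rw [h0, coeff_zero] at hB
    exact hB rfl
  rw [roots_mul (mul_ne_zero hA0 hB0)] at hmap
  refine ⟨r, hr, hmap, ?_⟩
  have evA : ∀ z ∈ (g' - (X ^ M - 1)).roots, g'.eval z = z ^ M - 1 := by
    intro z hz
    have h2 := (mem_roots hA0).1 hz
    have h3 : (g' - (X ^ M - 1)).eval z = 0 := h2
    simp only [eval_sub, eval_pow, eval_X, eval_one] at h3
    linear_combination h3
  have evB : ∀ z ∈ (g' + (X ^ M - 1)).roots, g'.eval z = -(z ^ M - 1) := by
    intro z hz
    have h2 := (mem_roots hB0).1 hz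
    have h3 : (g' + (X ^ M - 1)).eval z = 0 := h2
    simp only [eval_add, eval_sub, eval_pow, eval_X, eval_one] at h3
    linear_combination h3
  let τ : k → V := fun z => if g'.eval z = z ^ M - 1 then κ 1 else κ (-1)
  have hτA : ∀ z ∈ (g' - (X ^ M - 1)).roots.filter fun z => z ^ M ≠ 1, τ z = κ 1 := by
    intro z hz
    exact if_pos (evA z (Multiset.mem_filter.1 hz).1)
  have hτB : ∀ z ∈ (g' + (X ^ M - 1)).roots.filter fun z => z ^ M ≠ 1, τ z = κ (-1) := by
    intro z hz
    obtain ⟨hz1, hz2⟩ := Multiset.mem_filter.1 hz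
    refine if_neg fun h3 => ?_
    rw [evB z hz1] at h3
    have h4 : (2 : k) * (z ^ M - 1) = 0 := by linear_combination -h3
    rcases mul_eq_zero.1 h4 with h5 | h5
    · exact two_ne_zero h5
    · exact hz2 (sub_eq_zero.1 h5)
  have hf : ∀ x ∈ (g ^ 2 - pol M b).roots.filter fun x => ¬ r x ^ M = 1,
      f x (g.eval x) = τ (r x) := by
    intro x hx
    obtain ⟨hx1, hx2⟩ := Multiset.mem_filter.1 hx
    have hxr := hr x hx1
    have hy := eval_at hg hxr
    have hF0 : g ^ 2 - pol M b ≠ 0 := by
      intro h0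
      rw [h0, roots_zero] at hx1
      exact Multiset.notMem_zero _ hx1
    have hxy : g.eval x ^ 2 = (pol M b).eval x := by
      have h2 : (g ^ 2 - pol M b).eval x = 0 := (mem_roots hF0).1 hx1
      rw [eval_sub, eval_pow] at h2
      exact sub_eq_zero.1 h2
    have hmem : r x ∈ (g' - (X ^ M - 1)).roots + (g' + (X ^ M - 1)).roots := by
      rw [← hmap]
      exact Multiset.mem_map_of_mem r hx1
    by_cases hc : g'.eval (r x) = r x ^ M - 1
    · have h3 : τ (r x) = κ 1 := if_pos hc
      rw [h3]
      refine h.nonnodal (ε := 1) hx2 hxr ?_ hxy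
      rw [hc] at hy
      simpa using hy
    · have h3 : τ (r x) = κ (-1) := if_neg hc
      rw [h3]
      refine h.nonnodal (ε := -1) hx2 hxr ?_ hxy
      rcases Multiset.mem_add.1 hmem with h4 | h4
      · exact absurd (evA _ h4) hc
      · rw [evB _ h4] at hy
        simpa using hy
  have hsplit := Multiset.filter_add_not (fun x => r x ^ M = 1) (g ^ 2 - pol M b).roots
  have hline := h.line g hd hgM
  rw [← hsplit, Multiset.map_add, Multiset.sum_add, Multiset.map_congr rfl hf] at hline
  have h5 : (((g ^ 2 - pol M b).roots.filter fun x => ¬ r x ^ M = 1).map fun x => τ (r x)) =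
      (((g' - (X ^ M - 1)).roots.filter fun z => z ^ M ≠ 1).map fun _ => κ 1) +
      (((g' + (X ^ M - 1)).roots.filter fun z => z ^ M ≠ 1).map fun _ => κ (-1)) := by
    rw [← Multiset.map_congr rfl hτA, ← Multiset.map_congr rfl hτB, ← Multiset.map_add,
      ← Multiset.filter_add, ← hmap, Multiset.filter_map, Multiset.map_map]
    rfl
  rw [h5, Multiset.sum_add, Multiset.map_const', Multiset.map_const', Multiset.sum_replicate,
    Multiset.sum_replicate] at hline
  rw [Nat.cast_smul_eq_nsmul, Nat.cast_smul_eq_nsmul, add_assoc]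
  exact hline

end Pool.Agent.GTM
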