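import Pool.Agent.GTM.BadA

/-!
# The bad place: points near a node

For a point `(x, y)` let `a = y + x ^ M - 1`, `η = b + 2`. Then
`(y - (x ^ M - 1)) (y + (x ^ M - 1)) = η x ^ M`.
-/

set_option autoImplicit false

noncomputable section

namespace Pool.Agent.GTM

open Pool.Agent.ZCyc Polynomial
open Pool.Agent.VFP (Om tt)
open scoped Classical

variable {k : Type} [Field k] [IsAlgClosed k] [CharZero k] {v : Place k (Om k)} {M : ℕ}
  {b : Om k}

/-- `(x, y)` is a point of the curve near the node `ν` with the coordinate `a` -/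
structure Near (v : Place k (Om k)) (M : ℕ) (b : Om k) (ν : k) (a x y : Om k) : Prop where
  at_x : v.At x ν
  on : y ^ 2 = (pol M b).eval x
  eq : y + (x ^ M - 1) = a

/-- the condition on the coordinate `a` of a point near a node -/
structure Adm (v : Place k (Om k)) (η a : Om k) : Prop where
  ne : a ≠ 0
  van : v.Vanishes a
  van' : v.Vanishes (η / a)

omit [IsAlgClosed k] [CharZero k] in
theorem near_mul {x y : Om k} (h : y ^ 2 = (pol M b).eval x) :
    (y - (x ^ M - 1)) * (y + (x ^ M - 1)) = (b + 2) * x ^ M := by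
  rw [pol_eval] at h
  have : x ^ (2 * M) = (x ^ M) ^ 2 := by rw [mul_comm, pow_mul]
  rw [this] at h
  linear_combination h

omit [IsAlgClosed k] [CharZero k] in
private theorem badD_one (v : Place k (Om k)) : v.At (1 : Om k) 1 := by
  have := Place.at_const (v := v) (1 : k)
  rwa [map_one] at this

omit [IsAlgClosed k] [CharZero k] in
private theorem badD_two (v : Place k (Om k)) : v.At (2 : Om k) 2 := by
  have := (badD_one v).add (badD_one v)
  rwa [one_add_one_eq_two, one_add_one_eq_two] at this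

omit [IsAlgClosed k] [CharZero k] in
private theorem badD_ne_zero {f : Om k} {c : k} (h : v.At f c) (hc : c ≠ 0) : f ≠ 0 := by
  rintro rfl
  have := Place.at_const (v := v) (0 : k)
  rw [map_zero] at this
  exact hc (h.unique this)

/-- The coordinate of a point near a node. Proof: `x ^ M` has the value `ν ^ M = 1`, so `y ²` has the value
`1 + (-2) + 1 = 0`, and `y` vanishes at `v` (`y ∈ v.ring` since `y ² ∈ v.ring`; `Place.vanishes_of_pow`). So
`a` vanishes. If `a = 0` then `(b + 2) x ^ M = 0` by `near_mul`, but `x` has the value `ν ≠ 0`. And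
`(b + 2) / a = (y - (x ^ M - 1)) / x ^ M` vanishes too. -/
theorem Near.adm (hM : 1 ≤ M) (hb : v.At b (-2)) (hb' : b ≠ -2) {ν : k} (hν : ν ^ M = 1)
    {a x y : Om k} (h : Near v M b ν a x y) : Adm v (b + 2) a := by
  have hν0 : ν ≠ 0 := by
    rintro rfl
    rw [zero_pow (by omega)] at hν
    exact zero_ne_one hν
  have hX : v.At (x ^ M) 1 := by
    have := h.at_x.pow M
    rwa [hν] at this
  have hX1 : v.At (x ^ M - 1) 0 := by
    have := hX.sub (badD_one v)
    rwa [sub_self] at this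
  have hy2 : v.At (y ^ 2) 0 := by
    have h1 := ((hX.pow 2).add (hb.mul hX)).add (badD_one v)
    have h2 : (x ^ M) ^ 2 + b * x ^ M + 1 = y ^ 2 := by
      rw [h.on, pol_eval, mul_comm 2 M, pow_mul]
    rw [h2] at h1
    convert h1 using 1
    norm_num
  have hy : v.At y 0 := Place.at_zero_iff.2 (v.vanishes_of_pow (Place.at_zero_iff.1 hy2))
  have ha : v.At a 0 := by
    have := hy.add hX1
    rwa [add_zero, h.eq] at this
  have hx0 : x ^ M ≠ 0 := badD_ne_zero hX one_ne_zero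
  have hmul := near_mul h.on
  rw [h.eq] at hmul
  have hb2 : b + 2 ≠ 0 := fun h0 => hb' (eq_neg_of_add_eq_zero_left h0)
  have ha0 : a ≠ 0 := by
    rintro rfl
    rw [mul_zero] at hmul
    exact mul_ne_zero hb2 hx0 hmul.symm
  refine ⟨ha0, Place.at_zero_iff.1 ha, Place.at_zero_iff.1 ?_⟩
  have h3 : (b + 2) / a = (y - (x ^ M - 1)) / x ^ M := by
    rw [div_eq_div_iff ha0 hx0, hmul]
  rw [h3]
  have h4 := (hy.sub hX1).div hX one_ne_zero
  rwa [sub_self, zero_div] at h4

/-- `x ^ M` as a function of `a` (from `near_mul`: `y - (x ^ M - 1) = (b + 2) x ^ M / a`, and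
`y - (x ^ M - 1) = a - 2 (x ^ M - 1)`) -/
theorem Near.pow_eq {ν : k} {a x y : Om k} (h : Near v M b ν a x y) (ha : a ≠ 0) :
    x ^ M * (2 + (b + 2) / a) = 2 + a := by
  have hmul := near_mul h.on
  have hy : y = a - (x ^ M - 1) := by rw [← h.eq]; ring
  rw [h.eq, hy] at hmul
  field_simp
  linear_combination -hmul

/-- Existence. Proof: `X = (2 + a) / (2 + η / a)` has the value `1`. Choose `x₀` with `x₀ ^ M = X`
(algebraically closed); `x₀` is integral with a value `c`, `c ^ M = 1`; put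
`x = x₀ * (ν / c)` (a constant factor with `M`-th power `1`), `y = a - (x ^ M - 1)`. Then
`y ² = (x ^ M - 1) ² + η x ^ M`: this is `a (a - 2 (X - 1)) = η X`, i.e. the definition of `X`. -/
theorem exists_near (hM : 1 ≤ M) {ν : k} (hν : ν ^ M = 1) {a : Om k}
    (ha : Adm v (b + 2) a) : ∃ x y, Near v M b ν a x y := by
  have hν0 : ν ≠ 0 := by
    rintro rfl
    rw [zero_pow (by omega)] at hν
    exact zero_ne_one hν
  have hva : v.At a 0 := Place.at_zero_iff.2 ha.van
  have hve : v.At ((b + 2) / a) 0 := Place.at_zero_iff.2 ha.van'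
  have h2 : v.At (2 : Om k) 2 := badD_two v
  have hnum : v.At (2 + a) 2 := by
    have := h2.add hva
    rwa [add_zero] at this
  have hden : v.At (2 + (b + 2) / a) 2 := by
    have := h2.add hve
    rwa [add_zero] at this
  have hden0 : 2 + (b + 2) / a ≠ 0 := badD_ne_zero hden two_ne_zero
  have hX : v.At ((2 + a) / (2 + (b + 2) / a)) 1 := by
    have := hnum.div hden two_ne_zero
    rwa [div_self (two_ne_zero : (2 : k) ≠ 0)] at this
  obtain ⟨x₀, hx₀⟩ := IsAlgClosed.exists_pow_nat_eq ((2 + a) / (2 + (b + 2) / a))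
    (show 0 < M by omega)
  have hmem : x₀ ∈ v.ring := by
    rw [← v.ring.valuation_le_one_iff]
    have h3 := hX.mem
    rw [← hx₀, ← v.ring.valuation_le_one_iff, map_pow] at h3
    exact (pow_le_one_iff (by omega)).1 h3
  obtain ⟨c, hc⟩ := DCI57.exists_at v hmem
  have hcM : c ^ M = 1 := by
    have h3 := hc.pow M
    rw [hx₀] at h3
    exact h3.unique hX
  have hc0 : c ≠ 0 := by
    rintro rfl
    rw [zero_pow (by omega)] at hcM
    exact zero_ne_one hcM
  have hxM : (x₀ * algebraMap k (Om k) (ν / c)) ^ M = (2 + a) / (2 + (b + 2) / a) := by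
    rw [mul_pow, hx₀, ← map_pow, div_pow, hν, hcM, div_one, map_one, mul_one]
  refine ⟨x₀ * algebraMap k (Om k) (ν / c),
    a - ((x₀ * algebraMap k (Om k) (ν / c)) ^ M - 1), ?_, ?_, ?_⟩
  · have h3 := hc.mul (Place.at_const (v := v) (ν / c))
    rwa [mul_div_cancel₀ _ hc0] at h3
  · rw [pol_eval, mul_comm 2 M, pow_mul]
    rw [hxM]
    have ha0 := ha.ne
    have h4 : (2 + a) / (2 + (b + 2) / a) * (2 + (b + 2) / a) = 2 + a :=
      div_mul_cancel₀ _ hden0
    set X := (2 + a) / (2 + (b + 2) / a) with hXdef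
    have h5 : X * (2 * a + (b + 2)) = (2 + a) * a := by
      rw [← h4]
      field_simp
    linear_combination -h5
  · ring

/-- Uniqueness. Proof: `x ^ M = x' ^ M` by `Near.pow_eq` (`2 + η / a ≠ 0` since it has the value `2`),
`(x / x') ^ M = 1` and `x / x'` has the value `1`; a root of unity in `Om k` is the image of a root of
unity of `k` (`k` is algebraically closed: `X ^ M - 1` splits over `k`), so `x / x' = 1`. -/
theorem Near.unique (hM : 1 ≤ M) (hb : v.At b (-2)) (hb' : b ≠ -2) {ν : k} (hν : ν ^ M = 1)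
    {a x y x' y' : Om k} (h : Near v M b ν a x y) (h' : Near v M b ν a x' y') :
    x = x' ∧ y = y' := by
  have hν0 : ν ≠ 0 := by
    rintro rfl
    rw [zero_pow (by omega)] at hν
    exact zero_ne_one hν
  have had := h.adm hM hb hb' hν
  have hve : v.At ((b + 2) / a) 0 := Place.at_zero_iff.2 had.van'
  have hden : v.At (2 + (b + 2) / a) 2 := by
    have := (badD_two v).add hve
    rwa [add_zero] at this
  have hden0 : 2 + (b + 2) / a ≠ 0 := badD_ne_zero hden two_ne_zero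
  have hM' : x ^ M = x' ^ M :=
    mul_right_cancel₀ hden0 ((h.pow_eq had.ne).trans (h'.pow_eq had.ne).symm)
  have hx' : x' ≠ 0 := badD_ne_zero h'.at_x hν0
  have h1 : (x / x') ^ M = 1 := by
    rw [div_pow, hM', div_self (pow_ne_zero _ hx')]
  have h2 : v.At (x / x') 1 := by
    have := h.at_x.div h'.at_x hν0
    rwa [div_self hν0] at this
  obtain ⟨c, hc⟩ : ∃ c, algebraMap k (Om k) c = x / x' := by
    have hint : IsIntegral k (x / x') :=
      ⟨Polynomial.X ^ M - 1, Polynomial.monic_X_pow_sub_C 1 (by omega), by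
        rw [Polynomial.eval₂_sub, Polynomial.eval₂_pow, Polynomial.eval₂_X, Polynomial.eval₂_one,
          h1, sub_self]⟩
    exact minpoly.mem_range_of_degree_eq_one k _
      (IsAlgClosed.degree_eq_one_of_irreducible k (minpoly.irreducible hint))
  have h3 : c = 1 := by
    rw [← hc] at h2
    exact (Place.at_const (v := v) c).unique h2
  rw [h3, map_one] at hc
  have h4 : x = x' := ((div_eq_one_iff_eq hx').1 hc.symm)
  refine ⟨h4, ?_⟩
  have h5 : y = a - (x ^ M - 1) := by rw [← h.eq]; ring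
  have h6 : y' = a - (x' ^ M - 1) := by rw [← h'.eq]; ring
  rw [h5, h6, h4]

/-- The slope of the line through two points near a node. Proof. Put `X_i = x_i ^ M`,
`ε = η / (a₁ a₂)`. From `X_i (2 + η / a_i) = 2 + a_i` one gets
`(2 + ε a₁) (X₁ - X₂) = (a₁ - a₂) (1 + ε X₁)` (multiply out, `field_simp`, or:
`2 (X₁ - X₂) + η (X₁ / a₁ - X₂ / a₂) = a₁ - a₂` and
`η (X₁ / a₁ - X₂ / a₂) = ε (- X₁ (a₁ - a₂) + a₁ (X₁ - X₂))`). `1 + ε X₁` has the value `1 + e ≠ 0`,
`2 + ε a₁` has the value `2`, so `X₁ ≠ X₂` and `x₁ ≠ x₂`. `y₁ - y₂ = (a₁ - a₂) - (X₁ - X₂)`, so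
`(y₁ - y₂) / (X₁ - X₂) = (2 + ε a₁) / (1 + ε X₁) - 1` has the value `2 / (1 + e) - 1`, and
`(X₁ - X₂) / (x₁ - x₂) = ∑ i < M, x₁ ^ i x₂ ^ (M - 1 - i)` (`Commute.geom_sum₂_mul`, `geom_sum₂_mul`) has
the value `M ν ^ (M - 1)`. -/
theorem near_slope (hM : 1 ≤ M) (hb : v.At b (-2)) (hb' : b ≠ -2) {ν : k} (hν : ν ^ M = 1)
    {a₁ x₁ y₁ a₂ x₂ y₂ : Om k} (h₁ : Near v M b ν a₁ x₁ y₁) (h₂ : Near v M b ν a₂ x₂ y₂)
    (ha : a₁ ≠ a₂) {e : k} (he : v.At ((b + 2) / (a₁ * a₂)) e) (he1 : 1 + e ≠ 0) :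
    x₁ ≠ x₂ ∧ v.At ((y₁ - y₂) / (x₁ - x₂)) ((1 - e) / (1 + e) * ((M : k) * ν ^ (M - 1))) := by
  have hν0 : ν ≠ 0 := by
    rintro rfl
    rw [zero_pow (by omega)] at hν
    exact zero_ne_one hν
  have had₁ := h₁.adm hM hb hb' hν
  have had₂ := h₂.adm hM hb hb' hν
  have ha₁ := had₁.ne
  have ha₂ := had₂.ne
  have hX₁ : v.At (x₁ ^ M) 1 := by
    have := h₁.at_x.pow M
    rwa [hν] at this
  have hva₁ : v.At a₁ 0 := Place.at_zero_iff.2 had₁.van
  have p₁ := h₁.pow_eq ha₁
  have p₂ := h₂.pow_eq ha₂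
  have key : (2 + (b + 2) / (a₁ * a₂) * a₁) * (x₁ ^ M - x₂ ^ M) =
      (a₁ - a₂) * (1 + (b + 2) / (a₁ * a₂) * x₁ ^ M) := by
    have q₁ : x₁ ^ M * (2 * a₁ + (b + 2)) = (2 + a₁) * a₁ := by
      rw [← p₁]
      field_simp
    have q₂ : x₂ ^ M * (2 * a₂ + (b + 2)) = (2 + a₂) * a₂ := by
      rw [← p₂]
      field_simp
    field_simp
    linear_combination a₂ * q₁ - a₁ * q₂
  have v1 : v.At (1 + (b + 2) / (a₁ * a₂) * x₁ ^ M) (1 + e) := by
    have := (badD_one v).add (he.mul hX₁)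
    rwa [mul_one] at this
  have v2 : v.At (2 + (b + 2) / (a₁ * a₂) * a₁) 2 := by
    have := (badD_two v).add (he.mul hva₁)
    rwa [mul_zero, add_zero] at this
  have n1 := badD_ne_zero v1 he1
  have n2 := badD_ne_zero v2 two_ne_zero
  have hXne : x₁ ^ M - x₂ ^ M ≠ 0 := by
    intro h0
    rw [h0, mul_zero] at key
    exact mul_ne_zero (sub_ne_zero.2 ha) n1 key.symm
  have hxne : x₁ ≠ x₂ := by
    rintro rfl
    exact hXne (sub_self _)
  refine ⟨hxne, ?_⟩
  have hx0 : x₁ - x₂ ≠ 0 := sub_ne_zero.2 hxne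
  have hgeom : (∑ i ∈ Finset.range M, x₁ ^ i * x₂ ^ (M - 1 - i)) * (x₁ - x₂) =
      x₁ ^ M - x₂ ^ M := (Commute.all x₁ x₂).geom_sum₂_mul M
  have h3 : (y₁ - y₂) / (x₁ - x₂) =
      ((2 + (b + 2) / (a₁ * a₂) * a₁) / (1 + (b + 2) / (a₁ * a₂) * x₁ ^ M) - 1) *
        ∑ i ∈ Finset.range M, x₁ ^ i * x₂ ^ (M - 1 - i) := by
    have h4 : y₁ - y₂ = (a₁ - a₂) - (x₁ ^ M - x₂ ^ M) := by
      rw [← h₁.eq, ← h₂.eq]
      ring
    have h5 : (2 + (b + 2) / (a₁ * a₂) * a₁) / (1 + (b + 2) / (a₁ * a₂) * x₁ ^ M) =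
        (a₁ - a₂) / (x₁ ^ M - x₂ ^ M) := by
      rw [div_eq_div_iff n1 hXne]
      exact key
    rw [h5, h4, div_eq_iff hx0, mul_assoc, hgeom, sub_mul, div_mul_cancel₀ _ hXne, one_mul]
  rw [h3]
  have h6 : v.At (∑ i ∈ Finset.range M, x₁ ^ i * x₂ ^ (M - 1 - i))
      (∑ i ∈ Finset.range M, ν ^ i * ν ^ (M - 1 - i)) :=
    Place.At.sum fun i _ => (h₁.at_x.pow i).mul (h₂.at_x.pow _)
  have h7 : ∑ i ∈ Finset.range M, ν ^ i * ν ^ (M - 1 - i) = (M : k) * ν ^ (M - 1) := by
    have h8 : ∀ i ∈ Finset.range M, ν ^ i * ν ^ (M - 1 - i) = ν ^ (M - 1) := by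
      intro i hi
      rw [Finset.mem_range] at hi
      rw [← pow_add]
      congr 1
      omega
    rw [Finset.sum_congr rfl h8, Finset.sum_const, Finset.card_range, nsmul_eq_mul]
  rw [h7] at h6
  have h9 := ((v2.div v1 he1).sub (badD_one v)).mul h6
  have h10 : (2 : k) / (1 + e) - 1 = (1 - e) / (1 + e) := by
    field_simp
    ring
  rwa [h10] at h9

end Pool.Agent.GTM
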