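import Pool.Agent.GTM.BadA

/-!
# The bad place: the reduction of a line through a node
-/

set_option autoImplicit false

noncomputable section

namespace Pool.Agent.GTM

open Pool.Agent.ZCyc Polynomial
open Pool.Agent.VFP (Om tt)
open scoped Classical

variable {k : Type} [Field k] [IsAlgClosed k] [CharZero k] {v : Place k (Om k)} {M : ℕ}
  {b : Om k}

/-- the polynomials of the lemma -/
private def bePol (M : ℕ) (s μ c ν : k) : k[X] :=
  C s * (X - C ν) + C μ * (X - C ν) ^ 2 + C c * (X ^ M - 1)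

omit [IsAlgClosed k] [CharZero k] in
private theorem be_eval0 (M : ℕ) (s μ c ν z : k) : (bePol M s μ c ν).eval z =
    s * (z - ν) + μ * (z - ν) ^ 2 + c * (z ^ M - 1) := by
  simp [bePol]

omit [IsAlgClosed k] [CharZero k] in
private theorem be_deriv (M : ℕ) (s μ c ν : k) : derivative (bePol M s μ c ν) =
    C s + C (2 * μ) * (X - C ν) + C (c * (M : k)) * X ^ (M - 1) := by
  unfold bePol
  simp only [derivative_add, derivative_mul, derivative_C, derivative_sub, derivative_X,
    derivative_pow, derivative_one, zero_mul, sub_zero, zero_add, mul_one, C_mul]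
  simp only [Nat.cast_ofNat, Nat.add_one_sub_one, pow_one, map_ofNat, map_natCast]
  ring

omit [IsAlgClosed k] [CharZero k] in
private theorem be_eval1 (M : ℕ) (s μ c ν : k) : (derivative (bePol M s μ c ν)).eval ν =
    s + c * ((M : k) * ν ^ (M - 1)) := by
  rw [be_deriv]
  simp only [eval_add, eval_mul, eval_C, eval_sub, eval_X, eval_pow, sub_self, mul_zero]
  ring

omit [IsAlgClosed k] [CharZero k] in
private theorem be_eval2 (M : ℕ) (s μ c ν : k) :
    (derivative (derivative (bePol M s μ c ν))).eval ν =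
      2 * μ + c * ((M : k) * (((M - 1 : ℕ) : k) * ν ^ (M - 1 - 1))) := by
  rw [be_deriv]
  simp only [derivative_add, derivative_mul, derivative_C, derivative_sub, derivative_X,
    derivative_pow, zero_mul, sub_zero, zero_add, mul_one, eval_add, eval_mul,
    eval_C, eval_pow, eval_X, eval_natCast, map_natCast]
  ring

omit [IsAlgClosed k] in
private theorem be_count1 {p : k[X]} {ν : k} (h0 : p.eval ν = 0)
    (h1 : (derivative p).eval ν ≠ 0) : p.roots.count ν = 1 := by
  have hp : p ≠ 0 := by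
    rintro rfl
    simp at h1
  rw [count_roots]
  have e1 : 0 < p.rootMultiplicity ν := (rootMultiplicity_pos hp).2 h0
  have e2 : ¬ 1 < p.rootMultiplicity ν := by
    rw [one_lt_rootMultiplicity_iff_isRoot hp]
    exact fun h => h1 h.2
  omega

omit [IsAlgClosed k] in
private theorem be_count2 {p : k[X]} {ν : k} (h0 : p.eval ν = 0)
    (h1 : (derivative p).eval ν = 0) (h2 : (derivative (derivative p)).eval ν ≠ 0) :
    p.roots.count ν = 2 := by
  have hp : p ≠ 0 := by
    rintro rfl
    simp at h2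
  rw [count_roots]
  have e1 : 1 < p.rootMultiplicity ν := (one_lt_rootMultiplicity_iff_isRoot hp).2 ⟨h0, h1⟩
  have e2 : ¬ 2 < p.rootMultiplicity ν := by
    rw [lt_rootMultiplicity_iff_isRoot_iterate_derivative hp]
    intro h
    exact h2 (h 2 le_rfl)
  omega

/-- The reduction of the line: for `s = (1 - e) / (1 + e) M ν ^ (M - 1)` and general `μ` the
polynomial `g' = s (X - ν) + μ (X - ν) ²` has the following properties. Proof: `a = g' - (X ^ M - 1)`,
`a' = g' + (X ^ M - 1)`. Both vanish at `ν`, the derivatives at `ν` are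
`M ν ^ (M - 1) ((1 - e) / (1 + e) ∓ 1)`, i.e. `M ν ^ (M - 1) (-2 e) / (1 + e)` and
`M ν ^ (M - 1) 2 / (1 + e) ≠ 0`. If `e = 0` the second derivative of `a` at `ν` is
`2 μ - M (M - 1) ν ^ (M - 2) ≠ 0` for general `μ`. (Multiplicities:
`Polynomial.one_lt_rootMultiplicity_iff_isRoot`, `count_roots`; or write
`X ^ M - 1 = (X - ν) (M ν ^ (M - 1) + (X - ν) q)`, `q(ν) = M (M - 1) / 2 ν ^ (M - 2)`.) At the other nodes
`z` one has `a(z) = a'(z) = g'(z) = (z - ν) (s + μ (z - ν)) ≠ 0` for general `μ`. Take also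
`μ ≠ 1, -1` (for `M = 2` the coefficient of `X ^ M` in `g'` is `μ`, for `M > 2` it is `0`). -/
theorem exists_mu (hM : 2 ≤ M) {ν : k} (hν : ν ^ M = 1) {e : k} (he1 : 1 + e ≠ 0) :
    ∃ μ : k, ∀ g' : k[X], g' = C ((1 - e) / (1 + e) * ((M : k) * ν ^ (M - 1))) * (X - C ν) +
      C μ * (X - C ν) ^ 2 →
      g'.coeff M ^ 2 ≠ 1 ∧ (g' - (X ^ M - 1)).roots.count ν = (if e = 0 then 2 else 1) ∧
      (g' + (X ^ M - 1)).roots.count ν = 1 ∧
      (∀ z : k, z ^ M = 1 → z ≠ ν → z ∉ (g' - (X ^ M - 1)).roots) ∧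
      ∀ z : k, z ^ M = 1 → z ≠ ν → z ∉ (g' + (X ^ M - 1)).roots := by
  have hν0 : ν ≠ 0 := by
    rintro rfl
    rw [zero_pow (by omega)] at hν
    exact zero_ne_one hν
  have hD : (M : k) * ν ^ (M - 1) ≠ 0 :=
    mul_ne_zero (Nat.cast_ne_zero.2 (by omega)) (pow_ne_zero _ hν0)
  set D : k := (M : k) * ν ^ (M - 1) with hDdef
  set s : k := (1 - e) / (1 + e) * D with hs
  let W : k := (M : k) * (((M - 1 : ℕ) : k) * ν ^ (M - 1 - 1))
  obtain ⟨μ, hμ⟩ := Infinite.exists_notMem_finset
    ((({1, -1, W / 2} : Finset k)) ∪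
      (nthRootsFinset M (1 : k)).image fun z => -s / (z - ν))
  rw [Finset.mem_union, not_or] at hμ
  obtain ⟨hμ1, hμ2⟩ := hμ
  simp only [Finset.mem_insert, Finset.mem_singleton, not_or] at hμ1
  obtain ⟨m1, m2, m3⟩ := hμ1
  refine ⟨μ, fun g' hg' => ?_⟩
  have ep : ∀ c : k, g' + C c * (X ^ M - 1) = bePol M s μ c ν := by
    intro c
    rw [hg', bePol]
  have em : g' - (X ^ M - 1) = bePol M s μ (-1) ν := by
    rw [← ep (-1), C_neg, C_1]
    ring
  have e1 : g' + (X ^ M - 1) = bePol M s μ 1 ν := by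
    rw [← ep 1, C_1, one_mul]
  have hout : ∀ (c z : k), z ^ M = 1 → z ≠ ν → z ∉ (bePol M s μ c ν).roots := by
    intro c z hz hzν h
    have h1 := (mem_roots'.1 h).2
    rw [IsRoot.def, be_eval0, hz, sub_self, mul_zero, add_zero] at h1
    have h2 : (z - ν) ≠ 0 := sub_ne_zero.2 hzν
    have h3 : s + μ * (z - ν) = 0 := by
      have h4 : (z - ν) * (s + μ * (z - ν)) = 0 := by linear_combination h1
      exact (mul_eq_zero.1 h4).resolve_left h2
    apply hμ2
    rw [Finset.mem_image]
    refine ⟨z, (mem_nthRootsFinset (by omega) _).2 hz, ?_⟩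
    rw [div_eq_iff h2]
    linear_combination -h3
  refine ⟨?_, ?_, ?_, ?_, ?_⟩
  · have hc : g'.coeff M = if M = 2 then μ else 0 := by
      have h1 : g' = C μ * X ^ 2 + C (s - 2 * μ * ν) * X + C (μ * ν ^ 2 - s * ν) := by
        rw [hg']
        simp only [C_sub, C_mul, C_pow, C_ofNat]
        ring
      rw [h1, coeff_add, coeff_add, coeff_C_mul, coeff_C_mul, coeff_X_pow, coeff_X, coeff_C]
      rw [if_neg (by omega : ¬ 1 = M), if_neg (by omega : ¬ M = 0)]
      split_ifs <;> simp
    rw [hc]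
    split_ifs
    · intro h
      rcases sq_eq_one_iff.1 h with h | h
      · exact m1 h
      · exact m2 h
    · simp
  · rw [em]
    have h0 : (bePol M s μ (-1) ν).eval ν = 0 := by
      rw [be_eval0, hν]
      ring
    have h1 : (derivative (bePol M s μ (-1) ν)).eval ν = -2 * e / (1 + e) * D := by
      rw [be_eval1, hs]
      field_simp
      ring
    split_ifs with he
    · refine be_count2 h0 ?_ ?_
      · rw [h1, he]
        simp
      · rw [be_eval2]
        intro h
        apply m3
        rw [eq_div_iff two_ne_zero]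
        linear_combination h
    · refine be_count1 h0 ?_
      rw [h1]
      exact mul_ne_zero (div_ne_zero (mul_ne_zero (neg_ne_zero.2 two_ne_zero) he) he1) hD
  · rw [e1]
    refine be_count1 ?_ ?_
    · rw [be_eval0, hν]
      ring
    · have h1 : (derivative (bePol M s μ 1 ν)).eval ν = 2 / (1 + e) * D := by
        rw [be_eval1, hs]
        field_simp
        ring
      rw [h1]
      exact mul_ne_zero (div_ne_zero two_ne_zero he1) hD
  · rw [em]
    exact hout _
  · rw [e1]
    exact hout _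

end Pool.Agent.GTM
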