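import Pool.Agent.GTM.BadC
import Pool.Agent.GTM.BadD
import Pool.Agent.GTM.BadE

/-!
# The bad place: the line through two points near a node
-/

set_option autoImplicit false

noncomputable section

namespace Pool.Agent.GTM

open Pool.Agent.ZCyc Polynomial
open Pool.Agent.VFP (Om tt)
open scoped Classical

variable {k : Type} [Field k] [IsAlgClosed k] [CharZero k] {v : Place k (Om k)} {M : ℕ}
  {b : Om k} {V : Type} [AddCommGroup V] [Module ℚ V] {f : Om k → Om k → V} {κ : ℤˣ → V}
  {E : Finset k} {Γ : V}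

omit [IsAlgClosed k] [CharZero k] in
private theorem be2_coeff (c0 c1 c2 : k) (i : ℕ) :
    (C c0 + C c1 * X + C c2 * X ^ 2 : k[X]).coeff i =
      (if i = 0 then c0 else 0) + (if i = 1 then c1 else 0) + (if i = 2 then c2 else 0) := by
  rw [coeff_add, coeff_add, coeff_C, coeff_C_mul, coeff_C_mul, coeff_X, coeff_X_pow]
  by_cases h1 : i = 1
  · subst h1
    simp
  · rw [if_neg (Ne.symm h1), if_neg h1]
    simp

omit [IsAlgClosed k] [CharZero k] in
private theorem be2_zero (v : Place k (Om k)) : v.At (0 : Om k) 0 := by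
  simpa using Place.at_const (v := v) (0 : k)

omit [CharZero k] in
/-- the number of the roots which are no nodes -/
private theorem be2_card {P : k[X]} (hd : P.natDegree ≤ M) (hc : P.coeff M ≠ 0)
    {ν : k} (hν : ν ^ M = 1) (hz : ∀ z : k, z ^ M = 1 → z ≠ ν → z ∉ P.roots) :
    Multiset.card (P.roots.filter fun z => z ^ M ≠ 1) + P.roots.count ν = M := by
  have h1 : Multiset.card P.roots = M := by
    rw [IsAlgClosed.card_roots_eq_natDegree]
    exact le_antisymm hd (le_natDegree_of_ne_zero hc)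
  have h2 : (P.roots.filter fun z => z ^ M = 1) = P.roots.filter fun z => z = ν := by
    refine Multiset.filter_congr fun z hzm => ⟨fun h => ?_, fun h => by rw [h, hν]⟩
    by_contra h3
    exact hz z h h3 hzm
  have h3 := Multiset.filter_add_not (fun z : k => z ^ M = 1) P.roots
  have h4 : Multiset.card (P.roots.filter fun z => z ^ M = 1) = P.roots.count ν := by
    rw [h2, Multiset.count, Multiset.countP_eq_card_filter]
    exact congrArg Multiset.card (Multiset.filter_congr fun z _ => eq_comm)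
  have h5 := congrArg Multiset.card h3
  rw [Multiset.card_add, h4, h1] at h5
  rw [add_comm]
  exact h5

/-- The line through two points near the node `ν`. There are `g` and `g'` as in `exists_mu`, where
`g` has the reduction `g'` and passes through the two points; and the sum of `f` over the roots of
`g ² - pol M b` with the value `ν` is determined. Proof:
`g = C y₁ + C s' * (X - C x₁) + C μ * (X - C x₁) * (X - C x₂)`, `s'` the slope (`near_slope`), `μ`
from `exists_mu` (a constant). `BadFn.line_sum`: the nodal roots have the value `ν`; the numbers of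
the non-nodal roots of `g' ∓ (X ^ M - 1)` are `M` minus the count of `ν` (degrees `M`, `line_deg`, all
roots which are nodes are `ν`); `Γ = M (κ 1 + κ (-1))` (`const_eq`). -/
theorem BadFn.exists_line₂ (h : BadFn v M b f κ E Γ) {ν : k} (hν : ν ^ M = 1)
    {a₁ x₁ y₁ a₂ x₂ y₂ : Om k} (h₁ : Near v M b ν a₁ x₁ y₁) (h₂ : Near v M b ν a₂ x₂ y₂)
    (ha : a₁ ≠ a₂) {e : k} (he : v.At ((b + 2) / (a₁ * a₂)) e) (he1 : 1 + e ≠ 0) :
    ∃ (g : (Om k)[X]) (g' : k[X]) (r : Om k → k), (∀ i, v.At (g.coeff i) (g'.coeff i)) ∧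
      g.natDegree ≤ M ∧ g'.coeff M ^ 2 ≠ 1 ∧ g.eval x₁ = y₁ ∧ g.eval x₂ = y₂ ∧
      (∀ x ∈ (g ^ 2 - pol M b).roots, v.At x (r x)) ∧
      (g ^ 2 - pol M b).roots.map r = (g' - (X ^ M - 1)).roots + (g' + (X ^ M - 1)).roots ∧
      (g' - (X ^ M - 1)).roots.count ν = (if e = 0 then 2 else 1) ∧
      (g' + (X ^ M - 1)).roots.count ν = 1 ∧
      (((g ^ 2 - pol M b).roots.filter fun x => r x = ν).map fun x => f x (g.eval x)).sum =
        (if e = 0 then 2 else 1 : ℚ) • κ 1 + κ (-1) := by
  have hM2 := h.two_le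
  have hM1 : 1 ≤ M := by omega
  obtain ⟨hx12, hs⟩ := near_slope hM1 h.at_b h.b_ne hν h₁ h₂ ha he he1
  obtain ⟨μ, hμ⟩ := exists_mu hM2 hν he1
  set s : Om k := (y₁ - y₂) / (x₁ - x₂) with hsd
  set s' : k := (1 - e) / (1 + e) * ((M : k) * ν ^ (M - 1)) with hs'd
  obtain ⟨m1, m2, m3, m4, m5⟩ := hμ _ rfl
  have hadm := h₁.adm hM1 h.at_b h.b_ne hν
  have h00 : v.At (0 : Om k) 0 := be2_zero v
  have h11 : v.At (1 : Om k) 1 := by simpa using Place.at_const (v := v) (1 : k)
  have hy1 : v.At y₁ 0 := by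
    have e1 : y₁ = a₁ - (x₁ ^ M - 1) := by rw [← h₁.eq]; ring
    have e2 := h₁.at_x.pow M
    rw [hν] at e2
    have e3 := (Place.at_zero_iff.2 hadm.van).sub (e2.sub h11)
    rw [← e1] at e3
    convert e3 using 1
    ring
  have hμv : v.At (algebraMap k (Om k) μ) μ := Place.at_const μ
  have hx1 := h₁.at_x
  have hx2 := h₂.at_x
  set μ' : Om k := algebraMap k (Om k) μ with hμ'
  set g' : k[X] := C s' * (X - C ν) + C μ * (X - C ν) ^ 2 with hg'
  set g : (Om k)[X] := C y₁ + C s * (X - C x₁) + C μ' * ((X - C x₁) * (X - C x₂)) with hg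
  have eg : g = C (y₁ - s * x₁ + μ' * (x₁ * x₂)) + C (s - μ' * (x₁ + x₂)) * X + C μ' * X ^ 2 := by
    rw [hg]
    simp only [C_add, C_sub, C_mul]
    ring
  have eg' : g' = C (-(s' * ν) + μ * (ν * ν)) + C (s' - μ * (ν + ν)) * X + C μ * X ^ 2 := by
    rw [hg']
    simp only [C_add, C_sub, C_mul, C_neg]
    ring
  have c0 : v.At (y₁ - s * x₁ + μ' * (x₁ * x₂)) (-(s' * ν) + μ * (ν * ν)) := by
    have e1 := (hy1.sub (hs.mul hx1)).add (hμv.mul (hx1.mul hx2))
    rwa [zero_sub] at e1
  have c1 : v.At (s - μ' * (x₁ + x₂)) (s' - μ * (ν + ν)) := hs.sub (hμv.mul (hx1.add hx2))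
  have hgg : ∀ i, v.At (g.coeff i) (g'.coeff i) := by
    intro i
    rw [eg, eg', be2_coeff, be2_coeff]
    refine Place.At.add (Place.At.add ?_ ?_) ?_
    · split_ifs
      · exact c0
      · exact h00
    · split_ifs
      · exact c1
      · exact h00
    · split_ifs
      · exact hμv
      · exact h00
  have hgd : g.natDegree ≤ M := by
    refine le_trans ?_ hM2
    rw [natDegree_le_iff_coeff_eq_zero]
    intro i hi
    rw [eg, be2_coeff, if_neg (by omega), if_neg (by omega), if_neg (by omega), add_zero, add_zero]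
  have ex1 : g.eval x₁ = y₁ := by
    rw [hg]
    simp
  have ex2 : g.eval x₂ = y₂ := by
    have e1 : x₁ - x₂ ≠ 0 := sub_ne_zero.2 hx12
    have e2 : s * (x₁ - x₂) = y₁ - y₂ := div_mul_cancel₀ _ e1
    rw [hg]
    simp only [eval_add, eval_C, eval_mul, eval_sub, eval_X, sub_self, mul_zero, add_zero]
    linear_combination -e2
  obtain ⟨r, hr, hmap, hsum⟩ := h.line_sum hgg hgd m1
  obtain ⟨-, -, dA, dB, dg, -⟩ := line_deg (b := b) hM1 hgg hgd m1
  have hXd : (X ^ M - 1 : k[X]).natDegree ≤ M :=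
    (natDegree_sub_le _ _).trans (by rw [natDegree_X_pow, natDegree_one]; simp)
  have cA := be2_card ((natDegree_sub_le _ _).trans (max_le dg hXd)) dA hν m4
  have cB := be2_card ((natDegree_add_le _ _).trans (max_le dg hXd)) dB hν m5
  refine ⟨g, g', r, hgg, hgd, m1, ex1, ex2, hr, hmap, m2, m3, ?_⟩
  have hfil : ((g ^ 2 - pol M b).roots.filter fun x => r x ^ M = 1) =
      (g ^ 2 - pol M b).roots.filter fun x => r x = ν := by
    refine Multiset.filter_congr fun x hx => ⟨fun h3 => ?_, fun h3 => by rw [h3, hν]⟩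
    by_contra h4
    have h5 : r x ∈ (g ^ 2 - pol M b).roots.map r := Multiset.mem_map_of_mem r hx
    rw [hmap, Multiset.mem_add] at h5
    rcases h5 with h5 | h5
    · exact m4 _ h3 h4 h5
    · exact m5 _ h3 h4 h5
  rw [hfil, h.const_eq] at hsum
  rw [m2] at cA
  rw [m3] at cB
  have cB' : (Multiset.card ((g' + (X ^ M - 1)).roots.filter fun z => z ^ M ≠ 1) : ℚ) = M - 1 := by
    have := congrArg (Nat.cast : ℕ → ℚ) cB
    push_cast at this
    linarith
  have cA' : (Multiset.card ((g' - (X ^ M - 1)).roots.filter fun z => z ^ M ≠ 1) : ℚ) =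
      M - (if e = 0 then 2 else 1) := by
    have := congrArg (Nat.cast : ℕ → ℚ) cA
    push_cast at this
    linarith
  rw [cA', cB'] at hsum
  rw [add_assoc, ← eq_sub_iff_add_eq] at hsum
  rw [hsum]
  module

end Pool.Agent.GTM
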