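import Pool.Agent.GTM.BadE2

/-!
# The bad place: relations between two and three points near a node
-/

set_option autoImplicit false

noncomputable section

namespace Pool.Agent.GTM

open Pool.Agent.ZCyc Polynomial
open Pool.Agent.VFP (Om tt)
open scoped Classical

variable {k : Type} [Field k] [IsAlgClosed k] [CharZero k] {v : Place k (Om k)} {M : ℕ}
  {b : Om k} {V : Type} [AddCommGroup V] [Module ℚ V] {f : Om k → Om k → V} {κ : ℤˣ → V}
  {E : Finset k} {Γ : V}

omit [IsAlgClosed k] [CharZero k] in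
private theorem badE3_zero {c : k} (h : v.At (0 : Om k) c) : c = 0 := by
  have h1 := Place.at_const (v := v) (0 : k)
  rw [map_zero] at h1
  exact h.unique h1

omit [IsAlgClosed k] [CharZero k] in
/-- an element with a value which is not zero is a unit -/
private theorem badE3_val {w : Om k} {c : k} (h : v.At w c) (hc : c ≠ 0) :
    v.ring.valuation w = 1 := by
  have h1 : v.ring.valuation w ≤ 1 := (v.ring.valuation_le_one_iff w).2 h.mem
  have h2 : v.ring.valuation w⁻¹ ≤ 1 := (v.ring.valuation_le_one_iff _).2 (h.inv hc).mem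
  have hw : w ≠ 0 := by
    rintro rfl
    exact hc (badE3_zero h)
  have h3 : v.ring.valuation w * v.ring.valuation w⁻¹ = 1 := by
    rw [← map_mul, mul_inv_cancel₀ hw, map_one]
  refine le_antisymm h1 ?_
  calc (1 : v.ring.ValueGroup) = v.ring.valuation w * v.ring.valuation w⁻¹ := h3.symm
    _ ≤ v.ring.valuation w * 1 := mul_le_mul_right h2 _
    _ = v.ring.valuation w := mul_one _

/-- the roots near the node: two of them are known -/
private theorem badE3_roots (h : BadFn v M b f κ E Γ) {ν : k}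
    {a₁ x₁ y₁ a₂ x₂ y₂ : Om k} (h₁ : Near v M b ν a₁ x₁ y₁) (h₂ : Near v M b ν a₂ x₂ y₂)
    (hx : x₁ ≠ x₂) {g : (Om k)[X]} {g' : k[X]} {r : Om k → k}
    (hg : ∀ i, v.At (g.coeff i) (g'.coeff i)) (hd : g.natDegree ≤ M) (h1 : g'.coeff M ^ 2 ≠ 1)
    (hgx₁ : g.eval x₁ = y₁) (hgx₂ : g.eval x₂ = y₂)
    (hr : ∀ x ∈ (g ^ 2 - pol M b).roots, v.At x (r x))
    (hmap : (g ^ 2 - pol M b).roots.map r = (g' - (X ^ M - 1)).roots + (g' + (X ^ M - 1)).roots) :
    ∃ t : Multiset (Om k), (g ^ 2 - pol M b).roots.filter (fun x => r x = ν) = x₁ ::ₘ x₂ ::ₘ t ∧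
      Multiset.card t + 2 = (g' - (X ^ M - 1)).roots.count ν + (g' + (X ^ M - 1)).roots.count ν := by
  have hM : 1 ≤ M := le_trans (by norm_num) h.two_le
  obtain ⟨-, hne, -⟩ := line_deg (b := b) hM hg hd h1
  have hF : g ^ 2 - pol M b ≠ 0 := by
    intro h0
    have h2 := coeff_line_at (M := M) h.at_b hg (2 * M)
    rw [h0, coeff_zero] at h2
    exact hne (badE3_zero h2)
  have hmem : ∀ {x y a : Om k}, Near v M b ν a x y → g.eval x = y →
      x ∈ (g ^ 2 - pol M b).roots.filter (fun x => r x = ν) := by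
    intro x y a hn hgx
    have h3 : x ∈ (g ^ 2 - pol M b).roots := by
      rw [mem_roots hF, IsRoot.def, eval_sub, eval_pow, hgx, hn.on, sub_self]
    rw [Multiset.mem_filter]
    exact ⟨h3, (hr x h3).unique hn.at_x⟩
  have hle : x₁ ::ₘ x₂ ::ₘ 0 ≤ (g ^ 2 - pol M b).roots.filter (fun x => r x = ν) := by
    rw [Multiset.le_iff_subset]
    · intro x hx
      simp only [Multiset.mem_cons, Multiset.notMem_zero, or_false] at hx
      rcases hx with rfl | rfl
      · exact hmem h₁ hgx₁
      · exact hmem h₂ hgx₂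
    · simpa using hx
  obtain ⟨t, ht⟩ := Multiset.le_iff_exists_add.1 hle
  refine ⟨t, by rw [ht]; simp, ?_⟩
  have hcard : Multiset.card ((g ^ 2 - pol M b).roots.filter (fun x => r x = ν)) =
      (g' - (X ^ M - 1)).roots.count ν + (g' + (X ^ M - 1)).roots.count ν := by
    rw [← Multiset.count_add, ← hmap, Multiset.count_map]
    congr 1
    refine Multiset.filter_congr fun x _ => ?_
    exact eq_comm
  rw [← hcard, ht]
  simp only [Multiset.cons_add, zero_add, Multiset.card_cons]

/-- Two points. Proof: `exists_line₂`; the roots with the value `ν` are two (count of `ν` in the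
multiset of the values), `x₁` and `x₂` are among them and different. -/
theorem BadFn.two_pt (h : BadFn v M b f κ E Γ) {ν : k} (hν : ν ^ M = 1)
    {a₁ x₁ y₁ a₂ x₂ y₂ : Om k} (h₁ : Near v M b ν a₁ x₁ y₁) (h₂ : Near v M b ν a₂ x₂ y₂)
    (ha : a₁ ≠ a₂) {e : k} (he : v.At ((b + 2) / (a₁ * a₂)) e) (he1 : 1 + e ≠ 0) (he0 : e ≠ 0) :
    f x₁ y₁ + f x₂ y₂ = κ 1 + κ (-1) := by
  have hM : 1 ≤ M := le_trans (by norm_num) h.two_le
  obtain ⟨g, g', r, hg, hd, h1, hgx₁, hgx₂, hr, hmap, hc1, hc2, hsum⟩ :=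
    h.exists_line₂ hν h₁ h₂ ha he he1
  rw [if_neg he0] at hc1 hsum
  obtain ⟨t, ht, htc⟩ := badE3_roots h h₁ h₂
    (near_slope hM h.at_b h.b_ne hν h₁ h₂ ha he he1).1 hg hd h1 hgx₁ hgx₂ hr hmap
  rw [hc1, hc2] at htc
  have ht0 : t = 0 := Multiset.card_eq_zero.1 (by omega)
  rw [ht, ht0] at hsum
  simpa [hgx₁, hgx₂] using hsum

/-- Three points. Proof: `exists_line₂` with `e = 0`; the multiset of the roots of
`F = g ² - pol M b` with the value `ν` has three elements and contains the different `x₁`, `x₂`, so it is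
`{x₁, x₂, x₃}`; `y₃ = g.eval x₃`, `a₃ = y₃ + (x₃ ^ M - 1)`. Valuations: the polynomial
`A = g + (X ^ M - 1)` has the reduction `g' + (X ^ M - 1)`, which has the simple root `ν` and the
degree `M`, so `A` has exactly one root `w` with the value `ν` (`exists_red_roots`). By
`eval_valuation` for `A` at `x_i`: `|a_i| = |A(x_i)| = |x_i - w|`. By `eval_valuation` for `F` at `w`:
`|F(w)| = ∏ |w - x_i|`, and `F = (g - (X ^ M - 1)) A - (b + 2) X ^ M`, so
`|F(w)| = |(b + 2) w ^ M| = |b + 2|` (`w` is a unit). -/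
theorem BadFn.three_pt (h : BadFn v M b f κ E Γ) {ν : k} (hν : ν ^ M = 1)
    {a₁ x₁ y₁ a₂ x₂ y₂ : Om k} (h₁ : Near v M b ν a₁ x₁ y₁) (h₂ : Near v M b ν a₂ x₂ y₂)
    (ha : a₁ ≠ a₂) (he : v.Vanishes ((b + 2) / (a₁ * a₂))) :
    ∃ a₃ x₃ y₃, Near v M b ν a₃ x₃ y₃ ∧
      v.ring.valuation (a₁ * a₂ * a₃) = v.ring.valuation (b + 2) ∧
      f x₁ y₁ + f x₂ y₂ + f x₃ y₃ = (2 : ℚ) • κ 1 + κ (-1) := by
  have hM : 1 ≤ M := le_trans (by norm_num) h.two_le
  have hν0 : ν ≠ 0 := by
    rintro rfl
    rw [zero_pow (by omega)] at hν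
    exact zero_ne_one hν
  have he' : v.At ((b + 2) / (a₁ * a₂)) 0 := Place.at_zero_iff.2 he
  obtain ⟨g, g', r, hg, hd, h1, hgx₁, hgx₂, hr, hmap, hc1, hc2, hsum⟩ :=
    h.exists_line₂ hν h₁ h₂ ha he' (by rw [add_zero]; exact one_ne_zero)
  rw [if_pos rfl] at hc1 hsum
  obtain ⟨t, ht, htc⟩ := badE3_roots h h₁ h₂
    (near_slope hM h.at_b h.b_ne hν h₁ h₂ ha he' (by rw [add_zero]; exact one_ne_zero)).1
    hg hd h1 hgx₁ hgx₂ hr hmap
  rw [hc1, hc2] at htc
  obtain ⟨x₃, rfl⟩ : ∃ x₃, t = {x₃} := Multiset.card_eq_one.1 (by omega)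
  obtain ⟨hdF, hneF, -, hneA, -⟩ := line_deg (b := b) hM hg hd h1
  have hF : g ^ 2 - pol M b ≠ 0 := by
    intro h0
    have h2 := coeff_line_at (M := M) h.at_b hg (2 * M)
    rw [h0, coeff_zero] at h2
    exact hneF (badE3_zero h2)
  -- the third point
  have hx₃ : x₃ ∈ (g ^ 2 - pol M b).roots.filter (fun x => r x = ν) := by
    rw [ht]
    simp
  rw [Multiset.mem_filter] at hx₃
  have h₃ : Near v M b ν (g.eval x₃ + (x₃ ^ M - 1)) x₃ (g.eval x₃) := by
    refine ⟨?_, ?_, rfl⟩
    · rw [← hx₃.2]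
      exact hr _ hx₃.1
    · have h2 := (mem_roots hF).1 hx₃.1
      rw [IsRoot.def, eval_sub, eval_pow] at h2
      exact sub_eq_zero.1 h2
  refine ⟨_, x₃, g.eval x₃, h₃, ?_, ?_⟩
  · -- the polynomial `A`
    have hone : ∀ i, v.At ((1 : (Om k)[X]).coeff i) ((1 : k[X]).coeff i) := by
      intro i
      rw [coeff_one, coeff_one]
      split_ifs
      · simpa using Place.at_const (v := v) (1 : k)
      · simpa using Place.at_const (v := v) (0 : k)
    have hXp : ∀ i, v.At ((X ^ M : (Om k)[X]).coeff i) ((X ^ M : k[X]).coeff i) := by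
      intro i
      rw [coeff_X_pow, coeff_X_pow]
      split_ifs
      · simpa using Place.at_const (v := v) (1 : k)
      · simpa using Place.at_const (v := v) (0 : k)
    have hA : ∀ i, v.At ((g + (X ^ M - 1)).coeff i) ((g' + (X ^ M - 1)).coeff i) := by
      intro i
      rw [coeff_add, coeff_sub, coeff_add, coeff_sub]
      exact (hg i).add ((hXp i).sub (hone i))
    have hdA : (g + (X ^ M - 1)).natDegree ≤ M := by
      refine (natDegree_add_le _ _).trans (max_le hd ?_)
      refine (natDegree_sub_le _ _).trans (max_le ?_ ?_)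
      · exact natDegree_X_pow_le M
      · rw [natDegree_one]
        exact Nat.zero_le _
    obtain ⟨s, hs, hsmap⟩ := exists_red_roots hA hdA hneA
    have hcard : Multiset.card ((g + (X ^ M - 1)).roots.filter fun w => s w = ν) = 1 := by
      rw [← hc2, ← hsmap, Multiset.count_map]
      congr 1
      exact Multiset.filter_congr fun x _ => eq_comm
    obtain ⟨w, hw⟩ := Multiset.card_eq_one.1 hcard
    have hwm : w ∈ (g + (X ^ M - 1)).roots.filter fun w => s w = ν := by
      rw [hw]
      simp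
    rw [Multiset.mem_filter] at hwm
    have hAne : g + (X ^ M - 1) ≠ 0 := by
      intro h0
      have h2 := hA M
      rw [h0, coeff_zero] at h2
      exact hneA (badE3_zero h2)
    have hwat : v.At w ν := by
      rw [← hwm.2]
      exact hs _ hwm.1
    have hAw : g.eval w + (w ^ M - 1) = 0 := by
      have h2 := (mem_roots hAne).1 hwm.1
      simpa [IsRoot.def] using h2
    have hval : ∀ {a x y : Om k}, Near v M b ν a x y → g.eval x = y →
        v.ring.valuation a = v.ring.valuation (w - x) := by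
      intro a x y hn hgx
      have h2 := eval_valuation hA hdA hneA hs hn.at_x
      rw [hw] at h2
      simp only [Multiset.map_singleton, Multiset.prod_singleton, eval_add, eval_sub, eval_pow,
        eval_X, eval_one] at h2
      rw [hgx, hn.eq] at h2
      rw [h2, ← Valuation.map_neg, neg_sub]
    have h2 := eval_valuation (coeff_line_at (M := M) h.at_b hg) hdF hneF hr hwat
    rw [ht] at h2
    simp only [Multiset.map_cons, Multiset.map_singleton, Multiset.prod_cons,
      Multiset.prod_singleton] at h2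
    have h3 : (g ^ 2 - pol M b).eval w = -((b + 2) * w ^ M) := by
      have h4 : g.eval w = -(w ^ M - 1) := by linear_combination hAw
      rw [eval_sub, eval_pow, pol_eval, h4]
      have h5 : w ^ (2 * M) = (w ^ M) ^ 2 := by rw [mul_comm, pow_mul]
      rw [h5]
      ring
    rw [h3, Valuation.map_neg, map_mul, map_pow, badE3_val hwat hν0, one_pow, mul_one] at h2
    rw [h2, map_mul, map_mul, map_mul, map_mul, hval h₁ hgx₁, hval h₂ hgx₂, hval h₃ rfl,
      mul_assoc]
  · rw [ht] at hsum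
    simp only [Multiset.map_cons, Multiset.map_singleton, Multiset.sum_cons,
      Multiset.sum_singleton, hgx₁, hgx₂] at hsum
    rw [add_assoc]
    exact hsum

end Pool.Agent.GTM
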