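import Pool.Agent.GTM.BadD

/-!
# The bad place: additive functions on the annulus
-/

set_option autoImplicit false

noncomputable section

namespace Pool.Agent.GTM

open Pool.Agent.ZCyc Polynomial
open Pool.Agent.VFP (Om tt)
open scoped Classical

variable {k : Type} [Field k] [IsAlgClosed k] [CharZero k] {v : Place k (Om k)} {η : Om k}
  {V : Type} [AddCommGroup V] [Module ℚ V]

omit [IsAlgClosed k] [CharZero k] in
private theorem val_const {u : k} (hu : u ≠ 0) :
    v.ring.valuation (algebraMap k (Om k) u) = 1 := by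
  have h1 : v.ring.valuation (algebraMap k (Om k) u) ≤ 1 :=
    (ValuationSubring.valuation_le_one_iff _ _).2 (v.const_mem u)
  have h2 : ¬ v.ring.valuation (algebraMap k (Om k) u) < 1 := fun h =>
    Place.const_unit v hu ((Place.vanishes_iff v _).2 h)
  exact le_antisymm h1 (not_lt.1 h2)

omit [CharZero k] in
private theorem exists_at_ne {f : Om k} (hf : v.ring.valuation f = 1) :
    ∃ e : k, v.At f e ∧ e ≠ 0 := by
  obtain ⟨e, he⟩ := DCI57.exists_at v ((ValuationSubring.valuation_le_one_iff _ _).1 hf.le)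
  refine ⟨e, he, ?_⟩
  rintro rfl
  have h1 := (Place.vanishes_iff v f).1 (Place.at_zero_iff.1 he)
  rw [hf] at h1
  exact lt_irrefl _ h1

omit [IsAlgClosed k] in
/-- a general constant -/
private theorem exists_gen (F : Finset k) (E : Finset (Om k)) :
    ∃ u : k, u ∉ F ∧ algebraMap k (Om k) u ∉ E := by
  have hfin : ((F : Set k) ∪ (algebraMap k (Om k)) ⁻¹' (E : Set (Om k))).Finite := by
    refine (Finset.finite_toSet F).union ?_
    exact Set.Finite.preimage ((algebraMap k (Om k)).injective.injOn) (Finset.finite_toSet E)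
  have : Infinite k := CharZero.infinite k
  obtain ⟨u, hu⟩ := hfin.infinite_compl.nonempty
  rw [Set.mem_compl_iff, Set.mem_union, not_or] at hu
  exact ⟨u, fun h => hu.1 (Finset.mem_coe.2 h), fun h => hu.2 (Finset.mem_coe.2 h)⟩

omit [IsAlgClosed k] [CharZero k] in
private theorem Adm.scale {η a : Om k} (h : Adm v η a) {u : k} (hu : u ≠ 0) :
    Adm v η (algebraMap k (Om k) u * a) := by
  have hU : algebraMap k (Om k) u ≠ 0 := fun h0 => hu ((map_eq_zero _).1 h0)
  refine ⟨mul_ne_zero hU h.ne, ?_, ?_⟩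
  · rw [Place.vanishes_iff, map_mul, val_const hu, one_mul]
    exact (Place.vanishes_iff v a).1 h.van
  · have e : η / (algebraMap k (Om k) u * a) = (algebraMap k (Om k) u)⁻¹ * (η / a) := by
      field_simp
    rw [e, Place.vanishes_iff, map_mul, map_inv₀, val_const hu, inv_one, one_mul]
    exact (Place.vanishes_iff v _).1 h.van'

/-- `φ` is defined for the elements `a` with `0 < ord a < ord η`. -/
structure Ann (v : Place k (Om k)) (η : Om k) (φ : Om k → V) (Δ : V) : Prop where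
  two : ∀ a₁ a₂ : Om k, Adm v η a₁ → Adm v η a₂ → a₁ ≠ a₂ → ∀ e : k, v.At (η / (a₁ * a₂)) e →
    e ≠ 0 → 1 + e ≠ 0 → φ a₁ + φ a₂ = Δ
  three : ∀ a₁ a₂ : Om k, Adm v η a₁ → Adm v η a₂ → a₁ ≠ a₂ → v.Vanishes (η / (a₁ * a₂)) →
    ∃ a₃, Adm v η a₃ ∧ v.ring.valuation (a₁ * a₂ * a₃) = v.ring.valuation η ∧
      φ a₁ + φ a₂ + φ a₃ = Δ

/-- `φ` depends only on the valuation. Proof: `a₁ / a₂` has a value `w ≠ 0`. For a general constant
`u ∈ k` (`u ≠ 0`, `u ≠ -1`, `u w ≠ -1`, and `c ≠ a₁`, `c ≠ a₂` for `c = η / (u a₁)`, each of these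
excludes at most one `u`, note `η ≠ 0`) `Adm v η c`, `η / (a₁ c) = u`, and `η / (a₂ c) = u a₁ / a₂` has the
value `u w`. So `φ a₁ + φ c = Δ = φ a₂ + φ c`. -/
theorem Ann.congr {φ : Om k → V} {Δ : V} (h : Ann v η φ Δ) (hη : η ≠ 0) {a₁ a₂ : Om k}
    (h₁ : Adm v η a₁) (h₂ : Adm v η a₂) (h₁₂ : v.ring.valuation a₁ = v.ring.valuation a₂) :
    φ a₁ = φ a₂ := by
  have hv0 : v.ring.valuation a₂ ≠ 0 := (_root_.map_ne_zero _).2 h₂.ne
  obtain ⟨w, hw, hw0⟩ := exists_at_ne (v := v) (f := a₁ / a₂) (by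
    rw [map_div₀, h₁₂, div_self hv0])
  obtain ⟨u, hu1, hu2⟩ := exists_gen (k := k) {0, -1, -w⁻¹} {η / (a₁ * a₁), η / (a₁ * a₂)}
  simp only [Finset.mem_insert, Finset.mem_singleton, not_or] at hu1 hu2
  obtain ⟨u0, u1, u2⟩ := hu1
  set U := algebraMap k (Om k) u with hU
  have hU0 : U ≠ 0 := fun h0 => u0 ((map_eq_zero _).1 h0)
  have n1 := h₁.ne
  have n2 := h₂.ne
  have hc : Adm v η (η / (U * a₁)) := by
    refine ⟨div_ne_zero hη (mul_ne_zero hU0 n1), ?_, ?_⟩
    · exact (h₁.scale u0).van'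
    · have e : η / (η / (U * a₁)) = U * a₁ := by field_simp
      rw [e]
      exact (h₁.scale u0).van
  have t1 := h.two a₁ (η / (U * a₁)) h₁ hc (by
    intro h0
    apply hu2.1
    rw [eq_div_iff (mul_ne_zero n1 n1)]
    rw [eq_div_iff (mul_ne_zero hU0 n1)] at h0
    linear_combination h0) u (by
    have e : η / (a₁ * (η / (U * a₁))) = U := by field_simp
    rw [e]
    exact Place.at_const u) u0 (by
    intro h0
    exact u1 (by linear_combination h0))
  have t2 := h.two a₂ (η / (U * a₁)) h₂ hc (by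
    intro h0
    apply hu2.2
    rw [eq_div_iff (mul_ne_zero n1 n2)]
    rw [eq_div_iff (mul_ne_zero hU0 n1)] at h0
    linear_combination h0) (u * w) (by
    have e : η / (a₂ * (η / (U * a₁))) = U * (a₁ / a₂) := by field_simp
    rw [e]
    exact Place.At.mul (Place.at_const u) hw) (mul_ne_zero u0 hw0) (by
    intro h0
    apply u2
    field_simp
    linear_combination h0)
  exact add_right_cancel (t1.trans t2.symm)

/-- Complementary valuations. Proof: `η / (a₁ a₂)` has valuation `1`, so it has a value `e ≠ 0`;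
replace `a₂` by `u a₂` for a general constant `u` (`e / u ≠ -1`, `u a₂ ≠ a₁`, `u ≠ 0`) with
`Ann.congr`, and use `Ann.two`. -/
theorem Ann.compl {φ : Om k → V} {Δ : V} (h : Ann v η φ Δ) (hη : η ≠ 0) {a₁ a₂ : Om k}
    (h₁ : Adm v η a₁) (h₂ : Adm v η a₂)
    (h₁₂ : v.ring.valuation (a₁ * a₂) = v.ring.valuation η) : φ a₁ + φ a₂ = Δ := by
  have hv0 : v.ring.valuation η ≠ 0 := (_root_.map_ne_zero _).2 hη
  have n1 := h₁.ne
  have n2 := h₂.ne
  obtain ⟨e, he, he0⟩ := exists_at_ne (v := v) (f := η / (a₁ * a₂)) (by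
    rw [map_div₀, h₁₂, div_self hv0])
  obtain ⟨u, hu1, hu2⟩ := exists_gen (k := k) {0, -e} {a₁ / a₂}
  simp only [Finset.mem_insert, Finset.mem_singleton, not_or] at hu1 hu2
  obtain ⟨u0, u1⟩ := hu1
  set U := algebraMap k (Om k) u with hU
  have hU0 : U ≠ 0 := fun h0 => u0 ((map_eq_zero _).1 h0)
  have e1 : φ a₂ = φ (U * a₂) := h.congr hη h₂ (h₂.scale u0) (by
    rw [map_mul, val_const u0, one_mul])
  rw [e1]
  refine h.two a₁ (U * a₂) h₁ (h₂.scale u0) ?_ (e / u) ?_ (div_ne_zero he0 u0) ?_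
  · intro h0
    apply hu2
    rw [eq_div_iff n2]
    exact h0.symm
  · have e2 : η / (a₁ * (U * a₂)) = η / (a₁ * a₂) / U := by field_simp
    rw [e2]
    exact Place.At.div he (Place.at_const u) u0
  · intro h0
    apply u1
    field_simp at h0
    linear_combination h0

/-- Additivity. Proof: by `Ann.congr` we may replace `a₂` by `2 a₂` if `a₁ = a₂`. `Ann.three` gives
`a₃` with `φ a₁ + φ a₂ + φ a₃ = Δ`, and `Ann.compl` for `a₁ a₂` (which is admissible) and `a₃`:
`φ (a₁ a₂) + φ a₃ = Δ`. -/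
theorem Ann.mul {φ : Om k → V} {Δ : V} (h : Ann v η φ Δ) (hη : η ≠ 0) {a₁ a₂ : Om k}
    (h₁ : Adm v η a₁) (h₂ : Adm v η a₂) (h₁₂ : v.Vanishes (η / (a₁ * a₂))) :
    φ (a₁ * a₂) = φ a₁ + φ a₂ := by
  have key : ∀ a₂ : Om k, Adm v η a₂ → v.Vanishes (η / (a₁ * a₂)) → a₁ ≠ a₂ →
      Adm v η (a₁ * a₂) ∧ φ (a₁ * a₂) = φ a₁ + φ a₂ := by
    intro a₂ h₂ h₁₂ hne
    obtain ⟨a₃, h₃, h4, h5⟩ := h.three a₁ a₂ h₁ h₂ hne h₁₂
    have h6 : Adm v η (a₁ * a₂) :=
      ⟨mul_ne_zero h₁.ne h₂.ne, Place.Vanishes.mul v h₁.van (Place.Vanishes.mem v h₂.van), h₁₂⟩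
    refine ⟨h6, ?_⟩
    have h7 := h.compl hη h6 h₃ h4
    exact add_right_cancel (h7.trans h5.symm)
  by_cases hne : a₁ = a₂
  · have h20 : (2 : k) ≠ 0 := two_ne_zero
    have n1 := h₁.ne
    have n2 := h₂.ne
    set U := algebraMap k (Om k) 2 with hU
    have hU0 : U ≠ 0 := fun h0 => h20 ((map_eq_zero _).1 h0)
    have h8 : v.Vanishes (η / (a₁ * (U * a₂))) := by
      have e : η / (a₁ * (U * a₂)) = U⁻¹ * (η / (a₁ * a₂)) := by field_simp
      rw [e, Place.vanishes_iff, map_mul, map_inv₀, val_const h20, inv_one, one_mul]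
      exact (Place.vanishes_iff v _).1 h₁₂
    obtain ⟨h9, h10⟩ := key (U * a₂) (h₂.scale h20) h8 (by
      intro h0
      have h3 : (U - 1) * a₂ = 0 := by linear_combination hne - h0
      rcases mul_eq_zero.1 h3 with h4 | h4
      · have h5 : U = 2 := map_ofNat _ 2
        rw [h5] at h4
        have h6 : (1 : Om k) = 0 := by linear_combination h4
        exact one_ne_zero h6
      · exact n2 h4)
    have h11 : Adm v η (a₁ * a₂) :=
      ⟨mul_ne_zero h₁.ne h₂.ne, Place.Vanishes.mul v h₁.van (Place.Vanishes.mem v h₂.van), h₁₂⟩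
    have e1 : φ a₂ = φ (U * a₂) := h.congr hη h₂ (h₂.scale h20) (by
      rw [map_mul, val_const h20, one_mul])
    have e2 : φ (a₁ * a₂) = φ (a₁ * (U * a₂)) := h.congr hη h11 h9 (by
      rw [map_mul, map_mul, map_mul, val_const h20, one_mul])
    rw [e1, e2, h10]
  · exact (key a₂ h₂ h₁₂ hne).2

/-- The function is linear in the valuation. Proof: let `β ^ n = η` (`Om k` is algebraically
closed). `Adm v η (β ^ j)` for `0 < j < n`, `φ (β ^ j) = j φ β` by induction (`Ann.mul`),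
`φ β + φ (β ^ (n - 1)) = Δ` (`Ann.compl`, `n ≥ 2`), so `n φ β = Δ`. `(a / β ^ m) ^ n` has valuation `1`,
so `a / β ^ m` has, and `φ a = φ (β ^ m) = m φ β`. -/
theorem Ann.linear {φ : Om k → V} {Δ : V} (h : Ann v η φ Δ) (hη : η ≠ 0) {a : Om k}
    (ha : Adm v η a) {m n : ℕ} (hm : 0 < m) (hmn : m < n)
    (hv : v.ring.valuation (a ^ n) = v.ring.valuation (η ^ m)) :
    (n : ℚ) • φ a = (m : ℚ) • Δ := by
  obtain ⟨β, hβ⟩ := IsAlgClosed.exists_pow_nat_eq η (by omega : 0 < n)
  have hβ0 : β ≠ 0 := by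
    rintro rfl
    rw [zero_pow (by omega)] at hβ
    exact hη hβ.symm
  have hηv : v.Vanishes η := by
    have e : η = a * (η / a) := by
      rw [mul_div_cancel₀ _ ha.ne]
    rw [e]
    exact Place.Vanishes.mul v ha.van (Place.Vanishes.mem v ha.van')
  have hβv : v.Vanishes β := Place.vanishes_of_pow v (n := n) (by rw [hβ]; exact hηv)
  have hadm : ∀ j : ℕ, 0 < j → j < n → Adm v η (β ^ j) := by
    intro j hj hjn
    refine ⟨pow_ne_zero _ hβ0, Place.Vanishes.pow v hβv (by omega), ?_⟩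
    have e : η / β ^ j = β ^ (n - j) := by
      rw [← hβ, div_eq_iff (pow_ne_zero _ hβ0), ← pow_add]
      congr 1
      omega
    rw [e]
    exact Place.Vanishes.pow v hβv (by omega)
  have hlin : ∀ j : ℕ, 0 < j → j < n → φ (β ^ j) = (j : ℚ) • φ β := by
    intro j hj
    induction j, hj using Nat.le_induction with
    | base => intro _; simp
    | succ j hj ih =>
      intro hjn
      have h1 := ih (by omega)
      have h2 := hadm 1 one_pos (by omega)
      rw [pow_one] at h2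
      have h3 := h.mul hη (hadm j hj (by omega)) h2 (by
        rw [← pow_succ]
        exact (hadm (j + 1) (by omega) hjn).van')
      rw [pow_succ, h3, h1]
      push_cast
      rw [add_smul, one_smul]
  have hΔ : (n : ℚ) • φ β = Δ := by
    have h2 := hadm 1 one_pos (by omega)
    rw [pow_one] at h2
    have h1 := h.compl hη h2 (hadm (n - 1) (by omega) (by omega)) (by
      rw [← pow_succ', Nat.sub_add_cancel (by omega), hβ])
    rw [hlin (n - 1) (by omega) (by omega)] at h1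
    rw [← h1]
    have e : (n : ℚ) = 1 + ((n - 1 : ℕ) : ℚ) := by
      rw [Nat.cast_sub (by omega)]
      push_cast
      ring
    rw [e, add_smul, one_smul]
  have hval : v.ring.valuation a = v.ring.valuation (β ^ m) := by
    have h1 : v.ring.valuation a ^ n = v.ring.valuation (β ^ m) ^ n := by
      rw [← map_pow, hv, ← map_pow, ← hβ]
      congr 1
      ring
    exact (pow_left_inj₀ zero_le zero_le (by omega)).1 h1
  rw [h.congr hη ha (hadm m hm hmn) hval, hlin m hm hmn, smul_comm, hΔ]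

end Pool.Agent.GTM
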