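import Pool.Agent.GTM.BadD
import Pool.Agent.GT.NodC2
import Pool.Agent.GT.Fld

/-!
# The bad place: the valuations are commensurable
-/

set_option autoImplicit false

noncomputable section

namespace Pool.Agent.GTM

open Pool.Agent.ZCyc Polynomial
open Pool.Agent.VFP (Om tt)
open scoped Classical

variable {k : Type} [Field k] [IsAlgClosed k] [CharZero k] {v : Place k (Om k)} {η : Om k}

/-- The valuations are commensurable. Proof: let `K` be a function field in `Om k` which contains
`η` and `a` (`GT/Fld.lean`: every finite set is contained in one; see the hypotheses of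
`Pool.Agent.GT.exists_same` in `GT/NodC2.lean`), `c` the place of `K` below `v` (`TInc.exists_below`), `π` a
uniformizer. As in the proof of `exists_same`, `|f| = |π| ^ ord_c f` for all `f ≠ 0` in `K`. Take
`m = ord_c a`, `n = ord_c η`; `|a| < 1` gives `m > 0` and `|η / a| < 1` gives `m < n`. -/
theorem exists_comm (hη : η ≠ 0) {a : Om k} (ha : Adm v η a) :
    ∃ m n : ℕ, 0 < m ∧ m < n ∧ v.ring.valuation (a ^ n) = v.ring.valuation (η ^ m) := by
  have hX : GT.Hom (∅ : Set (MvPolynomial (Fin (0 + 1)) k)) := fun f hf => absurd hf (by simp)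
  obtain ⟨K, -, hK, hΓ, -, -⟩ := GT.exists_field hX {a, η} (J := Empty) (fun e => e.elim)
  have haK : a ∈ K := hΓ (by simp)
  have hηK : η ∈ K := hΓ (by simp)
  obtain ⟨c, hc⟩ := TInc.exists_below hK v K.val
  have hcv : ∀ f : K, f ∈ c.ring ↔ (f : Om k) ∈ v.ring := by
    intro f
    rw [← hc, ValuationSubring.mem_comap]
    rfl
  obtain ⟨π, hπ⟩ := Dess.exists_unif hK c
  have hπ0 : (π : Om k) ≠ 0 := fun h => hπ.1 (Subtype.ext h)
  have hπ1 : v.ring.valuation (π : Om k) < 1 := by
    rw [← Place.vanishes_iff, Place.vanishes_iff_or]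
    right
    intro h
    rcases (c.vanishes_iff_or π).1 hπ.2.1 with h1 | h1
    · exact hπ.1 h1
    · exact h1 ((hcv π⁻¹).2 h)
  have hval : ∀ f : K, f ≠ 0 →
      v.ring.valuation (f : Om k) = v.ring.valuation (π : Om k) ^ TInc.ord c f := by
    intro f hf
    obtain ⟨h1, h2⟩ := TInc.ord_unit hK hπ hf
    have h3 : v.ring.valuation ((f / π ^ TInc.ord c f : K) : Om k) = 1 := by
      apply le_antisymm
      · exact (v.ring.valuation_le_one_iff _).2 ((hcv _).1 h1)
      · have h4 := (v.ring.valuation_le_one_iff _).2 ((hcv _).1 h2)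
        have h5 : (((f / π ^ TInc.ord c f)⁻¹ : K) : Om k) =
            ((f / π ^ TInc.ord c f : K) : Om k)⁻¹ := rfl
        rw [h5, map_inv₀] at h4
        have h6 : v.ring.valuation ((f / π ^ TInc.ord c f : K) : Om k) ≠ 0 := by
          rw [Valuation.ne_zero_iff]
          intro h7
          have h8 : f / π ^ TInc.ord c f = 0 := Subtype.ext h7
          exact (div_ne_zero hf (zpow_ne_zero _ hπ.1)) h8
        exact (inv_le_one₀ (zero_lt_iff.2 h6)).1 h4
    have h9 : (f : Om k) = ((f / π ^ TInc.ord c f : K) : Om k) * (π : Om k) ^ TInc.ord c f := by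
      have h10 : ((f / π ^ TInc.ord c f : K) : Om k) = (f : Om k) / (π : Om k) ^ TInc.ord c f := by
        push_cast
        rfl
      rw [h10, div_mul_cancel₀ _ (zpow_ne_zero _ hπ0)]
    rw [h9, map_mul, h3, one_mul, map_zpow₀]
  have hπpos : 0 < v.ring.valuation (π : Om k) := zero_lt_iff.2 ((Valuation.ne_zero_iff _).2 hπ0)
  let α : K := ⟨a, haK⟩
  let ε : K := ⟨η, hηK⟩
  have hα0 : α ≠ 0 := fun h => ha.ne (congrArg Subtype.val h)
  have hε0 : ε ≠ 0 := fun h => hη (congrArg Subtype.val h)
  have h1 : v.ring.valuation a = v.ring.valuation (π : Om k) ^ TInc.ord c α := hval α hα0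
  have h2 : v.ring.valuation η = v.ring.valuation (π : Om k) ^ TInc.ord c ε := hval ε hε0
  have h3 : 0 < TInc.ord c α := by
    have h4 := (v.vanishes_iff _).1 ha.van
    rw [h1, ← zpow_zero (v.ring.valuation (π : Om k))] at h4
    exact (zpow_lt_zpow_iff_right_of_lt_one₀ hπpos hπ1).1 h4
  have h5 : TInc.ord c α < TInc.ord c ε := by
    have h4 := (v.vanishes_iff _).1 ha.van'
    rw [map_div₀, h1, h2, ← zpow_sub₀ hπpos.ne', ← zpow_zero (v.ring.valuation (π : Om k))] at h4
    have h6 := (zpow_lt_zpow_iff_right_of_lt_one₀ hπpos hπ1).1 h4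
    omega
  refine ⟨(TInc.ord c α).toNat, (TInc.ord c ε).toNat, by omega, by omega, ?_⟩
  have e1 : ((TInc.ord c α).toNat : ℤ) = TInc.ord c α := Int.toNat_of_nonneg h3.le
  have e2 : ((TInc.ord c ε).toNat : ℤ) = TInc.ord c ε := Int.toNat_of_nonneg (h3.trans h5).le
  rw [map_pow, map_pow, h1, h2, ← zpow_natCast, ← zpow_natCast, ← zpow_mul, ← zpow_mul, e1, e2,
    mul_comm]

end Pool.Agent.GTM
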