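import Pool.Agent.GTM.BadE3
import Pool.Agent.GTM.BadG
import Pool.Agent.GTM.BadG2

/-!
# The bad place: invariance under the rotations
-/

set_option autoImplicit false

noncomputable section

namespace Pool.Agent.GTM

open Pool.Agent.ZCyc Polynomial
open Pool.Agent.VFP (Om tt)
open scoped Classical

variable {k : Type} [Field k] [IsAlgClosed k] [CharZero k] {v : Place k (Om k)} {M : ℕ}
  {b : Om k} {V : Type} [AddCommGroup V] [Module ℚ V] {f : Om k → Om k → V} {κ : ℤˣ → V}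
  {E : Finset k} {Γ : V}

/-- The value at a point near a node. Proof: let `φ a = f x y - κ 1` for the point of
`exists_near` (choose; `Near.unique`), `φ a = 0` if `a` is not admissible,
`Δ = κ (-1) - κ 1`. `BadFn.two_pt`, `BadFn.three_pt`, `Near.adm` show that
`Ann v (b + 2) φ Δ` holds (for `three`: `Near.adm` for the third point). `Ann.linear`. -/
theorem BadFn.near (h : BadFn v M b f κ E Γ) {ν : k} (hν : ν ^ M = 1) {a x y : Om k}
    (hxy : Near v M b ν a x y) {m n : ℕ} (hm : 0 < m) (hmn : m < n)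
    (hv : v.ring.valuation (a ^ n) = v.ring.valuation ((b + 2) ^ m)) :
    (n : ℚ) • (f x y - κ 1) = (m : ℚ) • (κ (-1) - κ 1) := by
  have hM : 1 ≤ M := by have := h.two_le; omega
  have hη : b + 2 ≠ 0 := fun h0 => h.b_ne (by linear_combination h0)
  have hex : ∀ a : Om k, ∃ p : Om k × Om k, Adm v (b + 2) a → Near v M b ν a p.1 p.2 := by
    intro a
    by_cases ha : Adm v (b + 2) a
    · obtain ⟨x, y, hx⟩ := exists_near hM hν ha
      exact ⟨(x, y), fun _ => hx⟩
    · exact ⟨(0, 0), fun h1 => absurd h1 ha⟩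
  choose p hp using hex
  have key : ∀ {a x y : Om k}, Near v M b ν a x y → f (p a).1 (p a).2 = f x y := by
    intro a x y h1
    have h2 := hp a (Near.adm hM h.at_b h.b_ne hν h1)
    obtain ⟨h3, h4⟩ := Near.unique hM h.at_b h.b_ne hν h2 h1
    rw [h3, h4]
  have hAnn : Ann v (b + 2) (fun a => f (p a).1 (p a).2 - κ 1) (κ (-1) - κ 1) := by
    constructor
    · intro a₁ a₂ h₁ h₂ h12 e he he0 he1
      have h3 := h.two_pt hν (hp a₁ h₁) (hp a₂ h₂) h12 he he1 he0
      calc f (p a₁).1 (p a₁).2 - κ 1 + (f (p a₂).1 (p a₂).2 - κ 1)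
          = (f (p a₁).1 (p a₁).2 + f (p a₂).1 (p a₂).2) - κ 1 - κ 1 := by abel
        _ = κ (-1) - κ 1 := by rw [h3]; abel
    · intro a₁ a₂ h₁ h₂ h12 he
      obtain ⟨a₃, x₃, y₃, h3, h4, h5⟩ := h.three_pt hν (hp a₁ h₁) (hp a₂ h₂) h12 he
      refine ⟨a₃, Near.adm hM h.at_b h.b_ne hν h3, h4, ?_⟩
      have h6 : f (p a₃).1 (p a₃).2 = f x₃ y₃ := key h3
      calc f (p a₁).1 (p a₁).2 - κ 1 + (f (p a₂).1 (p a₂).2 - κ 1) +
            (f (p a₃).1 (p a₃).2 - κ 1)
          = (f (p a₁).1 (p a₁).2 + f (p a₂).1 (p a₂).2 + f (p a₃).1 (p a₃).2) -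
            κ 1 - κ 1 - κ 1 := by abel
        _ = κ (-1) - κ 1 := by
            rw [h6, h5, two_smul]
            abel
  have h6 := hAnn.linear hη (Near.adm hM h.at_b h.b_ne hν hxy) hm hmn hv
  have h7 : f (p a).1 (p a).2 = f x y := key hxy
  rw [← h7]
  exact h6

/-- The function is invariant under `x → ζ x`. Proof: `x` has a value `z` (`DCI57.exists_at`), and
`y` too (`y ² = (x ^ M - 1) ² + (b + 2) x ^ M` is in the ring, so `y` is), its value is
`± (z ^ M - 1)`. If `z ^ M ≠ 1` use `BadFn.nonnodal` for both points. If `z ^ M = 1` both points are near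
nodes with the same coordinate `a = y + (x ^ M - 1)`; `Near.adm`, `exists_comm`, `BadFn.near` for both
points (`n ≠ 0`). -/
theorem BadFn.rot (h : BadFn v M b f κ E Γ) {ζ : k} (hζ : ζ ^ M = 1) {x y : Om k}
    (hx : x ∈ v.ring) (hxy : y ^ 2 = (pol M b).eval x) :
    f (algebraMap k (Om k) ζ * x) y = f x y := by
  have hM : 1 ≤ M := by have := h.two_le; omega
  have hη : b + 2 ≠ 0 := fun h0 => h.b_ne (by linear_combination h0)
  obtain ⟨z, hz⟩ := Pool.Agent.DCI57.exists_at v hx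
  have hζ' : (algebraMap k (Om k) ζ) ^ M = 1 := by rw [← map_pow, hζ, map_one]
  have hz2 : v.At (algebraMap k (Om k) ζ * x) (ζ * z) := (Place.at_const ζ).mul hz
  have hxM : (algebraMap k (Om k) ζ * x) ^ M = x ^ M := by rw [mul_pow, hζ', one_mul]
  have hzM2 : (ζ * z) ^ M = z ^ M := by rw [mul_pow, hζ, one_mul]
  have hpol : (pol M b).eval (algebraMap k (Om k) ζ * x) = (pol M b).eval x := by
    rw [pol_eval, pol_eval, mul_comm 2 M, pow_mul, pow_mul, hxM]
  have hxy' : y ^ 2 = (pol M b).eval (algebraMap k (Om k) ζ * x) := by rw [hpol]; exact hxy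
  have hy2 : v.At (y ^ 2) ((z ^ M - 1) ^ 2) := by
    rw [hxy, pol_eval]
    have h1 := ((hz.pow (2 * M)).add (h.at_b.mul (hz.pow M))).add (Place.at_const (v := v) (1 : k))
    rw [map_one] at h1
    have h2 : z ^ (2 * M) + -2 * z ^ M + 1 = (z ^ M - 1) ^ 2 := by
      rw [mul_comm 2 M, pow_mul]
      ring
    rwa [h2] at h1
  have hprim : IsPrimitiveRoot (-1 : k) 2 := IsPrimitiveRoot.neg_one 0 (by norm_num)
  obtain ⟨j, -, hj⟩ := Place.exists_root_at hprim two_pos hy2
  by_cases hzM : z ^ M = 1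
  · have hnu : (ζ * z) ^ M = 1 := by rw [hzM2, hzM]
    have hn1 : Near v M b z (y + (x ^ M - 1)) x y := ⟨hz, hxy, rfl⟩
    have hn2 : Near v M b (ζ * z) (y + (x ^ M - 1)) (algebraMap k (Om k) ζ * x) y :=
      ⟨hz2, hxy', by rw [hxM]⟩
    have hadm := Near.adm hM h.at_b h.b_ne hzM hn1
    obtain ⟨m, n, hm, hmn, hv⟩ := exists_comm hη hadm
    have e1 := h.near hzM hn1 hm hmn hv
    have e2 := h.near hnu hn2 hm hmn hv
    have hn0 : (n : ℚ) ≠ 0 := by
      have : n ≠ 0 := by omega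
      exact_mod_cast this
    have e3 := smul_right_injective V hn0 (e2.trans e1.symm)
    exact sub_left_inj.1 e3
  · have hzM' : (ζ * z) ^ M ≠ 1 := by rw [hzM2]; exact hzM
    obtain ⟨ε, hε⟩ : ∃ ε : ℤˣ, v.At y (((ε : ℤ) : k) * (z ^ M - 1)) := by
      refine ⟨(-1) ^ j, ?_⟩
      simpa using hj
    have hε' : v.At y (((ε : ℤ) : k) * ((ζ * z) ^ M - 1)) := by rw [hzM2]; exact hε
    rw [h.nonnodal hzM' hz2 hε' hxy', h.nonnodal hzM hz hε hxy]

end Pool.Agent.GTM
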