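import Pool.Agent.GTM.BadA
import Pool.Agent.GT.Curve

/-!
# The bad place: the reduction of a rational map on a component

The map has the coordinates `G_i(x) + H_i(x) y` (`GT.Mp`). On the component `y = ε (x ^ M - 1)` of the
reduction it becomes, after multiplication by a constant, a map with polynomial coordinates,
also if the coordinates `G_i + H_i y` vanish there.
-/

set_option autoImplicit false

noncomputable section

namespace Pool.Agent.GTM

open Pool.Agent.ZCyc Polynomial
open Pool.Agent.VFP (Om tt)
open scoped Classical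

variable {k : Type} [Field k] [IsAlgClosed k] [CharZero k] {v : Place k (Om k)} {M : ℕ}
  {b : Om k}

/-- Content of a pair of polynomials: up to a constant the coefficients are integral, and the reduction is
not zero. Proof: let `c` be a coefficient of `G` or `H` with the largest valuation (finitely many
non-zero ones); `c⁻¹ G`, `c⁻¹ H` have coefficients in `v.ring`, choose their values
(`DCI57.exists_at`), one of them is `1`. -/
theorem exists_content (G H : (Om k)[X]) (h : G ≠ 0 ∨ H ≠ 0) :
    ∃ (c : Om k) (G' H' : k[X]), c ≠ 0 ∧ (∀ i, v.At (c⁻¹ * G.coeff i) (G'.coeff i)) ∧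
      (∀ i, v.At (c⁻¹ * H.coeff i) (H'.coeff i)) ∧ (G' ≠ 0 ∨ H' ≠ 0) := by
  set N : ℕ := max G.natDegree H.natDegree + 1 with hN
  let x : Fin N ⊕ Fin N → Om k := Sum.elim (fun i => G.coeff i) (fun i => H.coeff i)
  have hx : x ≠ 0 := by
    intro h0
    rcases h with h | h
    · apply h
      have h1 := congrFun h0 (Sum.inl ⟨G.natDegree, by omega⟩)
      exact leadingCoeff_eq_zero.mp h1
    · apply h
      have h1 := congrFun h0 (Sum.inr ⟨H.natDegree, by omega⟩)
      exact leadingCoeff_eq_zero.mp h1
  obtain ⟨l, y, hl, hy, hat⟩ := Pool.Agent.GT.exists_scale v x hx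
  have hzero : v.At (0 : Om k) (0 : k) := by
    have := Place.at_const (v := v) (0 : k)
    rwa [map_zero] at this
  refine ⟨l⁻¹, ofFn N fun i => y (Sum.inl i), ofFn N fun i => y (Sum.inr i), inv_ne_zero hl,
    fun i => ?_, fun i => ?_, ?_⟩
  · rw [inv_inv]
    by_cases hi : i < N
    · rw [ofFn_coeff_eq_val_of_lt _ hi]
      exact hat (Sum.inl ⟨i, hi⟩)
    · rw [ofFn_coeff_eq_zero_of_ge _ (not_lt.mp hi),
        coeff_eq_zero_of_natDegree_lt (by omega), mul_zero]
      exact hzero
  · rw [inv_inv]
    by_cases hi : i < N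
    · rw [ofFn_coeff_eq_val_of_lt _ hi]
      exact hat (Sum.inr ⟨i, hi⟩)
    · rw [ofFn_coeff_eq_zero_of_ge _ (not_lt.mp hi),
        coeff_eq_zero_of_natDegree_lt (by omega), mul_zero]
      exact hzero
  · by_contra hcon
    push Not at hcon
    apply hy
    funext s
    rcases s with i | i
    · have h1 := congrArg (fun p => coeff p i) hcon.1
      simpa [ofFn_coeff_eq_val_of_lt _ i.2] using h1
    · have h1 := congrArg (fun p => coeff p i) hcon.2
      simpa [ofFn_coeff_eq_val_of_lt _ i.2] using h1

/-- The norm is not zero: `pol M b` is not a square, it is squarefree: a common zero of it and of its derivative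
`M X ^ (M - 1) (2 X ^ M + b)` would satisfy `X = 0` or `X ^ M = - b / 2`, `b ^ 2 = 4`. If `G ^ 2 = H ^ 2 * pol M b`
with `H ≠ 0` take a root `x` of `pol M b`: the multiplicity of `x` in `H ^ 2 * pol M b` is odd. -/
theorem pol_norm_ne (hM : 1 ≤ M) (hb : v.At b (-2)) (hb' : b ≠ -2) (G H : (Om k)[X])
    (h : G ≠ 0 ∨ H ≠ 0) : G ^ 2 - H ^ 2 * pol M b ≠ 0 := by
  intro h0
  have h1 : G ^ 2 = H ^ 2 * pol M b := sub_eq_zero.mp h0
  have hchar : CharZero (Om k) := charZero_of_injective_algebraMap (algebraMap k (Om k)).injective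
  -- `b` is not `2`
  have hb2 : b ≠ 2 := by
    intro hb2
    have h2 : v.At (2 : Om k) (2 : k) := by
      have := Place.at_const (v := v) (2 : k)
      rwa [map_ofNat] at this
    rw [hb2] at hb
    have h3 := Place.At.unique hb h2
    have h4 : (4 : k) = 0 := by linear_combination -h3
    norm_num at h4
  have hcoeff : (pol M b).coeff (2 * M) = 1 := by
    unfold pol
    rw [coeff_add, coeff_add, coeff_X_pow, coeff_C_mul, coeff_X_pow, coeff_one, if_pos rfl,
      if_neg (by omega), if_neg (by omega)]
    ring
  have hpol0 : pol M b ≠ 0 := by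
    intro h2
    rw [h2, coeff_zero] at hcoeff
    exact zero_ne_one hcoeff
  have hH : H ≠ 0 := by
    intro h2
    rw [h2] at h1
    have h3 : G = 0 := by
      have : G ^ 2 = 0 := by rw [h1]; ring
      exact pow_eq_zero_iff (two_ne_zero) |>.mp this
    rcases h with h | h
    · exact h h3
    · exact h h2
  have hG : G ≠ 0 := by
    intro h2
    rw [h2] at h1
    have h3 : H ^ 2 * pol M b = 0 := by rw [← h1]; ring
    rcases mul_eq_zero.mp h3 with h4 | h4
    · exact hH (pow_eq_zero_iff (two_ne_zero) |>.mp h4)
    · exact hpol0 h4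
  have hdeg : (pol M b).degree ≠ 0 := by
    intro h2
    have h3 : (pol M b).natDegree = 0 := natDegree_eq_of_degree_eq_some h2
    have h4 := le_natDegree_of_ne_zero (p := pol M b) (n := 2 * M) (by rw [hcoeff]; exact one_ne_zero)
    omega
  obtain ⟨x, hx⟩ := IsAlgClosed.exists_root (pol M b) hdeg
  have hxe : x ^ (2 * M) + b * x ^ M + 1 = 0 := by
    rw [← pol_eval]
    exact hx
  have hx0 : x ≠ 0 := by
    intro h2
    rw [h2, zero_pow (by omega), zero_pow (by omega)] at hxe
    simp at hxe
  have hder : ¬ (derivative (pol M b)).IsRoot x := by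
    intro h2
    have h3 : (2 * M : ℕ) * x ^ (2 * M - 1) + b * (M * x ^ (M - 1)) = 0 := by
      have := h2
      unfold pol IsRoot at this
      simpa [derivative_X_pow] using this
    have h4 : (M : Om k) ≠ 0 := by
      exact_mod_cast (by omega : M ≠ 0)
    obtain ⟨n, rfl⟩ : ∃ n, M = n + 1 := ⟨M - 1, by omega⟩
    have h5 : x ^ n ≠ 0 := pow_ne_zero _ hx0
    have h6 : ((n + 1 : ℕ) : Om k) * x ^ n * (2 * x ^ (n + 1) + b) = 0 := by
      have e1 : 2 * (n + 1) - 1 = n + (n + 1) := by omega
      have e2 : n + 1 - 1 = n := by omega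
      rw [e1, e2, pow_add, Nat.cast_mul] at h3
      linear_combination h3
    have h7 : 2 * x ^ (n + 1) + b = 0 := by
      rcases mul_eq_zero.mp h6 with h8 | h8
      · exact absurd h8 (mul_ne_zero h4 h5)
      · exact h8
    have h8 : x ^ (2 * (n + 1)) = x ^ (n + 1) * x ^ (n + 1) := by
      rw [two_mul, pow_add]
    rw [h8] at hxe
    have h9 : (b - 2) * (b + 2) = 0 := by
      have hX : x ^ (n + 1) = -b / 2 := by
        field_simp
        linear_combination h7
      rw [hX] at hxe
      field_simp at hxe
      linear_combination -hxe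
    rcases mul_eq_zero.mp h9 with h10 | h10
    · exact hb2 (by linear_combination h10)
    · exact hb' (by linear_combination h10)
  have hrm : (pol M b).rootMultiplicity x = 1 := by
    have h2 : 0 < (pol M b).rootMultiplicity x := (rootMultiplicity_pos hpol0).mpr hx
    have h3 : ¬ 1 < (pol M b).rootMultiplicity x := by
      intro h4
      exact hder ((one_lt_rootMultiplicity_iff_isRoot hpol0).mp h4).2
    omega
  have h2 := congrArg (rootMultiplicity x) h1
  rw [rootMultiplicity_mul (mul_ne_zero (pow_ne_zero _ hH) hpol0), hrm, pow_two, pow_two,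
    rootMultiplicity_mul (mul_ne_zero hG hG), rootMultiplicity_mul (mul_ne_zero hH hH)] at h2
  omega

end Pool.Agent.GTM
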