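import Pool.Agent.GTM.BadI

/-!
# The bad place: the reduction of a rational map on a component
-/

set_option autoImplicit false

noncomputable section

namespace Pool.Agent.GTM

open Pool.Agent.ZCyc Polynomial
open Pool.Agent.VFP (Om tt)
open scoped Classical

variable {k : Type} [Field k] [IsAlgClosed k] [CharZero k] {v : Place k (Om k)} {M : ℕ}
  {b : Om k}

omit [IsAlgClosed k] [CharZero k] in
private theorem bi_coeff {c : Om k} {G : (Om k)[X]} {G' : k[X]}
    (h : ∀ i, v.At (c⁻¹ * G.coeff i) (G'.coeff i)) (i : ℕ) :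
    v.At ((C c⁻¹ * G).coeff i) (G'.coeff i) := by
  rw [coeff_C_mul]
  exact h i

omit [IsAlgClosed k] [CharZero k] in
private theorem bi_X {M : ℕ} (hM : 1 ≤ M) : (X ^ M - 1 : k[X]) ≠ 0 := by
  have h := X_pow_sub_C_ne_zero (R := k) (n := M) (by omega) 1
  rwa [C_1] at h

/-- One coordinate. Proof. After division by the constant of `exists_content` we may assume that
`G`, `H` have reductions `G'`, `H'`, not both zero (multiply `c` back at the end). (a) If
`p = G' + ε H' (X ^ M - 1) ≠ 0`, take `p` and `q = 1`, `E` the roots of `p` (`eval_at`). (b) Otherwise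
`H' ≠ 0`, and `G' - ε H' (X ^ M - 1) = - 2 ε H' (X ^ M - 1) = q ≠ 0`. Let `n = G ^ 2 - H ^ 2 * pol M b`
(`pol_norm_ne`), `c` its content (`exists_content` for the pair `n`, `0`), `p` the reduction of
`c⁻¹ n`. For a point of the curve `(G(x) + H(x) y) (G(x) - H(x) y) = n(x)`, and `G(x) - H(x) y` has the
value `q(z)`, so `c⁻¹ (G(x) + H(x) y)` has the value `p(z) / q(z)` if `q(z) ≠ 0`. -/
theorem exists_comp₁ (hM : 1 ≤ M) (hb : v.At b (-2)) (hb' : b ≠ -2) (ε : ℤˣ) (G H : (Om k)[X])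
    (h : G ≠ 0 ∨ H ≠ 0) :
    ∃ (c : Om k) (p q : k[X]) (E : Finset k), c ≠ 0 ∧ ∀ z ∉ E, p.eval z ≠ 0 ∧ q.eval z ≠ 0 ∧
      ∀ x y : Om k, v.At x z → v.At y (((ε : ℤ) : k) * (z ^ M - 1)) →
        y ^ 2 = (pol M b).eval x → v.At (c⁻¹ * (G.eval x + H.eval x * y))
          (p.eval z / q.eval z) := by
  obtain ⟨c₀, G', H', hc₀, hG, hH, hne⟩ := exists_content (v := v) G H h
  set G₁ : (Om k)[X] := C c₀⁻¹ * G with hG₁
  set H₁ : (Om k)[X] := C c₀⁻¹ * H with hH₁
  have hGc : ∀ i, v.At (G₁.coeff i) (G'.coeff i) := bi_coeff hG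
  have hHc : ∀ i, v.At (H₁.coeff i) (H'.coeff i) := bi_coeff hH
  have heq : ∀ x y : Om k, c₀⁻¹ * (G.eval x + H.eval x * y) = G₁.eval x + H₁.eval x * y := by
    intro x y
    rw [hG₁, hH₁, eval_C_mul, eval_C_mul]
    ring
  set e : k := ((ε : ℤ) : k) with he
  have he0 : e ≠ 0 := by
    rcases Int.units_eq_one_or ε with h | h <;> rw [he, h] <;> simp
  set D : k[X] := C e * H' * (X ^ M - 1) with hD
  have hDev : ∀ z, D.eval z = e * H'.eval z * (z ^ M - 1) := by
    intro z
    simp [hD]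
  by_cases hp : G' + D = 0
  · -- the bad case
    have hH'0 : H' ≠ 0 := by
      intro h0
      rw [hD, h0, mul_zero, zero_mul, add_zero] at hp
      exact hne.elim (fun h => h hp) (fun h => h h0)
    have hD0 : D ≠ 0 := mul_ne_zero (mul_ne_zero (C_ne_zero.2 he0) hH'0) (bi_X hM)
    set q : k[X] := G' - D with hq
    have hq0 : q ≠ 0 := by
      intro h0
      have h1 : (2 : k[X]) * D = (G' + D) - q := by rw [hq]; ring
      rw [hp, h0, sub_zero] at h1
      rcases mul_eq_zero.1 h1 with h2 | h2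
      · exact two_ne_zero h2
      · exact hD0 h2
    set n : (Om k)[X] := G₁ ^ 2 - H₁ ^ 2 * pol M b with hn
    have hn0 : n ≠ 0 := by
      refine pol_norm_ne hM hb hb' G₁ H₁ ?_
      have hc : (C c₀⁻¹ : (Om k)[X]) ≠ 0 := C_ne_zero.2 (inv_ne_zero hc₀)
      exact h.imp (fun h => mul_ne_zero hc h) (fun h => mul_ne_zero hc h)
    obtain ⟨c₁, n', m', hc₁, hn', hm', hne'⟩ := exists_content (v := v) n 0 (Or.inl hn0)
    have hn'0 : n' ≠ 0 := by
      rcases hne' with h1 | h1
      · exact h1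
      · exfalso
        apply h1
        ext i
        have h2 := hm' i
        rw [coeff_zero, mul_zero] at h2
        rw [coeff_zero]
        have h3 := Place.at_const (v := v) (F := Om k) (0 : k)
        rw [map_zero] at h3
        exact h2.unique h3
    have hnc : ∀ i, v.At ((C c₁⁻¹ * n).coeff i) (n'.coeff i) := bi_coeff hn'
    refine ⟨c₀ * c₁, n', q, n'.roots.toFinset ∪ q.roots.toFinset, mul_ne_zero hc₀ hc₁,
      fun z hz => ?_⟩
    rw [Finset.mem_union, Multiset.mem_toFinset, Multiset.mem_toFinset, not_or,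
      mem_roots hn'0, mem_roots hq0] at hz
    refine ⟨hz.1, hz.2, fun x y hx hy hxy => ?_⟩
    have h1 : v.At (G₁.eval x - H₁.eval x * y) (q.eval z) := by
      have h2 := (eval_at hGc hx).sub ((eval_at hHc hx).mul hy)
      have h3 : q.eval z = G'.eval z - H'.eval z * (e * (z ^ M - 1)) := by
        rw [hq, eval_sub, hDev]
        ring
      rw [h3]
      exact h2
    have h2 : v.At (c₁⁻¹ * n.eval x) (n'.eval z) := by
      have h3 := eval_at hnc hx
      rwa [eval_C_mul] at h3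
    have h3 := h2.div h1 hz.2
    have h4 : G₁.eval x - H₁.eval x * y ≠ 0 := by
      intro h0
      rw [h0] at h1
      have h5 := Place.at_const (v := v) (F := Om k) (0 : k)
      rw [map_zero] at h5
      exact hz.2 (h1.unique h5)
    have h5 : n.eval x = (G₁.eval x + H₁.eval x * y) * (G₁.eval x - H₁.eval x * y) := by
      simp only [hn, eval_sub, eval_mul, eval_pow]
      rw [← hxy]
      ring
    have h6 : (c₀ * c₁)⁻¹ * (G.eval x + H.eval x * y) =
        c₁⁻¹ * n.eval x / (G₁.eval x - H₁.eval x * y) := by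
      rw [h5, mul_inv, mul_comm c₀⁻¹, mul_assoc, heq, ← mul_assoc, mul_div_assoc, div_self h4,
        mul_one]
    rw [h6]
    exact h3
  · refine ⟨c₀, G' + D, 1, (G' + D).roots.toFinset, hc₀, fun z hz => ?_⟩
    rw [Multiset.mem_toFinset, mem_roots hp] at hz
    refine ⟨hz, by rw [eval_one]; exact one_ne_zero, fun x y hx hy _ => ?_⟩
    rw [heq, eval_one, div_one]
    have h2 := (eval_at hGc hx).add ((eval_at hHc hx).mul hy)
    have h3 : (G' + D).eval z = G'.eval z + H'.eval z * (e * (z ^ M - 1)) := by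
      rw [eval_add, hDev]
      ring
    rw [h3]
    exact h2

private theorem bi_aux {K : Type} [Field K] {c : K} (hc : c ≠ 0) (a d t : K) :
    a * (c / d) * (c⁻¹ * t) = a / d * t := by
  rw [div_eq_mul_inv, div_eq_mul_inv]
  calc a * (c * d⁻¹) * (c⁻¹ * t) = a * d⁻¹ * t * (c * c⁻¹) := by ring
    _ = a * d⁻¹ * t := by rw [mul_inv_cancel₀ hc, mul_one]

/-- All coordinates. Proof: `exists_comp₁` for the coordinates which are not zero; let `c` be the
constant with the largest valuation (of `i₀`), `c_i / c` has a value `w_i` (`DCI57.exists_at`), `w_(i₀) = 1`;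
`Q_i = C w_i * p_i * ∏ (j ≠ i), q_j` (over the non-zero coordinates), `Q_i = 0` for the
coordinates which are zero, `E` = the union, `l = algebraMap (∏ q_j(z)) / c`. -/
theorem exists_comp (hM : 1 ≤ M) (hb : v.At b (-2)) (hb' : b ≠ -2) (ε : ℤˣ) {m : ℕ}
    (N : GT.Mp (Om k) m) (hN : ∃ i, N.G i ≠ 0 ∨ N.H i ≠ 0) :
    ∃ (Q : Fin (m + 1) → k[X]) (E : Finset k), ∀ z ∉ E, (fun i => (Q i).eval z) ≠ 0 ∧
      ∀ x y : Om k, v.At x z → v.At y (((ε : ℤ) : k) * (z ^ M - 1)) →
        y ^ 2 = (pol M b).eval x → ∃ l : Om k, ∀ i, v.At (l * N.co x y i) ((Q i).eval z) := by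
  set I : Finset (Fin (m + 1)) := Finset.univ.filter fun i => N.G i ≠ 0 ∨ N.H i ≠ 0 with hI
  have hmem : ∀ i, i ∈ I ↔ (N.G i ≠ 0 ∨ N.H i ≠ 0) := fun i => by simp [hI]
  have hIne : I.Nonempty := by
    obtain ⟨i, hi⟩ := hN
    exact ⟨i, (hmem i).2 hi⟩
  have h1 : ∀ i : Fin (m + 1), ∃ (c : Om k) (p q : k[X]) (E : Finset k), i ∈ I → c ≠ 0 ∧
      ∀ z ∉ E, p.eval z ≠ 0 ∧ q.eval z ≠ 0 ∧
      ∀ x y : Om k, v.At x z → v.At y (((ε : ℤ) : k) * (z ^ M - 1)) →
        y ^ 2 = (pol M b).eval x → v.At (c⁻¹ * N.co x y i) (p.eval z / q.eval z) := by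
    intro i
    by_cases hi : i ∈ I
    · obtain ⟨c, p, q, E, h⟩ := exists_comp₁ hM hb hb' ε (N.G i) (N.H i) ((hmem i).1 hi)
      exact ⟨c, p, q, E, fun _ => h⟩
    · exact ⟨0, 0, 0, ∅, fun h => absurd h hi⟩
  choose c p q E hcp using h1
  obtain ⟨i₀, hi₀, hmax⟩ := I.exists_max_image (fun i => v.ring.valuation (c i)) hIne
  have hc0 : c i₀ ≠ 0 := (hcp i₀ hi₀).1
  have h2 : ∀ i, ∃ w : k, i ∈ I → v.At (c i / c i₀) w := by
    intro i
    by_cases hi : i ∈ I
    · have h3 : c i / c i₀ ∈ v.ring := by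
        rw [← ValuationSubring.valuation_le_one_iff, map_div₀]
        exact div_le_one_of_le₀ (hmax i hi) zero_le
      obtain ⟨w, hw⟩ := Pool.Agent.DCI57.exists_at v h3
      exact ⟨w, fun _ => hw⟩
    · exact ⟨0, fun h => absurd h hi⟩
  choose w hw using h2
  have hw0 : w i₀ = 1 := by
    have h3 := hw i₀ hi₀
    rw [div_self hc0] at h3
    have h4 := Place.at_const (v := v) (F := Om k) (1 : k)
    rw [map_one] at h4
    exact h3.unique h4
  refine ⟨fun i => if i ∈ I then C (w i) * p i * ∏ j ∈ I.erase i, q j else 0,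
    I.biUnion E, fun z hz => ?_⟩
  have hz' : ∀ i ∈ I, z ∉ E i := fun i hi h => hz (Finset.mem_biUnion.2 ⟨i, hi, h⟩)
  have hq0 : ∀ i ∈ I, (q i).eval z ≠ 0 := fun i hi => ((hcp i hi).2 z (hz' i hi)).2.1
  have hp0 : ∀ i ∈ I, (p i).eval z ≠ 0 := fun i hi => ((hcp i hi).2 z (hz' i hi)).1
  have hQ : ∀ i ∈ I, ((if i ∈ I then C (w i) * p i * ∏ j ∈ I.erase i, q j else 0 : k[X])).eval z =
      w i * (p i).eval z * ∏ j ∈ I.erase i, (q j).eval z := by
    intro i hi
    rw [if_pos hi, eval_mul, eval_mul, eval_C, eval_prod]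
  refine ⟨?_, fun x y hx hy hxy => ⟨algebraMap k (Om k) (∏ j ∈ I, (q j).eval z) / c i₀,
    fun i => ?_⟩⟩
  · intro h0
    have h3 := congrFun h0 i₀
    simp only [Pi.zero_apply] at h3
    rw [hQ i₀ hi₀, hw0, one_mul] at h3
    rcases mul_eq_zero.1 h3 with h4 | h4
    · exact hp0 i₀ hi₀ h4
    · rw [Finset.prod_eq_zero_iff] at h4
      obtain ⟨j, hj, h5⟩ := h4
      exact hq0 j (Finset.mem_of_mem_erase hj) h5
  · by_cases hi : i ∈ I
    · simp only
      rw [hQ i hi]
      obtain ⟨hci, h3⟩ := hcp i hi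
      have h4 := (h3 z (hz' i hi)).2.2 x y hx hy hxy
      have h5 := ((Place.at_const (v := v) (F := Om k) (∏ j ∈ I, (q j).eval z)).mul
        (hw i hi)).mul h4
      have e1 : algebraMap k (Om k) (∏ j ∈ I, (q j).eval z) * (c i / c i₀) *
          ((c i)⁻¹ * N.co x y i) =
          algebraMap k (Om k) (∏ j ∈ I, (q j).eval z) / c i₀ * N.co x y i :=
        bi_aux hci _ _ _
      have e2 : (∏ j ∈ I, (q j).eval z) * w i * ((p i).eval z / (q i).eval z) =
          w i * (p i).eval z * ∏ j ∈ I.erase i, (q j).eval z := by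
        rw [← Finset.mul_prod_erase I (fun j => (q j).eval z) hi]
        have := hq0 i hi
        field_simp
      rw [e1, e2] at h5
      exact h5
    · have h3 : N.G i = 0 ∧ N.H i = 0 := by
        rw [hmem, not_or, not_not, not_not] at hi
        exact hi
      have h4 : N.co x y i = 0 := by
        unfold GT.Mp.co
        rw [h3.1, h3.2, eval_zero, zero_mul, add_zero]
      simp only
      rw [h4, mul_zero, if_neg hi, eval_zero]
      have h5 := Place.at_const (v := v) (F := Om k) (0 : k)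
      rwa [map_zero] at h5

end Pool.Agent.GTM
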