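import Pool.Agent.GTM.LineK

/-!
# All lines at a place
-/

set_option autoImplicit false

noncomputable section

namespace Pool.Agent.GTM

open Pool.Agent.ZCyc Pool.Agent.Dess Pool.Agent.GT Polynomial
open Pool.Agent.VFP (Om tt)
open scoped Classical LinearAlgebra.Projectivization

variable {k : Type} [Field k] [IsAlgClosed k] [CharZero k] {m : ℕ} {d : ℕ}
  {X : Set (MvPolynomial (Fin (m + 1)) k)}

omit [IsAlgClosed k] [CharZero k] in
private theorem LineV_unit {v : Place k (Om k)} {g : Om k} {c : k} (hg : g ≠ 0)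
    (h : g ∈ v.ring ∧ g⁻¹ ∈ v.ring) (hc : v.At g c) : c ≠ 0 := by
  rintro rfl
  rcases (v.vanishes_iff_or g).1 (Place.at_zero_iff.1 hc) with h1 | h1
  · exact hg h1
  · exact h1 h.2

/-- the reduction of a line at a good place -/
private theorem LineV_red (hX : Hom X) {P : (Om k)[X]} {N : Mp (Om k) m} (hN : OkH d P N X)
    {v : Place k (Om k)} {P₀ : k[X]} {N₀ : Mp k m} (hN₀ : OkH d P₀ N₀ X) (hP : PolAt v P P₀)
    (hNv : MpAt v N N₀) {g : (Om k)[X]} (h : g.natDegree ≤ d)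
    (hl : g.coeff d ^ 2 ≠ P.coeff (2 * d)) (hv : ∀ n, g.coeff n ≠ 0 → g.coeff n ∈ v.ring)
    (hl' : (g.coeff d ^ 2 - P.coeff (2 * d))⁻¹ ∈ v.ring) :
    ∃ g₀ : k[X], g₀.natDegree ≤ d ∧ g₀.coeff d ^ 2 ≠ P₀.coeff (2 * d) ∧
      lineV hX hN v g = lineK hX hN₀ g₀ := by
  obtain ⟨g₀, hg₀⟩ := exists_polAt (p := g) (v := v) (fun n => by
    by_cases h1 : g.coeff n = 0
    · rw [h1]
      exact zero_mem _
    · exact hv n h1)
  have hdeg₀ : g₀.natDegree ≤ d := by
    rw [Polynomial.natDegree_le_iff_coeff_eq_zero]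
    intro n hn
    have h1 := hg₀ n
    rw [Polynomial.coeff_eq_zero_of_natDegree_lt (lt_of_le_of_lt h hn)] at h1
    have h2 : v.At (0 : Om k) 0 := by simpa using Place.at_const (v := v) (0 : k)
    exact h1.unique h2
  have hlead : v.At (g.coeff d ^ 2 - P.coeff (2 * d)) (g₀.coeff d ^ 2 - P₀.coeff (2 * d)) :=
    ((hg₀ d).pow 2).sub (hP (2 * d))
  have hl₀ : g₀.coeff d ^ 2 ≠ P₀.coeff (2 * d) :=
    sub_ne_zero.1 (LineV_unit (sub_ne_zero.2 hl) ⟨hlead.mem, hl'⟩ hlead)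
  have hR : PolAt v (g ^ 2 - P) (g₀ ^ 2 - P₀) := (hg₀.pow 2).sub hP
  have hL : Ln d P g 1 (g ^ 2 - P) := ⟨h, hl, (one_mul _).symm⟩
  have hL₀ : Ln d P₀ g₀ 1 (g₀ ^ 2 - P₀) := ⟨hdeg₀, hl₀, (one_mul _).symm⟩
  have hd1 : (g ^ 2 - P).natDegree = 2 * d := by
    have := hL.natDegree hN.pos hN.deg
    rwa [one_mul] at this
  have hd2 : (g₀ ^ 2 - P₀).natDegree = 2 * d := by
    have := hL₀.natDegree hN₀.pos hN₀.deg
    rwa [one_mul] at this
  have hne : g₀ ^ 2 - P₀ ≠ 0 := by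
    intro h0
    rw [h0, natDegree_zero] at hd2
    have := hN.pos
    omega
  have hneR : g ^ 2 - P ≠ 0 := by
    intro h0
    rw [h0, natDegree_zero] at hd1
    have := hN.pos
    omega
  obtain ⟨n, u, u₀, hu, hu₀, hat⟩ := roots_at hR hne (hd1.trans hd2.symm)
  refine ⟨g₀, hdeg₀, hl₀, ?_⟩
  unfold lineV lineK
  rw [hu, hu₀, Multiset.map_map, Multiset.map_map]
  congr 1
  refine Multiset.map_congr rfl fun i _ => ?_
  have hroot : (g ^ 2 - P).IsRoot (u i) := by
    have h1 : u i ∈ (g ^ 2 - P).roots := by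
      rw [hu]
      exact Multiset.mem_map_of_mem u (Finset.mem_univ i)
    exact ((Polynomial.mem_roots hneR).1 h1)
  refine cv_eq_ck hX hN hN₀ hP hNv (hat i) (hg₀.eval (hat i)) ?_
  rw [Polynomial.IsRoot.def, Polynomial.eval_sub, Polynomial.eval_pow] at hroot
  exact sub_eq_zero.1 hroot

/-- All lines over `Om k` have the same sum of classes at every place.
Proof: `moving` for the cycle `∑ zq (x, g(x)) - ∑ zq (x', g'(x'))` (sums over the roots); at almost
all places there is good reduction (`exists_red`; the coefficients of `g`, `g'` and the roots are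
also in `Γ` if they are not zero, and `g.coeff d ^ 2 - P.coeff (2 * d)`), `cv_eq_ck`, `roots_at`,
`lineK_eq`. -/
theorem lineV_eq (hX : Hom X) {P : (Om k)[X]} {N : Mp (Om k) m} (hN : OkH d P N X)
    (v : Place k (Om k)) {g g' : (Om k)[X]} (h : g.natDegree ≤ d)
    (hl : g.coeff d ^ 2 ≠ P.coeff (2 * d)) (h' : g'.natDegree ≤ d)
    (hl' : g'.coeff d ^ 2 ≠ P.coeff (2 * d)) : lineV hX hN v g = lineV hX hN v g' := by
  obtain ⟨Γ₁, h0, hΓ₁⟩ := exists_red hN
  let z : (Om k)[X] → (Pt X (Om k) →₀ ℚ) := fun g =>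
    ((g ^ 2 - P).roots.map fun x => zq hX hN x (g.eval x)).sum
  have hz : ∀ (w : Place k (Om k)) (g : (Om k)[X]), lineV hX hN w g = lim1 hX w (z g) := by
    intro w g
    change (Multiset.map _ _).sum = lim1 hX w (Multiset.sum _)
    rw [map_multiset_sum, Multiset.map_map]
    rfl
  let S : Finset (Om k) := g.support.image g.coeff ∪ g'.support.image g'.coeff ∪
    {g.coeff d ^ 2 - P.coeff (2 * d), g'.coeff d ^ 2 - P.coeff (2 * d)}
  have hS0 : (0 : Om k) ∉ Γ₁ ∪ S.erase 0 := by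
    intro h1
    rcases Finset.mem_union.1 h1 with h1 | h1
    · exact h0 h1
    · exact Finset.notMem_erase 0 S h1
  have key := moving hX (Finsupp.mapDomain (fun x (_ : Unit) => x) (z g - z g'))
    (Γ₁ ∪ S.erase 0) hS0 (fun w hw => by
      change lim1 hX w (z g - z g') = 0
      rw [map_sub, ← hz, ← hz, sub_eq_zero]
      obtain ⟨P₀, N₀, hP, hNv, hN₀⟩ := hΓ₁ w fun γ hγ => hw γ (Finset.mem_union_left _ hγ)
      have hmem : ∀ γ ∈ S, γ ≠ 0 → γ ∈ w.ring ∧ γ⁻¹ ∈ w.ring := fun γ hγ hγ0 =>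
        hw γ (Finset.mem_union_right _ (Finset.mem_erase.2 ⟨hγ0, hγ⟩))
      obtain ⟨g₀, hg1, hg2, hg3⟩ := LineV_red hX hN hN₀ hP hNv h hl
        (fun n hn => (hmem _ (Finset.mem_union_left _ (Finset.mem_union_left _
          (Finset.mem_image_of_mem _ (Polynomial.mem_support_iff.2 hn)))) hn).1)
        (hmem _ (Finset.mem_union_right _ (by simp)) (sub_ne_zero.2 hl)).2
      obtain ⟨g₀', hg1', hg2', hg3'⟩ := LineV_red hX hN hN₀ hP hNv h' hl'
        (fun n hn => (hmem _ (Finset.mem_union_left _ (Finset.mem_union_right _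
          (Finset.mem_image_of_mem _ (Polynomial.mem_support_iff.2 hn)))) hn).1)
        (hmem _ (Finset.mem_union_right _ (by simp)) (sub_ne_zero.2 hl')).2
      rw [hg3, hg3']
      exact lineK_eq hX hN₀ hg1 hg2 hg1' hg2') v
  have key' : lim1 hX v (z g - z g') = 0 := key
  rw [map_sub, ← hz, ← hz, sub_eq_zero] at key'
  exact key'

end Pool.Agent.GTM
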