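import Pool.Agent.GTM.Defs
import Pool.Agent.GT.RedPol
import Pool.Agent.GT.Tr

/-!
# The polynomial of the curve
-/

set_option autoImplicit false

noncomputable section

namespace Pool.Agent.GTM

open Pool.Agent.ZCyc Pool.Agent.Dess Pool.Agent.GT Polynomial
open Pool.Agent.VFP (Om tt)
open scoped Classical LinearAlgebra.Projectivization

variable {K : Type} [Field K] {m : ℕ} {k : Type} [Field k]
  {X : Set (MvPolynomial (Fin (m + 1)) k)}

/-- the polynomial `x ^ (2 ν) + B x ^ ν + δ` -/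
def wP (ν : ℕ) (B δ : K) : K[X] := Polynomial.X ^ (2 * ν) + C B * Polynomial.X ^ ν + C δ

theorem wP_eval (ν : ℕ) (B δ x : K) : (wP ν B δ).eval x = x ^ (2 * ν) + B * x ^ ν + δ := by
  simp [wP]

theorem wP_natDegree {ν : ℕ} (hν : 0 < ν) (B δ : K) : (wP ν B δ).natDegree = 2 * ν := by
  have h1 : (C B * Polynomial.X ^ ν + C δ : K[X]).natDegree ≤ ν := by
    refine (natDegree_add_le _ _).trans (max_le (natDegree_C_mul_X_pow_le _ _) ?_)
    rw [natDegree_C]
    exact Nat.zero_le _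
  have h2 : (Polynomial.X ^ (2 * ν) : K[X]).natDegree = 2 * ν := natDegree_X_pow _
  rw [wP, add_assoc, natDegree_add_eq_left_of_natDegree_lt (by omega), h2]

theorem wP_coeff_top {ν : ℕ} (hν : 0 < ν) (B δ : K) : (wP ν B δ).coeff (2 * ν) = 1 := by
  have h1 : ν ≠ 2 * ν := by omega
  have h2 : 2 * ν ≠ 0 := by omega
  rw [wP, coeff_add, coeff_add, coeff_X_pow_self, coeff_C_mul, coeff_X_pow, if_neg (Ne.symm h1),
    coeff_C, if_neg h2, mul_zero, add_zero, add_zero]

theorem wP_coeff_zero {ν : ℕ} (hν : 0 < ν) (B δ : K) : (wP ν B δ).coeff 0 = δ := by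
  have h1 : (0 : ℕ) ≠ 2 * ν := by omega
  have h2 : (0 : ℕ) ≠ ν := by omega
  rw [wP, coeff_add, coeff_add, coeff_X_pow, if_neg h1, coeff_C_mul, coeff_X_pow, if_neg h2,
    coeff_C_zero, mul_zero, zero_add, zero_add]

/-- The polynomial is separable for `δ ≠ 0`, `B ² ≠ 4 δ`. Proof: a common root `x` of the polynomial and
its derivative `ν x ^ (ν - 1) (2 x ^ ν + B)` in an algebraic closure is not zero because `δ ≠ 0`, so
`2 x ^ ν = - B`, and then the polynomial has the value `δ - B ² / 4` at `x`. Or directly: for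
`V = x ^ ν` there are constants with `(a V + b) (V ² + B V + δ) + c V (2 V + B) ..`; note that `x` times
the derivative is `ν V (2 V + B)`. -/
theorem wP_sep [CharZero K] {ν : ℕ} (hν : 0 < ν) {B δ : K} (hδ : δ ≠ 0) (hd : B ^ 2 ≠ 4 * δ) :
    (wP ν B δ).Separable := by
  have hD : 4 * δ - B ^ 2 ≠ 0 := sub_ne_zero.2 (Ne.symm hd)
  have hν0 : (ν : K) ≠ 0 := Nat.cast_ne_zero.2 hν.ne'
  have hder : Polynomial.X * derivative (wP ν B δ) =
      C (ν : K) * (Polynomial.X ^ ν * (2 * Polynomial.X ^ ν + C B)) := by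
    obtain ⟨n, rfl⟩ : ∃ n, ν = n + 1 := ⟨ν - 1, by omega⟩
    rw [wP, derivative_add, derivative_add, derivative_C, derivative_X_pow, derivative_C_mul,
      derivative_X_pow]
    have e1 : 2 * (n + 1) - 1 = 2 * n + 1 := by omega
    rw [e1, Nat.add_sub_cancel]
    push_cast
    simp only [map_mul, map_add, map_natCast, map_one, map_ofNat]
    ring
  have hc : C ((4 * δ - B ^ 2) * δ)⁻¹ * C ((4 * δ - B ^ 2) * δ) = (1 : K[X]) := by
    rw [← C_mul, inv_mul_cancel₀ (mul_ne_zero hD hδ), C_1]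
  have hn : C (ν : K)⁻¹ * C (ν : K) = (1 : K[X]) := by
    rw [← C_mul, inv_mul_cancel₀ hν0, C_1]
  refine ⟨C ((4 * δ - B ^ 2) * δ)⁻¹ * (4 * C δ - (2 * Polynomial.X ^ ν + C B) ^ 2),
    C ((4 * δ - B ^ 2) * δ)⁻¹ * C (ν : K)⁻¹ * Polynomial.X *
      ((2 * Polynomial.X ^ ν + C B) * (Polynomial.X ^ ν + C B)), ?_⟩
  have e2 : C ((4 * δ - B ^ 2) * δ)⁻¹ * C (ν : K)⁻¹ * Polynomial.X *
      ((2 * Polynomial.X ^ ν + C B) * (Polynomial.X ^ ν + C B)) * derivative (wP ν B δ) =
      C ((4 * δ - B ^ 2) * δ)⁻¹ * ((2 * Polynomial.X ^ ν + C B) ^ 2 * Polynomial.X ^ ν *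
        (Polynomial.X ^ ν + C B)) := by
    linear_combination (C ((4 * δ - B ^ 2) * δ)⁻¹ * C (ν : K)⁻¹ *
      ((2 * Polynomial.X ^ ν + C B) * (Polynomial.X ^ ν + C B))) * hder +
      C ((4 * δ - B ^ 2) * δ)⁻¹ * ((2 * Polynomial.X ^ ν + C B) ^ 2 * Polynomial.X ^ ν *
        (Polynomial.X ^ ν + C B)) * hn
  rw [e2, ← hc]
  simp only [wP, map_mul, map_sub, map_pow, map_ofNat]
  ring

variable {A : Type} [CommRing A] [Algebra k A]

/-- The conditions on the data `d : GD A m`, where `d.α` is now the coefficient `δ` of the curve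
`y ² = x ^ (2 ν) + B x ^ ν + δ` over `A`; they hold over an open set of the base curve. -/
structure OkW (ν : ℕ) (d : GD A m) (X : Set (MvPolynomial (Fin (m + 1)) k)) : Prop where
  pos : 0 < ν
  monic : d.h.Monic
  sep : ∃ u w : Polynomial A, u * d.h + w * Polynomial.derivative d.h = 1
  unit : IsUnit d.α
  disc : IsUnit (d.B ^ 2 - 4 * d.α)
  ne : Ideal.span ({d.h} ∪ {c | ∃ i j, c = (d.G i).coeff j ∨ c = (d.H i).coeff j}) = ⊤
  onX : ∀ (K : Type) [Field K] [Algebra k K] (S : A →ₐ[k] K) (θ : K),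
    θ ∈ d.rts (S : A →+* K) → ∀ x y : K, y ^ 2 = x ^ (2 * ν) + S d.B * x ^ ν + S d.α → ∀ f ∈ X,
      MvPolynomial.aeval ((d.mp (S : A →+* K) θ).co x y) f = 0

/-- As `GD.Ok.mp_ok` in `GT/Tr.lean`. -/
theorem OkW.mp_ok [CharZero K] {ν : ℕ} {d : GD A m} (hd : OkW ν d X) [Algebra k K]
    (S : A →ₐ[k] K) {θ : K} (hθ : θ ∈ d.rts (S : A →+* K)) :
    OkH ν (wP ν (S d.B) (S d.α)) (d.mp (S : A →+* K) θ) X := by
  refine ⟨hd.pos, wP_natDegree hd.pos _ _, wP_sep hd.pos ?_ ?_, ?_, ?_⟩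
  · exact (hd.unit.map S).ne_zero
  · intro h
    have h1 : IsUnit (S (d.B ^ 2 - 4 * d.α)) := hd.disc.map S
    rw [map_sub, map_mul, map_pow, map_ofNat, h, sub_self] at h1
    exact not_isUnit_zero h1
  · by_contra hne
    push Not at hne
    have h1 : Ideal.span ({d.h} ∪ {c | ∃ i j, c = (d.G i).coeff j ∨ c = (d.H i).coeff j}) ≤
        RingHom.ker (Polynomial.eval₂RingHom (S : A →+* K) θ) := by
      rw [Ideal.span_le]
      rintro c (hc | ⟨i, j, hc⟩)
      · rw [Set.mem_singleton_iff] at hc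
        subst hc
        rw [SetLike.mem_coe, RingHom.mem_ker, Polynomial.coe_eval₂RingHom]
        have h2 := hθ
        rw [GD.rts, Multiset.mem_toFinset] at h2
        have h3 := Polynomial.isRoot_of_mem_roots h2
        rw [Polynomial.IsRoot, Polynomial.eval_map] at h3
        exact h3
      · rw [SetLike.mem_coe, RingHom.mem_ker]
        rcases hc with rfl | rfl
        · rw [← Polynomial.coeff_map]
          have h2 : (d.G i).map (Polynomial.eval₂RingHom (S : A →+* K) θ) = 0 := (hne i).1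
          rw [h2, Polynomial.coeff_zero]
        · rw [← Polynomial.coeff_map]
          have h2 : (d.H i).map (Polynomial.eval₂RingHom (S : A →+* K) θ) = 0 := (hne i).2
          rw [h2, Polynomial.coeff_zero]
    rw [hd.ne, top_le_iff] at h1
    have h2 : (1 : Polynomial A) ∈ RingHom.ker (Polynomial.eval₂RingHom (S : A →+* K) θ) := by
      rw [h1]
      exact Submodule.mem_top
    rw [RingHom.mem_ker, map_one] at h2
    exact one_ne_zero h2
  · intro f hf x y h
    rw [wP_eval] at h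
    exact hd.onX K S θ hθ x y h f hf

end Pool.Agent.GTM
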