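import Pool.Agent.GTM.BadH
import Pool.Agent.GTM.BadI2
import Pool.Agent.GTM.LineV
import Pool.Agent.GTM.WPol

/-!
# The bad place: the classes of the points of the curve
-/

set_option autoImplicit false

noncomputable section

namespace Pool.Agent.GTM

open Pool.Agent.ZCyc Pool.Agent.Dess Pool.Agent.GT Polynomial
open Pool.Agent.VFP (Om tt)
open scoped Classical LinearAlgebra.Projectivization

variable {k : Type} [Field k] [IsAlgClosed k] [CharZero k] {m : ℕ}
  {X : Set (MvPolynomial (Fin (m + 1)) k)} {v : Place k (Om k)} {M : ℕ} {b : Om k}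

omit [IsAlgClosed k] [CharZero k] in
theorem wP_one (M : ℕ) (b : Om k) : wP M b 1 = pol M b := by
  unfold wP pol
  rw [C_1]

omit [IsAlgClosed k] [CharZero k] in
private theorem bj_mv {v : Place k (Om k)} {ι : Type} {u : ι → Om k} {c : ι → k}
    (h : ∀ i, v.At (u i) (c i)) (f : MvPolynomial ι k) :
    v.At (MvPolynomial.aeval u f) (MvPolynomial.aeval c f) := by
  induction f using MvPolynomial.induction_on with
  | C a =>
    rw [MvPolynomial.aeval_C, MvPolynomial.aeval_C]
    exact Place.at_const a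
  | add p q hp hq =>
    rw [map_add, map_add]
    exact hp.add hq
  | mul_X p i hp =>
    rw [map_mul, map_mul, MvPolynomial.aeval_X, MvPolynomial.aeval_X]
    exact hp.mul (h i)

omit [IsAlgClosed k] [CharZero k] in
private theorem bj_zero {v : Place k (Om k)} {c : k} (h : v.At (0 : Om k) c) : c = 0 := by
  have h1 : v.At (0 : Om k) 0 := by simpa using Place.at_const (v := v) (0 : k)
  exact h.unique h1

omit [IsAlgClosed k] [CharZero k] in
private theorem bj_eval {Q : Fin (m + 1) → k[X]} {f : MvPolynomial (Fin (m + 1)) k}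
    {K : Type} [Field K] [Algebra k K] (s : K) :
    MvPolynomial.aeval (fun i => Polynomial.aeval s (Q i)) f =
      Polynomial.aeval s (MvPolynomial.aeval Q f) := by
  have h3 := DFunLike.congr_fun (MvPolynomial.comp_aeval Q
    (Polynomial.aeval s : k[X] →ₐ[k] K)) f
  rw [AlgHom.comp_apply] at h3
  exact h3.symm

/-- Two points of a rational curve have the same class: `bridge` for the point with the parameter
`z + (z₁ - z) t`. -/
theorem rat_class (hX : Hom X) {Q : Fin (m + 1) → k[X]}
    (hQ : ∀ f ∈ X, MvPolynomial.aeval Q f = 0) {z z₁ : k}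
    (h : (fun i => (Q i).eval z) ≠ 0) (h₁ : (fun i => (Q i).eval z₁) ≠ 0)
    (e : ∀ f ∈ X, MvPolynomial.aeval (fun i => (Q i).eval z) f = 0)
    (e₁ : ∀ f ∈ X, MvPolynomial.aeval (fun i => (Q i).eval z₁) f = 0) :
    (Submodule.Quotient.mk (Finsupp.single (fun _ : Unit => mkPt hX _ h e) 1) : CH X Unit) =
      Submodule.Quotient.mk (Finsupp.single (fun _ : Unit => mkPt hX _ h₁ e₁) 1) := by
  by_cases hss : z = z₁
  · subst hss
    rfl
  set S : Om k := algebraMap k (Om k) z + algebraMap k (Om k) (z₁ - z) * tt k with hSdef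
  have hSt : Transcendental k S := by
    intro halg
    refine Pool.Agent.VFP.tt_transc (k := k) ?_
    have h1 : tt k = algebraMap k (Om k) (z₁ - z)⁻¹ * (S - algebraMap k (Om k) z) := by
      rw [hSdef, add_sub_cancel_left, ← mul_assoc, ← map_mul,
        inv_mul_cancel₀ (sub_ne_zero.2 (Ne.symm hss)), map_one, one_mul]
    rw [h1]
    exact (isAlgebraic_algebraMap _).mul (halg.sub (isAlgebraic_algebraMap _))
  have hco : (fun i => Polynomial.aeval S (Q i)) ≠ 0 := by
    intro h0
    obtain ⟨i, hi⟩ := Function.ne_iff.1 h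
    refine hi ?_
    have h1 : Polynomial.aeval S (Q i) = 0 := congrFun h0 i
    rw [transcendental_iff.1 hSt _ h1, Polynomial.eval_zero]
    rfl
  have hS : ∀ f ∈ X, MvPolynomial.aeval (fun i => Polynomial.aeval S (Q i)) f = 0 := by
    intro f hf
    rw [bj_eval, hQ f hf, map_zero]
  have key : ∀ (w : Place k (Om k)) (a r : k) (hr : (fun i => (Q i).eval r) ≠ 0)
      (er : ∀ f ∈ X, MvPolynomial.aeval (fun i => (Q i).eval r) f = 0),
      w.At (tt k) a → z + (z₁ - z) * a = r →
      lim hX w (Finsupp.single (fun _ : Unit => mkPt hX _ hco hS) (1 : ℚ)) =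
      Submodule.Quotient.mk (Finsupp.single (fun _ : Unit => mkPt hX _ hr er) 1) := by
    intro w a r hr er ha hra
    rw [lim_single]
    have h5 : pv hX w (mkPt hX _ hco hS) = mkPt hX _ hr er := by
      refine pv_eq ?_
      refine isVal_mkPt (hX := hX) (l := 1) fun i => ?_
      rw [one_mul]
      refine Place.At.aeval ?_ _
      rw [← hra]
      exact (Place.at_const z).add ((Place.at_const (z₁ - z)).mul ha)
    rw [h5]
  exact bridge hX _ (c₀ := 0) (c₁ := 1) (fun w hw => key w 0 z h e hw (by ring))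
    (fun w hw => key w 1 z₁ h₁ e₁ hw (by ring))

/-- every point of the component is the value of a point of the curve -/
private theorem bj_lift (hb : v.At b (-2)) (ε : ℤˣ) (z : k) :
    ∃ x y : Om k, v.At x z ∧ v.At y (((ε : ℤ) : k) * (z ^ M - 1)) ∧
      y ^ 2 = (pol M b).eval x := by
  have hx : v.At (algebraMap k (Om k) z) z := Place.at_const z
  have he2 : ((ε : ℤ) : k) ^ 2 = 1 := by
    rcases Int.units_eq_one_or ε with h | h <;> rw [h] <;> simp
  obtain ⟨y, hy⟩ := IsAlgClosed.exists_pow_nat_eq ((pol M b).eval (algebraMap k (Om k) z))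
    (n := 2) (by norm_num)
  have h1 : v.At (1 : Om k) 1 := by
    have := Place.at_const (v := v) (1 : k)
    rwa [map_one] at this
  have hp : v.At (y ^ 2) ((z ^ M - 1) ^ 2) := by
    have h2 := ((hx.pow (2 * M)).add (hb.mul (hx.pow M))).add h1
    have h3 : z ^ (2 * M) + -2 * z ^ M + 1 = (z ^ M - 1) ^ 2 := by
      rw [mul_comm 2 M, pow_mul]
      ring
    rw [h3] at h2
    rw [hy, pol_eval]
    exact h2
  have hmem : y ∈ v.ring := by
    rw [← v.ring.valuation_le_one_iff]
    have h3 := hp.mem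
    rw [← v.ring.valuation_le_one_iff, map_pow] at h3
    exact (pow_le_one_iff (by norm_num)).1 h3
  obtain ⟨c, hc⟩ := DCI57.exists_at v hmem
  have hc2 : c ^ 2 = (((ε : ℤ) : k) * (z ^ M - 1)) ^ 2 := by
    rw [mul_pow, he2, one_mul]
    exact (hc.pow 2).unique hp
  rcases sq_eq_sq_iff_eq_or_eq_neg.1 hc2 with h3 | h3
  · exact ⟨_, y, hx, h3 ▸ hc, hy⟩
  · refine ⟨_, -y, hx, ?_, by rw [neg_sq, hy]⟩
    have h4 := hc.neg
    rwa [h3, neg_neg] at h4

/-- The classes of the points with general reductions on one component are equal. -/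
theorem comp_class (hX : Hom X) (hM : 1 ≤ M) (hb : v.At b (-2)) (hb' : b ≠ -2)
    {N : Mp (Om k) m} (hN : OkH M (wP M b 1) N X) (ε : ℤˣ) :
    ∃ (κ : CH X Unit) (E : Finset k), ∀ z : k, z ∉ E → ∀ x y : Om k, v.At x z →
      v.At y (((ε : ℤ) : k) * (z ^ M - 1)) → y ^ 2 = (pol M b).eval x →
        cv hX hN v x y = κ := by
  obtain ⟨Q, E, hQE⟩ := exists_comp hM hb hb' ε N hN.ne
  have hon : ∀ z ∉ E, ∀ f ∈ X, MvPolynomial.aeval (fun i => (Q i).eval z) f = 0 := by
    intro z hz f hf
    obtain ⟨x, y, hx, hy, hxy⟩ := bj_lift (v := v) (M := M) hb ε z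
    obtain ⟨l, hl⟩ := (hQE z hz).2 x y hx hy hxy
    have h1 := bj_mv hl f
    obtain ⟨d, hd⟩ := hX f hf
    rw [aeval_smul_homog hd, hN.onX f hf x y (by rw [wP_one, hxy]), mul_zero] at h1
    exact bj_zero h1
  have hQX : ∀ f ∈ X, MvPolynomial.aeval Q f = 0 := by
    intro f hf
    refine Polynomial.eq_zero_of_infinite_isRoot _ ?_
    refine Set.Infinite.mono ?_ E.finite_toSet.infinite_compl
    intro z hz
    have h1 := hon z (by simpa using hz) f hf
    have h2 : MvPolynomial.aeval (fun i => Polynomial.aeval z (Q i)) f =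
      Polynomial.aeval z (MvPolynomial.aeval Q f) := bj_eval z
    simp only [Polynomial.coe_aeval_eq_eval] at h2
    rw [h1] at h2
    exact h2.symm
  have hcl : ∀ z (hz : z ∉ E), ∀ x y : Om k, v.At x z →
      v.At y (((ε : ℤ) : k) * (z ^ M - 1)) → y ^ 2 = (pol M b).eval x →
      cv hX hN v x y = Submodule.Quotient.mk (Finsupp.single
        (fun _ : Unit => mkPt hX _ (hQE z hz).1 (hon z hz)) 1) := by
    intro z hz x y hx hy hxy
    have hxy' : y ^ 2 = (wP M b 1).eval x := by rw [wP_one, hxy]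
    obtain ⟨l, hl⟩ := (hQE z hz).2 x y hx hy hxy
    have hne : N.co x y ≠ 0 := by
      intro h0
      refine (hQE z hz).1 (funext fun i => ?_)
      have h1 := hl i
      rw [h0, Pi.zero_apply, mul_zero] at h1
      exact bj_zero h1
    rw [cv_of_ne hX hN v hxy' hne]
    have h2 : cyp hX hN x y =
        Finsupp.single (mkPt hX (N.co x y) hne fun f hf => hN.onX f hf x y hxy') 1 := by
      unfold cyp
      rw [dif_pos ⟨hxy', hne⟩]
    have h1 : pv hX v (mkPt hX (N.co x y) hne fun f hf => hN.onX f hf x y hxy') =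
        mkPt hX _ (hQE z hz).1 (hon z hz) := by
      apply pv_eq
      exact isVal_mkPt (l := l) hl
    rw [h2]
    change lim hX v (Finsupp.mapDomain (fun x _ => x) (Finsupp.single _ 1)) = _
    rw [Finsupp.mapDomain_single, lim_single, h1]
  obtain ⟨z₀, hz₀⟩ := Infinite.exists_notMem_finset E
  refine ⟨Submodule.Quotient.mk (Finsupp.single
    (fun _ : Unit => mkPt hX _ (hQE z₀ hz₀).1 (hon z₀ hz₀)) 1), E,
    fun z hz x y hx hy hxy => ?_⟩
  rw [hcl z hz x y hx hy hxy]
  exact rat_class hX hQX _ _ _ _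

/-- The classes are a function as in `BadFn`. -/
theorem exists_badFn (hX : Hom X) (hM : 2 ≤ M) (hb : v.At b (-2)) (hb' : b ≠ -2)
    {N : Mp (Om k) m} (hN : OkH M (wP M b 1) N X) :
    ∃ (κ : ℤˣ → CH X Unit) (E : Finset k) (Γ : CH X Unit),
      BadFn v M b (cv hX hN v) κ E Γ := by
  choose κ E h using fun ε => comp_class hX (by omega : 1 ≤ M) hb hb' hN ε
  refine ⟨κ, E 1 ∪ E (-1), lineV hX hN v 0, hM, hb, hb', ?_, ?_⟩
  · intro g hd hg
    rw [← wP_one]
    refine lineV_eq hX hN v hd ?_ (by simp) ?_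
    · rw [wP_coeff_top (by omega)]
      exact hg
    · rw [wP_coeff_top (by omega), coeff_zero]
      simp
  · intro ε z hz x y hx hy hxy
    refine h ε z (fun hz' => hz ?_) x y hx hy hxy
    rw [Finset.mem_union]
    rcases Int.units_eq_one_or ε with h1 | h1
    · exact Or.inl (h1 ▸ hz')
    · exact Or.inr (h1 ▸ hz')

/-- The rotation does not change the classes of integral points in the normal form. -/
theorem cv_bad_one (hX : Hom X) (hM : 1 ≤ M) (hb : v.At b (-2)) (hb' : b ≠ -2)
    {N : Mp (Om k) m} (hN : OkH M (wP M b 1) N X) {ζ : k} (hζ : ζ ^ M = 1) {x y : Om k}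
    (hx : x ∈ v.ring) (hxy : y ^ 2 = (wP M b 1).eval x) :
    cv hX hN v (algebraMap k (Om k) ζ * x) y = cv hX hN v x y := by
  rcases hM.eq_or_lt with h1 | h1
  · rw [← h1, pow_one] at hζ
    rw [hζ, map_one, one_mul]
  · obtain ⟨κ, E, Γ, h⟩ := exists_badFn hX h1 hb hb' hN
    rw [wP_one] at hxy
    exact h.rot hζ hx hxy

end Pool.Agent.GTM
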