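import Pool.Agent.GTM.Bad
import Pool.Agent.GT.BadC

/-!
# Places of the base with multiplicative reduction
-/

set_option autoImplicit false

noncomputable section

namespace Pool.Agent.GTM

open Pool.Agent.ZCyc Pool.Agent.Dess Pool.Agent.GT Polynomial
open Pool.Agent.VFP (Om tt)
open scoped Classical LinearAlgebra.Projectivization

open Pool.Agent.TInc

variable {k L : Type} [Field k] [IsAlgClosed k] [CharZero k] [Field L] [Algebra k L] {m : ℕ}
  {X : Set (MvPolynomial (Fin (m + 1)) k)} {ν : ℕ}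

/-- the same for the sums over all roots, over a place of the base curve -/
theorem TV_bad (hX : Hom X) (hL : IsCurve k L) {A : Subalgebra k L} {d : GD A m}
    (hd : OkW ν d X) {σ : L →ₐ[k] Om k} {v : Place k (Om k)} {q : Place k L}
    (hv : v.ring.comap (σ : L →+* Om k) = q.ring)
    (hq : q.At ((d.B : L) ^ 2 / (d.α : L)) 4) {ζ : k} (hζ : ζ ^ ν = 1) {x y : Om k} (hx : x ≠ 0)
    (hxy : y ^ 2 = x ^ (2 * ν) + σ (d.B : L) * x ^ ν + σ (d.α : L)) :
    TV hX hd (σ.comp A.val) v (algebraMap k (Om k) ζ * x) y = TV hX hd (σ.comp A.val) v x y := by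
  have hmem : ∀ f : L, f ∈ q.ring ↔ σ f ∈ v.ring := by
    intro f
    rw [← hv]
    exact Iff.rfl
  have hat : ∀ (f : L) (c : k), q.At f c → v.At (σ f) c := by
    intro f c hf
    unfold Place.At at hf ⊢
    have h1 : σ f - algebraMap k (Om k) c = σ (f - algebraMap k L c) := by
      rw [map_sub, AlgHom.commutes]
    rw [h1, Place.vanishes_iff_or]
    rw [Place.vanishes_iff_or] at hf
    rcases hf with hf | hf
    · left
      rw [hf, map_zero]
    · right
      rwa [← map_inv₀, ← hmem]
  have hB : v.At (((σ.comp A.val) d.B) ^ 2 / (σ.comp A.val) d.α) 4 := by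
    have h2 := hat _ _ hq
    rwa [map_div₀, map_pow] at h2
  have hδ : (σ.comp A.val) d.α ≠ 0 := (hd.unit.map (σ.comp A.val)).ne_zero
  refine Finset.sum_congr rfl fun θ _ => ?_
  exact cv_bad hX (hd.mp_ok (σ.comp A.val) θ.2) hδ hB hζ hx (by rw [wP_eval]; exact hxy)

end Pool.Agent.GTM
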