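import Pool.Agent.DK.Defs
import Pool.Agent.TInc.Main

/-!
# The base for the curves over a function field

`L` is the function field of a curve over `k`, and `B`, `δ` in `L` are the coefficients of the curve
`σ ² = w ^ (2 ν) + B w ^ ν + δ`. They are sections of `ν A` and `2 ν A`, where `A` is a divisor.
-/

set_option autoImplicit false

noncomputable section

namespace Pool.Agent.GTM

open Pool.Agent.ZCyc Pool.Agent.Dess Pool.Agent.TInc Pool.Agent.DK Polynomial
open Pool.Agent.VFP (Om tt)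
open scoped Classical

variable {k L : Type} [Field k] [Field L] [Algebra k L] {ν : ℕ}

/-- the coefficients and the divisor -/
structure Wcf (k L : Type) [Field k] [Field L] [Algebra k L] where
  /-- the coefficient `B` -/
  B : L
  /-- the coefficient `δ` -/
  δ : L
  /-- the divisor -/
  A : Place k L →₀ ℤ

/-- `B` and `δ` are sections of `ν A` and `2 ν A`, and `A` has the degree `a`. -/
structure Wcf.Ok (X : Wcf k L) (ν a : ℕ) : Prop where
  B_ne : X.B ≠ 0
  δ_ne : X.δ ≠ 0
  disc : X.B ^ 2 - 4 * X.δ ≠ 0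
  B_mem : ∀ v, 0 ≤ ord v X.B + ν * X.A v
  δ_mem : ∀ v, 0 ≤ ord v X.δ + 2 * ν * X.A v
  deg : deg X.A = a

/-- the coefficients and the discriminant are units at the place, which is not in the support of
the divisor -/
def Wcf.Good (X : Wcf k L) (c : Place k L) : Prop :=
  (X.δ ∈ c.ring ∧ X.δ⁻¹ ∈ c.ring) ∧ (X.B ∈ c.ring ∧ X.B⁻¹ ∈ c.ring) ∧
    (X.B ^ 2 - 4 * X.δ)⁻¹ ∈ c.ring ∧ X.A c = 0

variable [IsAlgClosed k] [CharZero k]

/-- The base for the coefficients `X`, with the set `U` of good places, and the set `Z` of places where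
the curve is singular. -/
def Wcf.base (X : Wcf k L) (ν : ℕ) (hL : IsCurve k L) (U : Set (Place k L))
    (hU : ∀ c ∈ U, X.Good c) (Z : Set (Place k L)) : Bas k where
  P := U × (Place k L → kˣ)
  Q := ((L →ₐ[k] Om k) ⊕ U) × (Place k L → (Om k)ˣ)
  de := fun s => scl s.2 X.A ^ (2 * ν) * val s.1.1 X.δ
  be := fun s => scl s.2 X.A ^ ν * val s.1.1 X.B
  deQ := fun S => scl S.2 X.A ^ (2 * ν) * evO S.1 X.δ
  beQ := fun S => scl S.2 X.A ^ ν * evO S.1 X.B
  At := fun v S s => Over v S.1 s.1.1 ∧ ∀ q, v.At (S.2 q : Om k) (s.2 q : k)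
  Bad := fun v S => ∃ δ ∈ Z, Over v S.1 δ
  cst := fun s => (Sum.inr s.1, fun q => Units.map (algebraMap k (Om k) : k →* Om k) (s.2 q))
  at_de := by
    rintro v S s ⟨h1, h2⟩
    exact ((at_scl h2 _).pow (2 * ν)).mul (over_at hL h1 (hU s.1.1 s.1.2).1.1)
  at_be := by
    rintro v S s ⟨h1, h2⟩
    exact ((at_scl h2 _).pow ν).mul (over_at hL h1 (hU s.1.1 s.1.2).2.1.1)
  cst_at := by
    intro v s
    refine ⟨rfl, fun q => ?_⟩
    exact Place.at_const _
  cst_de := by
    intro s
    rw [scl_map]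
    show algebraMap k (Om k) _ ^ (2 * ν) * algebraMap k (Om k) _ = _
    rw [map_mul, map_pow]
  cst_be := by
    intro s
    rw [scl_map]
    show algebraMap k (Om k) _ ^ ν * algebraMap k (Om k) _ = _
    rw [map_mul, map_pow]

end Pool.Agent.GTM
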