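import Pool.Agent.GTM.Red

/-!
# The classes of all points
-/

set_option autoImplicit false

noncomputable section

namespace Pool.Agent.GTM

open Pool.Agent.ZCyc Pool.Agent.Dess Pool.Agent.GT Polynomial
open Pool.Agent.VFP (Om tt)
open scoped Classical LinearAlgebra.Projectivization

variable {k : Type} [Field k] [IsAlgClosed k] [CharZero k] {m : ℕ} {d : ℕ}
  {X : Set (MvPolynomial (Fin (m + 1)) k)}

section any

variable {K : Type} [Field K] [IsAlgClosed K] [CharZero K] [Algebra k K] {P : K[X]} {N : Mp K m}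

omit [IsAlgClosed k] [CharZero k] in
private theorem zq_one (hN : OkH d P N X) : ∃ t : K[X] × K[X], Ln d P t.1 1 t.2 ∧
    Clean N t.1 t.2 := by
  obtain ⟨g, R, h, -, hc⟩ := exists_clean_one hN ∅
  exact ⟨(g, R), h, hc⟩

omit [IsAlgClosed k] [CharZero k] in
private theorem zq_pt (hN : OkH d P N X) {x y : K} (h : y ^ 2 = P.eval x) :
    ∃ t : K[X] × K[X], Ln d P t.1 (Polynomial.X - C x) t.2 ∧ t.1.eval x = y ∧ Clean N t.1 t.2 := by
  obtain ⟨g, R, h, h1, -, -, hc⟩ := exists_clean hN h ∅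
  exact ⟨(g, R), h, h1, hc⟩

/-- a cycle for the point `(x, y)`: the points of a clean line minus the other points of a line
through the point (zero if the point is not on the curve) -/
def zq (hX : Hom X) (hN : OkH d P N X) (x y : K) : Pt X K →₀ ℚ :=
  if h : y ^ 2 = P.eval x then
    LR hX hN (zq_one hN).choose.1 (zq_one hN).choose.2 -
      LR hX hN (zq_pt hN h).choose.1 (zq_pt hN h).choose.2
  else 0

omit [IsAlgClosed k] [CharZero k] in
theorem zq_spec (hX : Hom X) (hN : OkH d P N X) {x y : K} (h : y ^ 2 = P.eval x) :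
    ∃ g₁ R₁ g R : K[X], Ln d P g₁ 1 R₁ ∧ Clean N g₁ R₁ ∧ Ln d P g (Polynomial.X - C x) R ∧
      g.eval x = y ∧ Clean N g R ∧ zq hX hN x y = LR hX hN g₁ R₁ - LR hX hN g R :=
  ⟨_, _, _, _, (zq_one hN).choose_spec.1, (zq_one hN).choose_spec.2,
    (zq_pt hN h).choose_spec.1, (zq_pt hN h).choose_spec.2.1, (zq_pt hN h).choose_spec.2.2,
    dif_pos h⟩

private theorem dvd_of_eval {K : Type} [Field K] {g g' : K[X]} {x y : K} (h : g.eval x = y)
    (h' : g'.eval x = y) : Polynomial.X - C x ∣ g' - g := by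
  rw [dvd_iff_isRoot, IsRoot.def, eval_sub, h, h', sub_self]

omit [IsAlgClosed k] [CharZero k] [IsAlgClosed K] [CharZero K] in
/-- a clean line through a point as a line without fixed points -/
private theorem line_mul (hX : Hom X) (hN : OkH d P N X) {g R : K[X]} {x y : K}
    (h : Ln d P g (Polynomial.X - C x) R) (hg : g.eval x = y) (hc : Clean N g R)
    (hne : N.co x y ≠ 0) : Ln d P g 1 ((Polynomial.X - C x) * R) ∧
      Clean N g ((Polynomial.X - C x) * R) ∧
      LR hX hN g ((Polynomial.X - C x) * R) = cyp hX hN x y + LR hX hN g R := by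
  have h0 : (Polynomial.X - C x) * R ≠ 0 := by
    rw [← h.eq]
    intro h1
    have h2 : (g ^ 2 - P).coeff (2 * d) = g.coeff d ^ 2 - P.coeff (2 * d) := by
      rw [coeff_sub, coeff_pow_of_natDegree_le h.deg]
    rw [h1, coeff_zero] at h2
    exact h.lead (sub_eq_zero.1 h2.symm)
  have h1 : ((Polynomial.X - C x) * R).roots = x ::ₘ R.roots := by
    rw [roots_mul h0, roots_X_sub_C, Multiset.singleton_add]
  refine ⟨⟨h.deg, h.lead, by rw [one_mul, h.eq]⟩, ?_, ?_⟩
  · intro x' hx'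
    rw [h1, Multiset.mem_cons] at hx'
    rcases hx' with rfl | hx'
    · rwa [hg]
    · exact hc x' hx'
  · rw [LR, h1, Multiset.map_cons, Multiset.sum_cons, hg, LR]

end any

/-- the class of the point `(x, y)` of the curve over `k` -/
def ck (hX : Hom X) {P : k[X]} {N : Mp k m} (hN : OkH d P N X) (x y : k) : CH X Unit :=
  cl1 X (zq hX hN x y)

/-- the class of the limit of the point `(x, y)` of the curve over `Om k` -/
def cv (hX : Hom X) {P : (Om k)[X]} {N : Mp (Om k) m} (hN : OkH d P N X) (v : Place k (Om k))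
    (x y : Om k) : CH X Unit := lim1 hX v (zq hX hN x y)

/-- `pencil` for `e = 1` and for `e = x - x₀` -/
theorem ck_spec (hX : Hom X) {P : k[X]} {N : Mp k m} (hN : OkH d P N X) {x y : k}
    (h : y ^ 2 = P.eval x) {g₁ R₁ g R : k[X]} (h1 : Ln d P g₁ 1 R₁) (hc1 : Clean N g₁ R₁)
    (h2 : Ln d P g (Polynomial.X - C x) R) (hg : g.eval x = y) (hc : Clean N g R) :
    ck hX hN x y = cl1 X (LR hX hN g₁ R₁) - cl1 X (LR hX hN g R) := by
  obtain ⟨g₁', R₁', g', R', h1', hc1', h2', hg', hc', he⟩ := zq_spec hX hN h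
  rw [ck, he, map_sub, pencil hX hN monic_one h1' h1 (one_dvd _) hc1' hc1,
    pencil hX hN (monic_X_sub_C x) h2' h2 (dvd_of_eval hg' hg) hc' hc]

/-- `line_indep` for `e = 1` and for `e = x - x₀` -/
theorem cv_spec (hX : Hom X) {P : (Om k)[X]} {N : Mp (Om k) m} (hN : OkH d P N X)
    (v : Place k (Om k)) {x y : Om k} (h : y ^ 2 = P.eval x) {g₁ R₁ g R : (Om k)[X]}
    (h1 : Ln d P g₁ 1 R₁) (hc1 : Clean N g₁ R₁) (h2 : Ln d P g (Polynomial.X - C x) R)
    (hg : g.eval x = y) (hc : Clean N g R) :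
    cv hX hN v x y = lim1 hX v (LR hX hN g₁ R₁) - lim1 hX v (LR hX hN g R) := by
  obtain ⟨g₁', R₁', g', R', h1', hc1', h2', hg', hc', he⟩ := zq_spec hX hN h
  rw [cv, he, map_sub, line_indep hX hN monic_one h1' h1 (one_dvd _) hc1' hc1 v,
    line_indep hX hN (monic_X_sub_C x) h2' h2 (dvd_of_eval hg' hg) hc' hc v]

/-- If the coordinates do not all vanish at the point, its class is the class of its image: the line
through the point is clean with the point, `LR g ((x - x₀) R) = cyp x₀ y₀ + LR g R`. -/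
theorem ck_of_ne (hX : Hom X) {P : k[X]} {N : Mp k m} (hN : OkH d P N X) {x y : k}
    (h : y ^ 2 = P.eval x) (hne : N.co x y ≠ 0) : ck hX hN x y = cl1 X (cyp hX hN x y) := by
  obtain ⟨g, R, h2, hg, -, -, hc⟩ := exists_clean hN h ∅
  obtain ⟨h1, hc1, he⟩ := line_mul hX hN h2 hg hc hne
  rw [ck_spec hX hN h h1 hc1 h2 hg hc, he, map_add, add_sub_cancel_right]

theorem cv_of_ne (hX : Hom X) {P : (Om k)[X]} {N : Mp (Om k) m} (hN : OkH d P N X)
    (v : Place k (Om k)) {x y : Om k} (h : y ^ 2 = P.eval x) (hne : N.co x y ≠ 0) :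
    cv hX hN v x y = lim1 hX v (cyp hX hN x y) := by
  obtain ⟨g, R, h2, hg, -, -, hc⟩ := exists_clean hN h ∅
  obtain ⟨h1, hc1, he⟩ := line_mul hX hN h2 hg hc hne
  rw [cv_spec hX hN v h h1 hc1 h2 hg hc, he, map_add, add_sub_cancel_right]

end Pool.Agent.GTM
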