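import Pool.Agent.GT.Rat1Def

/-!
# Zero-cycles with coefficients in a field of characteristic zero: definitions
-/

set_option autoImplicit false

noncomputable section

namespace Pool.Agent.GTM

open Pool.Agent.ZCyc Pool.Agent.Dess Pool.Agent.GT
open scoped Classical LinearAlgebra.Projectivization

/-- the exterior product of cycles with coefficients in `R` -/
def extR {R : Type} [CommRing R] {T : Type} {n : ℕ} (z : Fin n → (T →₀ R)) : (Fin n → T) →₀ R :=
  ∑ x ∈ Fintype.piFinset fun j => (z j).support, Finsupp.single x (∏ j, z j (x j))

/-- a cycle with rational coefficients as a cycle with coefficients in `R` -/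
def toR (R : Type) [Field R] [CharZero R] {T : Type} : (T →₀ ℚ) →ₗ[ℚ] (T →₀ R) :=
  Finsupp.mapRange.linearMap (Algebra.linearMap ℚ R)

variable {k : Type} [Field k] {m : ℕ}

/-- The cycles on the product (over `ι`) with coefficients in `R` which are rationally equivalent to
zero. -/
def RatR (R : Type) [Field R] [CharZero R] (X : Set (MvPolynomial (Fin (m + 1)) k)) (ι : Type) :
    Submodule R ((ι → Pt X k) →₀ R) :=
  Submodule.span R (toR R '' (Rat X ι : Set ((ι → Pt X k) →₀ ℚ)))

/-- The cycles on the variety itself with coefficients in `R` which are rationally equivalent to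
zero. -/
def RatR1 (R : Type) [Field R] [CharZero R] (X : Set (MvPolynomial (Fin (m + 1)) k)) :
    Submodule R (Pt X k →₀ R) :=
  Submodule.span R (toR R '' (Rat1 X : Set (Pt X k →₀ ℚ)))

end Pool.Agent.GTM
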