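import Pool.Agent.GT.Cov
import Pool.Agent.GTM.CoADef

/-!
# Zero-cycles with coefficients in a field of characteristic zero
-/

set_option autoImplicit false

noncomputable section

namespace Pool.Agent.GTM

open Pool.Agent.ZCyc Pool.Agent.Dess Pool.Agent.GT
open scoped Classical LinearAlgebra.Projectivization

section alg

variable {R : Type} [Field R] [CharZero R] {T : Type} {n : ℕ}

theorem toR_apply (z : T →₀ ℚ) (x : T) : toR R z x = algebraMap ℚ R (z x) := rfl

theorem toR_single (x : T) (a : ℚ) :
    toR R (Finsupp.single x a) = Finsupp.single x (algebraMap ℚ R a) := by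
  refine Finsupp.ext fun y => ?_
  rw [toR_apply, Finsupp.single_apply, Finsupp.single_apply]
  split_ifs
  · rfl
  · exact map_zero _

theorem extR_apply (z : Fin n → (T →₀ R)) (x : Fin n → T) : extR z x = ∏ j, z j (x j) := by
  unfold extR
  rw [Finsupp.finsetSum_apply]
  simp only [Finsupp.single_apply]
  rw [Finset.sum_ite_eq' (Fintype.piFinset fun j => (z j).support) x (fun x => ∏ j, z j (x j))]
  split_ifs with h
  · rfl
  · rw [Fintype.mem_piFinset] at h
    push Not at h
    obtain ⟨j, hj⟩ := h
    have h0 : z j (x j) = 0 := Finsupp.notMem_support_iff.1 hj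
    exact (Finset.prod_eq_zero (Finset.mem_univ j) h0).symm

private theorem coA_ext_apply (z : Fin n → (T →₀ ℚ)) (x : Fin n → T) :
    ext z x = ∏ j, z j (x j) := by
  unfold ext
  rw [Finsupp.finsetSum_apply]
  simp only [Finsupp.single_apply]
  rw [Finset.sum_ite_eq' (Fintype.piFinset fun j => (z j).support) x (fun x => ∏ j, z j (x j))]
  split_ifs with h
  · rfl
  · rw [Fintype.mem_piFinset] at h
    push Not at h
    obtain ⟨j, hj⟩ := h
    have h0 : z j (x j) = 0 := Finsupp.notMem_support_iff.1 hj
    exact (Finset.prod_eq_zero (Finset.mem_univ j) h0).symm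

/-- as `ext_linear` in `GT/ExtA.lean` -/
theorem extR_linear (R : Type) [Field R] [CharZero R] (T : Type) (n : ℕ) :
    ∃ F : MultilinearMap R (fun _ : Fin n => T →₀ R) ((Fin n → T) →₀ R), ∀ z, F z = extR z := by
  have key : ∀ (z : Fin n → (T →₀ R)) (i : Fin n) (a : T →₀ R) (x : Fin n → T),
      extR (Function.update z i a) x = a (x i) * ∏ j ∈ Finset.univ.erase i, z j (x j) := by
    intro z i a x
    rw [extR_apply, ← Finset.mul_prod_erase Finset.univ _ (Finset.mem_univ i)]
    congr 1
    · simp
    · refine Finset.prod_congr rfl fun j hj => ?_
      rw [Function.update_of_ne (Finset.ne_of_mem_erase hj)]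
  refine ⟨MultilinearMap.mk' extR ?_ ?_, fun z => rfl⟩
  · intro z i a b
    refine Finsupp.ext fun x => ?_
    rw [Finsupp.add_apply, key, key, key, Finsupp.add_apply, add_mul]
  · intro z i c a
    refine Finsupp.ext fun x => ?_
    rw [Finsupp.smul_apply, key, key, Finsupp.smul_apply, smul_eq_mul, smul_eq_mul, mul_assoc]

theorem extR_single (x : Fin n → T) (a : Fin n → R) :
    extR (fun j => Finsupp.single (x j) (a j)) = Finsupp.single x (∏ j, a j) := by
  refine Finsupp.ext fun y => ?_
  rw [extR_apply]
  by_cases h : x = y
  · subst h
    simp
  · rw [Finsupp.single_eq_of_ne (Ne.symm h)]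
    obtain ⟨j, hj⟩ := Function.ne_iff.1 h
    exact Finset.prod_eq_zero (Finset.mem_univ j) (Finsupp.single_eq_of_ne (Ne.symm hj))

theorem extR_toR (z : Fin n → (T →₀ ℚ)) : extR (fun j => toR R (z j)) = toR R (ext z) := by
  refine Finsupp.ext fun x => ?_
  rw [extR_apply, toR_apply, coA_ext_apply, map_prod]
  rfl

end alg

variable {k : Type} [Field k] {m : ℕ} {X : Set (MvPolynomial (Fin (m + 1)) k)}

variable [IsAlgClosed k] [CharZero k]

/-- the factor `j` is rationally equivalent to zero, the other factors are points -/
private theorem coA_base {R : Type} [Field R] [CharZero R] (hX : Hom X) {n : ℕ}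
    (F : MultilinearMap R (fun _ : Fin n => Pt X k →₀ R) ((Fin n → Pt X k) →₀ R))
    (hF : ∀ z, F z = extR z) (j : Fin n) (x : Fin n → Pt X k) (w : Pt X k →₀ ℚ)
    (hw : w ∈ Rat1 X) :
    F (Function.update (fun i => Finsupp.single (x i) 1) j (toR R w)) ∈ RatR R X (Fin n) := by
  have h1 : Function.update (fun i => Finsupp.single (x i) (1 : R)) j (toR R w) =
      fun i => toR R (Function.update (fun i => Finsupp.single (x i) (1 : ℚ)) j w i) := by
    funext i
    by_cases h : i = j
    · subst h
      simp
    · rw [Function.update_of_ne h, Function.update_of_ne h, toR_single, map_one]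
  rw [hF, h1, extR_toR]
  refine Submodule.subset_span ⟨_, ?_, rfl⟩
  refine ext_rat hX _ j ?_
  rw [Function.update_self]
  exact mem_rat1.1 hw

private theorem coA_step {R : Type} [Field R] [CharZero R] (hX : Hom X) {n : ℕ}
    (F : MultilinearMap R (fun _ : Fin n => Pt X k →₀ R) ((Fin n → Pt X k) →₀ R))
    (hF : ∀ z, F z = extR z) (j : Fin n) (w : Pt X k →₀ ℚ)
    (hw : w ∈ Rat1 X) (T : Finset (Fin n)) :
    ∀ z : Fin n → (Pt X k →₀ R), (∀ i ∉ T, i ≠ j → ∃ x, z i = Finsupp.single x 1) →
      F (Function.update z j (toR R w)) ∈ RatR R X (Fin n) := by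
  induction T using Finset.induction_on with
  | empty =>
    intro z hz
    by_cases hne : Nonempty (Pt X k)
    · obtain ⟨p⟩ := hne
      have h1 : ∀ i, ∃ x, i ≠ j → z i = Finsupp.single x 1 := by
        intro i
        by_cases h : i = j
        · exact ⟨p, fun h' => absurd h h'⟩
        · obtain ⟨x, hx⟩ := hz i (Finset.notMem_empty i) h
          exact ⟨x, fun _ => hx⟩
      choose x hx using h1
      have h2 : Function.update z j (toR R w) =
          Function.update (fun i => Finsupp.single (x i) 1) j (toR R w) := by
        funext i
        by_cases h : i = j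
        · subst h
          simp
        · simp [Function.update_of_ne h, hx i h]
      rw [h2]
      exact coA_base hX F hF j x w hw
    · have h3 : toR R w = 0 := by
        refine Finsupp.ext fun q => ?_
        exact absurd ⟨q⟩ hne
      rw [h3, F.map_update_zero]
      exact Submodule.zero_mem _
  | insert a T _ ih =>
    intro z hz
    by_cases haj : a = j
    · subst haj
      refine ih z fun i hi hij => hz i (fun h => ?_) hij
      rcases Finset.mem_insert.1 h with h | h
      · exact hij h
      · exact hi h
    · have key : ∀ u : Pt X k →₀ R, F (Function.update (Function.update z j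
          (toR R w)) a u) ∈ RatR R X (Fin n) := by
        intro u
        induction u using Finsupp.induction_linear with
        | zero =>
          rw [F.map_update_zero]
          exact Submodule.zero_mem _
        | add u u' hu hu' =>
          rw [F.map_update_add]
          exact Submodule.add_mem _ hu hu'
        | single p c =>
          have h1 : Finsupp.single p c = c • Finsupp.single p (1 : R) := by simp
          rw [h1, F.map_update_smul]
          refine Submodule.smul_mem _ _ ?_
          rw [Function.update_comm (Ne.symm haj)]
          refine ih _ fun i hi hij => ?_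
          by_cases hia : i = a
          · subst hia
            exact ⟨p, by simp⟩
          · rw [Function.update_of_ne hia]
            exact hz i (fun h => (Finset.mem_insert.1 h).elim hia hi) hij
      have h2 := key (z a)
      have h3 : Function.update (Function.update z j (toR R w)) a (z a) =
          Function.update z j (toR R w) := by
        rw [Function.update_comm (Ne.symm haj), Function.update_eq_self]
      rwa [h3] at h2

/-- If one factor is rationally equivalent to zero then the product is rationally equivalent to
zero. Proof: by `R`-linearity in every factor (`extR_linear`) the other factors may be taken to be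
points with coefficient `1`, and this factor `toR R w` with `w ∈ Rat1 X` (`Submodule.span_induction`);
then `extR_toR` and `GT.ext_rat` (with `mem_rat1`). The pattern of the induction over the factors is
`Ext_step` in `GT/Ext.lean` (the set `T` of the factors which are not yet points). -/
theorem extR_rat {R : Type} [Field R] [CharZero R] (hX : Hom X) {n : ℕ}
    (z : Fin n → (Pt X k →₀ R)) (j : Fin n) (h : z j ∈ RatR1 R X) : extR z ∈ RatR R X (Fin n) := by
  obtain ⟨F, hF⟩ := extR_linear R (Pt X k) n
  have hle : RatR1 R X ≤ Submodule.comap (F.toLinearMap z j) (RatR R X (Fin n)) := by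
    refine Submodule.span_le.2 ?_
    rintro _ ⟨w, hw, rfl⟩
    change F (Function.update z j (toR R w)) ∈ RatR R X (Fin n)
    exact coA_step hX F hF j w hw Finset.univ z fun i hi => absurd (Finset.mem_univ i) hi
  have h2 : F (Function.update z j (z j)) ∈ RatR R X (Fin n) := hle h
  rwa [Function.update_eq_self, hF] at h2

end Pool.Agent.GTM
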