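import Pool.Agent.GTM.ConvP

/-!
# Linear combinations of shifts
-/

set_option autoImplicit false

noncomputable section

namespace Pool.Agent.GTM

open Pool.Agent.ZCyc Pool.Agent.Dess Pool.Agent.GT Polynomial
open Pool.Agent.VFP (Om tt)
open scoped Classical LinearAlgebra.Projectivization

variable {n ν : ℕ} [NeZero ν] {V V' W : Type} [AddCommGroup V] [Module ℚ V] [AddCommGroup W]
  [Module ℚ W]

/-- The linear combination of the shifts of a function on `ZMod ν` with the coefficients `c`. -/
def lcs (c : ZMod ν → ℚ) : (ZMod ν → W) →ₗ[ℚ] (ZMod ν → W) where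
  toFun := fun f l => ∑ i, c i • f (l + i)
  map_add' := by
    intro f g
    funext l
    simp only [Pi.add_apply, smul_add, Finset.sum_add_distrib]
  map_smul' := by
    intro q f
    funext l
    simp only [Pi.smul_apply, RingHom.id_apply, Finset.smul_sum]
    exact Finset.sum_congr rfl fun i _ => smul_comm _ _ _

theorem lcs_apply (c : ZMod ν → ℚ) (f : ZMod ν → W) (l : ZMod ν) :
    lcs c f l = ∑ i, c i • f (l + i) := rfl

theorem lcs_shift (c : ZMod ν → ℚ) (f : ZMod ν → W) :
    lcs c (shift ν W f) = shift ν W (lcs c f) := by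
  funext l
  change ∑ i, c i • f (l + i + 1) = ∑ i, c i • f (l + 1 + i)
  refine Finset.sum_congr rfl fun i _ => ?_
  rw [add_right_comm]

/-- the coefficients of the identity -/
theorem lcs_single (f : ZMod ν → W) : lcs (Pi.single 0 1) f = f := by
  funext l
  rw [lcs_apply, Finset.sum_eq_single 0]
  · rw [Pi.single_eq_same, one_smul, add_zero]
  · intro i _ hi
    rw [Pi.single_eq_of_ne hi, zero_smul]
  · intro h
    exact absurd (Finset.mem_univ _) h

/-- the composition -/
theorem lcs_lcs (c c' : ZMod ν → ℚ) (f : ZMod ν → W) :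
    lcs c (lcs c' f) = lcs (fun l => ∑ i, c i * c' (l - i)) f := by
  funext l
  simp only [lcs_apply, Finset.smul_sum, Finset.sum_smul]
  rw [Finset.sum_comm (s := Finset.univ) (t := Finset.univ)
    (f := fun (t i : ZMod ν) => (c i * c' (t - i)) • f (l + t))]
  refine Finset.sum_congr rfl fun i _ => ?_
  rw [← Equiv.sum_comp (Equiv.subRight i)]
  refine Finset.sum_congr rfl fun t _ => ?_
  rw [Equiv.subRight_apply, smul_smul, add_assoc, add_sub_cancel]

omit [NeZero ν] [AddCommGroup V] [Module ℚ V] in
private theorem lcs_upd (w : Fin n → ZMod ν → V) (j : Fin n) (u : ZMod ν → V)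
    (a : Fin n → ZMod ν) : (fun i => (Function.update w j u) i (a i)) =
      Function.update (fun i => w i (a i)) j (u (a j)) := by
  funext i
  by_cases h : i = j
  · subst h
    simp
  · rw [Function.update_of_ne h, Function.update_of_ne h]

/-- substitution `a j ↦ a j + t` -/
theorem conv_shift (E : MultilinearMap ℚ (fun _ : Fin n => V) W) (w : Fin n → ZMod ν → V)
    (j : Fin n) (t l : ZMod ν) :
    conv E (Function.update w j fun a => w j (a + t)) l = conv E w (l + t) := by
  unfold conv
  refine Finset.sum_equiv (Equiv.addRight (Pi.single j t : Fin n → ZMod ν)) ?_ ?_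
  · intro a
    have h1 : ∑ i, (a + (Pi.single j t : Fin n → ZMod ν)) i = ∑ i, a i + t := by
      simp only [Pi.add_apply, Finset.sum_add_distrib]
      congr 1
      rw [Finset.sum_eq_single j]
      · rw [Pi.single_eq_same]
      · intro i _ hi
        rw [Pi.single_eq_of_ne hi]
      · intro hj
        exact absurd (Finset.mem_univ j) hj
    change a ∈ Finset.univ.filter _ ↔
      a + (Pi.single j t : Fin n → ZMod ν) ∈ Finset.univ.filter _
    rw [Finset.mem_filter, Finset.mem_filter, h1]
    simp
  · intro a _
    congr 1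
    funext i
    change _ = w i (a i + (Pi.single j t : Fin n → ZMod ν) i)
    by_cases h : i = j
    · subst h
      simp
    · rw [Function.update_of_ne h, Pi.single_eq_of_ne h, add_zero]

theorem conv_lcs (E : MultilinearMap ℚ (fun _ : Fin n => V) W) (c : ZMod ν → ℚ)
    (w : Fin n → ZMod ν → V) (j : Fin n) :
    conv E (Function.update w j (lcs c (w j))) = lcs c (conv E w) := by
  funext l
  rw [lcs_apply]
  have h1 : ∀ i, conv E w (l + i) = conv E (Function.update w j fun a => w j (a + i)) l :=
    fun i => (conv_shift E w j i l).symm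
  simp only [h1]
  unfold conv
  simp only [Finset.smul_sum]
  rw [Finset.sum_comm]
  refine Finset.sum_congr rfl fun a _ => ?_
  rw [lcs_upd, lcs_apply]
  have h2 : ∀ i : ZMod ν, (E fun i_1 => (Function.update w j fun a => w j (a + i)) i_1 (a i_1)) =
      E (Function.update (fun i => w i (a i)) j (w j (a j + i))) := by
    intro i
    rw [lcs_upd]
  simp only [h2]
  have h3 := map_sum (E.toLinearMap (fun i => w i (a i)) j) (fun i => c i • w j (a j + i))
    Finset.univ
  simp only [map_smul, MultilinearMap.toLinearMap_apply] at h3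
  exact h3

/-- a change of one factor -/
theorem dcv_lcs (E : MultilinearMap ℚ (fun _ : Fin n => V) W) (c : ZMod ν → ℚ)
    (w : Fin n → ZMod ν → V) (j : Fin n) :
    dcv E (Function.update w j (lcs c (w j))) = lcs c (dcv E w) := by
  have h1 : ∀ w : Fin n → ZMod ν → V, dcv E w = conv E w - shift ν W (conv E w) := by
    intro w
    rfl
  rw [h1, h1, map_sub, conv_lcs, lcs_shift]

end Pool.Agent.GTM
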