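import Pool.Agent.GTM.CoA
import Pool.Agent.GTM.Lcs

/-!
# Products of eigenvectors
-/

set_option autoImplicit false

noncomputable section

namespace Pool.Agent.GTM

open Pool.Agent.ZCyc Pool.Agent.Dess Pool.Agent.GT
open scoped Classical LinearAlgebra.Projectivization

variable {R : Type} [Field R] [CharZero R] {n ν : ℕ} [NeZero ν]

/-- The eigenvector with the eigenvalue `ω` of the rotation: `∑ a, ω ^ (- a) w(a)`. -/
def eig {T : Type} (ω : R) (w : ZMod ν → (T →₀ ℚ)) : T →₀ R :=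
  ∑ a : ZMod ν, (ω ^ a.val)⁻¹ • toR R (w a)

omit [CharZero R] in
/-- Powers of `ω`, and the index `l = ∑ a j`. -/
theorem prod_pow_val {ω : R} (hω : ω ^ ν = 1) (a : Fin n → ZMod ν) :
    ∏ j, (ω ^ (a j).val)⁻¹ = (ω ^ (∑ j, a j).val)⁻¹ := by
  have h1 : (∑ j, a j) = ((∑ j, (a j).val : ℕ) : ZMod ν) := by
    rw [Nat.cast_sum]
    exact Finset.sum_congr rfl fun j _ => (ZMod.natCast_zmod_val (a j)).symm
  rw [Finset.prod_inv_distrib, Finset.prod_pow_eq_pow_sum, h1, ZMod.val_natCast,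
    ← pow_eq_pow_mod _ hω]

/-- The product of eigenvectors (`extR_linear`, `MultilinearMap.map_sum`, `map_smul_univ`,
`extR_toR`, `prod_pow_val`; the sum over all `a` by the values `l` of `∑ j, a j`). -/
theorem extR_eig {T : Type} {ω : R} (hω : ω ^ ν = 1) (w : Fin n → ZMod ν → (T →₀ ℚ)) :
    extR (fun j => eig ω (w j)) = ∑ l : ZMod ν, (ω ^ l.val)⁻¹ •
      toR R (∑ a ∈ Finset.univ.filter (fun a : Fin n → ZMod ν => ∑ j, a j = l),
        ext fun j => w j (a j)) := by
  obtain ⟨F, hF⟩ := extR_linear R T n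
  have h1 : extR (fun j => eig ω (w j)) = ∑ a : Fin n → ZMod ν, (ω ^ (∑ j, a j).val)⁻¹ •
      toR R (ext fun j => w j (a j)) := by
    rw [← hF]
    unfold eig
    rw [MultilinearMap.map_sum]
    refine Finset.sum_congr rfl fun a _ => ?_
    rw [F.map_smul_univ (fun j => (ω ^ (a j).val)⁻¹) (fun j => toR R (w j (a j))),
      prod_pow_val hω, hF, extR_toR]
  rw [h1, ← Finset.sum_fiberwise Finset.univ (fun a : Fin n → ZMod ν => ∑ j, a j)]
  refine Finset.sum_congr rfl fun l _ => ?_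
  rw [map_sum, Finset.smul_sum]
  refine Finset.sum_congr rfl fun a ha => ?_
  rw [(Finset.mem_filter.1 ha).2]

/-- the shift of the index -/
private theorem sum_shift {W : Type} [AddCommGroup W] [Module R W] {ω : R} (hω : ω ^ ν = 1)
    (f : ZMod ν → W) (i : ZMod ν) : ∑ l : ZMod ν, (ω ^ l.val)⁻¹ • f (l + i) =
      ω ^ i.val • ∑ l : ZMod ν, (ω ^ l.val)⁻¹ • f l := by
  have h0 : ω ≠ 0 := by
    rintro rfl
    rw [zero_pow (NeZero.ne ν)] at hω
    exact zero_ne_one hω
  have h1 : ∀ l : ZMod ν, ω ^ (l + i).val = ω ^ l.val * ω ^ i.val := by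
    intro l
    rw [ZMod.val_add, ← pow_eq_pow_mod _ hω, pow_add]
  rw [← Equiv.sum_comp (Equiv.addRight i) (fun l => (ω ^ l.val)⁻¹ • f l), Finset.smul_sum]
  refine Finset.sum_congr rfl fun l _ => ?_
  rw [Equiv.coe_addRight, smul_smul, h1, mul_inv, mul_comm (ω ^ i.val), mul_assoc,
    inv_mul_cancel₀ (pow_ne_zero _ h0), mul_one]

/-- The sum of the coefficients times powers of `ω`. -/
theorem sum_lcs {W : Type} [AddCommGroup W] [Module ℚ W] [Module R W] [IsScalarTower ℚ R W]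
    {ω : R} (hω : ω ^ ν = 1) (c : ZMod ν → ℚ) (f : ZMod ν → W) :
    ∑ l : ZMod ν, (ω ^ l.val)⁻¹ • lcs c f l =
      (∑ i : ZMod ν, algebraMap ℚ R (c i) * ω ^ i.val) • ∑ l : ZMod ν, (ω ^ l.val)⁻¹ • f l := by
  have h1 : ∀ l, (ω ^ l.val)⁻¹ • lcs c f l = ∑ i, (ω ^ l.val)⁻¹ • c i • f (l + i) :=
    fun l => by rw [lcs_apply, Finset.smul_sum]
  rw [Finset.sum_congr rfl fun l _ => h1 l, Finset.sum_comm, Finset.sum_smul]
  refine Finset.sum_congr rfl fun i _ => ?_
  rw [mul_smul, ← sum_shift hω f i, Finset.smul_sum]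
  refine Finset.sum_congr rfl fun l _ => ?_
  rw [← algebraMap_smul R (c i) (f (l + i)), smul_comm]

variable {k : Type} [Field k] [IsAlgClosed k] [CharZero k] {m : ℕ}
  {X : Set (MvPolynomial (Fin (m + 1)) k)}

/-- If `lcs c (dcv …) = 0` for the rational classes, and `∑ i, c i ω ^ i ≠ 0`, `ω ≠ 1`, then the
alternating sum of the product of the eigenvectors is zero. Proof. The coefficient extension
induces a `ℚ`-linear map from `CH X (Fin n)` to `(_ →₀ R) ⧸ RatR R X (Fin n)`. The alternating sum is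
`∑ l, ω ^ (- l) •` the image of `conv (Alt (Ext hX n)) … l` (`extR_eig` for every permutation: the index
set of the sum is invariant under permutations; `cl_alt`, `Ext_cl`). Then `sum_lcs` (for `dcv`, and for
`dcv = lcs (δ_0 - δ_1) conv`) shows `(∑ c i ω ^ i) (1 - ω) •` this sum is zero. -/
theorem alt_eig (hX : Hom X) {ω : R} (hω : ω ^ ν = 1) (hω1 : ω ≠ 1) (c : ZMod ν → ℚ)
    (hc : ∑ i : ZMod ν, algebraMap ℚ R (c i) * ω ^ i.val ≠ 0)
    (w : Fin n → ZMod ν → (Pt X k →₀ ℚ))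
    (h : lcs c (dcv (Alt (Ext hX n)) fun j a => cl1 X (w j a)) = 0) :
    ∑ π : Equiv.Perm (Fin n), ((Equiv.Perm.sign π : ℤˣ) : ℤ) • extR (fun j => eig ω (w (π j))) ∈
      RatR R X (Fin n) := by
  have hker : Rat X (Fin n) ≤ LinearMap.ker
      (((RatR R X (Fin n)).mkQ.restrictScalars ℚ).comp (toR R)) := by
    intro z hz
    rw [LinearMap.mem_ker]
    change (RatR R X (Fin n)).mkQ (toR R z) = 0
    rw [Submodule.mkQ_apply, Submodule.Quotient.mk_eq_zero]
    exact Submodule.subset_span ⟨z, hz, rfl⟩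
  let Φ : CH X (Fin n) →ₗ[ℚ] (((Fin n → Pt X k) →₀ R) ⧸ RatR R X (Fin n)) :=
    (Rat X (Fin n)).liftQ (((RatR R X (Fin n)).mkQ.restrictScalars ℚ).comp (toR R)) hker
  have hΦ : ∀ z, Φ (Submodule.Quotient.mk z) = (RatR R X (Fin n)).mkQ (toR R z) := fun z => rfl
  let C : ZMod ν → CH X (Fin n) := conv (Alt (Ext hX n)) fun j a => cl1 X (w j a)
  have hC : ∀ l, C l = Submodule.Quotient.mk (∑ b ∈ Finset.univ.filter
      (fun b : Fin n → ZMod ν => ∑ j, b j = l), ∑ π : Equiv.Perm (Fin n),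
        ((Equiv.Perm.sign π : ℤˣ) : ℤ) • ext (fun j => w (π j) (b (π j)))) := by
    intro l
    rw [← Submodule.mkQ_apply, map_sum]
    refine Finset.sum_congr rfl fun b _ => ?_
    rw [Submodule.mkQ_apply, cl_alt hX fun j => w j (b j)]
  -- the class of the alternating sum
  have hS : (RatR R X (Fin n)).mkQ (∑ π : Equiv.Perm (Fin n), ((Equiv.Perm.sign π : ℤˣ) : ℤ) •
      extR (fun j => eig ω (w (π j)))) = ∑ l : ZMod ν, (ω ^ l.val)⁻¹ • Φ (C l) := by
    have h1 : ∀ (π : Equiv.Perm (Fin n)) (l : ZMod ν),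
        ∑ a ∈ Finset.univ.filter (fun a : Fin n → ZMod ν => ∑ j, a j = l),
          ext (fun j => w (π j) (a j)) =
        ∑ b ∈ Finset.univ.filter (fun b : Fin n → ZMod ν => ∑ j, b j = l),
          ext (fun j => w (π j) (b (π j))) := by
      intro π l
      symm
      refine Finset.sum_equiv (Equiv.arrowCongr π⁻¹ (Equiv.refl (ZMod ν))) ?_ ?_
      · intro b
        rw [Finset.mem_filter, Finset.mem_filter]
        have h2 : ∑ j, (Equiv.arrowCongr π⁻¹ (Equiv.refl (ZMod ν)) b) j = ∑ j, b j :=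
          Equiv.sum_comp π b
        rw [h2]
        simp
      · intro b _
        rfl
    have h2 : ∀ l, Φ (C l) = ∑ π : Equiv.Perm (Fin n), ((Equiv.Perm.sign π : ℤˣ) : ℤ) •
        (RatR R X (Fin n)).mkQ (toR R (∑ a ∈ Finset.univ.filter
          (fun a : Fin n → ZMod ν => ∑ j, a j = l), ext (fun j => w (π j) (a j)))) := by
      intro l
      rw [hC, hΦ, Finset.sum_comm, map_sum, map_sum]
      refine Finset.sum_congr rfl fun π _ => ?_
      rw [h1 π l, ← Finset.smul_sum, map_zsmul, map_zsmul]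
    rw [map_sum]
    simp only [h2, Finset.smul_sum]
    rw [Finset.sum_comm]
    refine Finset.sum_congr rfl fun π _ => ?_
    rw [map_zsmul, extR_eig hω, map_sum, Finset.smul_sum]
    refine Finset.sum_congr rfl fun l _ => ?_
    rw [map_smul, smul_comm]
  have h3 : ∀ l, lcs c (fun l => Φ (C l) - Φ (C (l + 1))) l = 0 := by
    intro l
    have h4 := congrArg Φ (congrFun h l)
    rw [lcs_apply, map_sum, Pi.zero_apply, map_zero] at h4
    rw [lcs_apply, ← h4]
    refine Finset.sum_congr rfl fun i _ => ?_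
    rw [map_smul]
    change _ = c i • Φ (C (l + i) - C (l + i + 1))
    rw [map_sub]
  have h5 := sum_lcs hω c fun l => Φ (C l) - Φ (C (l + 1))
  simp only [h3, smul_zero, Finset.sum_const_zero] at h5
  have h6 := (smul_eq_zero.1 h5.symm).resolve_left hc
  simp only [smul_sub, Finset.sum_sub_distrib] at h6
  have h7 : ω ^ (1 : ZMod ν).val = ω := by
    have h8 : (1 : ZMod ν).val = 1 % ν := ZMod.val_one_eq_one_mod ν
    rw [h8, ← pow_eq_pow_mod _ hω, pow_one]
  rw [sum_shift hω (fun l => Φ (C l)) 1, h7, ← hS, ← one_smul R ((RatR R X (Fin n)).mkQ _),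
    smul_smul, mul_one, ← sub_smul] at h6
  have h9 := (smul_eq_zero.1 h6).resolve_left (sub_ne_zero.2 hω1.symm)
  rwa [Submodule.mkQ_apply, Submodule.Quotient.mk_eq_zero] at h9

end Pool.Agent.GTM
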