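import Pool.Agent.GTM.CoA

/-!
# Elements of the group algebra of the symmetric group, coefficients in a field
-/

set_option autoImplicit false

noncomputable section

namespace Pool.Agent.GTM

open Pool.Agent.ZCyc Pool.Agent.Dess Pool.Agent.GT Pool.Agent.ZIso
open scoped Classical LinearAlgebra.Projectivization

variable {R : Type} [Field R] [CharZero R] {k : Type} [Field k] [IsAlgClosed k] [CharZero k]
  {m : ℕ} {X : Set (MvPolynomial (Fin (m + 1)) k)}

/-- coefficients and maps of points -/
private theorem toR_mapDomain {T T' : Type} (g : T → T') (z : T →₀ ℚ) :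
    toR R (Finsupp.mapDomain g z) = Finsupp.mapDomain g (toR R z) := by
  induction z using Finsupp.induction_linear with
  | zero => rw [Finsupp.mapDomain_zero, map_zero, map_zero, Finsupp.mapDomain_zero]
  | add u v hu hv =>
    rw [Finsupp.mapDomain_add, map_add, hu, hv, map_add, Finsupp.mapDomain_add]
  | single x a =>
    rw [Finsupp.mapDomain_single, toR_single, toR_single, Finsupp.mapDomain_single]

omit [IsAlgClosed k] [CharZero k] in
/-- a map of points which preserves rational equivalence does so for coefficients in `R` -/
private theorem ratR_map {ι ι' : Type} (g : (ι → Pt X k) → (ι' → Pt X k))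
    (hg : Rat X ι ≤ Submodule.comap (Finsupp.lmapDomain ℚ ℚ g) (Rat X ι'))
    {z : (ι → Pt X k) →₀ R} (hz : z ∈ RatR R X ι) :
    Finsupp.mapDomain g z ∈ RatR R X ι' := by
  have h : RatR R X ι ≤ Submodule.comap (Finsupp.lmapDomain R R g) (RatR R X ι') := by
    refine Submodule.span_le.2 ?_
    rintro _ ⟨w, hw, rfl⟩
    change Finsupp.mapDomain g (toR R w) ∈ RatR R X ι'
    rw [← toR_mapDomain]
    exact Submodule.subset_span ⟨_, hg hw, rfl⟩
  exact h hz

omit [IsAlgClosed k] [CharZero k] in
private theorem rat_perm {n : ℕ} (π : Equiv.Perm (Fin n)) :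
    Rat X (Fin n) ≤ Submodule.comap
      (Finsupp.lmapDomain ℚ ℚ fun (x : Fin n → Pt X k) j => x (π j)) (Rat X (Fin n)) := by
  refine Submodule.span_le.2 ?_
  rintro _ ⟨K, i1, i2, i3, xK, y, f, D, hf, hD, hval, rfl⟩
  change Finsupp.lmapDomain ℚ ℚ (fun (x : Fin n → Pt X k) j => x (π j)) _ ∈ Rat X (Fin n)
  rw [map_finsuppSum]
  refine Submodule.subset_span ⟨K, i1, i2, i3, fun j => xK (π j), fun v j => y v (π j), f, D,
    hf, hD, fun v i => hval v (π i), ?_⟩
  refine Finsupp.sum_congr fun v _ => ?_
  rw [Finsupp.lmapDomain_apply, Finsupp.mapDomain_single]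

omit [IsAlgClosed k] [CharZero k] in
/-- Insertion of constant factors and rational equivalence. -/
private theorem rat_ins (hX : Hom X) {N r : ℕ} (e : Fin N ↪ Fin r) (c : Fin r → Pt X k) :
    Rat X (Fin N) ≤ Submodule.comap
      (Finsupp.lmapDomain ℚ ℚ fun x : Fin N → Pt X k => Function.extend e x c) (Rat X (Fin r)) := by
  refine Submodule.span_le.2 ?_
  rintro _ ⟨K, i1, i2, i3, xK, y, f, D, hf, hD, hval, rfl⟩
  change Finsupp.lmapDomain ℚ ℚ (fun x : Fin N → Pt X k => Function.extend e x c) _ ∈
    Rat X (Fin r)
  rw [map_finsuppSum]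
  refine Submodule.subset_span ⟨K, i1, i2, i3, Function.extend e xK
    (fun i => (c i).map (Algebra.ofId k K) hX),
    fun v => Function.extend e (y v) c, f, D, hf, hD, fun v i => ?_, ?_⟩
  · by_cases h : ∃ a, e a = i
    · obtain ⟨a, rfl⟩ := h
      change IsVal v _ (Function.extend e (y v) c (e a))
      rw [e.injective.extend_apply, e.injective.extend_apply]
      exact hval v a
    · change IsVal v _ (Function.extend e (y v) c i)
      rw [Function.extend_apply' _ _ _ h, Function.extend_apply' _ _ _ h]
      exact isVal_const
  · refine Finsupp.sum_congr fun v _ => ?_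
    rw [Finsupp.lmapDomain_apply, Finsupp.mapDomain_single]

/-- Insertion of constant factors and exterior products. -/
private theorem extR_ins {T : Type} {N r : ℕ} (e : Fin N ↪ Fin r) (c : Fin r → T)
    (z : Fin N → (T →₀ R)) :
    extR (Function.extend e z fun j => Finsupp.single (c j) 1) =
      Finsupp.mapDomain (fun x => Function.extend e x c) (extR z) := by
  have hinj : Function.Injective (fun x : Fin N → T => Function.extend e x c) := by
    intro a b hab
    funext i
    have h1 := congrFun hab (e i)
    simpa [e.injective.extend_apply] using h1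
  refine Finsupp.ext fun y => ?_
  rw [extR_apply]
  by_cases hy : ∀ j, (¬ ∃ a, e a = j) → y j = c j
  · have h1 : y = Function.extend e (fun a => y (e a)) c := by
      funext j
      by_cases hj : ∃ a, e a = j
      · obtain ⟨a, rfl⟩ := hj
        rw [e.injective.extend_apply]
      · rw [Function.extend_apply' _ _ _ hj]
        exact hy j hj
    have h2 : Finsupp.mapDomain (fun x : Fin N → T => Function.extend e x c) (extR z) y =
        extR z (fun a => y (e a)) := by
      conv_lhs => rw [h1]
      exact Finsupp.mapDomain_apply hinj (extR z) (fun a => y (e a))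
    rw [h2, extR_apply, ← Finset.prod_subset (Finset.subset_univ (Finset.univ.map e))]
    · rw [Finset.prod_map]
      exact Finset.prod_congr rfl fun a _ => by rw [e.injective.extend_apply]
    · intro j _ hj
      have hj' : ¬ ∃ a, e a = j := by
        rintro ⟨a, rfl⟩
        exact hj (Finset.mem_map_of_mem e (Finset.mem_univ a))
      rw [Function.extend_apply' _ _ _ hj', hy j hj', Finsupp.single_eq_same]
  · push Not at hy
    obtain ⟨j, hj, hne⟩ := hy
    have hj' : ¬ ∃ a, e a = j := fun ⟨a, ha⟩ => hj a ha
    rw [Finset.prod_eq_zero (Finset.mem_univ j), Finsupp.mapDomain_of_notMem_range]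
    · rintro ⟨x, hx⟩
      apply hne
      rw [← hx]
      exact Function.extend_apply' _ _ _ hj'
    · rw [Function.extend_apply' _ _ _ hj']
      exact Finsupp.single_eq_of_ne hne

/-- permuting the factors -/
theorem extR_perm_rat {n : ℕ} (z : (Fin n → Pt X k) →₀ R) (hz : z ∈ RatR R X (Fin n))
    (π : Equiv.Perm (Fin n)) :
    Finsupp.mapDomain (fun x j => x (π j)) z ∈ RatR R X (Fin n) :=
  ratR_map _ (rat_perm π) hz

theorem extR_perm {T : Type} {n : ℕ} (z : Fin n → (T →₀ R)) (π : Equiv.Perm (Fin n)) :
    extR (fun j => z (π j)) = Finsupp.mapDomain (fun x j => x (π j)) (extR z) := by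
  refine Finsupp.ext fun y => ?_
  have hinj : Function.Injective (fun (x : Fin n → T) j => x (π j)) := by
    intro a b hab
    funext i
    have h1 := congrFun hab (π.symm i)
    simpa using h1
  have hy : y = (fun (x : Fin n → T) j => x (π j)) (fun j => y (π.symm j)) := by
    funext j
    simp
  have h2 : Finsupp.mapDomain (fun (x : Fin n → T) j => x (π j)) (extR z) y =
      extR z (fun j => y (π.symm j)) := by
    conv_lhs => rw [hy]
    exact Finsupp.mapDomain_apply hinj (extR z) (fun j => y (π.symm j))
  rw [h2, extR_apply, extR_apply]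
  refine Fintype.prod_equiv π _ _ fun j => ?_
  rw [Equiv.symm_apply_apply]

private theorem sum_fixing {M : Type*} [AddCommMonoid M] {r : ℕ} {J : Finset (Fin r)} {n : ℕ}
    (hJ : J.card = n) (g : Equiv.Perm (Fin r) → M) :
    ∑ π ∈ fixing J, g π = ∑ τ : Equiv.Perm (Fin n),
      g (τ.extendDomain (J.orderIsoOfFin hJ).toEquiv) := by
  symm
  refine Finset.sum_bij (fun τ _ => τ.extendDomain (J.orderIsoOfFin hJ).toEquiv) ?_ ?_ ?_ ?_
  · intro τ _
    unfold fixing
    rw [Finset.mem_filter]
    refine ⟨Finset.mem_univ _, fun i hi => ?_⟩
    exact Equiv.Perm.extendDomain_apply_not_subtype τ _ hi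
  · intro τ _ τ' _ h
    exact Equiv.Perm.extendDomainHom_injective (J.orderIsoOfFin hJ).toEquiv h
  · intro π hπ
    unfold fixing at hπ
    rw [Finset.mem_filter] at hπ
    have hmem : ∀ i, π i ∈ J ↔ i ∈ J := by
      intro i
      constructor
      · intro h
        by_contra hn
        rw [hπ.2 i hn] at h
        exact hn h
      · intro h
        by_contra hn
        have h2 := hπ.2 _ hn
        have h3 := π.injective h2
        rw [h3] at hn
        exact hn h
    refine ⟨(J.orderIsoOfFin hJ).toEquiv.permCongr.symm (π.subtypePerm hmem),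
      Finset.mem_univ _, ?_⟩
    refine Equiv.ext fun i => ?_
    by_cases hi : i ∈ J
    · obtain ⟨a, ha⟩ := (J.orderIsoOfFin hJ).toEquiv.surjective ⟨i, hi⟩
      have h1 : i = ((J.orderIsoOfFin hJ).toEquiv a : Fin r) := by rw [ha]
      conv_lhs => rw [h1]
      rw [Equiv.Perm.extendDomain_apply_image]
      simp [Equiv.permCongr, Equiv.equivCongr, ha]
    · rw [Equiv.Perm.extendDomain_apply_not_subtype _ _ hi, hπ.2 i hi]
  · intro τ _
    rfl

/-- Alternating sums over the factors in `J`: `sf_fixing` in `GT/Sft.lean` for coefficients in `R`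
(`sf_ins`, `sf_rat` of that file for coefficients in `R`; by `R`-linearity the factors outside `J` may
be taken to be points with coefficient `1`). -/
theorem fixing_extR (hX : Hom X) {N r : ℕ} {J : Finset (Fin r)} (hJ : J.card = N)
    (w : Fin r → (Pt X k →₀ R))
    (h0 : ∑ π : Equiv.Perm (Fin N), ((Equiv.Perm.sign π : ℤ) : R) •
      extR (fun a => w ((J.orderIsoOfFin hJ).toEquiv (π a) : Fin r)) ∈ RatR R X (Fin N)) :
    ∑ π ∈ fixing J, ((Equiv.Perm.sign π : ℤ) : R) • extR (w ∘ ⇑π) ∈ RatR R X (Fin r) := by
  set e : Fin N ↪ Fin r := ⟨fun a => ((J.orderIsoOfFin hJ).toEquiv a : Fin r),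
    fun _ _ h => (J.orderIsoOfFin hJ).toEquiv.injective (Subtype.ext h)⟩ with he
  have hmem : ∀ j, (∃ a, e a = j) ↔ j ∈ J := by
    intro j
    constructor
    · rintro ⟨a, rfl⟩
      exact ((J.orderIsoOfFin hJ).toEquiv a).2
    · intro hj
      obtain ⟨a, ha⟩ := (J.orderIsoOfFin hJ).toEquiv.surjective ⟨j, hj⟩
      exact ⟨a, by show (((J.orderIsoOfFin hJ).toEquiv a : Fin r)) = j; rw [ha]⟩
  obtain ⟨F, hF⟩ := extR_linear R (Pt X k) r
  -- the factors outside of `T` and `J` are points
  have key : ∀ (T : Finset (Fin r)) (w : Fin r → (Pt X k →₀ R)),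
      (∀ j ∉ T, j ∉ J → ∃ x, w j = Finsupp.single x 1) →
      ∑ τ : Equiv.Perm (Fin N), ((Equiv.Perm.sign τ : ℤ) : R) •
        extR (fun a => w (e (τ a))) ∈ RatR R X (Fin N) →
      ∑ τ : Equiv.Perm (Fin N), ((Equiv.Perm.sign τ : ℤ) : R) •
        extR (w ∘ ⇑(τ.extendDomain (J.orderIsoOfFin hJ).toEquiv)) ∈ RatR R X (Fin r) := by
    intro T
    induction T using Finset.induction_on with
    | empty =>
      intro w hw h0
      -- the case of points `c j` outside of `J`
      have hpts : ∀ c : Fin r → Pt X k, (∀ j, j ∉ J → w j = Finsupp.single (c j) 1) →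
          ∑ τ : Equiv.Perm (Fin N), ((Equiv.Perm.sign τ : ℤ) : R) •
            extR (w ∘ ⇑(τ.extendDomain (J.orderIsoOfFin hJ).toEquiv)) ∈ RatR R X (Fin r) := by
        intro c hc
        have h2 : ∀ τ : Equiv.Perm (Fin N),
            w ∘ ⇑(τ.extendDomain (J.orderIsoOfFin hJ).toEquiv) =
              Function.extend e (fun a => w (e (τ a))) fun j => Finsupp.single (c j) 1 := by
          intro τ
          funext j
          by_cases h : ∃ a, e a = j
          · obtain ⟨a, rfl⟩ := h
            rw [e.injective.extend_apply, Function.comp_apply]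
            exact congrArg w (Equiv.Perm.extendDomain_apply_image τ _ a)
          · have hj : j ∉ J := fun hj => h ((hmem j).2 hj)
            rw [Function.extend_apply' _ _ _ h, Function.comp_apply,
              Equiv.Perm.extendDomain_apply_not_subtype τ _ hj]
            exact hc j hj
        have h3 := ratR_map (R := R) _ (rat_ins hX e c) h0
        have h4 : Finsupp.mapDomain (fun x : Fin N → Pt X k => Function.extend e x c)
            (∑ τ : Equiv.Perm (Fin N), ((Equiv.Perm.sign τ : ℤ) : R) •
              extR (fun a => w (e (τ a)))) =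
            ∑ τ : Equiv.Perm (Fin N), ((Equiv.Perm.sign τ : ℤ) : R) •
              extR (w ∘ ⇑(τ.extendDomain (J.orderIsoOfFin hJ).toEquiv)) := by
          rw [← Finsupp.lmapDomain_apply R R, map_sum]
          refine Finset.sum_congr rfl fun τ _ => ?_
          rw [map_smul, h2 τ, extR_ins]
          rfl
        rwa [h4] at h3
      rcases Nat.eq_zero_or_pos r with hr | hr
      · subst hr
        exact hpts (fun j => j.elim0) fun j => j.elim0
      · by_cases hne : Nonempty (Pt X k)
        · obtain ⟨p⟩ := hne
          have h1 : ∀ j, ∃ x, j ∉ J → w j = Finsupp.single x 1 := by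
            intro j
            by_cases h : j ∈ J
            · exact ⟨p, fun h' => absurd h h'⟩
            · obtain ⟨x, hx⟩ := hw j (Finset.notMem_empty j) h
              exact ⟨x, fun _ => hx⟩
          choose c hc using h1
          exact hpts c hc
        · have hsub : ∀ u : (Fin r → Pt X k) →₀ R, u = 0 := by
            intro u
            ext q
            exact absurd ⟨q ⟨0, hr⟩⟩ hne
          rw [hsub (∑ τ : Equiv.Perm (Fin N), ((Equiv.Perm.sign τ : ℤ) : R) •
            extR (w ∘ ⇑(τ.extendDomain (J.orderIsoOfFin hJ).toEquiv)))]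
          exact zero_mem _
    | insert a T _ ih =>
      intro w hw h0
      by_cases haJ : a ∈ J
      · refine ih w (fun j hj hjJ => hw j (fun h => ?_) hjJ) h0
        rcases Finset.mem_insert.1 h with h | h
        · exact hjJ (h ▸ haJ)
        · exact hj h
      · have hna : ∀ b, e b ≠ a := fun b hb => haJ ((hmem a).1 ⟨b, hb⟩)
        have hcomp : ∀ (u : Pt X k →₀ R) (τ : Equiv.Perm (Fin N)),
            (Function.update w a u) ∘ ⇑(τ.extendDomain (J.orderIsoOfFin hJ).toEquiv) =
              Function.update (w ∘ ⇑(τ.extendDomain (J.orderIsoOfFin hJ).toEquiv)) a u := by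
          intro u τ
          funext j
          rw [Function.comp_apply]
          by_cases hj : j = a
          · subst hj
            rw [Equiv.Perm.extendDomain_apply_not_subtype τ _ haJ, Function.update_self,
              Function.update_self]
          · have h1 : τ.extendDomain (J.orderIsoOfFin hJ).toEquiv j ≠ a := by
              intro h1
              apply hj
              apply (τ.extendDomain (J.orderIsoOfFin hJ).toEquiv).injective
              rw [h1, Equiv.Perm.extendDomain_apply_not_subtype τ _ haJ]
            rw [Function.update_of_ne h1, Function.update_of_ne hj]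
            rfl
        have key2 : ∀ z : Pt X k →₀ R, ∑ τ : Equiv.Perm (Fin N), ((Equiv.Perm.sign τ : ℤ) : R) •
            F (Function.update (w ∘ ⇑(τ.extendDomain (J.orderIsoOfFin hJ).toEquiv)) a z) ∈
              RatR R X (Fin r) := by
          intro z
          induction z using Finsupp.induction_linear with
          | zero =>
            rw [Finset.sum_eq_zero fun τ _ => by
              rw [MultilinearMap.map_update_zero, smul_zero]]
            exact zero_mem _
          | add u u' hu hu' =>
            rw [Finset.sum_congr rfl fun τ _ => by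
              rw [MultilinearMap.map_update_add, smul_add], Finset.sum_add_distrib]
            exact add_mem hu hu'
          | single p c =>
            have h1 : Finsupp.single p c = c • Finsupp.single p (1 : R) := by simp
            rw [Finset.sum_congr rfl fun τ _ => by
              rw [h1, MultilinearMap.map_update_smul, smul_comm], ← Finset.smul_sum]
            refine Submodule.smul_mem _ _ ?_
            have h2 := ih (Function.update w a (Finsupp.single p 1)) (fun j hj hjJ => by
              by_cases hja : j = a
              · subst hja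
                exact ⟨p, Function.update_self _ _ _⟩
              · rw [Function.update_of_ne hja]
                exact hw j (fun h => (Finset.mem_insert.1 h).elim hja hj) hjJ) (by
              have h5 : ∀ τ : Equiv.Perm (Fin N),
                  (fun b => Function.update w a (Finsupp.single p (1 : R)) (e (τ b))) =
                    fun b => w (e (τ b)) := by
                intro τ
                funext b
                rw [Function.update_of_ne (hna _)]
              rw [Finset.sum_congr rfl fun τ _ => by rw [h5 τ]]
              exact h0)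
            rw [Finset.sum_congr rfl fun τ _ => by rw [hcomp, ← hF]] at h2
            exact h2
        have h3 := key2 (w a)
        have h6 : ∀ τ : Equiv.Perm (Fin N),
            F (Function.update (w ∘ ⇑(τ.extendDomain (J.orderIsoOfFin hJ).toEquiv)) a (w a)) =
              extR (w ∘ ⇑(τ.extendDomain (J.orderIsoOfFin hJ).toEquiv)) := by
          intro τ
          rw [← hcomp, Function.update_eq_self, hF]
        rw [Finset.sum_congr rfl fun τ _ => by rw [h6 τ]] at h3
        exact h3
  rw [sum_fixing hJ]
  rw [Finset.sum_congr rfl fun τ _ => by rw [Equiv.Perm.sign_extendDomain]]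
  exact key Finset.univ w (fun j hj => absurd (Finset.mem_univ j) hj) h0

end Pool.Agent.GTM
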