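import Pool.Agent.GTM.CoB
import Pool.Agent.ZIso.SFT

/-!
# Rational coefficients and coefficients in a field
-/

set_option autoImplicit false

noncomputable section

namespace Pool.Agent.GTM

open Pool.Agent.ZCyc Pool.Agent.Dess Pool.Agent.GT
open scoped Classical LinearAlgebra.Projectivization

variable {R : Type} [Field R] [CharZero R] {k : Type} [Field k] {m : ℕ}
  {X : Set (MvPolynomial (Fin (m + 1)) k)}

/-- a cycle with rational coefficients which is rationally equivalent to zero with coefficients in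
`R` is rationally equivalent to zero -/
theorem toR_mem {ι : Type} {z : (ι → Pt X k) →₀ ℚ} (hz : toR R z ∈ RatR R X ι) :
    z ∈ Rat X ι := by
  obtain ⟨l, hl⟩ := (Algebra.linearMap ℚ R).exists_leftInverse_of_injective
    (LinearMap.ker_eq_bot.2 (algebraMap ℚ R).injective)
  have hl1 : ∀ q : ℚ, l (algebraMap ℚ R q) = q := fun q => LinearMap.congr_fun hl q
  let M : ((ι → Pt X k) →₀ R) →ₗ[ℚ] ((ι → Pt X k) →₀ ℚ) := Finsupp.mapRange.linearMap l
  have key : ∀ y ∈ RatR R X ι, ∀ r : R, M (r • y) ∈ Rat X ι := by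
    intro y hy
    induction hy using Submodule.span_induction with
    | mem y hy =>
      obtain ⟨w, hw, rfl⟩ := hy
      intro r
      have h1 : M (r • toR R w) = l r • w := by
        refine Finsupp.ext fun x => ?_
        change l (r * algebraMap ℚ R (w x)) = l r * w x
        rw [mul_comm, ← Algebra.smul_def, map_smul, smul_eq_mul, mul_comm]
      rw [h1]
      exact Submodule.smul_mem _ _ hw
    | zero =>
      intro r
      rw [smul_zero, map_zero]
      exact Submodule.zero_mem _
    | add a b _ _ ha hb =>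
      intro r
      rw [smul_add, map_add]
      exact Submodule.add_mem _ (ha r) (hb r)
    | smul c a _ ha =>
      intro r
      rw [smul_smul]
      exact ha _
  have h1 := key _ hz 1
  have h2 : M ((1 : R) • toR R z) = z := by
    refine Finsupp.ext fun x => ?_
    change l (1 * algebraMap ℚ R (z x)) = z x
    rw [one_mul, hl1]
  rwa [h2] at h1

theorem killsTensors_toR {n r : ℕ} {β : Equiv.Perm (Fin r) → ℚ} (hβ : ZIso.KillsTensors n β) :
    ZIso.KillsTensors n fun τ => algebraMap ℚ R (β τ) := by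
  intro w w'
  rw [← map_sum, hβ w w', map_zero]

/-- a sum of products with rational coefficients -/
theorem toR_sum {r : ℕ} (β : Equiv.Perm (Fin r) → ℚ) (z : Fin r → (Pt X k →₀ ℚ)) :
    toR R (∑ τ, β τ • ext (fun j => z (τ j))) =
      ∑ τ, algebraMap ℚ R (β τ) • extR (fun j => toR R (z (τ j))) := by
  rw [map_sum]
  refine Finset.sum_congr rfl fun τ _ => ?_
  rw [map_smul, extR_toR, algebraMap_smul]

/-- rational equivalence on the variety itself -/
theorem toR_rat1 {z : Pt X k →₀ ℚ} (hz : z ∈ Rat1 X) : toR R z ∈ RatR1 R X :=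
  Submodule.subset_span ⟨z, hz, rfl⟩

/-- the component `w 0` is the mean of the eigenvectors -/
theorem toR_zero {T : Type} {ν : ℕ} [NeZero ν] {ζ : R} (hζ : IsPrimitiveRoot ζ ν)
    (w : ZMod ν → (T →₀ ℚ)) : (ν : R) • toR R (w 0) = ∑ i : ZMod ν, eig (ζ ^ i.val) w := by
  unfold eig
  rw [Finset.sum_comm]
  have h1 : ∀ a : ZMod ν, ∑ i : ZMod ν, ((ζ ^ i.val) ^ a.val)⁻¹ • toR R (w a) =
      if a = 0 then (ν : R) • toR R (w 0) else 0 := by
    intro a
    rw [← Finset.sum_smul]
    by_cases ha : a = 0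
    · subst ha
      rw [if_pos rfl]
      congr 1
      simp
    · rw [if_neg ha]
      have h2 : ∑ i : ZMod ν, ((ζ ^ i.val) ^ a.val)⁻¹ = 0 := by
        have h3 : ζ ^ a.val ≠ 1 := by
          intro h
          have h4 := (hζ.pow_eq_one_iff_dvd a.val).1 h
          have h5 : a.val = 0 := Nat.eq_zero_of_dvd_of_lt h4 a.val_lt
          exact ha ((ZMod.val_eq_zero a).1 h5)
        have h4 : ∀ i : ZMod ν, ((ζ ^ i.val) ^ a.val)⁻¹ = ((ζ ^ a.val)⁻¹) ^ i.val := by
          intro i
          rw [← pow_mul, mul_comm, pow_mul, inv_pow]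
        simp only [h4]
        have h5 : ∑ i : ZMod ν, ((ζ ^ a.val)⁻¹) ^ i.val =
            ∑ i ∈ Finset.range ν, ((ζ ^ a.val)⁻¹) ^ i := by
          refine Finset.sum_bij (fun i _ => i.val) (fun i _ => Finset.mem_range.2 i.val_lt)
            (fun i _ j _ h => ZMod.val_injective ν h) (fun i hi => ⟨(i : ZMod ν),
              Finset.mem_univ _, ?_⟩) fun i _ => rfl
          rw [ZMod.val_natCast, Nat.mod_eq_of_lt (Finset.mem_range.1 hi)]
        rw [h5]
        have h6 := mul_neg_geom_sum ((ζ ^ a.val)⁻¹) ν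
        rw [inv_pow, ← pow_mul, mul_comm a.val, pow_mul, hζ.pow_eq_one, one_pow, inv_one,
          sub_self] at h6
        refine (mul_eq_zero.1 h6).resolve_left (sub_ne_zero.2 ?_)
        intro h7
        exact h3 (by rw [← inv_inv (ζ ^ a.val), ← h7, inv_one])
      rw [h2, zero_smul]
  rw [Finset.sum_congr rfl fun a _ => h1 a, Finset.sum_ite_eq' Finset.univ (0 : ZMod ν)
    fun _ => (ν : R) • toR R (w 0), if_pos (Finset.mem_univ _)]

end Pool.Agent.GTM
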