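import Pool.Agent.GTM.Lcs

/-!
# The projection for the case of Dickson polynomials
-/

set_option autoImplicit false

noncomputable section

namespace Pool.Agent.GTM

open Pool.Agent.ZCyc Pool.Agent.Dess Pool.Agent.GT
open scoped Classical

variable {W : Type} [AddCommGroup W] [Module ℚ W]

/-- the coefficients of the projection to the functions `f` with `f(l + m) = (-1) ^ m f(l)` -/
def cA (m : ℕ) [NeZero m] : ZMod (2 * m) → ℚ :=
  Pi.single 0 (1 / 2) + Pi.single (m : ZMod (2 * m)) ((-1) ^ m / 2)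

/-- the coefficients of the projection to the functions `f` with `∑ i, f(l + 2 i) = 0` -/
def cB (m : ℕ) [NeZero m] : ZMod (2 * m) → ℚ :=
  Pi.single 0 1 - ∑ i : ZMod (2 * m), Pi.single (2 * i) (1 / (2 * m : ℚ))

/-- the coefficients of the composition of the two projections -/
def cII (m : ℕ) [NeZero m] : ZMod (2 * m) → ℚ := fun l => ∑ i, cA m i * cB m (l - i)

variable {m : ℕ} [NeZero m]

/-- the composition: `lcs_lcs` -/
theorem lcs_cII (f : ZMod (2 * m) → W) : lcs (cII m) f = lcs (cA m) (lcs (cB m) f) :=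
  (lcs_lcs (cA m) (cB m) f).symm

private theorem sum_single_smul (a : ZMod (2 * m)) (c : ℚ) (g : ZMod (2 * m) → W) :
    ∑ i, (Pi.single a c : ZMod (2 * m) → ℚ) i • g i = c • g a := by
  rw [Finset.sum_eq_single a]
  · rw [Pi.single_eq_same]
  · intro i _ hi
    rw [Pi.single_eq_of_ne hi, zero_smul]
  · intro h
    exact absurd (Finset.mem_univ _) h

private theorem lcs_cA (f : ZMod (2 * m) → W) (l : ZMod (2 * m)) :
    lcs (cA m) f l = (1 / 2 : ℚ) • f l + ((-1 : ℚ) ^ m / 2) • f (l + (m : ZMod (2 * m))) := by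
  rw [lcs_apply]
  simp only [cA, Pi.add_apply, add_smul, Finset.sum_add_distrib]
  rw [sum_single_smul 0 (1 / 2) fun i => f (l + i), sum_single_smul (m : ZMod (2 * m)) _
    fun i => f (l + i), add_zero]

private theorem lcs_cB (f : ZMod (2 * m) → W) (l : ZMod (2 * m)) :
    lcs (cB m) f l = f l - (1 / (2 * m : ℚ)) • ∑ i : ZMod (2 * m), f (l + 2 * i) := by
  rw [lcs_apply]
  simp only [cB, Pi.sub_apply, Finset.sum_apply, sub_smul, Finset.sum_sub_distrib,
    Finset.sum_smul]
  rw [sum_single_smul 0 1 fun i => f (l + i), add_zero, one_smul, Finset.sum_comm,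
    Finset.smul_sum]
  congr 1
  refine Finset.sum_congr rfl fun i _ => ?_
  exact sum_single_smul (2 * i) _ fun i => f (l + i)

omit [NeZero m] in
private theorem shift_pow_apply (n : ℕ) (f : ZMod (2 * m) → W) (l : ZMod (2 * m)) :
    (shift (2 * m) W ^ n) f l = f (l + (n : ZMod (2 * m))) := by
  induction n generalizing l with
  | zero => simp
  | succ n ih =>
    rw [pow_succ', Module.End.mul_apply]
    change (shift (2 * m) W ^ n) f (l + 1) = _
    rw [ih]
    congr 1
    push_cast
    ring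

omit [NeZero m] in
private theorem two_m_zero : (m : ZMod (2 * m)) + (m : ZMod (2 * m)) = 0 := by
  have h := ZMod.natCast_self (2 * m)
  push_cast at h
  rw [← h]
  ring

/-- `lcs (cA m) f l = (f(l) + (-1) ^ m f(l + m)) / 2`, and `2 m = 0` -/
theorem cII_pow (f : ZMod (2 * m) → W) :
    (shift (2 * m) W ^ m) (lcs (cII m) f) = ((-1 : ℚ) ^ m) • lcs (cII m) f := by
  funext l
  have h1 : ((-1 : ℚ) ^ m) * ((-1 : ℚ) ^ m) = 1 := by
    rw [← mul_pow]
    norm_num
  rw [shift_pow_apply, Pi.smul_apply, lcs_cII, lcs_cA, lcs_cA, add_assoc, two_m_zero, add_zero,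
    smul_add, smul_smul, smul_smul, ← mul_div_assoc, ← mul_div_assoc, h1, mul_one, add_comm]

/-- Let `A f l = (1 / 2 m) ∑ i, f(l + 2 i)`. Then `lcs (cB m) f = f - A f` and `A (A f) = A f`. The projections
commute (`lcs_lcs` or directly), so `x = lcs (cII m) f` satisfies `A x = 0`; if `shift ^ 2 x = x` then
`A x = x`. -/
theorem cII_two (f : ZMod (2 * m) → W)
    (h : (shift (2 * m) W ^ 2) (lcs (cII m) f) = lcs (cII m) f) : lcs (cII m) f = 0 := by
  set x := lcs (cII m) f with hx
  have hm : (2 * m : ℚ) ≠ 0 := by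
    have : (m : ℚ) ≠ 0 := Nat.cast_ne_zero.2 (NeZero.ne m)
    positivity
  have hcard : (Finset.univ : Finset (ZMod (2 * m))).card = 2 * m := by
    rw [Finset.card_univ, ZMod.card]
  -- the sums of `g`
  have hg : ∀ l, ∑ i : ZMod (2 * m), lcs (cB m) f (l + 2 * i) = 0 := by
    intro l
    have h1 : ∀ i : ZMod (2 * m), ∑ j : ZMod (2 * m), f (l + 2 * i + 2 * j) =
        ∑ j : ZMod (2 * m), f (l + 2 * j) := by
      intro i
      rw [← Equiv.sum_comp (Equiv.addLeft i) fun j => f (l + 2 * j)]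
      refine Finset.sum_congr rfl fun j _ => ?_
      congr 1
      simp only [Equiv.coe_addLeft]
      ring
    simp only [lcs_cB, h1, Finset.sum_sub_distrib, Finset.sum_const, hcard]
    rw [← Nat.cast_smul_eq_nsmul ℚ, smul_smul]
    push_cast
    rw [mul_one_div_cancel hm, one_smul, sub_self]
  have hA : ∀ l, ∑ i : ZMod (2 * m), x (l + 2 * i) = 0 := by
    intro l
    have h2 : ∀ i : ZMod (2 * m), x (l + 2 * i) = (1 / 2 : ℚ) • lcs (cB m) f (l + 2 * i) +
        ((-1 : ℚ) ^ m / 2) • lcs (cB m) f (l + (m : ZMod (2 * m)) + 2 * i) := by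
      intro i
      rw [hx, lcs_cII, lcs_cA, add_right_comm l (2 * i)]
    simp only [h2, Finset.sum_add_distrib, ← Finset.smul_sum, hg, smul_zero, add_zero]
  -- periodicity
  have h4 : ∀ (n : ℕ) l, x (l + 2 * (n : ZMod (2 * m))) = x l := by
    intro n
    induction n with
    | zero =>
      intro l
      rw [Nat.cast_zero, mul_zero, add_zero]
    | succ n ih =>
      intro l
      have h5 := congrFun h (l + 2 * (n : ZMod (2 * m)))
      rw [shift_pow_apply, ih] at h5
      rw [← h5]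
      congr 1
      push_cast
      ring
  funext l
  have h6 : ∑ i : ZMod (2 * m), x (l + 2 * i) = (2 * m : ℚ) • x l := by
    have h7 : ∀ i : ZMod (2 * m), x (l + 2 * i) = x l := by
      intro i
      have h8 := h4 i.val l
      rwa [ZMod.natCast_zmod_val] at h8
    simp only [h7, Finset.sum_const, hcard]
    rw [← Nat.cast_smul_eq_nsmul ℚ]
    push_cast
    rfl
  rw [hA] at h6
  exact (smul_eq_zero.1 h6.symm).resolve_left hm

/-- The value of the projection at a root of unity: the sum over all `l` is the product of the sums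
for `cA m` (`(1 + (-1) ^ m ω ^ m) / 2 = 1`) and `cB m` (`1 - (1 / 2 m) ∑ i, ω ^ (2 i) = 1`: the sum is zero because
`ω ^ 2 ≠ 1`; note that `ω ^ (l.val)` is multiplicative in `l`). -/
theorem cII_ev {R : Type} [Field R] [CharZero R] {ω : R} (h1 : ω ^ m = (-1) ^ m)
    (h4 : ω ^ 2 ≠ 1) : ∑ i : ZMod (2 * m), algebraMap ℚ R (cII m i) * ω ^ i.val = 1 := by
  have hmpos : 0 < m := Nat.pos_of_ne_zero (NeZero.ne m)
  have h2m : ω ^ (2 * m) = 1 := by
    rw [mul_comm, pow_mul, h1, ← pow_mul, mul_comm, pow_mul]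
    norm_num
  let χ : ZMod (2 * m) → R := fun i => ω ^ i.val
  have hχ : ∀ i j, χ (i + j) = χ i * χ j := by
    intro i j
    change ω ^ (i + j).val = ω ^ i.val * ω ^ j.val
    rw [ZMod.val_add, ← pow_add, ← Nat.mod_add_div (i.val + j.val) (2 * m), pow_add, pow_mul,
      h2m, one_pow, mul_one, Nat.add_mul_mod_self_left, Nat.mod_mod]
  have hχ0 : χ 0 = 1 := by
    change ω ^ (0 : ZMod (2 * m)).val = 1
    rw [ZMod.val_zero, pow_zero]
  have hχ1 : χ 1 = ω := by
    change ω ^ (1 : ZMod (2 * m)).val = ω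
    rw [ZMod.val_one'' (by omega), pow_one]
  have hχm : χ (m : ZMod (2 * m)) = ω ^ m := by
    change ω ^ (m : ZMod (2 * m)).val = ω ^ m
    rw [ZMod.val_natCast, Nat.mod_eq_of_lt (by omega)]
  have hχ4 : χ 2 = ω ^ 2 := by
    have h5 : (2 : ZMod (2 * m)) = 1 + 1 := by norm_num
    rw [h5, hχ, hχ1]
    ring
  have hsing : ∀ (a : ZMod (2 * m)) (c : ℚ),
      ∑ i, algebraMap ℚ R ((Pi.single a c : ZMod (2 * m) → ℚ) i) * χ i =
        algebraMap ℚ R c * χ a := by
    intro a c
    rw [Finset.sum_eq_single a]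
    · rw [Pi.single_eq_same]
    · intro i _ hi
      rw [Pi.single_eq_of_ne hi, map_zero, zero_mul]
    · intro h
      exact absurd (Finset.mem_univ _) h
  have hA : ∑ i, algebraMap ℚ R (cA m i) * χ i = 1 := by
    simp only [cA, Pi.add_apply, map_add, add_mul, Finset.sum_add_distrib]
    rw [hsing, hsing, hχ0, hχm, h1]
    have h5 : ((-1 : R) ^ m) * ((-1 : R) ^ m) = 1 := by
      rw [← mul_pow]
      norm_num
    simp only [map_div₀, map_one, map_ofNat, map_pow, map_neg]
    linear_combination (1 / 2 : R) * h5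
  have hS : ∑ i : ZMod (2 * m), χ (2 * i) = 0 := by
    have h5 : ∑ i : ZMod (2 * m), χ (2 * i) = ω ^ 2 * ∑ i : ZMod (2 * m), χ (2 * i) := by
      conv_lhs => rw [← Equiv.sum_comp (Equiv.addLeft (1 : ZMod (2 * m)))]
      rw [Finset.mul_sum]
      refine Finset.sum_congr rfl fun i _ => ?_
      rw [Equiv.coe_addLeft, mul_add, mul_one, hχ, hχ4]
    have h6 : (ω ^ 2 - 1) * ∑ i : ZMod (2 * m), χ (2 * i) = 0 := by
      rw [sub_mul, one_mul, ← h5, sub_self]
    exact (mul_eq_zero.1 h6).resolve_left (sub_ne_zero.2 h4)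
  have hB : ∑ i, algebraMap ℚ R (cB m i) * χ i = 1 := by
    simp only [cB, Pi.sub_apply, Finset.sum_apply, map_sub, map_sum, sub_mul, Finset.sum_mul,
      Finset.sum_sub_distrib]
    rw [hsing, hχ0, Finset.sum_comm]
    simp only [hsing]
    rw [← Finset.mul_sum, hS, mul_zero, map_one, mul_one, sub_zero]
  have hmain : ∑ i : ZMod (2 * m), algebraMap ℚ R (cII m i) * χ i =
      (∑ i, algebraMap ℚ R (cA m i) * χ i) * ∑ i, algebraMap ℚ R (cB m i) * χ i := by
    simp only [cII, map_sum, map_mul, Finset.sum_mul]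
    rw [Finset.sum_comm]
    refine Finset.sum_congr rfl fun i _ => ?_
    rw [Finset.mul_sum, ← Equiv.sum_comp (Equiv.addLeft i)]
    refine Finset.sum_congr rfl fun j _ => ?_
    rw [Equiv.coe_addLeft, add_sub_cancel_left, hχ]
    ring
  rw [hA, hB, one_mul] at hmain
  exact hmain

end Pool.Agent.GTM
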