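import Pool.Agent.GTM.Cls

/-!
# Other models of the curve
-/

set_option autoImplicit false

noncomputable section

namespace Pool.Agent.GTM

open Pool.Agent.ZCyc Pool.Agent.Dess Pool.Agent.GT Polynomial
open Pool.Agent.VFP (Om tt)
open scoped Classical LinearAlgebra.Projectivization

variable {k : Type} [Field k] [IsAlgClosed k] [CharZero k] {m : ℕ} {d : ℕ}
  {X : Set (MvPolynomial (Fin (m + 1)) k)}

/-- The class only depends on the sums over the points of lines: if there are corresponding lines with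
the same sums for another model then the classes are the same (`exists_clean`,
`exists_clean_one` with the set `F`, and `cv_spec` twice). -/
theorem cv_congr (hX : Hom X) {P P' : (Om k)[X]} {N N' : Mp (Om k) m} {d' : ℕ} (hN : OkH d P N X)
    (hN' : OkH d' P' N' X) (v : Place k (Om k)) {x y x' y' : Om k} (h : y ^ 2 = P.eval x)
    (h' : y' ^ 2 = P'.eval x') (F : Finset (Om k))
    (H1 : ∀ g R : (Om k)[X], Ln d P g 1 R → (∀ x ∈ F, R.eval x ≠ 0) → Clean N g R →
      ∃ g' R' : (Om k)[X], Ln d' P' g' 1 R' ∧ Clean N' g' R' ∧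
        LR hX hN g R = LR hX hN' g' R')
    (H2 : ∀ g R : (Om k)[X], Ln d P g (Polynomial.X - C x) R → g.eval x = y → R.eval x ≠ 0 →
      (∀ x ∈ F, R.eval x ≠ 0) → Clean N g R →
      ∃ g' R' : (Om k)[X], Ln d' P' g' (Polynomial.X - C x') R' ∧ g'.eval x' = y' ∧
        Clean N' g' R' ∧ LR hX hN g R = LR hX hN' g' R') :
    cv hX hN v x y = cv hX hN' v x' y' := by
  obtain ⟨g₁, R₁, a1, a2, a3⟩ := exists_clean_one hN F
  obtain ⟨g, R, b1, b2, b3, b4, b5⟩ := exists_clean hN h F
  obtain ⟨g₁', R₁', c1, c2, c3⟩ := H1 g₁ R₁ a1 a2 a3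
  obtain ⟨g', R', d1, d2, d3, d4⟩ := H2 g R b1 b2 b3 b4 b5
  rw [cv_spec hX hN v h a1 a3 b1 b2 b5, cv_spec hX hN' v h' c1 c2 d1 d2 d3, c3, d4]

/-- Two points with proportional coordinates have the same image. -/
theorem cyp_congr (hX : Hom X) {P P' : (Om k)[X]} {N N' : Mp (Om k) m} {d' : ℕ}
    (hN : OkH d P N X) (hN' : OkH d' P' N' X) {x y x' y' : Om k} (h : y ^ 2 = P.eval x)
    (h' : y' ^ 2 = P'.eval x') {l : Om k} (hl : l ≠ 0)
    (hco : ∀ i, N.co x y i = l * N'.co x' y' i) : cyp hX hN x y = cyp hX hN' x' y' := by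
  by_cases h0 : N'.co x' y' = 0
  · have h1 : N.co x y = 0 := by
      funext i
      rw [hco i, h0]
      simp
    rw [cyp, cyp, dif_neg fun hc => hc.2 h1, dif_neg fun hc => hc.2 h0]
  · have h1 : N.co x y ≠ 0 := by
      intro h2
      apply h0
      funext i
      have h3 := congrFun h2 i
      rw [hco i] at h3
      exact (mul_eq_zero.1 h3).resolve_left hl
    rw [cyp, cyp, dif_pos ⟨h, h1⟩, dif_pos ⟨h', h0⟩]
    congr 1
    refine Subtype.ext ?_
    change Projectivization.mk (Om k) (N.co x y) h1 =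
      Projectivization.mk (Om k) (N'.co x' y') h0
    rw [Projectivization.mk_eq_mk_iff']
    exact ⟨l, funext fun i => (hco i).symm⟩

end Pool.Agent.GTM
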