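import Pool.Agent.GT.Alt

/-!
# Convolution products
-/

set_option autoImplicit false

noncomputable section

namespace Pool.Agent.GTM

open Pool.Agent.ZCyc Pool.Agent.Dess Pool.Agent.GT Polynomial
open Pool.Agent.VFP (Om tt)
open scoped Classical LinearAlgebra.Projectivization

variable {n ν : ℕ} [NeZero ν] {V V' W : Type} [AddCommGroup V] [Module ℚ V] [AddCommGroup W]
  [Module ℚ W]

/-- The convolution product: the sum over all `a` with `∑ a j = l` of the values of the multilinear map
`E` at the `w j (a j)`. -/
def conv (E : MultilinearMap ℚ (fun _ : Fin n => V) W) (w : Fin n → ZMod ν → V) (l : ZMod ν) : W :=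
  ∑ a ∈ Finset.univ.filter (fun a : Fin n → ZMod ν => ∑ j, a j = l), E fun j => w j (a j)

/-- the differences `conv l - conv (l + 1)` -/
def dcv (E : MultilinearMap ℚ (fun _ : Fin n => V) W) (w : Fin n → ZMod ν → V) (l : ZMod ν) : W :=
  conv E w l - conv E w (l + 1)

/-- the shift of functions on `ZMod ν` -/
def shift (ν : ℕ) (W : Type) [AddCommGroup W] [Module ℚ W] : Module.End ℚ (ZMod ν → W) where
  toFun := fun f l => f (l + 1)
  map_add' := fun _ _ => rfl
  map_smul' := fun _ _ => rfl

variable (E : MultilinearMap ℚ (fun _ : Fin n => V) W)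

omit [NeZero ν] [AddCommGroup V] [Module ℚ V] in
/-- the value of a changed function -/
private theorem conv_upd (w : Fin n → ZMod ν → V) (j : Fin n) (u : ZMod ν → V)
    (a : Fin n → ZMod ν) : (fun i => (Function.update w j u) i (a i)) =
      Function.update (fun i => w i (a i)) j (u (a j)) := by
  funext i
  by_cases h : i = j
  · subst h
    simp
  · rw [Function.update_of_ne h, Function.update_of_ne h]

/-- substitution `a j ↦ a j + 1` -/
theorem conv_rot (w : Fin n → ZMod ν → V) (j : Fin n) :
    conv E (Function.update w j fun a => w j (a + 1)) = shift ν W (conv E w) := by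
  funext l
  change conv E _ l = conv E w (l + 1)
  unfold conv
  refine Finset.sum_equiv (Equiv.addRight (Pi.single j (1 : ZMod ν) : Fin n → ZMod ν)) ?_ ?_
  · intro a
    have h1 : ∑ i, (a + (Pi.single j (1 : ZMod ν) : Fin n → ZMod ν)) i = ∑ i, a i + 1 := by
      simp only [Pi.add_apply, Finset.sum_add_distrib]
      congr 1
      rw [Finset.sum_eq_single j]
      · rw [Pi.single_eq_same]
      · intro i _ hi
        rw [Pi.single_eq_of_ne hi]
      · intro hj
        exact absurd (Finset.mem_univ j) hj
    change a ∈ Finset.univ.filter _ ↔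
      a + (Pi.single j (1 : ZMod ν) : Fin n → ZMod ν) ∈ Finset.univ.filter _
    rw [Finset.mem_filter, Finset.mem_filter, h1]
    simp
  · intro a _
    congr 1
    funext i
    change _ = w i (a i + (Pi.single j (1 : ZMod ν) : Fin n → ZMod ν) i)
    by_cases h : i = j
    · subst h
      simp
    · rw [Function.update_of_ne h, Pi.single_eq_of_ne h, add_zero]

theorem dcv_rot (w : Fin n → ZMod ν → V) (j : Fin n) :
    dcv E (Function.update w j fun a => w j (a + 1)) = shift ν W (dcv E w) := by
  funext l
  change conv E _ l - conv E _ (l + 1) = conv E w (l + 1) - conv E w (l + 1 + 1)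
  rw [conv_rot]
  rfl

/-- If `w j` is constant then `conv` is constant (substitution of `a j`), so the differences are
zero. -/
theorem dcv_const (w : Fin n → ZMod ν → V) (j : Fin n) (h : ∀ a b, w j a = w j b) :
    dcv E w = 0 := by
  have h1 : (Function.update w j fun a => w j (a + 1)) = w := by
    funext i
    by_cases hi : i = j
    · subst hi
      rw [Function.update_self]
      funext a
      exact h _ _
    · rw [Function.update_of_ne hi]
  have h2 := conv_rot E w j
  rw [h1] at h2
  funext l
  change conv E w l - conv E w (l + 1) = 0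
  have h3 : conv E w l = conv E w (l + 1) := congrFun h2 l
  rw [h3, sub_self]

/-- If all differences are zero then all values of `conv` are the same. -/
theorem conv_const {w : Fin n → ZMod ν → V} (h : dcv E w = 0) (l l' : ZMod ν) :
    conv E w l = conv E w l' := by
  have h1 : ∀ l, conv E w (l + 1) = conv E w l := fun l => (sub_eq_zero.1 (congrFun h l)).symm
  have h2 : ∀ i : ℕ, conv E w (l + i) = conv E w l := by
    intro i
    induction i with
    | zero => rw [Nat.cast_zero, add_zero]
    | succ i ih => rw [Nat.cast_succ, ← add_assoc, h1, ih]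
  have h3 := h2 (l' - l).val
  rw [ZMod.natCast_zmod_val, add_sub_cancel] at h3
  exact h3.symm

/-- linearity in every factor -/
theorem conv_add (w : Fin n → ZMod ν → V) (j : Fin n) (u u' : ZMod ν → V) :
    conv E (Function.update w j (u + u')) =
      conv E (Function.update w j u) + conv E (Function.update w j u') := by
  funext l
  rw [Pi.add_apply]
  unfold conv
  rw [← Finset.sum_add_distrib]
  refine Finset.sum_congr rfl fun a _ => ?_
  rw [conv_upd, conv_upd, conv_upd, Pi.add_apply, MultilinearMap.map_update_add]

theorem conv_smul (w : Fin n → ZMod ν → V) (j : Fin n) (c : ℚ) (u : ZMod ν → V) :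
    conv E (Function.update w j (c • u)) = c • conv E (Function.update w j u) := by
  funext l
  rw [Pi.smul_apply]
  unfold conv
  rw [Finset.smul_sum]
  refine Finset.sum_congr rfl fun a _ => ?_
  rw [conv_upd, conv_upd, Pi.smul_apply, MultilinearMap.map_update_smul]

/-- `conv` and a linear map -/
theorem conv_map {W' : Type} [AddCommGroup W'] [Module ℚ W'] (f : W →ₗ[ℚ] W')
    (w : Fin n → ZMod ν → V) (l : ZMod ν) :
    conv (f.compMultilinearMap E) w l = f (conv E w l) := by
  unfold conv
  rw [map_sum]
  rfl

end Pool.Agent.GTM
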