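import Pool.Agent.GTM.ConvP
import Pool.Agent.GT.Sys

/-!
# Limits of convolution products
-/

set_option autoImplicit false

noncomputable section

namespace Pool.Agent.GTM

open Pool.Agent.ZCyc Pool.Agent.Dess Pool.Agent.GT Polynomial
open Pool.Agent.VFP (Om tt)
open scoped Classical LinearAlgebra.Projectivization

variable {k : Type} [Field k] [IsAlgClosed k] [CharZero k] {m n ν : ℕ} [NeZero ν]
  {X : Set (MvPolynomial (Fin (m + 1)) k)}

/-- Convolution products of limits are limits of one cycle, which does not depend on the place: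
`∑ a, ∑ π, sign π • ext (fun j => z (π j) (a (π j)))`, `lim_alt`. -/
theorem conv_cycle (hX : Hom X) (z : Fin n → ZMod ν → (Pt X (Om k) →₀ ℚ)) (l : ZMod ν) :
    ∃ Z : (Fin n → Pt X (Om k)) →₀ ℚ, ∀ v : Place k (Om k),
      lim hX v Z = conv (Alt (Ext hX n)) (fun j a => lim1 hX v (z j a)) l := by
  refine ⟨∑ a ∈ Finset.univ.filter (fun a : Fin n → ZMod ν => ∑ j, a j = l),
    ∑ π : Equiv.Perm (Fin n), ((Equiv.Perm.sign π : ℤˣ) : ℤ) • ext (fun j => z (π j) (a (π j))),
    fun v => ?_⟩
  unfold conv
  rw [map_sum]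
  refine Finset.sum_congr rfl fun a _ => ?_
  exact lim_alt hX v fun j => z j (a j)

omit [IsAlgClosed k] [CharZero k] in
private theorem cnb_surj : Function.Surjective (cl1 X) := by
  intro c
  obtain ⟨w, rfl⟩ := Submodule.Quotient.mk_surjective _ c
  refine ⟨Finsupp.mapDomain (fun x => x ()) w, ?_⟩
  change Submodule.Quotient.mk (Finsupp.mapDomain (fun x _ => x)
    (Finsupp.mapDomain (fun x => x ()) w)) = _
  rw [← Finsupp.mapDomain_comp]
  have h3 : ((fun (x : Pt X k) (_ : Unit) => x) ∘ fun x : Unit → Pt X k => x ()) = id := rfl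
  rw [h3, Finsupp.mapDomain_id]

omit [CharZero k] in
private theorem cnb_const (hX : Hom X) (v : Place k (Om k)) (z : Pt X k →₀ ℚ) :
    lim1 hX v (Finsupp.mapDomain (fun x => x.map (Algebra.ofId k (Om k)) hX) z) = cl1 X z := by
  change Submodule.Quotient.mk (Finsupp.mapDomain (fun x i => pv hX v (x i))
      (Finsupp.mapDomain (fun x _ => x) (Finsupp.mapDomain
        (fun x => x.map (Algebra.ofId k (Om k)) hX) z))) = Submodule.Quotient.mk
        (Finsupp.mapDomain (fun x _ => x) z)
  rw [← Finsupp.mapDomain_comp, ← Finsupp.mapDomain_comp]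
  congr 2
  funext x i
  change pv hX v (x.map (Algebra.ofId k (Om k)) hX) = x
  exact pv_eq isVal_const

/-- A class over `k` is the limit of a constant cycle: take a cycle over `k` and the same points over
`Om k` (`Pt.map`, `isVal_const`), compare `lim1_const` in `GT/Alt.lean`. -/
theorem exists_const (hX : Hom X) (w : CH X Unit) : ∃ z : Pt X (Om k) →₀ ℚ,
    ∀ v : Place k (Om k), lim1 hX v z = w := by
  obtain ⟨y, hy⟩ := cnb_surj w
  exact ⟨_, fun v => (cnb_const hX v y).trans hy⟩

/-- Moving one factor: if the differences are zero for almost all limits of the `z a` then they are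
zero for all limits (`moving` with `conv_cycle`, `exists_const`). -/
theorem dcv_moving (hX : Hom X) (w : Fin n → ZMod ν → CH X Unit) (j : Fin n)
    (z : ZMod ν → (Pt X (Om k) →₀ ℚ)) (Γ : Finset (Om k)) (hΓ : (0 : Om k) ∉ Γ)
    (h : ∀ v : Place k (Om k), (∀ g ∈ Γ, g ∈ v.ring ∧ g⁻¹ ∈ v.ring) →
      dcv (Alt (Ext hX n)) (Function.update w j fun a => lim1 hX v (z a)) = 0)
    (v : Place k (Om k)) :
    dcv (Alt (Ext hX n)) (Function.update w j fun a => lim1 hX v (z a)) = 0 := by
  choose wr hwr using fun (i : Fin n) (a : ZMod ν) => exists_const hX (w i a)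
  let y : Fin n → ZMod ν → (Pt X (Om k) →₀ ℚ) := Function.update wr j z
  have hy : ∀ v : Place k (Om k),
      (fun i a => lim1 hX v (y i a)) = Function.update w j fun a => lim1 hX v (z a) := by
    intro v
    funext i
    by_cases hi : i = j
    · subst hi
      simp only [y, Function.update_self]
    · rw [Function.update_of_ne hi]
      funext a
      have h1 : y i = wr i := Function.update_of_ne hi _ _
      rw [h1, hwr]
  choose Z hZ using conv_cycle hX y
  have key : ∀ (v : Place k (Om k)) (l : ZMod ν), lim hX v (Z l - Z (l + 1)) =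
      dcv (Alt (Ext hX n)) (Function.update w j fun a => lim1 hX v (z a)) l := by
    intro v l
    rw [map_sub, hZ, hZ, hy]
    rfl
  funext l
  rw [← key, Pi.zero_apply]
  refine moving hX _ Γ hΓ (fun v hv => ?_) v
  rw [key, h v hv, Pi.zero_apply]

end Pool.Agent.GTM
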