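import Pool.Agent.GTM.Conv

/-!
# Permutations of the factors of a convolution product
-/

set_option autoImplicit false

noncomputable section

namespace Pool.Agent.GTM

open Pool.Agent.ZCyc Pool.Agent.Dess Pool.Agent.GT Polynomial
open Pool.Agent.VFP (Om tt)
open scoped Classical LinearAlgebra.Projectivization

variable {n ν : ℕ} [NeZero ν] {V V' W : Type} [AddCommGroup V] [Module ℚ V] [AddCommGroup W]
  [Module ℚ W]

variable (E : MultilinearMap ℚ (fun _ : Fin n => V) W)

/-- an alternating map: permutations of the factors (reindex the sum over `a`, `Alt_perm`) -/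
theorem conv_perm (w : Fin n → ZMod ν → V) (π : Equiv.Perm (Fin n)) :
    conv (Alt E) (fun j => w (π j)) =
      ((Equiv.Perm.sign π : ℤˣ) : ℤ) • conv (Alt E) w := by
  funext l
  rw [Pi.smul_apply]
  unfold conv
  rw [Finset.smul_sum]
  refine Finset.sum_equiv (Equiv.arrowCongr π (Equiv.refl (ZMod ν))) ?_ ?_
  · intro a
    simp only [Finset.mem_filter, Finset.mem_univ, true_and]
    have h : ∑ j, (Equiv.arrowCongr π (Equiv.refl (ZMod ν))) a j = ∑ j, a j :=
      Equiv.sum_comp π.symm a
    rw [h]
  · intro a _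
    have h := Alt_perm E (fun j => w j (a (π.symm j))) π
    simp only [Equiv.symm_apply_apply] at h
    rw [h]
    rfl

theorem dcv_perm (w : Fin n → ZMod ν → V) (π : Equiv.Perm (Fin n)) :
    dcv (Alt E) (fun j => w (π j)) =
      ((Equiv.Perm.sign π : ℤˣ) : ℤ) • dcv (Alt E) w := by
  funext l
  unfold dcv
  rw [Pi.smul_apply, conv_perm, Pi.smul_apply, Pi.smul_apply, smul_sub]

end Pool.Agent.GTM
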