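import Pool.Agent.GTM.Cls

/-!
# Good reduction
-/

set_option autoImplicit false

noncomputable section

namespace Pool.Agent.GTM

open Pool.Agent.ZCyc Pool.Agent.Dess Pool.Agent.GT Polynomial
open Pool.Agent.VFP (Om tt)
open scoped Classical LinearAlgebra.Projectivization

variable {k : Type} [Field k] [IsAlgClosed k] [CharZero k] {m : ℕ} {d : ℕ}
  {X : Set (MvPolynomial (Fin (m + 1)) k)}

omit [IsAlgClosed k] [CharZero k] in
private theorem good_lead {v : Place k (Om k)} {g P : (Om k)[X]} {g₀ P₀ : k[X]}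
    (hg : PolAt v g g₀) (hP : PolAt v P P₀) (h : g₀.coeff d ^ 2 ≠ P₀.coeff (2 * d)) :
    g.coeff d ^ 2 ≠ P.coeff (2 * d) := by
  intro h0
  have h1 := (hg d).pow 2
  rw [h0] at h1
  exact h (h1.unique (hP (2 * d)))

/-- Good reduction: the class of the limit is the class of the value of the point.
Proof. `exists_clean` over `k` for the point `(x₀, y₀)` and `F = ∅`: a line `g₀`, `R₀` with
`R₀(x₀) ≠ 0`. Let `g = g₀ + (y - g₀(x))` (the constant has the value `y₀ - g₀(x₀) = 0`), then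
`g(x) = y`, `g ² - P = (X - x) R`, and `R` has the value `R₀` (`PolAt.of_mul`), the degrees are
`2 d - 1` (`Ln.natDegree`), the line is clean and `lim_LR` applies. In the same way the
constant extension of a clean line over `k` without a given point gives the first term
(`P` is not constant, but `g₁ ² - P` has the value `g₁ ² - P₀ = R₁`). Compare `cv_spec` and
`ck_spec`. -/
theorem cv_eq_ck (hX : Hom X) {v : Place k (Om k)} {P : (Om k)[X]} {N : Mp (Om k) m}
    (hN : OkH d P N X) {P₀ : k[X]} {N₀ : Mp k m} (hN₀ : OkH d P₀ N₀ X) (hP : PolAt v P P₀)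
    (hNv : MpAt v N N₀) {x y : Om k} {x₀ y₀ : k} (hx : v.At x x₀) (hy : v.At y y₀)
    (h : y ^ 2 = P.eval x) : cv hX hN v x y = ck hX hN₀ x₀ y₀ := by
  have h₀ : y₀ ^ 2 = P₀.eval x₀ := by
    have h1 := hy.pow 2
    rw [h] at h1
    exact h1.unique (hP.eval hx)
  -- a line through the point
  obtain ⟨g₀, R₀, hl₀, hg₀, -, -, hc₀⟩ := exists_clean hN₀ h₀ ∅
  set g : (Om k)[X] := g₀.map (algebraMap k (Om k)) +
    C (y - (g₀.map (algebraMap k (Om k))).eval x) with hg
  have hgat : PolAt v g g₀ := by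
    have h1 : v.At (y - (g₀.map (algebraMap k (Om k))).eval x) 0 := by
      have h2 := hy.sub ((PolAt.map (v := v) g₀).eval hx)
      rwa [hg₀, sub_self] at h2
    have h2 := (PolAt.map (v := v) g₀).add (PolAt.c h1)
    rwa [map_zero, add_zero] at h2
  have hgx : g.eval x = y := by
    rw [hg, Polynomial.eval_add, Polynomial.eval_C, add_sub_cancel]
  have hgd : g.natDegree ≤ d := by
    rw [hg]
    refine (Polynomial.natDegree_add_le _ _).trans (max_le ?_ ?_)
    · exact (Polynomial.natDegree_map_le).trans hl₀.deg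
    · rw [Polynomial.natDegree_C]
      exact Nat.zero_le _
  have hlead : g.coeff d ^ 2 ≠ P.coeff (2 * d) := good_lead hgat hP hl₀.lead
  have hroot : (g ^ 2 - P).IsRoot x := by
    rw [Polynomial.IsRoot.def, Polynomial.eval_sub, Polynomial.eval_pow, hgx, h, sub_self]
  obtain ⟨R, hR⟩ := Polynomial.dvd_iff_isRoot.2 hroot
  have hl : Ln d P g (Polynomial.X - C x) R := ⟨hgd, hlead, hR⟩
  have he : PolAt v (Polynomial.X - C x) (Polynomial.X - C x₀) := PolAt.x.sub (PolAt.c hx)
  have hRat : PolAt v R R₀ := by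
    refine PolAt.of_mul he (monic_X_sub_C x) (monic_X_sub_C x₀) ?_
    rw [← hR, ← hl₀.eq]
    exact (hgat.pow 2).sub hP
  have hdeg : R.natDegree = R₀.natDegree := by
    have h1 := hl.natDegree hN.pos hN.deg
    have h2 := hl₀.natDegree hN₀.pos hN₀.deg
    have hd := hN.pos
    have hR0 : R ≠ 0 := by
      rintro rfl
      rw [mul_zero, Polynomial.natDegree_zero] at h1
      omega
    have hR₀0 : R₀ ≠ 0 := by
      rintro rfl
      rw [mul_zero, Polynomial.natDegree_zero] at h2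
      omega
    rw [Polynomial.natDegree_mul (X_sub_C_ne_zero x) hR0, natDegree_X_sub_C] at h1
    rw [Polynomial.natDegree_mul (X_sub_C_ne_zero x₀) hR₀0, natDegree_X_sub_C] at h2
    omega
  obtain ⟨hc, hlim⟩ := lim_LR hX hN hN₀ hNv hl hl₀ hgat hRat hdeg hc₀
  -- a line without a given point
  obtain ⟨g₁, R₁, hl₁, -, hc₁⟩ := exists_clean_one hN₀ ∅
  have hg₁at : PolAt v (g₁.map (algebraMap k (Om k))) g₁ := PolAt.map g₁
  have hl₁' : Ln d P (g₁.map (algebraMap k (Om k))) 1
      ((g₁.map (algebraMap k (Om k))) ^ 2 - P) :=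
    ⟨(Polynomial.natDegree_map_le).trans hl₁.deg, good_lead hg₁at hP hl₁.lead,
      (one_mul _).symm⟩
  have hR₁at : PolAt v ((g₁.map (algebraMap k (Om k))) ^ 2 - P) R₁ := by
    have h1 : R₁ = g₁ ^ 2 - P₀ := by rw [hl₁.eq, one_mul]
    rw [h1]
    exact (hg₁at.pow 2).sub hP
  have hdeg₁ : ((g₁.map (algebraMap k (Om k))) ^ 2 - P).natDegree = R₁.natDegree := by
    have h1 := hl₁'.natDegree hN.pos hN.deg
    have h2 := hl₁.natDegree hN₀.pos hN₀.deg
    rw [one_mul] at h1 h2
    rw [h1, h2]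
  obtain ⟨hc₁', hlim₁⟩ := lim_LR hX hN hN₀ hNv hl₁' hl₁ hg₁at hR₁at hdeg₁ hc₁
  rw [cv_spec hX hN v h hl₁' hc₁' hl hgx hc, ck_spec hX hN₀ h₀ hl₁ hc₁ hl₀ hg₀ hc₀, hlim, hlim₁]

end Pool.Agent.GTM
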