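import Pool.Agent.GTM.Tr
import Pool.Agent.GTM.Good

/-!
# Good reduction of the sums over all roots
-/

set_option autoImplicit false

noncomputable section

namespace Pool.Agent.GTM

open Pool.Agent.ZCyc Pool.Agent.Dess Pool.Agent.GT Polynomial
open Pool.Agent.VFP (Om tt)
open scoped Classical LinearAlgebra.Projectivization

variable {k : Type} [Field k] [IsAlgClosed k] [CharZero k] {m : ℕ}
  {X : Set (MvPolynomial (Fin (m + 1)) k)} {A : Type} [CommRing A] [Algebra k A] {ν : ℕ}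

private instance : CharZero (Om k) :=
  charZero_of_injective_algebraMap (algebraMap k (Om k)).injective

/-- values of `wP` -/
theorem wP_at {v : Place k (Om k)} {B δ : Om k} {B₀ δ₀ : k} (hB : v.At B B₀) (hδ : v.At δ δ₀) :
    PolAt v (wP ν B δ) (wP ν B₀ δ₀) :=
  ((PolAt.x.pow _).add ((PolAt.c hB).mul (PolAt.x.pow _))).add (PolAt.c hδ)

/-- Good reduction: `rts_equiv`, `mp_at`, `wP_at`, `cv_eq_ck`. -/
theorem TV_eq_TK (hX : Hom X) {d : GD A m} (hd : OkW ν d X) {S : A →ₐ[k] Om k} {s : A →ₐ[k] k}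
    {v : Place k (Om k)} (h : ∀ a : A, v.At (S a) (s a)) {x y : Om k} {x₀ y₀ : k}
    (hx : v.At x x₀) (hy : v.At y y₀) (hxy : y ^ 2 = x ^ (2 * ν) + S d.B * x ^ ν + S d.α) :
    TV hX hd S v x y = TK hX hd s x₀ y₀ := by
  obtain ⟨e, he⟩ := rts_equiv hd.monic hd.sep h
  unfold TV TK
  rw [← Equiv.sum_comp e]
  refine Finset.sum_congr rfl fun θ _ => ?_
  exact cv_eq_ck hX (hd.mp_ok S θ.2) (hd.mp_ok s (e θ).2) (wP_at (h d.B) (h d.α))
    (mp_at h (he θ)) hx hy (by rw [wP_eval]; exact hxy)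

/-- Points which tend to `x = 0`: rotation does not change the class. (`y` has a value because `y ²`
has one, `TV_eq_TK` for both points.) -/
theorem TV_zero (hX : Hom X) {d : GD A m} (hd : OkW ν d X) {S : A →ₐ[k] Om k} {s : A →ₐ[k] k}
    {v : Place k (Om k)} (h : ∀ a : A, v.At (S a) (s a)) {ζ : k} (hζ : ζ ^ ν = 1) {x y : Om k}
    (hx : v.At x 0) (hxy : y ^ 2 = x ^ (2 * ν) + S d.B * x ^ ν + S d.α) :
    TV hX hd S v (algebraMap k (Om k) ζ * x) y = TV hX hd S v x y := by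
  have h2 : v.At (y ^ 2) ((0 : k) ^ (2 * ν) + s d.B * 0 ^ ν + s d.α) := by
    rw [hxy]
    exact ((hx.pow _).add ((h d.B).mul (hx.pow _))).add (h d.α)
  have hy : y ∈ v.ring := by
    have h3 : IsIntegral v.ring y := by
      refine IsIntegral.of_pow (n := 2) (by norm_num) ?_
      exact isIntegral_algebraMap (R := v.ring) (A := Om k) (x := ⟨y ^ 2, h2.mem⟩)
    obtain ⟨z, hz⟩ := IsIntegrallyClosed.isIntegral_iff.1 h3
    rw [← hz]
    exact z.2
  obtain ⟨y₀, hy₀⟩ := DCI57.exists_at v hy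
  have hx' : v.At (algebraMap k (Om k) ζ * x) 0 := by
    have h3 := (Place.at_const (v := v) ζ).mul hx
    rwa [mul_zero] at h3
  have hζ' : (algebraMap k (Om k) ζ) ^ ν = 1 := by rw [← map_pow, hζ, map_one]
  have hζ2 : (algebraMap k (Om k) ζ) ^ (2 * ν) = 1 := by rw [mul_comm, pow_mul, hζ', one_pow]
  rw [TV_eq_TK hX hd h hx hy₀ hxy, TV_eq_TK hX hd h hx' hy₀ (by
    rw [mul_pow, mul_pow, hζ', hζ2, one_mul, one_mul]
    exact hxy)]

end Pool.Agent.GTM
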