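import Pool.Agent.GTM.LineV
import Pool.Agent.GTM.TrC

/-!
# The sum over the rotations of a point
-/

set_option autoImplicit false

noncomputable section

namespace Pool.Agent.GTM

open Pool.Agent.ZCyc Pool.Agent.Dess Pool.Agent.GT Polynomial
open Pool.Agent.VFP (Om tt)
open scoped Classical LinearAlgebra.Projectivization

variable {k : Type} [Field k] [IsAlgClosed k] [CharZero k] {m : ℕ}
  {X : Set (MvPolynomial (Fin (m + 1)) k)} {A : Type} [CommRing A] [Algebra k A] {ν : ℕ}

private instance : CharZero (Om k) :=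
  charZero_of_injective_algebraMap (algebraMap k (Om k)).injective

omit [IsAlgClosed k] [CharZero k] in
private theorem SumRot_zmod {M : Type} [AddCommMonoid M] [NeZero ν] (f : ℕ → M) :
    ∑ a : ZMod ν, f a.val = ((Multiset.range ν).map f).sum := by
  obtain ⟨n, rfl⟩ : ∃ n, ν = n + 1 := ⟨ν - 1, by have := NeZero.pos ν; omega⟩
  change ∑ a : Fin (n + 1), f a = ((Finset.range (n + 1)).1.map f).sum
  rw [Fin.sum_univ_eq_sum_range]
  rfl

omit [IsAlgClosed k] [CharZero k] in
/-- the roots of `X ^ ν - x ^ ν` -/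
private theorem SumRot_roots {ζ : k} (hζ : IsPrimitiveRoot ζ ν) (x : Om k) :
    (Polynomial.X ^ ν - C (x ^ ν) : (Om k)[X]).roots =
      (Multiset.range ν).map fun i => algebraMap k (Om k) ζ ^ i * x := by
  have h1 : IsPrimitiveRoot (algebraMap k (Om k) ζ) ν :=
    hζ.map_of_injective (algebraMap k (Om k)).injective
  exact h1.nthRoots_eq rfl

omit [IsAlgClosed k] [CharZero k] in
/-- the sum over the roots of `X ^ ν - x ^ ν` of the values at a line -/
private theorem SumRot_line {M : Type} [AddCommMonoid M] [NeZero ν] {ζ : k}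
    (hζ : IsPrimitiveRoot ζ ν) (x b c y : Om k) (F : Om k → Om k → M)
    (hy : b + c * x ^ ν = y) :
    ((Polynomial.X ^ ν - C (x ^ ν) : (Om k)[X]).roots.map fun z =>
      F z ((C b + C c * Polynomial.X ^ ν : (Om k)[X]).eval z)).sum =
      ∑ a : ZMod ν, F (algebraMap k (Om k) ζ ^ a.val * x) y := by
  rw [SumRot_roots hζ, Multiset.map_map,
    SumRot_zmod (ν := ν) fun i => F (algebraMap k (Om k) ζ ^ i * x) y]
  congr 1
  refine Multiset.map_congr rfl fun i _ => ?_
  have h1 : (algebraMap k (Om k) ζ ^ i * x) ^ ν = x ^ ν := by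
    rw [mul_pow, ← pow_mul, mul_comm i, pow_mul, ← map_pow, hζ.pow_eq_one, map_one, one_pow,
      one_mul]
  simp only [Function.comp_apply, eval_add, eval_mul, eval_C, eval_pow, eval_X]
  rw [h1, hy]

omit [IsAlgClosed k] [CharZero k] in
private theorem SumRot_deg (hν : 0 < ν) (b c : Om k) :
    (C b + C c * Polynomial.X ^ ν : (Om k)[X]).natDegree ≤ ν ∧
      (C b + C c * Polynomial.X ^ ν : (Om k)[X]).coeff ν = c := by
  constructor
  · refine (natDegree_add_le _ _).trans (max_le ?_ (natDegree_C_mul_X_pow_le _ _))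
    rw [natDegree_C]
    exact Nat.zero_le _
  · rw [coeff_add, coeff_C, if_neg hν.ne', coeff_C_mul, coeff_X_pow_self, zero_add, mul_one]

/-- The line `g = y + c (X ^ ν - x ^ ν)`, `c = (2 V + B) / (2 y)`, `V = x ^ ν`, is tangent at `(V, y)` to the
conic: `g ² - P = (c ² - 1) (X ^ ν - V) ²`, and `c ² ≠ 1` because `(2 V + B) ² - 4 y ² = B ² - 4 δ ≠ 0`. Its
roots are the `ζ ^ a x`, with the multiplicity two (also for `x = 0`). -/
theorem two_sum_rot (hX : Hom X) {B δ : Om k} (hν : 0 < ν) {N : Mp (Om k) m}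
    (hN : OkH ν (wP ν B δ) N X) (v : Place k (Om k)) {ζ : k} (hζ : IsPrimitiveRoot ζ ν)
    (hB : B ^ 2 ≠ 4 * δ) [NeZero ν] {x y : Om k} (hy : y ≠ 0) (h : y ^ 2 = (wP ν B δ).eval x) :
    (2 : ℚ) • ∑ a : ZMod ν, cv hX hN v (algebraMap k (Om k) ζ ^ a.val * x) y =
      lineV hX hN v (C y + C ((2 * x ^ ν + B) / (2 * y)) * (Polynomial.X ^ ν - C (x ^ ν))) := by
  set V := x ^ ν with hV
  have hy2 : y ^ 2 = V ^ 2 + B * V + δ := by
    rw [h, wP_eval, hV, mul_comm 2 ν, pow_mul]
  set c := (2 * V + B) / (2 * y) with hc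
  have h2 : (2 : Om k) ≠ 0 := two_ne_zero
  have hcy : c * (2 * y) = 2 * V + B := div_mul_cancel₀ _ (mul_ne_zero h2 hy)
  clear_value c V
  have hc1 : c ^ 2 - 1 ≠ 0 := by
    intro h0
    apply hB
    linear_combination (4 * y ^ 2) * h0 - (2 * V + B + c * (2 * y)) * hcy + 4 * hy2
  have hg : C y + C c * (Polynomial.X ^ ν - C V) =
      C (y - c * V) + C c * Polynomial.X ^ ν := by
    rw [C_sub, C_mul]
    ring
  have hfac : (C y + C c * (Polynomial.X ^ ν - C V)) ^ 2 - wP ν B δ =
      C (c ^ 2 - 1) * (Polynomial.X ^ ν - C V) ^ 2 := by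
    have e1 : C c * (2 * C y) = 2 * C V + C B := by
      rw [← map_ofNat (C : Om k →+* _) 2, ← C_mul, ← C_mul, hcy, C_add, C_mul]
    have e2 : C y ^ 2 = C V ^ 2 + C B * C V + C δ := by
      rw [← C_pow, hy2, C_add, C_add, C_mul, C_pow]
    rw [wP, C_sub, C_pow, C_1, mul_comm 2 ν, pow_mul]
    linear_combination (Polynomial.X ^ ν - C V) * e1 + e2
  unfold lineV
  rw [hfac, roots_C_mul _ hc1, roots_pow, hg, Multiset.map_nsmul, Multiset.sum_nsmul, hV,
    SumRot_line hζ x _ c y (fun z w => cv hX hN v z w) (by ring)]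
  rw [two_smul, two_smul]

/-- The sum over the rotations is the same for all points of the curve. For points with `y ≠ 0`, `y' ≠ 0`:
`two_sum_rot`, `lineV_eq`. For `y = 0` (then `V = x ^ ν` is a root of `V ² + B V + δ`) take a value `V₁` such
that `V₁ ≠ V` and `y₁ ² = V₁ ² + B V₁ + δ` is not `0` and the slope `c` of the line through `(V, 0)` and
`(V₁, y₁)` satisfies `c ² ≠ 1` (finitely many exceptions); this line has the zeros `ζ ^ a x`, `ζ ^ a x₁`
(`x₁ ^ ν = V₁`), so the sum for `x` plus the sum for `x₁` is `lineV`, and the sum for `x₁` is half of it. -/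
theorem sum_rot (hX : Hom X) {B δ : Om k} (hν : 0 < ν) {N : Mp (Om k) m}
    (hN : OkH ν (wP ν B δ) N X) (v : Place k (Om k)) {ζ : k} (hζ : IsPrimitiveRoot ζ ν)
    (hB : B ^ 2 ≠ 4 * δ) [NeZero ν] {x y x' y' : Om k} (h : y ^ 2 = (wP ν B δ).eval x)
    (h' : y' ^ 2 = (wP ν B δ).eval x') :
    ∑ a : ZMod ν, cv hX hN v (algebraMap k (Om k) ζ ^ a.val * x) y =
      ∑ a : ZMod ν, cv hX hN v (algebraMap k (Om k) ζ ^ a.val * x') y' := by
  have hline : ∀ b c b' c' : Om k, c ^ 2 ≠ 1 → c' ^ 2 ≠ 1 →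
      lineV hX hN v (C b + C c * Polynomial.X ^ ν) =
        lineV hX hN v (C b' + C c' * Polynomial.X ^ ν) := by
    intro b c b' c' hc hc'
    obtain ⟨h1, h2⟩ := SumRot_deg hν b c
    obtain ⟨h1', h2'⟩ := SumRot_deg hν b' c'
    refine lineV_eq hX hN v h1 ?_ h1' ?_
    · rw [h2, wP_coeff_top hν]
      exact hc
    · rw [h2', wP_coeff_top hν]
      exact hc'
  have h2 : (2 : Om k) ≠ 0 := two_ne_zero
  -- points with `y ≠ 0`
  have hne : ∀ x y : Om k, y ≠ 0 → y ^ 2 = (wP ν B δ).eval x →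
      (2 : ℚ) • ∑ a : ZMod ν, cv hX hN v (algebraMap k (Om k) ζ ^ a.val * x) y =
        lineV hX hN v (C 0 + C 0 * Polynomial.X ^ ν) := by
    intro x y hy h
    rw [two_sum_rot hX hν hN v hζ hB hy h]
    have hy2 : y ^ 2 = (x ^ ν) ^ 2 + B * x ^ ν + δ := by
      rw [h, wP_eval, mul_comm 2 ν, pow_mul]
    set V := x ^ ν with hV
    set c := (2 * V + B) / (2 * y) with hc
    have hcy : c * (2 * y) = 2 * V + B := div_mul_cancel₀ _ (mul_ne_zero h2 hy)
    have hg : C y + C c * (Polynomial.X ^ ν - C V) =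
        C (y - c * V) + C c * Polynomial.X ^ ν := by
      rw [C_sub, C_mul]
      ring
    rw [hg]
    refine hline _ _ _ _ ?_ (by norm_num)
    intro h0
    apply hB
    linear_combination (4 * y ^ 2) * h0 - (2 * V + B + c * (2 * y)) * hcy + 4 * hy2
  have key : ∀ x y : Om k, y ^ 2 = (wP ν B δ).eval x →
      (2 : ℚ) • ∑ a : ZMod ν, cv hX hN v (algebraMap k (Om k) ζ ^ a.val * x) y =
        lineV hX hN v (C 0 + C 0 * Polynomial.X ^ ν) := by
    intro x y h
    by_cases hy : y = 0
    · subst hy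
      have hV0 : (x ^ ν) ^ 2 + B * x ^ ν + δ = 0 := by
        rw [wP_eval, mul_comm 2 ν, pow_mul] at h
        rw [← h]
        ring
      set V := x ^ ν with hV
      -- the other root and the third value
      set V' := -B - V with hV'
      have hVV : V' - V ≠ 0 := by
        intro h0
        apply hB
        have h1 : B = -2 * V := by linear_combination -h0
        rw [h1]
        rw [h1] at hV0
        linear_combination -4 * hV0
      obtain ⟨x₁, hx₁⟩ := IsAlgClosed.exists_pow_nat_eq (2 * V' - V) hν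
      obtain ⟨y₁, hy₁⟩ := IsAlgClosed.exists_pow_nat_eq
        ((2 * V' - V - V) * (2 * V' - V - V')) (n := 2) (by norm_num)
      have e1 : 2 * V' - V - V = 2 * (V' - V) := by ring
      have e2 : 2 * V' - V - V' = V' - V := by ring
      rw [e1, e2] at hy₁
      have hy1 : y₁ ≠ 0 := by
        rintro rfl
        apply hVV
        have h3 : (V' - V) * (V' - V) = 0 := by
          have h4 : (2 : Om k) * ((V' - V) * (V' - V)) = 0 := by
            linear_combination -hy₁
          exact (mul_eq_zero.1 h4).resolve_left h2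
        exact mul_self_eq_zero.1 h3
      have hP1 : y₁ ^ 2 = (wP ν B δ).eval x₁ := by
        rw [wP_eval, mul_comm 2 ν, pow_mul, hx₁, hy₁, hV']
        linear_combination -hV0
      -- the line through the two points
      set c := y₁ / (2 * (V' - V)) with hc
      have hcy : c * (2 * (V' - V)) = y₁ := div_mul_cancel₀ _ (mul_ne_zero h2 hVV)
      have hc2 : 2 * c ^ 2 = 1 := by
        have h3 : (2 * c ^ 2 - 1) * (2 * (V' - V) ^ 2) = 0 := by
          linear_combination (c * (2 * (V' - V)) + y₁) * hcy + hy₁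
        rcases mul_eq_zero.1 h3 with h4 | h4
        · exact sub_eq_zero.1 h4
        · exact absurd h4 (mul_ne_zero h2 (pow_ne_zero 2 hVV))
      have hc1 : c ^ 2 ≠ 1 := by
        intro h0
        rw [h0] at hc2
        norm_num at hc2
      have hfac : (C (-c * V) + C c * Polynomial.X ^ ν) ^ 2 - wP ν B δ =
          C (c ^ 2 - 1) * ((Polynomial.X ^ ν - C (x ^ ν)) * (Polynomial.X ^ ν - C (x₁ ^ ν))) := by
        have f1 : C δ = -(C V ^ 2 + C B * C V) := by
          rw [← C_pow, ← C_mul, ← C_add, ← C_neg]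
          congr 1
          linear_combination hV0
        have f2 : C (2 : Om k) * C c ^ 2 = 1 := by
          rw [← C_pow, ← C_mul, hc2, C_1]
        have f3 : C (x₁ ^ ν) = C 2 * (-C B - C V) - C V := by
          rw [hx₁, hV', C_sub, C_mul, C_sub, C_neg]
        have f4 : (C (2 : Om k)) = 2 := map_ofNat C 2
        rw [f4] at f2 f3
        rw [wP, C_sub, C_pow, C_1, mul_comm 2 ν, pow_mul, f3, f1, C_mul, C_neg, ← hV]
        linear_combination -(Polynomial.X ^ ν - C V) * (C B + 2 * C V) * f2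
      have hL := hline (-c * V) c 0 0 hc1 (by norm_num)
      have hne' : (C (c ^ 2 - 1) : (Om k)[X]) * ((Polynomial.X ^ ν - C (x ^ ν)) *
          (Polynomial.X ^ ν - C (x₁ ^ ν))) ≠ 0 := by
        refine mul_ne_zero (C_ne_zero.2 (sub_ne_zero.2 hc1)) (mul_ne_zero ?_ ?_)
        · exact X_pow_sub_C_ne_zero hν _
        · exact X_pow_sub_C_ne_zero hν _
      have h3 := hne x₁ y₁ hy1 hP1
      rw [← hL] at h3 ⊢
      have h4 : lineV hX hN v (C (-c * V) + C c * Polynomial.X ^ ν) =
          (∑ a : ZMod ν, cv hX hN v (algebraMap k (Om k) ζ ^ a.val * x) 0) +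
          ∑ a : ZMod ν, cv hX hN v (algebraMap k (Om k) ζ ^ a.val * x₁) y₁ := by
        unfold lineV
        rw [hfac, roots_C_mul _ (sub_ne_zero.2 hc1), roots_mul (right_ne_zero_of_mul hne'),
          Multiset.map_add, Multiset.sum_add,
          SumRot_line hζ x _ c 0 (fun z w => cv hX hN v z w) (by rw [← hV]; ring),
          SumRot_line hζ x₁ _ c y₁ (fun z w => cv hX hN v z w) (by
            rw [hx₁]; linear_combination hcy)]
      rw [h4, two_smul] at h3
      have h5 := add_right_cancel h3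
      rw [h4, two_smul, h5]
    · exact hne x y hy h
  have h3 := (key x y h).trans (key x' y' h').symm
  exact smul_right_injective _ (two_ne_zero (α := ℚ)) h3

/-- the same for the sums over all roots of `h` -/
theorem sum_rot_TV (hX : Hom X) {d : GD A m} (hd : OkW ν d X) (S : A →ₐ[k] Om k)
    (v : Place k (Om k)) {ζ : k} (hζ : IsPrimitiveRoot ζ ν) [NeZero ν] {x y x' y' : Om k}
    (h : y ^ 2 = x ^ (2 * ν) + S d.B * x ^ ν + S d.α)
    (h' : y' ^ 2 = x' ^ (2 * ν) + S d.B * x' ^ ν + S d.α) :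
    ∑ a : ZMod ν, TV hX hd S v (algebraMap k (Om k) ζ ^ a.val * x) y =
      ∑ a : ZMod ν, TV hX hd S v (algebraMap k (Om k) ζ ^ a.val * x') y' := by
  unfold TV
  rw [Finset.sum_comm, Finset.sum_comm (s := (Finset.univ : Finset (ZMod ν)))]
  refine Finset.sum_congr rfl fun θ _ => ?_
  refine sum_rot hX hd.pos (hd.mp_ok S θ.2) v hζ ?_ ?_ ?_
  · intro h0
    have h1 : IsUnit (S (d.B ^ 2 - 4 * d.α)) := hd.disc.map S
    rw [map_sub, map_mul, map_pow, map_ofNat, h0, sub_self] at h1
    exact not_isUnit_zero h1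
  · rw [wP_eval]
    exact h
  · rw [wP_eval]
    exact h'

end Pool.Agent.GTM
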