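import Pool.Agent.GTM.TVL
import Pool.Agent.GTM.CoD
import Pool.Agent.GTM.CoE
import Pool.Agent.GTM.SumRot

/-!
# Differences of two points of a fibre
-/

set_option autoImplicit false

noncomputable section

namespace Pool.Agent.GTM

open Pool.Agent.ZCyc Pool.Agent.Dess Pool.Agent.GT Polynomial Pool.Agent.ZIso
open Pool.Agent.VFP (Om tt)
open scoped Classical LinearAlgebra.Projectivization

open Pool.Agent.TInc

variable {k L : Type} [Field k] [IsAlgClosed k] [CharZero k] [Field L] [Algebra k L] {m : ℕ}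
  {X : Set (MvPolynomial (Fin (m + 1)) k)} {n ν a g h N r : ℕ} {R : Type} [Field R] [CharZero R]

/-- the span of the eigenvectors, modulo rational equivalence -/
def WR (R : Type) [Field R] [CharZero R] {ν : ℕ} [NeZero ν]
    (S : Set (ZMod ν → (Pt X k →₀ ℚ))) (ω : R) : Submodule R (Pt X k →₀ R) :=
  Submodule.span R (eig ω '' S) ⊔ RatR1 R X

/-- all functions which are the classes of the limits of the rotations of points -/
def RotAll (hX : Hom X) [NeZero ν] (ζ : k) {d : GD L m} (hd : OkW ν d X) :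
    Set (ZMod ν → (Pt X k →₀ ℚ)) :=
  {w | ∃ (σ : L →ₐ[k] Om k) (v : Place k (Om k)) (x y : Om k),
    y ^ 2 = x ^ (2 * ν) + σ d.B * x ^ ν + σ d.α ∧ ∀ a, cl1 X (w a) = rotL hX hd ζ σ v x y a}

omit [IsAlgClosed k] [CharZero k] in
private theorem cri_surj : Function.Surjective (cl1 X) := by
  intro c
  obtain ⟨w, rfl⟩ := Submodule.Quotient.mk_surjective _ c
  refine ⟨Finsupp.mapDomain (fun x => x ()) w, ?_⟩
  change Submodule.Quotient.mk (Finsupp.mapDomain (fun x _ => x)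
    (Finsupp.mapDomain (fun x => x ()) w)) = _
  rw [← Finsupp.mapDomain_comp]
  have h3 : ((fun (x : Pt X k) (_ : Unit) => x) ∘ fun x : Unit → Pt X k => x ()) = id := rfl
  rw [h3, Finsupp.mapDomain_id]

/-- The differences of two classes of points over the same point of the base. -/
def DiffL (hX : Hom X) {d : GD L m} (hd : OkW ν d X) : Set (CH X Unit) :=
  {w | ∃ (σ : L →ₐ[k] Om k) (v : Place k (Om k)) (x y x' y' : Om k),
    y ^ 2 = x ^ (2 * ν) + σ d.B * x ^ ν + σ d.α ∧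
    y' ^ 2 = x' ^ (2 * ν) + σ d.B * x' ^ ν + σ d.α ∧
    w = TV hX hd σ v x y - TV hX hd σ v x' y'}

/-- The differences are combinations of eigenvectors: with coefficients in `k` and a primitive root
`ζ`, `ν w(0) = ∑ eig (ζ ^ i) w` (`toR_zero`), and the eigenvectors for `i = 0` have the same class
(`sum_rot_TV`). -/
theorem diff_mem [NeZero ν] (hX : Hom X) {d : GD L m} (hd : OkW ν d X) {ζ : k}
    (hζ : IsPrimitiveRoot ζ ν) (h1 : 1 < ν) {z : Pt X k →₀ ℚ} (hz : cl1 X z ∈ DiffL hX hd) :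
    toR k z ∈ ⨆ i : Fin (ν - 1), WR k (RotAll hX ζ hd) (ζ ^ (i.val + 1)) := by
  obtain ⟨σ, v, x, y, x', y', hxy, hxy', hcl⟩ := hz
  choose w hw using fun a : ZMod ν => cri_surj (rotL hX hd ζ σ v x y a)
  choose w' hw' using fun a : ZMod ν => cri_surj (rotL hX hd ζ σ v x' y' a)
  have hwS : w ∈ RotAll hX ζ hd := ⟨σ, v, x, y, hxy, hw⟩
  have hwS' : w' ∈ RotAll hX ζ hd := ⟨σ, v, x', y', hxy', hw'⟩
  let T := ⨆ i : Fin (ν - 1), WR k (RotAll hX ζ hd) (ζ ^ (i.val + 1))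
  have hle : ∀ i : Fin (ν - 1), WR k (RotAll hX ζ hd) (ζ ^ (i.val + 1)) ≤ T :=
    fun i => le_iSup (fun i : Fin (ν - 1) => WR k (RotAll hX ζ hd) (ζ ^ (i.val + 1))) i
  have hrat : ∀ u : Pt X k →₀ ℚ, u ∈ Rat1 X → toR k u ∈ T := fun u hu =>
    hle ⟨0, by omega⟩ (Submodule.mem_sup_right (toR_rat1 hu))
  have heig : ∀ (u : ZMod ν → (Pt X k →₀ ℚ)), u ∈ RotAll hX ζ hd → ∀ i : ZMod ν, i ≠ 0 →
      eig (ζ ^ i.val) u ∈ T := by
    intro u hu i hi
    have h2 : i.val ≠ 0 := fun h => hi ((ZMod.val_eq_zero i).1 h)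
    have h3 := i.val_lt
    have h4 := hle ⟨i.val - 1, by omega⟩ (Submodule.mem_sup_left
      (Submodule.subset_span ⟨u, hu, rfl⟩))
    simp only at h4
    rwa [Nat.sub_add_cancel (by omega)] at h4
  -- the class of `w 0 - w' 0`
  have h0 : ∀ σ v x y, rotL hX hd ζ σ v x y 0 = TV hX hd σ v x y := by
    intro σ v x y
    unfold rotL
    rw [ZMod.val_zero, pow_zero, one_mul]
  have hz0 : z - (w 0 - w' 0) ∈ Rat1 X := by
    rw [mem_rat1, map_sub, map_sub, hcl, hw, hw', h0, h0, sub_self]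
  have hsum : (∑ a, w a) - ∑ a, w' a ∈ Rat1 X := by
    rw [mem_rat1, map_sub, map_sum, map_sum, sub_eq_zero]
    simp only [hw, hw']
    exact sum_rot_TV hX hd σ v hζ hxy hxy'
  have hν0 : (ν : k) ≠ 0 := Nat.cast_ne_zero.2 (NeZero.ne ν)
  have key : (ν : k) • toR k (w 0 - w' 0) ∈ T := by
    rw [map_sub, smul_sub, toR_zero hζ, toR_zero hζ, ← Finset.sum_sub_distrib,
      ← Finset.add_sum_erase Finset.univ _ (Finset.mem_univ (0 : ZMod ν))]
    refine T.add_mem ?_ (T.sum_mem fun i hi => T.sub_mem (heig w hwS i (Finset.ne_of_mem_erase hi))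
      (heig w' hwS' i (Finset.ne_of_mem_erase hi)))
    have h5 : ∀ u : ZMod ν → (Pt X k →₀ ℚ), eig (ζ ^ (0 : ZMod ν).val) u = toR k (∑ a, u a) := by
      intro u
      unfold eig
      rw [map_sum]
      refine Finset.sum_congr rfl fun a _ => ?_
      rw [ZMod.val_zero, pow_zero, one_pow, inv_one, one_smul]
    rw [h5, h5, ← map_sub]
    exact hrat _ hsum
  have h6 : toR k z = toR k (z - (w 0 - w' 0)) + (ν : k)⁻¹ • ((ν : k) • toR k (w 0 - w' 0)) := by
    rw [smul_smul, inv_mul_cancel₀ hν0, one_smul, ← map_add, sub_add_cancel]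
  rw [h6]
  exact T.add_mem (hrat _ hz0) (T.smul_mem _ key)

private theorem cri_alt {n : ℕ} (z : Fin n → (Pt X k →₀ R)) :
    ∑ π : Equiv.Perm (Fin n), ((Equiv.Perm.sign π : ℤ) : R) • extR (fun j => z (π j)) =
      altR z := by
  unfold altR
  refine Finset.sum_congr rfl fun π _ => ?_
  rw [Int.cast_smul_eq_zsmul]

/-- Case (I), for elements of the group algebra of the symmetric group. -/
theorem kill_I [NeZero ν] (hX : Hom X) (hL : IsCurve k L) {d : GD L m} (hd : OkW ν d X) {ζ : k}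
    (hζ : IsPrimitiveRoot ζ ν) {A : Place k L →₀ ℤ} (hA : deg A = a) (ha : 0 < a)
    (hB : ∀ v, 0 ≤ ord v d.B + ν * A v) (hδ : ∀ v, 0 ≤ ord v d.α + 2 * ν * A v)
    (hJ : ∀ c : k, d.B ^ 2 ≠ algebraMap k L c * d.α) (hg : Riemann hL g)
    (hN : (ν - 1) * a + g ≤ N + 1) {S : Set (ZMod ν → (Pt X k →₀ ℚ))} (hS : IsRotL hX ζ hd S)
    (Ω : Fin h → R) (hΩ : ∀ i, Ω i ^ ν = 1 ∧ Ω i ≠ 1) {β : Equiv.Perm (Fin r) → R}
    (hβ : KillsTensors (h * N) β) (z : Fin r → (Pt X k →₀ R))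
    (hz : ∀ j, z j ∈ ⨆ i, WR R S (Ω i)) :
    ∑ τ : Equiv.Perm (Fin r), β τ • extR (fun j => z (τ j)) ∈ RatR R X (Fin r) := by
  refine kill_extR hX (fun i => WR R S (Ω i)) (fun i w hw => ?_) hβ z hz
  rw [cri_alt]
  exact alt_I hX hL hd hζ hA ha hB hδ hJ hg (Nat.succ_pos N) hN hS.isRot (hΩ i).1 (hΩ i).2 w hw

/-- Case (II), for elements of the group algebra of the symmetric group. -/
theorem kill_II {μ : ℕ} [NeZero μ] (hX : Hom X) (hL : IsCurve k L) {d : GD L m}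
    (hd : OkW (2 * μ) d X) {ζ : k} (hζ : IsPrimitiveRoot ζ (2 * μ)) {A : Place k L →₀ ℤ}
    (hA : deg A = a) (ha : 0 < a) (hB : ∀ v, 0 ≤ ord v d.B + (2 * μ : ℕ) * A v)
    (hδ : ∀ v, 0 ≤ ord v d.α + 2 * (2 * μ : ℕ) * A v)
    (hJ : ∀ c : k, d.B ^ 2 ≠ algebraMap k L c * d.α) (hg : Riemann hL g) {f : L}
    (hf : f ^ μ = d.α) (hN : (μ - 2) * a + g ≤ N + 1)
    {S : Set (ZMod (2 * μ) → (Pt X k →₀ ℚ))} (hS : IsRotL hX ζ hd S)
    (Ω : Fin h → R) (hΩ : ∀ i, Ω i ^ μ = (-1) ^ μ ∧ Ω i ^ 2 ≠ 1) {β : Equiv.Perm (Fin r) → R}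
    (hβ : KillsTensors (h * N) β) (z : Fin r → (Pt X k →₀ R))
    (hz : ∀ j, z j ∈ ⨆ i, WR R S (Ω i)) :
    ∑ τ : Equiv.Perm (Fin r), β τ • extR (fun j => z (τ j)) ∈ RatR R X (Fin r) := by
  refine kill_extR hX (fun i => WR R S (Ω i)) (fun i w hw => ?_) hβ z hz
  rw [cri_alt]
  exact alt_II hX hL hd hζ hA ha hB hδ hJ hg (Nat.succ_pos N) hf hN hS.isRot (hΩ i).1 (hΩ i).2 w
    hw

theorem isRotL_all (hX : Hom X) [NeZero ν] (ζ : k) {d : GD L m} (hd : OkW ν d X) :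
    IsRotL hX ζ hd (RotAll hX ζ hd) := fun _ hw => hw

/-- Case (I), for the differences of two points of a fibre. -/
theorem kill_diff_I [NeZero ν] (hX : Hom X) (hL : IsCurve k L) {d : GD L m} (hd : OkW ν d X)
    (h1 : 1 < ν) {A : Place k L →₀ ℤ} (hA : deg A = a) (ha : 0 < a)
    (hB : ∀ v, 0 ≤ ord v d.B + ν * A v) (hδ : ∀ v, 0 ≤ ord v d.α + 2 * ν * A v)
    (hJ : ∀ c : k, d.B ^ 2 ≠ algebraMap k L c * d.α) (hg : Riemann hL g)
    (hN : (ν - 1) * a + g ≤ N + 1) {β : Equiv.Perm (Fin r) → ℚ}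
    (hβ : KillsTensors ((ν - 1) * N) β) (z : Fin r → (Pt X k →₀ ℚ))
    (hz : ∀ j, cl1 X (z j) ∈ Submodule.span ℚ (DiffL hX hd)) :
    ∑ τ : Equiv.Perm (Fin r), β τ • ext (fun j => z (τ j)) ∈ Rat X (Fin r) := by
  obtain ⟨ζ, hζ⟩ : ∃ ζ : k, IsPrimitiveRoot ζ ν :=
    HasEnoughRootsOfUnity.exists_primitiveRoot k ν
  refine toR_mem (R := k) ?_
  rw [toR_sum]
  refine kill_I hX hL hd hζ hA ha hB hδ hJ hg hN (isRotL_all hX ζ hd)
    (fun i : Fin (ν - 1) => ζ ^ (i.val + 1)) (fun i => ⟨?_, fun h => ?_⟩) (killsTensors_toR hβ)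
    (fun j => toR k (z j)) fun j => ?_
  · rw [← pow_mul, mul_comm, pow_mul, hζ.pow_eq_one, one_pow]
  · have h2 := Nat.le_of_dvd (Nat.succ_pos _) ((hζ.pow_eq_one_iff_dvd _).1 h)
    have h3 := i.2
    omega
  · -- the span
    have key : ∀ c ∈ Submodule.span ℚ (DiffL hX hd), ∀ u : Pt X k →₀ ℚ, cl1 X u = c →
        toR k u ∈ ⨆ i : Fin (ν - 1), WR k (RotAll hX ζ hd) (ζ ^ (i.val + 1)) := by
      intro c hc
      induction hc using Submodule.span_induction with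
      | mem c hc =>
        intro u hu
        exact diff_mem hX hd hζ h1 (by rw [hu]; exact hc)
      | zero =>
        intro u hu
        have h2 : toR k u ∈ RatR1 k X := toR_rat1 (mem_rat1.2 hu)
        exact le_iSup (fun i : Fin (ν - 1) => WR k (RotAll hX ζ hd) (ζ ^ (i.val + 1)))
          ⟨0, by omega⟩ (Submodule.mem_sup_right h2)
      | add c c' _ _ ih ih' =>
        intro u hu
        obtain ⟨b, hb⟩ := cri_surj c'
        have h2 := Submodule.add_mem _ (ih (u - b) (by rw [map_sub, hu, hb, add_sub_cancel_right]))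
          (ih' b hb)
        rwa [← map_add, sub_add_cancel] at h2
      | smul q c _ ih =>
        intro u hu
        obtain ⟨b, hb⟩ := cri_surj c
        have h2 : toR k (u - q • b) ∈ RatR1 k X := toR_rat1 (mem_rat1.2 (by
          rw [map_sub, map_smul, hu, hb, sub_self]))
        have h3 := le_iSup (fun i : Fin (ν - 1) => WR k (RotAll hX ζ hd) (ζ ^ (i.val + 1)))
          ⟨0, by omega⟩ (Submodule.mem_sup_right h2)
        have h4 := Submodule.smul_mem _ (algebraMap ℚ k q) (ih b hb)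
        rw [algebraMap_smul, ← map_smul] at h4
        have h5 := Submodule.add_mem _ h3 h4
        rwa [← map_add, sub_add_cancel] at h5
    exact key _ (hz j) (z j) rfl

end Pool.Agent.GTM
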