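import Pool.Agent.GT.Curve
import Pool.Agent.GT.Mov

/-!
# Hyperelliptic curves with a rational map to a projective variety
-/

set_option autoImplicit false

noncomputable section

namespace Pool.Agent.GTM

open Pool.Agent.ZCyc Pool.Agent.Dess Pool.Agent.GT Polynomial
open Pool.Agent.VFP (Om tt)
open scoped Classical LinearAlgebra.Projectivization

variable {K : Type} [Field K] {m : ℕ} {k : Type} [Field k] [Algebra k K]
  {X : Set (MvPolynomial (Fin (m + 1)) k)}

/-- The curve `y ² = P(x)`, where `P` is separable of the degree `2 d`, and the coordinates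
`G_i(x) + H_i(x) y` of a rational map from this curve to the variety `X`. -/
structure OkH (d : ℕ) (P : K[X]) (N : Mp K m) (X : Set (MvPolynomial (Fin (m + 1)) k)) : Prop where
  pos : 0 < d
  deg : P.natDegree = 2 * d
  sep : P.Separable
  ne : ∃ i, N.G i ≠ 0 ∨ N.H i ≠ 0
  onX : ∀ f ∈ X, ∀ x y : K, y ^ 2 = P.eval x → MvPolynomial.aeval (N.co x y) f = 0

variable {d : ℕ} {P : K[X]} {N : Mp K m}

/-- the image of the point `(x, y)` as a zero-cycle, zero if the coordinates are all zero -/
def cyp (hX : Hom X) (hN : OkH d P N X) (x y : K) : Pt X K →₀ ℚ :=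
  if h : y ^ 2 = P.eval x ∧ N.co x y ≠ 0 then
    Finsupp.single (mkPt hX (N.co x y) h.2 fun f hf => hN.onX f hf x y h.1) 1 else 0

/-- The line `y = g(x)`. Its points of intersection with the curve are the zeros of `g ² - P`, which
is the product of a given polynomial `e` and of `R`. The condition `lead` means that there are no
points of intersection at infinity. -/
structure Ln (d : ℕ) (P g e R : K[X]) : Prop where
  deg : g.natDegree ≤ d
  lead : g.coeff d ^ 2 ≠ P.coeff (2 * d)
  eq : g ^ 2 - P = e * R

/-- the sum of the images of the points of the line `y = g(x)` over the zeros of `R` -/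
def LR (hX : Hom X) (hN : OkH d P N X) (g R : K[X]) : Pt X K →₀ ℚ :=
  (R.roots.map fun x => cyp hX hN x (g.eval x)).sum

/-- at all these points the coordinates are not all zero -/
def Clean (N : Mp K m) (g R : K[X]) : Prop := ∀ x ∈ R.roots, N.co x (g.eval x) ≠ 0

/-- the polynomial `p₀` is the value of the polynomial `p` at the place -/
def PolAt (v : Place k K) (p : K[X]) (p₀ : k[X]) : Prop := ∀ n, v.At (p.coeff n) (p₀.coeff n)

/-- the coordinates have the values `N₀` at the place -/
def MpAt (v : Place k K) (N : Mp K m) (N₀ : Mp k m) : Prop :=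
  ∀ i, PolAt v (N.G i) (N₀.G i) ∧ PolAt v (N.H i) (N₀.H i)

end Pool.Agent.GTM
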