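import Pool.Agent.GTM.Spread

/-!
# Dickson polynomials and the transfer to the covering curve

The curve `y ² = D_μ(x, f) + B` is covered by the curve `σ ² = w ^ (4 μ) + B w ^ (2 μ) + f ^ μ`, by
`x = w ² + f / w ²`, `y = σ / w ^ μ`.
-/

set_option autoImplicit false

noncomputable section

namespace Pool.Agent.GTM

open Pool.Agent.ZCyc Pool.Agent.Dess Pool.Agent.GT Polynomial
open Pool.Agent.VFP (Om tt)
open scoped Classical LinearAlgebra.Projectivization

/-! ### Dickson polynomials -/

/-- `D_n(x + y, x y) = x ^ n + y ^ n` -/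
theorem dickson_eval {R : Type} [CommRing R] {a x y : R} (h : x * y = a) : ∀ n : ℕ,
    (Polynomial.dickson 1 a n).eval (x + y) = x ^ n + y ^ n
  | 0 => by
    rw [dickson_zero]
    norm_num
  | 1 => by
    rw [dickson_one, eval_X, pow_one, pow_one]
  | n + 2 => by
    rw [dickson_add_two, eval_sub, eval_mul, eval_mul, eval_X, eval_C, dickson_eval h n,
      dickson_eval h (n + 1), ← h]
    ring

theorem dickson_map {R R' : Type} [CommRing R] [CommRing R'] (φ : R →+* R') (a : R) (n : ℕ) :
    (Polynomial.dickson 1 a n).map φ = Polynomial.dickson 1 (φ a) n :=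
  map_dickson φ n

/-! ### Substitution -/

section sub

variable {R : Type} [CommRing R]

/-- the polynomial `X ^ (2 M) p(X ² + f / X ²)` -/
def pb (f : R) (M : ℕ) (p : R[X]) : R[X] :=
  ∑ j ∈ Finset.range (M + 1), C (p.coeff j) * ((Polynomial.X ^ 4 + C f) ^ j *
    Polynomial.X ^ (2 * (M - j)))

theorem pb_map {R' : Type} [CommRing R'] (φ : R →+* R') (f : R) (M : ℕ) (p : R[X]) :
    (pb f M p).map φ = pb (φ f) M (p.map φ) := by
  unfold pb
  rw [Polynomial.map_sum]
  refine Finset.sum_congr rfl fun j _ => ?_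
  simp only [Polynomial.map_mul, Polynomial.map_C, Polynomial.map_pow, Polynomial.map_add,
    Polynomial.map_X, Polynomial.coeff_map]

private theorem x4_monic (f : R) : (Polynomial.X ^ 4 + C f : R[X]).Monic :=
  monic_X_pow_add_C f (by norm_num)

private theorem x4_degree (f : R) : (Polynomial.X ^ 4 + C f : R[X]).natDegree ≤ 4 := by
  refine (natDegree_add_le _ _).trans (max_le (natDegree_X_pow_le 4) ?_)
  rw [natDegree_C]
  exact Nat.zero_le _

private theorem term_degree (f : R) (M j : ℕ) (hj : j ≤ M) :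
    ((Polynomial.X ^ 4 + C f : R[X]) ^ j * Polynomial.X ^ (2 * (M - j))).natDegree ≤
      2 * M + 2 * j := by
  refine natDegree_mul_le.trans ?_
  have h1 : ((Polynomial.X ^ 4 + C f : R[X]) ^ j).natDegree ≤ j * 4 :=
    natDegree_pow_le.trans (Nat.mul_le_mul_left j (x4_degree f))
  have h2 : (Polynomial.X ^ (2 * (M - j)) : R[X]).natDegree ≤ 2 * (M - j) :=
    natDegree_X_pow_le _
  omega

theorem pb_degree (f : R) (M : ℕ) (p : R[X]) : (pb f M p).natDegree ≤ 4 * M := by
  unfold pb
  refine natDegree_sum_le_of_forall_le _ _ fun j hj => ?_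
  have hj' : j ≤ M := by
    rw [Finset.mem_range] at hj
    omega
  refine (natDegree_C_mul_le _ _).trans ((term_degree f M j hj').trans ?_)
  omega

/-- The substitution is injective. -/
theorem pb_inj (f : R) {M : ℕ} {p : R[X]} (hp : p.natDegree ≤ M) (h : pb f M p = 0) : p = 0 := by
  by_contra hne
  have hnt : Nontrivial R := by
    by_contra hn
    rw [not_nontrivial_iff_subsingleton] at hn
    exact hne (Subsingleton.elim _ _)
  apply (leadingCoeff_ne_zero (p := p)).2 hne
  have h1 := congrArg (fun q => coeff q (2 * M + 2 * p.natDegree)) h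
  simp only [coeff_zero] at h1
  rw [pb, finset_sum_coeff, Finset.sum_eq_single p.natDegree] at h1
  · rw [coeff_C_mul] at h1
    have h2 : ((Polynomial.X ^ 4 + C f : R[X]) ^ p.natDegree *
        Polynomial.X ^ (2 * (M - p.natDegree))).coeff (2 * M + 2 * p.natDegree) = 1 := by
      have e1 : 2 * M + 2 * p.natDegree = 4 * p.natDegree + 2 * (M - p.natDegree) := by omega
      have hm := (x4_monic f).pow p.natDegree
      have hd : ((Polynomial.X ^ 4 + C f : R[X]) ^ p.natDegree).natDegree = 4 * p.natDegree := by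
        rw [(x4_monic f).natDegree_pow, natDegree_X_pow_add_C, mul_comm]
      rw [e1, coeff_mul_X_pow, ← hd]
      exact hm
    rw [h2, mul_one] at h1
    exact h1
  · intro j hj hne'
    rw [coeff_C_mul]
    rcases lt_or_gt_of_ne hne' with hlt | hgt
    · have hj' : j ≤ M := by omega
      rw [coeff_eq_zero_of_natDegree_lt ((term_degree f M j hj').trans_lt (by omega)), mul_zero]
    · rw [coeff_eq_zero_of_natDegree_lt hgt, zero_mul]
  · intro hn
    exact absurd (Finset.mem_range.2 (by omega)) hn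

end sub

section fld

variable {K : Type} [Field K]

theorem pb_eval (f : K) {M : ℕ} {p : K[X]} (hp : p.natDegree ≤ M) {w : K} (hw : w ≠ 0) :
    (pb f M p).eval w = w ^ (2 * M) * p.eval (w ^ 2 + f / w ^ 2) := by
  rw [pb, eval_finset_sum, eval_eq_sum_range' (Nat.lt_succ_of_le hp), Finset.mul_sum]
  refine Finset.sum_congr rfl fun j hj => ?_
  have hj' : j ≤ M := by
    rw [Finset.mem_range] at hj
    omega
  simp only [eval_mul, eval_C, eval_pow, eval_add, eval_X]
  have e1 : w ^ 2 + f / w ^ 2 = (w ^ 4 + f) / w ^ 2 := by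
    field_simp
  have e2 : w ^ (2 * M) = (w ^ 2) ^ j * w ^ (2 * (M - j)) := by
    rw [← pow_mul, ← pow_add]
    congr 1
    omega
  rw [e1, e2, div_pow]
  have h2 : (w ^ 2) ^ j ≠ 0 := pow_ne_zero _ (pow_ne_zero _ hw)
  field_simp

variable {m : ℕ}

/-- the coordinates on the covering curve -/
def pullN (μ M : ℕ) (f : K) (N : Mp K m) : Mp K m :=
  ⟨fun i => Polynomial.X ^ μ * pb f M (N.G i), fun i => pb f M (N.H i)⟩

/-- The coordinates on the covering curve are proportional to the coordinates of the image. -/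
theorem pullN_co {μ M : ℕ} {f : K} {N : Mp K m}
    (hM : ∀ i, (N.G i).natDegree ≤ M ∧ (N.H i).natDegree ≤ M) {w : K} (hw : w ≠ 0) (σ : K)
    (i : Fin (m + 1)) : (pullN μ M f N).co w σ i =
      w ^ (2 * M + μ) * N.co (w ^ 2 + f / w ^ 2) (σ / w ^ μ) i := by
  change (Polynomial.X ^ μ * pb f M (N.G i)).eval w + (pb f M (N.H i)).eval w * σ =
    w ^ (2 * M + μ) * ((N.G i).eval _ + (N.H i).eval _ * (σ / w ^ μ))
  rw [eval_mul, eval_pow, eval_X, pb_eval f (hM i).1 hw, pb_eval f (hM i).2 hw]
  have h1 : w ^ μ ≠ 0 := pow_ne_zero _ hw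
  rw [pow_add]
  field_simp

/-- the image of a point of the covering curve -/
theorem dk_on {μ : ℕ} {f B w σ : K} (hw : w ≠ 0)
    (h : σ ^ 2 = w ^ (2 * (2 * μ)) + B * w ^ (2 * μ) + f ^ μ) :
    (σ / w ^ μ) ^ 2 = (Polynomial.dickson 1 f μ).eval (w ^ 2 + f / w ^ 2) + B := by
  have h2 : w ^ 2 ≠ 0 := pow_ne_zero _ hw
  rw [dickson_eval (mul_div_cancel₀ f h2), div_pow, h, div_pow, ← pow_mul, ← pow_mul]
  have h3 : w ^ (2 * μ) ≠ 0 := pow_ne_zero _ hw
  have e1 : w ^ (μ * 2) = w ^ (2 * μ) := by rw [mul_comm]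
  have e2 : w ^ (2 * (2 * μ)) = w ^ (2 * μ) * w ^ (2 * μ) := by
    rw [← pow_add]
    congr 1
    ring
  rw [e1, e2]
  field_simp
  ring

/-- every point is the image of a point of the covering curve -/
theorem dk_lift [IsAlgClosed K] {μ : ℕ} {f B x y : K} (hf : f ≠ 0)
    (h : y ^ 2 = (Polynomial.dickson 1 f μ).eval x + B) :
    ∃ w σ : K, w ≠ 0 ∧ σ ^ 2 = w ^ (2 * (2 * μ)) + B * w ^ (2 * μ) + f ^ μ ∧
      w ^ 2 + f / w ^ 2 = x ∧ σ / w ^ μ = y := by
  obtain ⟨W, hW⟩ := IsAlgClosed.exists_root (Polynomial.X ^ 2 - C x * Polynomial.X + C f : K[X])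
    (by
      have h1 : (Polynomial.X ^ 2 - C x * Polynomial.X + C f : K[X]).natDegree = 2 := by
        compute_degree!
      intro h2
      have h3 := natDegree_eq_of_degree_eq_some h2
      rw [h1] at h3
      exact absurd h3 (by norm_num))
  rw [IsRoot.def, eval_add, eval_sub, eval_pow, eval_mul, eval_X, eval_C, eval_C] at hW
  have hW0 : W ≠ 0 := by
    rintro rfl
    apply hf
    linear_combination hW
  obtain ⟨w, hw⟩ := IsAlgClosed.exists_pow_nat_eq W (n := 2) (by norm_num)
  have hw0 : w ≠ 0 := by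
    rintro rfl
    apply hW0
    rw [← hw]
    ring
  have hx : w ^ 2 + f / w ^ 2 = x := by
    rw [hw]
    field_simp
    linear_combination hW
  have hμ : w ^ μ ≠ 0 := pow_ne_zero _ hw0
  refine ⟨w, y * w ^ μ, hw0, ?_, hx, mul_div_cancel_right₀ _ hμ⟩
  have h2 : w ^ 2 ≠ 0 := pow_ne_zero _ hw0
  rw [mul_pow, h, ← hx, dickson_eval (mul_div_cancel₀ f h2), div_pow, ← pow_mul, ← pow_mul]
  have h3 : w ^ (2 * μ) ≠ 0 := pow_ne_zero _ hw0
  have e1 : w ^ (μ * 2) = w ^ (2 * μ) := by rw [mul_comm]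
  have e2 : w ^ (2 * (2 * μ)) = w ^ (2 * μ) * w ^ (2 * μ) := by
    rw [← pow_add]
    congr 1
    ring
  rw [e1, e2]
  field_simp
  ring

end fld

/-! ### The data -/

variable {m : ℕ} {k : Type} [Field k] {X : Set (MvPolynomial (Fin (m + 1)) k)} {A : Type}
  [CommRing A]

/-- a bound for the degrees of the coordinates -/
def topD (d : GD A m) : ℕ := Finset.univ.sup fun i => max (d.G i).natDegree (d.H i).natDegree

theorem topD_le (d : GD A m) (i : Fin (m + 1)) :
    (d.G i).natDegree ≤ topD d ∧ (d.H i).natDegree ≤ topD d := by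
  have h1 : max (d.G i).natDegree (d.H i).natDegree ≤ topD d :=
    Finset.le_sup (f := fun i => max (d.G i).natDegree (d.H i).natDegree) (Finset.mem_univ i)
  exact ⟨(le_max_left _ _).trans h1, (le_max_right _ _).trans h1⟩

/-- The transferred data: `d.α` is the coefficient `f` of the curve `y ² = D_μ(x, f) + B`. -/
def pullD (μ : ℕ) (d : GD A m) : GD A m :=
  ⟨d.α ^ μ, d.B, d.h, fun i => Polynomial.X ^ μ * pb (C d.α) (topD d) (d.G i),
    fun i => pb (C d.α) (topD d) (d.H i)⟩

theorem pullD_mp {K : Type} [Field K] (μ : ℕ) (d : GD A m) (S : A →+* K) (θ : K) :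
    (pullD μ d).mp S θ = pullN μ (topD d) (S d.α) (d.mp S θ) := by
  have h1 : (Polynomial.eval₂RingHom S θ) (C d.α) = S d.α := by simp
  unfold pullD GD.mp pullN
  simp only [Polynomial.map_mul, Polynomial.map_pow, Polynomial.map_X, pb_map, h1]

theorem pullD_rts {K : Type} [Field K] (μ : ℕ) (d : GD A m) (S : A →+* K) :
    (pullD μ d).rts S = d.rts S := rfl

theorem mp_degree {K : Type} [Field K] (d : GD A m) (S : A →+* K) (θ : K) (i : Fin (m + 1)) :
    ((d.mp S θ).G i).natDegree ≤ topD d ∧ ((d.mp S θ).H i).natDegree ≤ topD d :=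
  ⟨natDegree_map_le.trans (topD_le d i).1, natDegree_map_le.trans (topD_le d i).2⟩

/-- The conditions on the data `d : GD A m`, where `d.α` is the coefficient `f` of the curve
`y ² = D_μ(x, f) + B` over `A`; they hold over an open set of the base curve. -/
structure OkD [Algebra k A] (μ : ℕ) (d : GD A m) (X : Set (MvPolynomial (Fin (m + 1)) k)) :
    Prop where
  pos : 0 < μ
  monic : d.h.Monic
  sep : ∃ u w : Polynomial A, u * d.h + w * Polynomial.derivative d.h = 1
  unit : IsUnit d.α
  disc : IsUnit (d.B ^ 2 - 4 * d.α ^ μ)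
  ne : Ideal.span ({d.h} ∪ {c | ∃ i j, c = (d.G i).coeff j ∨ c = (d.H i).coeff j}) = ⊤
  onX : ∀ (K : Type) [Field K] [Algebra k K] (S : A →ₐ[k] K) (θ : K),
    θ ∈ d.rts (S : A →+* K) → ∀ x y : K, y ^ 2 = (Polynomial.dickson 1 (S d.α) μ).eval x + S d.B →
      ∀ f ∈ X, MvPolynomial.aeval ((d.mp (S : A →+* K) θ).co x y) f = 0

/-- the ideal of the coefficients -/
private theorem pull_ne (μ : ℕ) {d : GD A m}
    (h : Ideal.span ({d.h} ∪ {c | ∃ i j, c = (d.G i).coeff j ∨ c = (d.H i).coeff j}) = ⊤) :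
    Ideal.span ({(pullD μ d).h} ∪ {c | ∃ i j, c = ((pullD μ d).G i).coeff j ∨
      c = ((pullD μ d).H i).coeff j}) = ⊤ := by
  set I : Ideal A[X] := Ideal.span ({(pullD μ d).h} ∪ {c | ∃ i j,
    c = ((pullD μ d).G i).coeff j ∨ c = ((pullD μ d).H i).coeff j}) with hI
  rw [← top_le_iff, ← h, Ideal.span_le]
  have hG : ∀ i, (d.G i).map (Ideal.Quotient.mk I) = 0 := by
    intro i
    have h1 : ((pullD μ d).G i).map (Ideal.Quotient.mk I) = 0 := by
      ext j
      rw [coeff_map, coeff_zero, Ideal.Quotient.eq_zero_iff_mem]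
      exact Ideal.subset_span (Or.inr ⟨i, j, Or.inl rfl⟩)
    have h2 : Polynomial.X ^ μ * pb ((Ideal.Quotient.mk I) (C d.α)) (topD d)
        ((d.G i).map (Ideal.Quotient.mk I)) = 0 := by
      rw [← h1]
      change _ = (Polynomial.X ^ μ * pb (C d.α) (topD d) (d.G i)).map _
      rw [Polynomial.map_mul, Polynomial.map_pow, Polynomial.map_X, pb_map]
    refine pb_inj ((Ideal.Quotient.mk I) (C d.α)) (natDegree_map_le.trans (topD_le d i).1) ?_
    exact ((monic_X_pow μ).mul_right_eq_zero_iff).1 h2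
  have hH : ∀ i, (d.H i).map (Ideal.Quotient.mk I) = 0 := by
    intro i
    have h1 : ((pullD μ d).H i).map (Ideal.Quotient.mk I) = 0 := by
      ext j
      rw [coeff_map, coeff_zero, Ideal.Quotient.eq_zero_iff_mem]
      exact Ideal.subset_span (Or.inr ⟨i, j, Or.inr rfl⟩)
    refine pb_inj ((Ideal.Quotient.mk I) (C d.α)) (natDegree_map_le.trans (topD_le d i).2) ?_
    rw [← pb_map]
    exact h1
  rintro c (hc | ⟨i, j, hc | hc⟩)
  · exact Ideal.subset_span (Or.inl hc)
  · have h1 := congrArg (fun p => coeff p j) (hG i)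
    simp only [coeff_map, coeff_zero] at h1
    rw [hc]
    exact Ideal.Quotient.eq_zero_iff_mem.1 h1
  · have h1 := congrArg (fun p => coeff p j) (hH i)
    simp only [coeff_map, coeff_zero] at h1
    rw [hc]
    exact Ideal.Quotient.eq_zero_iff_mem.1 h1

/-- A polynomial `a + b y` which vanishes on the curve for `x ≠ 0` is zero. -/
private theorem ab_zero' {K : Type} [Field K] [IsAlgClosed K] [CharZero K] {ν : ℕ} (hν : 0 < ν)
    (B δ : K) (a b : K[X])
    (h : ∀ x y : K, x ≠ 0 → y ^ 2 = x ^ (2 * ν) + B * x ^ ν + δ → a.eval x + b.eval x * y = 0) :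
    a = 0 ∧ b = 0 := by
  have hP : Polynomial.X * wP ν B δ ≠ 0 := by
    refine mul_ne_zero Polynomial.X_ne_zero fun h0 => ?_
    have h1 := wP_coeff_top hν B δ
    rw [h0, Polynomial.coeff_zero] at h1
    exact zero_ne_one h1
  have key : ∀ x : K, a.eval x * (x * (wP ν B δ).eval x) = 0 ∧
      b.eval x * (x * (wP ν B δ).eval x) = 0 := by
    intro x
    by_cases hx : x = 0
    · rw [hx, zero_mul, mul_zero, mul_zero]
      exact ⟨rfl, rfl⟩
    obtain ⟨y, hy⟩ := IsAlgClosed.exists_pow_nat_eq (x ^ (2 * ν) + B * x ^ ν + δ) (n := 2)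
      (by norm_num)
    have h1 := h x y hx hy
    have h2 := h x (-y) hx (by rw [neg_sq]; exact hy)
    have h3 : a.eval x = 0 := by
      have h4 : 2 * a.eval x = 0 := by linear_combination h1 + h2
      exact (mul_eq_zero.1 h4).resolve_left two_ne_zero
    have h4 : b.eval x * y = 0 := by linear_combination h1 - h3
    rw [wP_eval, h3, zero_mul, ← hy]
    exact ⟨rfl, by linear_combination x * y * h4⟩
  constructor
  · have h1 : a * (Polynomial.X * wP ν B δ) = 0 := by
      apply Polynomial.funext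
      intro x
      rw [Polynomial.eval_mul, Polynomial.eval_mul, Polynomial.eval_X, (key x).1,
        Polynomial.eval_zero]
    exact (mul_eq_zero.1 h1).resolve_right hP
  · have h1 : b * (Polynomial.X * wP ν B δ) = 0 := by
      apply Polynomial.funext
      intro x
      rw [Polynomial.eval_mul, Polynomial.eval_mul, Polynomial.eval_X, (key x).2,
        Polynomial.eval_zero]
    exact (mul_eq_zero.1 h1).resolve_right hP

private theorem ev2_ext {K K' : Type} [Field K] [Field K'] (S : A →+* K) (j : K →+* K')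
    (θ x : K) (p : Polynomial (Polynomial A)) :
    ev2 (j.comp S) (j θ) (j x) p = j (ev2 S θ x p) := by
  have h : Polynomial.eval₂RingHom (j.comp S) (j θ) = j.comp (Polynomial.eval₂RingHom S θ) := by
    refine Polynomial.ringHom_ext (fun a => ?_) ?_
    · simp
    · simp
  unfold ev2
  rw [h, ← Polynomial.map_map, Polynomial.eval_map_apply]

/-- The conditions for the transferred data. -/
theorem OkD.pull [CharZero k] [Algebra k A] (hX : Hom X) {μ : ℕ} {d : GD A m} (hd : OkD μ d X) :
    OkW (2 * μ) (pullD μ d) X := by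
  refine ⟨by have := hd.pos; omega, hd.monic, hd.sep, ?_, hd.disc, pull_ne μ hd.ne, ?_⟩
  · exact hd.unit.pow μ
  · intro K _ _ S θ hθ w σ hwσ F hF
    obtain ⟨a, b, hab⟩ := exists_abW (2 * μ) (pullD μ d) F
    let Ω : Type := AlgebraicClosure K
    have : CharZero K := charZero_of_injective_algebraMap (algebraMap k K).injective
    have : CharZero Ω := charZero_of_injective_algebraMap (algebraMap K Ω).injective
    let j : K →ₐ[k] Ω := IsScalarTower.toAlgHom k K Ω
    let S' : A →ₐ[k] Ω := j.comp S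
    have hS' : (S' : A →+* Ω) = (j : K →+* Ω).comp (S : A →+* K) := rfl
    have hθ' : (j : K →+* Ω) θ ∈ d.rts (S' : A →+* Ω) := by
      have h1 : θ ∈ d.rts (S : A →+* K) := hθ
      rw [GD.rts, Multiset.mem_toFinset, Polynomial.mem_roots (hd.monic.map _).ne_zero,
        Polynomial.IsRoot.def] at h1 ⊢
      rw [hS', ← Polynomial.map_map, Polynomial.eval_map_apply, h1, map_zero]
    obtain ⟨e, he⟩ := hX F hF
    have h0 := ab_zero' (ν := 2 * μ) (by have := hd.pos; omega) (S' (pullD μ d).B)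
      (S' (pullD μ d).α) (a.map (Polynomial.eval₂RingHom (S' : A →+* Ω) ((j : K →+* Ω) θ)))
      (b.map (Polynomial.eval₂RingHom (S' : A →+* Ω) ((j : K →+* Ω) θ))) (by
        intro x y hx hxy
        have h1 := hab Ω S' ((j : K →+* Ω) θ) x y hxy
        have h2 : S' (pullD μ d).α = S' d.α ^ μ := map_pow S' _ _
        rw [h2] at hxy
        have h3 := hd.onX Ω S' _ hθ' _ _ (dk_on hx hxy) F hF
        have h4 : ((pullD μ d).mp (S' : A →+* Ω) ((j : K →+* Ω) θ)).co x y = fun i =>
            x ^ (2 * topD d + μ) * (d.mp (S' : A →+* Ω) ((j : K →+* Ω) θ)).co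
              (x ^ 2 + S' d.α / x ^ 2) (y / x ^ μ) i := by
          funext i
          rw [pullD_mp]
          exact pullN_co (mp_degree d _ _) hx y i
        rw [h4, aeval_smul_homog he, h3, mul_zero] at h1
        exact h1.symm)
    have h1 := hab K S θ w σ hwσ
    rw [h1]
    apply (j : K →+* Ω).injective
    have e1 := ev2_ext (S : A →+* K) (j : K →+* Ω) θ w a
    have e2 := ev2_ext (S : A →+* K) (j : K →+* Ω) θ w b
    rw [map_add, map_mul, ← e1, ← e2, map_zero]
    have h2 : ev2 ((j : K →+* Ω).comp (S : A →+* K)) ((j : K →+* Ω) θ) ((j : K →+* Ω) w) a = 0 := by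
      unfold ev2
      rw [← hS', h0.1, Polynomial.eval_zero]
    have h3 : ev2 ((j : K →+* Ω).comp (S : A →+* K)) ((j : K →+* Ω) θ) ((j : K →+* Ω) w) b = 0 := by
      unfold ev2
      rw [← hS', h0.2, Polynomial.eval_zero]
    rw [h2, h3, zero_mul, add_zero]

end Pool.Agent.GTM
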