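import Pool.Agent.GTM.Good

/-!
# The hyperelliptic involution
-/

set_option autoImplicit false

noncomputable section

namespace Pool.Agent.GTM

open Pool.Agent.ZCyc Pool.Agent.Dess Pool.Agent.GT Polynomial
open Pool.Agent.VFP (Om tt)
open scoped Classical LinearAlgebra.Projectivization

variable {k : Type} [Field k] [IsAlgClosed k] [CharZero k] {m : ℕ} {d : ℕ}
  {X : Set (MvPolynomial (Fin (m + 1)) k)}

private theorem iota_val {v : Place k (Om k)} {P : (Om k)[X]} {P₀ : k[X]} (hP : PolAt v P P₀)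
    {x y : Om k} {x₀ : k} (hx : v.At x x₀) (h : y ^ 2 = P.eval x) :
    ∃ y₀ : k, v.At y y₀ ∧ y₀ ^ 2 = P₀.eval x₀ := by
  have hp : v.At (y ^ 2) (P₀.eval x₀) := by
    rw [h]
    exact hP.eval hx
  have hmem : y ∈ v.ring := by
    rw [← v.ring.valuation_le_one_iff]
    have h3 := hp.mem
    rw [← v.ring.valuation_le_one_iff, map_pow] at h3
    exact (pow_le_one_iff (by norm_num)).1 h3
  obtain ⟨c, hc⟩ := DCI57.exists_at v hmem
  exact ⟨c, hc, (hc.pow 2).unique hp⟩

/-- the sum of the two classes with good reduction -/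
private theorem iota_red (hX : Hom X) {v : Place k (Om k)} {P : (Om k)[X]} {N : Mp (Om k) m}
    (hN : OkH d P N X) {P₀ : k[X]} {N₀ : Mp k m} (hN₀ : OkH d P₀ N₀ X) (hP : PolAt v P P₀)
    (hNv : MpAt v N N₀) {x y : Om k} {x₀ : k} (hx : v.At x x₀) (h : y ^ 2 = P.eval x) :
    ∀ y₀ : k, y₀ ^ 2 = P₀.eval x₀ →
      cv hX hN v x y + cv hX hN v x (-y) = ck hX hN₀ x₀ y₀ + ck hX hN₀ x₀ (-y₀) := by
  intro y₀ hy₀
  obtain ⟨y₁, hy₁, h₁⟩ := iota_val hP hx h
  have e1 := cv_eq_ck hX hN hN₀ hP hNv hx hy₁ h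
  have e2 := cv_eq_ck hX hN hN₀ hP hNv hx hy₁.neg (by rw [neg_sq]; exact h)
  rw [e1, e2]
  have h2 : y₁ ^ 2 = y₀ ^ 2 := by rw [h₁, hy₀]
  rcases sq_eq_sq_iff_eq_or_eq_neg.1 h2 with h3 | h3
  · rw [h3]
  · rw [h3, neg_neg, add_comm]

/-- Over `k`: the sum of the classes of the two points over `x` does not depend on `x`: `bridge` for
the points over `x = t` of the constant curve. -/
theorem ck_iota (hX : Hom X) {P : k[X]} {N : Mp k m} (hN : OkH d P N X) {x y x' y' : k}
    (h : y ^ 2 = P.eval x) (h' : y' ^ 2 = P.eval x') :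
    ck hX hN x y + ck hX hN x (-y) = ck hX hN x' y' + ck hX hN x' (-y') := by
  have hN' := hN.map
  have hP : ∀ V : Place k (Om k), PolAt V (P.map (algebraMap k (Om k))) P :=
    fun V => PolAt.map P
  have hNv : ∀ V : Place k (Om k), MpAt V (N.map (algebraMap k (Om k))) N :=
    fun V i => ⟨PolAt.map _, PolAt.map _⟩
  obtain ⟨s, hs⟩ := IsAlgClosed.exists_pow_nat_eq ((P.map (algebraMap k (Om k))).eval (tt k))
    (n := 2) (by norm_num)
  have key : ∀ (V : Place k (Om k)) (c e : k), V.At (tt k) c → e ^ 2 = P.eval c →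
      lim hX V (Finsupp.lmapDomain ℚ ℚ (fun x _ => x)
        (zq hX hN' (tt k) s + zq hX hN' (tt k) (-s))) = ck hX hN c e + ck hX hN c (-e) := by
    intro V c e hV he
    have h1 := iota_red hX hN' hN (hP V) (hNv V) hV hs e he
    rw [← h1, map_add, map_add]
    rfl
  have hx : ∀ x x' y y' : k, y ^ 2 = P.eval x → y' ^ 2 = P.eval x' →
      ck hX hN x y + ck hX hN x (-y) = ck hX hN x' y' + ck hX hN x' (-y') := by
    intro x x' y y' h h'
    exact bridge hX _ (c₀ := x) (c₁ := x') (fun V hV => key V x y hV h)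
      fun V hV => key V x' y' hV h'
  exact hx x x' y y' h h'

/-- The sum of the classes of the limits of `(x, y)` and `(x, -y)` is the same for all points of the
curve: `moving`, and `ck_iota` at the places with good reduction. -/
theorem cv_iota (hX : Hom X) {P : (Om k)[X]} {N : Mp (Om k) m} (hN : OkH d P N X)
    (v : Place k (Om k)) {x y x' y' : Om k} (h : y ^ 2 = P.eval x) (h' : y' ^ 2 = P.eval x') :
    cv hX hN v x y + cv hX hN v x (-y) = cv hX hN v x' y' + cv hX hN v x' (-y') := by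
  obtain ⟨Γ₁, h0, hΓ₁⟩ := exists_red hN
  let z : Om k → Om k → (Pt X (Om k) →₀ ℚ) := fun x y => zq hX hN x y + zq hX hN x (-y)
  have hz : ∀ (w : Place k (Om k)) (x y : Om k),
      cv hX hN w x y + cv hX hN w x (-y) = lim1 hX w (z x y) := by
    intro w x y
    change _ = lim1 hX w (zq hX hN x y + zq hX hN x (-y))
    rw [map_add]
    rfl
  let S : Finset (Om k) := {x, x'}
  have hS0 : (0 : Om k) ∉ Γ₁ ∪ S.erase 0 := by
    intro h1
    rcases Finset.mem_union.1 h1 with h1 | h1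
    · exact h0 h1
    · exact Finset.notMem_erase 0 S h1
  have key := moving hX (Finsupp.mapDomain (fun x (_ : Unit) => x) (z x y - z x' y'))
    (Γ₁ ∪ S.erase 0) hS0 (fun w hw => by
      change lim1 hX w (z x y - z x' y') = 0
      rw [map_sub, ← hz, ← hz, sub_eq_zero]
      obtain ⟨P₀, N₀, hP, hNv, hN₀⟩ := hΓ₁ w fun γ hγ => hw γ (Finset.mem_union_left _ hγ)
      have hmem : ∀ γ ∈ S, γ ∈ w.ring := by
        intro γ hγ
        by_cases hγ0 : γ = 0
        · rw [hγ0]
          exact zero_mem _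
        · exact (hw γ (Finset.mem_union_right _ (Finset.mem_erase.2 ⟨hγ0, hγ⟩))).1
      obtain ⟨x₀, hx₀⟩ := DCI57.exists_at w (hmem x (by simp [S]))
      obtain ⟨x₁, hx₁⟩ := DCI57.exists_at w (hmem x' (by simp [S]))
      obtain ⟨y₀, -, hy₀⟩ := iota_val hP hx₀ h
      obtain ⟨y₁, -, hy₁⟩ := iota_val hP hx₁ h'
      rw [iota_red hX hN hN₀ hP hNv hx₀ h y₀ hy₀, iota_red hX hN hN₀ hP hNv hx₁ h' y₁ hy₁]
      exact ck_iota hX hN₀ hy₀ hy₁) v
  have key' : lim1 hX v (z x y - z x' y') = 0 := key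
  rw [map_sub, ← hz, ← hz, sub_eq_zero] at key'
  exact key'

end Pool.Agent.GTM
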