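import Pool.Agent.GTM.Cong

/-!
# Multiplication of the second coordinate by a constant
-/

set_option autoImplicit false

noncomputable section

namespace Pool.Agent.GTM

open Pool.Agent.ZCyc Pool.Agent.Dess Pool.Agent.GT Polynomial
open Pool.Agent.VFP (Om tt)
open scoped Classical LinearAlgebra.Projectivization

variable {k : Type} [Field k] [IsAlgClosed k] [CharZero k] {m : ℕ} {d : ℕ}
  {X : Set (MvPolynomial (Fin (m + 1)) k)}

/-- the polynomial for the coordinate `y' = c y` -/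
def yscP {K : Type} [Field K] (c : K) (P : K[X]) : K[X] := C (c ^ 2) * P

/-- the coordinates in terms of `x` and `y' = c y` -/
def yscN {K : Type} [Field K] (c : K) (N : Mp K m) : Mp K m := ⟨N.G, fun i => C c⁻¹ * N.H i⟩

theorem ysc_co {K : Type} [Field K] {c : K} (hc : c ≠ 0) (N : Mp K m) (x y : K) :
    (yscN c N).co x (c * y) = N.co x y := by
  funext i
  show (N.G i).eval x + (C c⁻¹ * N.H i).eval x * (c * y) = (N.G i).eval x + (N.H i).eval x * y
  rw [eval_mul, eval_C]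
  field_simp

theorem ysc_eval {K : Type} [Field K] (c : K) {P : K[X]} {x y : K} (h : y ^ 2 = P.eval x) :
    (c * y) ^ 2 = (yscP c P).eval x := by
  unfold yscP
  rw [mul_pow, h, eval_mul, eval_C]

omit [IsAlgClosed k] [CharZero k] in
theorem OkH.ysc {K : Type} [Field K] [Algebra k K] {P : K[X]} {N : Mp K m} (hN : OkH d P N X)
    {c : K} (hc : c ≠ 0) : OkH d (yscP c P) (yscN c N) X where
  pos := hN.pos
  deg := by
    unfold yscP
    rw [natDegree_C_mul (pow_ne_zero 2 hc), hN.deg]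
  sep := by
    unfold yscP
    obtain ⟨a, b, hab⟩ := hN.sep
    have hc2 : c ^ 2 ≠ 0 := pow_ne_zero 2 hc
    refine ⟨C (c ^ 2)⁻¹ * a, C (c ^ 2)⁻¹ * b, ?_⟩
    have h2 : C (c ^ 2)⁻¹ * C (c ^ 2) = (1 : K[X]) := by rw [← C_mul, inv_mul_cancel₀ hc2, C_1]
    rw [derivative_C_mul]
    linear_combination (a * P + b * derivative P) * h2 + hab
  ne := by
    obtain ⟨i, hi⟩ := hN.ne
    refine ⟨i, hi.imp id fun h => ?_⟩
    exact mul_ne_zero (fun h1 => inv_ne_zero hc (C_eq_zero.1 h1)) h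
  onX := by
    intro f hf x y hxy
    obtain ⟨y, rfl⟩ : ∃ y₀, y = c * y₀ := ⟨c⁻¹ * y, by rw [mul_inv_cancel_left₀ hc]⟩
    rw [ysc_co hc]
    refine hN.onX f hf x y ?_
    unfold yscP at hxy
    rw [mul_pow, eval_mul, eval_C] at hxy
    exact mul_left_cancel₀ (pow_ne_zero 2 hc) hxy

private theorem ysc_line (hX : Hom X) {P : (Om k)[X]} {N : Mp (Om k) m} (hN : OkH d P N X)
    {c : Om k} (hc : c ≠ 0) {g R e : (Om k)[X]} (h : Ln d P g e R) (hcl : Clean N g R) :
    Ln d (yscP c P) (C c * g) e (C (c ^ 2) * R) ∧ Clean (yscN c N) (C c * g) (C (c ^ 2) * R) ∧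
      LR hX hN g R = LR hX (hN.ysc hc) (C c * g) (C (c ^ 2) * R) := by
  have hc2 : c ^ 2 ≠ 0 := pow_ne_zero 2 hc
  have hroots : (C (c ^ 2) * R).roots = R.roots := roots_C_mul _ hc2
  have hev : ∀ x, (C c * g).eval x = c * g.eval x := fun x => by rw [eval_mul, eval_C]
  have hcurve : ∀ x ∈ R.roots, (g.eval x) ^ 2 = P.eval x := by
    intro x hx
    have h1 := congrArg (fun p => p.eval x) h.eq
    simp only [eval_sub, eval_pow, eval_mul] at h1
    have h2 : R.eval x = 0 := (mem_roots'.1 hx).2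
    rw [h2, mul_zero] at h1
    exact sub_eq_zero.1 h1
  refine ⟨⟨?_, ?_, ?_⟩, ?_, ?_⟩
  · rw [natDegree_C_mul hc]
    exact h.deg
  · unfold yscP
    rw [coeff_C_mul, coeff_C_mul, mul_pow]
    intro h1
    exact h.lead (mul_left_cancel₀ hc2 h1)
  · unfold yscP
    have h1 : (C c : (Om k)[X]) ^ 2 = C (c ^ 2) := by rw [← C_pow]
    calc (C c * g) ^ 2 - C (c ^ 2) * P = C (c ^ 2) * (g ^ 2 - P) := by rw [mul_pow, h1]; ring
      _ = _ := by rw [h.eq]; ring
  · intro x hx
    rw [hroots] at hx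
    rw [hev, ysc_co hc]
    exact hcl x hx
  · unfold LR
    rw [hroots]
    congr 1
    refine Multiset.map_congr rfl fun x hx => ?_
    rw [hev]
    refine cyp_congr hX hN (hN.ysc hc) (hcurve x hx) (ysc_eval c (hcurve x hx)) one_ne_zero
      fun i => ?_
    rw [one_mul, ysc_co hc]

/-- The class of the point in the new coordinates. -/
theorem cv_ysc (hX : Hom X) {P : (Om k)[X]} {N : Mp (Om k) m} (hN : OkH d P N X)
    (v : Place k (Om k)) {c : Om k} (hc : c ≠ 0) {x y : Om k} (h : y ^ 2 = P.eval x) :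
    cv hX hN v x y = cv hX (hN.ysc hc) v x (c * y) := by
  refine cv_congr hX hN (hN.ysc hc) v h (ysc_eval c h) ∅ ?_ ?_
  · intro g R hL _ hcl
    obtain ⟨h1, h2, h3⟩ := ysc_line hX hN hc hL hcl
    exact ⟨_, _, h1, h2, h3⟩
  · intro g R hL hgx _ _ hcl
    obtain ⟨h1, h2, h3⟩ := ysc_line hX hN hc hL hcl
    refine ⟨_, _, h1, ?_, h2, h3⟩
    rw [eval_mul, eval_C, hgx]

end Pool.Agent.GTM
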