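import Pool.Agent.GTM.DkA
import Pool.Agent.GTM.Ysc
import Pool.Agent.GTM.Scl
import Pool.Agent.GTM.Flip
import Pool.Agent.GTM.Iota
import Pool.Agent.GTM.LineV

/-!
# Symmetries of the covering curve
-/

set_option autoImplicit false

noncomputable section

namespace Pool.Agent.GTM

open Pool.Agent.ZCyc Pool.Agent.Dess Pool.Agent.GT Polynomial
open Pool.Agent.VFP (Om tt)
open scoped Classical LinearAlgebra.Projectivization

section pol

variable {K : Type} [Field K]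

/-- polynomials with the same values at all `x ≠ 0` -/
theorem poly_ext_ne [Infinite K] {p q : K[X]} (h : ∀ x : K, x ≠ 0 → p.eval x = q.eval x) :
    p = q := by
  have h1 : Polynomial.X * p = Polynomial.X * q := by
    apply Polynomial.funext
    intro x
    rw [eval_mul, eval_mul, eval_X]
    by_cases hx : x = 0
    · rw [hx, zero_mul, zero_mul]
    · rw [h x hx]
  exact mul_left_cancel₀ Polynomial.X_ne_zero h1

theorem reflect_eval {n : ℕ} {p : K[X]} (hp : p.natDegree ≤ n) {x : K} (hx : x ≠ 0) :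
    (p.reflect n).eval x = x ^ n * p.eval x⁻¹ := by
  have : Invertible x := invertibleOfNonzero hx
  have h := eval₂_reflect_mul_pow (RingHom.id K) x⁻¹ n p hp
  have : Invertible x⁻¹ := invertibleOfNonzero (inv_ne_zero hx)
  have h2 := eval₂_reflect_mul_pow (RingHom.id K) x⁻¹ n p hp
  rw [invOf_eq_inv, inv_inv] at h2
  simp only [eval₂_id] at h2
  rw [← h2, mul_comm, mul_assoc, ← mul_pow, inv_mul_cancel₀ hx, one_pow, mul_one]

private theorem mp_ext {m : ℕ} {N N' : Mp K m} (h1 : N.G = N'.G) (h2 : N.H = N'.H) : N = N' := by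
  cases N
  cases N'
  simp only at h1 h2
  subst h1 h2
  rfl

private theorem comp_eval (u : K) (p : K[X]) (x : K) :
    (p.comp (C u⁻¹ * Polynomial.X)).eval x = p.eval (u⁻¹ * x) := by
  rw [eval_comp, eval_mul, eval_C, eval_X]

end pol

variable {k : Type} [Field k] [IsAlgClosed k] [CharZero k] {m : ℕ}
  {X : Set (MvPolynomial (Fin (m + 1)) k)}

private theorem cv_of_eq {d : ℕ} (hX : Hom X) {P P' : (Om k)[X]} {N N' : Mp (Om k) m}
    (hN : OkH d P N X) (hN' : OkH d P' N' X) (hP : P = P') (h : N = N') (v : Place k (Om k))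
    (x y : Om k) : cv hX hN v x y = cv hX hN' v x y := by
  subst hP h
  rfl

variable {μ M : ℕ} {B f : Om k} {N₀ : Mp (Om k) m}

/-- The symmetry `(x, y) ↦ (- x, (-1) ^ μ y)`. -/
theorem cv_neg (hX : Hom X) (hM : ∀ i, (N₀.G i).natDegree ≤ M ∧ (N₀.H i).natDegree ≤ M)
    (hN : OkH (2 * μ) (wP (2 * μ) B (f ^ μ)) (pullN μ M f N₀) X) (v : Place k (Om k))
    {x y : Om k} (h : y ^ 2 = (wP (2 * μ) B (f ^ μ)).eval x) :
    cv hX hN v (-x) ((-1) ^ μ * y) = cv hX hN v x y := by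
  have hu : (-1 : Om k) ≠ 0 := neg_ne_zero.2 one_ne_zero
  have hc : ((-1 : Om k) ^ μ) ≠ 0 := pow_ne_zero _ hu
  have hcc : ((-1 : Om k) ^ μ) ^ 2 = 1 := by
    rw [← pow_mul, mul_comm, pow_mul, neg_one_sq, one_pow]
  have hev : ∀ n : ℕ, (-1 : Om k) ^ (2 * n) = 1 := fun n => by
    rw [pow_mul, neg_one_sq, one_pow]
  have h1 := cv_scl hX hN v hu h
  have h' : ((-1 : Om k) ^ (2 * μ) * y) ^ 2 =
      (sclP (2 * μ) (-1 : Om k) (wP (2 * μ) B (f ^ μ))).eval (-1 * x) := by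
    unfold sclP
    rw [eval_mul, eval_C, comp_eval, mul_pow, h]
    have e1 : ((-1 : Om k))⁻¹ * (-1 * x) = x := by rw [inv_mul_cancel_left₀ hu]
    rw [e1, ← pow_mul, mul_comm (2 * μ) 2]
  have h2 := cv_ysc hX (hN.scl hu) v hc h'
  rw [h1, h2, cv_mul hX hN v hc (x := -x) (y := (-1) ^ μ * y) (by
    rw [mul_pow, hcc, one_mul, h, wP_eval, wP_eval, neg_pow x (2 * (2 * μ)), hev,
      neg_pow x (2 * μ), hev, one_mul, one_mul])]
  have e1 : (-1 : Om k) * x = -x := by ring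
  have e2 : (-1 : Om k) ^ μ * ((-1) ^ (2 * μ) * y) = (-1) ^ μ * y := by rw [hev, one_mul]
  rw [e1, e2]
  refine cv_of_eq hX _ _ ?_ ?_ v _ _
  · -- the polynomial
    refine poly_ext_ne fun x hx => ?_
    unfold yscP sclP
    rw [hcc, eval_mul, eval_C, one_mul, eval_mul, eval_C, hev, one_mul, comp_eval, wP_eval,
      wP_eval]
    have e3 : ((-1 : Om k))⁻¹ * x = -x := by
      rw [inv_neg, inv_one]
      ring
    rw [e3, neg_pow x (2 * (2 * μ)), hev, neg_pow x (2 * μ), hev, one_mul, one_mul]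
  · -- the coordinates
    have e3 : ∀ x : Om k, ((-1 : Om k))⁻¹ * x = -x := fun x => by
      rw [inv_neg, inv_one]
      ring
    have hpb : ∀ (p : (Om k)[X]), p.natDegree ≤ M → ∀ x : Om k, x ≠ 0 →
        (pb f M p).eval (-x) = (pb f M p).eval x := by
      intro p hp x hx
      rw [pb_eval f hp (neg_ne_zero.2 hx), pb_eval f hp hx, neg_sq, neg_pow x (2 * M), hev,
        one_mul]
    have hG : ∀ i, (pullN μ M f N₀).G i = Polynomial.X ^ μ * pb f M (N₀.G i) := fun i => rfl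
    have hH : ∀ i, (pullN μ M f N₀).H i = pb f M (N₀.H i) := fun i => rfl
    have eG : (mulN ((-1 : Om k) ^ μ) (pullN μ M f N₀)).G =
        (yscN ((-1 : Om k) ^ μ) (sclN (2 * μ) (-1) (pullN μ M f N₀))).G := by
      funext i
      refine poly_ext_ne fun x hx => ?_
      change (C ((-1 : Om k) ^ μ) * (pullN μ M f N₀).G i).eval x =
        (((pullN μ M f N₀).G i).comp (C (-1 : Om k)⁻¹ * Polynomial.X)).eval x
      rw [comp_eval, e3, hG, eval_mul, eval_C, eval_mul, eval_mul, eval_pow, eval_pow, eval_X,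
        eval_X, hpb _ (hM i).1 x hx, neg_pow x μ, mul_assoc]
    have eH : (mulN ((-1 : Om k) ^ μ) (pullN μ M f N₀)).H =
        (yscN ((-1 : Om k) ^ μ) (sclN (2 * μ) (-1) (pullN μ M f N₀))).H := by
      funext i
      refine poly_ext_ne fun x hx => ?_
      change (C ((-1 : Om k) ^ μ) * (pullN μ M f N₀).H i).eval x =
        (C ((-1 : Om k) ^ μ)⁻¹ * (C ((-1 : Om k) ^ (2 * μ))⁻¹ *
          ((pullN μ M f N₀).H i).comp (C (-1 : Om k)⁻¹ * Polynomial.X))).eval x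
      rw [hH, eval_mul, eval_C, eval_mul, eval_C, eval_mul, eval_C, comp_eval, e3,
        hpb _ (hM i).2 x hx, hev, inv_one, one_mul]
      have e4 : ((-1 : Om k) ^ μ)⁻¹ = (-1) ^ μ := by
        rw [inv_eq_iff_eq_inv, eq_comm, inv_eq_iff_eq_inv]
        exact (eq_inv_of_mul_eq_one_left (by rw [← sq]; exact hcc))
      rw [e4]
    exact mp_ext eG eH

omit [IsAlgClosed k] [CharZero k] in
private theorem pull_flipOk : FlipOk (4 * M + 2 * μ) (2 * μ) (pullN μ M f N₀) := by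
  intro i
  have h1 : (Polynomial.X ^ μ * pb f M (N₀.G i)).natDegree ≤ 4 * M + 2 * μ := by
    refine natDegree_mul_le.trans ?_
    have h2 := pb_degree f M (N₀.G i)
    have h3 := natDegree_X_pow_le (R := Om k) μ
    omega
  have h2 : (pb f M (N₀.H i)).natDegree + 2 * μ ≤ 4 * M + 2 * μ := by
    have h3 := pb_degree f M (N₀.H i)
    omega
  exact ⟨h1, h2⟩

/-- The symmetry `(x, y) ↦ (β / x, β ^ μ y / x ^ (2 μ))`, where `β ² = f`. -/
theorem cv_inv (hX : Hom X) (hM : ∀ i, (N₀.G i).natDegree ≤ M ∧ (N₀.H i).natDegree ≤ M)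
    (hN : OkH (2 * μ) (wP (2 * μ) B (f ^ μ)) (pullN μ M f N₀) X) (v : Place k (Om k))
    {β : Om k} (hβ : β ^ 2 = f) (hf : f ≠ 0) {x y : Om k} (hx : x ≠ 0)
    (h : y ^ 2 = (wP (2 * μ) B (f ^ μ)).eval x) :
    cv hX hN v (β / x) (β ^ μ * y / x ^ (2 * μ)) = cv hX hN v x y := by
  have hβ0 : β ≠ 0 := by
    rintro rfl
    apply hf
    rw [← hβ, zero_pow two_ne_zero]
  have hμ : 0 < 2 * μ := hN.pos
  set P := wP (2 * μ) B (f ^ μ) with hP
  have hP0 : P.coeff 0 ≠ 0 := by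
    rw [hP, wP_coeff_zero hμ]
    exact pow_ne_zero _ hf
  have hrev : P.reverse = P.reflect (2 * (2 * μ)) := by
    rw [reverse, hN.deg]
  have hPr : ∀ z : Om k, z ≠ 0 → P.reverse.eval z = z ^ (2 * (2 * μ)) * P.eval z⁻¹ := by
    intro z hz
    rw [hrev, reflect_eval hN.deg.le hz]
  have hβμ : β ^ (2 * μ) = f ^ μ := by rw [pow_mul, hβ]
  have hx' : x⁻¹ ≠ 0 := inv_ne_zero hx
  have hc : (β ^ μ)⁻¹ ≠ 0 := inv_ne_zero (pow_ne_zero _ hβ0)
  have hl : (β ^ (2 * M + μ))⁻¹ ≠ 0 := inv_ne_zero (pow_ne_zero _ hβ0)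
  -- the flip
  have h1 := cv_flip hX hN v hP0 (pull_flipOk (M := M) (μ := μ) (f := f) (N₀ := N₀)) h hx
  have hflip := hN.flip hX hP0 (pull_flipOk (M := M) (μ := μ) (f := f) (N₀ := N₀))
  have e1 : (y / x ^ (2 * μ)) ^ 2 = P.reverse.eval x⁻¹ := by
    rw [hPr _ hx', inv_inv, div_pow, h, ← pow_mul, mul_comm (2 * μ) 2, inv_pow]
    field_simp
  -- the scaling
  have h2 := cv_scl hX hflip v hβ0 e1
  have e2 : (β ^ (2 * μ) * (y / x ^ (2 * μ))) ^ 2 =
      (sclP (2 * μ) β P.reverse).eval (β * x⁻¹) := by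
    unfold sclP
    rw [eval_mul, eval_C, comp_eval, mul_pow, e1]
    have e3 : β⁻¹ * (β * x⁻¹) = x⁻¹ := by rw [inv_mul_cancel_left₀ hβ0]
    rw [e3, ← pow_mul, mul_comm (2 * μ) 2]
  have h3 := cv_ysc hX (hflip.scl hβ0) v hc e2
  have hon : (β ^ μ * y / x ^ (2 * μ)) ^ 2 = P.eval (β / x) := by
    rw [hP, wP_eval, div_pow, mul_pow, h, hP, wP_eval, div_pow, div_pow, ← pow_mul β μ 2,
      mul_comm μ 2, hβμ]
    have e4 : β ^ (2 * (2 * μ)) = f ^ μ * f ^ μ := by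
      rw [mul_comm 2 (2 * μ), pow_mul, hβμ, sq]
    rw [e4]
    have e5 : (x ^ (2 * μ)) ^ 2 = x ^ (2 * (2 * μ)) := by
      rw [← pow_mul, mul_comm (2 * μ) 2]
    have e6 : x ^ (2 * (2 * μ)) = x ^ (2 * μ) * x ^ (2 * μ) := by
      rw [← pow_add]
      congr 1
      ring
    rw [e5, e6]
    have hxμ : x ^ (2 * μ) ≠ 0 := pow_ne_zero _ hx
    field_simp
    ring
  have e7 : (β ^ μ)⁻¹ * (β ^ (2 * μ) * (y / x ^ (2 * μ))) = β ^ μ * y / x ^ (2 * μ) := by
    have e8 : β ^ (2 * μ) = β ^ μ * β ^ μ := by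
      rw [← pow_add]
      congr 1
      ring
    rw [e8]
    field_simp
  have e9 : β * x⁻¹ = β / x := (div_eq_mul_inv β x).symm
  rw [h1, h2, h3, e7, e9, cv_mul hX hN v hl hon]
  refine cv_of_eq hX _ _ ?_ ?_ v _ _
  · -- the polynomial
    refine poly_ext_ne fun z hz => ?_
    have hz' : β⁻¹ * z ≠ 0 := mul_ne_zero (inv_ne_zero hβ0) hz
    unfold yscP sclP
    rw [eval_mul, eval_C, eval_mul, eval_C, comp_eval, hPr _ hz', hP, wP_eval, wP_eval,
      mul_inv, inv_inv, inv_pow, ← pow_mul β μ 2, mul_comm μ 2, hβμ, mul_pow, mul_pow β,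
      mul_pow β, inv_pow, inv_pow, inv_pow]
    have e4 : β ^ (2 * (2 * μ)) = f ^ μ * f ^ μ := by
      rw [mul_comm 2 (2 * μ), pow_mul, hβμ, sq]
    have e6 : z ^ (2 * (2 * μ)) = z ^ (2 * μ) * z ^ (2 * μ) := by
      rw [← pow_add]
      congr 1
      ring
    rw [e4, hβμ, e6]
    have hzμ : z ^ (2 * μ) ≠ 0 := pow_ne_zero _ hz
    have hfμ : f ^ μ ≠ 0 := pow_ne_zero _ hf
    field_simp
    ring
  · -- the coordinates
    have hpb : ∀ (p : (Om k)[X]), p.natDegree ≤ M → ∀ z : Om k, z ≠ 0 →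
        (pb f M p).eval (β⁻¹ * z)⁻¹ = (β * z⁻¹) ^ (2 * M) * p.eval (z ^ 2 + f / z ^ 2) := by
      intro p hp z hz
      rw [mul_inv, inv_inv, pb_eval f hp (mul_ne_zero hβ0 (inv_ne_zero hz))]
      congr 2
      rw [mul_pow, hβ, inv_pow]
      field_simp
      ring
    have eG : (yscN (β ^ μ)⁻¹ (sclN (2 * μ) β (flipN (4 * M + 2 * μ) (2 * μ)
        (pullN μ M f N₀)))).G = (mulN (β ^ (2 * M + μ))⁻¹ (pullN μ M f N₀)).G := by
      funext i
      refine poly_ext_ne fun z hz => ?_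
      have hz' : β⁻¹ * z ≠ 0 := mul_ne_zero (inv_ne_zero hβ0) hz
      change (((Polynomial.X ^ μ * pb f M (N₀.G i)).reflect (4 * M + 2 * μ)).comp
        (C β⁻¹ * Polynomial.X)).eval z =
        (C (β ^ (2 * M + μ))⁻¹ * (Polynomial.X ^ μ * pb f M (N₀.G i))).eval z
      have hdeg : (Polynomial.X ^ μ * pb f M (N₀.G i)).natDegree ≤ 4 * M + 2 * μ :=
        (pull_flipOk (μ := μ) (f := f) (N₀ := N₀) i).1
      rw [comp_eval, reflect_eval hdeg hz', eval_mul, eval_pow,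
        eval_X, hpb _ (hM i).1 z hz, eval_mul, eval_C, eval_mul, eval_pow, eval_X,
        pb_eval f (hM i).1 hz, mul_inv, inv_inv]
      have e1 : (β⁻¹ * z) ^ (4 * M + 2 * μ) * ((β * z⁻¹) ^ μ * (β * z⁻¹) ^ (2 * M)) =
          (β ^ (2 * M + μ))⁻¹ * (z ^ μ * z ^ (2 * M)) := by
        have e2 : 4 * M + 2 * μ = (2 * M + μ) + (μ + 2 * M) := by ring
        have e3 : (β⁻¹ * z) * (β * z⁻¹) = 1 := by
          field_simp
        rw [e2, pow_add, ← pow_add (β * z⁻¹), mul_assoc, ← mul_pow, e3, one_pow, mul_one,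
          mul_pow, inv_pow, ← pow_add z, add_comm μ (2 * M)]
      linear_combination (N₀.G i).eval (z ^ 2 + f / z ^ 2) * e1
    have eH : (yscN (β ^ μ)⁻¹ (sclN (2 * μ) β (flipN (4 * M + 2 * μ) (2 * μ)
        (pullN μ M f N₀)))).H = (mulN (β ^ (2 * M + μ))⁻¹ (pullN μ M f N₀)).H := by
      funext i
      refine poly_ext_ne fun z hz => ?_
      have hz' : β⁻¹ * z ≠ 0 := mul_ne_zero (inv_ne_zero hβ0) hz
      change (C ((β ^ μ)⁻¹)⁻¹ * (C (β ^ (2 * μ))⁻¹ *
        ((pb f M (N₀.H i)).reflect (4 * M + 2 * μ - 2 * μ)).comp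
          (C β⁻¹ * Polynomial.X))).eval z =
        (C (β ^ (2 * M + μ))⁻¹ * pb f M (N₀.H i)).eval z
      rw [Nat.add_sub_cancel, eval_mul, eval_C, eval_mul, eval_C, comp_eval,
        reflect_eval (pb_degree f M _) hz', hpb _ (hM i).2 z hz, eval_mul, eval_C,
        pb_eval f (hM i).2 hz, inv_inv]
      have e1 : β ^ μ * ((β ^ (2 * μ))⁻¹ * ((β⁻¹ * z) ^ (4 * M) * (β * z⁻¹) ^ (2 * M))) =
          (β ^ (2 * M + μ))⁻¹ * z ^ (2 * M) := by
        have e2 : 4 * M = 2 * M + 2 * M := by ring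
        have e3 : (β⁻¹ * z) * (β * z⁻¹) = 1 := by
          field_simp
        have e4 : β ^ (2 * μ) = β ^ μ * β ^ μ := by
          rw [← pow_add]
          congr 1
          ring
        rw [e2, pow_add, mul_assoc, ← mul_pow, e3, one_pow, mul_one, mul_pow, inv_pow, e4,
          pow_add β, mul_inv, mul_inv]
        have h5 : β ^ μ ≠ 0 := pow_ne_zero _ hβ0
        field_simp
      linear_combination (N₀.H i).eval (z ^ 2 + f / z ^ 2) * e1
    exact mp_ext eG.symm eH.symm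

end Pool.Agent.GTM
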