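import Pool.Agent.GTM.DkB
import Pool.Agent.GTM.SumRot

/-!
# The alternating sum over the rotations of a point

The line `σ = y₀ w ^ μ` on the covering curve, where `y₀ = σ₀ / w₀ ^ μ`, meets the curve in the rotations
of the point `(w₀, ± σ₀)` and their images under `w ↦ β / w`. So for a map which comes from the
quotient the sum of the classes over the rotations with alternating signs is the same for all points.
-/

set_option autoImplicit false

noncomputable section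

namespace Pool.Agent.GTM

open Pool.Agent.ZCyc Pool.Agent.Dess Pool.Agent.GT Polynomial
open Pool.Agent.VFP (Om tt)
open scoped Classical LinearAlgebra.Projectivization

variable {k : Type} [Field k] [IsAlgClosed k] [CharZero k] {m : ℕ}
  {X : Set (MvPolynomial (Fin (m + 1)) k)} {μ M : ℕ} {B f : Om k} {N₀ : Mp (Om k) m}

private theorem zmod_range {M : Type} [AddCommMonoid M] {ν : ℕ} [NeZero ν] (f : ℕ → M) :
    ∑ a : ZMod ν, f a.val = ((Multiset.range ν).map f).sum := by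
  obtain ⟨n, rfl⟩ : ∃ n, ν = n + 1 := ⟨ν - 1, by have := NeZero.pos ν; omega⟩
  change ∑ a : Fin (n + 1), f a = ((Finset.range (n + 1)).1.map f).sum
  rw [Fin.sum_univ_eq_sum_range]
  rfl

omit [IsAlgClosed k] [CharZero k] in
/-- the roots of `X ^ ν - x ^ ν` -/
private theorem rot_roots {ν : ℕ} {ζ : k} (hζ : IsPrimitiveRoot ζ ν) (x : Om k) :
    (Polynomial.X ^ ν - C (x ^ ν) : (Om k)[X]).roots =
      (Multiset.range ν).map fun i => algebraMap k (Om k) ζ ^ i * x := by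
  have h1 : IsPrimitiveRoot (algebraMap k (Om k) ζ) ν :=
    hζ.map_of_injective (algebraMap k (Om k)).injective
  exact h1.nthRoots_eq rfl

omit [IsAlgClosed k] [CharZero k] in
private theorem zeta_mu {ζ : k} (hζ : IsPrimitiveRoot ζ (2 * μ)) (hμ : 0 < μ) :
    algebraMap k (Om k) ζ ^ μ = -1 := by
  have h1 : ζ ^ μ = -1 := by
    have h2 : (ζ ^ μ) ^ 2 = 1 := by rw [← pow_mul, mul_comm, hζ.pow_eq_one]
    have h5 : (ζ ^ μ - 1) * (ζ ^ μ + 1) = 0 := by linear_combination h2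
    rcases mul_eq_zero.1 h5 with h3 | h3
    · exfalso
      have h4 := Nat.le_of_dvd hμ ((hζ.pow_eq_one_iff_dvd μ).1 (sub_eq_zero.1 h3))
      omega
    · exact eq_neg_of_add_eq_zero_left h3
  rw [← map_pow, h1, map_neg, map_one]

/-- the points of the line over the roots `ζ ^ a z` -/
private theorem line_sum {W : Type} [AddCommMonoid W] [NeZero (2 * μ)] {ζ : k}
    (hζ : IsPrimitiveRoot ζ (2 * μ)) (hμ : 0 < μ) (c z : Om k) (F : Om k → Om k → W) :
    ((Polynomial.X ^ (2 * μ) - C (z ^ (2 * μ)) : (Om k)[X]).roots.map fun x =>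
      F x ((C c * Polynomial.X ^ μ : (Om k)[X]).eval x)).sum =
      ∑ a : ZMod (2 * μ), F (algebraMap k (Om k) ζ ^ a.val * z) ((-1) ^ a.val * (c * z ^ μ)) := by
  rw [rot_roots hζ, Multiset.map_map,
    zmod_range (ν := 2 * μ) fun i => F (algebraMap k (Om k) ζ ^ i * z) ((-1) ^ i * (c * z ^ μ))]
  congr 1
  refine Multiset.map_congr rfl fun i _ => ?_
  simp only [Function.comp_apply, eval_mul, eval_C, eval_pow, eval_X]
  have h1 : (algebraMap k (Om k) ζ ^ i) ^ μ = (-1) ^ i := by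
    rw [← pow_mul, mul_comm, pow_mul, zeta_mu hζ hμ]
  rw [mul_pow, h1]
  congr 1
  ring

/-- The line through the rotations of a point. -/
theorem line_alt (hX : Hom X) (hM : ∀ i, (N₀.G i).natDegree ≤ M ∧ (N₀.H i).natDegree ≤ M)
    (hN : OkH (2 * μ) (wP (2 * μ) B (f ^ μ)) (pullN μ M f N₀) X) (v : Place k (Om k))
    [NeZero (2 * μ)] {ζ : k} (hζ : IsPrimitiveRoot ζ (2 * μ)) (hf : f ≠ 0) {x y : Om k}
    (hx : x ≠ 0) (h : y ^ 2 = (wP (2 * μ) B (f ^ μ)).eval x) :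
    lineV hX hN v 0 = (2 : ℚ) • ∑ a : ZMod (2 * μ),
      cv hX hN v (algebraMap k (Om k) ζ ^ a.val * x) ((-1) ^ a.val * y) := by
  have hμ2 : 0 < 2 * μ := hN.pos
  have hμ : 0 < μ := by omega
  obtain ⟨β, hβ⟩ := IsAlgClosed.exists_pow_nat_eq f (n := 2) (by norm_num)
  have hβ0 : β ≠ 0 := by
    rintro rfl
    apply hf
    rw [← hβ, zero_pow two_ne_zero]
  have hxμ : x ^ μ ≠ 0 := pow_ne_zero _ hx
  have hx2 : x ^ (2 * μ) ≠ 0 := pow_ne_zero _ hx
  have hx22 : x ^ (2 * μ) = x ^ μ * x ^ μ := by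
    rw [← pow_add]
    congr 1
    ring
  have hζ1 : algebraMap k (Om k) ζ ^ (2 * μ) = 1 := by
    rw [← map_pow, hζ.pow_eq_one, map_one]
  set c := y / x ^ μ with hc
  have hcx : c * x ^ μ = y := div_mul_cancel₀ _ hxμ
  have hcc : c ^ 2 = x ^ (2 * μ) + B + f ^ μ / x ^ (2 * μ) := by
    rw [hc, div_pow, h, wP_eval, ← pow_mul x μ 2, mul_comm μ 2]
    have e6 : x ^ (2 * (2 * μ)) = x ^ (2 * μ) * x ^ (2 * μ) := by
      rw [← pow_add]
      congr 1
      ring
    rw [e6]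
    field_simp
  -- the line
  have hdeg : (C c * Polynomial.X ^ μ : (Om k)[X]).natDegree ≤ 2 * μ := by
    refine (natDegree_C_mul_X_pow_le _ _).trans ?_
    omega
  have hcoeff : (C c * Polynomial.X ^ μ : (Om k)[X]).coeff (2 * μ) = 0 := by
    rw [coeff_C_mul, coeff_X_pow, if_neg (by omega), mul_zero]
  have h01 : (0 : Om k) ^ 2 ≠ 1 := by
    rw [zero_pow two_ne_zero]
    exact zero_ne_one
  have hL : lineV hX hN v 0 = lineV hX hN v (C c * Polynomial.X ^ μ) := by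
    refine lineV_eq hX hN v ?_ ?_ hdeg ?_
    · rw [natDegree_zero]
      exact Nat.zero_le _
    · rw [coeff_zero, wP_coeff_top hμ2]
      exact h01
    · rw [hcoeff, wP_coeff_top hμ2]
      exact h01
  have hfac : (C c * Polynomial.X ^ μ) ^ 2 - wP (2 * μ) B (f ^ μ) =
      C (-1) * ((Polynomial.X ^ (2 * μ) - C (x ^ (2 * μ))) *
        (Polynomial.X ^ (2 * μ) - C ((β / x) ^ (2 * μ)))) := by
    have e1 : (β / x) ^ (2 * μ) = f ^ μ / x ^ (2 * μ) := by
      rw [div_pow, pow_mul β, hβ]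
    have e2 : x ^ (2 * μ) * (f ^ μ / x ^ (2 * μ)) = f ^ μ := mul_div_cancel₀ _ hx2
    have e3 : (C c : (Om k)[X]) ^ 2 = C (x ^ (2 * μ)) + C B + C (f ^ μ / x ^ (2 * μ)) := by
      rw [← C_pow, hcc, C_add, C_add]
    have e4 : (C (x ^ (2 * μ)) : (Om k)[X]) * C (f ^ μ / x ^ (2 * μ)) = C (f ^ μ) := by
      rw [← C_mul, e2]
    have e5 : (Polynomial.X ^ μ : (Om k)[X]) ^ 2 = Polynomial.X ^ (2 * μ) := by
      rw [← pow_mul, mul_comm μ 2]
    have e6 : (Polynomial.X ^ (2 * (2 * μ)) : (Om k)[X]) =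
        Polynomial.X ^ (2 * μ) * Polynomial.X ^ (2 * μ) := by
      rw [← pow_add]
      congr 1
      ring
    have e7 : (C (-1) : (Om k)[X]) = -1 := by rw [C_neg, C_1]
    rw [e1, wP, mul_pow, e3, e5, e6, e7]
    linear_combination e4
  have hne : ((Polynomial.X ^ (2 * μ) - C (x ^ (2 * μ))) *
      (Polynomial.X ^ (2 * μ) - C ((β / x) ^ (2 * μ))) : (Om k)[X]) ≠ 0 :=
    mul_ne_zero (X_pow_sub_C_ne_zero hμ2 _) (X_pow_sub_C_ne_zero hμ2 _)
  -- the second sum
  have hon : ∀ a : ZMod (2 * μ), ((-1) ^ a.val * y) ^ 2 =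
      (wP (2 * μ) B (f ^ μ)).eval (algebraMap k (Om k) ζ ^ a.val * x) := by
    intro a
    have e1 : (algebraMap k (Om k) ζ ^ a.val) ^ (2 * μ) = 1 := by
      rw [← pow_mul, mul_comm, pow_mul, hζ1, one_pow]
    have e2 : ((-1 : Om k) ^ a.val) ^ 2 = 1 := by
      rw [← pow_mul, mul_comm, pow_mul, neg_one_sq, one_pow]
    rw [mul_pow, e2, one_mul, h, wP_eval, wP_eval, mul_pow, mul_pow, mul_comm 2 (2 * μ),
      pow_mul (algebraMap k (Om k) ζ ^ a.val), e1, one_pow, one_mul, one_mul]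
  have hsnd : ∀ a : ZMod (2 * μ), cv hX hN v (algebraMap k (Om k) ζ ^ a.val * (β / x))
      ((-1) ^ a.val * (c * (β / x) ^ μ)) =
      cv hX hN v (algebraMap k (Om k) ζ ^ (-a).val * x) ((-1) ^ (-a).val * y) := by
    intro a
    have hz : algebraMap k (Om k) ζ ^ (-a).val * x ≠ 0 := by
      refine mul_ne_zero (pow_ne_zero _ ?_) hx
      intro h0
      rw [h0, zero_pow hμ2.ne'] at hζ1
      exact zero_ne_one hζ1
    rw [← cv_inv hX hM hN v hβ hf hz (hon (-a))]
    have hdvd : 2 * μ ∣ a.val + (-a).val := by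
      rw [← ZMod.natCast_eq_zero_iff, Nat.cast_add, ZMod.natCast_zmod_val, ZMod.natCast_zmod_val,
        add_neg_cancel]
    have e1 : algebraMap k (Om k) ζ ^ a.val * algebraMap k (Om k) ζ ^ (-a).val = 1 := by
      rw [← pow_add]
      obtain ⟨t, ht⟩ := hdvd
      rw [ht, pow_mul, hζ1, one_pow]
    have e2 : (-1 : Om k) ^ a.val = (-1) ^ (-a).val := by
      have h1 : (-1 : Om k) ^ a.val * (-1) ^ (-a).val = 1 := by
        rw [← pow_add]
        obtain ⟨t, ht⟩ := hdvd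
        rw [ht, mul_assoc, pow_mul, neg_one_sq, one_pow]
      have h2 : (-1 : Om k) ^ (-a).val * (-1) ^ (-a).val = 1 := by
        rw [← mul_pow, neg_mul_neg, one_mul, one_pow]
      have h3 : (-1 : Om k) ^ (-a).val ≠ 0 := pow_ne_zero _ (neg_ne_zero.2 one_ne_zero)
      exact mul_right_cancel₀ h3 (h1.trans h2.symm)
    have hζ0 : algebraMap k (Om k) ζ ^ (-a).val ≠ 0 := left_ne_zero_of_mul hz
    have e3 : algebraMap k (Om k) ζ ^ a.val * (β / x) =
        β / (algebraMap k (Om k) ζ ^ (-a).val * x) := by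
      rw [eq_div_iff hz]
      calc algebraMap k (Om k) ζ ^ a.val * (β / x) * (algebraMap k (Om k) ζ ^ (-a).val * x) =
          (algebraMap k (Om k) ζ ^ a.val * algebraMap k (Om k) ζ ^ (-a).val) * (β / x * x) := by
            ring
        _ = β := by rw [e1, one_mul, div_mul_cancel₀ _ hx]
    have e4 : (-1) ^ a.val * (c * (β / x) ^ μ) = β ^ μ * ((-1) ^ (-a).val * y) /
        (algebraMap k (Om k) ζ ^ (-a).val * x) ^ (2 * μ) := by
      have e5 : (algebraMap k (Om k) ζ ^ (-a).val) ^ (2 * μ) = 1 := by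
        rw [← pow_mul, mul_comm, pow_mul, hζ1, one_pow]
      rw [mul_pow, e5, one_mul, e2, div_pow, hc, hx22]
      field_simp
    rw [e3, e4]
  rw [hL]
  unfold lineV
  rw [hfac, roots_C_mul _ (neg_ne_zero.2 one_ne_zero), roots_mul hne, Multiset.map_add,
    Multiset.sum_add, line_sum hζ hμ c x fun z w => cv hX hN v z w,
    line_sum hζ hμ c (β / x) fun z w => cv hX hN v z w, hcx, two_smul]
  congr 1
  rw [← Equiv.sum_comp (Equiv.neg (ZMod (2 * μ))) fun a =>
    cv hX hN v (algebraMap k (Om k) ζ ^ a.val * x) ((-1) ^ a.val * y)]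
  exact Finset.sum_congr rfl fun a _ => hsnd a

/-- The alternating sum over the rotations is the same for all points. -/
theorem alt_const (hX : Hom X) (hM : ∀ i, (N₀.G i).natDegree ≤ M ∧ (N₀.H i).natDegree ≤ M)
    (hN : OkH (2 * μ) (wP (2 * μ) B (f ^ μ)) (pullN μ M f N₀) X) (v : Place k (Om k))
    [NeZero (2 * μ)] {ζ : k} (hζ : IsPrimitiveRoot ζ (2 * μ)) (hf : f ≠ 0) {x y x' y' : Om k}
    (hx : x ≠ 0) (hx' : x' ≠ 0) (h : y ^ 2 = (wP (2 * μ) B (f ^ μ)).eval x)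
    (h' : y' ^ 2 = (wP (2 * μ) B (f ^ μ)).eval x') :
    ∑ a : ZMod (2 * μ), ((-1 : ℚ) ^ a.val) •
      cv hX hN v (algebraMap k (Om k) ζ ^ a.val * x) y =
    ∑ a : ZMod (2 * μ), ((-1 : ℚ) ^ a.val) •
      cv hX hN v (algebraMap k (Om k) ζ ^ a.val * x') y' := by
  have hζ1 : algebraMap k (Om k) ζ ^ (2 * μ) = 1 := by
    rw [← map_pow, hζ.pow_eq_one, map_one]
  have hon : ∀ (x y : Om k), y ^ 2 = (wP (2 * μ) B (f ^ μ)).eval x → ∀ a : ℕ,
      y ^ 2 = (wP (2 * μ) B (f ^ μ)).eval (algebraMap k (Om k) ζ ^ a * x) := by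
    intro x y h a
    have e1 : (algebraMap k (Om k) ζ ^ a) ^ (2 * μ) = 1 := by
      rw [← pow_mul, mul_comm, pow_mul, hζ1, one_pow]
    rw [h, wP_eval, wP_eval, mul_pow, mul_pow, mul_comm 2 (2 * μ),
      pow_mul (algebraMap k (Om k) ζ ^ a), e1, one_pow, one_mul, one_mul]
  set c₀ := cv hX hN v x y + cv hX hN v x (-y) with hc₀
  -- the classes with the signs
  have key : ∀ (x y : Om k), y ^ 2 = (wP (2 * μ) B (f ^ μ)).eval x → ∀ a : ℕ,
      ((-1 : ℚ) ^ a) • cv hX hN v (algebraMap k (Om k) ζ ^ a * x) y =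
        cv hX hN v (algebraMap k (Om k) ζ ^ a * x) ((-1) ^ a * y) -
          ((1 - (-1 : ℚ) ^ a) / 2) • c₀ := by
    intro x₁ y₁ h₁ a
    have h2 := cv_iota hX hN v (hon x₁ y₁ h₁ a) h
    rw [← hc₀] at h2
    rcases Nat.even_or_odd a with ha | ha
    · rw [ha.neg_one_pow, ha.neg_one_pow, one_mul, one_smul, sub_self, zero_div, zero_smul,
        sub_zero]
    · rw [ha.neg_one_pow, ha.neg_one_pow, neg_one_mul, neg_one_smul, sub_neg_eq_add]
      have e1 : ((1 + 1 : ℚ) / 2) = 1 := by norm_num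
      rw [e1, one_smul, ← h2]
      abel
  have hsum : ∀ (x y : Om k), x ≠ 0 → y ^ 2 = (wP (2 * μ) B (f ^ μ)).eval x →
      ∑ a : ZMod (2 * μ), ((-1 : ℚ) ^ a.val) •
        cv hX hN v (algebraMap k (Om k) ζ ^ a.val * x) y = (1 / 2 : ℚ) • lineV hX hN v 0 -
          ∑ a : ZMod (2 * μ), ((1 - (-1 : ℚ) ^ a.val) / 2) • c₀ := by
    intro x₁ y₁ hx₁ h₁
    rw [line_alt hX hM hN v hζ hf hx₁ h₁, smul_smul]
    have e1 : (1 / 2 * 2 : ℚ) = 1 := by norm_num
    rw [e1, one_smul, ← Finset.sum_sub_distrib]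
    exact Finset.sum_congr rfl fun a _ => key x₁ y₁ h₁ a.val
  rw [hsum x y hx h, hsum x' y' hx' h']

end Pool.Agent.GTM
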