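import Pool.Agent.GTM.DkC
import Pool.Agent.GTM.CorI

/-!
# Symmetries of the classes of the rotations
-/

set_option autoImplicit false

noncomputable section

namespace Pool.Agent.GTM

open Pool.Agent.ZCyc Pool.Agent.Dess Pool.Agent.GT Polynomial
open Pool.Agent.VFP (Om tt)
open scoped Classical LinearAlgebra.Projectivization

open Pool.Agent.TInc

variable {k L : Type} [Field k] [IsAlgClosed k] [CharZero k] [Field L] [Algebra k L] {m μ : ℕ}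
  {X : Set (MvPolynomial (Fin (m + 1)) k)}

private theorem dkd_cv {d : ℕ} (hX : Hom X) {P P' : (Om k)[X]} {N N' : Mp (Om k) m}
    (hN : OkH d P N X) (hP : P = P') (h : N = N') :
    ∃ hN' : OkH d P' N' X, ∀ (v : Place k (Om k)) (x y : Om k),
      cv hX hN v x y = cv hX hN' v x y := by
  subst hP h
  exact ⟨hN, fun _ _ _ => rfl⟩

/-- the map for a root of `h` -/
private theorem dkd_N (hX : Hom X) {d : GD L m} (hd : OkD μ d X) (σ : L →ₐ[k] Om k) {θ : Om k}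
    (hθ : θ ∈ (pullD μ d).rts (σ : L →+* Om k)) :
    ∃ hN' : OkH (2 * μ) (wP (2 * μ) (σ d.B) ((σ d.α) ^ μ))
      (pullN μ (topD d) (σ d.α) (d.mp (σ : L →+* Om k) θ)) X,
      ∀ (v : Place k (Om k)) (x y : Om k),
        cv hX ((hd.pull hX).mp_ok σ hθ) v x y = cv hX hN' v x y := by
  refine dkd_cv hX _ ?_ (pullD_mp μ d (σ : L →+* Om k) θ)
  have h1 : σ (pullD μ d).α = (σ d.α) ^ μ := map_pow σ _ _
  rw [h1]
  rfl

omit [IsAlgClosed k] [CharZero k] in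
private theorem dkd_on {d : GD L m} {σ : L →ₐ[k] Om k} {x y : Om k}
    (h : y ^ 2 = x ^ (2 * (2 * μ)) + σ (pullD μ d).B * x ^ (2 * μ) + σ (pullD μ d).α) :
    y ^ 2 = (wP (2 * μ) (σ d.B) ((σ d.α) ^ μ)).eval x := by
  have h1 : σ (pullD μ d).α = (σ d.α) ^ μ := map_pow σ _ _
  rw [wP_eval, h, h1]
  rfl

omit [CharZero k] in
private theorem dkd_ne {d : GD L m} (hd : OkD μ d X) (σ : L →ₐ[k] Om k) : σ d.α ≠ 0 :=
  (hd.unit.map σ).ne_zero

/-- the symmetry `(x, y) ↦ (- x, (-1) ^ μ y)` -/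
theorem TV_neg (hX : Hom X) {d : GD L m} (hd : OkD μ d X) (σ : L →ₐ[k] Om k)
    (v : Place k (Om k)) {x y : Om k}
    (h : y ^ 2 = x ^ (2 * (2 * μ)) + σ (pullD μ d).B * x ^ (2 * μ) + σ (pullD μ d).α) :
    TV hX (hd.pull hX) σ v (-x) ((-1) ^ μ * y) = TV hX (hd.pull hX) σ v x y := by
  unfold TV
  refine Finset.sum_congr rfl fun θ _ => ?_
  obtain ⟨hN', h1⟩ := dkd_N hX hd σ θ.2
  rw [h1, h1]
  exact cv_neg hX (mp_degree d _ _) hN' v (dkd_on h)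

/-- the symmetry `(x, y) ↦ (β / x, β ^ μ y / x ^ (2 μ))` -/
theorem TV_inv (hX : Hom X) {d : GD L m} (hd : OkD μ d X) (σ : L →ₐ[k] Om k)
    (v : Place k (Om k)) {β : Om k} (hβ : β ^ 2 = σ d.α) {x y : Om k} (hx : x ≠ 0)
    (h : y ^ 2 = x ^ (2 * (2 * μ)) + σ (pullD μ d).B * x ^ (2 * μ) + σ (pullD μ d).α) :
    TV hX (hd.pull hX) σ v (β / x) (β ^ μ * y / x ^ (2 * μ)) = TV hX (hd.pull hX) σ v x y := by
  unfold TV
  refine Finset.sum_congr rfl fun θ _ => ?_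
  obtain ⟨hN', h1⟩ := dkd_N hX hd σ θ.2
  rw [h1, h1]
  exact cv_inv hX (mp_degree d _ _) hN' v hβ (dkd_ne hd σ) hx (dkd_on h)

/-- the alternating sum over the rotations -/
theorem TV_alt (hX : Hom X) {d : GD L m} (hd : OkD μ d X) (σ : L →ₐ[k] Om k)
    (v : Place k (Om k)) [NeZero (2 * μ)] {ζ : k} (hζ : IsPrimitiveRoot ζ (2 * μ))
    {x y x' y' : Om k} (hx : x ≠ 0) (hx' : x' ≠ 0)
    (h : y ^ 2 = x ^ (2 * (2 * μ)) + σ (pullD μ d).B * x ^ (2 * μ) + σ (pullD μ d).α)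
    (h' : y' ^ 2 = x' ^ (2 * (2 * μ)) + σ (pullD μ d).B * x' ^ (2 * μ) + σ (pullD μ d).α) :
    ∑ a : ZMod (2 * μ), ((-1 : ℚ) ^ a.val) •
      TV hX (hd.pull hX) σ v (algebraMap k (Om k) ζ ^ a.val * x) y =
    ∑ a : ZMod (2 * μ), ((-1 : ℚ) ^ a.val) •
      TV hX (hd.pull hX) σ v (algebraMap k (Om k) ζ ^ a.val * x') y' := by
  unfold TV
  simp only [Finset.smul_sum]
  rw [Finset.sum_comm, Finset.sum_comm (s := (Finset.univ : Finset (ZMod (2 * μ))))]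
  refine Finset.sum_congr rfl fun θ _ => ?_
  obtain ⟨hN', h1⟩ := dkd_N hX hd σ θ.2
  simp only [h1]
  exact alt_const hX (mp_degree d _ _) hN' v hζ (dkd_ne hd σ) hx hx' (dkd_on h) (dkd_on h')

/-- the hyperelliptic involution -/
theorem TV_iota (hX : Hom X) {ν : ℕ} {d : GD L m} (hd : OkW ν d X) (σ : L →ₐ[k] Om k)
    (v : Place k (Om k)) {x y x' y' : Om k}
    (h : y ^ 2 = x ^ (2 * ν) + σ d.B * x ^ ν + σ d.α)
    (h' : y' ^ 2 = x' ^ (2 * ν) + σ d.B * x' ^ ν + σ d.α) :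
    TV hX hd σ v x y + TV hX hd σ v x (-y) = TV hX hd σ v x' y' + TV hX hd σ v x' (-y') := by
  unfold TV
  rw [← Finset.sum_add_distrib, ← Finset.sum_add_distrib]
  refine Finset.sum_congr rfl fun θ _ => ?_
  exact cv_iota hX (hd.mp_ok σ θ.2) v (by rw [wP_eval]; exact h) (by rw [wP_eval]; exact h')

/-- All functions which are the classes of the limits of the rotations of points with `x ≠ 0` of the
covering curve. -/
def RotD (hX : Hom X) [NeZero (2 * μ)] (ζ : k) {d : GD L m} (hd : OkD μ d X) :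
    Set (ZMod (2 * μ) → (Pt X k →₀ ℚ)) :=
  {w | ∃ (σ : L →ₐ[k] Om k) (v : Place k (Om k)) (x y : Om k), x ≠ 0 ∧
    y ^ 2 = x ^ (2 * (2 * μ)) + σ (pullD μ d).B * x ^ (2 * μ) + σ (pullD μ d).α ∧
    ∀ a, cl1 X (w a) = rotL hX (hd.pull hX) ζ σ v x y a}

theorem isRotL_D (hX : Hom X) [NeZero (2 * μ)] (ζ : k) {d : GD L m} (hd : OkD μ d X) :
    IsRotL hX ζ (hd.pull hX) (RotD hX ζ hd) := by
  rintro w ⟨σ, v, x, y, -, h, hcl⟩
  exact ⟨σ, v, x, y, h, hcl⟩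

private theorem zm_dvd {ν : ℕ} [NeZero ν] (a : ZMod ν) : ν ∣ a.val + (-a).val := by
  rw [← ZMod.natCast_eq_zero_iff, Nat.cast_add, ZMod.natCast_zmod_val, ZMod.natCast_zmod_val,
    add_neg_cancel]

private theorem pow_neg_val {R : Type} [Field R] {ν : ℕ} [NeZero ν] {ω : R} (hω : ω ^ ν = 1)
    (a : ZMod ν) : ω ^ (-a).val = (ω ^ a.val)⁻¹ := by
  refine eq_inv_of_mul_eq_one_right ?_
  rw [← pow_add]
  obtain ⟨t, ht⟩ := zm_dvd a
  rw [ht, pow_mul, hω, one_pow]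

/-- The functions `a ↦ w(- a)` are of the same kind. -/
theorem RotD_neg (hX : Hom X) [NeZero (2 * μ)] {ζ : k} (hζ : ζ ^ (2 * μ) = 1) {d : GD L m}
    (hd : OkD μ d X) {w : ZMod (2 * μ) → (Pt X k →₀ ℚ)} (hw : w ∈ RotD hX ζ hd) :
    (fun a => w (-a)) ∈ RotD hX ζ hd := by
  obtain ⟨σ, v, x, y, hx, h, hcl⟩ := hw
  obtain ⟨β, hβ⟩ := IsAlgClosed.exists_pow_nat_eq (σ d.α) (n := 2) (by norm_num)
  have hβ0 : β ≠ 0 := by
    rintro rfl
    apply dkd_ne hd σ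
    rw [← hβ, zero_pow two_ne_zero]
  have hμ : 0 < μ := hd.pos
  have hζ' : algebraMap k (Om k) ζ ^ (2 * μ) = 1 := by rw [← map_pow, hζ, map_one]
  have hζ0 : algebraMap k (Om k) ζ ≠ 0 := by
    intro h0
    rw [h0, zero_pow (by omega)] at hζ'
    exact zero_ne_one hζ'
  have hx2 : x ^ (2 * μ) ≠ 0 := pow_ne_zero _ hx
  have hon : ∀ n : ℕ, y ^ 2 = (algebraMap k (Om k) ζ ^ n * x) ^ (2 * (2 * μ)) +
      σ (pullD μ d).B * (algebraMap k (Om k) ζ ^ n * x) ^ (2 * μ) + σ (pullD μ d).α := by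
    intro n
    have e1 : (algebraMap k (Om k) ζ ^ n) ^ (2 * μ) = 1 := by
      rw [← pow_mul, mul_comm, pow_mul, hζ', one_pow]
    rw [h, mul_pow, mul_pow, mul_comm 2 (2 * μ), pow_mul (algebraMap k (Om k) ζ ^ n), e1, one_pow,
      one_mul, one_mul]
  refine ⟨σ, v, β / x, β ^ μ * y / x ^ (2 * μ), div_ne_zero hβ0 hx, ?_, fun a => ?_⟩
  · have h1 : σ (pullD μ d).α = (σ d.α) ^ μ := map_pow σ _ _
    have hβμ : β ^ (2 * μ) = (σ d.α) ^ μ := by rw [pow_mul, hβ]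
    rw [h1] at h ⊢
    rw [div_pow, mul_pow, h, div_pow, div_pow, ← pow_mul β μ 2, mul_comm μ 2, hβμ]
    have e4 : β ^ (2 * (2 * μ)) = (σ d.α) ^ μ * (σ d.α) ^ μ := by
      rw [mul_comm 2 (2 * μ), pow_mul, hβμ, sq]
    have e5 : (x ^ (2 * μ)) ^ 2 = x ^ (2 * (2 * μ)) := by
      rw [← pow_mul, mul_comm (2 * μ) 2]
    have e6 : x ^ (2 * (2 * μ)) = x ^ (2 * μ) * x ^ (2 * μ) := by
      rw [← pow_add]
      congr 1
      ring
    rw [e4, e5, e6]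
    field_simp
    ring
  · change cl1 X (w (-a)) = _
    rw [hcl]
    unfold rotL
    have hz : algebraMap k (Om k) ζ ^ (-a).val * x ≠ 0 := mul_ne_zero (pow_ne_zero _ hζ0) hx
    rw [← TV_inv hX hd σ v hβ hz (hon _)]
    have e1 : β / (algebraMap k (Om k) ζ ^ (-a).val * x) =
        algebraMap k (Om k) ζ ^ a.val * (β / x) := by
      rw [pow_neg_val hζ']
      have h1 : algebraMap k (Om k) ζ ^ a.val ≠ 0 := pow_ne_zero _ hζ0
      field_simp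
    have e2 : (algebraMap k (Om k) ζ ^ (-a).val * x) ^ (2 * μ) = x ^ (2 * μ) := by
      rw [mul_pow, ← pow_mul, mul_comm (-a).val, pow_mul, hζ', one_pow, one_mul]
    rw [e1, e2]

variable {R : Type} [Field R] [CharZero R]

/-- The eigenspaces for `ω` and `ω⁻¹` are the same. -/
theorem WR_inv (hX : Hom X) [NeZero (2 * μ)] {ζ : k} (hζ : ζ ^ (2 * μ) = 1) {d : GD L m}
    (hd : OkD μ d X) {ω : R} (hω : ω ^ (2 * μ) = 1) :
    WR R (RotD hX ζ hd) ω⁻¹ ≤ WR R (RotD hX ζ hd) ω := by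
  refine sup_le_sup_right (Submodule.span_mono ?_) _
  rintro _ ⟨w, hw, rfl⟩
  refine ⟨fun a => w (-a), RotD_neg hX hζ hd hw, ?_⟩
  unfold eig
  rw [← Equiv.sum_comp (Equiv.neg (ZMod (2 * μ)))]
  refine Finset.sum_congr rfl fun a _ => ?_
  have h1 : (fun a => w (-a)) (-a) = w a := congrArg w (neg_neg a)
  rw [Equiv.neg_apply, h1, pow_neg_val hω, inv_pow]

end Pool.Agent.GTM
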