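import Pool.Agent.GTM.DkD

/-!
# Differences of two points of a fibre of the family of Dickson curves
-/

set_option autoImplicit false

noncomputable section

namespace Pool.Agent.GTM

open Pool.Agent.ZCyc Pool.Agent.Dess Pool.Agent.GT Polynomial Pool.Agent.ZIso
open Pool.Agent.VFP (Om tt)
open scoped Classical LinearAlgebra.Projectivization

open Pool.Agent.TInc

variable {k L : Type} [Field k] [IsAlgClosed k] [CharZero k] [Field L] [Algebra k L] {m μ : ℕ}
  {X : Set (MvPolynomial (Fin (m + 1)) k)} {R : Type} [Field R] [CharZero R]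

omit [IsAlgClosed k] [CharZero k] in
/-- every class on the variety is the class of a cycle -/
theorem dke_surj : Function.Surjective (cl1 X) := by
  intro c
  obtain ⟨w, rfl⟩ := Submodule.Quotient.mk_surjective _ c
  refine ⟨Finsupp.mapDomain (fun x => x ()) w, ?_⟩
  change Submodule.Quotient.mk (Finsupp.mapDomain (fun x _ => x)
    (Finsupp.mapDomain (fun x => x ()) w)) = _
  rw [← Finsupp.mapDomain_comp]
  have h3 : ((fun (x : Pt X k) (_ : Unit) => x) ∘ fun x : Unit → Pt X k => x ()) = id := rfl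
  rw [h3, Finsupp.mapDomain_id]

omit [CharZero R] in
theorem sum_inv_pow {ν : ℕ} [NeZero ν] {ω : R} (hω : ω ^ ν = 1) (h1 : ω ≠ 1) :
    ∑ a : ZMod ν, (ω ^ a.val)⁻¹ = 0 := by
  have h0 : ω ≠ 0 := by
    rintro rfl
    rw [zero_pow (NeZero.ne ν)] at hω
    exact zero_ne_one hω
  have h2 : ∑ a : ZMod ν, (ω ^ a.val)⁻¹ = ω * ∑ a : ZMod ν, (ω ^ a.val)⁻¹ := by
    conv_lhs => rw [← Equiv.sum_comp (Equiv.subRight (1 : ZMod ν))]
    rw [Finset.mul_sum]
    refine Finset.sum_congr rfl fun a _ => ?_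
    rw [Equiv.subRight_apply]
    have h3 : ω ^ a.val = ω ^ (a - 1).val * ω := by
      have h4 : ω ^ (a - 1 + 1).val = ω ^ (a - 1).val * ω ^ (1 : ZMod ν).val := by
        rw [ZMod.val_add, ← pow_add, ← pow_eq_pow_mod _ hω]
      have h5 : ω ^ (1 : ZMod ν).val = ω := by
        rw [ZMod.val_one_eq_one_mod, ← pow_eq_pow_mod _ hω, pow_one]
      rw [sub_add_cancel, h5] at h4
      exact h4
    rw [h3]
    have h6 : ω ^ (a - 1).val ≠ 0 := pow_ne_zero _ h0
    field_simp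
  have h3 : (1 - ω) * ∑ a : ZMod ν, (ω ^ a.val)⁻¹ = 0 := by
    rw [sub_mul, one_mul, ← h2, sub_self]
  exact (mul_eq_zero.1 h3).resolve_left (sub_ne_zero.2 (Ne.symm h1))

/-- the rotation by `μ` -/
private theorem rot_half (hX : Hom X) [NeZero (2 * μ)] {ζ : k} (hζ : IsPrimitiveRoot ζ (2 * μ))
    {d : GD L m} (hd : OkD μ d X) {w : ZMod (2 * μ) → (Pt X k →₀ ℚ)} (hw : w ∈ RotD hX ζ hd) :
    ∃ c : Pt X k →₀ ℚ, ∀ a, w (a + (μ : ℕ)) - ((-1 : ℚ) ^ μ • w a + c) ∈ Rat1 X := by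
  obtain ⟨σ, v, x, y, hx, h, hcl⟩ := hw
  have hμ : 0 < μ := hd.pos
  have hζ' : algebraMap k (Om k) ζ ^ (2 * μ) = 1 := by
    rw [← map_pow, hζ.pow_eq_one, map_one]
  have hζμ : algebraMap k (Om k) ζ ^ μ = -1 := by
    have h1 : ζ ^ μ = -1 := by
      have h2 : (ζ ^ μ) ^ 2 = 1 := by rw [← pow_mul, mul_comm, hζ.pow_eq_one]
      have h5 : (ζ ^ μ - 1) * (ζ ^ μ + 1) = 0 := by linear_combination h2
      rcases mul_eq_zero.1 h5 with h3 | h3
      · exfalso
        have h4 := Nat.le_of_dvd hμ ((hζ.pow_eq_one_iff_dvd μ).1 (sub_eq_zero.1 h3))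
        omega
      · exact eq_neg_of_add_eq_zero_left h3
    rw [← map_pow, h1, map_neg, map_one]
  have hon : ∀ n : ℕ, y ^ 2 = (algebraMap k (Om k) ζ ^ n * x) ^ (2 * (2 * μ)) +
      σ (pullD μ d).B * (algebraMap k (Om k) ζ ^ n * x) ^ (2 * μ) + σ (pullD μ d).α := by
    intro n
    have e1 : (algebraMap k (Om k) ζ ^ n) ^ (2 * μ) = 1 := by
      rw [← pow_mul, mul_comm, pow_mul, hζ', one_pow]
    rw [h, mul_pow, mul_pow, mul_comm 2 (2 * μ), pow_mul (algebraMap k (Om k) ζ ^ n), e1, one_pow,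
      one_mul, one_mul]
  have hshift : ∀ a : ZMod (2 * μ), algebraMap k (Om k) ζ ^ (a + (μ : ℕ)).val * x =
      -(algebraMap k (Om k) ζ ^ a.val * x) := by
    intro a
    have e1 : algebraMap k (Om k) ζ ^ (a + ((μ : ℕ) : ZMod (2 * μ))).val =
        algebraMap k (Om k) ζ ^ a.val * algebraMap k (Om k) ζ ^ μ := by
      rw [ZMod.val_add, ← pow_eq_pow_mod _ hζ', pow_add, ZMod.val_natCast,
        ← pow_eq_pow_mod _ hζ']
    rw [e1, hζμ]
    ring
  -- the class of the rotated point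
  have key : ∀ a : ZMod (2 * μ), cl1 X (w (a + (μ : ℕ))) =
      TV hX (hd.pull hX) σ v (algebraMap k (Om k) ζ ^ a.val * x) ((-1) ^ μ * y) := by
    intro a
    rw [hcl]
    unfold rotL
    have h1 : ((-1 : Om k) ^ μ) ^ 2 = 1 := by
      rw [← pow_mul, mul_comm, pow_mul, neg_one_sq, one_pow]
    have h2 := TV_neg hX hd σ v (x := algebraMap k (Om k) ζ ^ a.val * x)
      (y := (-1) ^ μ * y) (by
        rw [mul_pow, h1, one_mul]
        exact hon a.val)
    rw [← h2, ← mul_assoc, ← sq, h1, one_mul, hshift]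
  rcases Nat.even_or_odd μ with he | ho
  · refine ⟨0, fun a => ?_⟩
    rw [mem_rat1, map_sub, key, he.neg_one_pow, he.neg_one_pow, one_smul, one_mul, add_zero, hcl]
    exact sub_self _
  · obtain ⟨c, hc⟩ := dke_surj (X := X) (TV hX (hd.pull hX) σ v x y +
      TV hX (hd.pull hX) σ v x (-y))
    refine ⟨c, fun a => ?_⟩
    have h1 := TV_iota hX (hd.pull hX) σ v (hon a.val) h
    rw [mem_rat1, map_sub, map_add, map_smul, key, ho.neg_one_pow, ho.neg_one_pow, neg_one_mul,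
      neg_one_smul, hc, ← h1, hcl]
    unfold rotL
    abel

/-- The eigenvectors for `ω` with `ω ^ μ = - (-1) ^ μ` are rationally equivalent to zero. -/
theorem eig_bad (hX : Hom X) [NeZero (2 * μ)] {ζ : k} (hζ : IsPrimitiveRoot ζ (2 * μ))
    {d : GD L m} (hd : OkD μ d X) {w : ZMod (2 * μ) → (Pt X k →₀ ℚ)} (hw : w ∈ RotD hX ζ hd)
    {ω : R} (hω : ω ^ μ = -(-1) ^ μ) (h1 : ω ≠ 1) : eig ω w ∈ RatR1 R X := by
  have hsq : ((-1 : R) ^ μ) ^ 2 = 1 := by
    rw [← pow_mul, mul_comm, pow_mul, neg_one_sq, one_pow]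
  have hω2 : ω ^ (2 * μ) = 1 := by
    rw [mul_comm, pow_mul, hω, neg_sq, hsq]
  obtain ⟨c, hc⟩ := rot_half hX hζ hd hw
  have hinv : (ω ^ μ)⁻¹ = -(-1) ^ μ := by
    rw [hω]
    refine inv_eq_of_mul_eq_one_left ?_
    rw [neg_mul_neg, ← sq, hsq]
  have hs : eig ω w = ∑ a : ZMod (2 * μ), (ω ^ a.val)⁻¹ • ((ω ^ μ)⁻¹ • toR R (w (a + (μ : ℕ)))) := by
    unfold eig
    rw [← Equiv.sum_comp (Equiv.addRight ((μ : ℕ) : ZMod (2 * μ)))]
    refine Finset.sum_congr rfl fun a _ => ?_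
    rw [Equiv.coe_addRight, smul_smul]
    have e1 : ω ^ (a + ((μ : ℕ) : ZMod (2 * μ))).val = ω ^ a.val * ω ^ μ := by
      rw [ZMod.val_add, ← pow_eq_pow_mod _ hω2, pow_add, ZMod.val_natCast,
        ← pow_eq_pow_mod _ hω2]
    rw [e1, mul_inv]
  have h2 : ∀ a : ZMod (2 * μ), toR R (w (a + (μ : ℕ))) - ((-1 : R) ^ μ • toR R (w a) + toR R c) ∈
      RatR1 R X := by
    intro a
    have h3 := toR_rat1 (R := R) (hc a)
    rw [map_sub, map_add, map_smul] at h3
    have e1 : ((-1 : ℚ) ^ μ) • toR R (w a) = ((-1 : R) ^ μ) • toR R (w a) := by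
      rw [← algebraMap_smul R ((-1 : ℚ) ^ μ), map_pow, map_neg, map_one]
    rw [e1] at h3
    exact h3
  have h3 : eig ω w + eig ω w ∈ RatR1 R X := by
    have e1 : eig ω w + eig ω w = ∑ a : ZMod (2 * μ), (ω ^ a.val)⁻¹ • ((ω ^ μ)⁻¹ •
        (toR R (w (a + (μ : ℕ))) - ((-1 : R) ^ μ • toR R (w a) + toR R c))) := by
      have e2 : ∀ a : ZMod (2 * μ), (ω ^ a.val)⁻¹ • ((ω ^ μ)⁻¹ •
          (toR R (w (a + (μ : ℕ))) - ((-1 : R) ^ μ • toR R (w a) + toR R c))) =
          (ω ^ a.val)⁻¹ • ((ω ^ μ)⁻¹ • toR R (w (a + (μ : ℕ)))) + (ω ^ a.val)⁻¹ • toR R (w a) -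
            (ω ^ a.val)⁻¹ • ((ω ^ μ)⁻¹ • toR R c) := by
        intro a
        have e3 : (ω ^ μ)⁻¹ * (-1 : R) ^ μ = -1 := by
          rw [hinv, neg_mul, ← sq, hsq]
        have e4 : (ω ^ μ)⁻¹ • ((-1 : R) ^ μ • toR R (w a)) = -toR R (w a) := by
          rw [smul_smul, e3, neg_one_smul]
        rw [smul_sub, smul_add, e4, smul_sub, smul_add, smul_neg]
        abel
      simp only [e2, Finset.sum_sub_distrib, Finset.sum_add_distrib]
      rw [← Finset.sum_smul, sum_inv_pow hω2 h1, zero_smul, sub_zero, ← hs]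
      rfl
    rw [e1]
    exact Submodule.sum_mem _ fun a _ => Submodule.smul_mem _ _ (Submodule.smul_mem _ _ (h2 a))
  rw [← two_smul R] at h3
  exact (Submodule.smul_mem_iff _ two_ne_zero).1 h3

/-- The differences of two classes of points over the same point of the base. -/
def DiffD (hX : Hom X) {d : GD L m} (hd : OkD μ d X) : Set (CH X Unit) :=
  {w | ∃ (σ : L →ₐ[k] Om k) (v : Place k (Om k)) (x y x' y' : Om k), x ≠ 0 ∧ x' ≠ 0 ∧
    y ^ 2 = x ^ (2 * (2 * μ)) + σ (pullD μ d).B * x ^ (2 * μ) + σ (pullD μ d).α ∧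
    y' ^ 2 = x' ^ (2 * (2 * μ)) + σ (pullD μ d).B * x' ^ (2 * μ) + σ (pullD μ d).α ∧
    w = TV hX (hd.pull hX) σ v x y - TV hX (hd.pull hX) σ v x' y'}

/-- The differences are combinations of eigenvectors for `ω = - ξ ^ (2 (i + 1))`, `i < (μ - 1) / 2`, where
`ξ` is a primitive root of the order `2 μ`. -/
theorem diff_mem_D (hX : Hom X) [NeZero (2 * μ)] {ζ : k} (hζ : IsPrimitiveRoot ζ (2 * μ))
    {d : GD L m} (hd : OkD μ d X) (hμ3 : 3 ≤ μ) {ξ : R} (hξ : IsPrimitiveRoot ξ (2 * μ))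
    {z : Pt X k →₀ ℚ} (hz : cl1 X z ∈ DiffD hX hd) :
    toR R z ∈ ⨆ i : Fin ((μ - 1) / 2), WR R (RotD hX ζ hd) (-ξ ^ (2 * (i.val + 1))) := by
  obtain ⟨σ, v, x, y, x', y', hx, hx', hxy, hxy', hcl⟩ := hz
  choose w hw using fun a : ZMod (2 * μ) => dke_surj (rotL hX (hd.pull hX) ζ σ v x y a)
  choose w' hw' using fun a : ZMod (2 * μ) => dke_surj (rotL hX (hd.pull hX) ζ σ v x' y' a)
  have hwS : w ∈ RotD hX ζ hd := ⟨σ, v, x, y, hx, hxy, hw⟩
  have hwS' : w' ∈ RotD hX ζ hd := ⟨σ, v, x', y', hx', hxy', hw'⟩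
  let T := ⨆ i : Fin ((μ - 1) / 2), WR R (RotD hX ζ hd) (-ξ ^ (2 * (i.val + 1)))
  have hle : ∀ i : Fin ((μ - 1) / 2), WR R (RotD hX ζ hd) (-ξ ^ (2 * (i.val + 1))) ≤ T :=
    fun i => le_iSup (fun i : Fin ((μ - 1) / 2) =>
      WR R (RotD hX ζ hd) (-ξ ^ (2 * (i.val + 1)))) i
  have hR : RatR1 R X ≤ T :=
    le_trans (le_sup_right (a := Submodule.span R (eig _ '' RotD hX ζ hd)))
      (hle ⟨0, by omega⟩)
  have hrat : ∀ u : Pt X k →₀ ℚ, u ∈ Rat1 X → toR R u ∈ T := fun u hu => hR (toR_rat1 hu)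
  have hsq : ((-1 : R) ^ μ) ^ 2 = 1 := by
    rw [← pow_mul, mul_comm, pow_mul, neg_one_sq, one_pow]
  have hξμ : ξ ^ μ = -1 := by
    have h2 : (ξ ^ μ) ^ 2 = 1 := by rw [← pow_mul, mul_comm, hξ.pow_eq_one]
    have h5 : (ξ ^ μ - 1) * (ξ ^ μ + 1) = 0 := by linear_combination h2
    rcases mul_eq_zero.1 h5 with h3 | h3
    · exfalso
      have h4 := Nat.le_of_dvd (by omega) ((hξ.pow_eq_one_iff_dvd μ).1 (sub_eq_zero.1 h3))
      omega
    · exact eq_neg_of_add_eq_zero_left h3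
  -- the eigenvectors for `- ξ ^ (2 j)`
  have hgood : ∀ j : ℕ, 0 < j → j < μ → 2 * j ≠ μ → ∀ u ∈ RotD hX ζ hd,
      eig (-ξ ^ (2 * j)) u ∈ T := by
    intro j hj1 hj2 hj3 u hu
    by_cases hj : j ≤ (μ - 1) / 2
    · have h1 := hle ⟨j - 1, by omega⟩ (Submodule.mem_sup_left
        (Submodule.subset_span ⟨u, hu, rfl⟩))
      simp only at h1
      rwa [Nat.sub_add_cancel hj1] at h1
    · have h1 : (-ξ ^ (2 * j)) = (-ξ ^ (2 * (μ - j)))⁻¹ := by
        refine eq_inv_of_mul_eq_one_right ?_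
        rw [neg_mul_neg, ← pow_add]
        have e1 : 2 * (μ - j) + 2 * j = 2 * μ := by omega
        rw [e1, hξ.pow_eq_one]
      have h2 : (-ξ ^ (2 * (μ - j))) ^ (2 * μ) = 1 := by
        rw [pow_mul, neg_sq, ← pow_mul, ← pow_mul, mul_assoc, mul_comm, mul_comm (μ - j) (2 * μ),
          mul_assoc, pow_mul, hξ.pow_eq_one, one_pow]
      have h3 := hle ⟨μ - j - 1, by omega⟩
      simp only at h3
      rw [Nat.sub_add_cancel (by omega : 1 ≤ μ - j)] at h3
      refine (WR_inv hX hζ.pow_eq_one hd h2).trans h3 ?_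
      rw [h1]
      exact Submodule.mem_sup_left (Submodule.subset_span ⟨u, hu, rfl⟩)
  -- all eigenvectors
  have heig : ∀ i : ZMod (2 * μ), eig (ξ ^ i.val) w - eig (ξ ^ i.val) w' ∈ T := by
    intro i
    by_cases hi0 : i.val = 0
    · -- the sum over the rotations
      have h5 : ∀ u : ZMod (2 * μ) → (Pt X k →₀ ℚ), eig (ξ ^ i.val) u = toR R (∑ a, u a) := by
        intro u
        unfold eig
        rw [map_sum]
        refine Finset.sum_congr rfl fun a _ => ?_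
        rw [hi0, pow_zero, one_pow, inv_one, one_smul]
      rw [h5, h5, ← map_sub]
      refine hrat _ ?_
      rw [mem_rat1, map_sub, map_sum, map_sum, sub_eq_zero]
      simp only [hw, hw']
      exact sum_rot_TV hX (hd.pull hX) σ v hζ hxy hxy'
    by_cases hiμ : i.val = μ
    · -- the alternating sum
      have h5 : ∀ u : ZMod (2 * μ) → (Pt X k →₀ ℚ), eig (ξ ^ i.val) u =
          toR R (∑ a, ((-1 : ℚ) ^ a.val) • u a) := by
        intro u
        unfold eig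
        rw [map_sum]
        refine Finset.sum_congr rfl fun a _ => ?_
        rw [hiμ, hξμ, map_smul]
        have e1 : (((-1 : R) ^ a.val)⁻¹) = algebraMap ℚ R ((-1 : ℚ) ^ a.val) := by
          rw [map_pow, map_neg, map_one]
          refine inv_eq_of_mul_eq_one_left ?_
          rw [← mul_pow, neg_mul_neg, one_mul, one_pow]
        rw [e1, algebraMap_smul]
      rw [h5, h5, ← map_sub]
      refine hrat _ ?_
      rw [mem_rat1, map_sub, map_sum, map_sum, sub_eq_zero]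
      simp only [map_smul, hw, hw']
      exact TV_alt hX hd σ v hζ hx hx' hxy hxy'
    have hlt := i.val_lt
    by_cases hpar : (i.val + μ) % 2 = 0
    · -- `ξ ^ i = - ξ ^ (2 j)`
      obtain ⟨j, hj0, hjμ, hj2, hj⟩ : ∃ j : ℕ, 0 < j ∧ j < μ ∧ 2 * j ≠ μ ∧
          ξ ^ i.val = -ξ ^ (2 * j) := by
        rcases Nat.lt_or_ge i.val μ with h | h
        · refine ⟨(i.val + μ) / 2, by omega, by omega, by omega, ?_⟩
          have e1 : 2 * ((i.val + μ) / 2) = i.val + μ := by omega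
          rw [e1, pow_add, hξμ, mul_neg_one, neg_neg]
        · refine ⟨(i.val - μ) / 2, by omega, by omega, by omega, ?_⟩
          have e1 : 2 * ((i.val - μ) / 2) = i.val - μ := by omega
          have e2 : ξ ^ i.val = ξ ^ (i.val - μ) * ξ ^ μ := by
            rw [← pow_add, Nat.sub_add_cancel h]
          rw [e1, e2, hξμ, mul_neg_one]
      rw [hj]
      exact T.sub_mem (hgood j hj0 hjμ hj2 w hwS) (hgood j hj0 hjμ hj2 w' hwS')
    · -- the eigenvectors are rationally equivalent to zero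
      have h1 : (ξ ^ i.val) ^ μ = -(-1) ^ μ := by
        rw [← pow_mul, mul_comm, pow_mul, hξμ]
        have h2 : (-1 : R) ^ (i.val + μ) = -1 := Odd.neg_one_pow (Nat.odd_iff.2 (by omega))
        rw [pow_add] at h2
        calc (-1 : R) ^ i.val = ((-1) ^ i.val * (-1) ^ μ) * (-1) ^ μ := by
              rw [mul_assoc, ← sq, hsq, mul_one]
          _ = _ := by rw [h2, neg_one_mul]
      have h2 : ξ ^ i.val ≠ 1 := by
        intro h
        have h3 := Nat.le_of_dvd (by omega) ((hξ.pow_eq_one_iff_dvd _).1 h)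
        omega
      exact T.sub_mem (hR (eig_bad hX hζ hd hwS h1 h2)) (hR (eig_bad hX hζ hd hwS' h1 h2))
  -- the class of `w 0 - w' 0`
  have h0 : ∀ σ v x y, rotL hX (hd.pull hX) ζ σ v x y 0 = TV hX (hd.pull hX) σ v x y := by
    intro σ v x y
    unfold rotL
    rw [ZMod.val_zero, pow_zero, one_mul]
  have hz0 : z - (w 0 - w' 0) ∈ Rat1 X := by
    rw [mem_rat1, map_sub, map_sub, hcl, hw, hw', h0, h0, sub_self]
  have hν0 : ((2 * μ : ℕ) : R) ≠ 0 := Nat.cast_ne_zero.2 (NeZero.ne (2 * μ))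
  have key : ((2 * μ : ℕ) : R) • toR R (w 0 - w' 0) ∈ T := by
    rw [map_sub, smul_sub, toR_zero hξ, toR_zero hξ, ← Finset.sum_sub_distrib]
    exact T.sum_mem fun i _ => heig i
  have h6 : toR R z = toR R (z - (w 0 - w' 0)) +
      ((2 * μ : ℕ) : R)⁻¹ • (((2 * μ : ℕ) : R) • toR R (w 0 - w' 0)) := by
    rw [smul_smul, inv_mul_cancel₀ hν0, one_smul, ← map_add, sub_add_cancel]
  rw [h6]
  exact T.add_mem (hrat _ hz0) (T.smul_mem _ key)

end Pool.Agent.GTM
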