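import Pool.Agent.GTM.DkE

/-!
# Values at places for the family of Dickson curves
-/

set_option autoImplicit false

noncomputable section

namespace Pool.Agent.GTM

open Pool.Agent.ZCyc Pool.Agent.Dess Pool.Agent.GT Polynomial Pool.Agent.ZIso
open Pool.Agent.VFP (Om tt)
open scoped Classical LinearAlgebra.Projectivization

open Pool.Agent.TInc

variable {k L : Type} [Field k] [Field L] [Algebra k L] {m μ : ℕ}
  {X : Set (MvPolynomial (Fin (m + 1)) k)} {R : Type} [Field R] [CharZero R]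

/-- The points `P b` are the values at the place `v` of the images `φ_θ(x, y)` of a point `(x, y)` of the
curve `y ² = D_μ(x, f) + B` (`f = d.α`, `D_μ` is the Dickson polynomial with
`D_μ(u + f / u, f) = u ^ μ + (f / u) ^ μ`), for all the roots `θ b` of `h`. -/
structure IsValsD (μ : ℕ) (d : GD L m) (X : Set (MvPolynomial (Fin (m + 1)) k)) {K : Type}
    [Field K] [Algebra k K] (σ : L →ₐ[k] K) (v : Place k K) {e : ℕ} (θ : Fin e → K) (x y : K)
    (P : Fin e → Pt X k) : Prop where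
  roots : d.h.map (σ : L →+* K) = ∏ b, (Polynomial.X - Polynomial.C (θ b))
  on : y ^ 2 = (Polynomial.dickson 1 (σ d.α) μ).eval x + σ d.B
  val : ∀ b, ∃ l : K, ∀ i, v.At (l * (d.mp (σ : L →+* K) (θ b)).co x y i) ((P b).1.rep i)

/-- the coordinates under an extension of fields -/
private theorem dkf_co {K K' : Type} [Field K] [Field K'] {A : Type} [CommRing A] (d : GD A m)
    (S : A →+* K) (ι : K →+* K') (θ x y : K) (i : Fin (m + 1)) :
    (d.mp (ι.comp S) (ι θ)).co (ι x) (ι y) i = ι ((d.mp S θ).co x y i) := by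
  have h : Polynomial.eval₂RingHom (ι.comp S) (ι θ) = ι.comp (Polynomial.eval₂RingHom S θ) := by
    refine Polynomial.ringHom_ext (fun a => ?_) ?_
    · simp
    · simp
  unfold Mp.co GD.mp
  simp only [h]
  rw [map_add, map_mul, ← Polynomial.map_map, ← Polynomial.map_map, Polynomial.eval_map_apply,
    Polynomial.eval_map_apply]

/-- values under an extension of fields -/
private theorem dkf_at {K K' : Type} [Field K] [Algebra k K] [Field K'] [Algebra k K']
    {φ : K →ₐ[k] K'} {V : Place k K'} {v : Place k K}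
    (hV : V.ring.comap (φ : K →+* K') = v.ring) (f : K) (c : k) :
    V.At (φ f) c ↔ v.At f c := by
  have hmem : ∀ f : K, φ f ∈ V.ring ↔ f ∈ v.ring := by
    intro f
    rw [← hV, ValuationSubring.mem_comap]
    rfl
  unfold Place.At
  rw [Place.vanishes_iff_or, Place.vanishes_iff_or, ← φ.commutes c, ← map_sub, ← map_inv₀,
    hmem, map_eq_zero]

theorem IsValsD.map {d : GD L m} {K K' : Type} [Field K] [Algebra k K] [Field K'] [Algebra k K']
    {σ : L →ₐ[k] K} {v : Place k K} {e : ℕ} {θ : Fin e → K} {x y : K} {P : Fin e → Pt X k}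
    (h : IsValsD μ d X σ v θ x y P) {φ : K →ₐ[k] K'} {V : Place k K'}
    (hV : V.ring.comap (φ : K →+* K') = v.ring) :
    IsValsD μ d X (φ.comp σ) V (fun b => φ (θ b)) (φ x) (φ y) P := by
  refine ⟨?_, ?_, fun a => ?_⟩
  · have h1 : (d.h.map (σ : L →+* K)).map (φ : K →+* K') =
        d.h.map ((φ.comp σ : L →ₐ[k] K') : L →+* K') := by
      rw [Polynomial.map_map]
      rfl
    rw [← h1, h.roots, Polynomial.map_prod]
    refine Finset.prod_congr rfl fun a _ => ?_
    rw [Polynomial.map_sub, Polynomial.map_X, Polynomial.map_C]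
    rfl
  · have h1 := congrArg φ h.on
    rw [map_pow, map_add] at h1
    rw [h1]
    have h2 : φ ((Polynomial.dickson 1 (σ d.α) μ).eval x) =
        (Polynomial.dickson 1 ((φ.comp σ) d.α) μ).eval (φ x) := by
      have h3 := Polynomial.eval_map_apply (φ : K →+* K') x (p := Polynomial.dickson 1 (σ d.α) μ)
      rw [dickson_map] at h3
      exact h3.symm
    rw [h2]
    rfl
  · obtain ⟨l, hl⟩ := h.val a
    refine ⟨φ l, fun i => ?_⟩
    have h1 := (dkf_at hV _ _).2 (hl i)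
    rw [map_mul] at h1
    have h2 := dkf_co d (σ : L →+* K) (φ : K →+* K') (θ a) x y i
    have h3 : ((φ : K →+* K').comp (σ : L →+* K)) = ((φ.comp σ : L →ₐ[k] K') : L →+* K') := rfl
    rw [h3] at h2
    have h4 : (φ : K →+* K') ((d.mp (σ : L →+* K) (θ a)).co x y i) =
      φ ((d.mp (σ : L →+* K) (θ a)).co x y i) := rfl
    rw [h4] at h2
    rw [← h2] at h1
    exact h1

/-- The values as values of the map from the covering curve. -/
theorem IsValsD.lift {d : GD L m} {K : Type} [Field K] [Algebra k K] {σ : L →ₐ[k] K}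
    {v : Place k K} {e : ℕ} {θ : Fin e → K} {x y : K} {P : Fin e → Pt X k}
    (h : IsValsD μ d X σ v θ x y P) {w s : K} (hw : w ≠ 0)
    (hws : s ^ 2 = w ^ (2 * (2 * μ)) + σ (pullD μ d).B * w ^ (2 * μ) + σ (pullD μ d).α)
    (hx : w ^ 2 + σ d.α / w ^ 2 = x) (hy : s / w ^ μ = y) :
    IsValsW (2 * μ) (pullD μ d) X σ v θ w s P := by
  refine ⟨h.roots, hws, fun b => ?_⟩
  obtain ⟨l, hl⟩ := h.val b
  have hwn : w ^ (2 * topD d + μ) ≠ 0 := pow_ne_zero _ hw
  refine ⟨l / w ^ (2 * topD d + μ), fun i => ?_⟩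
  have h1 := hl i
  rw [pullD_mp, pullN_co (mp_degree d _ _) hw s i]
  have h2 : (σ : L →+* K) d.α = σ d.α := rfl
  rw [h2, hx, hy, ← mul_assoc, div_mul_cancel₀ _ hwn]
  exact h1

variable [IsAlgClosed k] [CharZero k]

/-- The class of the values. -/
theorem IsValsD.cls (hX : Hom X) {d : GD L m} (hd : OkD μ d X) {σ : L →ₐ[k] Om k}
    {v : Place k (Om k)} {e : ℕ} {θ : Fin e → Om k} {x y : Om k} {P : Fin e → Pt X k}
    (h : IsValsD μ d X σ v θ x y P) {w s : Om k} (hw : w ≠ 0)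
    (hws : s ^ 2 = w ^ (2 * (2 * μ)) + σ (pullD μ d).B * w ^ (2 * μ) + σ (pullD μ d).α)
    (hx : w ^ 2 + σ d.α / w ^ 2 = x) (hy : s / w ^ μ = y) :
    cl1 X (∑ b, Finsupp.single (P b) 1) = TV hX (hd.pull hX) σ v w s := by
  obtain ⟨F, -, d', hd', hmap⟩ := spreadW (hd.pull hX) ∅
  rw [(h.lift hw hws hx hy).cls hX hd' hmap]
  exact TV_map hX (hd.pull hX) hd' hmap σ v w s

/-- the points of the covering curve over a point -/
theorem dk_lift' {d : GD L m} (hd : OkD μ d X) {σ : L →ₐ[k] Om k} {x y : Om k}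
    (h : y ^ 2 = (Polynomial.dickson 1 (σ d.α) μ).eval x + σ d.B) :
    ∃ w s : Om k, w ≠ 0 ∧
      s ^ 2 = w ^ (2 * (2 * μ)) + σ (pullD μ d).B * w ^ (2 * μ) + σ (pullD μ d).α ∧
      w ^ 2 + σ d.α / w ^ 2 = x ∧ s / w ^ μ = y := by
  have h0 : σ d.α ≠ 0 := (hd.unit.map σ).ne_zero
  obtain ⟨w, s, hw, hs, hx, hy⟩ := dk_lift h0 h
  refine ⟨w, s, hw, ?_, hx, hy⟩
  rw [hs]
  have h1 : σ (pullD μ d).α = (σ d.α) ^ μ := map_pow σ _ _
  rw [h1]
  rfl

/-- The differences of two cycles of values over the same point of the base. -/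
def DiffCycD (μ : ℕ) (d : GD L m) (X : Set (MvPolynomial (Fin (m + 1)) k)) :
    Set (Pt X k →₀ ℚ) :=
  {w | ∃ (K : Type) (_ : Field K) (_ : Algebra k K) (_ : IsCurve k K) (σ : L →ₐ[k] K)
    (v : Place k K) (e e' : ℕ) (θ : Fin e → K) (θ' : Fin e' → K) (x y x' y' : K)
    (P : Fin e → Pt X k) (P' : Fin e' → Pt X k), IsValsD μ d X σ v θ x y P ∧
      IsValsD μ d X σ v θ' x' y' P' ∧
      w = ∑ a, Finsupp.single (P a) 1 - ∑ a, Finsupp.single (P' a) 1}

theorem diffCycD_cls (hX : Hom X) {d : GD L m} (hd : OkD μ d X) {z : Pt X k →₀ ℚ}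
    (hz : z ∈ DiffCycD μ d X) : cl1 X z ∈ DiffD hX hd := by
  obtain ⟨K, i1, i2, hK, σ, w, e, e', θ, θ', x, y, x', y', P, P', h, h', rfl⟩ := hz
  obtain ⟨ι, v, hv⟩ := exists_embed hK w
  have g := h.map hv
  have g' := h'.map hv
  obtain ⟨a, s, ha, has, hax, hay⟩ := dk_lift' hd g.on
  obtain ⟨a', s', ha', has', hax', hay'⟩ := dk_lift' hd g'.on
  refine ⟨_, v, a, s, a', s', ha, ha', has, has', ?_⟩
  rw [map_sub, g.cls hX hd ha has hax hay, g'.cls hX hd ha' has' hax' hay']

end Pool.Agent.GTM
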