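import Pool.Agent.GTM.DkF

/-!
# The eigenspaces of the real multiplication
-/

set_option autoImplicit false

noncomputable section

namespace Pool.Agent.GTM

open Pool.Agent.ZCyc Pool.Agent.Dess Pool.Agent.GT Polynomial Pool.Agent.ZIso
open Pool.Agent.VFP (Om tt)
open scoped Classical LinearAlgebra.Projectivization

open Pool.Agent.TInc

variable {k L : Type} [Field k] [Field L] [Algebra k L] {m μ : ℕ}
  {X : Set (MvPolynomial (Fin (m + 1)) k)} {R : Type} [Field R] [CharZero R]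

/-- Let `W + f / W` be the first coordinate of a point of the curve `y ² = D_μ(x, f) + B`. The other points
with the same coordinate `y` are the points with the first coordinates
`x_b = ξ ^ b W + f / (ξ ^ b W)`, where `ξ` is a primitive root of unity of the order `μ`. The elements of
this set are the cycles `∑ b, ω ^ (- b) ∑ θ, [φ_θ(x_b, y)]`, with `ω ^ μ = 1`. -/
def EigCycD (R : Type) [Field R] (μ : ℕ) (d : GD L m) (X : Set (MvPolynomial (Fin (m + 1)) k))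
    (ξ : k) (ω : R) : Set (Pt X k →₀ R) :=
  {z | ∃ (K : Type) (_ : Field K) (_ : Algebra k K) (_ : IsCurve k K) (σ : L →ₐ[k] K)
    (v : Place k K) (e : ℕ) (θ : Fin e → K) (W y : K) (P : Fin μ → Fin e → Pt X k), W ≠ 0 ∧
    (∀ b : Fin μ, IsValsD μ d X σ v θ (algebraMap k K ξ ^ b.val * W +
      σ d.α / (algebraMap k K ξ ^ b.val * W)) y (P b)) ∧
    z = ∑ b, ∑ a, Finsupp.single (P b a) (ω ^ b.val)⁻¹}

variable [IsAlgClosed k] [CharZero k]

/-- A root of unity of the order `2 μ` whose square is `ξ`. -/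
theorem exists_zeta {ξ : k} (hμ : 0 < μ) (hξ : IsPrimitiveRoot ξ μ) :
    ∃ ζ : k, IsPrimitiveRoot ζ (2 * μ) ∧ ζ ^ 2 = ξ := by
  have key : ∀ ζ : k, ζ ^ 2 = ξ → ζ ^ μ = -1 → IsPrimitiveRoot ζ (2 * μ) := by
    intro ζ h2 h1
    refine ⟨by rw [pow_mul, h2, hξ.pow_eq_one], fun l hl => ?_⟩
    have h3 : ξ ^ l = 1 := by rw [← h2, ← pow_mul, mul_comm, pow_mul, hl, one_pow]
    obtain ⟨t, rfl⟩ := hξ.dvd_of_pow_eq_one l h3
    rw [pow_mul, h1] at hl
    rcases Nat.even_or_odd t with ht | ht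
    · obtain ⟨j, rfl⟩ := ht
      exact ⟨j, by ring⟩
    · rw [ht.neg_one_pow] at hl
      exfalso
      have h4 : (2 : k) = 0 := by linear_combination -hl
      exact two_ne_zero h4
  obtain ⟨ζ, h2⟩ := IsAlgClosed.exists_pow_nat_eq ξ (n := 2) (by norm_num)
  have h1 : (ζ ^ μ - 1) * (ζ ^ μ + 1) = 0 := by
    have h3 : (ζ ^ μ) ^ 2 = 1 := by rw [← pow_mul, mul_comm, pow_mul, h2, hξ.pow_eq_one]
    linear_combination h3
  rcases mul_eq_zero.1 h1 with h3 | h3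
  · have h4 : ζ ^ μ = 1 := sub_eq_zero.1 h3
    have hodd : Odd μ := by
      by_contra hne
      rw [Nat.not_odd_iff_even] at hne
      obtain ⟨j, hj⟩ := hne
      have h5 : ξ ^ j = 1 := by
        rw [← h2, ← pow_mul, two_mul, ← hj, h4]
      have h6 := Nat.le_of_dvd (by omega) (hξ.dvd_of_pow_eq_one j h5)
      omega
    refine ⟨-ζ, key _ (by rw [neg_sq, h2]) ?_, by rw [neg_sq, h2]⟩
    rw [hodd.neg_pow, h4]
  · exact ⟨ζ, key ζ h2 (eq_neg_of_add_eq_zero_left h3), h2⟩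

private theorem zmod_sum {W : Type} [AddCommMonoid W] {ν : ℕ} [NeZero ν] (f : ℕ → W) :
    ∑ a : ZMod ν, f a.val = ∑ i ∈ Finset.range ν, f i := by
  obtain ⟨n, rfl⟩ : ∃ n, ν = n + 1 := ⟨ν - 1, by have := NeZero.pos ν; omega⟩
  change ∑ a : Fin (n + 1), f a = _
  rw [Fin.sum_univ_eq_sum_range]

/-- The cycles are eigenvectors for the covering curve. -/
theorem eigCycD_mem (hX : Hom X) [NeZero (2 * μ)] {ξ : k} {ζ : k}
    (hζ : IsPrimitiveRoot ζ (2 * μ)) (hζξ : ζ ^ 2 = ξ) {d : GD L m} (hd : OkD μ d X) {ω : R}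
    (hω : ω ^ μ = 1) (hω2 : ω ^ 2 ≠ 1) {z : Pt X k →₀ R} (hz : z ∈ EigCycD R μ d X ξ ω) :
    z ∈ WR R (RotD hX ζ hd) (-ω) := by
  obtain ⟨K, i1, i2, hK, σ₀, v₀, e, θ₀, W₀, y₀, P, hW₀, hP, rfl⟩ := hz
  obtain ⟨ι, v, hv⟩ := exists_embed hK v₀
  have hμ : 0 < μ := hd.pos
  -- over `Om k`
  set σ : L →ₐ[k] Om k := ι.comp σ₀ with hσ
  set θ : Fin e → Om k := fun b => ι (θ₀ b) with hθ
  set W := ι W₀ with hW
  set y := ι y₀ with hy
  have hW0 : W ≠ 0 := by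
    rw [hW, Ne, map_eq_zero]
    exact hW₀
  have hV : ∀ b : Fin μ, IsValsD μ d X σ v θ (algebraMap k (Om k) ξ ^ b.val * W +
      σ d.α / (algebraMap k (Om k) ξ ^ b.val * W)) y (P b) := by
    intro b
    have h1 := (hP b).map hv
    have h2 : ι (algebraMap k K ξ ^ b.val * W₀ + σ₀ d.α / (algebraMap k K ξ ^ b.val * W₀)) =
        algebraMap k (Om k) ξ ^ b.val * W + σ d.α / (algebraMap k (Om k) ξ ^ b.val * W) := by
      rw [map_add, map_div₀, map_mul, map_pow, ι.commutes]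
      rfl
    rw [h2] at h1
    exact h1
  obtain ⟨w, hw⟩ := IsAlgClosed.exists_pow_nat_eq W (n := 2) (by norm_num)
  have hw0 : w ≠ 0 := by
    rintro rfl
    apply hW0
    rw [← hw, zero_pow two_ne_zero]
  have hf0 : σ d.α ≠ 0 := (hd.unit.map σ).ne_zero
  have hζ' : algebraMap k (Om k) ζ ^ (2 * μ) = 1 := by
    rw [← map_pow, hζ.pow_eq_one, map_one]
  have hζ0 : algebraMap k (Om k) ζ ≠ 0 := by
    intro h0
    rw [h0, zero_pow (by omega)] at hζ'
    exact zero_ne_one hζ'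
  have hζμ : algebraMap k (Om k) ζ ^ μ = -1 := by
    have h1 : ζ ^ μ = -1 := by
      have h2 : (ζ ^ μ) ^ 2 = 1 := by rw [← pow_mul, mul_comm, hζ.pow_eq_one]
      have h5 : (ζ ^ μ - 1) * (ζ ^ μ + 1) = 0 := by linear_combination h2
      rcases mul_eq_zero.1 h5 with h3 | h3
      · exfalso
        have h4 := Nat.le_of_dvd hμ ((hζ.pow_eq_one_iff_dvd μ).1 (sub_eq_zero.1 h3))
        omega
      · exact eq_neg_of_add_eq_zero_left h3
    rw [← map_pow, h1, map_neg, map_one]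
  have hξζ : algebraMap k (Om k) ξ = algebraMap k (Om k) ζ ^ 2 := by
    rw [← map_pow, hζξ]
  have hξμ : algebraMap k (Om k) ξ ^ μ = 1 := by
    rw [hξζ, ← pow_mul, hζ']
  -- the point of the covering curve
  set s := y * w ^ μ with hs
  have hwμ : w ^ μ ≠ 0 := pow_ne_zero _ hw0
  have hon0 : s ^ 2 = w ^ (2 * (2 * μ)) + σ (pullD μ d).B * w ^ (2 * μ) + σ (pullD μ d).α := by
    have h1 := (hV ⟨0, hμ⟩).on
    rw [pow_zero, one_mul, ← hw, dickson_eval (mul_div_cancel₀ _ (pow_ne_zero 2 hw0))] at h1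
    have h2 : σ (pullD μ d).α = (σ d.α) ^ μ := map_pow σ _ _
    have h3 : σ (pullD μ d).B = σ d.B := rfl
    rw [hs, mul_pow, h1, h2, h3, div_pow, ← pow_mul, ← pow_mul w μ 2, mul_comm μ 2]
    have h4 : w ^ (2 * μ) ≠ 0 := pow_ne_zero _ hw0
    have e2 : w ^ (2 * (2 * μ)) = w ^ (2 * μ) * w ^ (2 * μ) := by
      rw [← pow_add]
      congr 1
      ring
    rw [e2]
    field_simp
    ring
  have hon : ∀ n : ℕ, s ^ 2 = (algebraMap k (Om k) ζ ^ n * w) ^ (2 * (2 * μ)) +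
      σ (pullD μ d).B * (algebraMap k (Om k) ζ ^ n * w) ^ (2 * μ) + σ (pullD μ d).α := by
    intro n
    have e1 : (algebraMap k (Om k) ζ ^ n) ^ (2 * μ) = 1 := by
      rw [← pow_mul, mul_comm, pow_mul, hζ', one_pow]
    rw [hon0, mul_pow, mul_pow, mul_comm 2 (2 * μ), pow_mul (algebraMap k (Om k) ζ ^ n), e1,
      one_pow, one_mul, one_mul]
  -- the classes
  let Z : ℕ → (Pt X k →₀ ℚ) := fun n =>
    ∑ a, Finsupp.single (P ⟨n % μ, Nat.mod_lt _ hμ⟩ a) 1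
  have hZ : ∀ n : ℕ, cl1 X (Z n) = TV hX (hd.pull hX) σ v (algebraMap k (Om k) ζ ^ n * w)
      ((-1) ^ n * s) := by
    intro n
    have h1 := hV ⟨n % μ, Nat.mod_lt _ hμ⟩
    have h2 : ((-1 : Om k) ^ n) ^ 2 = 1 := by
      rw [← pow_mul, mul_comm, pow_mul, neg_one_sq, one_pow]
    refine h1.cls hX hd (mul_ne_zero (pow_ne_zero _ hζ0) hw0) ?_ ?_ ?_
    · rw [mul_pow, h2, one_mul]
      exact hon n
    · have e1 : (algebraMap k (Om k) ζ ^ n * w) ^ 2 = algebraMap k (Om k) ξ ^ (n % μ) * W := by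
        rw [mul_pow, hw, ← pow_mul, mul_comm n 2, pow_mul, ← hξζ, pow_eq_pow_mod n hξμ]
      rw [e1]
    · rw [mul_pow, ← pow_mul, mul_comm n μ, pow_mul, hζμ, hs]
      have h3 : ((-1 : Om k) ^ n) ≠ 0 := pow_ne_zero _ (neg_ne_zero.2 one_ne_zero)
      field_simp
  obtain ⟨c, hc⟩ := dke_surj (X := X) (TV hX (hd.pull hX) σ v w s +
    TV hX (hd.pull hX) σ v w (-s))
  let u : ZMod (2 * μ) → (Pt X k →₀ ℚ) := fun a =>
    ((-1 : ℚ) ^ a.val) • Z a.val + ((1 - (-1 : ℚ) ^ a.val) / 2) • c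
  have hu : u ∈ RotD hX ζ hd := by
    refine ⟨σ, v, w, s, hw0, hon0, fun a => ?_⟩
    change cl1 X (((-1 : ℚ) ^ a.val) • Z a.val + ((1 - (-1 : ℚ) ^ a.val) / 2) • c) =
      TV hX (hd.pull hX) σ v (algebraMap k (Om k) ζ ^ a.val * w) s
    rw [map_add, map_smul, map_smul, hZ, hc]
    rcases Nat.even_or_odd a.val with ha | ha
    · rw [ha.neg_one_pow, ha.neg_one_pow, one_smul, one_mul, sub_self, zero_div, zero_smul,
        add_zero]
    · have h1 := TV_iota hX (hd.pull hX) σ v (hon a.val) hon0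
      rw [ha.neg_one_pow, ha.neg_one_pow, neg_one_smul, neg_one_mul, sub_neg_eq_add, ← h1]
      have e1 : ((1 + 1 : ℚ) / 2) = 1 := by norm_num
      rw [e1, one_smul]
      abel
  -- the eigenvector
  have hω0 : ω ≠ 0 := by
    rintro rfl
    rw [zero_pow hμ.ne'] at hω
    exact zero_ne_one hω
  have hω1 : ω ≠ 1 := by
    rintro rfl
    exact hω2 (one_pow _)
  have hωn : -ω ≠ 1 := by
    intro h
    apply hω2
    have h1 : ω = -1 := by rw [← h, neg_neg]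
    rw [h1, neg_one_sq]
  have hω2μ : ω ^ (2 * μ) = 1 := by rw [mul_comm, pow_mul, hω, one_pow]
  have hωn2μ : (-ω) ^ (2 * μ) = 1 := by rw [pow_mul, neg_sq, ← pow_mul, hω2μ]
  have hterm : ∀ a : ZMod (2 * μ), ((-ω) ^ a.val)⁻¹ • toR R (u a) =
      (ω ^ a.val)⁻¹ • toR R (Z a.val) +
        ((((-ω) ^ a.val)⁻¹ - (ω ^ a.val)⁻¹) * (1 / 2)) • toR R c := by
    intro a
    change ((-ω) ^ a.val)⁻¹ • toR R (((-1 : ℚ) ^ a.val) • Z a.val +
      ((1 - (-1 : ℚ) ^ a.val) / 2) • c) = _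
    rw [map_add, map_smul, map_smul, ← algebraMap_smul R ((-1 : ℚ) ^ a.val),
      ← algebraMap_smul R ((1 - (-1 : ℚ) ^ a.val) / 2), smul_add, smul_smul, smul_smul]
    have h3 : ω ^ a.val ≠ 0 := pow_ne_zero _ hω0
    have h4 : (-1 : R) ^ a.val * (-1) ^ a.val = 1 := by
      rw [← mul_pow, neg_mul_neg, one_mul, one_pow]
    have h5 : ((-ω) ^ a.val)⁻¹ = (-1) ^ a.val * (ω ^ a.val)⁻¹ := by
      refine inv_eq_of_mul_eq_one_left ?_
      rw [neg_pow ω]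
      calc (-1) ^ a.val * (ω ^ a.val)⁻¹ * ((-1) ^ a.val * ω ^ a.val) =
          ((-1 : R) ^ a.val * (-1) ^ a.val) * ((ω ^ a.val)⁻¹ * ω ^ a.val) := by ring
        _ = 1 := by rw [h4, inv_mul_cancel₀ h3, one_mul]
    have e1 : algebraMap ℚ R ((-1 : ℚ) ^ a.val) = (-1) ^ a.val := by
      rw [map_pow, map_neg, map_one]
    have e2 : algebraMap ℚ R ((1 - (-1 : ℚ) ^ a.val) / 2) = (1 - (-1) ^ a.val) / 2 := by
      rw [map_div₀, map_sub, map_one, e1, map_ofNat]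
    rw [e1, e2, h5]
    congr 1
    · congr 1
      linear_combination (ω ^ a.val)⁻¹ * h4
    · congr 1
      linear_combination (-(1 : R) / 2) * (ω ^ a.val)⁻¹ * h4
  have hsum : eig (-ω) u = ∑ a : ZMod (2 * μ), (ω ^ a.val)⁻¹ • toR R (Z a.val) := by
    unfold eig
    simp only [hterm, Finset.sum_add_distrib]
    rw [← Finset.sum_smul, ← Finset.sum_mul, Finset.sum_sub_distrib, sum_inv_pow hω2μ hω1,
      sum_inv_pow hωn2μ hωn, sub_self, zero_mul, zero_smul, add_zero]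
  have hper : ∀ i : ℕ, (ω ^ (μ + i))⁻¹ • toR R (Z (μ + i)) = (ω ^ i)⁻¹ • toR R (Z i) := by
    intro i
    have e1 : Z (μ + i) = Z i := by
      change ∑ a, Finsupp.single (P ⟨(μ + i) % μ, Nat.mod_lt _ hμ⟩ a) (1 : ℚ) =
        ∑ a, Finsupp.single (P ⟨i % μ, Nat.mod_lt _ hμ⟩ a) 1
      have e2 : (⟨(μ + i) % μ, Nat.mod_lt _ hμ⟩ : Fin μ) = ⟨i % μ, Nat.mod_lt _ hμ⟩ :=
        Fin.ext (Nat.add_mod_left μ i)
      rw [e2]
    rw [e1, pow_add, hω, one_mul]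
  have htwo : eig (-ω) u = (2 : R) • ∑ b : Fin μ, ∑ a, Finsupp.single (P b a) (ω ^ b.val)⁻¹ := by
    rw [hsum, zmod_sum (ν := 2 * μ) fun i => (ω ^ i)⁻¹ • toR R (Z i), two_mul,
      Finset.sum_range_add, Finset.sum_congr rfl fun i _ => hper i, ← two_smul R]
    congr 1
    rw [← Fin.sum_univ_eq_sum_range (fun i => (ω ^ i)⁻¹ • toR R (Z i)) μ]
    refine Finset.sum_congr rfl fun b _ => ?_
    change (ω ^ b.val)⁻¹ • toR R (∑ a, Finsupp.single (P ⟨b.val % μ, Nat.mod_lt _ hμ⟩ a) 1) = _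
    have e2 : (⟨b.val % μ, Nat.mod_lt _ hμ⟩ : Fin μ) = b := Fin.ext (Nat.mod_eq_of_lt b.2)
    rw [e2, map_sum, Finset.smul_sum]
    refine Finset.sum_congr rfl fun a _ => ?_
    rw [toR_single, map_one, Finsupp.smul_single, smul_eq_mul, mul_one]
  have h2 : (2 : R) • ∑ b : Fin μ, ∑ a, Finsupp.single (P b a) (ω ^ b.val)⁻¹ ∈
      WR R (RotD hX ζ hd) (-ω) := by
    rw [← htwo]
    exact Submodule.mem_sup_left (Submodule.subset_span ⟨u, hu, rfl⟩)
  exact (Submodule.smul_mem_iff _ two_ne_zero).1 h2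

end Pool.Agent.GTM
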