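import Pool.Agent.GTM.Base
import Pool.Agent.TInc.Fam

/-!
# The family of deformations of a tuple of points of the curve
-/

set_option autoImplicit false

noncomputable section

namespace Pool.Agent.GTM

open Pool.Agent.ZCyc Pool.Agent.Dess Pool.Agent.TInc Pool.Agent.DK Polynomial
open Pool.Agent.VFP (Om tt)
open scoped Classical

variable {k L : Type} [Field k] [IsAlgClosed k] [CharZero k] [Field L] [Algebra k L] {n ν : ℕ}

omit [IsAlgClosed k] [CharZero k] in
private theorem fam_deg_add (A B : Place k L →₀ ℤ) : deg (A + B) = deg A + deg B := by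
  unfold deg
  exact Finsupp.sum_add_index' (fun _ => rfl) (fun _ _ _ => rfl)

omit [IsAlgClosed k] [CharZero k] in
private theorem fam_deg_smul (w : ℤ) (A : Place k L →₀ ℤ) : deg (w • A) = w * deg A := by
  unfold deg
  rw [Finsupp.sum_smul_index (fun _ => rfl)]
  simp only [Finsupp.sum, Finset.mul_sum]

/-- the divisor of `f` plus `w D` -/
private def famE (hL : IsCurve k L) (f : L) (w : ℕ) (D : Place k L →₀ ℤ) : Place k L →₀ ℤ :=
  dv hL f + (w : ℤ) • D

private theorem famE_apply (hL : IsCurve k L) (f : L) (w : ℕ) (D : Place k L →₀ ℤ)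
    (q : Place k L) : famE hL f w D q = ord q f + w * D q := by
  unfold famE
  rw [Finsupp.add_apply, dv_apply, Finsupp.smul_apply, smul_eq_mul]

/-- the support of the divisor, it is empty for `f = 0` -/
private def famT (hL : IsCurve k L) (f : L) (w : ℕ) (D : Place k L →₀ ℤ) : Finset (Place k L) :=
  if f = 0 then ∅ else (famE hL f w D).support

/-- the norm of `f` -/
private def famN (hL : IsCurve k L) {ρ : ℕ} (φ : Fin ρ → L) (c : Fin n → Place k L) (f : L)
    (w : ℕ) (D : Place k L →₀ ℤ) : MvPolynomial (Fin ρ) k[X] :=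
  nmP (famT hL f w D) (fun q m => val q (φ m)) (fun q => (ord q f + w * D q).toNat)
    (∏ j, val (c j) f)

private theorem famN_deg (hL : IsCurve k L) {ρ : ℕ} (φ : Fin ρ → L) (c : Fin n → Place k L)
    (f : L) (w : ℕ) (D : Place k L →₀ ℤ) {d : ℕ} (hd : deg D = d)
    (h : f ≠ 0 → ∀ q, 0 ≤ ord q f + w * D q) (z : Fin ρ →₀ ℕ) :
    ((famN hL φ c f w D).coeff z).natDegree ≤ w * d := by
  by_cases hf : f = 0
  · refine (nmP_natDegree _ _ _ _ z).trans ?_
    unfold famT
    rw [if_pos hf, Finset.sum_empty]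
    exact Nat.zero_le _
  refine (nmP_natDegree _ _ _ _ z).trans (le_of_eq ?_)
  unfold famT
  rw [if_neg hf]
  have h1 : ((∑ q ∈ (famE hL f w D).support, (ord q f + w * D q).toNat : ℕ) : ℤ) =
      deg (famE hL f w D) := by
    unfold deg Finsupp.sum
    rw [Nat.cast_sum]
    refine Finset.sum_congr rfl fun q _ => ?_
    rw [Int.toNat_of_nonneg (h hf q), famE_apply]
  have h2 : deg (famE hL f w D) = w * d := by
    unfold famE
    rw [fam_deg_add, deg_dv, fam_deg_smul, hd, zero_add]
  rw [h2] at h1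
  exact_mod_cast h1

/-- the value of `∑ z m * φ m` -/
private theorem fam_at_sum {ρ : ℕ} (hL : IsCurve k L) (φ : Fin ρ → L) (z : Fin ρ → k)
    {q : Place k L} (hq : ∀ m, φ m ∈ q.ring) :
    q.At (∑ m, algebraMap k L (z m) * φ m) (∑ m, z m * val q (φ m)) :=
  Place.At.sum fun m _ => (Place.at_const _).mul (at_val hL (hq m))

private theorem fam_ord_sum {ρ : ℕ} (hL : IsCurve k L) (φ : Fin ρ → L) (z : Fin ρ → k)
    {q : Place k L} (hq : ∀ m, φ m ≠ 0 → -1 ≤ ord q (φ m)) (t : Finset (Fin ρ)) :
    ∑ m ∈ t, algebraMap k L (z m) * φ m ≠ 0 →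
      -1 ≤ ord q (∑ m ∈ t, algebraMap k L (z m) * φ m) := by
  induction t using Finset.induction_on with
  | empty =>
    intro h
    exact absurd Finset.sum_empty h
  | insert a t ha ih =>
    rw [Finset.sum_insert ha]
    intro h
    refine le_ord_add hL h (fun h1 => ?_) ih
    have h2 := left_ne_zero_of_mul h1
    have h3 := right_ne_zero_of_mul h1
    rw [ord_mul hL q h2 h3, ord_const hL, zero_add]
    exact hq a h3

omit [IsAlgClosed k] [CharZero k] in
private theorem fam_ne {τ : Om k} (hτ : Transcendental k τ) (a : k) :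
    1 + τ * algebraMap k (Om k) a ≠ 0 := by
  intro h
  by_cases ha : a = 0
  · rw [ha, map_zero, mul_zero, add_zero] at h
    exact one_ne_zero h
  · apply hτ
    have ha' : algebraMap k (Om k) a ≠ 0 := (_root_.map_ne_zero _).2 ha
    have h1 : τ = algebraMap k (Om k) (-a⁻¹) := by
      rw [map_neg, map_inv₀]
      field_simp
      linear_combination h
    rw [h1]
    exact isAlgebraic_algebraMap _

omit [IsAlgClosed k] [CharZero k] in
private theorem fam_scl_one {K : Type} [Field K] (l : Place k L → Kˣ) (h : ∀ q, l q = 1)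
    (D : Place k L →₀ ℤ) : scl l D = 1 := by
  unfold scl Finsupp.prod
  refine Finset.prod_eq_one fun q _ => ?_
  show ((l q ^ D q : Kˣ) : K) = 1
  rw [h, one_zpow, Units.val_one]

/-- the conditions for a function `f` of weight `w` -/
private structure FamOk (c : Fin n → Place k L) (f : L) (w : ℕ) (D : Place k L →₀ ℤ) :
    Prop where
  unit : ∀ j, ord (c j) f = 0
  eff : f ≠ 0 → ∀ q, 0 ≤ ord q f + w * D q

private theorem famN_aeval (hL : IsCurve k L) {ρ : ℕ} (φ : Fin ρ → L) (z : Fin ρ → k)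
    {U : Set (Place k L)} (c : Fin n → U)
    (hreg : ∀ m v, (∀ j, (c j).1 ≠ v) → φ m ∈ v.ring) {f : L} {w : ℕ} {D : Place k L →₀ ℤ}
    (hf : FamOk (k := k) (fun j => (c j).1) f w D) (hD : ∀ j, D (c j).1 = 0) (T : Finset (Place k L))
    (hT : ∀ q, D q ≠ 0 → q ∈ T) {τ : Om k} (S : Fin n → (L →ₐ[k] Om k) ⊕ U) (j₀ : Fin n)
    (h1 : ∀ (w : ℕ) (D : Place k L →₀ ℤ) (f : L), f ≠ 0 → (∀ j, ord (c j).1 f = 0) →
        (∀ q, 0 ≤ ord q f + w * D q) → (∀ q, D q ≠ 0 → q ∈ T) → ∀ T' : Finset (Place k L),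
        (∀ q, ord q f + w * D q ≠ 0 → q ∈ T') → (∀ j, (c j).1 ∉ T') →
        (∏ q ∈ T, (1 + τ * algebraMap k (Om k)
          (val q (∑ m, algebraMap k L (z m) * φ m))) ^ (D q)) ^ w * ∏ j, evO (S j) f =
          algebraMap k (Om k) (∏ j, val (c j).1 f) *
            ∏ q ∈ T', (1 + τ * algebraMap k (Om k)
              (val q (∑ m, algebraMap k L (z m) * φ m))) ^ (ord q f + w * D q).toNat) :
    (∏ q ∈ T, (1 + τ * algebraMap k (Om k)
      (val q (∑ m, algebraMap k L (z m) * φ m))) ^ (D q)) ^ w * ∏ j, evO (S j) f =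
      aeval τ ((famN hL φ (fun j => (c j).1) f w D).eval fun m => C (z m)) := by
  by_cases hf0 : f = 0
  · have e1 : evO (S j₀) f = 0 := by
      rw [hf0]
      rcases S j₀ with σ | q
      · exact map_zero σ
      · show algebraMap k (Om k) (val q.1 (0 : L)) = 0
        have e2 : val q.1 (0 : L) = (0 : k) := val_eq (by
          have h := Place.at_const (v := q.1) (0 : k)
          rwa [map_zero] at h)
        rw [e2, map_zero]
    have e3 : val (c j₀).1 f = 0 := by
      rw [hf0]
      exact val_eq (by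
        have h := Place.at_const (v := (c j₀).1) (0 : k)
        rwa [map_zero] at h)
    unfold famN
    rw [nmP_aeval, Finset.prod_eq_zero (Finset.mem_univ j₀) e1,
      Finset.prod_eq_zero (Finset.mem_univ j₀) e3, map_zero, zero_mul, mul_zero]
  have hc : ∀ j, (c j).1 ∉ (famE hL f w D).support := by
    intro j
    rw [Finsupp.notMem_support_iff, famE_apply, hD, mul_zero, add_zero]
    exact hf.unit j
  rw [h1 w D f hf0 hf.unit (hf.eff hf0) hT (famE hL f w D).support (fun q hq => by
    rw [Finsupp.mem_support_iff, famE_apply]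
    exact hq) hc]
  unfold famN famT
  rw [if_neg hf0, nmP_aeval]
  congr 1
  refine Finset.prod_congr rfl fun q hq => ?_
  rw [val_eq (fam_at_sum hL φ z fun m => hreg m q fun j hj => hc j (hj ▸ hq))]

/-- The deformations of a tuple of points with different places and trivial scalings.
This is `TInc.exists_familyZ` (`TInc/Fam.lean`; copy the private lemmas of that file) with other
functions: `f` with `f ^ m = δ` of weight `e` (with respect to the divisor `A`), `b = - B / 2` of weight
`ν`, and `b ² - θ_j (b ² - δ)` of weight `2 ν`, where the `θ_j` are different, not zero, such that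
the last functions are not zero at the places `c l` (`B ² - 4 δ` is a unit there).
`nc = famN f`, `nb = famN b`, `nθ j = famN (b ² - θ_j (b ² - δ))`; `cv = ∏ val (c j) f`; the sum of the
exponents in `famN` for a function of weight `w` is `w a` (`famN_deg`). The scalings are as there: the
product over `j` of the scalings `scl (S j).2 A` of weight `w` is the factor in `famN_aeval`.
For `nc`: `(scl ^ e ∏ f) ^ m = scl ^ (2 ν) ∏ δ` because `e m = 2 ν`. -/
theorem exists_famW (X : Wcf k L) (hL : IsCurve k L) {a : ℕ} (hX : X.Ok ν a)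
    {U : Set (Place k L)} (hU : ∀ c ∈ U, X.Good c) (Z : Set (Place k L)) {g : ℕ}
    (hg : Riemann hL g) (s : Fin n → (X.base ν hL U hU Z).P)
    (hs : Function.Injective fun j => (s j).1) (hs1 : ∀ j q, (s j).2 q = 1)
    {q₀ : Place k L} (hq : q₀ ∈ Z) (hqU : q₀ ∉ U) {f : L} {m e : ℕ} (hf : f ^ m = X.δ)
    (hm : 0 < m) (hem : e * m = 2 * ν) (hfA : ∀ v, 0 ≤ ord v f + e * X.A v) {ρ : ℕ}
    (hρ : ρ + g ≤ n) :
    ∃ F : CurveFam (X.base ν hL U hU Z) (ν * a) (e * a) m s, F.ρ = ρ := by
  have h2k : (2 : k) ≠ 0 := two_ne_zero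
  have h4L : (4 : L) ≠ 0 := by
    have h4k : (4 : k) ≠ 0 := by norm_num
    have h := (_root_.map_ne_zero (algebraMap k L)).2 h4k
    rwa [map_ofNat] at h
  have h2L : (2 : L) ≠ 0 := by
    have h := (_root_.map_ne_zero (algebraMap k L)).2 h2k
    rwa [map_ofNat] at h
  let c : Fin n → U := fun j => (s j).1
  have hc : Function.Injective c := hs
  have hc' : Function.Injective fun j => (c j).1 := Subtype.val_injective.comp hc
  have hgood : ∀ j, X.Good (c j).1 := fun j => hU _ (c j).2
  obtain ⟨φ, hreg, hpole, hind⟩ := exists_phi hg hρ (fun j => (c j).1) hc'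
  have hf0 : f ≠ 0 := by
    intro h
    rw [h, zero_pow hm.ne'] at hf
    exact hX.δ_ne hf.symm
  -- values at good places
  have hvalδ : ∀ (q : Place k L), X.Good q → q.At X.δ (val q X.δ) := fun q hq =>
    at_val hL hq.1.1
  have hvalB : ∀ (q : Place k L), X.Good q → q.At X.B (val q X.B) := fun q hq =>
    at_val hL hq.2.1.1
  have hford : ∀ (q : Place k L), X.Good q → ord q f = 0 := by
    intro q hq
    have h1 : ord q X.δ = 0 := (ord_eq_zero_iff hL hX.δ_ne).2 hq.1
    rw [← hf, ord_pow hL] at h1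
    rcases mul_eq_zero.1 h1 with h2 | h2
    · exact absurd (by exact_mod_cast h2) hm.ne'
    · exact h2
  have hvalf : ∀ (q : Place k L), X.Good q → q.At f (val q f) := fun q hq =>
    at_val hL ((ord_eq_zero_iff hL hf0).1 (hford q hq)).1
  have hvalfm : ∀ (q : Place k L), X.Good q → val q f ^ m = val q X.δ := by
    intro q hq
    have h1 := (hvalf q hq).pow m
    rw [hf] at h1
    exact (val_eq h1).symm
  have hat2 : ∀ q : Place k L, q.At (2 : L) (2 : k) := fun q => by
    have h := Place.at_const (v := q) (2 : k)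
    rwa [map_ofNat] at h
  have hbat : ∀ (q : Place k L), X.Good q → q.At (-X.B / 2) (-val q X.B / 2) := fun q hq =>
    (hvalB q hq).neg.div (hat2 q) h2k
  have hθat : ∀ (q : Place k L), X.Good q → ∀ (θ : k),
      q.At ((-X.B / 2) ^ 2 - algebraMap k L θ * ((-X.B / 2) ^ 2 - X.δ))
        ((-val q X.B / 2) ^ 2 - θ * ((-val q X.B / 2) ^ 2 - val q X.δ)) :=
    fun q hq θ => ((hbat q hq).pow 2).sub ((Place.at_const θ).mul
      (((hbat q hq).pow 2).sub (hvalδ q hq)))
  have hdisc : ∀ (q : Place k L), X.Good q → (-val q X.B / 2) ^ 2 - val q X.δ ≠ 0 := by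
    intro q hq h0
    have h1 : q.At ((-X.B / 2) ^ 2 - X.δ) ((-val q X.B / 2) ^ 2 - val q X.δ) :=
      ((hbat q hq).pow 2).sub (hvalδ q hq)
    rw [h0] at h1
    have h2 : q.At (4 : L) (4 : k) := by
      have h := Place.at_const (v := q) (4 : k)
      rwa [map_ofNat] at h
    have h3 : q.At (X.B ^ 2 - 4 * X.δ) (4 * 0) := by
      have h4 := h2.mul h1
      convert h4 using 1
      field_simp
      ring
    have h4 := h3.mul (at_val hL hq.2.2.1)
    rw [mul_inv_cancel₀ hX.disc, mul_zero, zero_mul] at h4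
    have h5 : q.At (1 : L) (1 : k) := by
      have h := Place.at_const (v := q) (1 : k)
      rwa [map_one] at h
    exact one_ne_zero (h5.unique h4)
  -- the numbers `θ`
  obtain ⟨θ, hθinj, hθ0, hθ⟩ : ∃ θ : Fin n → k, Function.Injective θ ∧ (∀ j, θ j ≠ 0) ∧
      ∀ l j, (-val (c l).1 X.B / 2) ^ 2 - θ j * ((-val (c l).1 X.B / 2) ^ 2 -
        val (c l).1 X.δ) ≠ 0 := by
    let Bd : Set k := insert 0 (Set.range fun x : Fin n =>
      (-val (c x).1 X.B / 2) ^ 2 / ((-val (c x).1 X.B / 2) ^ 2 - val (c x).1 X.δ))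
    have hBd : Bd.Finite := (Set.finite_range _).insert 0
    have hinf : Bdᶜ.Infinite := hBd.infinite_compl
    let e := hinf.natEmbedding
    refine ⟨fun j => (e j).1, fun i j h => ?_, fun j h => ?_, fun l j h => ?_⟩
    · exact Fin.ext (e.injective (Subtype.ext h))
    · apply (e j).2
      have h' : (e j).1 = 0 := h
      rw [h']
      exact Set.mem_insert _ _
    · apply (e j).2
      right
      refine ⟨l, ?_⟩
      have h1 := hdisc _ (hgood l)
      simp only
      rw [div_eq_iff h1]
      linear_combination h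
  let T : Finset (Place k L) := X.A.support
  have hT : ∀ q, X.A q ≠ 0 → q ∈ T := fun q hq => Finsupp.mem_support_iff.2 hq
  have hDc : ∀ j, X.A (c j).1 = 0 := fun j => (hgood j).2.2.2
  have hTc : ∀ j, (c j).1 ∉ T := fun j hj => Finsupp.mem_support_iff.1 hj (hDc j)
  -- the functions
  have hbord : ∀ q : Place k L, ord q (-X.B / 2) = ord q X.B := by
    intro q
    have h1 : -X.B / 2 = algebraMap k L (-1 / 2) * X.B := by
      rw [map_div₀, map_neg, map_one, map_ofNat]
      ring
    have h3 : algebraMap k L (-1 / 2) ≠ 0 := (_root_.map_ne_zero _).2 (by norm_num)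
    rw [h1, ord_mul hL q h3 hX.B_ne, ord_const hL, zero_add]
  have okf : FamOk (k := k) (fun j => (c j).1) f e X.A :=
    ⟨fun j => hford _ (hgood j), fun _ q => hfA q⟩
  have okb : FamOk (k := k) (fun j => (c j).1) (-X.B / 2) ν X.A :=
    ⟨fun j => by
      rw [hbord]
      exact (ord_eq_zero_iff hL hX.B_ne).2 (hgood j).2.1, fun _ q => by
      rw [hbord]
      exact hX.B_mem q⟩
  have okθ : ∀ j, FamOk (k := k) (fun j => (c j).1)
      ((-X.B / 2) ^ 2 - algebraMap k L (θ j) * ((-X.B / 2) ^ 2 - X.δ)) (2 * ν) X.A := by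
    intro j
    have h0 : (-X.B / 2) ^ 2 - algebraMap k L (θ j) * ((-X.B / 2) ^ 2 - X.δ) ≠ 0 := by
      intro h
      have h1 := hθat _ (hgood j) (θ j)
      rw [h] at h1
      have h2 : (c j).1.At (0 : L) (0 : k) := by
        have h := Place.at_const (v := (c j).1) (0 : k)
        rwa [map_zero] at h
      exact hθ j j (h1.unique h2)
    refine ⟨fun l => ord_of_at hL (hθat _ (hgood l) (θ j)) (hθ l j), fun _ q => ?_⟩
    have e1 : (-X.B / 2) ^ 2 - algebraMap k L (θ j) * ((-X.B / 2) ^ 2 - X.δ) =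
        algebraMap k L (1 - θ j) * (-X.B / 2) ^ 2 + algebraMap k L (θ j) * X.δ := by
      rw [map_sub, map_one]
      ring
    have h3 : -(2 * ν * X.A q) ≤
        ord q (algebraMap k L (1 - θ j) * (-X.B / 2) ^ 2 + algebraMap k L (θ j) * X.δ) := by
      refine le_ord_add hL (e1 ▸ h0) (fun h => ?_) (fun h => ?_)
      · rw [ord_mul hL q (left_ne_zero_of_mul h) (right_ne_zero_of_mul h), ord_const hL, zero_add,
          ord_pow hL, hbord]
        have := hX.B_mem q
        rw [Nat.cast_ofNat]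
        linarith
      · rw [ord_mul hL q (left_ne_zero_of_mul h) (right_ne_zero_of_mul h), ord_const hL, zero_add]
        have := hX.δ_mem q
        linarith
    rw [e1, Nat.cast_mul, Nat.cast_ofNat]
    linarith
  -- values of the tuple
  have hscl : ∀ j, scl (s j).2 X.A = 1 := fun j => fam_scl_one _ (hs1 j) _
  have hed : ∀ j, (X.base ν hL U hU Z).ed s j = val (c j).1 X.δ := by
    intro j
    show scl (s j).2 X.A ^ (2 * ν) * val (s j).1.1 X.δ = _
    rw [hscl, one_pow, one_mul]
  have heb : ∀ j, (X.base ν hL U hU Z).eb s j = val (c j).1 X.B := by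
    intro j
    show scl (s j).2 X.A ^ ν * val (s j).1.1 X.B = _
    rw [hscl, one_pow, one_mul]
  have hvb : ∀ j, val (c j).1 (-X.B / 2) = -(X.base ν hL U hU Z).eb s j / 2 := fun j => by
    rw [heb]
    exact val_eq (hbat _ (hgood j))
  have hvθ : ∀ j l, val (c l).1
      ((-X.B / 2) ^ 2 - algebraMap k L (θ j) * ((-X.B / 2) ^ 2 - X.δ)) =
      (-(X.base ν hL U hU Z).eb s l / 2) ^ 2 - θ j * ((-(X.base ν hL U hU Z).eb s l / 2) ^ 2 -
        (X.base ν hL U hU Z).ed s l) := fun j l => by
    rw [heb, hed]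
    exact val_eq (hθat _ (hgood l) (θ j))
  let cc : Fin n → Place k L := fun j => (c j).1
  refine ⟨{
    ρ := ρ
    nc := famN hL φ cc f e X.A
    nb := famN hL φ cc (-X.B / 2) ν X.A
    nθ := fun j => famN hL φ cc
      ((-X.B / 2) ^ 2 - algebraMap k L (θ j) * ((-X.B / 2) ^ 2 - X.δ)) (2 * ν) X.A
    θ := θ
    cv := ∏ j, val (cc j) f
    inj := hθinj
    ne := hθ0
    dc := fun z => famN_deg hL φ cc _ _ _ hX.deg okf.eff z
    db := fun z => famN_deg hL φ cc _ _ _ hX.deg okb.eff z
    dθ := fun j z => (famN_deg hL φ cc _ _ _ hX.deg (okθ j).eff z).trans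
      (le_of_eq (mul_assoc 2 ν a))
    cm := by
      rw [← Finset.prod_pow]
      exact Finset.prod_congr rfl fun j _ => (hvalfm _ (hgood j)).trans (hed j).symm
    zc := fun z => by
      rw [famN, nmP_eval_zero]
    zb := fun z => by
      rw [famN, nmP_eval_zero]
      exact Finset.prod_congr rfl fun j _ => hvb j
    zθ := fun j z => by
      rw [famN, nmP_eval_zero]
      exact Finset.prod_congr rfl fun l _ => hvθ j l
    cc := by
      rw [famN, nmP_zero]
    cb := by
      rw [famN, nmP_zero]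
      congr 1
      exact Finset.prod_congr rfl fun j _ => hvb j
    cθ := fun j => by
      rw [famN, nmP_zero]
      congr 1
      exact Finset.prod_congr rfl fun l _ => hvθ j l
    u := 1
    h := fun z => ∑ m, z m * val q₀ (φ m)
    u_ne := one_ne_zero
    pts := ?_ }, rfl⟩
  intro z hz τ hτ _
  set φz : L := ∑ m, algebraMap k L (z m) * φ m with hφz
  have hφreg : ∀ v : Place k L, (∀ j, (c j).1 ≠ v) → φz ∈ v.ring := fun v hv =>
    sum_mem fun m _ => mul_mem (v.const_mem _) (hreg m v hv)
  have hφ0 : φz ≠ 0 := by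
    have := hind z hz 0
    rwa [map_zero] at this
  have hφpole : ∀ j, -1 ≤ ord (c j).1 φz := fun j =>
    fam_ord_sum hL φ z (fun m => hpole m j) Finset.univ hφ0
  obtain ⟨S, j₀, h1, h2, h3⟩ := exists_points hL c hc (hind z hz) hφreg hφpole T hTc hτ
  let lam : Fin n → Place k L → (Om k)ˣ := fun j q =>
    if j = j₀ ∧ q ∈ T then Units.mk0 _ (fam_ne hτ (val q φz)) else 1
  let SS : Fin n → (X.base ν hL U hU Z).Q := fun j => (S j, lam j)
  have hprod : ∀ w : ℕ, ∏ j, scl (lam j) X.A ^ w =
      (∏ q ∈ T, (1 + τ * algebraMap k (Om k) (val q φz)) ^ (X.A q)) ^ w := by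
    intro w
    rw [Finset.prod_pow]
    congr 1
    rw [Finset.prod_eq_single j₀]
    · unfold scl
      rw [Finsupp.prod_of_support_subset (s := T)]
      · refine Finset.prod_congr rfl fun q hq => ?_
        have hl : lam j₀ q = Units.mk0 _ (fam_ne hτ (val q φz)) := if_pos ⟨rfl, hq⟩
        rw [hl, Units.val_zpow_eq_zpow_val, Units.val_mk0]
      · intro q hq
        exact hT q (Finsupp.mem_support_iff.1 hq)
      · intro q _
        rw [zpow_zero, Units.val_one]
    · intro j _ hj
      exact fam_scl_one _ (fun q => if_neg fun h => hj h.1) _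
    · intro h
      exact absurd (Finset.mem_univ _) h
  -- `evO` is compatible with the operations
  have evf : ∀ j, evO (S j) f ^ m = evO (S j) X.δ := by
    intro j
    rcases S j with σ | q
    · show σ _ ^ m = σ _
      rw [← map_pow, hf]
    · show algebraMap k (Om k) _ ^ m = algebraMap k (Om k) _
      rw [← map_pow, hvalfm q.1 (hU q.1 q.2)]
  have evb : ∀ j, evO (S j) (-X.B / 2) = -evO (S j) X.B / 2 := by
    intro j
    rcases S j with σ | q
    · show σ _ = -σ _ / 2
      rw [map_div₀, map_neg, map_ofNat]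
    · show algebraMap k (Om k) _ = -algebraMap k (Om k) _ / 2
      rw [val_eq (hbat q.1 (hU q.1 q.2)), map_div₀, map_neg, map_ofNat]
  have evθ : ∀ j l, evO (S l)
      ((-X.B / 2) ^ 2 - algebraMap k L (θ j) * ((-X.B / 2) ^ 2 - X.δ)) =
      (-evO (S l) X.B / 2) ^ 2 - algebraMap k (Om k) (θ j) *
        ((-evO (S l) X.B / 2) ^ 2 - evO (S l) X.δ) := by
    intro j l
    rcases S l with σ | q
    · show σ _ = (-σ _ / 2) ^ 2 - _ * ((-σ _ / 2) ^ 2 - σ _)
      rw [map_sub, map_mul, map_sub, map_pow, map_div₀, map_neg, map_ofNat,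
        AlgHom.commutes]
    · show algebraMap k (Om k) _ = (-algebraMap k (Om k) _ / 2) ^ 2 -
        _ * ((-algebraMap k (Om k) _ / 2) ^ 2 - algebraMap k (Om k) _)
      rw [val_eq (hθat q.1 (hU q.1 q.2) (θ j)), map_sub, map_mul, map_sub, map_pow,
        map_div₀, map_neg, map_ofNat]
  have hED : ∀ j, (X.base ν hL U hU Z).ED SS j =
      scl (lam j) X.A ^ (2 * ν) * evO (S j) X.δ := fun _ => rfl
  have hEB : ∀ j, (X.base ν hL U hU Z).EB SS j = scl (lam j) X.A ^ ν * evO (S j) X.B :=
    fun _ => rfl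
  have hδc : ∀ j, (c j).1 ≠ q₀ := fun j h => hqU (h ▸ (c j).2)
  have hδat : q₀.At φz (∑ m, z m * val q₀ (φ m)) :=
    fam_at_sum hL φ z fun m => hreg m q₀ hδc
  refine ⟨SS, ?_, ?_, fun j => ?_, fun v hv => ?_, fun v hv => ?_⟩
  · rw [← famN_aeval hL φ z c hreg okf hDc T hT S j₀ h1]
    simp only [hED]
    rw [Finset.prod_mul_distrib, hprod, mul_pow, ← pow_mul, hem]
    congr 1
    rw [← Finset.prod_pow]
    exact Finset.prod_congr rfl fun j _ => evf j
  · rw [← famN_aeval hL φ z c hreg okb hDc T hT S j₀ h1]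
    have e1 : ∀ j, -(X.base ν hL U hU Z).EB SS j / 2 =
        scl (lam j) X.A ^ ν * evO (S j) (-X.B / 2) := by
      intro j
      rw [hEB, evb]
      ring
    simp only [e1]
    rw [Finset.prod_mul_distrib, hprod]
  · rw [← famN_aeval hL φ z c hreg (okθ j) hDc T hT S j₀ h1]
    have e1 : ∀ l, (-(X.base ν hL U hU Z).EB SS l / 2) ^ 2 - algebraMap k (Om k) (θ j) *
        ((-(X.base ν hL U hU Z).EB SS l / 2) ^ 2 - (X.base ν hL U hU Z).ED SS l) =
        scl (lam l) X.A ^ (2 * ν) * evO (S l)
          ((-X.B / 2) ^ 2 - algebraMap k L (θ j) * ((-X.B / 2) ^ 2 - X.δ)) := by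
      intro l
      rw [hEB, hED, evθ]
      ring
    simp only [e1]
    rw [Finset.prod_mul_distrib, hprod]
  · obtain ⟨π, hπ⟩ := h2 v hv
    refine ⟨π, fun j => ⟨hπ j, fun q => ?_⟩⟩
    show v.At ((lam j q : (Om k)ˣ) : Om k) (((s (π j)).2 q : kˣ) : k)
    rw [hs1, Units.val_one]
    simp only [lam]
    have e1 : v.At (1 : Om k) (1 : k) := by
      have h := Place.at_const (v := v) (1 : k)
      rwa [map_one] at h
    by_cases hj : j = j₀ ∧ q ∈ T
    · rw [if_pos hj, Units.val_mk0]
      have e2 := e1.add (hv.mul (Place.at_const (v := v) (val q φz)))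
      rwa [zero_mul, add_zero] at e2
    · rw [if_neg hj, Units.val_one]
      exact e1
  · have e0 : v.At (-τ⁻¹) (∑ m, z m * val q₀ (φ m)) := by
      rcases hv with ⟨τ₁, hτ₁, he⟩ | ⟨hτv, he⟩
      · have hτ0 : τ₁ ≠ 0 := by
          rintro rfl
          rw [zero_mul, add_zero] at he
          exact one_ne_zero he
        have e1 := (hτ₁.inv hτ0).neg
        have e2 : ∑ m, z m * val q₀ (φ m) = -τ₁⁻¹ := by
          field_simp
          linear_combination he
        rw [e2]
        exact e1
      · rw [he]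
        have e1 : v.At τ⁻¹ 0 := by
          rw [Place.at_zero_iff, Place.vanishes_iff_or]
          right
          rwa [inv_inv]
        have e2 := e1.neg
        rwa [neg_zero] at e2
    obtain ⟨j, hj⟩ := h3 v _ q₀ e0 hδat
    exact ⟨j, q₀, hq, hj⟩


end Pool.Agent.GTM
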