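import Pool.Agent.GTM.Defs

/-!
# The coordinates vanish only at finitely many points
-/

set_option autoImplicit false

noncomputable section

namespace Pool.Agent.GTM

open Pool.Agent.ZCyc Pool.Agent.Dess Pool.Agent.GT Polynomial
open Pool.Agent.VFP (Om tt)
open scoped Classical LinearAlgebra.Projectivization

variable {K : Type} [Field K] {m : ℕ} {d : ℕ} {P : K[X]} {N : Mp K m}

/-- A separable polynomial of positive degree is not a square times a square: if `G ² = H ² P` then
`G = H = 0`. Proof: otherwise `H ≠ 0`; `P` is squarefree (`Polynomial.Separable.squarefree`). In the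
factorial ring `K[X]` divide `G` and `H` by their greatest common divisor, then `H` is a unit, `P`
is a
unit times a square, `G` is not constant because the degree of `P` is positive, and `G ²` divides
`P`
up to a unit, a contradiction. -/
theorem norm_ne [CharZero K] (hP : P.Separable) (hd : 0 < P.natDegree) {G H : K[X]}
    (h : G ≠ 0 ∨ H ≠ 0) : G ^ 2 - H ^ 2 * P ≠ 0 := by
  intro h0
  have h1 : G ^ 2 = H ^ 2 * P := sub_eq_zero.1 h0
  have hH : H ≠ 0 := by
    rintro rfl
    have h2 : G = 0 := by
      have h3 : G ^ 2 = 0 := by rw [h1]; ring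
      exact pow_eq_zero_iff two_ne_zero |>.1 h3
    rcases h with h | h
    · exact h h2
    · exact h rfl
  obtain ⟨Q, rfl⟩ : H ∣ G := (IsIntegrallyClosed.pow_dvd_pow_iff two_ne_zero).1 ⟨P, h1⟩
  have h2 : P = Q * Q := by
    have h3 : H ^ 2 * P = H ^ 2 * (Q * Q) := by rw [← h1]; ring
    exact mul_left_cancel₀ (pow_ne_zero 2 hH) h3
  have h3 : IsUnit Q := hP.squarefree Q ⟨1, by rw [h2]; ring⟩
  have h4 : IsUnit P := by rw [h2]; exact h3.mul h3
  rw [Polynomial.natDegree_eq_zero_of_isUnit h4] at hd
  exact lt_irrefl 0 hd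

/-- The coordinates `G_i(x) + H_i(x) y` are all zero only for finitely many `x`: for some `i` the
polynomial `G_i ² - H_i ² P` is not zero (`norm_ne`), and it vanishes at these `x`. -/
theorem finite_co [CharZero K] (hP : P.Separable) (hd : 0 < P.natDegree)
    (hN : ∃ i, N.G i ≠ 0 ∨ N.H i ≠ 0) :
    {x : K | ∃ y, y ^ 2 = P.eval x ∧ N.co x y = 0}.Finite := by
  obtain ⟨i, hi⟩ := hN
  have h0 := norm_ne hP hd hi
  refine (((N.G i) ^ 2 - (N.H i) ^ 2 * P).roots.toFinset.finite_toSet).subset ?_
  rintro x ⟨y, hy, hco⟩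
  rw [Finset.mem_coe, Multiset.mem_toFinset, Polynomial.mem_roots h0, Polynomial.IsRoot.def]
  have h1 : (N.G i).eval x + (N.H i).eval x * y = 0 := congrFun hco i
  simp only [Polynomial.eval_sub, Polynomial.eval_mul, Polynomial.eval_pow]
  rw [← hy]
  linear_combination ((N.G i).eval x - (N.H i).eval x * y) * h1

end Pool.Agent.GTM
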