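import Pool.Agent.GTM.Base

/-!
# General points of the base
-/

set_option autoImplicit false

noncomputable section

namespace Pool.Agent.GTM

open Pool.Agent.ZCyc Pool.Agent.Dess Pool.Agent.TInc Pool.Agent.DK Polynomial
open Pool.Agent.VFP (Om tt)
open scoped Classical

variable {k L : Type} [Field k] [IsAlgClosed k] [CharZero k] [Field L] [Algebra k L] {n ν : ℕ}

private theorem gw_val_ne (hL : IsCurve k L) {c : Place k L} {f : L} (h : f ∈ c.ring)
    (h' : f⁻¹ ∈ c.ring) (hf : f ≠ 0) : val c f ≠ 0 := by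
  intro h0
  have h1 := at_val hL h
  rw [h0] at h1
  have h2 := h1.mul (at_val hL h')
  rw [mul_inv_cancel₀ hf, zero_mul] at h2
  have h3 : c.At (1 : L) (1 : k) := by
    have h4 := Place.at_const (v := c) (1 : k)
    rwa [map_one] at h4
  exact one_ne_zero (h3.unique h2)

omit [IsAlgClosed k] [CharZero k] in
private theorem gw_scl_ne {K : Type} [Field K] (l : Place k L → Kˣ) (D : Place k L →₀ ℤ) :
    scl l D ≠ 0 := by
  unfold scl Finsupp.prod
  exact Finset.prod_ne_zero_iff.2 fun q _ => Units.ne_zero _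

private theorem gw_disc (hL : IsCurve k L) {c : Place k L} {a b : L} (ha : a ∈ c.ring)
    (hb : b ∈ c.ring) (hd : b ^ 2 - 4 * a ≠ 0) (hi : (b ^ 2 - 4 * a)⁻¹ ∈ c.ring) :
    val c b ^ 2 - 4 * val c a ≠ 0 := by
  have h1 : c.At (b ^ 2 - 4 * a) (val c b ^ 2 - 4 * val c a) := by
    have h2 := Place.at_const (v := c) (4 : k)
    rw [map_ofNat] at h2
    exact ((at_val hL hb).pow 2).sub (h2.mul (at_val hL ha))
  have h3 := gw_val_ne hL h1.mem hi hd
  rwa [val_eq h1] at h3

private theorem gw_quot (hL : IsCurve k L) {c : Place k L} {a b : L} (ha : a ∈ c.ring)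
    (hb : b ∈ c.ring) (hi : a⁻¹ ∈ c.ring) (h0 : a ≠ 0) :
    val c (b ^ 2 / a) = val c b ^ 2 / val c a :=
  val_eq (((at_val hL hb).pow 2).div (at_val hL ha) (gw_val_ne hL ha hi h0))

/-- The values of `B ² / δ` at the places are different. (As `TInc.base_gen`, `TInc/GenB.lean`.) -/
theorem base_genW (X : Wcf k L) (hL : IsCurve k L) {a : ℕ} (hX : X.Ok ν a)
    {U : Set (Place k L)} (hU : ∀ c ∈ U, X.Good c) (Z : Set (Place k L))
    (s : Fin n → (X.base ν hL U hU Z).P)
    (h : ∀ j j', j ≠ j' → val (s j).1.1 (X.B ^ 2 / X.δ) ≠ val (s j').1.1 (X.B ^ 2 / X.δ)) :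
    (X.base ν hL U hU Z).Gen s := by
  -- the values are not zero
  have hg : ∀ j, X.Good (s j).1.1 := fun j => hU _ (s j).1.2
  have ha : ∀ j, val (s j).1.1 X.δ ≠ 0 := fun j =>
    gw_val_ne hL (hg j).1.1 (hg j).1.2 hX.δ_ne
  have hb : ∀ j, val (s j).1.1 X.B ≠ 0 := fun j =>
    gw_val_ne hL (hg j).2.1.1 (hg j).2.1.2 hX.B_ne
  have hd : ∀ j, val (s j).1.1 X.B ^ 2 - 4 * val (s j).1.1 X.δ ≠ 0 := fun j =>
    gw_disc hL (hg j).1.1 (hg j).2.1.1 hX.disc (hg j).2.2.1
  have hm : ∀ j, scl (s j).2 X.A ≠ 0 := fun j => gw_scl_ne _ _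
  have ea : ∀ j, (X.base ν hL U hU Z).ed s j =
      scl (s j).2 X.A ^ (2 * ν) * val (s j).1.1 X.δ := fun j => rfl
  have eb : ∀ j, (X.base ν hL U hU Z).eb s j =
      scl (s j).2 X.A ^ ν * val (s j).1.1 X.B := fun j => rfl
  -- the values of the quotient are different
  have hdist : ∀ j j', j ≠ j' →
      (X.base ν hL U hU Z).eb s j ^ 2 * (X.base ν hL U hU Z).ed s j' ≠
        (X.base ν hL U hU Z).eb s j' ^ 2 * (X.base ν hL U hU Z).ed s j := by
    intro j j' hj h2
    apply h j j' hj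
    rw [gw_quot hL (hg j).1.1 (hg j).2.1.1 (hg j).1.2 hX.δ_ne,
      gw_quot hL (hg j').1.1 (hg j').2.1.1 (hg j').1.2 hX.δ_ne,
      div_eq_div_iff (ha j) (ha j')]
    rw [ea, ea, eb, eb] at h2
    have h3 : (scl (s j).2 X.A ^ (2 * ν) * scl (s j').2 X.A ^ (2 * ν)) ≠ 0 :=
      mul_ne_zero (pow_ne_zero _ (hm j)) (pow_ne_zero _ (hm j'))
    apply mul_left_cancel₀ h3
    rw [pow_mul', pow_mul'] at h2 ⊢
    linear_combination h2
  refine ⟨⟨fun j => ?_, fun j => ?_, fun j => ?_, Or.inl hdist⟩, Or.inl hdist⟩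
  · rw [ea]
    exact mul_ne_zero (pow_ne_zero _ (hm j)) (ha j)
  · rw [eb]
    exact mul_ne_zero (pow_ne_zero _ (hm j)) (hb j)
  · intro h1
    rw [ea, eb] at h1
    apply mul_ne_zero (pow_ne_zero (2 * ν) (hm j)) (hd j)
    rw [pow_mul'] at h1 ⊢
    linear_combination h1

/-- A function which is not constant has the value `c` at some place. (Its valuation at the places: a
transcendental function over `k` takes every value, `ZCyc.exists_place`, or `exists_above` for the
place of `k(f)`.) -/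
theorem exists_at_place (hL : IsCurve k L) {f : L} (hf : ∀ a : k, f ≠ algebraMap k L a) (c : k) :
    ∃ v : Place k L, v.At f c := by
  have ht : Transcendental k f := by
    intro h
    have h1 : (minpoly k f).degree = 1 :=
      IsAlgClosed.degree_eq_one_of_irreducible k (minpoly.irreducible h.isIntegral)
    obtain ⟨a, ha⟩ := minpoly.mem_range_of_degree_eq_one k f h1
    exact hf a ha.symm
  exact exists_place ht c

end Pool.Agent.GTM
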