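import Pool.Agent.DK.Defs

/-!
# Systems of classes with values in a subspace
-/

set_option autoImplicit false

noncomputable section

namespace Pool.Agent.GTM

open Pool.Agent.DK
open Pool.Agent.VFP (Om tt)

variable {k : Type} [Field k] {n ν : ℕ} {ζ : k} {D : Bas k} {W : Type} [AddCommGroup W]
  [Module ℚ W]

/-- A system of classes with values in a subspace `W'` which is invariant under `om`:
`Val' v S P w = Val v S P (w : W)`. -/
theorem restr (Y : SysW ν ζ D n W) (W' : Submodule ℚ W) (h : ∀ s p, Y.F s p ∈ W')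
    (hom : ∀ x ∈ W', Y.om x ∈ W') :
    ∃ Y' : SysW ν ζ D n W', (∀ s p, (Y'.F s p : W) = Y.F s p) ∧
      ∀ x : W', (Y'.om x : W) = Y.om x := by
  have hsum : ∀ {I : Type} [Fintype I] (c : I → ℚ) (C : I → W') (C₀ : W'),
      ∑ x, c x • C x = C₀ → ∑ x, c x • (C x : W) = C₀ := by
    intro I _ c C C₀ h0
    rw [← h0, AddSubmonoidClass.coe_finsetSum]
    rfl
  refine ⟨{
    F := fun s p => ⟨Y.F s p, h s p⟩
    Val := fun v S P w => Y.Val v S P (w : W)
    om := Y.om.restrict hom
    perm := fun s p π => Subtype.ext (Y.perm s p π)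
    rot := fun s p j w σ hp => Subtype.ext (Y.rot s p j w σ hp)
    inf := fun s p j hp => Subtype.ext (Y.inf s p j hp)
    off := fun s p hp => Subtype.ext (Y.off s p hp)
    fin := fun v S P hS s p h1 h2 => Y.fin v S P hS s p h1 h2
    pole := fun v S P hS j c h1 h2 => Y.pole v S P hS j c h1 h2
    sing := fun v S P hS j h1 => Y.sing v S P hS j h1
    bridge := fun {I} _ c S P hS c₀ c₁ C₀ C₁ h0 h1 => Subtype.ext
      (Y.bridge c S P hS c₀ c₁ C₀ C₁
        (fun v hv => by
          obtain ⟨C, hC, hC0⟩ := h0 v hv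
          exact ⟨fun x => C x, hC, hsum c C C₀ hC0⟩)
        (fun v hv => by
          obtain ⟨C, hC, hC0⟩ := h1 v hv
          exact ⟨fun x => C x, hC, hsum c C C₁ hC0⟩)) }, fun s p => rfl, fun x => rfl⟩

end Pool.Agent.GTM
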