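import Pool.Agent.GTM.MovW
import Pool.Agent.GTM.FamW
import Pool.Agent.GTM.GenW
import Pool.Agent.GTM.Restr
import Pool.Agent.GTM.CoefII
import Pool.Agent.DK.Core

/-!
# General tuples of points
-/

set_option autoImplicit false

noncomputable section

namespace Pool.Agent.GTM

open Pool.Agent.ZCyc Pool.Agent.Dess Pool.Agent.GT Polynomial
open Pool.Agent.VFP (Om tt)
open scoped Classical LinearAlgebra.Projectivization

open Pool.Agent.TInc Pool.Agent.DK

variable {k L : Type} [Field k] [IsAlgClosed k] [CharZero k] [Field L] [Algebra k L] {m : ℕ}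
  {X : Set (MvPolynomial (Fin (m + 1)) k)} {U : Set (Place k L)} {n ν : ℕ} [NeZero ν]

omit [IsAlgClosed k] [CharZero k] in
private theorem gzw_scl (D : Place k L →₀ ℤ) : scl (fun _ : Place k L => (1 : kˣ)) D = 1 := by
  unfold scl Finsupp.prod
  refine Finset.prod_eq_one fun q _ => ?_
  simp

/-- the points over the places `c j`, with trivial scalings -/
private theorem gzw_cl (hX : Hom X) (hL : IsCurve k L) {d : GD (regU U) m} (hd : OkW ν d X)
    {ζ : k} (A : Place k L →₀ ℤ) (c : Fin n → U) (x y : Fin n → k) :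
    clF hX hd hL ζ A (fun j => (c j, fun _ => 1)) (fun j => some (x j, y j)) =
      dcv (Alt (Ext hX n)) (fun j => rotK hX hd hL ζ (c j) (x j) (y j)) := by
  unfold clF
  congr 1
  funext j a
  change TK hX hd (evk hL (c j)) (ζ ^ a.val * (x j / scl (fun _ : Place k L => (1 : kˣ)) A))
    (y j / scl (fun _ : Place k L => (1 : kˣ)) A ^ ν) = TK hX hd (evk hL (c j)) _ _
  rw [gzw_scl, one_pow, div_one, div_one]

omit [NeZero ν] in
private theorem gzw_on (hL : IsCurve k L) {d : GD (regU U) m} (A : Place k L →₀ ℤ)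
    (hU : ∀ c ∈ U, (wcf d A).Good c) (Z : Set (Place k L)) (c : Fin n → U) (x y : Fin n → k)
    (hx : ∀ j, x j ≠ 0)
    (hxy : ∀ j, y j ^ 2 = x j ^ (2 * ν) + evk hL (c j) d.B * x j ^ ν + evk hL (c j) d.α) :
    ((wcf d A).base ν hL U hU Z).On ν (fun j => (c j, fun _ => 1))
      (fun j => some (x j, y j)) := by
  intro j
  refine ⟨hx j, ?_⟩
  change _ = x j ^ (2 * ν) + scl (fun _ : Place k L => (1 : kˣ)) A ^ ν * val (c j).1 (d.B : L) *
    x j ^ ν + scl (fun _ : Place k L => (1 : kˣ)) A ^ (2 * ν) * val (c j).1 (d.α : L)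
  rw [gzw_scl, one_pow, one_pow, one_mul, one_mul]
  exact hxy j

variable {g a : ℕ}

/-- Case (I): any `δ`. -/
theorem gen_I (hX : Hom X) (hL : IsCurve k L) {d : GD (regU U) m} (hd : OkW ν d X) {ζ : k}
    (hζ : IsPrimitiveRoot ζ ν) {A : Place k L →₀ ℤ} (hA : (wcf d A).Ok ν a) (ha : 0 < a)
    (hU : ∀ c ∈ U, (wcf d A).Good c) {q₀ : Place k L}
    (hq : q₀.At ((d.B : L) ^ 2 / (d.α : L)) 4) (hqU : q₀ ∉ U) (hg : Riemann hL g) (hn0 : 0 < n)
    (hn : (ν - 1) * a + g ≤ n) (c : Fin n → U) (hc : Function.Injective c)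
    (hJ : ∀ j j', j ≠ j' → val (c j).1 ((d.B : L) ^ 2 / (d.α : L)) ≠
      val (c j').1 ((d.B : L) ^ 2 / (d.α : L))) (x y : Fin n → k) (hx : ∀ j, x j ≠ 0)
    (hxy : ∀ j, y j ^ 2 = x j ^ (2 * ν) + evk hL (c j) d.B * x j ^ ν + evk hL (c j) d.α) :
    dcv (Alt (Ext hX n)) (fun j => rotK hX hd hL ζ (c j) (x j) (y j)) = 0 := by
  have hZ : ∀ q ∈ ({q₀} : Set (Place k L)), q.At ((d.B : L) ^ 2 / (d.α : L)) 4 := by
    intro q h
    rw [Set.mem_singleton_iff.1 h]
    exact hq
  have hUZ : ∀ q ∈ ({q₀} : Set (Place k L)), q ∉ U := by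
    intro q h
    rw [Set.mem_singleton_iff.1 h]
    exact hqU
  obtain ⟨Y, hY, -⟩ := exists_sysW hX hL hd hζ.pow_eq_one A hU hZ hUZ n
  let s : Fin n → ((wcf d A).base ν hL U hU {q₀}).P := fun j => (c j, fun _ => 1)
  obtain ⟨F, hF⟩ := exists_famW (wcf d A) hL hA hU {q₀} hg s hc (fun _ _ => rfl)
    (Set.mem_singleton q₀) hqU (f := (wcf d A).δ) (m := 1) (e := 2 * ν) (pow_one _) one_pos
    (by ring) (fun v => by
      have h1 := hA.δ_mem v
      push_cast at h1 ⊢
      exact h1) hn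
  have hgen : ((wcf d A).base ν hL U hU {q₀}).Gen s := base_genW (wcf d A) hL hA hU {q₀} s hJ
  have h0 := zeroI Y hζ (Nat.pos_of_ne_zero (NeZero.ne ν)) ha F hF.ge hgen hn0 (fun j => some (x j, y j))
  rw [hY s _ (gzw_on hL A hU {q₀} c x y hx hxy)] at h0
  rw [← h0]
  exact (gzw_cl hX hL hd A c x y).symm

/-- Case (II): `δ` is a power of `f`. -/
theorem gen_II {μ : ℕ} [NeZero μ] (hX : Hom X) (hL : IsCurve k L) {d : GD (regU U) m}
    (hd : OkW (2 * μ) d X) {ζ : k} (hζ : IsPrimitiveRoot ζ (2 * μ)) {A : Place k L →₀ ℤ}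
    (hA : (wcf d A).Ok (2 * μ) a) (ha : 0 < a) (hU : ∀ c ∈ U, (wcf d A).Good c)
    {q₀ : Place k L} (hq : q₀.At ((d.B : L) ^ 2 / (d.α : L)) 4) (hqU : q₀ ∉ U)
    (hg : Riemann hL g) (hn0 : 0 < n) {f : L} (hf : f ^ μ = (d.α : L))
    (hn : (μ - 2) * a + g ≤ n) (c : Fin n → U) (hc : Function.Injective c)
    (hJ : ∀ j j', j ≠ j' → val (c j).1 ((d.B : L) ^ 2 / (d.α : L)) ≠
      val (c j').1 ((d.B : L) ^ 2 / (d.α : L))) (x y : Fin n → k) (hx : ∀ j, x j ≠ 0)
    (hxy : ∀ j, y j ^ 2 = x j ^ (2 * (2 * μ)) + evk hL (c j) d.B * x j ^ (2 * μ) +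
      evk hL (c j) d.α) :
    lcs (cII μ) (dcv (Alt (Ext hX n)) (fun j => rotK hX hd hL ζ (c j) (x j) (y j))) = 0 := by
  have hμ : 0 < μ := Nat.pos_of_ne_zero (NeZero.ne μ)
  have hZ : ∀ q ∈ ({q₀} : Set (Place k L)), q.At ((d.B : L) ^ 2 / (d.α : L)) 4 := by
    intro q h
    rw [Set.mem_singleton_iff.1 h]
    exact hq
  have hUZ : ∀ q ∈ ({q₀} : Set (Place k L)), q ∉ U := by
    intro q h
    rw [Set.mem_singleton_iff.1 h]
    exact hqU
  obtain ⟨Y, hY, hYo⟩ := exists_sysWc hX hL hd hζ.pow_eq_one A hU hZ hUZ n (cII μ)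
  have hYF : ∀ s p, Y.F s p ∈ LinearMap.range (lcs (W := CH X (Fin n)) (cII μ)) := by
    intro s p
    by_cases h : ((wcf d A).base (2 * μ) hL U hU {q₀}).On (2 * μ) s p
    · rw [hY s p h]
      exact LinearMap.mem_range_self _ _
    · rw [Y.off s p h]
      exact Submodule.zero_mem _
  obtain ⟨Y', hY'F, hY'o⟩ := restr Y (LinearMap.range (lcs (W := CH X (Fin n)) (cII μ))) hYF (by
    rintro x ⟨u, rfl⟩
    rw [hYo, ← lcs_shift]
    exact LinearMap.mem_range_self _ _)
  have hpow : ∀ (i : ℕ) (x : LinearMap.range (lcs (W := CH X (Fin n)) (cII μ))),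
      (((Y'.om ^ i) x : LinearMap.range (lcs (W := CH X (Fin n)) (cII μ))) :
        ZMod (2 * μ) → CH X (Fin n)) = (shift (2 * μ) (CH X (Fin n)) ^ i) x := by
    intro i
    induction i with
    | zero => exact fun x => rfl
    | succ i ih =>
      intro x
      rw [pow_succ', pow_succ', Module.End.mul_apply, Module.End.mul_apply, hY'o, hYo, ih]
  let s : Fin n → ((wcf d A).base (2 * μ) hL U hU {q₀}).P := fun j => (c j, fun _ => 1)
  have e1 : 2 * μ * a = μ * (2 * a) := by ring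
  have e2 : 4 * a = 2 * (2 * a) := by ring
  obtain ⟨F, hF⟩ : ∃ F : CurveFam ((wcf d A).base (2 * μ) hL U hU {q₀}) (μ * (2 * a))
      (2 * (2 * a)) μ s, F.ρ = (μ - 2) * a := by
    have h1 := exists_famW (wcf d A) hL hA hU {q₀} hg s hc (fun _ _ => rfl)
      (Set.mem_singleton q₀) hqU (f := f) (m := μ) (e := 4) hf hμ (by ring) (fun v => by
        have h1 := hA.δ_mem v
        have h2 : ord v (wcf d A).δ = μ * ord v f := by
          change ord v (d.α : L) = _
          rw [← hf]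
          exact ord_pow hL v f μ
        rw [h2] at h1
        have h3 : (0 : ℤ) ≤ μ * (ord v f + 4 * (wcf d A).A v) := by
          refine h1.trans_eq ?_
          push_cast
          ring
        have h4 : (0 : ℤ) < μ := by exact_mod_cast hμ
        have h5 := nonneg_of_mul_nonneg_right h3 h4
        push_cast
        exact h5) hn
    rw [e1, e2] at h1
    exact h1
  have hgen : ((wcf d A).base (2 * μ) hL U hU {q₀}).Gen s :=
    base_genW (wcf d A) hL hA hU {q₀} s hJ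
  have h0 := zeroII Y' hμ hζ (fun x => Subtype.ext ?_) (fun x hx => ?_) (d := 2 * a) (l := μ * a)
    (by omega) (by ring) F ?_ hgen hn0 (fun j => some (x j, y j))
  · have h1 := congrArg (Subtype.val) h0
    rw [hY'F, hY s _ (gzw_on hL A hU {q₀} c x y hx hxy)] at h1
    rw [← gzw_cl]
    exact h1
  · rw [hpow]
    obtain ⟨u, hu⟩ := x.2
    rw [← hu, cII_pow, hu]
    rfl
  · obtain ⟨u, hu⟩ := x.2
    apply Subtype.ext
    have h1 := congrArg Subtype.val hx
    rw [hpow, ← hu] at h1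
    rw [← hu]
    exact cII_two u h1
  · rw [hF]
    rcases Nat.lt_or_ge μ 2 with h | h
    · have : μ = 1 := by omega
      subst this
      omega
    · obtain ⟨t, rfl⟩ := Nat.exists_eq_add_of_le h
      have : (2 + t) * a = (2 + t - 2) * a + 2 * a := by
        rw [Nat.add_sub_cancel_left]
        ring
      exact this.le

end Pool.Agent.GTM
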