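import Pool.Agent.GTM.Fte

/-!
# Lines through a point
-/

set_option autoImplicit false

noncomputable section

namespace Pool.Agent.GTM

open Pool.Agent.ZCyc Pool.Agent.Dess Pool.Agent.GT Polynomial
open Pool.Agent.VFP (Om tt)
open scoped Classical LinearAlgebra.Projectivization

variable {K : Type} [Field K] {m : ℕ} {d : ℕ} {P : K[X]}

private theorem line_avoid {L : Type} [Field L] [Infinite L] (p : L[X]) (hp : p ≠ 0) :
    ∃ x, p.eval x ≠ 0 := by
  by_contra hcon
  push Not at hcon
  apply hp
  apply Polynomial.funext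
  intro x
  rw [hcon x, Polynomial.eval_zero]

private theorem line_sq_ne {L : Type} [Field L] (y c a : L) (hc : c ≠ 0) :
    ((C y + C c * Polynomial.X) ^ 2 - C a : L[X]) ≠ 0 := by
  intro h0
  have h1 := congrArg (fun q => Polynomial.coeff q 2) h0
  have h2 : ((C y + C c * Polynomial.X) ^ 2 - C a : L[X]) =
      C (c ^ 2) * Polynomial.X ^ 2 + C (2 * y * c) * Polynomial.X + C (y ^ 2 - a) := by
    simp only [map_mul, map_sub, map_pow, map_ofNat]
    ring
  simp only [h2, Polynomial.coeff_add, Polynomial.coeff_C_mul, Polynomial.coeff_X_pow,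
    Polynomial.coeff_X, Polynomial.coeff_C, Polynomial.coeff_zero] at h1
  norm_num at h1
  exact hc h1

private theorem line_root {g e R : K[X]} (h : Ln d P g e R) {x : K} (hx : x ∈ R.roots) :
    g.eval x ^ 2 = P.eval x := by
  have h1 := congrArg (Polynomial.eval x) h.eq
  rw [Polynomial.eval_mul, Polynomial.isRoot_of_mem_roots hx, mul_zero, Polynomial.eval_sub,
    Polynomial.eval_pow] at h1
  exact sub_eq_zero.1 h1

/-- There is a line through the point `(x₀, y₀)` whose other points of intersection with the curve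
avoid a finite set `F` of values of `x` (which may contain `x₀`: then `x₀` is a simple zero).
Proof. Choose `u ∉ F`, `u ≠ x₀` (`K` is infinite), and `g = y₀ + l (x - x₀) (x - u) ^ (d - 1)`, where
`l` is in `K`. `(x - x₀)` divides `g ² - P`, let `R` be the quotient. The coefficient of `g` of degree
`d` is `l` (for `d = 1` too). The conditions on `l`: `l ² ≠ P.coeff (2 * d)`; for `f ∈ F`, `f ≠ x₀`:
`g(f) ² ≠ P(f)` (a polynomial in `l` of degree two, because the coefficient of `l` in `g(f)` is not
zero); `R(x₀) ≠ 0`: the derivative of `g ² - P` at `x₀` is `2 y₀ l (x₀ - u) ^ (d - 1) - P'(x₀)`; for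
`y₀ ≠ 0` it is not zero for all but one `l`, for `y₀ = 0` we have `P(x₀) = 0` and `P'(x₀) ≠ 0` because
`P` is separable. Every condition excludes finitely many `l`, and `K` is infinite. -/
theorem exists_line [CharZero K] (hd : 0 < d) (hP : P.Separable) {x₀ y₀ : K}
    (h : y₀ ^ 2 = P.eval x₀) (F : Finset K) :
    ∃ g R : K[X], Ln d P g (Polynomial.X - C x₀) R ∧ g.eval x₀ = y₀ ∧ ∀ x ∈ F, R.eval x ≠ 0 := by
  have hinf : Infinite K := inferInstance
  obtain ⟨u, hu⟩ := Infinite.exists_notMem_finset (insert x₀ F)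
  rw [Finset.mem_insert, not_or] at hu
  obtain ⟨hu0, huF⟩ := hu
  obtain ⟨n, rfl⟩ : ∃ n, d = n + 1 := ⟨d - 1, by omega⟩
  have hxu : x₀ - u ≠ 0 := sub_ne_zero.2 fun h' => hu0 h'.symm
  -- the condition on the coefficient
  set B1 : K[X] := (C 0 + C 1 * Polynomial.X) ^ 2 - C (P.coeff (2 * (n + 1))) with hB1
  set B2 : K[X] := ∏ f ∈ F.erase x₀,
    ((C y₀ + C ((f - x₀) * (f - u) ^ n) * Polynomial.X) ^ 2 - C (P.eval f)) with hB2
  set B3 : K[X] := C (2 * y₀ * (x₀ - u) ^ n) * Polynomial.X - C (P.derivative.eval x₀) with hB3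
  have hB1' : B1 ≠ 0 := line_sq_ne _ _ _ one_ne_zero
  have hB2' : B2 ≠ 0 := by
    refine Finset.prod_ne_zero_iff.2 fun f hf => line_sq_ne _ _ _ ?_
    rw [Finset.mem_erase] at hf
    exact mul_ne_zero (sub_ne_zero.2 hf.1)
      (pow_ne_zero _ (sub_ne_zero.2 fun h' => huF (h' ▸ hf.2)))
  have hB3' : B3 ≠ 0 := by
    intro h0
    by_cases hy : y₀ = 0
    · rw [hB3, hy, mul_zero, zero_mul, map_zero, zero_mul, zero_sub, neg_eq_zero, C_eq_zero] at h0
      rw [hy, zero_pow two_ne_zero] at h
      obtain ⟨a, b, hab⟩ := hP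
      have h1 := congrArg (Polynomial.eval x₀) hab
      rw [Polynomial.eval_add, Polynomial.eval_mul, Polynomial.eval_mul, ← h, h0, mul_zero,
        mul_zero, add_zero, Polynomial.eval_one] at h1
      exact zero_ne_one h1
    · have h1 := congrArg (fun q => Polynomial.coeff q 1) h0
      simp only [hB3, Polynomial.coeff_sub, Polynomial.coeff_C_mul, Polynomial.coeff_X_one,
        Polynomial.coeff_zero, mul_one] at h1
      rw [Polynomial.coeff_C_succ, sub_zero] at h1
      exact mul_ne_zero (mul_ne_zero two_ne_zero hy) (pow_ne_zero _ hxu) h1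
  obtain ⟨l, hl⟩ := line_avoid (B1 * B2 * B3) (mul_ne_zero (mul_ne_zero hB1' hB2') hB3')
  rw [Polynomial.eval_mul, Polynomial.eval_mul] at hl
  have hl3 := right_ne_zero_of_mul hl
  have hl1 := left_ne_zero_of_mul (left_ne_zero_of_mul hl)
  have hl2 := right_ne_zero_of_mul (left_ne_zero_of_mul hl)
  -- the line
  set q : K[X] := (Polynomial.X - C x₀) * (Polynomial.X - C u) ^ n with hq
  set g : K[X] := C y₀ + C l * q with hg
  have hqm : q.Monic := (monic_X_sub_C x₀).mul ((monic_X_sub_C u).pow n)
  have hqd : q.natDegree = n + 1 := by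
    rw [hq, (monic_X_sub_C x₀).natDegree_mul ((monic_X_sub_C u).pow n), natDegree_X_sub_C,
      (monic_X_sub_C u).natDegree_pow, natDegree_X_sub_C]
    ring
  have hgx : ∀ x, g.eval x = y₀ + l * ((x - x₀) * (x - u) ^ n) := by
    intro x
    simp [hg, hq]
  have hg0 : g.eval x₀ = y₀ := by
    rw [hgx, sub_self, zero_mul, mul_zero, add_zero]
  have hcoef : g.coeff (n + 1) = l := by
    rw [hg, Polynomial.coeff_add, Polynomial.coeff_C_succ, zero_add, Polynomial.coeff_C_mul,
      ← hqd, hqm.coeff_natDegree, mul_one]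
  have hroot : (g ^ 2 - P).IsRoot x₀ := by
    rw [Polynomial.IsRoot.def, Polynomial.eval_sub, Polynomial.eval_pow, hg0, h, sub_self]
  obtain ⟨R, hR⟩ := Polynomial.dvd_iff_isRoot.2 hroot
  refine ⟨g, R, ⟨?_, ?_, hR⟩, hg0, ?_⟩
  · rw [hg]
    refine (Polynomial.natDegree_add_le _ _).trans (max_le ?_ ?_)
    · rw [natDegree_C]
      omega
    · exact (Polynomial.natDegree_C_mul_le _ _).trans hqd.le
  · rw [hcoef]
    intro h0
    apply hl1
    simp [hB1, h0]
  · intro x hx h0
    by_cases hxx : x = x₀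
    · rw [hxx] at h0
      have h1 := congrArg (fun r => (Polynomial.derivative r).eval x₀) hR
      simp only [Polynomial.derivative_mul, Polynomial.derivative_sub, Polynomial.derivative_X,
        Polynomial.derivative_C, Polynomial.eval_add, Polynomial.eval_mul, Polynomial.eval_sub,
        Polynomial.eval_X, Polynomial.eval_C, h0, sub_self, mul_zero, zero_mul, add_zero] at h1
      have h2 : (Polynomial.derivative (g ^ 2)).eval x₀ = 2 * y₀ * (x₀ - u) ^ n * l := by
        rw [Polynomial.derivative_pow]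
        simp only [hg, hq, Polynomial.derivative_add, Polynomial.derivative_mul,
          Polynomial.derivative_C, Polynomial.derivative_sub, Polynomial.derivative_X,
          Polynomial.eval_mul, Polynomial.eval_add, Polynomial.eval_sub, Polynomial.eval_X,
          Polynomial.eval_C, Polynomial.eval_pow, Polynomial.eval_zero, Polynomial.eval_one,
          sub_self, sub_zero, mul_zero, zero_mul, add_zero, zero_add, one_mul]
        norm_num
        ring
      rw [h2] at h1
      apply hl3
      simp only [hB3, Polynomial.eval_sub, Polynomial.eval_mul, Polynomial.eval_C,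
        Polynomial.eval_X]
      simpa using h1
    · have h1 := congrArg (Polynomial.eval x) hR
      rw [Polynomial.eval_mul, h0, mul_zero, Polynomial.eval_sub, Polynomial.eval_pow, hgx] at h1
      apply hl2
      rw [hB2, Polynomial.eval_prod]
      refine Finset.prod_eq_zero (Finset.mem_erase.2 ⟨hxx, hx⟩) ?_
      simp only [Polynomial.eval_sub, Polynomial.eval_pow, Polynomial.eval_add,
        Polynomial.eval_mul, Polynomial.eval_C, Polynomial.eval_X]
      rw [← h1]
      ring

/-- The same without a given point: a line whose points of intersection with the curve avoid `F`.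
Proof: `K` is algebraically closed, take a point `(x₀, y₀)` of the curve with `x₀ ∉ F`, the line of
`exists_line`, and multiply `R` by `x - x₀`. -/
theorem exists_line_one [IsAlgClosed K] [CharZero K] (hd : 0 < d) (hP : P.Separable)
    (F : Finset K) : ∃ g R : K[X], Ln d P g 1 R ∧ ∀ x ∈ F, R.eval x ≠ 0 := by
  have hinf : Infinite K := inferInstance
  obtain ⟨x₀, hx₀⟩ := Infinite.exists_notMem_finset F
  obtain ⟨y₀, hy₀⟩ := IsAlgClosed.exists_pow_nat_eq (P.eval x₀) (n := 2) two_pos
  obtain ⟨g, R, h, -, hR⟩ := exists_line hd hP hy₀ F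
  refine ⟨g, (Polynomial.X - C x₀) * R, ⟨h.deg, h.lead, ?_⟩, fun x hx => ?_⟩
  · rw [one_mul]
    exact h.eq
  · rw [Polynomial.eval_mul, Polynomial.eval_sub, Polynomial.eval_X, Polynomial.eval_C]
    exact mul_ne_zero (sub_ne_zero.2 fun h' => hx₀ (h' ▸ hx)) (hR x hx)

/-- The same for a map: `F` contains a given finite set and the values of `x` for which the
coordinates vanish (`finite_co`). -/
theorem exists_clean [IsAlgClosed K] [CharZero K] {k : Type} [Field k] [Algebra k K]
    {X : Set (MvPolynomial (Fin (m + 1)) k)} {N : Mp K m} (hN : OkH d P N X) {x₀ y₀ : K}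
    (h : y₀ ^ 2 = P.eval x₀) (F : Finset K) :
    ∃ g R : K[X], Ln d P g (Polynomial.X - C x₀) R ∧ g.eval x₀ = y₀ ∧ R.eval x₀ ≠ 0 ∧
      (∀ x ∈ F, R.eval x ≠ 0) ∧ Clean N g R := by
  have hfin := finite_co (N := N) hN.sep (by rw [hN.deg]; have := hN.pos; omega) hN.ne
  obtain ⟨g, R, h1, h2, h3⟩ := exists_line hN.pos hN.sep h (insert x₀ (F ∪ hfin.toFinset))
  refine ⟨g, R, h1, h2, h3 x₀ (Finset.mem_insert_self _ _),
    fun x hx => h3 x (Finset.mem_insert_of_mem (Finset.mem_union_left _ hx)), ?_⟩
  intro x hx h0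
  exact h3 x (Finset.mem_insert_of_mem (Finset.mem_union_right _
    (hfin.mem_toFinset.2 ⟨g.eval x, line_root h1 hx, h0⟩))) (Polynomial.isRoot_of_mem_roots hx)

theorem exists_clean_one [IsAlgClosed K] [CharZero K] {k : Type} [Field k] [Algebra k K]
    {X : Set (MvPolynomial (Fin (m + 1)) k)} {N : Mp K m} (hN : OkH d P N X) (F : Finset K) :
    ∃ g R : K[X], Ln d P g 1 R ∧ (∀ x ∈ F, R.eval x ≠ 0) ∧ Clean N g R := by
  have hfin := finite_co (N := N) hN.sep (by rw [hN.deg]; have := hN.pos; omega) hN.ne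
  obtain ⟨g, R, h1, h3⟩ := exists_line_one hN.pos hN.sep (F ∪ hfin.toFinset)
  refine ⟨g, R, h1, fun x hx => h3 x (Finset.mem_union_left _ hx), ?_⟩
  intro x hx h0
  exact h3 x (Finset.mem_union_right _
    (hfin.mem_toFinset.2 ⟨g.eval x, line_root h1 hx, h0⟩)) (Polynomial.isRoot_of_mem_roots hx)

/-- the degree of `e R` -/
theorem Ln.natDegree {g e R : K[X]} (h : Ln d P g e R) (hd : 0 < d) (hP : P.natDegree = 2 * d) :
    (e * R).natDegree = 2 * d := by
  rw [← h.eq]
  refine Polynomial.natDegree_eq_of_le_of_coeff_ne_zero ?_ ?_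
  · refine (Polynomial.natDegree_sub_le _ _).trans (max_le ?_ hP.le)
    exact Polynomial.natDegree_pow_le_of_le 2 h.deg
  · rw [Polynomial.coeff_sub, Polynomial.coeff_pow_of_natDegree_le h.deg]
    exact sub_ne_zero.2 h.lead

end Pool.Agent.GTM
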