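import Pool.Agent.GTM.Good
import Pool.Agent.VFP.Util
import Pool.Agent.TInc.Ord

/-!
# All lines over the ground field
-/

set_option autoImplicit false

noncomputable section

namespace Pool.Agent.GTM

open Pool.Agent.ZCyc Pool.Agent.Dess Pool.Agent.GT Polynomial
open Pool.Agent.VFP (Om tt)
open scoped Classical LinearAlgebra.Projectivization

variable {k : Type} [Field k] [IsAlgClosed k] [CharZero k] {m : ℕ} {d : ℕ}
  {X : Set (MvPolynomial (Fin (m + 1)) k)}

/-- the sum of the classes of the points of a line -/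
def lineK (hX : Hom X) {P : k[X]} {N : Mp k m} (hN : OkH d P N X) (g : k[X]) : CH X Unit :=
  ((g ^ 2 - P).roots.map fun x => ck hX hN x (g.eval x)).sum

/-- the sum of the classes of the limits of the points of a line -/
def lineV (hX : Hom X) {P : (Om k)[X]} {N : Mp (Om k) m} (hN : OkH d P N X) (v : Place k (Om k))
    (g : (Om k)[X]) : CH X Unit :=
  ((g ^ 2 - P).roots.map fun x => cv hX hN v x (g.eval x)).sum

omit [IsAlgClosed k] [CharZero k] in
/-- `a + t b` is a square root of a constant only if `b = 0` -/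
private theorem lineK_sq {a b p : k}
    (h : (algebraMap k (Om k) a + tt k * algebraMap k (Om k) b) ^ 2 = algebraMap k (Om k) p) :
    a ^ 2 = p ∧ b = 0 := by
  have ht : Transcendental k (tt k) := Pool.Agent.VFP.tt_transc (k := k)
  rw [transcendental_iff] at ht
  have h1 := ht ((C a + Polynomial.X * C b) ^ 2 - C p) (by
    simp only [map_sub, map_pow, map_add, map_mul, aeval_C, aeval_X]
    rw [h, sub_self])
  have h3 : ((C a + Polynomial.X * C b) ^ 2 - C p : k[X]) =
      C (b ^ 2) * Polynomial.X ^ 2 + C (2 * a * b) * Polynomial.X + C (a ^ 2 - p) := by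
    simp only [map_mul, map_sub, map_pow, map_ofNat]
    ring
  rw [h3] at h1
  have h4 := congrArg (fun q : k[X] => q.coeff 2) h1
  have h5 := congrArg (fun q : k[X] => q.coeff 0) h1
  simp only [coeff_add, coeff_C_mul, coeff_X_pow, coeff_X, coeff_C, coeff_zero] at h4 h5
  norm_num at h4 h5
  exact ⟨sub_eq_zero.1 h5, h4⟩

omit [IsAlgClosed k] [CharZero k] in
/-- the line `g + t (g₁ - g)` -/
private theorem lineK_ln {P g g₁ : k[X]} (h : g.natDegree ≤ d)
    (hl : g.coeff d ^ 2 ≠ P.coeff (2 * d)) (h' : g₁.natDegree ≤ d) :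
    Ln d (P.map (algebraMap k (Om k)))
      (g.map (algebraMap k (Om k)) + C (tt k) * (g₁ - g).map (algebraMap k (Om k))) 1
      ((g ^ 2 - P).map (algebraMap k (Om k)) +
        C (tt k) * (2 * g * (g₁ - g)).map (algebraMap k (Om k)) +
        C (tt k) ^ 2 * ((g₁ - g) ^ 2).map (algebraMap k (Om k))) where
  deg := by
    refine (natDegree_add_le _ _).trans (max_le ?_ ?_)
    · exact (natDegree_map_le).trans h
    · refine (natDegree_C_mul_le _ _).trans (natDegree_map_le.trans ?_)
      exact (natDegree_sub_le _ _).trans (max_le h' h)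
  lead := by
    rw [coeff_add, coeff_C_mul, coeff_map, coeff_map, coeff_map]
    exact fun h0 => hl (lineK_sq h0).1
  eq := by
    simp only [Polynomial.map_sub, Polynomial.map_mul, Polynomial.map_pow,
      Polynomial.map_ofNat]
    ring

omit [IsAlgClosed k] [CharZero k] in
private theorem lineK_co (N : Mp k m) (x y : k) (i : Fin (m + 1)) :
    (N.map (algebraMap k (Om k))).co (algebraMap k (Om k) x) (algebraMap k (Om k) y) i =
      algebraMap k (Om k) (N.co x y i) := by
  simp only [Mp.co, Mp.map, eval_map_algebraMap, aeval_algebraMap_apply_eq_algebraMap_eval,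
    map_add, map_mul]

/-- the coordinates vanish only at points over `k` -/
private theorem lineK_mem {P : k[X]} {N : Mp k m} (hN : OkH d P N X) {x y : Om k}
    (hxy : y ^ 2 = (P.map (algebraMap k (Om k))).eval x)
    (h : (N.map (algebraMap k (Om k))).co x y = 0) : ∃ x₀ : k, x = algebraMap k (Om k) x₀ := by
  obtain ⟨i, hi⟩ := hN.ne
  have h0 := norm_ne hN.sep (by rw [hN.deg]; have := hN.pos; omega) hi
  have h1 : ((N.G i).map (algebraMap k (Om k))).eval x +
      ((N.H i).map (algebraMap k (Om k))).eval x * y = 0 := congrFun h i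
  have h2 : (((N.G i) ^ 2 - (N.H i) ^ 2 * P).map (algebraMap k (Om k))).eval x = 0 := by
    simp only [Polynomial.map_sub, Polynomial.map_mul, Polynomial.map_pow, eval_sub, eval_mul,
      eval_pow]
    rw [← hxy]
    linear_combination (((N.G i).map (algebraMap k (Om k))).eval x -
      ((N.H i).map (algebraMap k (Om k))).eval x * y) * h1
  have h3 : x ∈ (((N.G i) ^ 2 - (N.H i) ^ 2 * P).map (algebraMap k (Om k))).roots :=
    (Polynomial.mem_roots ((Polynomial.map_ne_zero_iff
      (algebraMap k (Om k)).injective).2 h0)).2 h2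
  rw [(IsAlgClosed.splits ((N.G i) ^ 2 - (N.H i) ^ 2 * P)).roots_map, Multiset.mem_map] at h3
  obtain ⟨x₀, -, hx₀⟩ := h3
  exact ⟨x₀, hx₀.symm⟩

/-- there is a place where `t` has a given value -/
private theorem lineK_place (hX : Hom X) : ∃ v : Place k (Om k), v.At (tt k) 0 := by
  have h : ∀ c : k, tt k ≠ algebraMap k (Om k) c := by
    intro c hc
    have ht : Transcendental k (tt k) := Pool.Agent.VFP.tt_transc (k := k)
    rw [hc] at ht
    exact ht (isAlgebraic_algebraMap c)
  have hpole : ∃ v : Place k (Om k), (tt k)⁻¹ ∉ v.ring := by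
    by_contra hcon
    push Not at hcon
    obtain ⟨K, -, hK, hΓ, -, -⟩ := exists_field hX {(tt k)⁻¹} (J := Empty) (fun e => e.elim)
    have hx : (tt k)⁻¹ ∈ K := hΓ (by simp)
    obtain ⟨a, ha⟩ := TInc.const_of_regular hK (f := (⟨(tt k)⁻¹, hx⟩ : K)) fun c => by
      obtain ⟨v, hv⟩ := TInc.exists_above hK c K.val
      rw [← hv, ValuationSubring.mem_comap]
      exact hcon v
    have h1 := congrArg K.val ha
    rw [K.val.commutes] at h1
    have h2 : (tt k)⁻¹ = algebraMap k (Om k) a := h1
    apply h a⁻¹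
    rw [map_inv₀, ← h2, inv_inv]
  obtain ⟨v, hv⟩ := hpole
  have h1 := VFP.inv_at_of_not_mem hv
  rw [inv_inv] at h1
  exact ⟨v, h1⟩

/-- the sum of the classes of the points of a line is the class of a clean line -/
private theorem lineK_clean (hX : Hom X) {P : k[X]} {N : Mp k m} (hN : OkH d P N X)
    {g g₁ R₁ : k[X]} (h : g.natDegree ≤ d) (hl : g.coeff d ^ 2 ≠ P.coeff (2 * d))
    (h₁ : Ln d P g₁ 1 R₁) (hc₁ : Clean N g₁ R₁) : lineK hX hN g = cl1 X (LR hX hN g₁ R₁) := by
  set ι := algebraMap k (Om k) with hι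
  have hN' := hN.map
  set G : (Om k)[X] := g.map ι + C (tt k) * (g₁ - g).map ι with hG
  set RT : (Om k)[X] := (g ^ 2 - P).map ι + C (tt k) * (2 * g * (g₁ - g)).map ι +
        C (tt k) ^ 2 * ((g₁ - g) ^ 2).map ι with hRT
  have hL : Ln d (P.map ι) G 1 RT := lineK_ln h hl h₁.deg
  have hL₀ : Ln d P g 1 (g ^ 2 - P) := ⟨h, hl, (one_mul _).symm⟩
  have hL₁ : Ln d (P.map ι) (g₁.map ι) 1 (R₁.map ι) := by
    refine ⟨natDegree_map_le.trans h₁.deg, ?_, ?_⟩
    · rw [coeff_map, coeff_map, ← map_pow]
      exact fun h0 => h₁.lead (ι.injective h0)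
    · have h1 := congrArg (Polynomial.map ι) h₁.eq
      rw [one_mul] at h1
      rw [one_mul, ← h1, Polynomial.map_sub, Polynomial.map_pow]
  have hR₁ : R₁ ≠ 0 := by
    rintro rfl
    apply h₁.lead
    have h1 := h₁.eq
    rw [mul_zero] at h1
    rw [← sub_eq_zero.1 h1, Polynomial.coeff_pow_of_natDegree_le h₁.deg]
  have hRTd : RT.natDegree = 2 * d := by
    have := hL.natDegree hN'.pos hN'.deg
    rwa [one_mul] at this
  have hRd : (g ^ 2 - P).natDegree = 2 * d := by
    have := hL₀.natDegree hN.pos hN.deg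
    rwa [one_mul] at this
  have hRT0 : RT ≠ 0 := by
    intro h0
    rw [h0, natDegree_zero] at hRTd
    have := hN.pos
    omega
  have hR0 : g ^ 2 - P ≠ 0 := by
    intro h0
    rw [h0, natDegree_zero] at hRd
    have := hN.pos
    omega
  have hon : ∀ x ∈ RT.roots, G.eval x ^ 2 = (P.map ι).eval x := by
    intro x hx
    have h1 := congrArg (Polynomial.eval x) hL.eq
    rw [Polynomial.eval_sub, Polynomial.eval_pow, Polynomial.eval_mul,
      (Polynomial.mem_roots hRT0).1 hx, mul_zero] at h1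
    exact sub_eq_zero.1 h1
  -- the line is clean
  have hc : Clean (N.map ι) G RT := by
    intro x hx h0
    obtain ⟨x₀, rfl⟩ := lineK_mem hN (hon x hx) h0
    have h1 := hon _ hx
    have h2 : G.eval (ι x₀) = ι (g.eval x₀) + tt k * ι (g₁.eval x₀ - g.eval x₀) := by
      rw [hG, eval_add, eval_mul, eval_C, hι, eval_map_algebraMap, eval_map_algebraMap,
        aeval_algebraMap_apply_eq_algebraMap_eval, aeval_algebraMap_apply_eq_algebraMap_eval,
        eval_sub]
    have h3 : (P.map ι).eval (ι x₀) = ι (P.eval x₀) := by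
      rw [hι, eval_map_algebraMap, aeval_algebraMap_apply_eq_algebraMap_eval]
    rw [h2, h3] at h1
    obtain ⟨h4, h5⟩ := lineK_sq h1
    have h6 : g₁.eval x₀ = g.eval x₀ := sub_eq_zero.1 h5
    rw [h2, h5, map_zero, mul_zero, add_zero] at h0
    apply hc₁ x₀
    · rw [Polynomial.mem_roots hR₁, Polynomial.IsRoot.def]
      have h7 := h₁.eq
      rw [one_mul] at h7
      rw [← h7, eval_sub, eval_pow, h6, h4, sub_self]
    · funext i
      have h7 := congrFun h0 i
      rw [hι, lineK_co] at h7
      rw [h6]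
      exact (map_eq_zero_iff _ (algebraMap k (Om k)).injective).1 h7
  have hc' : Clean (N.map ι) (g₁.map ι) (R₁.map ι) := by
    intro x hx h0
    rw [(IsAlgClosed.splits R₁).roots_map, Multiset.mem_map] at hx
    obtain ⟨x₀, hx₀, rfl⟩ := hx
    apply hc₁ x₀ hx₀
    funext i
    have h7 := congrFun h0 i
    rw [hι, eval_map_algebraMap, aeval_algebraMap_apply_eq_algebraMap_eval, lineK_co] at h7
    exact (map_eq_zero_iff _ (algebraMap k (Om k)).injective).1 h7
  obtain ⟨v, hv⟩ := lineK_place (k := k) hX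
  have hNv : MpAt v (N.map ι) N := fun i => ⟨PolAt.map _, PolAt.map _⟩
  have hg : PolAt v G g := by
    have h1 := (PolAt.map (v := v) g).add ((PolAt.c hv).mul (PolAt.map (v := v) (g₁ - g)))
    rw [C_0, zero_mul, add_zero] at h1
    exact h1
  have hR : PolAt v RT (g ^ 2 - P) := by
    have h1 := ((PolAt.map (v := v) (g ^ 2 - P)).add
      ((PolAt.c hv).mul (PolAt.map (v := v) (2 * g * (g₁ - g))))).add
        (((PolAt.c hv).pow 2).mul (PolAt.map (v := v) ((g₁ - g) ^ 2)))
    rw [C_0, zero_mul, add_zero, zero_pow two_ne_zero, zero_mul, add_zero] at h1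
    exact h1
  have e1 : lim1 hX v (LR hX hN' G RT) = lim1 hX v (LR hX hN' (g₁.map ι) (R₁.map ι)) :=
    line_indep hX hN' monic_one hL hL₁ (one_dvd _) hc hc' v
  have e2 : lim1 hX v (LR hX hN' (g₁.map ι) (R₁.map ι)) = cl1 X (LR hX hN g₁ R₁) :=
    (lim_LR hX hN' hN hNv hL₁ h₁ (PolAt.map _) (PolAt.map _)
      (natDegree_map_eq_of_injective ι.injective _) hc₁).2
  rw [← e2, ← e1]
  obtain ⟨n, u, u₀, hu, hu₀, hat⟩ := roots_at hR hR0 (hRTd.trans hRd.symm)
  have hmem : ∀ i, u i ∈ RT.roots := by
    intro i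
    rw [hu]
    exact Multiset.mem_map_of_mem u (Finset.mem_univ i)
  unfold LR lineK
  rw [hu, hu₀, Multiset.map_map, Multiset.map_map]
  change ∑ i, ck hX hN (u₀ i) (g.eval (u₀ i)) =
    lim1 hX v (∑ i, cyp hX hN' (u i) (G.eval (u i)))
  rw [map_sum]
  refine Finset.sum_congr rfl fun i _ => ?_
  rw [← cv_of_ne hX hN' v (hon _ (hmem i)) (hc _ (hmem i))]
  exact (cv_eq_ck hX hN' hN (PolAt.map _) hNv (hat i) (hg.eval (hat i)) (hon _ (hmem i))).symm

/-- All lines over `k` have the same sum of classes.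
Proof. It is the class of every clean line: let `g` be a line, `g₁` a clean line (`e = 1`). Over
`Om k` let `G = g + T (g₁ - g)`, `T = tt k`; this line of the constant curve (`OkH.map`) is clean:
the `x` for which the coordinates vanish are in `k` (they are roots of polynomials over `k`, see
`norm_ne`), for these `G(x) ² = P(x)`, `G(x) = g(x) + T (g₁(x) - g(x))`, `T` transcendental, implies
`g₁(x) = g(x) = G(x)`, but the coordinates do not all vanish at `(x, g₁(x))`. Let
`v` be a place with `T ↦ 0`. `line_indep` with the constant extension of `g₁`: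
`lim1 v (LR G ..) = cl1 (LR g₁ ..)`. On the other hand it is the sum of the `cv` of its points
(`cv_of_ne`), and by `cv_eq_ck` and `roots_at` the sum of the `ck` of the points of `g`. -/
theorem lineK_eq (hX : Hom X) {P : k[X]} {N : Mp k m} (hN : OkH d P N X) {g g' : k[X]}
    (h : g.natDegree ≤ d) (hl : g.coeff d ^ 2 ≠ P.coeff (2 * d)) (h' : g'.natDegree ≤ d)
    (hl' : g'.coeff d ^ 2 ≠ P.coeff (2 * d)) : lineK hX hN g = lineK hX hN g' := by
  obtain ⟨g₁, R₁, h₁, -, hc₁⟩ := exists_clean_one hN ∅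
  rw [lineK_clean hX hN h hl h₁ hc₁, lineK_clean hX hN h' hl' h₁ hc₁]

end Pool.Agent.GTM
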