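import Pool.Agent.GTM.WPol
import Pool.Agent.GT.Spread

/-!
# From the function field to an open set
-/

set_option autoImplicit false

noncomputable section

namespace Pool.Agent.GTM

open Pool.Agent.ZCyc Pool.Agent.Dess Pool.Agent.GT Polynomial
open Pool.Agent.VFP (Om tt)
open scoped Classical LinearAlgebra.Projectivization

open Pool.Agent.TInc

variable {k L : Type} [Field k] [Field L] [Algebra k L] {m ν : ℕ}
  {X : Set (MvPolynomial (Fin (m + 1)) k)}

private theorem ev2W_add {A : Type} [CommRing A] {K : Type} [Field K] (S : A →+* K) (θ x : K)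
    (p q : Polynomial (Polynomial A)) : ev2 S θ x (p + q) = ev2 S θ x p + ev2 S θ x q := by
  rw [ev2, Polynomial.map_add, Polynomial.eval_add]
  rfl

private theorem ev2W_mul {A : Type} [CommRing A] {K : Type} [Field K] (S : A →+* K) (θ x : K)
    (p q : Polynomial (Polynomial A)) : ev2 S θ x (p * q) = ev2 S θ x p * ev2 S θ x q := by
  rw [ev2, Polynomial.map_mul, Polynomial.eval_mul]
  rfl

private theorem ev2W_pow {A : Type} [CommRing A] {K : Type} [Field K] (S : A →+* K) (θ x : K)
    (p : Polynomial (Polynomial A)) (n : ℕ) : ev2 S θ x (p ^ n) = ev2 S θ x p ^ n := by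
  rw [ev2, Polynomial.map_pow, Polynomial.eval_pow]
  rfl

private theorem ev2W_CC {A : Type} [CommRing A] {K : Type} [Field K] (S : A →+* K) (θ x : K)
    (r : A) : ev2 S θ x (C (C r)) = S r := by
  rw [ev2, Polynomial.map_C, Polynomial.eval_C, Polynomial.coe_eval₂RingHom, Polynomial.eval₂_C]

private theorem ev2W_X {A : Type} [CommRing A] {K : Type} [Field K] (S : A →+* K) (θ x : K) :
    ev2 S θ x Polynomial.X = x := by
  rw [ev2, Polynomial.map_X, Polynomial.eval_X]

private theorem ev2W_zero {A : Type} [CommRing A] {K : Type} [Field K] (S : A →+* K) (θ x : K) :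
    ev2 S θ x 0 = 0 := by
  rw [ev2, Polynomial.map_zero, Polynomial.eval_zero]

/-- For every polynomial `f` in the coordinates there are polynomials `a`, `b` in `T` and `x` such
that `f(G + H y) = a + b y` on the curve, for all homomorphisms and all `θ`, `x`, `y`: as `exists_ab`
in `GT/RedPol.lean`. -/
theorem exists_abW {A : Type} [CommRing A] [Algebra k A] (ν : ℕ) (d : GD A m)
    (f : MvPolynomial (Fin (m + 1)) k) :
    ∃ a b : Polynomial (Polynomial A), ∀ (K : Type) [Field K] [Algebra k K] (S : A →ₐ[k] K)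
      (θ x y : K), y ^ 2 = x ^ (2 * ν) + S d.B * x ^ ν + S d.α →
      MvPolynomial.aeval ((d.mp (S : A →+* K) θ).co x y) f =
        ev2 (S : A →+* K) θ x a + ev2 (S : A →+* K) θ x b * y := by
  induction f using MvPolynomial.induction_on with
  | C r =>
    refine ⟨C (C (algebraMap k A r)), 0, ?_⟩
    intro K _ _ S θ x y _
    rw [MvPolynomial.aeval_C, ev2W_CC, ev2W_zero, zero_mul, add_zero]
    exact (S.commutes r).symm
  | add f g hf hg =>
    obtain ⟨a, b, h1⟩ := hf
    obtain ⟨a', b', h2⟩ := hg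
    refine ⟨a + a', b + b', ?_⟩
    intro K _ _ S θ x y hy
    rw [map_add, h1 K S θ x y hy, h2 K S θ x y hy, ev2W_add, ev2W_add]
    ring
  | mul_X f i hf =>
    obtain ⟨a, b, h1⟩ := hf
    refine ⟨a * d.G i + b * d.H i * (X ^ (2 * ν) + C (C d.B) * X ^ ν + C (C d.α)),
      a * d.H i + b * d.G i, ?_⟩
    intro K _ _ S θ x y hy
    rw [map_mul, h1 K S θ x y hy, MvPolynomial.aeval_X]
    have hco : (d.mp (S : A →+* K) θ).co x y i =
        ev2 (S : A →+* K) θ x (d.G i) + ev2 (S : A →+* K) θ x (d.H i) * y := rfl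
    have hα : (S : A →+* K) d.α = S d.α := rfl
    have hB : (S : A →+* K) d.B = S d.B := rfl
    rw [hco]
    simp only [ev2W_add, ev2W_mul, ev2W_pow, ev2W_CC, ev2W_X, hα, hB]
    linear_combination (ev2 (S : A →+* K) θ x b * ev2 (S : A →+* K) θ x (d.H i)) * hy

/-- A polynomial `a + b y` which vanishes on the curve `y ² = P(x)` over an algebraically closed
field is zero. -/
private theorem abW_zero {K : Type} [Field K] [IsAlgClosed K] [CharZero K] {ν : ℕ} (hν : 0 < ν)
    (B δ : K) (a b : Polynomial K)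
    (h : ∀ x y : K, y ^ 2 = x ^ (2 * ν) + B * x ^ ν + δ → a.eval x + b.eval x * y = 0) :
    a = 0 ∧ b = 0 := by
  have hP : wP ν B δ ≠ 0 := by
    intro h0
    have h1 := wP_coeff_top hν B δ
    rw [h0, Polynomial.coeff_zero] at h1
    exact zero_ne_one h1
  have key : ∀ x : K, a.eval x * (wP ν B δ).eval x = 0 ∧ b.eval x * (wP ν B δ).eval x = 0 := by
    intro x
    obtain ⟨y, hy⟩ := IsAlgClosed.exists_pow_nat_eq (x ^ (2 * ν) + B * x ^ ν + δ) (n := 2)
      (by norm_num)
    have h1 := h x y hy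
    have h2 := h x (-y) (by rw [neg_sq]; exact hy)
    have h3 : a.eval x = 0 := by
      have h4 : 2 * a.eval x = 0 := by linear_combination h1 + h2
      exact (mul_eq_zero.1 h4).resolve_left two_ne_zero
    have h4 : b.eval x * y = 0 := by linear_combination h1 - h3
    rw [wP_eval, h3, zero_mul, ← hy]
    exact ⟨rfl, by linear_combination y * h4⟩
  constructor
  · have h1 : a * wP ν B δ = 0 := by
      apply Polynomial.funext
      intro x
      rw [Polynomial.eval_mul, (key x).1, Polynomial.eval_zero]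
    exact (mul_eq_zero.1 h1).resolve_right hP
  · have h1 : b * wP ν B δ = 0 := by
      apply Polynomial.funext
      intro x
      rw [Polynomial.eval_mul, (key x).2, Polynomial.eval_zero]
    exact (mul_eq_zero.1 h1).resolve_right hP

/-! ### Lifts of polynomials to a subalgebra -/

private theorem spr_lift (R : Subalgebra k L) (p : L[X]) (h : ∀ n, p.coeff n ∈ R) :
    ∃ q : R[X], q.map (R.val : R →+* L) = p := by
  have h1 : p ∈ Polynomial.lifts (R.val : R →+* L) := by
    rw [Polynomial.lifts_iff_coeff_lifts]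
    intro n
    exact ⟨⟨p.coeff n, h n⟩, rfl⟩
  exact (Polynomial.mem_lifts _).1 h1

private theorem spr_lift2 (R : Subalgebra k L) (p : L[X][X])
    (h : ∀ n j, (p.coeff n).coeff j ∈ R) :
    ∃ q : R[X][X], q.map (Polynomial.mapRingHom (R.val : R →+* L)) = p := by
  have h1 : p ∈ Polynomial.lifts (Polynomial.mapRingHom (R.val : R →+* L)) := by
    rw [Polynomial.lifts_iff_coeff_lifts]
    intro n
    obtain ⟨q, hq⟩ := spr_lift R (p.coeff n) (h n)
    exact ⟨q, hq⟩
  exact (Polynomial.mem_lifts _).1 h1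

private theorem spr_inj (R : Subalgebra k L) :
    Function.Injective (Polynomial.map (R.val : R →+* L)) :=
  Polynomial.map_injective _ Subtype.val_injective

private theorem spr_inj2 (R : Subalgebra k L) :
    Function.Injective (Polynomial.map (Polynomial.mapRingHom (R.val : R →+* L))) :=
  Polynomial.map_injective _ (spr_inj R)

/-- the coefficients -/
private def cf (p : L[X]) : Finset L := (Finset.range (p.natDegree + 1)).image p.coeff

private theorem cf_mem {R : Subalgebra k L} {p : L[X]} (h : ↑(cf p) ⊆ (R : Set L)) (n : ℕ) :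
    p.coeff n ∈ R := by
  by_cases hn : n ≤ p.natDegree
  · apply h
    rw [Finset.mem_coe, cf, Finset.mem_image]
    exact ⟨n, Finset.mem_range.2 (Nat.lt_succ_of_le hn), rfl⟩
  · rw [Polynomial.coeff_eq_zero_of_natDegree_lt (not_le.1 hn)]
    exact R.zero_mem

/-- the coefficients of the coefficients -/
private def cf2 (p : L[X][X]) : Finset L :=
  (Finset.range (p.natDegree + 1)).biUnion fun n => cf (p.coeff n)

private theorem cf2_mem {R : Subalgebra k L} {p : L[X][X]} (h : ↑(cf2 p) ⊆ (R : Set L))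
    (n j : ℕ) : (p.coeff n).coeff j ∈ R := by
  by_cases hn : n ≤ p.natDegree
  · apply cf_mem
    intro z hz
    apply h
    rw [Finset.mem_coe, cf2, Finset.mem_biUnion]
    exact ⟨n, Finset.mem_range.2 (Nat.lt_succ_of_le hn), hz⟩
  · rw [Polynomial.coeff_eq_zero_of_natDegree_lt (not_le.1 hn), Polynomial.coeff_zero]
    exact R.zero_mem

/-- the generators -/
private def gens {A : Type} [CommRing A] (d : GD A m) : Set A[X] :=
  {d.h} ∪ {c | ∃ i j, c = (d.G i).coeff j ∨ c = (d.H i).coeff j}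

private theorem gens_map {R : Subalgebra k L} {d : GD L m} {d' : GD R m}
    (hd' : d'.map (R.val : R →+* L) = d) {p : L[X]} (hp : p ∈ gens d) {q : R[X]}
    (hq : q.map (R.val : R →+* L) = p) : q ∈ gens d' := by
  subst hd'
  rcases hp with hp | ⟨i, j, hp⟩
  · left
    rw [Set.mem_singleton_iff] at hp ⊢
    apply spr_inj R
    rw [hq, hp]
    rfl
  · right
    refine ⟨i, j, ?_⟩
    rcases hp with hp | hp
    · left
      apply spr_inj R
      rw [hq, hp]
      simp [GD.map]
    · right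
      apply spr_inj R
      rw [hq, hp]
      simp [GD.map]

/-- the elements of the ideal -/
private theorem spr_ne {d : GD L m} (p : L[X]) (hp : p ∈ Ideal.span (gens d)) :
    ∃ Γ : Finset L, ∀ (R : Subalgebra k L) (d' : GD R m), d'.map (R.val : R →+* L) = d →
      ↑Γ ⊆ (R : Set L) → ∀ q : R[X], q.map (R.val : R →+* L) = p →
        q ∈ Ideal.span (gens d') := by
  refine Submodule.span_induction (p := fun p _ => ∃ Γ : Finset L, ∀ (R : Subalgebra k L)
    (d' : GD R m), d'.map (R.val : R →+* L) = d → ↑Γ ⊆ (R : Set L) → ∀ q : R[X],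
    q.map (R.val : R →+* L) = p → q ∈ Ideal.span (gens d')) ?_ ?_ ?_ ?_ hp
  · intro p hp
    exact ⟨∅, fun R d' hd' _ q hq => Ideal.subset_span (gens_map hd' hp hq)⟩
  · refine ⟨∅, fun R d' hd' _ q hq => ?_⟩
    have h1 : q = 0 := by
      apply spr_inj R
      rw [hq, Polynomial.map_zero]
    rw [h1]
    exact Ideal.zero_mem _
  · rintro x y - - ⟨Γ₁, h₁⟩ ⟨Γ₂, h₂⟩
    refine ⟨Γ₁ ∪ Γ₂ ∪ cf x ∪ cf y, fun R d' hd' hΓ q hq => ?_⟩
    simp only [Finset.coe_union, Set.union_subset_iff] at hΓ
    obtain ⟨⟨⟨g1, g2⟩, g3⟩, g4⟩ := hΓ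
    obtain ⟨q1, hq1⟩ := spr_lift R x (cf_mem g3)
    obtain ⟨q2, hq2⟩ := spr_lift R y (cf_mem g4)
    have h3 : q = q1 + q2 := by
      apply spr_inj R
      rw [hq, Polynomial.map_add, hq1, hq2]
    rw [h3]
    exact Ideal.add_mem _ (h₁ R d' hd' g1 q1 hq1) (h₂ R d' hd' g2 q2 hq2)
  · rintro a x - ⟨Γ, h⟩
    refine ⟨Γ ∪ cf a ∪ cf x, fun R d' hd' hΓ q hq => ?_⟩
    simp only [Finset.coe_union, Set.union_subset_iff] at hΓ
    obtain ⟨⟨g1, g2⟩, g3⟩ := hΓ
    obtain ⟨q1, hq1⟩ := spr_lift R a (cf_mem g2)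
    obtain ⟨q2, hq2⟩ := spr_lift R x (cf_mem g3)
    have h3 : q = q1 * q2 := by
      apply spr_inj R
      rw [hq, Polynomial.map_mul, hq1, hq2, smul_eq_mul]
    rw [h3]
    exact Ideal.mul_mem_left _ _ (h R d' hd' g1 q2 hq2)

/-- the equations of the image -/
private theorem spr_onX [CharZero k] {d : GD L m} (hd : OkW ν d X) {R : Subalgebra k L} {d' : GD R m}
    (hd' : d'.map (R.val : R →+* L) = d) (hm : d'.h.Monic) (K : Type) [Field K] [Algebra k K]
    (S : R →ₐ[k] K) (θ : K) (hθ : θ ∈ d'.rts (S : R →+* K)) (x y : K)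
    (hxy : y ^ 2 = x ^ (2 * ν) + S d'.B * x ^ ν + S d'.α) {f : MvPolynomial (Fin (m + 1)) k}
    (hf : f ∈ X) : MvPolynomial.aeval ((d'.mp (S : R →+* K) θ).co x y) f = 0 := by
  obtain ⟨a, b, hab⟩ := exists_abW ν d' f
  let Ω : Type := AlgebraicClosure L
  have : CharZero L := charZero_of_injective_algebraMap (algebraMap k L).injective
  have : CharZero Ω := charZero_of_injective_algebraMap (algebraMap L Ω).injective
  let j : L →ₐ[k] Ω := IsScalarTower.toAlgHom k L Ω
  let S₀ : R →ₐ[k] Ω := j.comp R.val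
  have hS₀ : (S₀ : R →+* Ω) = (j : L →+* Ω).comp (R.val : R →+* L) := rfl
  have hα : d.α = (d'.α : L) := by rw [← hd']; rfl
  have hB : d.B = (d'.B : L) := by rw [← hd']; rfl
  -- all coefficients vanish at the roots
  have hroot : ∀ θ : Ω, (d'.h.map ((j : L →+* Ω).comp (R.val : R →+* L))).eval θ = 0 →
      a.map (Polynomial.eval₂RingHom (S₀ : R →+* Ω) θ) = 0 ∧
        b.map (Polynomial.eval₂RingHom (S₀ : R →+* Ω) θ) = 0 := by
    intro θ hθ
    refine abW_zero hd.pos (S₀ d'.B) (S₀ d'.α) _ _ fun x y hxy => ?_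
    have h1 := hab Ω S₀ θ x y hxy
    have h2 : θ ∈ d.rts (j : L →+* Ω) := by
      rw [← hd', rts_map, GD.rts, Multiset.mem_toFinset, Polynomial.mem_roots
        (hm.map _).ne_zero]
      exact hθ
    have h3 := hd.onX Ω j θ h2 x y (by rw [hα, hB]; exact hxy) f hf
    rw [← hd', mp_map, ← hS₀, h1] at h3
    exact h3
  have hsep : (d'.h.map (R.val : R →+* L)).Separable := by
    obtain ⟨u, w, huw⟩ := hd.sep
    have h1 : d'.h.map (R.val : R →+* L) = d.h := by rw [← hd']; rfl
    rw [h1]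
    exact ⟨u, w, huw⟩
  have hdvd : ∀ n, d'.h ∣ a.coeff n ∧ d'.h ∣ b.coeff n := by
    intro n
    constructor
    · refine dvd_of_roots (R.val : R →+* L) Subtype.val_injective (j : L →+* Ω) hm hsep
        fun θ hθ => ?_
      have h1 := congrArg (fun p => Polynomial.coeff p n) (hroot θ hθ).1
      simp only [Polynomial.coeff_map, Polynomial.coeff_zero, Polynomial.coe_eval₂RingHom] at h1
      rw [Polynomial.eval_map]
      exact h1
    · refine dvd_of_roots (R.val : R →+* L) Subtype.val_injective (j : L →+* Ω) hm hsep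
        fun θ hθ => ?_
      have h1 := congrArg (fun p => Polynomial.coeff p n) (hroot θ hθ).2
      simp only [Polynomial.coeff_map, Polynomial.coeff_zero, Polynomial.coe_eval₂RingHom] at h1
      rw [Polynomial.eval_map]
      exact h1
  have hθ0 : Polynomial.eval₂ (S : R →+* K) θ d'.h = 0 := by
    rw [GD.rts, Multiset.mem_toFinset, Polynomial.mem_roots (hm.map _).ne_zero,
      Polynomial.IsRoot.def, Polynomial.eval_map] at hθ
    exact hθ
  have hzero : ∀ c : R[X][X], (∀ n, d'.h ∣ c.coeff n) → ev2 (S : R →+* K) θ x c = 0 := by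
    intro c hc
    have h1 : c.map (Polynomial.eval₂RingHom (S : R →+* K) θ) = 0 := by
      ext n
      rw [Polynomial.coeff_map, Polynomial.coeff_zero]
      obtain ⟨e, he⟩ := hc n
      rw [he, map_mul]
      have h2 : (Polynomial.eval₂RingHom (S : R →+* K) θ) d'.h = 0 := hθ0
      rw [h2, zero_mul]
    unfold ev2
    rw [h1, Polynomial.eval_zero]
  rw [hab K S θ x y hxy, hzero a fun n => (hdvd n).1, hzero b fun n => (hdvd n).2, zero_mul,
    add_zero]

/-- The data over the function field come from data over the ring of functions which are regular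
at all places where the elements of a finite set `F` are regular: as `spread` in
`GT/Spread.lean` (with `α⁻¹` and `(B ² - 4 α)⁻¹` in the set `F`, and `exists_abW`; a polynomial `a + b y`
which vanishes on the curve `y ² = P(x)` over an algebraically closed field is zero: for `P(x) ≠ 0`
both square roots). -/
theorem spreadW [IsAlgClosed k] [CharZero k] {d : GD L m} (hd : OkW ν d X) (F₀ : Finset L) :
    ∃ F : Finset L, F₀ ⊆ F ∧ ∃ d' : GD (regU {c : Place k L | ∀ f ∈ F, f ∈ c.ring}) m,
      OkW ν d' X ∧ d'.map ((regU {c : Place k L | ∀ f ∈ F, f ∈ c.ring}).val :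
        regU {c : Place k L | ∀ f ∈ F, f ∈ c.ring} →+* L) = d := by
  obtain ⟨u, w, huw⟩ := hd.sep
  obtain ⟨Γ, hΓ⟩ := spr_ne (k := k) (d := d) 1 (by
    have h1 : Ideal.span (gens d) = ⊤ := hd.ne
    rw [h1]
    trivial)
  let F : Finset L := F₀ ∪ {d.α, d.B, d.α⁻¹, (d.B ^ 2 - 4 * d.α)⁻¹} ∪ cf d.h ∪
    (Finset.univ.biUnion fun i => cf2 (d.G i)) ∪ (Finset.univ.biUnion fun i => cf2 (d.H i)) ∪
    cf u ∪ cf w ∪ Γ
  have key : ∀ R : Subalgebra k L, ↑F ⊆ (R : Set L) → ∃ d' : GD R m, OkW ν d' X ∧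
      d'.map (R.val : R →+* L) = d := by
    intro R hR
    simp only [F, Finset.coe_union, Set.union_subset_iff] at hR
    obtain ⟨⟨⟨⟨⟨⟨⟨-, g0⟩, g1⟩, g2⟩, g3⟩, g4⟩, g5⟩, g6⟩ := hR
    have m1 : d.α ∈ R := g0 (by simp)
    have m2 : d.B ∈ R := g0 (by simp)
    have m3 : (d.B ^ 2 - 4 * d.α)⁻¹ ∈ R := g0 (by simp)
    have m4 : d.α⁻¹ ∈ R := g0 (by simp)
    obtain ⟨h', hh'⟩ := spr_lift R d.h (cf_mem g1)
    have hG : ∀ i, ∃ q : R[X][X], q.map (Polynomial.mapRingHom (R.val : R →+* L)) = d.G i :=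
      fun i => spr_lift2 R (d.G i) (cf2_mem fun z hz => g2 (by
        rw [Finset.mem_coe, Finset.mem_biUnion]
        exact ⟨i, Finset.mem_univ i, hz⟩))
    have hH : ∀ i, ∃ q : R[X][X], q.map (Polynomial.mapRingHom (R.val : R →+* L)) = d.H i :=
      fun i => spr_lift2 R (d.H i) (cf2_mem fun z hz => g3 (by
        rw [Finset.mem_coe, Finset.mem_biUnion]
        exact ⟨i, Finset.mem_univ i, hz⟩))
    choose G' hG' using hG
    choose H' hH' using hH
    obtain ⟨u', hu'⟩ := spr_lift R u (cf_mem g4)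
    obtain ⟨w', hw'⟩ := spr_lift R w (cf_mem g5)
    let d' : GD R m := ⟨⟨d.α, m1⟩, ⟨d.B, m2⟩, h', G', H'⟩
    have hd' : d'.map (R.val : R →+* L) = d := by
      have e1 : d'.map (R.val : R →+* L) = ⟨d.α, d.B, h'.map (R.val : R →+* L),
        fun i => (G' i).map (Polynomial.mapRingHom (R.val : R →+* L)),
        fun i => (H' i).map (Polynomial.mapRingHom (R.val : R →+* L))⟩ := rfl
      rw [e1, hh', funext hG', funext hH']
    have hm : d'.h.Monic := by
      have h1 : (h'.map (R.val : R →+* L)).Monic := by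
        rw [hh']
        exact hd.monic
      exact Polynomial.monic_of_injective Subtype.val_injective h1
    refine ⟨d', ⟨hd.pos, hm, ⟨u', w', ?_⟩, ?_, ?_, ?_, ?_⟩, hd'⟩
    · apply spr_inj R
      have e1 : d'.h = h' := rfl
      rw [e1, Polynomial.map_add, Polynomial.map_mul, Polynomial.map_mul, hu', hw', hh',
        ← Polynomial.derivative_map, hh', huw, Polynomial.map_one]
    · refine IsUnit.of_mul_eq_one ⟨d.α⁻¹, m4⟩ (Subtype.ext ?_)
      exact mul_inv_cancel₀ hd.unit.ne_zero
    · refine IsUnit.of_mul_eq_one ⟨(d.B ^ 2 - 4 * d.α)⁻¹, m3⟩ (Subtype.ext ?_)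
      exact mul_inv_cancel₀ hd.disc.ne_zero
    · rw [Ideal.eq_top_iff_one]
      exact hΓ R d' hd' g6 1 (Polynomial.map_one _)
    · intro K _ _ S θ hθ x y hxy f hf
      exact spr_onX hd hd' hm K S θ hθ x y hxy hf
  refine ⟨F, fun z hz => by simp [F, hz], ?_⟩
  exact key (regU {c : Place k L | ∀ f ∈ F, f ∈ c.ring}) fun f hf c hc => hc f hf


end Pool.Agent.GTM
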