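import Pool.Agent.GTM.Sys
import Pool.Agent.GTM.Spread
import Pool.Agent.GTM.GenW

/-!
# The data over an open set of good places
-/

set_option autoImplicit false

noncomputable section

namespace Pool.Agent.GTM

open Pool.Agent.ZCyc Pool.Agent.Dess Pool.Agent.GT Polynomial
open Pool.Agent.VFP (Om tt)
open scoped Classical LinearAlgebra.Projectivization

open Pool.Agent.TInc Pool.Agent.DK

variable {k L : Type} [Field k] [IsAlgClosed k] [CharZero k] [Field L] [Algebra k L] {m : ℕ}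
  {X : Set (MvPolynomial (Fin (m + 1)) k)} {ν a : ℕ}

/-- The data over the function field come from data over an open set of good places, and there is a
place outside of this set where `B ² / δ` has the value `4`. -/
theorem spread_good (hL : IsCurve k L) {d : GD L m} (hd : OkW ν d X) {A : Place k L →₀ ℤ}
    (hA : deg A = a) (hB : ∀ v, 0 ≤ ord v d.B + ν * A v)
    (hδ : ∀ v, 0 ≤ ord v d.α + 2 * ν * A v)
    (hJ : ∀ c : k, d.B ^ 2 ≠ algebraMap k L c * d.α) :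
    ∃ (F : Finset L) (d' : GD (regU {c : Place k L | ∀ f ∈ F, f ∈ c.ring}) m),
      OkW ν d' X ∧ d'.map ((regU {c : Place k L | ∀ f ∈ F, f ∈ c.ring}).val :
        regU {c : Place k L | ∀ f ∈ F, f ∈ c.ring} →+* L) = d ∧ (wcf d' A).Ok ν a ∧
      (∀ c ∈ {c : Place k L | ∀ f ∈ F, f ∈ c.ring}, (wcf d' A).Good c) ∧
      ∃ q₀ : Place k L, q₀.At ((d'.B : L) ^ 2 / (d'.α : L)) 4 ∧
        q₀ ∉ {c : Place k L | ∀ f ∈ F, f ∈ c.ring} := by
  have hα0 : d.α ≠ 0 := hd.unit.ne_zero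
  have hdisc : d.B ^ 2 - 4 * d.α ≠ 0 := hd.disc.ne_zero
  have hB0 : d.B ≠ 0 := by
    intro h
    apply hJ 0
    rw [h, map_zero, zero_mul, zero_pow two_ne_zero]
  obtain ⟨π, hπ⟩ : ∃ π : Place k L → L, ∀ v, IsUnif v (π v) :=
    ⟨fun v => (exists_unif hL v).choose, fun v => (exists_unif hL v).choose_spec⟩
  let F₀ : Finset L := {d.α, d.α⁻¹, d.B, d.B⁻¹, (d.B ^ 2 - 4 * d.α)⁻¹} ∪
    A.support.image fun v => (π v)⁻¹
  obtain ⟨F, hF₀, d', hd', hmap⟩ := spreadW hd F₀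
  have eα : (d'.α : L) = d.α := congrArg GD.α hmap
  have eB : (d'.B : L) = d.B := congrArg GD.B hmap
  have hmem : ∀ c : Place k L, (∀ f ∈ F, f ∈ c.ring) → d.α ∈ c.ring ∧ d.α⁻¹ ∈ c.ring ∧
      d.B ∈ c.ring ∧ d.B⁻¹ ∈ c.ring ∧ (d.B ^ 2 - 4 * d.α)⁻¹ ∈ c.ring ∧ A c = 0 := by
    intro c hc
    have h1 : ∀ f ∈ F₀, f ∈ c.ring := fun f hf => hc f (hF₀ hf)
    refine ⟨h1 _ (by simp [F₀]), h1 _ (by simp [F₀]), h1 _ (by simp [F₀]), h1 _ (by simp [F₀]),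
      h1 _ (by simp [F₀]), ?_⟩
    by_contra hDc
    have h2 : (π c)⁻¹ ∈ c.ring := h1 _ (Finset.mem_union_right _
      (Finset.mem_image_of_mem _ (Finsupp.mem_support_iff.2 hDc)))
    obtain ⟨h3, h4, -⟩ := hπ c
    rcases (c.vanishes_iff_or (π c)).1 h4 with h5 | h5
    · exact h3 h5
    · exact h5 h2
  obtain ⟨q₀, hq₀⟩ := exists_at_place hL (f := d.B ^ 2 / d.α) (fun c h => hJ c (by
    rw [← h, div_mul_cancel₀ _ hα0])) 4
  refine ⟨F, d', hd', hmap, ⟨?_, ?_, ?_, ?_, ?_, hA⟩, ?_, q₀, ?_, ?_⟩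
  · change (d'.B : L) ≠ 0
    rwa [eB]
  · change (d'.α : L) ≠ 0
    rwa [eα]
  · change (d'.B : L) ^ 2 - 4 * (d'.α : L) ≠ 0
    rwa [eα, eB]
  · intro v
    change 0 ≤ ord v (d'.B : L) + ν * A v
    rw [eB]
    exact hB v
  · intro v
    change 0 ≤ ord v (d'.α : L) + 2 * ν * A v
    rw [eα]
    exact hδ v
  · intro c hc
    obtain ⟨h1, h2, h3, h4, h5, h6⟩ := hmem c hc
    change ((d'.α : L) ∈ c.ring ∧ (d'.α : L)⁻¹ ∈ c.ring) ∧
      ((d'.B : L) ∈ c.ring ∧ (d'.B : L)⁻¹ ∈ c.ring) ∧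
      ((d'.B : L) ^ 2 - 4 * (d'.α : L))⁻¹ ∈ c.ring ∧ A c = 0
    rw [eα, eB]
    exact ⟨⟨h1, h2⟩, ⟨h3, h4⟩, h5, h6⟩
  · rw [eα, eB]
    exact hq₀
  · intro hc
    obtain ⟨h1, h2, h3, h4, h5, h6⟩ := hmem q₀ hc
    have e1 : d.B ^ 2 / d.α - algebraMap k L 4 = (d.B ^ 2 - 4 * d.α) / d.α := by
      rw [map_ofNat]
      field_simp
    have h7 : q₀.At (d.B ^ 2 / d.α - algebraMap k L 4) (4 - 4) :=
      hq₀.sub (Place.at_const (v := q₀) (4 : k))
    rw [sub_self, e1] at h7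
    obtain ⟨u, hu⟩ := Dess.exists_at hL q₀ (mul_mem h1 h5)
    have h8 := h7.mul hu
    have e2 : (d.B ^ 2 - 4 * d.α) / d.α * (d.α * (d.B ^ 2 - 4 * d.α)⁻¹) = 1 := by
      field_simp
    rw [e2, zero_mul] at h8
    have h9 := Place.at_const (v := q₀) (1 : k)
    rw [map_one] at h9
    exact one_ne_zero (h9.unique h8)

end Pool.Agent.GTM
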