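import Pool.Agent.GTM.MainA
import Pool.Agent.GTM.GenZ
import Pool.Agent.GTM.SprA

/-!
# The alternating sums of eigenvectors
-/

set_option autoImplicit false

noncomputable section

namespace Pool.Agent.GTM

open Pool.Agent.ZCyc Pool.Agent.Dess Pool.Agent.GT Polynomial
open Pool.Agent.VFP (Om tt)
open scoped Classical LinearAlgebra.Projectivization

open Pool.Agent.TInc

variable {k L : Type} [Field k] [IsAlgClosed k] [CharZero k] [Field L] [Algebra k L] {m : ℕ}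
  {X : Set (MvPolynomial (Fin (m + 1)) k)} {n ν a g : ℕ} {R : Type} [Field R] [CharZero R]

/-- The functions in `S` are, for every way to spread out the family, the classes of the limits of the
rotations of points. -/
def IsRot (hX : Hom X) (ν : ℕ) [NeZero ν] (ζ : k) (d : GD L m)
    (S : Set (ZMod ν → (Pt X k →₀ ℚ))) : Prop :=
  ∀ (U : Set (Place k L)) (d' : GD (regU U) m) (hd' : OkW ν d' X),
    d'.map ((regU U).val : regU U →+* L) = d → ∀ w ∈ S,
    ∃ (σ : L →ₐ[k] Om k) (v : Place k (Om k)) (x y : Om k),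
      y ^ 2 = x ^ (2 * ν) + σ d.B * x ^ ν + σ d.α ∧
      ∀ a, cl1 X (w a) = rotV hX hd' ζ σ v x y a

/-- Case (I). -/
theorem alt_I [NeZero ν] (hX : Hom X) (hL : IsCurve k L) {d : GD L m} (hd : OkW ν d X) {ζ : k}
    (hζ : IsPrimitiveRoot ζ ν) {A : Place k L →₀ ℤ} (hA : deg A = a) (ha : 0 < a)
    (hB : ∀ v, 0 ≤ ord v d.B + ν * A v) (hδ : ∀ v, 0 ≤ ord v d.α + 2 * ν * A v)
    (hJ : ∀ c : k, d.B ^ 2 ≠ algebraMap k L c * d.α) (hg : Riemann hL g) (hn0 : 0 < n)
    (hn : (ν - 1) * a + g ≤ n) {S : Set (ZMod ν → (Pt X k →₀ ℚ))} (hS : IsRot hX ν ζ d S)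
    {ω : R} (hω : ω ^ ν = 1) (hω1 : ω ≠ 1) (z : Fin n → (Pt X k →₀ R))
    (hz : ∀ j, z j ∈ Submodule.span R (eig ω '' S) ⊔ RatR1 R X) : altR z ∈ RatR R X (Fin n) := by
  obtain ⟨F, d', hd', hmap, hOk, hU, q₀, hq, hqU⟩ := spread_good hL hd hA hB hδ hJ
  have eα : (d'.α : L) = d.α := congrArg GD.α hmap
  have eB : (d'.B : L) = d.B := congrArg GD.B hmap
  refine altR_span hX (eig ω '' S) (fun z hz => ?_) z hz
  choose w hw hzw using hz
  have e1 : z = fun j => eig ω (w j) := funext fun j => (hzw j).symm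
  rw [e1]
  refine alt_eig hX hω hω1 (Pi.single 0 1) ?_ w ?_
  · rw [Finset.sum_eq_single 0]
    · simp
    · intro i _ hi
      rw [Pi.single_eq_of_ne hi, map_zero, zero_mul]
    · intro h
      exact absurd (Finset.mem_univ _) h
  · rw [lcs_single]
    choose σ v x y hxy hcl using fun j => hS _ d' hd' hmap (w j) (hw j)
    have e2 : (fun j a => cl1 X (w j a)) = fun j => rotV hX hd' ζ (σ j) (v j) (x j) (y j) :=
      funext fun j => funext fun a => hcl j a
    rw [e2]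
    refine dcv_zero_all hX hL hd' hζ.pow_eq_one F (fun c hc => hc) (d.B ^ 2 / d.α) ?_ ?_ σ v x y
      (fun j => by rw [eα, eB]; exact hxy j)
    · intro c h
      apply hJ c
      rw [← h, div_mul_cancel₀ _ hd.unit.ne_zero]
    · intro c hc hJ' x y hx hxy
      exact gen_I hX hL hd' hζ hOk ha hU hq hqU hg hn0 hn c hc (by rw [eα, eB]; exact hJ') x y hx
        hxy

/-- Case (II). -/
theorem alt_II {μ : ℕ} [NeZero μ] (hX : Hom X) (hL : IsCurve k L) {d : GD L m}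
    (hd : OkW (2 * μ) d X) {ζ : k} (hζ : IsPrimitiveRoot ζ (2 * μ)) {A : Place k L →₀ ℤ}
    (hA : deg A = a) (ha : 0 < a) (hB : ∀ v, 0 ≤ ord v d.B + (2 * μ : ℕ) * A v)
    (hδ : ∀ v, 0 ≤ ord v d.α + 2 * (2 * μ : ℕ) * A v)
    (hJ : ∀ c : k, d.B ^ 2 ≠ algebraMap k L c * d.α) (hg : Riemann hL g) (hn0 : 0 < n)
    {f : L} (hf : f ^ μ = d.α) (hn : (μ - 2) * a + g ≤ n)
    {S : Set (ZMod (2 * μ) → (Pt X k →₀ ℚ))} (hS : IsRot hX (2 * μ) ζ d S)
    {ω : R} (hω : ω ^ μ = (-1) ^ μ) (hω3 : ω ^ 2 ≠ 1) (z : Fin n → (Pt X k →₀ R))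
    (hz : ∀ j, z j ∈ Submodule.span R (eig ω '' S) ⊔ RatR1 R X) : altR z ∈ RatR R X (Fin n) := by
  obtain ⟨F, d', hd', hmap, hOk, hU, q₀, hq, hqU⟩ := spread_good hL hd hA hB hδ hJ
  have eα : (d'.α : L) = d.α := congrArg GD.α hmap
  have eB : (d'.B : L) = d.B := congrArg GD.B hmap
  have hω2 : ω ^ (2 * μ) = 1 := by
    rw [mul_comm, pow_mul, hω, ← pow_mul, mul_comm, pow_mul, neg_one_sq, one_pow]
  have hω1 : ω ≠ 1 := by
    rintro rfl
    exact hω3 (one_pow _)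
  refine altR_span hX (eig ω '' S) (fun z hz => ?_) z hz
  choose w hw hzw using hz
  have e1 : z = fun j => eig ω (w j) := funext fun j => (hzw j).symm
  rw [e1]
  refine alt_eig hX hω2 hω1 (cII μ) ?_ w ?_
  · rw [cII_ev hω hω3]
    exact one_ne_zero
  · choose σ v x y hxy hcl using fun j => hS _ d' hd' hmap (w j) (hw j)
    have e2 : (fun j a => cl1 X (w j a)) = fun j => rotV hX hd' ζ (σ j) (v j) (x j) (y j) :=
      funext fun j => funext fun a => hcl j a
    rw [e2]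
    refine lcs_zero_all hX hL hd' hζ.pow_eq_one F (fun c hc => hc) (d.B ^ 2 / d.α) ?_ (cII μ) ?_
      σ v x y (fun j => by rw [eα, eB]; exact hxy j)
    · intro c h
      apply hJ c
      rw [← h, div_mul_cancel₀ _ hd.unit.ne_zero]
    · intro c hc hJ' x y hx hxy
      exact gen_II hX hL hd' hζ hOk ha hU hq hqU hg hn0 (by rw [eα]; exact hf) hn c hc
        (by rw [eα, eB]; exact hJ') x y hx hxy

end Pool.Agent.GTM
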