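import Pool.Agent.GTM.Sys
import Pool.Agent.GT.MovA

/-!
# Moving to general points
-/

set_option autoImplicit false

noncomputable section

namespace Pool.Agent.GTM

open Pool.Agent.ZCyc Pool.Agent.Dess Pool.Agent.GT Polynomial
open Pool.Agent.VFP (Om tt)
open scoped Classical LinearAlgebra.Projectivization

open Pool.Agent.TInc Pool.Agent.DK

variable {k L : Type} [Field k] [IsAlgClosed k] [CharZero k] [Field L] [Algebra k L] {m : ℕ}
  {X : Set (MvPolynomial (Fin (m + 1)) k)} {U : Set (Place k L)} {n ν : ℕ} [NeZero ν]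

/-- the classes of the rotations of the point `(x, y)` over `k` -/
def rotK (hX : Hom X) {d : GD (regU U) m} (hd : OkW ν d X) (hL : IsCurve k L) (ζ : k) (c : U)
    (x y : k) (a : ZMod ν) : CH X Unit :=
  TK hX hd (evk hL c) (ζ ^ a.val * x) y

/-- the classes of the limits of the rotations of the point `(x, y)` over `Om k` -/
def rotV (hX : Hom X) {d : GD (regU U) m} (hd : OkW ν d X) (ζ : k) (σ : L →ₐ[k] Om k)
    (v : Place k (Om k)) (x y : Om k) (a : ZMod ν) : CH X Unit :=
  TV hX hd (σ.comp (regU U).val) v (algebraMap k (Om k) ζ ^ a.val * x) y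

omit [NeZero ν] in
/-- the rotated point is on the curve -/
private theorem mw_rot {K : Type} [Field K] {ζ x y B δ : K} (hζ : ζ ^ ν = 1)
    (h : y ^ 2 = x ^ (2 * ν) + B * x ^ ν + δ) (a : ℕ) :
    y ^ 2 = (ζ ^ a * x) ^ (2 * ν) + B * (ζ ^ a * x) ^ ν + δ := by
  have h1 : (ζ ^ a) ^ ν = 1 := by rw [← pow_mul, mul_comm, pow_mul, hζ, one_pow]
  rw [mul_pow, mul_pow, mul_comm 2 ν, pow_mul, h1, one_pow, one_mul, one_mul, mul_comm ν 2]
  exact h

/-- Moving one factor, for linear combinations of shifts: `dcv_moving` for the cycles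
`∑ i, c₀ i • z (a + i)`. -/
theorem lcs_moving (hX : Hom X) (c₀ : ZMod ν → ℚ) (w : Fin n → ZMod ν → CH X Unit) (j : Fin n)
    (z : ZMod ν → (Pt X (Om k) →₀ ℚ)) (Γ : Finset (Om k)) (hΓ : (0 : Om k) ∉ Γ)
    (h : ∀ v : Place k (Om k), (∀ g ∈ Γ, g ∈ v.ring ∧ g⁻¹ ∈ v.ring) →
      lcs c₀ (dcv (Alt (Ext hX n)) (Function.update w j fun a => lim1 hX v (z a))) = 0)
    (v : Place k (Om k)) :
    lcs c₀ (dcv (Alt (Ext hX n)) (Function.update w j fun a => lim1 hX v (z a))) = 0 := by
  have key : ∀ v : Place k (Om k),
      lcs c₀ (dcv (Alt (Ext hX n)) (Function.update w j fun a => lim1 hX v (z a))) =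
        dcv (Alt (Ext hX n)) (Function.update w j fun a =>
          lim1 hX v (∑ i, c₀ i • z (a + i))) := by
    intro v
    rw [← dcv_lcs (Alt (Ext hX n)) c₀ (Function.update w j fun a => lim1 hX v (z a)) j,
      Function.update_idem, Function.update_self]
    congr 2
    funext a
    rw [map_sum, lcs_apply]
    refine Finset.sum_congr rfl fun i _ => ?_
    rw [map_smul]
  rw [key]
  refine dcv_moving hX w j (fun a => ∑ i, c₀ i • z (a + i)) Γ hΓ (fun v hv => ?_) v
  rw [← key]
  exact h v hv

/-- All tuples of limits, for linear combinations of shifts. Suppose that `lcs c₀ (dcv ..)` is zero for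
all points with `x ≠ 0` over different places `c j ∈ U` with different values of `J`. Then it is zero
for all limits of points.
Proof as for `alt_zero_all` (`GT/MovA.lean`): by induction on the number of factors which are not
yet points over general places: move one of them (`dcv_moving`, `exists_cycle` for every `a`,
`almost_all`); for almost all `v` it is a point over a general place (`TV_eq_TK`, `over_ev`); the
coordinates have values and `x` has a value `≠ 0` if `x` and `y` are units or zero (put `x`, `y` in `Γ` if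
they are not zero). If `x = 0` then `rotV` is constant and `dcv_const` applies. -/
theorem lcs_zero_all (hX : Hom X) (hL : IsCurve k L) {d : GD (regU U) m} (hd : OkW ν d X)
    {ζ : k} (hζ : ζ ^ ν = 1) (F : Finset L)
    (hU : ∀ c : Place k L, (∀ f ∈ F, f ∈ c.ring) → c ∈ U) (J : L)
    (hJ : ∀ a : k, J ≠ algebraMap k L a) (c₀ : ZMod ν → ℚ)
    (h : ∀ c : Fin n → U, Function.Injective c →
      (∀ j j', j ≠ j' → val (c j).1 J ≠ val (c j').1 J) → ∀ x y : Fin n → k,
      (∀ j, x j ≠ 0) →
      (∀ j, y j ^ 2 = x j ^ (2 * ν) + evk hL (c j) d.B * x j ^ ν + evk hL (c j) d.α) →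
        lcs c₀ (dcv (Alt (Ext hX n)) (fun j => rotK hX hd hL ζ (c j) (x j) (y j))) = 0)
    (σ : Fin n → L →ₐ[k] Om k) (v : Fin n → Place k (Om k)) (x y : Fin n → Om k)
    (hxy : ∀ j, y j ^ 2 = x j ^ (2 * ν) + σ j (d.B : L) * x j ^ ν + σ j (d.α : L)) :
    lcs c₀ (dcv (Alt (Ext hX n)) (fun j => rotV hX hd ζ (σ j) (v j) (x j) (y j))) = 0 := by
  have hζ' : algebraMap k (Om k) ζ ^ ν = 1 := by rw [← map_pow, hζ, map_one]
  -- the induction
  have key : ∀ (r : ℕ) (A : Finset (Fin n)), (Finset.univ \ A).card = r →
      ∀ q : Fin n → Place k L, (∀ j ∈ A, ∀ j' ∈ A, j ≠ j' → q j ≠ q j') →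
      (∀ j ∈ A, ∀ j' ∈ A, j ≠ j' → val (q j) J ≠ val (q j') J) →
      ∀ w : Fin n → ZMod ν → CH X Unit,
      (∀ j ∈ A, ∃ (hq : q j ∈ U) (x y : k), x ≠ 0 ∧
          y ^ 2 = x ^ (2 * ν) + evk hL ⟨q j, hq⟩ d.B * x ^ ν + evk hL ⟨q j, hq⟩ d.α ∧
          w j = rotK hX hd hL ζ ⟨q j, hq⟩ x y) →
      (∀ j, j ∉ A → ∃ (σ : L →ₐ[k] Om k) (v : Place k (Om k)) (x y : Om k),
          y ^ 2 = x ^ (2 * ν) + σ (d.B : L) * x ^ ν + σ (d.α : L) ∧
          w j = rotV hX hd ζ σ v x y) → lcs c₀ (dcv (Alt (Ext hX n)) w) = 0 := by
    intro r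
    induction r with
    | zero =>
      intro A hA q hq hJ w hw _
      have hA' : ∀ j, j ∈ A := by
        intro j
        by_contra hj
        rw [Finset.card_eq_zero] at hA
        have h1 : j ∈ Finset.univ \ A := Finset.mem_sdiff.2 ⟨Finset.mem_univ _, hj⟩
        rw [hA] at h1
        exact absurd h1 (Finset.notMem_empty _)
      choose hqU x y hx hxy hp using fun j => hw j (hA' j)
      have h1 := h (fun j => ⟨q j, hqU j⟩) (fun j j' hjj => by
        by_contra hne
        exact hq j (hA' j) j' (hA' j') hne (congrArg Subtype.val hjj))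
        (fun j j' hne => hJ j (hA' j) j' (hA' j') hne) x y hx hxy
      have h2 : w = fun j => rotK hX hd hL ζ ⟨q j, hqU j⟩ (x j) (y j) := funext hp
      rw [h2]
      exact h1
    | succ r ih =>
      intro A hA q hq hJ' w hw hw'
      have hne : (Finset.univ \ A).Nonempty := by
        rw [← Finset.card_pos, hA]
        exact Nat.succ_pos r
      obtain ⟨j₀, hj₀⟩ := hne
      have hj₀A : j₀ ∉ A := (Finset.mem_sdiff.1 hj₀).2
      obtain ⟨σ, v, x, y, hxy, hP⟩ := hw' j₀ hj₀A
      by_cases hx0 : x = 0
      · have h1 : dcv (Alt (Ext hX n)) w = 0 := by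
          refine dcv_const _ w j₀ fun a b => ?_
          rw [hP]
          unfold rotV
          rw [hx0, mul_zero, mul_zero]
        rw [h1, map_zero]
      choose z hz using fun a : ZMod ν => exists_cycle hX hd (σ.comp (regU U).val)
        (algebraMap k (Om k) ζ ^ a.val * x) y
      obtain ⟨Γ, hΓ, hall⟩ := almost_all hL F hU σ (A.image q) hJ (A.image fun j => val (q j) J)
      have hmain := lcs_moving hX c₀ w j₀ z (Γ ∪ ({x} ∪ ({y} : Finset (Om k)).erase 0)) (by
          simp only [Finset.mem_union, Finset.mem_singleton, Finset.mem_erase, not_or]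
          exact ⟨hΓ, fun h => hx0 h.symm, fun h => h.1 rfl⟩) (fun v' hv' => by
        obtain ⟨c, hc, hcU, hcT, hcV⟩ := hall v' fun g hg => hv' g (Finset.mem_union_left _ hg)
        have hval : ∀ a : regU U, v'.At ((σ.comp (regU U).val) a) (evk hL ⟨c, hcU⟩ a) :=
          fun a => over_ev hL (S := Sum.inl σ) (c := ⟨c, hcU⟩) hc a
        -- the values of the coordinates
        have hxu := hv' x (Finset.mem_union_right _ (Finset.mem_union_left _
          (Finset.mem_singleton_self x)))
        obtain ⟨x₀, hx₀⟩ := HasRes.res (k := k) v' x hxu.1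
        obtain ⟨x₁, hx₁⟩ := HasRes.res (k := k) v' x⁻¹ hxu.2
        have hx₀0 : x₀ ≠ 0 := by
          rintro rfl
          have h1 := hx₀.mul hx₁
          rw [mul_inv_cancel₀ hx0, zero_mul] at h1
          have h2 : v'.At (1 : Om k) (1 : k) := by
            have := Place.at_const (v := v') (1 : k)
            rwa [map_one] at this
          exact zero_ne_one (h1.unique h2)
        obtain ⟨y₀, hy₀⟩ : ∃ y₀ : k, v'.At y y₀ := by
          by_cases hy0 : y = 0
          · refine ⟨0, ?_⟩
            rw [hy0]
            have := Place.at_const (v := v') (0 : k)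
            rwa [map_zero] at this
          · exact HasRes.res (k := k) v' y (hv' y (Finset.mem_union_right _
              (Finset.mem_union_right _ (Finset.mem_erase.2
                ⟨hy0, Finset.mem_singleton_self y⟩)))).1
        have hxy₀ : y₀ ^ 2 = x₀ ^ (2 * ν) + evk hL ⟨c, hcU⟩ d.B * x₀ ^ ν +
            evk hL ⟨c, hcU⟩ d.α := by
          have h1 := hy₀.pow 2
          have h2 := ((hx₀.pow (2 * ν)).add ((hval d.B).mul (hx₀.pow ν))).add (hval d.α)
          have h3 : y ^ 2 = x ^ (2 * ν) + (σ.comp (regU U).val) d.B * x ^ ν +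
              (σ.comp (regU U).val) d.α := hxy
          rw [h3] at h1
          exact h1.unique h2
        have hTV : ∀ a : ZMod ν, lim1 hX v' (z a) = rotK hX hd hL ζ ⟨c, hcU⟩ x₀ y₀ a := by
          intro a
          rw [hz a v']
          unfold rotK
          refine TV_eq_TK hX hd hval ?_ hy₀ ?_
          · exact ((Place.at_const ζ).pow a.val).mul hx₀
          · exact mw_rot hζ' hxy a.val
        have hwj : (fun a => lim1 hX v' (z a)) = rotK hX hd hL ζ ⟨c, hcU⟩ x₀ y₀ := funext hTV
        refine ih (insert j₀ A) ?_ (Function.update q j₀ c) ?_ ?_ _ ?_ ?_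
        · have h1 : Finset.univ \ A = insert j₀ (Finset.univ \ insert j₀ A) := by
            ext i
            simp only [Finset.mem_sdiff, Finset.mem_univ, true_and, Finset.mem_insert, not_or]
            constructor
            · intro hi
              by_cases hij : i = j₀
              · exact Or.inl hij
              · exact Or.inr ⟨hij, hi⟩
            · rintro (rfl | ⟨-, hi⟩)
              · exact hj₀A
              · exact hi
          rw [h1, Finset.card_insert_of_notMem (by simp)] at hA
          exact Nat.succ_injective hA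
        · intro j hj j' hj' hjj
          rcases Finset.mem_insert.1 hj with rfl | hjA <;>
            rcases Finset.mem_insert.1 hj' with rfl | hjA'
          · exact absurd rfl hjj
          · rw [Function.update_self, Function.update_of_ne (Ne.symm hjj)]
            intro h0
            exact hcT (Finset.mem_image.2 ⟨j', hjA', h0.symm⟩)
          · rw [Function.update_self, Function.update_of_ne hjj]
            intro h0
            exact hcT (Finset.mem_image.2 ⟨j, hjA, h0⟩)
          · have h1 : j ≠ j₀ := fun h => hj₀A (h ▸ hjA)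
            have h2 : j' ≠ j₀ := fun h => hj₀A (h ▸ hjA')
            rw [Function.update_of_ne h1, Function.update_of_ne h2]
            exact hq j hjA j' hjA' hjj
        · intro j hj j' hj' hjj
          rcases Finset.mem_insert.1 hj with rfl | hjA <;>
            rcases Finset.mem_insert.1 hj' with rfl | hjA'
          · exact absurd rfl hjj
          · rw [Function.update_self, Function.update_of_ne (Ne.symm hjj)]
            intro h0
            exact hcV (Finset.mem_image.2 ⟨j', hjA', h0.symm⟩)
          · rw [Function.update_self, Function.update_of_ne hjj]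
            intro h0
            exact hcV (Finset.mem_image.2 ⟨j, hjA, h0⟩)
          · have h1 : j ≠ j₀ := fun h => hj₀A (h ▸ hjA)
            have h2 : j' ≠ j₀ := fun h => hj₀A (h ▸ hjA')
            rw [Function.update_of_ne h1, Function.update_of_ne h2]
            exact hJ' j hjA j' hjA' hjj
        · intro j hj
          rcases Finset.mem_insert.1 hj with rfl | hjA
          · rw [Function.update_self, Function.update_self]
            exact ⟨hcU, x₀, y₀, hx₀0, hxy₀, hwj⟩
          · have h1 : j ≠ j₀ := fun h => hj₀A (h ▸ hjA)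
            rw [Function.update_of_ne h1, Function.update_of_ne h1]
            exact hw j hjA
        · intro j hj
          have h1 : j ≠ j₀ := fun h => hj (h ▸ Finset.mem_insert_self _ _)
          rw [Function.update_of_ne h1]
          exact hw' j fun h => hj (Finset.mem_insert_of_mem h)) v
      have hzw : (fun a => lim1 hX v (z a)) = w j₀ := by
        rw [hP]
        funext a
        exact hz a v
      rw [hzw, Function.update_eq_self] at hmain
      exact hmain
  obtain ⟨c₀, -⟩ : ∃ c : Fin n → Place k L, True := by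
    refine ⟨fun j => (exists_below hL (v j) (σ j)).choose, trivial⟩
  exact key _ ∅ rfl c₀ (fun j hj => absurd hj (Finset.notMem_empty _))
    (fun j hj => absurd hj (Finset.notMem_empty _)) _
    (fun j hj => absurd hj (Finset.notMem_empty _)) fun j _ =>
      ⟨σ j, v j, x j, y j, hxy j, rfl⟩

/-- All tuples of limits. Suppose that `dcv` is zero for all points with `x ≠ 0` over different places
`c j ∈ U` with different values of `J`. Then it is zero for all limits of points. (`lcs_zero_all` with
the coefficients of the identity.) -/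
theorem dcv_zero_all (hX : Hom X) (hL : IsCurve k L) {d : GD (regU U) m} (hd : OkW ν d X)
    {ζ : k} (hζ : ζ ^ ν = 1) (F : Finset L)
    (hU : ∀ c : Place k L, (∀ f ∈ F, f ∈ c.ring) → c ∈ U) (J : L)
    (hJ : ∀ a : k, J ≠ algebraMap k L a)
    (h : ∀ c : Fin n → U, Function.Injective c →
      (∀ j j', j ≠ j' → val (c j).1 J ≠ val (c j').1 J) → ∀ x y : Fin n → k,
      (∀ j, x j ≠ 0) →
      (∀ j, y j ^ 2 = x j ^ (2 * ν) + evk hL (c j) d.B * x j ^ ν + evk hL (c j) d.α) →
        dcv (Alt (Ext hX n)) (fun j => rotK hX hd hL ζ (c j) (x j) (y j)) = 0)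
    (σ : Fin n → L →ₐ[k] Om k) (v : Fin n → Place k (Om k)) (x y : Fin n → Om k)
    (hxy : ∀ j, y j ^ 2 = x j ^ (2 * ν) + σ j (d.B : L) * x j ^ ν + σ j (d.α : L)) :
    dcv (Alt (Ext hX n)) (fun j => rotV hX hd ζ (σ j) (v j) (x j) (y j)) = 0 := by
  have h1 := lcs_zero_all hX hL hd hζ F hU J hJ (Pi.single 0 1)
    (fun c hc hcJ x y hx hy => by rw [lcs_single]; exact h c hc hcJ x y hx hy) σ v x y hxy
  rwa [lcs_single] at h1

end Pool.Agent.GTM
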