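import Pool.Agent.GTM.PenA

/-!
# Pencils of lines
-/

set_option autoImplicit false

noncomputable section

namespace Pool.Agent.GTM

open Pool.Agent.ZCyc Pool.Agent.Dess Pool.Agent.GT Polynomial
open Pool.Agent.VFP (Om tt)
open scoped Classical LinearAlgebra.Projectivization

variable {k : Type} [Field k] [IsAlgClosed k] [CharZero k] {m : ℕ} {d : ℕ}
  {X : Set (MvPolynomial (Fin (m + 1)) k)}

/-- a square `(a + b t) ²` is a constant only if it is `a ²` -/
private theorem pen_lead {a b p : k} (h : a ^ 2 ≠ p) :
    (algebraMap k (Om k) a + tt k * algebraMap k (Om k) b) ^ 2 ≠ algebraMap k (Om k) p := by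
  intro h0
  have ht : Transcendental k (tt k) := Pool.Agent.VFP.tt_transc (k := k)
  rw [transcendental_iff] at ht
  have h1 := ht ((C a + Polynomial.X * C b) ^ 2 - C p) (by
    simp only [map_sub, map_pow, map_add, map_mul, aeval_C, aeval_X]
    rw [h0, sub_self])
  have h2 := congrArg (fun q : k[X] => q.eval 0) h1
  simp only [eval_sub, eval_pow, eval_add, eval_mul, eval_C, eval_X, zero_mul, add_zero,
    eval_zero] at h2
  exact h (sub_eq_zero.1 h2)

/-- the pencil of lines over `Om k` -/
private theorem pen_ln {P g g' e s R : k[X]} (h : Ln d P g e R) (h' : g'.natDegree ≤ d)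
    (hs : g' - g = e * s) :
    Ln d (P.map (algebraMap k (Om k)))
      (g.map (algebraMap k (Om k)) + C (tt k) * (g' - g).map (algebraMap k (Om k)))
      (e.map (algebraMap k (Om k)))
      (R.map (algebraMap k (Om k)) + C (tt k) * (2 * g * s).map (algebraMap k (Om k)) +
        C (tt k) ^ 2 * (e * s ^ 2).map (algebraMap k (Om k))) where
  deg := by
    refine (natDegree_add_le _ _).trans (max_le ?_ ?_)
    · exact (natDegree_map_le).trans h.deg
    · refine (natDegree_C_mul_le _ _).trans (natDegree_map_le.trans ?_)
      exact (natDegree_sub_le _ _).trans (max_le h' h.deg)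
  lead := by
    rw [coeff_add, coeff_C_mul, coeff_map, coeff_map, coeff_map]
    exact pen_lead h.lead
  eq := by
    have h1 := congrArg (Polynomial.map (algebraMap k (Om k))) h.eq
    rw [hs]
    simp only [Polynomial.map_sub, Polynomial.map_mul, Polynomial.map_pow,
      Polynomial.map_ofNat] at h1 ⊢
    linear_combination h1

private theorem pen_natDegree {e R : k[X]} (he : e.Monic) (h : (e * R).natDegree = 2 * d)
    (hd : 0 < d) : e.natDegree + R.natDegree = 2 * d := by
  have hR : R ≠ 0 := by
    rintro rfl
    rw [mul_zero, natDegree_zero] at h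
    omega
  rw [← h, he.natDegree_mul' hR]

private theorem pen_natDegree' {e R : (Om k)[X]} (he : e.Monic)
    (h : (e * R).natDegree = 2 * d) (hd : 0 < d) : e.natDegree + R.natDegree = 2 * d := by
  have hR : R ≠ 0 := by
    rintro rfl
    rw [mul_zero, natDegree_zero] at h
    omega
  rw [← h, he.natDegree_mul' hR]

/-- The pencil `g + t (g' - g)`: the classes of the sums over the points of the two lines are equal
(`e` is the polynomial of the fixed points).
Proof. `g' - g = e s`. Over `Om k`, `T = tt k`: `G = g + T (g' - g)`, `G ² - P = e R_T` with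
`R_T = R + 2 T g s + T ² e s ²`. The coefficient of `G ² - P` of degree `2 d` is the value at `T` of a
polynomial which is not zero at `T = 0` (`lead`), so it is not zero; `e` is monic, so the degree of
`R_T` is `2 d - deg e`, like the degrees of `R` and `R'` (`Ln.natDegree`). At a place where `T` has the
value `0` the polynomials `G`, `R_T` have the values `g`, `R`, and for `T = 1` the values `g'` and
`R'` (because `e R_1 = g' ² - P = e R'`). By `lim_LR` (with `OkH.map`) the limits of the cycle
`LR G R_T` at these places are the two classes. Use `bridge` (`GT/Mov.lean`) for `ι = Unit` and the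
cycle `Finsupp.lmapDomain ℚ ℚ (fun x _ => x)` of it (`lim1`). -/
theorem pencil (hX : Hom X) {P : k[X]} {N : Mp k m} (hN : OkH d P N X) {e g g' R R' : k[X]}
    (he : e.Monic) (h : Ln d P g e R) (h' : Ln d P g' e R') (hdiv : e ∣ g' - g)
    (hc : Clean N g R) (hc' : Clean N g' R') :
    cl1 X (LR hX hN g R) = cl1 X (LR hX hN g' R') := by
  obtain ⟨s, hs⟩ := hdiv
  have hL := pen_ln h h'.deg hs
  set G : (Om k)[X] := g.map (algebraMap k (Om k)) + C (tt k) *
    (g' - g).map (algebraMap k (Om k)) with hG
  set RT : (Om k)[X] := R.map (algebraMap k (Om k)) + C (tt k) *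
    (2 * g * s).map (algebraMap k (Om k)) +
      C (tt k) ^ 2 * (e * s ^ 2).map (algebraMap k (Om k)) with hRT
  have hN' := hN.map
  have hNv : ∀ V : Place k (Om k), MpAt V (N.map (algebraMap k (Om k))) N :=
    fun V i => ⟨PolAt.map _, PolAt.map _⟩
  have heM : (e.map (algebraMap k (Om k))).Monic := he.map _
  have d1 := pen_natDegree he (h.natDegree hN.pos hN.deg) hN.pos
  have d2 := pen_natDegree he (h'.natDegree hN.pos hN.deg) hN.pos
  have d3 := pen_natDegree' heM (hL.natDegree hN'.pos hN'.deg) hN.pos
  rw [natDegree_map] at d3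
  have hR' : R + (2 * g * s) + e * s ^ 2 = R' := by
    have h1 : e * (R + (2 * g * s) + e * s ^ 2) = e * R' := by
      rw [← h'.eq]
      have h2 : g' = g + e * s := by rw [← hs]; ring
      rw [h2]
      linear_combination -h.eq
    exact mul_left_cancel₀ he.ne_zero h1
  refine bridge hX (Finsupp.lmapDomain ℚ ℚ (fun x _ => x) (LR hX hN' G RT)) (c₀ := 0) (c₁ := 1)
    ?_ ?_
  · intro V hV
    have hg : PolAt V G g := by
      have h1 := (PolAt.map (v := V) g).add ((PolAt.c hV).mul (PolAt.map (v := V) (g' - g)))
      rw [C_0, zero_mul, add_zero] at h1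
      exact h1
    have hR : PolAt V RT R := by
      have h1 := ((PolAt.map (v := V) R).add
        ((PolAt.c hV).mul (PolAt.map (v := V) (2 * g * s)))).add
          (((PolAt.c hV).pow 2).mul (PolAt.map (v := V) (e * s ^ 2)))
      rw [C_0, zero_mul, add_zero, zero_pow two_ne_zero, zero_mul, add_zero] at h1
      exact h1
    exact (lim_LR hX hN' hN (hNv V) hL h hg hR (by omega) hc).2
  · intro V hV
    have hg : PolAt V G g' := by
      have h1 := (PolAt.map (v := V) g).add ((PolAt.c hV).mul (PolAt.map (v := V) (g' - g)))
      rw [C_1, one_mul, add_sub_cancel] at h1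
      exact h1
    have hR : PolAt V RT R' := by
      have h1 := ((PolAt.map (v := V) R).add
        ((PolAt.c hV).mul (PolAt.map (v := V) (2 * g * s)))).add
          (((PolAt.c hV).pow 2).mul (PolAt.map (v := V) (e * s ^ 2)))
      rw [C_1, one_mul, one_pow, one_mul, hR'] at h1
      exact h1
    exact (lim_LR hX hN' hN (hNv V) hL h' hg hR (by omega) hc').2

end Pool.Agent.GTM
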