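import Pool.Agent.GTM.Root

/-!
# Reduction of the roots of a polynomial
-/

set_option autoImplicit false

noncomputable section

namespace Pool.Agent.GTM

open Pool.Agent.ZCyc Pool.Agent.Dess Pool.Agent.GT Polynomial
open Pool.Agent.VFP (Om tt)
open scoped Classical LinearAlgebra.Projectivization

variable {k : Type} [Field k] [IsAlgClosed k] [CharZero k] {v : Place k (Om k)}

private theorem rootb_zero {x : k} (h : v.At (0 : Om k) x) : x = 0 := by
  have h2 := Place.at_const (v := v) (0 : k)
  rw [map_zero] at h2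
  exact Place.At.unique h h2

private theorem rootb_cons {α : Type} {n : ℕ} (a : α) (w : Fin n → α) :
    Finset.univ.val.map (Fin.cons a w : Fin (n + 1) → α) = a ::ₘ Finset.univ.val.map w := by
  rw [Fin.univ_val_map, Fin.univ_val_map, List.ofFn_succ]
  rfl

private theorem rootb_mem {R : (Om k)[X]} {R₀ : k[X]} (h : PolAt v R R₀) (hR : R₀ ≠ 0)
    (hdeg : R.natDegree = R₀.natDegree) {u : Om k} (hu : R.IsRoot u) : u ∈ v.ring := by
  by_contra hmem
  have hu0 : u ≠ 0 := by
    rintro rfl
    exact hmem v.ring.zero_mem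
  have h1 : v.At u⁻¹ 0 := by
    rw [Place.at_zero_iff, Place.vanishes_iff_or, inv_inv]
    exact Or.inr hmem
  have h2 : PolAt v R.reverse R₀.reverse := by
    intro n
    rw [coeff_reverse, coeff_reverse, hdeg]
    exact h _
  have h3 := h2.eval h1
  have h4 : R.reverse.eval u⁻¹ = 0 := by
    have : Invertible u := invertibleOfNonzero hu0
    have h5 := eval₂_reverse_mul_pow (RingHom.id (Om k)) u R
    have h6 : eval₂ (RingHom.id (Om k)) u R = 0 := hu
    rw [h6, invOf_eq_inv] at h5
    exact (mul_eq_zero.1 h5).resolve_right (pow_ne_zero _ hu0)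
  rw [h4, ← coeff_zero_eq_eval_zero, coeff_zero_reverse] at h3
  exact hR (leadingCoeff_eq_zero.1 (rootb_zero h3))

/-- The roots of a polynomial tend to the roots of its value, if the degrees are the same. Proof by
induction on the degree: let `u` be a root of `R` (`Om k` is algebraically closed), `u` is in the
valuation ring because the leading coefficient is a unit there (the valuation ring is integrally
closed), let `u₀` be its value (`DCI57.exists_at`), a root of `R₀`. `R = (x - u) R'`,
`R₀ = (x - u₀) R₀'` and `R'` has the value `R₀'` (`PolAt.of_mul`). -/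
theorem roots_at {R : (Om k)[X]} {R₀ : k[X]} (h : PolAt v R R₀) (hR : R₀ ≠ 0)
    (hdeg : R.natDegree = R₀.natDegree) : ∃ (n : ℕ) (u : Fin n → Om k) (u₀ : Fin n → k),
      R.roots = Finset.univ.val.map u ∧ R₀.roots = Finset.univ.val.map u₀ ∧
        ∀ i, v.At (u i) (u₀ i) := by
  obtain ⟨N, hN⟩ : ∃ N, R₀.natDegree = N := ⟨_, rfl⟩
  induction N generalizing R R₀ with
  | zero =>
    rw [hN] at hdeg
    refine ⟨0, Fin.elim0, Fin.elim0, ?_, ?_, fun i => i.elim0⟩
    · rw [Polynomial.eq_C_of_natDegree_eq_zero hdeg, Polynomial.roots_C]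
      rfl
    · rw [Polynomial.eq_C_of_natDegree_eq_zero hN, Polynomial.roots_C]
      rfl
  | succ N ih =>
    have hR1 : R ≠ 0 := by
      rintro rfl
      rw [natDegree_zero, hN] at hdeg
      omega
    obtain ⟨u, hu⟩ := IsAlgClosed.exists_root R (by
      intro h0
      have h1 : R.natDegree = 0 := natDegree_eq_zero_iff_degree_le_zero.2 (le_of_eq h0)
      rw [hdeg, hN] at h1
      omega)
    have hmem : u ∈ v.ring := rootb_mem h hR hdeg hu
    obtain ⟨u₀, hu₀⟩ := DCI57.exists_at v hmem
    have hr : R₀.IsRoot u₀ := by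
      have h1 := h.eval hu₀
      rw [hu] at h1
      exact rootb_zero h1
    obtain ⟨R', hR'⟩ := dvd_iff_isRoot.2 hu
    obtain ⟨R₀', hR₀'⟩ := dvd_iff_isRoot.2 hr
    have hne : R' ≠ 0 := by
      rintro rfl
      exact hR1 (by rw [hR', mul_zero])
    have hne₀ : R₀' ≠ 0 := by
      rintro rfl
      exact hR (by rw [hR₀', mul_zero])
    have h1 : PolAt v R' R₀' := by
      refine PolAt.of_mul (e := X - C u) (e₀ := X - C u₀) (PolAt.x.sub (PolAt.c hu₀))
        (monic_X_sub_C u) (monic_X_sub_C u₀) ?_
      rw [← hR', ← hR₀']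
      exact h
    have h2 : R₀'.natDegree = N := by
      have h3 := congrArg natDegree hR₀'
      rw [natDegree_mul (X_sub_C_ne_zero u₀) hne₀, natDegree_X_sub_C, hN] at h3
      omega
    have h4 : R'.natDegree = N := by
      have h3 := congrArg natDegree hR'
      rw [natDegree_mul (X_sub_C_ne_zero u) hne, natDegree_X_sub_C, hdeg, hN] at h3
      omega
    obtain ⟨n, w, w₀, hw, hw₀, hww⟩ := ih h1 hne₀ (h4.trans h2.symm) h2
    refine ⟨n + 1, Fin.cons u w, Fin.cons u₀ w₀, ?_, ?_, ?_⟩
    · rw [rootb_cons, ← hw]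
      rw [hR', roots_mul (mul_ne_zero (X_sub_C_ne_zero u) hne), roots_X_sub_C]
      rfl
    · rw [rootb_cons, ← hw₀]
      rw [hR₀', roots_mul (mul_ne_zero (X_sub_C_ne_zero u₀) hne₀), roots_X_sub_C]
      rfl
    · intro i
      refine Fin.cases ?_ (fun j => ?_) i
      · exact hu₀
      · exact hww j

end Pool.Agent.GTM
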