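import Pool.Agent.GTM.Line
import Pool.Agent.GTM.RootB

/-!
# Limits of the sums over the points of a line
-/

set_option autoImplicit false

noncomputable section

namespace Pool.Agent.GTM

open Pool.Agent.ZCyc Pool.Agent.Dess Pool.Agent.GT Polynomial
open Pool.Agent.VFP (Om tt)
open scoped Classical LinearAlgebra.Projectivization

variable {k : Type} [Field k] [IsAlgClosed k] [CharZero k] {m : ℕ} {d : ℕ}
  {X : Set (MvPolynomial (Fin (m + 1)) k)}

/-- the same curve and map over `Om k` -/
theorem OkH.map {P : k[X]} {N : Mp k m} (hN : OkH d P N X) :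
    OkH d (P.map (algebraMap k (Om k))) (N.map (algebraMap k (Om k))) X := by
  have hinj : Function.Injective (algebraMap k (Om k)) := (algebraMap k (Om k)).injective
  have hP0 : P ≠ 0 := by
    intro h
    have h1 := hN.deg
    have h2 := hN.pos
    rw [h, Polynomial.natDegree_zero] at h1
    omega
  refine ⟨hN.pos, ?_, hN.sep.map, ?_, ?_⟩
  · rw [Polynomial.natDegree_map_eq_of_injective hinj]
    exact hN.deg
  · obtain ⟨i, hi⟩ := hN.ne
    refine ⟨i, ?_⟩
    rcases hi with hi | hi
    · left
      exact (Polynomial.map_ne_zero_iff hinj).2 hi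
    · right
      exact (Polynomial.map_ne_zero_iff hinj).2 hi
  · intro f hf x y hxy
    -- the generic value of `f`
    let g : Fin (m + 1) → Polynomial (Polynomial k) := fun i =>
      Polynomial.C (N.G i) + Polynomial.C (N.H i) * Polynomial.X
    let q : Polynomial (Polynomial k) := Polynomial.X ^ 2 - Polynomial.C P
    have hq : q.Monic := Polynomial.monic_X_pow_sub_C _ two_ne_zero
    have hqd : q.natDegree = 2 := Polynomial.natDegree_X_pow_sub_C
    let R : Polynomial (Polynomial k) := MvPolynomial.aeval g f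
    have hdec : R %ₘ q + q * (R /ₘ q) = R := Polynomial.modByMonic_add_div R q
    have hdeg : (R %ₘ q).natDegree < 2 := by
      rw [← hqd]
      refine Polynomial.natDegree_modByMonic_lt R hq ?_
      intro h1
      rw [h1, Polynomial.natDegree_one] at hqd
      omega
    obtain ⟨b, a, hab⟩ : ∃ b a : k[X], R %ₘ q = Polynomial.C b * Polynomial.X + Polynomial.C a :=
      Polynomial.exists_eq_X_add_C_of_natDegree_le_one (by omega)
    have key : ∀ (L : Type) [Field L] [Algebra k L] (x y : L),
        y ^ 2 = Polynomial.aeval x P →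
        MvPolynomial.aeval (fun i => Polynomial.aeval x (N.G i) + Polynomial.aeval x (N.H i) * y) f =
          Polynomial.aeval x b * y + Polynomial.aeval x a := by
      intro L _ _ x y hxy
      have h1 : Polynomial.aevalAeval x y R =
          MvPolynomial.aeval (fun i => Polynomial.aeval x (N.G i) +
            Polynomial.aeval x (N.H i) * y) f := by
        show Polynomial.aevalAeval x y (MvPolynomial.aeval g f) = _
        rw [← AlgHom.comp_apply, MvPolynomial.comp_aeval]
        congr 1
        congr 1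
        funext i
        simp [g]
      have h2 : Polynomial.aevalAeval x y q = 0 := by
        simp only [q, map_sub, map_pow, Polynomial.aevalAeval_C, Polynomial.aevalAeval_Y]
        rw [hxy, sub_self]
      rw [← h1, ← hdec, map_add, map_mul, h2, zero_mul, add_zero, hab, map_add, map_mul,
        Polynomial.aevalAeval_C, Polynomial.aevalAeval_C, Polynomial.aevalAeval_Y]
    -- the remainder vanishes at all points over `k`
    have hvan : ∀ t s : k, s ^ 2 = P.eval t → b.eval t * s + a.eval t = 0 := by
      intro t s hs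
      have h1 := key k t s (by rw [Polynomial.coe_aeval_eq_eval]; exact hs)
      have h2 := hN.onX f hf t s hs
      have h3 : MvPolynomial.aeval (fun i => Polynomial.aeval t (N.G i) +
          Polynomial.aeval t (N.H i) * s) f = 0 := by
        rw [← h2]
        congr 1
      rw [h3] at h1
      simp only [Polynomial.coe_aeval_eq_eval] at h1
      exact h1.symm
    have ha : a = 0 := by
      apply Polynomial.funext
      intro t
      obtain ⟨s, hs⟩ := IsAlgClosed.exists_pow_nat_eq (P.eval t) (n := 2) (by norm_num)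
      have h1 := hvan t s hs
      have h2 := hvan t (-s) (by rw [neg_sq]; exact hs)
      have h3 : (2 : k) * a.eval t = 0 := by linear_combination h1 + h2
      rw [Polynomial.eval_zero]
      exact (mul_eq_zero.1 h3).resolve_left two_ne_zero
    have hb : b = 0 := by
      have h0 : b ^ 2 * P = 0 := by
        apply Polynomial.funext
        intro t
        obtain ⟨s, hs⟩ := IsAlgClosed.exists_pow_nat_eq (P.eval t) (n := 2) (by norm_num)
        have h1 := hvan t s hs
        rw [ha, Polynomial.eval_zero, add_zero] at h1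
        rw [Polynomial.eval_mul, Polynomial.eval_pow, Polynomial.eval_zero, ← hs, ← mul_pow, h1]
        ring
      rcases mul_eq_zero.1 h0 with h | h
      · exact pow_eq_zero_iff two_ne_zero |>.1 h
      · exact absurd h hP0
    have h1 := key (Om k) x y (by rw [← Polynomial.eval_map_algebraMap]; exact hxy)
    rw [hb, ha] at h1
    simp only [map_zero, zero_mul, add_zero] at h1
    rw [← h1]
    have h5 : (N.map (algebraMap k (Om k))).co x y =
        fun i => Polynomial.aeval x (N.G i) + Polynomial.aeval x (N.H i) * y := by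
      funext i
      simp [Mp.co, Mp.map, Polynomial.eval_map_algebraMap]
    rw [h5]

/-- the values of the coordinates -/
private theorem PenA_co {v : Place k (Om k)} {N : Mp (Om k) m} {N₀ : Mp k m} (hNv : MpAt v N N₀)
    {x y : Om k} {x₀ y₀ : k} (hx : v.At x x₀) (hy : v.At y y₀) (i : Fin (m + 1)) :
    v.At (N.co x y i) (N₀.co x₀ y₀ i) :=
  ((hNv i).1.eval hx).add (((hNv i).2.eval hx).mul hy)

omit [IsAlgClosed k] [CharZero k] in
private theorem PenA_zero {v : Place k (Om k)} {c : k} (h : v.At (0 : Om k) c) : c = 0 := by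
  have h1 : v.At (0 : Om k) 0 := by simpa using Place.at_const (v := v) (0 : k)
  exact h.unique h1

/-- The limit of the image of a point, if the coordinates do not all vanish at the value of the point.
Proof: `cyp` is a single point, see `isVal_iff`, `isVal_mkPt`, `pv_eq` (as `lmp_eq_clp` in
`GT/HomVA.lean` and `pen_pv` in `GT/Pencil.lean`); the coordinates have the values of the
coordinates (`PolAt.eval`). -/
theorem lim_cyp (hX : Hom X) {v : Place k (Om k)} {P : (Om k)[X]} {N : Mp (Om k) m}
    (hN : OkH d P N X) {P₀ : k[X]} {N₀ : Mp k m} (hN₀ : OkH d P₀ N₀ X) (hNv : MpAt v N N₀)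
    {x y : Om k} {x₀ y₀ : k} (hx : v.At x x₀) (hy : v.At y y₀) (h : y ^ 2 = P.eval x)
    (h₀ : y₀ ^ 2 = P₀.eval x₀) (hne : N₀.co x₀ y₀ ≠ 0) :
    N.co x y ≠ 0 ∧ lim1 hX v (cyp hX hN x y) = cl1 X (cyp hX hN₀ x₀ y₀) := by
  have hco := PenA_co hNv hx hy
  have hn : N.co x y ≠ 0 := by
    intro h0
    apply hne
    funext i
    have h1 := hco i
    rw [h0] at h1
    exact PenA_zero h1
  refine ⟨hn, ?_⟩
  have h1 : pv hX v (mkPt hX (N.co x y) hn fun f hf => hN.onX f hf x y h) =
      mkPt hX (N₀.co x₀ y₀) hne fun f hf => hN₀.onX f hf x₀ y₀ h₀ := by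
    apply pv_eq
    refine isVal_mkPt (l := 1) fun i => ?_
    rw [one_mul]
    exact hco i
  have h2 : cyp hX hN x y =
      Finsupp.single (mkPt hX (N.co x y) hn fun f hf => hN.onX f hf x y h) 1 := by
    unfold cyp
    rw [dif_pos ⟨h, hn⟩]
  have h3 : cyp hX hN₀ x₀ y₀ =
      Finsupp.single (mkPt hX (N₀.co x₀ y₀) hne fun f hf => hN₀.onX f hf x₀ y₀ h₀) 1 := by
    unfold cyp
    rw [dif_pos ⟨h₀, hne⟩]
  rw [h2, h3]
  change lim hX v (Finsupp.mapDomain (fun x _ => x) (Finsupp.single _ 1)) =
    Submodule.Quotient.mk (Finsupp.mapDomain (fun x _ => x) (Finsupp.single _ 1))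
  rw [Finsupp.mapDomain_single, Finsupp.mapDomain_single, lim_single, h1]

/-- The limit of the sum over the points of a line with good reduction (`roots_at` for `R`, and
`lim_cyp`; for the roots `x` of `R` we have `g(x) ² = P(x)` by `Ln.eq`). -/
theorem lim_LR (hX : Hom X) {v : Place k (Om k)} {P : (Om k)[X]} {N : Mp (Om k) m}
    (hN : OkH d P N X) {P₀ : k[X]} {N₀ : Mp k m} (hN₀ : OkH d P₀ N₀ X) (hNv : MpAt v N N₀)
    {g e R : (Om k)[X]} {g₀ e₀ R₀ : k[X]} (h : Ln d P g e R) (h₀ : Ln d P₀ g₀ e₀ R₀)
    (hg : PolAt v g g₀) (hR : PolAt v R R₀) (hdeg : R.natDegree = R₀.natDegree)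
    (hc : Clean N₀ g₀ R₀) :
    Clean N g R ∧ lim1 hX v (LR hX hN g R) = cl1 X (LR hX hN₀ g₀ R₀) := by
  have hR0 : R₀ ≠ 0 := by
    rintro rfl
    apply h₀.lead
    have h1 := h₀.eq
    rw [mul_zero] at h1
    rw [← sub_eq_zero.1 h1, Polynomial.coeff_pow_of_natDegree_le h₀.deg]
  obtain ⟨n, u, u₀, hu, hu₀, hat⟩ := roots_at hR hR0 hdeg
  have hRne : R ≠ 0 := by
    rintro rfl
    exact hR0 (Polynomial.ext fun j => by
      have h1 := hR j
      rw [Polynomial.coeff_zero] at h1
      rw [Polynomial.coeff_zero]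
      exact PenA_zero h1)
  have hmem : ∀ i, u i ∈ R.roots := by
    intro i
    rw [hu]
    exact Multiset.mem_map_of_mem u (Finset.mem_univ i)
  have hmem₀ : ∀ i, u₀ i ∈ R₀.roots := by
    intro i
    rw [hu₀]
    exact Multiset.mem_map_of_mem u₀ (Finset.mem_univ i)
  have he : ∀ i, g.eval (u i) ^ 2 = P.eval (u i) := by
    intro i
    have h1 := congrArg (Polynomial.eval (u i)) h.eq
    rw [Polynomial.eval_sub, Polynomial.eval_pow, Polynomial.eval_mul,
      (Polynomial.mem_roots hRne).1 (hmem i), mul_zero] at h1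
    exact sub_eq_zero.1 h1
  have he₀ : ∀ i, g₀.eval (u₀ i) ^ 2 = P₀.eval (u₀ i) := by
    intro i
    have h1 := congrArg (Polynomial.eval (u₀ i)) h₀.eq
    rw [Polynomial.eval_sub, Polynomial.eval_pow, Polynomial.eval_mul,
      (Polynomial.mem_roots hR0).1 (hmem₀ i), mul_zero] at h1
    exact sub_eq_zero.1 h1
  have key := fun i => lim_cyp hX hN hN₀ hNv (hat i) (hg.eval (hat i)) (he i) (he₀ i)
    (hc (u₀ i) (hmem₀ i))
  constructor
  · intro x hx
    rw [hu, Multiset.mem_map] at hx
    obtain ⟨i, -, rfl⟩ := hx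
    exact (key i).1
  · unfold LR
    rw [hu, hu₀, Multiset.map_map, Multiset.map_map]
    change lim1 hX v (∑ i, cyp hX hN (u i) (g.eval (u i))) =
      cl1 X (∑ i, cyp hX hN₀ (u₀ i) (g₀.eval (u₀ i)))
    rw [map_sum, map_sum]
    exact Finset.sum_congr rfl fun i _ => (key i).2

end Pool.Agent.GTM
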