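import Pool.Agent.GTM.CorI
import Pool.Agent.GTM.TrC
import Pool.Agent.GTM.RootB
import Pool.Agent.GTM.ConvB
import Pool.Agent.GTM.Spread
import Pool.Agent.GT.MovA
import Pool.Agent.TInc.EmbC

/-!
# Rational base curves

If the base curve is rational then the sum of the images of the points with `y = 0` of a fibre is
constant, so all cycles of degree zero are combinations of differences of points of one fibre.
-/

set_option autoImplicit false

noncomputable section

namespace Pool.Agent.GTM

open Pool.Agent.ZCyc Pool.Agent.Dess Pool.Agent.GT Polynomial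
open Pool.Agent.VFP (Om tt)
open scoped Classical LinearAlgebra.Projectivization

open Pool.Agent.TInc

variable {k L : Type} [Field k] [IsAlgClosed k] [CharZero k] [Field L] [Algebra k L] {m : ℕ}
  {X : Set (MvPolynomial (Fin (m + 1)) k)} {ν : ℕ} {A : Type} [CommRing A] [Algebra k A]

/-- the sum of the classes of the points with `y = 0` over `k` -/
def zerK (hX : Hom X) {d : GD A m} (hd : OkW ν d X) (s : A →ₐ[k] k) : CH X Unit :=
  ((wP ν (s d.B) (s d.α)).roots.map fun x => TK hX hd s x 0).sum

/-- the sum of the classes of the limits of the points with `y = 0` -/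
def zerV (hX : Hom X) {d : GD A m} (hd : OkW ν d X) (S : A →ₐ[k] Om k) (v : Place k (Om k)) :
    CH X Unit :=
  ((wP ν (S d.B) (S d.α)).roots.map fun x => TV hX hd S v x 0).sum

/-- `roots_at` for `wP` (`wP_at`), and `TV_eq_TK`. -/
theorem zerV_good (hX : Hom X) {d : GD A m} (hd : OkW ν d X) {S : A →ₐ[k] Om k} {s : A →ₐ[k] k}
    {v : Place k (Om k)} (h : ∀ a : A, v.At (S a) (s a)) : zerV hX hd S v = zerK hX hd s := by
  have hR : wP ν (s d.B) (s d.α) ≠ 0 := by
    intro h0
    have h1 := wP_natDegree hd.pos (s d.B) (s d.α)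
    rw [h0, natDegree_zero] at h1
    have h2 := hd.pos
    omega
  obtain ⟨n, u, u₀, hu, hu₀, huu⟩ := roots_at (wP_at (ν := ν) (h d.B) (h d.α)) hR
    ((wP_natDegree hd.pos _ _).trans (wP_natDegree hd.pos _ _).symm)
  have h0 : v.At (0 : Om k) 0 := by simpa using Place.at_const (v := v) (0 : k)
  have hroot : ∀ i, (0 : Om k) ^ 2 = u i ^ (2 * ν) + S d.B * u i ^ ν + S d.α := by
    intro i
    have h1 : u i ∈ (wP ν (S d.B) (S d.α)).roots := by
      rw [hu]
      exact Multiset.mem_map_of_mem u (Finset.mem_univ i)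
    have h2 := (mem_roots'.1 h1).2
    rw [IsRoot.def, wP_eval] at h2
    rw [h2, zero_pow two_ne_zero]
  unfold zerV zerK
  rw [hu, hu₀, Multiset.map_map, Multiset.map_map]
  congr 1
  refine Multiset.map_congr rfl fun i _ => ?_
  exact TV_eq_TK hX hd h (huu i) h0 (hroot i)

/-- The class `zerV` is the limit of one cycle (`exists_cycle` for every root). -/
theorem zerV_cycle (hX : Hom X) {d : GD A m} (hd : OkW ν d X) (S : A →ₐ[k] Om k) :
    ∃ z : Pt X (Om k) →₀ ℚ, ∀ v : Place k (Om k), lim1 hX v z = zerV hX hd S v := by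
  choose z hz using fun x : Om k => exists_cycle hX hd S x 0
  refine ⟨((wP ν (S d.B) (S d.α)).roots.map z).sum, fun v => ?_⟩
  unfold zerV
  rw [map_multiset_sum, Multiset.map_map]
  congr 1
  exact Multiset.map_congr rfl fun x _ => hz x v

/-- The class for the data over an open set. -/
private theorem rtc_map (hX : Hom X) {d : GD L m} (hd : OkW ν d X) {U : Set (Place k L)}
    {d' : GD (regU U) m} (hd' : OkW ν d' X)
    (hdd : d'.map ((regU U).val : regU U →+* L) = d) (σ : L →ₐ[k] Om k) (v : Place k (Om k)) :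
    zerV hX hd' (σ.comp (regU U).val) v = zerV hX hd σ v := by
  unfold zerV
  have h1 : wP ν ((σ.comp (regU U).val) d'.B) ((σ.comp (regU U).val) d'.α) =
      wP ν (σ d.B) (σ d.α) := by
    subst hdd
    rfl
  rw [h1]
  congr 1
  exact Multiset.map_congr rfl fun x _ => TV_map hX hd hd' hdd σ v x 0

omit [IsAlgClosed k] [CharZero k] in
private theorem rtc_ext {t : L} (ht : IntermediateField.adjoin k {t} = ⊤) {σ τ : L →ₐ[k] Om k}
    (h : σ t = τ t) : σ = τ := by
  ext x
  have hx : x ∈ IntermediateField.adjoin k {t} := by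
    rw [ht]
    exact IntermediateField.mem_top
  induction hx using IntermediateField.adjoin_induction with
  | mem x hx =>
    rw [Set.mem_singleton_iff.1 hx]
    exact h
  | algebraMap c => rw [σ.commutes, τ.commutes]
  | add x y _ _ hx hy => rw [map_add, map_add, hx, hy]
  | inv x _ hx => rw [map_inv₀, map_inv₀, hx]
  | mul x y _ _ hx hy => rw [map_mul, map_mul, hx, hy]

omit [IsAlgClosed k] [CharZero k] in
private theorem rtc_transc (hL : IsCurve k L) {t : L}
    (ht : IntermediateField.adjoin k {t} = ⊤) : Transcendental k t := by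
  intro halg
  obtain ⟨t', ht', -⟩ := hL
  apply ht'
  have h1 : Algebra.IsAlgebraic k (IntermediateField.adjoin k {t}) :=
    IntermediateField.isAlgebraic_adjoin_simple halg.isIntegral
  have h2 : t' ∈ IntermediateField.adjoin k {t} := by
    rw [ht]
    exact IntermediateField.mem_top
  have h3 := h1.isAlgebraic ⟨t', h2⟩
  exact (isAlgebraic_algHom_iff (IntermediateField.adjoin k {t}).val
    (IntermediateField.adjoin k {t}).val.toRingHom.injective).2 h3

/-- If `L = k(t)` then the class is the same for all embeddings and all places.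
Proof. `spreadW` gives `d'` over `U = {c | ∀ f ∈ F, f ∈ c.ring}`; by `TV_map` we may use `d'`. Let
`σ₀ : L → Om k` be an embedding with `σ₀ t = tt k` (`t` is transcendental because `L` is a curve; e.g.
`exists_embed`-like: `TInc.card_emb`). For `c ∈ k` such that a place `c'` of `L` with `c'.At t c` is in
`U` (all `c` with finitely many exceptions): every place `v` of `Om k` with `v.At (tt k) c` lies
over `c'` (`exists_below`; a place of `k(t)` with the value `c` of `t` is unique), so `zerV` at `v` is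
`zerK` at `c'` (`zerV_good`, `over_ev`). By `GT.bridge` (with the cycle of `zerV_cycle`) the classes
`zerK` at `c'` are the same for all these `c`; call this class `C`. Now for any `σ`: for almost all
places `v` (`almost_all`, `J = t`; `val c t` is not one of the exceptions) `zerV` is `zerK` at a place
in `U`, which is `C`; by `GT.moving` for the cycle of `zerV_cycle` minus a constant cycle
(`exists_const`) it is `C` for all `v`. -/
theorem zerV_const (hX : Hom X) (hL : IsCurve k L) {t : L}
    (ht : IntermediateField.adjoin k {t} = ⊤) {d : GD L m} (hd : OkW ν d X) :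
    ∃ C : CH X Unit, ∀ (σ : L →ₐ[k] Om k) (v : Place k (Om k)), zerV hX hd σ v = C := by
  have htr := rtc_transc hL ht
  obtain ⟨F, hF, d', hd', hmap⟩ := spreadW hd {t}
  have htF : t ∈ F := hF (Finset.mem_singleton_self t)
  set U : Set (Place k L) := {c : Place k L | ∀ f ∈ F, f ∈ c.ring} with hU
  -- the class at a place in `U`
  have hgood : ∀ (σ : L →ₐ[k] Om k) (v : Place k (Om k)) (c : U),
      v.ring.comap (σ : L →+* Om k) = c.1.ring →
      zerV hX hd σ v = zerK hX hd' (evk hL c) := by
    intro σ v c hc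
    rw [← rtc_map hX hd hd' hmap]
    exact zerV_good hX hd' fun a => over_ev hL (S := Sum.inl σ) (c := c) hc a
  -- an embedding
  obtain ⟨σ₀, hσ₀⟩ : ∃ σ₀ : L →ₐ[k] Om k, σ₀ t = tt k := by
    obtain ⟨c, hc⟩ := exists_place (F := L) htr 0
    obtain ⟨v, hv⟩ := exists_place (F := Om k) (VFP.tt_transc (k := k)) 0
    obtain ⟨σ, hσ, -⟩ := exists_emb_over hL htr VFP.tt_transc hv hc
    exact ⟨σ, hσ⟩
  have hover : ∀ (c : Place k L) (a : k), c.At t a → ∀ v : Place k (Om k), v.At (tt k) a →
      v.ring.comap (σ₀ : L →+* Om k) = c.ring := by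
    intro c a hc v hv
    obtain ⟨σ, hσ, hσc⟩ := exists_emb_over hL htr VFP.tt_transc hv hc
    rw [rtc_ext ht (hσ₀.trans hσ.symm)]
    exact hσc
  obtain ⟨z, hz⟩ := zerV_cycle hX hd σ₀
  have hsame : ∀ c c' : U, zerK hX hd' (evk hL c) = zerK hX hd' (evk hL c') := by
    intro c c'
    have h1 : ∀ (c : U) (v : Place k (Om k)), v.At (tt k) (val c.1 t) →
        lim hX v (Finsupp.lmapDomain ℚ ℚ (fun x (_ : Unit) => x) z) =
          zerK hX hd' (evk hL c) := by
      intro c v hv
      have h2 := hover c.1 _ (at_val hL (c.2 t htF)) v hv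
      have h3 := hz v
      rw [hgood σ₀ v c h2] at h3
      exact h3
    exact bridge hX _ (h1 c) (h1 c')
  refine ⟨if h : Nonempty U then zerK hX hd' (evk hL h.some) else 0, fun σ v => ?_⟩
  set C : CH X Unit := if h : Nonempty U then zerK hX hd' (evk hL h.some) else 0 with hC
  have hCc : ∀ c : U, zerK hX hd' (evk hL c) = C := by
    intro c
    rw [hC, dif_pos ⟨c⟩]
    exact hsame _ _
  obtain ⟨y, hy⟩ := zerV_cycle hX hd σ
  obtain ⟨y₀, hy₀⟩ := exists_const hX C
  obtain ⟨Γ, hΓ, hall⟩ := almost_all hL F (U := U) (fun c hc => hc) σ ∅ (J := t)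
    (fun a ha => htr (by rw [ha]; exact isAlgebraic_algebraMap a)) ∅
  have hmain := moving hX (Finsupp.lmapDomain ℚ ℚ (fun x (_ : Unit) => x) (y - y₀)) Γ hΓ
    (fun v' hv' => by
      obtain ⟨c, hc, hcU, -, -⟩ := hall v' hv'
      change lim1 hX v' (y - y₀) = 0
      rw [map_sub, hy, hy₀, hgood σ v' ⟨c, hcU⟩ hc, hCc, sub_self]) v
  change lim1 hX v (y - y₀) = 0 at hmain
  rw [map_sub, hy, hy₀, sub_eq_zero] at hmain
  exact hmain

omit [CharZero k] in
/-- the degree of a cycle which is rationally equivalent to zero (copied from `GT/Cov.lean`) -/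
private theorem rtc_rat_deg [CharZero k] {ι : Type} {z : (ι → Pt X k) →₀ ℚ} (hz : z ∈ Rat X ι) :
    Finsupp.linearCombination ℚ (fun _ => (1 : ℚ)) z = 0 := by
  have h1 : Rat X ι ≤ LinearMap.ker (Finsupp.linearCombination ℚ
      (fun _ : ι → Pt X k => (1 : ℚ))) := by
    refine Submodule.span_le.2 ?_
    rintro _ ⟨K, i1, i2, i3, xK, y, f, D, hf, hD, hval, rfl⟩
    rw [SetLike.mem_coe, LinearMap.mem_ker, map_finsuppSum]
    have h2 : D = dv i3 f := by
      ext v
      rw [dv_apply]
      exact (ord_eq i3 hf (hD v)).symm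
    have h3 := deg_dv i3 f
    rw [← h2] at h3
    unfold deg at h3
    simp only [Finsupp.linearCombination_single, smul_eq_mul, mul_one]
    rw [Finsupp.sum] at h3 ⊢
    have h4 := congrArg (fun n : ℤ => (n : ℚ)) h3
    simpa using h4
  exact h1 hz

/-- the difference of `2 ν` times a value and the sum over the points with `y = 0` -/
private theorem rtc_value (hX : Hom X) {d : GD L m} (hd : OkW ν d X) (σ : L →ₐ[k] Om k)
    (v : Place k (Om k)) {x y : Om k} (hxy : y ^ 2 = x ^ (2 * ν) + σ d.B * x ^ ν + σ d.α) :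
    ((2 * ν : ℕ) : ℚ) • TV hX hd σ v x y - zerV hX hd σ v ∈
      Submodule.span ℚ (DiffL hX hd) := by
  have hcard : Multiset.card (wP ν (σ d.B) (σ d.α)).roots = 2 * ν := by
    rw [← wP_natDegree hd.pos (σ d.B) (σ d.α)]
    exact (IsAlgClosed.splits _).natDegree_eq_card_roots.symm
  have h1 : ((2 * ν : ℕ) : ℚ) • TV hX hd σ v x y - zerV hX hd σ v =
      ((wP ν (σ d.B) (σ d.α)).roots.map fun x' =>
        TV hX hd σ v x y - TV hX hd σ v x' 0).sum := by
    rw [Multiset.sum_map_sub, Multiset.map_const', Multiset.sum_replicate, hcard,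
      Nat.cast_smul_eq_nsmul]
    rfl
  rw [h1]
  refine multiset_sum_mem _ fun w hw => ?_
  obtain ⟨x', hx', rfl⟩ := Multiset.mem_map.1 hw
  refine Submodule.subset_span ⟨σ, v, x, y, x', 0, hxy, ?_, rfl⟩
  have h2 := Polynomial.isRoot_of_mem_roots hx'
  rw [Polynomial.IsRoot, wP_eval] at h2
  rw [h2]
  ring

/-- Let `G` be a set of cycles of the degree `e ≠ 0` whose classes are values `TV`. The cycles of
degree zero in their span, modulo rational equivalence, are combinations of differences of points of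
one fibre: `2 ν TV - C` is the sum of the differences with the `2 ν` points of `zerV` (the number of
the roots of `wP` is `2 ν`), so `2 ν e [z] - deg z C` is in the span for `z ∈ span G`. (As
`cls_of_degree_zero` in `GT/Cov.lean`; cycles in `Rat1 X` have degree zero, see `rat_deg` there.) -/
theorem deg_zero_mem (hX : Hom X) {d : GD L m} (hd : OkW ν d X) {C : CH X Unit}
    (hC : ∀ (σ : L →ₐ[k] Om k) (v : Place k (Om k)), zerV hX hd σ v = C)
    (G : Set (Pt X k →₀ ℚ)) {e : ℚ} (he : e ≠ 0)
    (hG : ∀ z ∈ G, (∃ (σ : L →ₐ[k] Om k) (v : Place k (Om k)) (x y : Om k),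
      y ^ 2 = x ^ (2 * ν) + σ d.B * x ^ ν + σ d.α ∧ cl1 X z = TV hX hd σ v x y) ∧
      (z.sum fun _ a => a) = e) {z : Pt X k →₀ ℚ} (hz : z ∈ Submodule.span ℚ G ⊔ Rat1 X)
    (h0 : (z.sum fun _ a => a) = 0) : cl1 X z ∈ Submodule.span ℚ (DiffL hX hd) := by
  let W := Submodule.span ℚ (DiffL hX hd)
  let dg : (Pt X k →₀ ℚ) →ₗ[ℚ] ℚ := Finsupp.linearCombination ℚ (fun _ => (1 : ℚ))
  have hdg : ∀ z, dg z = z.sum fun _ a => a := by
    intro z
    change Finsupp.linearCombination ℚ (fun _ => (1 : ℚ)) _ = _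
    rw [Finsupp.linearCombination_apply]
    simp
  have hB : ∀ z ∈ Submodule.span ℚ G, (((2 * ν : ℕ) : ℚ) * e) • cl1 X z - dg z • C ∈ W := by
    intro z hz
    induction hz using Submodule.span_induction with
    | mem z hz =>
      obtain ⟨⟨σ, v, x, y, hxy, hcl⟩, hdeg⟩ := hG z hz
      have h1 := W.smul_mem e (rtc_value hX hd σ v hxy)
      rw [hC, smul_sub, smul_smul] at h1
      rw [hdg, hdeg, hcl, mul_comm]
      exact h1
    | zero =>
      rw [map_zero, map_zero, smul_zero, zero_smul, sub_zero]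
      exact W.zero_mem
    | add a b _ _ ha hb =>
      have h1 := W.add_mem ha hb
      rw [map_add, map_add, smul_add, add_smul]
      convert h1 using 1
      abel
    | smul c a _ ha =>
      have h1 := W.smul_mem c ha
      rw [map_smul, map_smul, smul_comm _ c, smul_eq_mul, mul_smul c (dg a), ← smul_sub]
      exact h1
  obtain ⟨z₁, hz₁, z₂, hz₂, rfl⟩ := Submodule.mem_sup.1 hz
  have hd2 : dg z₂ = 0 := by
    have h1 : Finsupp.lmapDomain ℚ ℚ (fun x (_ : Unit) => x) z₂ ∈ Rat X Unit := hz₂
    have h2 := rtc_rat_deg h1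
    rw [Finsupp.lmapDomain_apply, Finsupp.linearCombination_mapDomain] at h2
    exact h2
  have hd0 : dg (z₁ + z₂) = 0 := by
    rw [hdg]
    exact h0
  have hd1 : dg z₁ = 0 := by
    rw [map_add, hd2, add_zero] at hd0
    exact hd0
  have h1 := hB z₁ hz₁
  rw [hd1, zero_smul, sub_zero] at h1
  have h2 : (((2 * ν : ℕ) : ℚ) * e) ≠ 0 := by
    have h3 : ((2 * ν : ℕ) : ℚ) ≠ 0 := by
      have := hd.pos
      exact_mod_cast (by omega : 2 * ν ≠ 0)
    exact mul_ne_zero h3 he
  have h3 := W.smul_mem (((2 * ν : ℕ) : ℚ) * e)⁻¹ h1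
  rw [smul_smul, inv_mul_cancel₀ h2, one_smul] at h3
  rw [map_add, mem_rat1.1 hz₂, add_zero]
  exact h3

end Pool.Agent.GTM
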