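import Pool.Agent.GTM.RedA

/-!
# Good reduction of lines
-/

set_option autoImplicit false

noncomputable section

namespace Pool.Agent.GTM

open Pool.Agent.ZCyc Pool.Agent.Dess Pool.Agent.GT Polynomial
open Pool.Agent.VFP (Om tt)
open scoped Classical LinearAlgebra.Projectivization

variable {k : Type} [Field k] [IsAlgClosed k] [CharZero k] {m : ℕ} {d : ℕ}
  {X : Set (MvPolynomial (Fin (m + 1)) k)}

private theorem redB_zero {v : Place k (Om k)} {c : k} (h : v.At (0 : Om k) c) : c = 0 := by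
  have h1 := Place.at_const (v := v) (0 : k)
  rw [map_zero] at h1
  exact h.unique h1

private theorem redB_unit {v : Place k (Om k)} {g : Om k} {c : k} (hg : g ≠ 0)
    (hu : g ∈ v.ring ∧ g⁻¹ ∈ v.ring) (h : v.At g c) : c ≠ 0 := by
  rintro rfl
  have h1 := (v.vanishes_iff_or g).1 (Place.at_zero_iff.1 h)
  rcases h1 with h1 | h1
  · exact hg h1
  · exact h1 hu.2

/-- the coefficients of a polynomial which are not zero -/
private def redB_cf (p : (Om k)[X]) : Finset (Om k) := p.support.image p.coeff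

private theorem redB_cf_ne (p : (Om k)[X]) : (0 : Om k) ∉ redB_cf p := by
  intro h
  obtain ⟨n, hn, hn0⟩ := Finset.mem_image.1 h
  exact mem_support_iff.1 hn hn0

private theorem redB_mem {p : (Om k)[X]} {n : ℕ} (h : p.coeff n ≠ 0) : p.coeff n ∈ redB_cf p :=
  Finset.mem_image_of_mem _ (mem_support_iff.2 h)

private theorem redB_pol {v : Place k (Om k)} {p : (Om k)[X]}
    (h : ∀ γ ∈ redB_cf p, γ ∈ v.ring ∧ γ⁻¹ ∈ v.ring) : ∃ p₀ : k[X], PolAt v p p₀ := by
  refine exists_polAt fun n => ?_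
  by_cases hn : p.coeff n = 0
  · rw [hn]
    exact v.ring.zero_mem
  · exact (h _ (redB_mem hn)).1

private theorem redB_deg {v : Place k (Om k)} {p : (Om k)[X]} {p₀ : k[X]} (h : PolAt v p p₀)
    {n : ℕ} (hn : p.natDegree ≤ n) : p₀.natDegree ≤ n := by
  rw [natDegree_le_iff_coeff_eq_zero]
  intro j hj
  have h1 := h j
  rw [coeff_eq_zero_of_natDegree_lt (lt_of_le_of_lt hn hj)] at h1
  exact redB_zero h1

/-- A clean line has a clean reduction at almost all places: `Γ` contains the coefficients `≠ 0` of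
`e`, `g`, `R`, the number `g.coeff d ^ 2 - P.coeff (2 * d)`, the roots of `R` which are not zero, and
for every root `x` of `R` a coordinate `N.co x (g.eval x) i` which is not zero. The degree of the
value of `R` is the same because the leading coefficient of `R` is a unit, the roots of the value
are the values of the roots (`roots_at`). -/
theorem exists_red_line {P : (Om k)[X]} {N : Mp (Om k) m} (hN : OkH d P N X) {g e R : (Om k)[X]}
    (h : Ln d P g e R) (hc : Clean N g R) :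
    ∃ Γ : Finset (Om k), (0 : Om k) ∉ Γ ∧ ∀ v : Place k (Om k),
      (∀ γ ∈ Γ, γ ∈ v.ring ∧ γ⁻¹ ∈ v.ring) → ∀ (P₀ : k[X]) (N₀ : Mp k m),
      PolAt v P P₀ → MpAt v N N₀ → OkH d P₀ N₀ X →
      ∃ g₀ e₀ R₀ : k[X], PolAt v g g₀ ∧ PolAt v e e₀ ∧ PolAt v R R₀ ∧ Ln d P₀ g₀ e₀ R₀ ∧
        R.natDegree = R₀.natDegree ∧ Clean N₀ g₀ R₀ := by
  have hR : R ≠ 0 := by
    intro h0
    apply h.lead
    have h1 : g ^ 2 = P := by
      have h2 := h.eq
      rw [h0, mul_zero, sub_eq_zero] at h2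
      exact h2
    rw [← h1, mul_comm 2 d, mul_two, pow_two, pow_two,
      coeff_mul_add_eq_of_natDegree_le h.deg h.deg]
  have hco : ∀ x : Om k, ∃ c : Om k, c ≠ 0 ∧ (x ∈ R.roots → ∃ j, c = N.co x (g.eval x) j) := by
    intro x
    by_cases hx : x ∈ R.roots
    · obtain ⟨j, hj⟩ := Function.ne_iff.1 (hc x hx)
      exact ⟨_, hj, fun _ => ⟨j, rfl⟩⟩
    · exact ⟨1, one_ne_zero, fun h1 => absurd h1 hx⟩
  choose c hc0 hcj using hco
  refine ⟨redB_cf e ∪ (redB_cf g ∪ (redB_cf R ∪ ({g.coeff d ^ 2 - P.coeff (2 * d)} ∪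
    R.roots.toFinset.image c))), ?_, ?_⟩
  · intro h0
    simp only [Finset.mem_union, Finset.mem_singleton, Finset.mem_image] at h0
    rcases h0 with h0 | h0 | h0 | h0 | ⟨x, -, h0⟩
    · exact redB_cf_ne e h0
    · exact redB_cf_ne g h0
    · exact redB_cf_ne R h0
    · exact h.lead (sub_eq_zero.1 h0.symm)
    · exact hc0 x h0
  · intro v hΓ P₀ N₀ hP hNv hN₀
    obtain ⟨e₀, he₀⟩ := redB_pol (v := v) (p := e) fun γ hγ => hΓ γ (by simp [hγ])
    obtain ⟨g₀, hg₀⟩ := redB_pol (v := v) (p := g) fun γ hγ => hΓ γ (by simp [hγ])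
    obtain ⟨R₀, hR₀⟩ := redB_pol (v := v) (p := R) fun γ hγ => hΓ γ (by simp [hγ])
    have hlc : R₀.coeff R.natDegree ≠ 0 := by
      have h1 : R.coeff R.natDegree ≠ 0 := by
        rw [coeff_natDegree]
        exact leadingCoeff_ne_zero.2 hR
      refine redB_unit h1 (hΓ _ ?_) (hR₀ R.natDegree)
      have h2 := redB_mem h1
      simp only [Finset.mem_union]
      exact Or.inr (Or.inr (Or.inl h2))
    have hR₀0 : R₀ ≠ 0 := by
      rintro rfl
      exact hlc (coeff_zero _)
    have hdeg : R.natDegree = R₀.natDegree :=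
      le_antisymm (le_natDegree_of_ne_zero hlc) (redB_deg hR₀ le_rfl)
    refine ⟨g₀, e₀, R₀, hg₀, he₀, hR₀, ⟨redB_deg hg₀ h.deg, ?_, ?_⟩, hdeg, ?_⟩
    · intro h0
      refine redB_unit (sub_ne_zero.2 h.lead) (hΓ _ (by simp))
        (((hg₀ d).pow 2).sub (hP (2 * d))) (sub_eq_zero.2 h0)
    · have h1 := (hg₀.pow 2).sub hP
      rw [h.eq] at h1
      exact h1.unique (he₀.mul hR₀)
    · intro x₀ hx₀
      obtain ⟨n, u, u₀, hu, hu₀, hat⟩ := roots_at hR₀ hR₀0 hdeg
      rw [hu₀, Multiset.mem_map] at hx₀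
      obtain ⟨i, -, rfl⟩ := hx₀
      have hui : u i ∈ R.roots := by
        rw [hu, Multiset.mem_map]
        exact ⟨i, Finset.mem_univ i, rfl⟩
      obtain ⟨j, hj⟩ := hcj (u i) hui
      have hval : v.At (N.co (u i) (g.eval (u i)) j) (N₀.co (u₀ i) (g₀.eval (u₀ i)) j) :=
        (((hNv j).1).eval (hat i)).add ((((hNv j).2).eval (hat i)).mul (hg₀.eval (hat i)))
      have hmem : c (u i) ∈ R.roots.toFinset.image c :=
        Finset.mem_image_of_mem _ (Multiset.mem_toFinset.2 hui)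
      have hne : N₀.co (u₀ i) (g₀.eval (u₀ i)) j ≠ 0 := by
        rw [← hj] at hval
        refine redB_unit (hc0 (u i)) (hΓ _ ?_) hval
        simp only [Finset.mem_union]
        exact Or.inr (Or.inr (Or.inr (Or.inr hmem)))
      intro h0
      exact hne (congrFun h0 j)

end Pool.Agent.GTM
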