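import Pool.Agent.GTM.Pen
import Pool.Agent.GTM.RedB

/-!
# The sums over the points of lines at all places
-/

set_option autoImplicit false

noncomputable section

namespace Pool.Agent.GTM

open Pool.Agent.ZCyc Pool.Agent.Dess Pool.Agent.GT Polynomial
open Pool.Agent.VFP (Om tt)
open scoped Classical LinearAlgebra.Projectivization

variable {k : Type} [Field k] [IsAlgClosed k] [CharZero k] {m : ℕ} {d : ℕ}
  {X : Set (MvPolynomial (Fin (m + 1)) k)}

/-- The limits at every place of the sums over the points of two clean lines are equal.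
Proof: `moving` (`GT/Mov.lean`, `ι = Unit`) for the difference of the two cycles; at almost all
places there is good reduction (`exists_red`, `exists_red_line` for both lines, the coefficients
`≠ 0` of the quotient `s` of `g' - g` by `e` are also in `Γ`, so that `e₀` divides `g₀' - g₀`; `e₀`
is monic), and there the limits are the classes over `k` (`lim_LR`), which are equal by
`pencil`. -/
theorem line_indep (hX : Hom X) {P : (Om k)[X]} {N : Mp (Om k) m} (hN : OkH d P N X)
    {e g g' R R' : (Om k)[X]} (he : e.Monic) (h : Ln d P g e R) (h' : Ln d P g' e R')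
    (hdiv : e ∣ g' - g) (hc : Clean N g R) (hc' : Clean N g' R') (v : Place k (Om k)) :
    lim1 hX v (LR hX hN g R) = lim1 hX v (LR hX hN g' R') := by
  obtain ⟨s, hs⟩ := hdiv
  obtain ⟨Γ₀, hΓ₀, H₀⟩ := exists_red hN
  obtain ⟨Γ₁, hΓ₁, H₁⟩ := exists_red_line hN h hc
  obtain ⟨Γ₂, hΓ₂, H₂⟩ := exists_red_line hN h' hc'
  let Γ₃ : Finset (Om k) := (s.support.image s.coeff).erase 0
  have hΓ₃ : (0 : Om k) ∉ Γ₃ := Finset.notMem_erase 0 _
  let z : Pt X (Om k) →₀ ℚ := LR hX hN g R - LR hX hN g' R'
  have hz : ∀ w : Place k (Om k), lim1 hX w z =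
      lim1 hX w (LR hX hN g R) - lim1 hX w (LR hX hN g' R') := fun w => map_sub _ _ _
  have key := moving hX (Finsupp.lmapDomain ℚ ℚ (fun (x : Pt X (Om k)) (_ : Unit) => x) z)
    (Γ₀ ∪ (Γ₁ ∪ (Γ₂ ∪ Γ₃)))
    (by simp only [Finset.mem_union, not_or]; exact ⟨hΓ₀, hΓ₁, hΓ₂, hΓ₃⟩) (by
      intro w hw
      simp only [Finset.mem_union] at hw
      obtain ⟨P₀, N₀, hP, hNv, hN₀⟩ := H₀ w fun g hg => hw g (Or.inl hg)
      obtain ⟨g₀, e₀, R₀, hg₀, he₀, hR₀, hL, hdeg, hcl⟩ :=
        H₁ w (fun g hg => hw g (Or.inr (Or.inl hg))) P₀ N₀ hP hNv hN₀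
      obtain ⟨g₁, e₁, R₁, hg₁, he₁, hR₁, hL', hdeg', hcl'⟩ :=
        H₂ w (fun g hg => hw g (Or.inr (Or.inr (Or.inl hg)))) P₀ N₀ hP hNv hN₀
      have hee : e₁ = e₀ := he₁.unique he₀
      subst hee
      obtain ⟨s₀, hs₀⟩ := exists_polAt (v := w) (p := s) fun n => by
        by_cases h0 : s.coeff n = 0
        · rw [h0]
          exact zero_mem _
        · exact (hw _ (Or.inr (Or.inr (Or.inr (Finset.mem_erase.2
            ⟨h0, Finset.mem_image_of_mem _ (mem_support_iff.2 h0)⟩))))).1
      have hdiv₀ : e₁ ∣ g₁ - g₀ := by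
        refine ⟨s₀, ?_⟩
        have h1 := hg₁.sub hg₀
        rw [hs] at h1
        exact h1.unique (he₁.mul hs₀)
      have hmon : e₁.Monic := by
        have h1 : e₁.natDegree ≤ e.natDegree := by
          rw [natDegree_le_iff_coeff_eq_zero]
          intro j hj
          have h2 := he₁ j
          rw [coeff_eq_zero_of_natDegree_lt hj] at h2
          have h3 := Place.at_const (v := w) (0 : k)
          rw [_root_.map_zero] at h3
          exact h2.unique h3
        have h2 : e₁.coeff e.natDegree = 1 := by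
          have h3 := he₁ e.natDegree
          rw [coeff_natDegree, he.leadingCoeff] at h3
          have h4 := Place.at_const (v := w) (1 : k)
          rw [_root_.map_one] at h4
          exact h3.unique h4
        exact monic_of_natDegree_le_of_coeff_eq_one _ h1 h2
      change lim1 hX w z = 0
      rw [hz, (lim_LR hX hN hN₀ hNv h hL hg₀ hR₀ hdeg hcl).2,
        (lim_LR hX hN hN₀ hNv h' hL' hg₁ hR₁ hdeg' hcl').2,
        pencil hX hN₀ hmon hL hL' hdiv₀ hcl hcl', sub_self]) v
  have key' : lim1 hX v z = 0 := key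
  rw [hz] at key'
  exact sub_eq_zero.1 key'

end Pool.Agent.GTM
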