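import Pool.Agent.GTM.PenA

/-!
# Good reduction at almost all places
-/

set_option autoImplicit false

noncomputable section

namespace Pool.Agent.GTM

open Pool.Agent.ZCyc Pool.Agent.Dess Pool.Agent.GT Polynomial
open Pool.Agent.VFP (Om tt)
open scoped Classical LinearAlgebra.Projectivization

variable {k : Type} [Field k] [IsAlgClosed k] [CharZero k] {m : ℕ} {d : ℕ}
  {X : Set (MvPolynomial (Fin (m + 1)) k)}

omit [IsAlgClosed k] [CharZero k] in
private theorem RedA_mv {v : Place k (Om k)} {ι : Type} {u : ι → Om k} {c : ι → k}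
    (h : ∀ i, v.At (u i) (c i)) (f : MvPolynomial ι k) :
    v.At (MvPolynomial.aeval u f) (MvPolynomial.aeval c f) := by
  induction f using MvPolynomial.induction_on with
  | C a =>
    rw [MvPolynomial.aeval_C, MvPolynomial.aeval_C]
    exact Place.at_const a
  | add p q hp hq =>
    rw [map_add, map_add]
    exact hp.add hq
  | mul_X p i hp =>
    rw [map_mul, map_mul, MvPolynomial.aeval_X, MvPolynomial.aeval_X]
    exact hp.mul (h i)

omit [IsAlgClosed k] [CharZero k] in
private theorem RedA_zero {v : Place k (Om k)} {c : k} (h : v.At (0 : Om k) c) : c = 0 := by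
  have h1 : v.At (0 : Om k) 0 := by simpa using Place.at_const (v := v) (0 : k)
  exact h.unique h1

omit [IsAlgClosed k] [CharZero k] in
private theorem RedA_unit {v : Place k (Om k)} {g : Om k} {c : k} (hg : g ≠ 0)
    (h : g ∈ v.ring ∧ g⁻¹ ∈ v.ring) (hc : v.At g c) : c ≠ 0 := by
  rintro rfl
  rcases (v.vanishes_iff_or g).1 (Place.at_zero_iff.1 hc) with h1 | h1
  · exact hg h1
  · exact h1 h.2

omit [IsAlgClosed k] [CharZero k] in
/-- a point of the reduced curve is the value of a point -/
private theorem RedA_lift {v : Place k (Om k)} {P : (Om k)[X]} {P₀ : k[X]}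
    (hev : ∀ (x : Om k) (x₀ : k), v.At x x₀ → v.At (P.eval x) (P₀.eval x₀)) {x₀ y₀ : k}
    (h : y₀ ^ 2 = P₀.eval x₀) :
    ∃ x y : Om k, y ^ 2 = P.eval x ∧ v.At x x₀ ∧ v.At y y₀ := by
  obtain ⟨z, hz⟩ := IsAlgClosed.exists_pow_nat_eq (P.eval (algebraMap k (Om k) x₀)) (n := 2) two_pos
  have hx := Place.at_const (v := v) x₀
  have h1 : v.At (z ^ 2) (y₀ ^ 2) := by
    rw [hz, h]
    exact hev _ _ hx
  have h2 : v.Vanishes ((z - algebraMap k (Om k) y₀) * (z + algebraMap k (Om k) y₀)) := by
    unfold Place.At at h1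
    rw [map_pow] at h1
    convert h1 using 1
    ring
  have h3 : v.Vanishes (z - algebraMap k (Om k) y₀) ∨ v.Vanishes (z + algebraMap k (Om k) y₀) := by
    rw [Place.vanishes_iff, map_mul] at h2
    by_contra hcon
    push Not at hcon
    rw [Place.vanishes_iff, Place.vanishes_iff, not_lt, not_lt] at hcon
    exact absurd h2 (not_lt.2 (one_le_mul hcon.1 hcon.2))
  rcases h3 with h3 | h3
  · exact ⟨algebraMap k (Om k) x₀, z, hz, hx, h3⟩
  · refine ⟨algebraMap k (Om k) x₀, -z, by rw [neg_sq]; exact hz, hx, ?_⟩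
    unfold Place.At
    have := h3.neg
    convert this using 1
    ring

/-- the equations hold for the values -/
private theorem RedA_ok {v : Place k (Om k)} {P : (Om k)[X]} {N : Mp (Om k) m} (hN : OkH d P N X)
    {P₀ : k[X]} {N₀ : Mp k m} (hP : PolAt v P P₀) (hNv : MpAt v N N₀)
    (hdeg : P₀.natDegree = 2 * d) (hsep : P₀.Separable) (hne : ∃ i, N₀.G i ≠ 0 ∨ N₀.H i ≠ 0) :
    OkH d P₀ N₀ X := by
  refine ⟨hN.pos, hdeg, hsep, hne, fun f hf x₀ y₀ hxy => ?_⟩
  obtain ⟨x, y, h, hx, hy⟩ := RedA_lift (fun x x₀ hx => hP.eval hx) hxy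
  have h2 := RedA_mv (v := v) (u := N.co x y) (c := N₀.co x₀ y₀)
    (fun i => ((hNv i).1.eval hx).add (((hNv i).2.eval hx).mul hy)) f
  rw [hN.onX f hf x y h] at h2
  exact RedA_zero h2

omit [IsAlgClosed k] in
/-- the value of the derivative -/
private theorem RedA_deriv {v : Place k (Om k)} {P : (Om k)[X]} {P₀ : k[X]} (hP : PolAt v P P₀) :
    PolAt v (derivative P) (derivative P₀) := by
  intro n
  rw [coeff_derivative, coeff_derivative]
  refine (hP (n + 1)).mul ?_
  have h := Place.at_const (v := v) ((n : k) + 1)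
  rwa [_root_.map_add, map_natCast, _root_.map_one] at h

/-- values of polynomials whose coefficients are units or zero -/
private theorem RedA_pol {v : Place k (Om k)} {p : (Om k)[X]}
    (h : ∀ n, p.coeff n ≠ 0 → p.coeff n ∈ v.ring ∧ (p.coeff n)⁻¹ ∈ v.ring) :
    ∃ p₀ : k[X], PolAt v p p₀ ∧ ∀ n, p.coeff n ≠ 0 → p₀.coeff n ≠ 0 := by
  obtain ⟨p₀, hp₀⟩ := exists_polAt (v := v) (p := p) fun n => by
    by_cases h0 : p.coeff n = 0
    · rw [h0]
      exact zero_mem _
    · exact (h n h0).1
  exact ⟨p₀, hp₀, fun n hn => RedA_unit hn (h n hn) (hp₀ n)⟩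

/-- The curve and the map have a good reduction at almost all places: at the places where the
elements of a finite set `Γ` are units. Proof: `Γ` contains all coefficients `≠ 0` of `P`, `G_i`,
`H_i`, and of polynomials `U`, `W` with `U P + W P' = 1` (separable). Then all these polynomials have
values (`exists_polAt`), the degree of the value of `P` is the same because the leading
coefficient is a unit, the value is separable (`PolAt.mul`, `PolAt.unique`), some coefficient of
some `G_i`, `H_i` which is not zero is a unit, and the equations hold (`onX`): a point `(x₀, y₀)` of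
the reduced curve is the value of a point `(x, y)`, where `x = x₀` is constant and `y` is a square
root of `P(x₀)` with the value `y₀` (`y` or `-y`), compare `exists_reduction`, `ok_of_red` in
`GT/HomVA.lean`. -/
theorem exists_red {P : (Om k)[X]} {N : Mp (Om k) m} (hN : OkH d P N X) :
    ∃ Γ : Finset (Om k), (0 : Om k) ∉ Γ ∧ ∀ v : Place k (Om k),
      (∀ γ ∈ Γ, γ ∈ v.ring ∧ γ⁻¹ ∈ v.ring) →
      ∃ (P₀ : k[X]) (N₀ : Mp k m), PolAt v P P₀ ∧ MpAt v N N₀ ∧ OkH d P₀ N₀ X := by
  obtain ⟨U, W, hUW⟩ := hN.sep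
  let S : Finset (Om k) := (P.support.image P.coeff ∪ U.support.image U.coeff ∪
    W.support.image W.coeff) ∪ Finset.univ.biUnion fun i =>
    (N.G i).support.image (N.G i).coeff ∪ (N.H i).support.image (N.H i).coeff
  refine ⟨S.erase 0, Finset.notMem_erase 0 S, fun v hv => ?_⟩
  have hu : ∀ g ∈ S, g ≠ 0 → g ∈ v.ring ∧ g⁻¹ ∈ v.ring := fun g hg h =>
    hv g (Finset.mem_erase.2 ⟨h, hg⟩)
  obtain ⟨P₀, hP, hP'⟩ := RedA_pol (v := v) (p := P) fun n hn => hu _
    (Finset.mem_union_left _ (Finset.mem_union_left _ (Finset.mem_union_left _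
      (Finset.mem_image_of_mem _ (Polynomial.mem_support_iff.2 hn))))) hn
  obtain ⟨U₀, hU, -⟩ := RedA_pol (v := v) (p := U) fun n hn => hu _
    (Finset.mem_union_left _ (Finset.mem_union_left _ (Finset.mem_union_right _
      (Finset.mem_image_of_mem _ (Polynomial.mem_support_iff.2 hn))))) hn
  obtain ⟨W₀, hW, -⟩ := RedA_pol (v := v) (p := W) fun n hn => hu _
    (Finset.mem_union_left _ (Finset.mem_union_right _
      (Finset.mem_image_of_mem _ (Polynomial.mem_support_iff.2 hn)))) hn
  have hG := fun i => RedA_pol (v := v) (p := N.G i) fun n hn => hu _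
    (Finset.mem_union_right _ (Finset.mem_biUnion.2 ⟨i, Finset.mem_univ i,
      Finset.mem_union_left _ (Finset.mem_image_of_mem _ (Polynomial.mem_support_iff.2 hn))⟩)) hn
  have hH := fun i => RedA_pol (v := v) (p := N.H i) fun n hn => hu _
    (Finset.mem_union_right _ (Finset.mem_biUnion.2 ⟨i, Finset.mem_univ i,
      Finset.mem_union_right _ (Finset.mem_image_of_mem _ (Polynomial.mem_support_iff.2 hn))⟩)) hn
  choose G₀ hG₀ hG' using hG
  choose H₀ hH₀ hH' using hH
  have hNv : MpAt v N ⟨G₀, H₀⟩ := fun i => ⟨hG₀ i, hH₀ i⟩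
  have hdeg : P₀.natDegree = 2 * d := by
    have hP0 : P ≠ 0 := by
      rintro rfl
      have h1 := hN.deg
      have h2 := hN.pos
      rw [natDegree_zero] at h1
      omega
    refine le_antisymm (natDegree_le_iff_coeff_eq_zero.2 fun n hn => ?_)
      (le_natDegree_of_ne_zero (hP' _ ?_))
    · have h1 := hP n
      rw [coeff_eq_zero_of_natDegree_lt (by rw [hN.deg]; exact hn)] at h1
      exact RedA_zero h1
    · rw [← hN.deg]
      exact leadingCoeff_ne_zero.2 hP0
  have hsep : P₀.Separable := by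
    refine ⟨U₀, W₀, ?_⟩
    have h1 := (hU.mul hP).add (hW.mul (RedA_deriv hP))
    rw [hUW] at h1
    have h2 : PolAt v (1 : (Om k)[X]) (1 : k[X]) := by
      have h3 := PolAt.map (v := v) (1 : k[X])
      rwa [Polynomial.map_one] at h3
    exact h1.unique h2
  refine ⟨P₀, ⟨G₀, H₀⟩, hP, hNv, RedA_ok hN hP hNv hdeg hsep ?_⟩
  obtain ⟨i, hi⟩ := hN.ne
  refine ⟨i, ?_⟩
  rcases hi with hi | hi
  · left
    intro h
    refine hi (Polynomial.ext fun n => ?_)
    by_contra hn
    rw [Polynomial.coeff_zero] at hn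
    refine hG' i n hn ?_
    have h' : G₀ i = 0 := h
    rw [h', Polynomial.coeff_zero]
  · right
    intro h
    refine hi (Polynomial.ext fun n => ?_)
    by_contra hn
    rw [Polynomial.coeff_zero] at hn
    refine hH' i n hn ?_
    have h' : H₀ i = 0 := h
    rw [h', Polynomial.coeff_zero]

/-- If the curve and the map have values with `P₀` separable of degree `2 d` and `N₀` not zero then
the equations hold for the values (the same proof). -/
theorem okH_of_at {v : Place k (Om k)} {P : (Om k)[X]} {N : Mp (Om k) m} (hN : OkH d P N X)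
    {P₀ : k[X]} {N₀ : Mp k m} (hP : PolAt v P P₀) (hNv : MpAt v N N₀)
    (hdeg : P₀.natDegree = 2 * d) (hsep : P₀.Separable) (hne : ∃ i, N₀.G i ≠ 0 ∨ N₀.H i ≠ 0) :
    OkH d P₀ N₀ X := by
  exact RedA_ok hN hP hNv hdeg hsep hne

end Pool.Agent.GTM
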