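import Pool.Agent.GTM.Defs

/-!
# Values of polynomials at a place
-/

set_option autoImplicit false

noncomputable section

namespace Pool.Agent.GTM

open Pool.Agent.ZCyc Pool.Agent.Dess Pool.Agent.GT Polynomial
open Pool.Agent.VFP (Om tt)
open scoped Classical LinearAlgebra.Projectivization

variable {k : Type} [Field k] [IsAlgClosed k] [CharZero k] {v : Place k (Om k)}

/-- values of polynomials: sums, products, evaluation -/
theorem PolAt.add {p q : (Om k)[X]} {p₀ q₀ : k[X]} (hp : PolAt v p p₀) (hq : PolAt v q q₀) :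
    PolAt v (p + q) (p₀ + q₀) := by
  intro n
  rw [coeff_add, coeff_add]
  exact (hp n).add (hq n)

theorem PolAt.sub {p q : (Om k)[X]} {p₀ q₀ : k[X]} (hp : PolAt v p p₀) (hq : PolAt v q q₀) :
    PolAt v (p - q) (p₀ - q₀) := by
  intro n
  rw [coeff_sub, coeff_sub]
  exact (hp n).sub (hq n)

/-- `coeff_mul`, `Place.At.sum` -/
theorem PolAt.mul {p q : (Om k)[X]} {p₀ q₀ : k[X]} (hp : PolAt v p p₀) (hq : PolAt v q q₀) :
    PolAt v (p * q) (p₀ * q₀) := by
  intro n
  rw [coeff_mul, coeff_mul]
  exact Place.At.sum fun x _ => (hp x.1).mul (hq x.2)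

private theorem root_one : PolAt v (1 : (Om k)[X]) 1 := by
  intro n
  rw [coeff_one, coeff_one]
  split_ifs
  · simpa using Place.at_const (v := v) (1 : k)
  · exact VFP.at_zero

theorem PolAt.pow {p : (Om k)[X]} {p₀ : k[X]} (hp : PolAt v p p₀) (n : ℕ) :
    PolAt v (p ^ n) (p₀ ^ n) := by
  induction n with
  | zero =>
    rw [pow_zero, pow_zero]
    exact root_one
  | succ n ih =>
    rw [pow_succ, pow_succ]
    exact ih.mul hp

theorem PolAt.c {a : Om k} {a₀ : k} (h : v.At a a₀) : PolAt v (C a) (C a₀) := by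
  intro n
  rw [coeff_C, coeff_C]
  split_ifs
  · exact h
  · exact VFP.at_zero

theorem PolAt.x : PolAt v (Polynomial.X : (Om k)[X]) Polynomial.X := by
  intro n
  rw [coeff_X, coeff_X]
  split_ifs
  · simpa using Place.at_const (v := v) (1 : k)
  · exact VFP.at_zero

theorem PolAt.unique {p : (Om k)[X]} {p₀ p₁ : k[X]} (h : PolAt v p p₀) (h' : PolAt v p p₁) :
    p₀ = p₁ := by
  ext n
  exact (h n).unique (h' n)

/-- constant polynomials in the sense of coefficients in `k` -/
theorem PolAt.map (p : k[X]) : PolAt v (p.map (algebraMap k (Om k))) p := by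
  intro n
  rw [coeff_map]
  exact Place.at_const _

/-- `eval_eq_sum_range`; enlarge the range to the maximum of the degrees -/
theorem PolAt.eval {p : (Om k)[X]} {p₀ : k[X]} (hp : PolAt v p p₀) {x : Om k} {x₀ : k}
    (hx : v.At x x₀) : v.At (p.eval x) (p₀.eval x₀) := by
  have h1 : p.natDegree < p.natDegree + p₀.natDegree + 1 := by lia
  have h2 : p₀.natDegree < p.natDegree + p₀.natDegree + 1 := by lia
  rw [eval_eq_sum_range' h1, eval_eq_sum_range' h2]
  exact Place.At.sum fun i _ => (hp i).mul (hx.pow i)

/-- all coefficients of `p` are in the valuation ring: the value exists (`DCI57.exists_at`) -/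
theorem exists_polAt {p : (Om k)[X]} (h : ∀ n, p.coeff n ∈ v.ring) : ∃ p₀ : k[X], PolAt v p p₀ := by
  choose c hc using fun n => DCI57.exists_at v (h n)
  refine ⟨∑ n ∈ Finset.range (p.natDegree + 1), monomial n (c n), fun n => ?_⟩
  rw [finsetSum_coeff]
  simp only [coeff_monomial]
  rw [Finset.sum_ite_eq']
  split_ifs with hn
  · exact hc n
  · rw [coeff_eq_zero_of_natDegree_lt (by
      rw [Finset.mem_range] at hn
      lia)]
    exact VFP.at_zero

/-- Division: if `e` is monic, and `e R` and `e` have the values `e₀ R₀` and `e₀` then `R` has the value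
`R₀` (`e₀` monic). Proof: downward induction on the degree; `R` is the quotient of `e R` by the monic
polynomial `e` with coefficients in the valuation ring, therefore `R` has coefficients in the
valuation ring (`Polynomial.divByMonic` over the subring, or: the coefficients of `R` are determined
recursively from above), let `R₁` be its value, `e₀ R₁ = e₀ R₀`. -/
theorem PolAt.of_mul {e R : (Om k)[X]} {e₀ R₀ : k[X]} (he : PolAt v e e₀) (hm : e.Monic)
    (hm₀ : e₀.Monic) (h : PolAt v (e * R) (e₀ * R₀)) : PolAt v R R₀ := by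
  have hlift : ∀ p : (Om k)[X], (∀ n, p.coeff n ∈ v.ring) →
      (↑p.coeffs : Set (Om k)) ⊆ v.ring.toSubring := by
    intro p hp x hx
    obtain ⟨n, -, rfl⟩ := mem_coeffs_iff.1 hx
    exact hp n
  have he' := hlift e fun n => (he n).mem
  have hq' := hlift (e * R) fun n => (h n).mem
  have hmon : (e.toSubring _ he').Monic := (monic_toSubring e _ he').2 hm
  have hR : R = ((e * R).toSubring _ hq' /ₘ e.toSubring _ he').map
      (Subring.subtype v.ring.toSubring) := by
    rw [map_divByMonic _ hmon, map_toSubring, map_toSubring, mul_divByMonic_cancel_left _ hm]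
  obtain ⟨R₁, hR₁⟩ := exists_polAt (v := v) (p := R) fun n => by
    rw [hR, coeff_map]
    exact Subtype.prop _
  have h1 := h.unique (he.mul hR₁)
  rw [mul_left_cancel₀ hm₀.ne_zero h1]
  exact hR₁

end Pool.Agent.GTM
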