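import Pool.Agent.GTM.TrC
import Pool.Agent.GTM.Flip

/-!
# Points which tend to infinity
-/

set_option autoImplicit false

noncomputable section

namespace Pool.Agent.GTM

open Pool.Agent.ZCyc Pool.Agent.Dess Pool.Agent.GT Polynomial
open Pool.Agent.VFP (Om tt)
open scoped Classical LinearAlgebra.Projectivization

variable {k : Type} [Field k] [IsAlgClosed k] [CharZero k] {m : ℕ}
  {X : Set (MvPolynomial (Fin (m + 1)) k)} {A : Type} [CommRing A] [Algebra k A] {ν : ℕ}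

private instance : CharZero (Om k) :=
  charZero_of_injective_algebraMap (algebraMap k (Om k)).injective

omit [IsAlgClosed k] [CharZero k] in
private theorem TrD_inv {v : Place k (Om k)} {x : Om k} (hx : x ∉ v.ring) : v.At x⁻¹ 0 := by
  rw [Place.at_zero_iff, Place.vanishes_iff_or, inv_inv]
  exact Or.inr hx

omit [IsAlgClosed k] [CharZero k] in
private theorem TrD_sq {v : Place k (Om k)} {y : Om k} (hy : y ^ 2 ∈ v.ring) : y ∈ v.ring := by
  rw [← v.ring.valuation_le_one_iff, _root_.map_pow] at hy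
  rw [← v.ring.valuation_le_one_iff]
  exact (pow_le_one_iff two_ne_zero).1 hy

omit [IsAlgClosed k] [CharZero k] in
private theorem TrD_reflect {v : Place k (Om k)} {p : (Om k)[X]} {p₀ : k[X]} (h : PolAt v p p₀)
    (E : ℕ) : PolAt v (p.reflect E) (p₀.reflect E) := by
  intro n
  rw [coeff_reflect, coeff_reflect]
  exact h _

private theorem TrD_rev {P : (Om k)[X]} {d : ℕ} (hd : P.natDegree = 2 * d) {x y : Om k}
    (h : y ^ 2 = P.eval x) (hx : x ≠ 0) : (y / x ^ d) ^ 2 = P.reverse.eval x⁻¹ := by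
  letI : Invertible x := invertibleOfNonzero hx
  have h1 := eval₂_reverse_mul_pow (RingHom.id (Om k)) x P
  rw [hd, invOf_eq_inv] at h1
  change P.reverse.eval x⁻¹ * x ^ (2 * d) = P.eval x at h1
  rw [div_pow, h, ← h1, mul_comm 2 d, pow_mul]
  have h2 : (x ^ d) ^ 2 ≠ 0 := pow_ne_zero _ (pow_ne_zero _ hx)
  rw [mul_div_assoc, div_self h2, mul_one]

/-- one root -/
private theorem TrD_one (hX : Hom X) {P : (Om k)[X]} {N : Mp (Om k) m} {P₀ : k[X]} {N₀ : Mp k m}
    (hν : 0 < ν) {B δ : Om k} {B₀ δ₀ : k} (hP : P = wP ν B δ) (hP₀ : P₀ = wP ν B₀ δ₀)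
    (hN : OkH ν P N X) (hN₀ : OkH ν P₀ N₀ X) {v : Place k (Om k)} (hB : v.At B B₀)
    (hδ : v.At δ δ₀) (hNv : MpAt v N N₀) (hδn : δ ≠ 0) (hδn₀ : δ₀ ≠ 0) {ζ : k}
    (hζ : ζ ^ ν = 1) {x y : Om k} (hx : x ∉ v.ring)
    (hxy : y ^ 2 = x ^ (2 * ν) + B * x ^ ν + δ) :
    cv hX hN v (algebraMap k (Om k) ζ * x) y = cv hX hN v x y := by
  have hx0 : x ≠ 0 := by
    rintro rfl
    exact hx (zero_mem _)
  have hζ0 : ζ ≠ 0 := by
    rintro rfl
    rw [zero_pow hν.ne'] at hζ
    exact zero_ne_one hζ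
  have hζa : algebraMap k (Om k) ζ ≠ 0 := by
    rw [Ne, map_eq_zero]
    exact hζ0
  have hζν : (algebraMap k (Om k) ζ) ^ ν = 1 := by
    rw [← map_pow, hζ, map_one]
  have hPat : PolAt v P P₀ := by
    rw [hP, hP₀]
    exact wP_at hB hδ
  -- a large degree
  obtain ⟨E, hE, hE₀⟩ : ∃ E, FlipOk E ν N ∧ FlipOk E ν N₀ := by
    refine ⟨∑ i, ((N.G i).natDegree + ((N.H i).natDegree + ν) + (N₀.G i).natDegree +
      ((N₀.H i).natDegree + ν)), fun i => ?_, fun i => ?_⟩
    · have h1 := Finset.single_le_sum (f := fun i => ((N.G i).natDegree +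
        ((N.H i).natDegree + ν) + (N₀.G i).natDegree + ((N₀.H i).natDegree + ν)))
        (fun _ _ => Nat.zero_le _) (Finset.mem_univ i)
      constructor <;> omega
    · have h1 := Finset.single_le_sum (f := fun i => ((N.G i).natDegree +
        ((N.H i).natDegree + ν) + (N₀.G i).natDegree + ((N₀.H i).natDegree + ν)))
        (fun _ _ => Nat.zero_le _) (Finset.mem_univ i)
      constructor <;> omega
  have hc : P.coeff 0 ≠ 0 := by
    rw [hP, wP_coeff_zero hν]
    exact hδn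
  have hc₀ : P₀.coeff 0 ≠ 0 := by
    rw [hP₀, wP_coeff_zero hν]
    exact hδn₀
  have hrev : PolAt v P.reverse P₀.reverse := by
    intro n
    rw [coeff_reverse, coeff_reverse, hN.deg, hN₀.deg]
    exact hPat _
  have hNf : MpAt v (flipN E ν N) (flipN E ν N₀) := fun i =>
    ⟨TrD_reflect (hNv i).1 E, TrD_reflect (hNv i).2 (E - ν)⟩
  have hy : y ^ 2 = P.eval x := by
    rw [hP, wP_eval]
    exact hxy
  have hy' : y ^ 2 = P.eval (algebraMap k (Om k) ζ * x) := by
    rw [hP, wP_eval, mul_pow, mul_pow, mul_comm 2 ν, pow_mul (algebraMap k (Om k) ζ), hζν,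
      one_pow, one_mul, one_mul, mul_comm ν 2]
    exact hxy
  have hx1 : v.At x⁻¹ 0 := TrD_inv hx
  have hx2 : v.At (algebraMap k (Om k) ζ * x)⁻¹ 0 := by
    rw [mul_inv, ← map_inv₀]
    have h1 := (Place.at_const (v := v) ζ⁻¹).mul hx1
    rwa [mul_zero] at h1
  -- the flipped point
  have hfl : (y / x ^ ν) ^ 2 = 1 + B * x⁻¹ ^ ν + δ * x⁻¹ ^ (2 * ν) := by
    have h1 : x ^ ν ≠ 0 := pow_ne_zero _ hx0
    rw [div_pow, hxy, inv_pow, inv_pow, mul_comm 2 ν, pow_mul]
    field_simp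
  have hmem : y / x ^ ν ∈ v.ring := by
    refine TrD_sq ?_
    rw [hfl]
    exact add_mem (add_mem (one_mem _) (mul_mem hB.mem (pow_mem hx1.mem _)))
      (mul_mem hδ.mem (pow_mem hx1.mem _))
  obtain ⟨y₀, hy₀⟩ := DCI57.exists_at v hmem
  have hrevx : (y / x ^ ν) ^ 2 = P.reverse.eval x⁻¹ := TrD_rev hN.deg hy hx0
  have hyx : y / (algebraMap k (Om k) ζ * x) ^ ν = y / x ^ ν := by
    rw [mul_pow, hζν, one_mul]
  rw [cv_flip hX hN v hc hE hy' (mul_ne_zero hζa hx0), cv_flip hX hN v hc hE hy hx0, hyx,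
    cv_eq_ck hX (hN.flip hX hc hE) (hN₀.flip hX hc₀ hE₀) hrev hNf hx1 hy₀ hrevx]
  refine cv_eq_ck hX (hN.flip hX hc hE) (hN₀.flip hX hc₀ hE₀) hrev hNf hx2 hy₀ ?_
  rw [← hyx]
  exact TrD_rev hN.deg hy' (mul_ne_zero hζa hx0)

/-- Points which tend to infinity: rotation does not change the class. For every root `θ`:
`cv_flip` with a large `E`, then `cv_eq_ck` for the flipped curve `P.reverse = δ x ^ (2 ν) + B x ^ ν + 1`
and the flipped coordinates, which also have values (reflection of coefficients; the reduction is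
`OkH` by `okH_of_at`, or as the flip of the reduction with the same `E`, which is large enough
because the degrees do not grow); both points tend to the point with `x' = 0` and the same `y'`
(`y' = y / x ^ ν`, `ζ ^ ν = 1`; `y'` has a value because
`y' ² = 1 + B x' ^ ν + δ x' ^ (2 ν)`). -/
theorem TV_inf (hX : Hom X) {d : GD A m} (hd : OkW ν d X) {S : A →ₐ[k] Om k} {s : A →ₐ[k] k}
    {v : Place k (Om k)} (h : ∀ a : A, v.At (S a) (s a)) {ζ : k} (hζ : ζ ^ ν = 1) {x y : Om k}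
    (hx : x ∉ v.ring) (hxy : y ^ 2 = x ^ (2 * ν) + S d.B * x ^ ν + S d.α) :
    TV hX hd S v (algebraMap k (Om k) ζ * x) y = TV hX hd S v x y := by
  have hy2 : ∀ θ : {θ // θ ∈ d.rts (S : A →+* Om k)},
      cv hX (hd.mp_ok S θ.2) v (algebraMap k (Om k) ζ * x) y =
        cv hX (hd.mp_ok S θ.2) v x y := by
    intro θ
    obtain ⟨e, he⟩ := rts_equiv hd.monic hd.sep h
    refine TrD_one hX hd.pos rfl rfl (hd.mp_ok S θ.2) (hd.mp_ok s (e θ).2) (h d.B) (h d.α)
      (mp_at h (he θ)) (hd.unit.map S).ne_zero (hd.unit.map s).ne_zero hζ hx hxy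
  unfold TV
  exact Finset.sum_congr rfl fun θ _ => hy2 θ

end Pool.Agent.GTM
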