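import Pool.Agent.GTM.ConvB
import Pool.Agent.GTM.Lcs
import Pool.Agent.GTM.BadZ
import Pool.Agent.GTM.TrD
import Pool.Agent.GTM.Base
import Pool.Agent.GT.Reg

/-!
# The system of classes
-/

set_option autoImplicit false

noncomputable section

namespace Pool.Agent.GTM

open Pool.Agent.ZCyc Pool.Agent.Dess Pool.Agent.GT Polynomial
open Pool.Agent.VFP (Om tt)
open scoped Classical LinearAlgebra.Projectivization

open Pool.Agent.TInc Pool.Agent.DK

variable {k L : Type} [Field k] [IsAlgClosed k] [CharZero k] [Field L] [Algebra k L] {m : ℕ}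
  {X : Set (MvPolynomial (Fin (m + 1)) k)} {U : Set (Place k L)} {n ν : ℕ} [NeZero ν]

/-- the coefficients over the function field for the data over the ring of functions regular on
`U` -/
def wcf (d : GD (regU U) m) (A : Place k L →₀ ℤ) : Wcf k L := ⟨d.B, d.α, A⟩

/-- the classes of the rotations of a point over `k` (with scaled coordinates) -/
def clsK (hX : Hom X) {d : GD (regU U) m} (hd : OkW ν d X) (hL : IsCurve k L) (ζ : k) (c : U)
    (u : k) : WPt k → ZMod ν → CH X Unit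
  | none, _ => 0
  | some (w, y), a => TK hX hd (evk hL c) (ζ ^ a.val * (w / u)) (y / u ^ ν)

/-- the classes of the limits of the rotations of a point over `Om k` (with scaled coordinates) -/
def clsV (hX : Hom X) {d : GD (regU U) m} (hd : OkW ν d X) (hL : IsCurve k L) (ζ : k)
    (v : Place k (Om k)) (S : (L →ₐ[k] Om k) ⊕ U) (u : Om k) : WPt (Om k) → ZMod ν → CH X Unit
  | none, _ => 0
  | some (w, y), a =>
    TV hX hd (evS hL S) v (algebraMap k (Om k) ζ ^ a.val * (w / u)) (y / u ^ ν)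

/-- The class of an `n`-tuple of points. -/
def clF (hX : Hom X) {d : GD (regU U) m} (hd : OkW ν d X) (hL : IsCurve k L) (ζ : k)
    (A : Place k L →₀ ℤ) (s : Fin n → U × (Place k L → kˣ)) (p : Fin n → WPt k) :
    ZMod ν → CH X (Fin n) :=
  dcv (Alt (Ext hX n)) fun j => clsK hX hd hL ζ (s j).1 (scl (s j).2 A) (p j)

/-- The class of the limit of an `n`-tuple of points over `Om k`. -/
def clV (hX : Hom X) {d : GD (regU U) m} (hd : OkW ν d X) (hL : IsCurve k L) (ζ : k)
    (A : Place k L →₀ ℤ) (v : Place k (Om k))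
    (S : Fin n → ((L →ₐ[k] Om k) ⊕ U) × (Place k L → (Om k)ˣ)) (P : Fin n → WPt (Om k)) :
    ZMod ν → CH X (Fin n) :=
  dcv (Alt (Ext hX n)) fun j => clsV hX hd hL ζ v (S j).1 (scl (S j).2 A) (P j)

/-- scaling of the equation -/
private theorem sys_eq {K : Type} [Field K] {u w y B δ : K} (hu : u ≠ 0)
    (h : y ^ 2 = w ^ (2 * ν) + u ^ ν * B * w ^ ν + u ^ (2 * ν) * δ) :
    (y / u ^ ν) ^ 2 = (w / u) ^ (2 * ν) + B * (w / u) ^ ν + δ := by
  have h1 : u ^ ν ≠ 0 := pow_ne_zero _ hu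
  have h2 : ∀ x : K, x ^ (2 * ν) = (x ^ ν) ^ 2 := fun x => by rw [← pow_mul, mul_comm]
  rw [div_pow, div_pow, div_pow, h, h2 w, h2 u]
  field_simp

private theorem sys_rot {K : Type} [Field K] {e x : K} (he : e ^ ν = 1) :
    (e * x) ^ ν = x ^ ν ∧ (e * x) ^ (2 * ν) = x ^ (2 * ν) := by
  have h1 : (e * x) ^ ν = x ^ ν := by rw [mul_pow, he, one_mul]
  refine ⟨h1, ?_⟩
  rw [mul_comm 2 ν, pow_mul, pow_mul, h1]

private theorem sys_root {ζ : k} (hζ : ζ ^ ν = 1) (a : ℕ) : (ζ ^ a) ^ ν = 1 := by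
  rw [← pow_mul, mul_comm, pow_mul, hζ, one_pow]

private theorem sys_shift {ζ : k} (hζ : ζ ^ ν = 1) (a : ZMod ν) :
    ζ ^ (a + 1).val = ζ ^ a.val * ζ := by
  rw [ZMod.val_add, ← pow_succ, ZMod.val_one_eq_one_mod, Nat.add_mod_mod, ← pow_eq_pow_mod _ hζ]

/-- if rotations do not change the class then `clsV` is constant -/
private theorem sys_cst {hX : Hom X} {d : GD (regU U) m} {hd : OkW ν d X} {hL : IsCurve k L}
    {ζ : k} (hζ : ζ ^ ν = 1) {v : Place k (Om k)} {S : (L →ₐ[k] Om k) ⊕ U} {u w y : Om k}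
    (h : ∀ e : k, e ^ ν = 1 → TV hX hd (evS hL S) v (algebraMap k (Om k) e * (w / u)) (y / u ^ ν) =
      TV hX hd (evS hL S) v (w / u) (y / u ^ ν)) (a b : ZMod ν) :
    clsV hX hd hL ζ v S u (some (w, y)) a = clsV hX hd hL ζ v S u (some (w, y)) b := by
  change TV hX hd (evS hL S) v (algebraMap k (Om k) ζ ^ a.val * (w / u)) (y / u ^ ν) =
    TV hX hd (evS hL S) v (algebraMap k (Om k) ζ ^ b.val * (w / u)) (y / u ^ ν)
  rw [← map_pow, ← map_pow, h _ (sys_root hζ _), h _ (sys_root hζ _)]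

/-- points which tend to a point over `0` or infinity -/
private theorem sys_pole {hX : Hom X} {d : GD (regU U) m} {hd : OkW ν d X} {hL : IsCurve k L}
    {ζ : k} (hζ : ζ ^ ν = 1) {A : Place k L →₀ ℤ} {v : Place k (Om k)}
    {S : (L →ₐ[k] Om k) ⊕ U} {l : Place k L → (Om k)ˣ} {c : U} {l' : Place k L → kˣ}
    (h : Over v S c.1) (hl : ∀ q, v.At (l q : Om k) (l' q : k)) {P : WPt (Om k)}
    (hP : WOn ν (scl l A ^ (2 * ν) * evO S (d.α : L)) (scl l A ^ ν * evO S (d.B : L)) P)
    (hp : WVal v P none) (a b : ZMod ν) :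
    clsV hX hd hL ζ v S (scl l A) P a = clsV hX hd hL ζ v S (scl l A) P b := by
  rcases P with _ | ⟨w, y⟩
  · rfl
  · have hu : scl l A ≠ 0 := scl_ne _ _
    have hu' : scl l' A ≠ 0 := scl_ne _ _
    have huv : v.At (scl l A) (scl l' A) := at_scl hl A
    obtain ⟨hw, hy⟩ := hP
    have hxy : (y / scl l A ^ ν) ^ 2 = (w / scl l A) ^ (2 * ν) +
        evS hL S d.B * (w / scl l A) ^ ν + evS hL S d.α := by
      rw [evS_eq, evS_eq]
      exact sys_eq hu hy
    refine sys_cst hζ (fun e he => ?_) a b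
    rcases hp with hp | hp
    · refine TV_inf hX hd (over_ev hL h) he (fun hx => hp ?_) hxy
      have h1 : w = w / scl l A * scl l A := by rw [div_mul_cancel₀ _ hu]
      rw [h1]
      exact v.ring.mul_mem _ _ hx huv.mem
    · refine TV_zero hX hd (over_ev hL h) he ?_ hxy
      have h1 := hp.div huv hu'
      rwa [zero_div] at h1

/-- places where the curve is singular -/
private theorem sys_bad {hX : Hom X} {d : GD (regU U) m} {hd : OkW ν d X} {hL : IsCurve k L}
    {ζ : k} (hζ : ζ ^ ν = 1) {A : Place k L →₀ ℤ} {v : Place k (Om k)}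
    {Z : Set (Place k L)} (hZ : ∀ q ∈ Z, q.At ((d.B : L) ^ 2 / (d.α : L)) 4)
    (hUZ : ∀ q ∈ Z, q ∉ U) {S : (L →ₐ[k] Om k) ⊕ U} {l : Place k L → (Om k)ˣ}
    {q : Place k L} (hq : q ∈ Z) (h : Over v S q) {P : WPt (Om k)}
    (hP : WOn ν (scl l A ^ (2 * ν) * evO S (d.α : L)) (scl l A ^ ν * evO S (d.B : L)) P)
    (a b : ZMod ν) :
    clsV hX hd hL ζ v S (scl l A) P a = clsV hX hd hL ζ v S (scl l A) P b := by
  rcases P with _ | ⟨w, y⟩
  · rfl
  · have hu : scl l A ≠ 0 := scl_ne _ _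
    obtain ⟨hw, hy⟩ := hP
    rcases S with σ | c
    · refine sys_cst hζ (fun e he => ?_) a b
      exact TV_bad hX hL hd h (hZ q hq) he (div_ne_zero hw hu) (sys_eq hu hy)
    · have h1 : c.1 = q := h
      exact absurd (h1 ▸ c.2) (hUZ q hq)

/-- good reduction of one factor -/
private theorem sys_red {hX : Hom X} {d : GD (regU U) m} {hd : OkW ν d X} {hL : IsCurve k L}
    {ζ : k} (hζ : ζ ^ ν = 1) {A : Place k L →₀ ℤ} {v : Place k (Om k)}
    {S : (L →ₐ[k] Om k) ⊕ U} {l : Place k L → (Om k)ˣ} {c : U} {l' : Place k L → kˣ}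
    (h : Over v S c.1) (hl : ∀ q, v.At (l q : Om k) (l' q : k)) {P : WPt (Om k)} {p : WPt k}
    (hP : WOn ν (scl l A ^ (2 * ν) * evO S (d.α : L)) (scl l A ^ ν * evO S (d.B : L)) P)
    (hp : WVal v P p) (hne : p ≠ none) (a : ZMod ν) :
    clsV hX hd hL ζ v S (scl l A) P a = clsK hX hd hL ζ c (scl l' A) p a := by
  rcases p with _ | ⟨w', y'⟩
  · exact absurd rfl hne
  rcases P with _ | ⟨w, y⟩
  · exact absurd hp id
  have hu : scl l A ≠ 0 := scl_ne _ _
  have hu' : scl l' A ≠ 0 := scl_ne _ _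
  have huv : v.At (scl l A) (scl l' A) := at_scl hl A
  obtain ⟨hw, hy⟩ := hP
  obtain ⟨_, hw', hy'⟩ := hp
  have hxy : (y / scl l A ^ ν) ^ 2 = (w / scl l A) ^ (2 * ν) +
      evS hL S d.B * (w / scl l A) ^ ν + evS hL S d.α := by
    rw [evS_eq, evS_eq]
    exact sys_eq hu hy
  have hr := sys_rot (ν := ν) (e := algebraMap k (Om k) ζ ^ a.val) (x := w / scl l A) (by
    rw [← map_pow, ← map_pow, sys_root hζ, map_one])
  refine TV_eq_TK hX hd (over_ev hL h) ?_ (hy'.div (huv.pow ν) (pow_ne_zero _ hu')) ?_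
  · exact ((Place.at_const ζ).pow a.val).mul (hw'.div huv hu')
  · rw [hr.1, hr.2]
    exact hxy

/-- the value of a point on the curve is on the curve -/
private theorem sys_on {v : Place k (Om k)} {δ B : Om k} {δ₀ B₀ : k} (hδ : v.At δ δ₀)
    (hB : v.At B B₀) {P : WPt (Om k)} {p : WPt k} (hP : WOn ν δ B P) (hp : WVal v P p) :
    WOn ν δ₀ B₀ p := by
  rcases p with _ | ⟨w', y'⟩
  · trivial
  rcases P with _ | ⟨w, y⟩
  · exact absurd hp id
  obtain ⟨hw, hy⟩ := hP
  obtain ⟨hw0, hw', hy'⟩ := hp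
  refine ⟨hw0, ?_⟩
  have h1 := hy'.pow 2
  rw [hy] at h1
  exact Place.At.unique h1 (((hw'.pow (2 * ν)).add (hB.mul (hw'.pow ν))).add hδ)

/-- all classes `clsV` are limits of one cycle -/
private theorem sys_cyc1 (hX : Hom X) {d : GD (regU U) m} (hd : OkW ν d X) (hL : IsCurve k L)
    (ζ : k) (S : (L →ₐ[k] Om k) ⊕ U) (u : Om k) (P : WPt (Om k)) (a : ZMod ν) :
    ∃ z : Pt X (Om k) →₀ ℚ, ∀ v : Place k (Om k), lim1 hX v z = clsV hX hd hL ζ v S u P a := by
  rcases P with _ | ⟨w, y⟩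
  · exact ⟨0, fun v => map_zero _⟩
  · exact exists_cycle hX hd (evS hL S) _ _

private theorem sys_cyc (hX : Hom X) {d : GD (regU U) m} (hd : OkW ν d X) (hL : IsCurve k L)
    (ζ : k) (A : Place k L →₀ ℤ)
    (S : Fin n → ((L →ₐ[k] Om k) ⊕ U) × (Place k L → (Om k)ˣ)) (P : Fin n → WPt (Om k))
    (l : ZMod ν) : ∃ z : (Fin n → Pt X (Om k)) →₀ ℚ, ∀ v : Place k (Om k),
      lim hX v z = clV hX hd hL ζ A v S P l := by
  choose z hz using fun (j : Fin n) (a : ZMod ν) =>
    sys_cyc1 hX hd hL ζ (S j).1 (scl (S j).2 A) (P j) a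
  obtain ⟨Z₁, h₁⟩ := conv_cycle hX z l
  obtain ⟨Z₂, h₂⟩ := conv_cycle hX z (l + 1)
  refine ⟨Z₁ - Z₂, fun v => ?_⟩
  rw [map_sub, h₁, h₂]
  simp only [hz]
  rfl

private theorem sys_cycc (hX : Hom X) {d : GD (regU U) m} (hd : OkW ν d X) (hL : IsCurve k L)
    (ζ : k) (A : Place k L →₀ ℤ)
    (S : Fin n → ((L →ₐ[k] Om k) ⊕ U) × (Place k L → (Om k)ˣ)) (P : Fin n → WPt (Om k))
    (c : ZMod ν → ℚ) (l : ZMod ν) :
    ∃ z : (Fin n → Pt X (Om k)) →₀ ℚ, ∀ v : Place k (Om k),
      lim hX v z = lcs c (clV hX hd hL ζ A v S P) l := by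
  choose z hz using fun i : ZMod ν => sys_cyc hX hd hL ζ A S P (l + i)
  refine ⟨∑ i, c i • z i, fun v => ?_⟩
  rw [lcs_apply, map_sum]
  refine Finset.sum_congr rfl fun i _ => ?_
  rw [map_smul, hz]

/-- The system of classes for the base of `wcf d A` (for `c = Pi.single 0 1`, `lcs c = id`; in general
all classes are replaced by linear combinations of their shifts): `F s p = clF` if all points are on the curves
(and `0` otherwise), `Val v S P w` means `w = clV v S P`, `om = shift`. `U` is a set of good places, `Z` a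
set of places where `B ² / δ` has the value `4`, disjoint from `U`.
Proof. `perm`: `dcv_perm`. `rot`: `dcv_rot` (`ζ ^ a.val * (ζ w) = ζ ^ (a + 1).val * w` because
`ζ ^ ν = 1`; the rotated point is on the curve). `inf`: `dcv_const`. `off`: by definition. `fin`: for all
`j`: if `p j` is a point then `clsV = clsK` (`TV_eq_TK`, `over_ev`, `at_scl`; the scaling factor is
not zero); if some `p j = none` then both sides are zero, see `pole`. `pole`: `P j = none`, or the first
coordinate of `P j` tends to `0` or is not in the valuation ring, then `clsV` does not depend on `a`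
(`TV_zero`, `TV_inf`, `over_ev`) and `dcv_const` applies. `sing`: `Over v S δ` for a place `δ ∈ Z`; `S` is
an embedding (because `δ ∉ U`), `TV_bad`, `dcv_const`. `bridge`: `GT.bridge` (`GT/Mov.lean`) for every
value of the functions on `ZMod ν`: the cycle `∑ c x • (Z_x(l) - Z_x(l + 1))` of `conv_cycle`,
`exists_cycle`. Compare `exists_sys` in `GT/Sys.lean`. -/
theorem exists_sysWc (hX : Hom X) (hL : IsCurve k L) {d : GD (regU U) m} (hd : OkW ν d X)
    {ζ : k} (hζ : ζ ^ ν = 1) (A : Place k L →₀ ℤ) (hU : ∀ c ∈ U, (wcf d A).Good c)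
    {Z : Set (Place k L)} (hZ : ∀ q ∈ Z, q.At ((d.B : L) ^ 2 / (d.α : L)) 4)
    (hUZ : ∀ q ∈ Z, q ∉ U) (n : ℕ) (c : ZMod ν → ℚ) :
    ∃ Y : SysW ν ζ ((wcf d A).base ν hL U hU Z) n (ZMod ν → CH X (Fin n)),
      (∀ s p, ((wcf d A).base ν hL U hU Z).On ν s p → Y.F s p = lcs c (clF hX hd hL ζ A s p)) ∧
      Y.om = shift ν (CH X (Fin n)) := by
  have hν : ν ≠ 0 := NeZero.ne ν
  have hζ0 : ζ ≠ 0 := by
    rintro rfl
    rw [zero_pow hν] at hζ
    exact zero_ne_one hζ
  have hpole : ∀ (v : Place k (Om k))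
      (S : Fin n → ((L →ₐ[k] Om k) ⊕ U) × (Place k L → (Om k)ˣ)) (P : Fin n → WPt (Om k)),
      ((wcf d A).base ν hL U hU Z).OnQ ν S P → ∀ (j : Fin n) (c : U × (Place k L → kˣ)),
      ((wcf d A).base ν hL U hU Z).At v (S j) c → WVal v (P j) none →
      clV hX hd hL ζ A v S P = 0 := by
    intro v S P hP j c hc hp
    exact dcv_const _ _ j fun a b => sys_pole hζ hc.1 hc.2 (hP j) hp a b
  have hinf : ∀ (s : Fin n → U × (Place k L → kˣ)) (p : Fin n → WPt k) (j : Fin n),
      p j = none → clF hX hd hL ζ A s p = 0 := by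
    intro s p j hp
    refine dcv_const _ _ j fun a b => ?_
    rw [hp]
    rfl
  refine ⟨{
    F := fun s p => if ((wcf d A).base ν hL U hU Z).On ν s p then
      lcs c (clF hX hd hL ζ A s p) else 0
    Val := fun v S P w => w = lcs c (clV hX hd hL ζ A v S P)
    om := shift ν (CH X (Fin n))
    perm := ?_
    rot := ?_
    inf := ?_
    off := ?_
    fin := ?_
    pole := ?_
    sing := ?_
    bridge := ?_ }, ?_, rfl⟩
  · intro s p π
    have h1 : ((wcf d A).base ν hL U hU Z).On ν (s ∘ π) (p ∘ π) ↔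
        ((wcf d A).base ν hL U hU Z).On ν s p := by
      constructor
      · intro h j
        obtain ⟨j, rfl⟩ := π.surjective j
        exact h j
      · intro h j
        exact h (π j)
    by_cases h2 : ((wcf d A).base ν hL U hU Z).On ν s p
    · rw [if_pos (h1.2 h2), if_pos h2, ← map_zsmul]
      congr 1
      exact dcv_perm (Ext hX n) (fun j => clsK hX hd hL ζ (s j).1 (scl (s j).2 A) (p j)) π
    · rw [if_neg fun h => h2 (h1.1 h), if_neg h2, smul_zero]
  · intro s p j w σ hp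
    have h3 : WOn ν (((wcf d A).base ν hL U hU Z).ed s j)
        (((wcf d A).base ν hL U hU Z).eb s j) (some (ζ * w, σ)) ↔
        WOn ν (((wcf d A).base ν hL U hU Z).ed s j)
        (((wcf d A).base ν hL U hU Z).eb s j) (some (w, σ)) := by
      change (ζ * w ≠ 0 ∧ σ ^ 2 = (ζ * w) ^ (2 * ν) + _ * (ζ * w) ^ ν + _) ↔
        (w ≠ 0 ∧ σ ^ 2 = w ^ (2 * ν) + _ * w ^ ν + _)
      rw [(sys_rot hζ).1, (sys_rot hζ).2]
      constructor
      · rintro ⟨h4, h5⟩
        exact ⟨right_ne_zero_of_mul h4, h5⟩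
      · rintro ⟨h4, h5⟩
        exact ⟨mul_ne_zero hζ0 h4, h5⟩
    have h1 : ((wcf d A).base ν hL U hU Z).On ν s (Function.update p j (some (ζ * w, σ))) ↔
        ((wcf d A).base ν hL U hU Z).On ν s p := by
      constructor
      · intro h j'
        have h4 := h j'
        by_cases hj : j' = j
        · subst hj
          rw [Function.update_self] at h4
          rw [hp]
          exact h3.1 h4
        · rw [Function.update_of_ne hj] at h4
          exact h4
      · intro h j'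
        have h4 := h j'
        by_cases hj : j' = j
        · subst hj
          rw [Function.update_self]
          rw [hp] at h4
          exact h3.2 h4
        · rw [Function.update_of_ne hj]
          exact h4
    by_cases h2 : ((wcf d A).base ν hL U hU Z).On ν s p
    · rw [if_pos (h1.2 h2), if_pos h2, ← lcs_shift]
      congr 1
      unfold clF
      rw [← dcv_rot _ _ j]
      congr 1
      funext j' a
      by_cases hj : j' = j
      · subst hj
        rw [Function.update_self, Function.update_self, hp]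
        change TK hX hd (evk hL (s j').1) (ζ ^ a.val * (ζ * w / scl (s j').2 A)) _ =
          TK hX hd (evk hL (s j').1) (ζ ^ (a + 1).val * (w / scl (s j').2 A)) _
        rw [sys_shift hζ, mul_assoc, mul_div_assoc]
      · rw [Function.update_of_ne hj, Function.update_of_ne hj]
    · rw [if_neg fun h => h2 (h1.1 h), if_neg h2, map_zero]
  · intro s p j hp
    by_cases h2 : ((wcf d A).base ν hL U hU Z).On ν s p
    · rw [if_pos h2, hinf s p j hp, map_zero]
    · rw [if_neg h2]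
  · intro s p h
    exact if_neg h
  · intro v S P hP s p hs hp
    by_cases hn : ∃ j, p j = none
    · obtain ⟨j, hj⟩ := hn
      have h1 := hp j
      rw [hj] at h1
      rw [hpole v S P hP j (s j) (hs j) h1, hinf s p j hj, map_zero]
      split_ifs <;> rfl
    · push Not at hn
      have h1 : ((wcf d A).base ν hL U hU Z).On ν s p := fun j =>
        sys_on (((wcf d A).base ν hL U hU Z).at_de v _ _ (hs j))
          (((wcf d A).base ν hL U hU Z).at_be v _ _ (hs j)) (hP j) (hp j)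
      rw [if_pos h1]
      congr 1
      unfold clF clV
      congr 1
      funext j a
      exact (sys_red hζ (hs j).1 (hs j).2 (hP j) (hp j) (hn j) a).symm
  · intro v S P hP j c' hc hp
    rw [hpole v S P hP j c' hc hp, map_zero]
  · intro v S P hP j hb
    obtain ⟨q, hq, hov⟩ := hb
    have h1 : clV hX hd hL ζ A v S P = 0 :=
      dcv_const _ _ j fun a b => sys_bad hζ hZ hUZ hq hov (hP j) a b
    rw [h1, map_zero]
  · intro I _ w S P hP c₀ c₁ C₀ C₁ h₀ h₁
    funext l
    choose z hz using fun x : I => sys_cycc hX hd hL ζ A (S x) (P x) c l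
    have key : ∀ v : Place k (Om k), ∀ C : I → ZMod ν → CH X (Fin n),
        (∀ x, C x = lcs c (clV hX hd hL ζ A v (S x) (P x))) →
        lim hX v (∑ x, w x • z x) = (∑ x, w x • C x) l := by
      intro v C hC
      rw [map_sum, Finset.sum_apply]
      refine Finset.sum_congr rfl fun x _ => ?_
      rw [map_smul, hz, hC]
      rfl
    refine GT.bridge hX (∑ x, w x • z x) (c₀ := c₀) (c₁ := c₁) (fun v hv => ?_) fun v hv => ?_
    · obtain ⟨C, hC, hC'⟩ := h₀ v hv
      rw [key v C hC, hC']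
    · obtain ⟨C, hC, hC'⟩ := h₁ v hv
      rw [key v C hC, hC']
  · intro s p h
    exact if_pos h


/-- The special case without linear combinations. -/
theorem exists_sysW (hX : Hom X) (hL : IsCurve k L) {d : GD (regU U) m} (hd : OkW ν d X)
    {ζ : k} (hζ : ζ ^ ν = 1) (A : Place k L →₀ ℤ) (hU : ∀ c ∈ U, (wcf d A).Good c)
    {Z : Set (Place k L)} (hZ : ∀ q ∈ Z, q.At ((d.B : L) ^ 2 / (d.α : L)) 4)
    (hUZ : ∀ q ∈ Z, q ∉ U) (n : ℕ) :
    ∃ Y : SysW ν ζ ((wcf d A).base ν hL U hU Z) n (ZMod ν → CH X (Fin n)),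
      (∀ s p, ((wcf d A).base ν hL U hU Z).On ν s p → Y.F s p = clF hX hd hL ζ A s p) ∧
      Y.om = shift ν (CH X (Fin n)) := by
  obtain ⟨Y, h₁, h₂⟩ := exists_sysWc hX hL hd hζ A hU hZ hUZ n (Pi.single 0 1)
  refine ⟨Y, fun s p h => ?_, h₂⟩
  rw [h₁ s p h, lcs_single]

end Pool.Agent.GTM
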