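import Pool.Agent.GTM.MovW
import Pool.Agent.GTM.Spread
import Pool.Agent.GT.Cov

/-!
# Values at places
-/

set_option autoImplicit false

noncomputable section

namespace Pool.Agent.GTM

open Pool.Agent.ZCyc Pool.Agent.Dess Pool.Agent.GT Polynomial
open Pool.Agent.VFP (Om tt)
open scoped Classical LinearAlgebra.Projectivization

open Pool.Agent.TInc

variable {k L : Type} [Field k] [Field L] [Algebra k L] {m ν : ℕ}
  {X : Set (MvPolynomial (Fin (m + 1)) k)}

/-- The points `P b` are the values at the place `v` of the images `φ_θ(x, y)` of a point `(x, y)` of the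
curve `y ² = x ^ (2 ν) + B x ^ ν + δ` (`δ = d.α`), for all the roots `θ b` of `h`. -/
structure IsValsW (ν : ℕ) (d : GD L m) (X : Set (MvPolynomial (Fin (m + 1)) k)) {K : Type}
    [Field K] [Algebra k K] (σ : L →ₐ[k] K) (v : Place k K) {e : ℕ} (θ : Fin e → K) (x y : K)
    (P : Fin e → Pt X k) : Prop where
  roots : d.h.map (σ : L →+* K) = ∏ b, (Polynomial.X - Polynomial.C (θ b))
  on : y ^ 2 = x ^ (2 * ν) + σ d.B * x ^ ν + σ d.α
  val : ∀ b, ∃ l : K, ∀ i, v.At (l * (d.mp (σ : L →+* K) (θ b)).co x y i) ((P b).1.rep i)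

/-- the coordinates under an extension of fields -/
private theorem vls_co {K K' : Type} [Field K] [Field K'] {A : Type} [CommRing A] (d : GD A m)
    (S : A →+* K) (ι : K →+* K') (θ x y : K) (i : Fin (m + 1)) :
    (d.mp (ι.comp S) (ι θ)).co (ι x) (ι y) i = ι ((d.mp S θ).co x y i) := by
  have h : Polynomial.eval₂RingHom (ι.comp S) (ι θ) = ι.comp (Polynomial.eval₂RingHom S θ) := by
    refine Polynomial.ringHom_ext (fun a => ?_) ?_
    · simp
    · simp
  unfold Mp.co GD.mp
  simp only [h]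
  rw [map_add, map_mul, ← Polynomial.map_map, ← Polynomial.map_map, Polynomial.eval_map_apply,
    Polynomial.eval_map_apply]

/-- values under an extension of fields -/
private theorem vls_at {K K' : Type} [Field K] [Algebra k K] [Field K'] [Algebra k K']
    {φ : K →ₐ[k] K'} {V : Place k K'} {v : Place k K}
    (hV : V.ring.comap (φ : K →+* K') = v.ring) (f : K) (c : k) :
    V.At (φ f) c ↔ v.At f c := by
  have hmem : ∀ f : K, φ f ∈ V.ring ↔ f ∈ v.ring := by
    intro f
    rw [← hV, ValuationSubring.mem_comap]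
    rfl
  unfold Place.At
  rw [Place.vanishes_iff_or, Place.vanishes_iff_or, ← φ.commutes c, ← map_sub, ← map_inv₀,
    hmem, map_eq_zero]

theorem IsValsW.map {d : GD L m} {K K' : Type} [Field K] [Algebra k K] [Field K'] [Algebra k K']
    {σ : L →ₐ[k] K} {v : Place k K} {e : ℕ} {θ : Fin e → K} {x y : K} {P : Fin e → Pt X k}
    (h : IsValsW ν d X σ v θ x y P) {φ : K →ₐ[k] K'} {V : Place k K'}
    (hV : V.ring.comap (φ : K →+* K') = v.ring) :
    IsValsW ν d X (φ.comp σ) V (fun b => φ (θ b)) (φ x) (φ y) P := by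
  refine ⟨?_, ?_, fun a => ?_⟩
  · have h1 : (d.h.map (σ : L →+* K)).map (φ : K →+* K') =
        d.h.map ((φ.comp σ : L →ₐ[k] K') : L →+* K') := by
      rw [Polynomial.map_map]
      rfl
    rw [← h1, h.roots, Polynomial.map_prod]
    refine Finset.prod_congr rfl fun a _ => ?_
    rw [Polynomial.map_sub, Polynomial.map_X, Polynomial.map_C]
    rfl
  · have h1 := congrArg φ h.on
    simp only [map_pow, map_add, map_mul] at h1
    exact h1
  · obtain ⟨l, hl⟩ := h.val a
    refine ⟨φ l, fun i => ?_⟩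
    have h1 := (vls_at hV _ _).2 (hl i)
    rw [map_mul] at h1
    have h2 := vls_co d (σ : L →+* K) (φ : K →+* K') (θ a) x y i
    have h3 : ((φ : K →+* K').comp (σ : L →+* K)) = ((φ.comp σ : L →ₐ[k] K') : L →+* K') := rfl
    rw [h3] at h2
    have h4 : (φ : K →+* K') ((d.mp (σ : L →+* K) (θ a)).co x y i) =
      φ ((d.mp (σ : L →+* K) (θ a)).co x y i) := rfl
    rw [h4] at h2
    rw [← h2] at h1
    exact h1

variable [IsAlgClosed k] [CharZero k]

omit [CharZero k] in
/-- the limit of the image of a point -/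
private theorem vls_lim (hX : Hom X) {D : ℕ} {Q : (Om k)[X]} {M : Mp (Om k) m}
    (hM : OkH D Q M X) {v : Place k (Om k)} {x y : Om k} (hxy : y ^ 2 = Q.eval x) {Y : Pt X k}
    {l : Om k} (h : ∀ i, v.At (l * M.co x y i) (Y.1.rep i)) :
    M.co x y ≠ 0 ∧ lim1 hX v (cyp hX hM x y) = cl1 X (Finsupp.single Y 1) := by
  have hne : M.co x y ≠ 0 := by
    intro h0
    apply Y.1.rep_nonzero
    funext i
    have h1 := h i
    rw [h0, Pi.zero_apply, mul_zero] at h1
    have h2 := Place.at_const (v := v) (0 : k)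
    rw [map_zero] at h2
    exact Place.At.unique h1 h2
  refine ⟨hne, ?_⟩
  have h5 : pv hX v (mkPt hX (M.co x y) hne fun f hf => hM.onX f hf x y hxy) = Y :=
    pv_eq ((isVal_iff hne Y.1.rep_nonzero rfl (Projectivization.mk_rep Y.1).symm).2 ⟨l, h⟩)
  have h6 : cyp hX hM x y = Finsupp.single
      (mkPt hX (M.co x y) hne fun f hf => hM.onX f hf x y hxy) 1 := dif_pos ⟨hxy, hne⟩
  rw [h6]
  change Submodule.Quotient.mk (Finsupp.mapDomain _ (Finsupp.mapDomain _ _)) =
    Submodule.Quotient.mk (Finsupp.mapDomain _ _)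
  rw [Finsupp.mapDomain_single, Finsupp.mapDomain_single, Finsupp.mapDomain_single]
  change Submodule.Quotient.mk (Finsupp.single
    (fun _ : Unit => pv hX v (mkPt hX (M.co x y) hne fun f hf => hM.onX f hf x y hxy)) 1) = _
  rw [h5]

/-- The class of the values over `Om k` is `TV` (as `IsVals.cls` in `GT/Cov.lean`; `cv_of_ne`, `cyp`,
`isVal_iff`). -/
theorem IsValsW.cls (hX : Hom X) {d : GD L m} {U : Set (Place k L)} {d' : GD (regU U) m}
    (hd' : OkW ν d' X) (hdd : d'.map ((regU U).val : regU U →+* L) = d) {σ : L →ₐ[k] Om k}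
    {v : Place k (Om k)} {e : ℕ} {θ : Fin e → Om k} {x y : Om k} {P : Fin e → Pt X k}
    (h : IsValsW ν d X σ v θ x y P) :
    cl1 X (∑ b, Finsupp.single (P b) 1) = TV hX hd' (σ.comp (regU U).val) v x y := by
  subst hdd
  let S : regU U →ₐ[k] Om k := σ.comp (regU U).val
  have hh' : d'.h.map (S : regU U →+* Om k) = ∏ a, (Polynomial.X - Polynomial.C (θ a)) := by
    rw [← h.roots]
    change _ = (d'.h.map ((regU U).val : regU U →+* L)).map (σ : L →+* Om k)
    rw [Polynomial.map_map]
    rfl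
  have hinj : Function.Injective θ := by
    rw [← Polynomial.separable_prod_X_sub_C_iff, ← hh']
    obtain ⟨u, w', huw⟩ := hd'.sep
    refine Polynomial.Separable.map ?_
    exact ⟨u, w', huw⟩
  have hmem : ∀ t : Om k, t ∈ d'.rts (S : regU U →+* Om k) ↔ ∃ a, θ a = t := by
    intro t
    unfold GD.rts
    rw [Multiset.mem_toFinset, hh', Polynomial.mem_roots', Polynomial.IsRoot.def,
      Polynomial.eval_prod, Finset.prod_eq_zero_iff]
    constructor
    · rintro ⟨-, a, -, h⟩
      refine ⟨a, ?_⟩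
      rw [Polynomial.eval_sub, Polynomial.eval_X, Polynomial.eval_C, sub_eq_zero] at h
      exact h.symm
    · rintro ⟨a, rfl⟩
      refine ⟨?_, a, Finset.mem_univ a, ?_⟩
      · exact Finset.prod_ne_zero_iff.2 fun b _ => Polynomial.X_sub_C_ne_zero _
      · rw [Polynomial.eval_sub, Polynomial.eval_X, Polynomial.eval_C, sub_self]
  have hxy : y ^ 2 = (wP ν (S d'.B) (S d'.α)).eval x := by
    rw [wP_eval]
    exact h.on
  have key : ∀ a, cl1 X (Finsupp.single (P a) 1) =
      cv hX (hd'.mp_ok S ((hmem _).2 ⟨a, rfl⟩)) v x y := by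
    intro a
    obtain ⟨l, hl⟩ := h.val a
    obtain ⟨hne, h1⟩ := vls_lim hX (hd'.mp_ok S ((hmem _).2 ⟨a, rfl⟩)) hxy (v := v) (Y := P a)
      (l := l) (by
        intro i
        have h1 := hl i
        rw [mp_map] at h1
        exact h1)
    rw [cv_of_ne hX _ v hxy hne, h1]
  rw [map_sum]
  refine Finset.sum_bij (fun a _ => ⟨θ a, (hmem _).2 ⟨a, rfl⟩⟩)
    (fun a _ => Finset.mem_univ _) (fun a _ b _ h => hinj (congrArg Subtype.val h))
    (fun t _ => ?_) (fun a _ => key a)
  obtain ⟨a, ha⟩ := (hmem t.1).1 t.2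
  exact ⟨a, Finset.mem_univ a, Subtype.ext ha⟩

end Pool.Agent.GTM
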