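import Pool.Agent.GTM.MainB
import Pool.Agent.GTM.Vals

/-!
# The classes over the function field
-/

set_option autoImplicit false

noncomputable section

namespace Pool.Agent.GTM

open Pool.Agent.ZCyc Pool.Agent.Dess Pool.Agent.GT Polynomial
open Pool.Agent.VFP (Om tt)
open scoped Classical LinearAlgebra.Projectivization

open Pool.Agent.TInc

variable {k L : Type} [Field k] [IsAlgClosed k] [CharZero k] [Field L] [Algebra k L] {m : ℕ}
  {X : Set (MvPolynomial (Fin (m + 1)) k)} {ν : ℕ}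

private theorem tvl_cv (hX : Hom X) {P P' : (Om k)[X]} {N N' : Mp (Om k) m} (hN : OkH ν P N X)
    (hN' : OkH ν P' N' X) (hP : P = P') (h : N = N') (v : Place k (Om k)) (x y : Om k) :
    cv hX hN v x y = cv hX hN' v x y := by
  subst hP h
  rfl

/-- The sums over all roots for data over the function field which come from an open set. -/
theorem TV_map (hX : Hom X) {d : GD L m} (hd : OkW ν d X) {U : Set (Place k L)}
    {d' : GD (regU U) m} (hd' : OkW ν d' X)
    (hdd : d'.map ((regU U).val : regU U →+* L) = d) (σ : L →ₐ[k] Om k) (v : Place k (Om k))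
    (x y : Om k) : TV hX hd' (σ.comp (regU U).val) v x y = TV hX hd σ v x y := by
  subst hdd
  have hr : (d'.map ((regU U).val : regU U →+* L)).rts (σ : L →+* Om k) =
      d'.rts ((σ.comp (regU U).val : regU U →ₐ[k] Om k) : regU U →+* Om k) := rts_map _ _ _
  unfold TV
  refine Finset.sum_bij (fun θ _ => ⟨θ.1, by rw [hr]; exact θ.2⟩) (fun _ _ => Finset.mem_univ _)
    (fun a _ b _ h => Subtype.ext (Subtype.mk.inj h))
    (fun b _ => ⟨⟨b.1, by rw [← hr]; exact b.2⟩, Finset.mem_univ _, rfl⟩) fun θ _ => ?_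
  exact tvl_cv hX _ _ rfl (mp_map _ _ _ _).symm v x y

/-- the classes of the limits of the rotations of the point `(x, y)` -/
def rotL (hX : Hom X) {d : GD L m} (hd : OkW ν d X) (ζ : k) (σ : L →ₐ[k] Om k)
    (v : Place k (Om k)) (x y : Om k) (a : ZMod ν) : CH X Unit :=
  TV hX hd σ v (algebraMap k (Om k) ζ ^ a.val * x) y

/-- The functions in `S` are the classes of the limits of the rotations of points. -/
def IsRotL (hX : Hom X) [NeZero ν] (ζ : k) {d : GD L m} (hd : OkW ν d X)
    (S : Set (ZMod ν → (Pt X k →₀ ℚ))) : Prop :=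
  ∀ w ∈ S, ∃ (σ : L →ₐ[k] Om k) (v : Place k (Om k)) (x y : Om k),
    y ^ 2 = x ^ (2 * ν) + σ d.B * x ^ ν + σ d.α ∧ ∀ a, cl1 X (w a) = rotL hX hd ζ σ v x y a

theorem IsRotL.isRot {hX : Hom X} [NeZero ν] {ζ : k} {d : GD L m} {hd : OkW ν d X}
    {S : Set (ZMod ν → (Pt X k →₀ ℚ))} (h : IsRotL hX ζ hd S) : IsRot hX ν ζ d S := by
  intro U d' hd' hmap w hw
  obtain ⟨σ, v, x, y, hxy, hcl⟩ := h w hw
  refine ⟨σ, v, x, y, hxy, fun a => ?_⟩
  rw [hcl]
  exact (TV_map hX hd hd' hmap σ v _ _).symm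

end Pool.Agent.GTM
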