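import Pool.Agent.GTM.WPol
import Pool.Agent.GTM.Cls
import Pool.Agent.GT.TrB

/-!
# Families of curves with a multi-valued map
-/

set_option autoImplicit false

noncomputable section

namespace Pool.Agent.GTM

open Pool.Agent.ZCyc Pool.Agent.Dess Pool.Agent.GT Polynomial
open Pool.Agent.VFP (Om tt)
open scoped Classical LinearAlgebra.Projectivization

variable {k : Type} [Field k] [IsAlgClosed k] [CharZero k] {m : ℕ}
  {X : Set (MvPolynomial (Fin (m + 1)) k)} {A : Type} [CommRing A] [Algebra k A] {ν : ℕ}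

private instance : CharZero (Om k) :=
  charZero_of_injective_algebraMap (algebraMap k (Om k)).injective

/-- the sum over all roots of the classes of the images of the point `(x, y)`, over `k` -/
def TK (hX : Hom X) {d : GD A m} (hd : OkW ν d X) (s : A →ₐ[k] k) (x y : k) : CH X Unit :=
  ∑ θ : {θ // θ ∈ d.rts (s : A →+* k)}, ck hX (hd.mp_ok s θ.2) x y

/-- the sum over all roots of the classes of the limits of the images of the point `(x, y)` -/
def TV (hX : Hom X) {d : GD A m} (hd : OkW ν d X) (S : A →ₐ[k] Om k) (v : Place k (Om k))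
    (x y : Om k) : CH X Unit :=
  ∑ θ : {θ // θ ∈ d.rts (S : A →+* Om k)}, cv hX (hd.mp_ok S θ.2) v x y

omit [IsAlgClosed k] [CharZero k] [Algebra k A] in
private theorem trx_at {S : A →+* Om k} {s : A →+* k} {v : Place k (Om k)}
    (h : ∀ a : A, v.At (S a) (s a)) (p : (Polynomial A)) {θ : Om k} {t : k} (hθ : v.At θ t) :
    v.At (p.eval₂ S θ) (p.eval₂ s t) := by
  rw [eval₂_eq_sum_range, eval₂_eq_sum_range]
  exact Place.At.sum fun i _ => (h _).mul (hθ.pow i)

omit [IsAlgClosed k] [CharZero k] [Algebra k A] in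
private theorem trx_mem {S : A →+* Om k} {s : A →+* k} {v : Place k (Om k)}
    (h : ∀ a : A, v.At (S a) (s a)) {p : (Polynomial A)} (hp : p.Monic) {θ : Om k}
    (hθ : p.eval₂ S θ = 0) : θ ∈ v.ring := by
  let S' : A →+* v.ring := S.codRestrict v.ring.toSubring (fun a => (h a).mem)
  have h1 : IsIntegral v.ring θ := by
    refine ⟨p.map S', hp.map S', ?_⟩
    rw [eval₂_map]
    exact hθ
  obtain ⟨y, hy⟩ := IsIntegrallyClosed.isIntegral_iff.mp h1
  rw [← hy]
  exact y.2

omit [IsAlgClosed k] [Algebra k A] in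
private theorem trx_inj {S : A →+* Om k} {s : A →+* k} {v : Place k (Om k)}
    (h : ∀ a : A, v.At (S a) (s a)) {p : (Polynomial A)} (hp : p.Monic)
    (hsep : ∃ u w : (Polynomial A), u * p + w * derivative p = 1) {θ₁ θ₂ : Om k} {t : k}
    (h₁ : v.At θ₁ t) (h₂ : v.At θ₂ t) (hr₁ : p.eval₂ S θ₁ = 0) (hr₂ : p.eval₂ S θ₂ = 0) :
    θ₁ = θ₂ := by
  by_contra hne
  set f := p.map S with hf
  have hfm : f.Monic := hp.map S
  have hsp : f.Splits := IsAlgClosed.splits f
  have hfr := hsp.eq_prod_roots_of_monic hfm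
  have m₁ : θ₁ ∈ f.roots := by
    rw [mem_roots hfm.ne_zero, IsRoot.def, hf, eval_map]; exact hr₁
  have m₂ : θ₂ ∈ f.roots := by
    rw [mem_roots hfm.ne_zero, IsRoot.def, hf, eval_map]; exact hr₂
  obtain ⟨r, hr⟩ := Multiset.exists_cons_of_mem m₁
  have m₃ : θ₂ ∈ r := by
    rw [hr] at m₂
    rcases Multiset.mem_cons.mp m₂ with h3 | h3
    · exact absurd h3.symm hne
    · exact h3
  obtain ⟨r', hr'⟩ := Multiset.exists_cons_of_mem m₃
  set Q : (Polynomial (Om k)) := (r'.map fun a => Polynomial.X - C a).prod with hQ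
  have hfe : f = (Polynomial.X - C θ₁) * ((Polynomial.X - C θ₂) * Q) := by
    rw [hfr, hr, hr', Multiset.map_cons, Multiset.prod_cons, Multiset.map_cons,
      Multiset.prod_cons]
  have hd : (derivative f).eval θ₁ = (θ₁ - θ₂) * Q.eval θ₁ := by
    rw [hfe]
    simp [derivative_mul]
  have hQm : Q.eval θ₁ ∈ v.ring := by
    rw [hQ, eval_multiset_prod, Multiset.map_map]
    apply Submonoid.multiset_prod_mem v.ring.toSubring.toSubmonoid
    intro c hc
    obtain ⟨a, ha, rfl⟩ := Multiset.mem_map.mp hc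
    have ha' : a ∈ f.roots := by
      rw [hr, hr']
      exact Multiset.mem_cons_of_mem (Multiset.mem_cons_of_mem ha)
    have hra : p.eval₂ S a = 0 := by
      rw [mem_roots hfm.ne_zero, IsRoot.def, hf, eval_map] at ha'; exact ha'
    have := trx_mem h hp hra
    have e : (eval θ₁ ∘ fun a => Polynomial.X - C a) a = θ₁ - a := by simp
    rw [e]
    exact v.ring.toSubring.sub_mem h₁.mem this
  have h12 : v.Vanishes (θ₁ - θ₂) := by
    have := h₁.sub h₂
    rw [sub_self] at this
    exact Place.at_zero_iff.mp this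
  have hder0 : v.At ((derivative p).eval₂ S θ₁) 0 := by
    have e : (derivative p).eval₂ S θ₁ = (θ₁ - θ₂) * Q.eval θ₁ := by
      rw [← hd, hf, derivative_map, eval_map]
    rw [e]
    exact Place.at_zero_iff.mpr (h12.mul v hQm)
  have hdt : (derivative p).eval₂ s t = 0 := (trx_at h (derivative p) h₁).unique hder0
  have hpt : p.eval₂ s t = 0 := by
    have h3 := trx_at h p h₁
    rw [hr₁] at h3
    exact h3.unique (Place.at_zero_iff.mpr v.vanishes_zero)
  obtain ⟨u, w, huw⟩ := hsep
  have := congrArg (eval₂ s t) huw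
  rw [eval₂_add, eval₂_mul, eval₂_mul, hpt, hdt, mul_zero, mul_zero, add_zero, eval₂_one] at this
  exact zero_ne_one this

omit [IsAlgClosed k] [CharZero k] [Algebra k A] in
private theorem trx_surj {S : A →+* Om k} {s : A →+* k} {v : Place k (Om k)}
    (h : ∀ a : A, v.At (S a) (s a)) {p : Polynomial A} (hp : p.Monic) {t : k}
    (ht : p.eval₂ s t = 0) :
    ∃ θ : Om k, p.eval₂ S θ = 0 ∧ v.At θ t := by
  set f := p.map S with hf
  have hfm : f.Monic := hp.map S
  have hsp : f.Splits := IsAlgClosed.splits f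
  have hfr := hsp.eq_prod_roots_of_monic hfm
  have h1 : v.Vanishes (f.eval (algebraMap k (Om k) t)) := by
    rw [hf, eval_map, ← Place.at_zero_iff, ← ht]
    exact trx_at h p (Place.at_const t)
  have h2 : f.eval (algebraMap k (Om k) t) =
      (f.roots.map fun a => algebraMap k (Om k) t - a).prod := by
    conv_lhs => rw [hfr]
    rw [eval_multiset_prod, Multiset.map_map]
    congr 1
    apply Multiset.map_congr rfl
    intro a _
    simp
  rw [h2, Finset.prod_multiset_map_count] at h1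
  obtain ⟨θ, hθ, h3⟩ := v.vanishes_prod h1
  have h4 := v.vanishes_of_pow h3
  have h5 : θ ∈ f.roots := Multiset.mem_toFinset.mp hθ
  refine ⟨θ, ?_, ?_⟩
  · rw [mem_roots hfm.ne_zero, IsRoot.def, hf, eval_map] at h5; exact h5
  · have := h4.neg v
    rw [neg_sub] at this
    exact this

omit [IsAlgClosed k] [CharZero k] in
private theorem trx_rts {K : Type} [Field K] {d : GD A m} (hm : d.h.Monic) (S : A →+* K)
    (θ : K) : θ ∈ d.rts S ↔ d.h.eval₂ S θ = 0 := by
  rw [GD.rts, Multiset.mem_toFinset, mem_roots (hm.map S).ne_zero, IsRoot.def, eval_map]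

/-- the class of the limit is the limit of one cycle (`zq`), which does not depend on the place -/
theorem exists_cycle (hX : Hom X) {d : GD A m} (hd : OkW ν d X) (S : A →ₐ[k] Om k)
    (x y : Om k) : ∃ z : Pt X (Om k) →₀ ℚ, ∀ v : Place k (Om k),
      lim1 hX v z = TV hX hd S v x y := by
  refine ⟨∑ θ : {θ // θ ∈ d.rts (S : A →+* Om k)}, zq hX (hd.mp_ok S θ.2) x y, fun v => ?_⟩
  rw [map_sum]
  rfl

theorem exists_cycleK (hX : Hom X) {d : GD A m} (hd : OkW ν d X) (s : A →ₐ[k] k) (x y : k) :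
    ∃ z : Pt X k →₀ ℚ, cl1 X z = TK hX hd s x y := by
  refine ⟨∑ θ : {θ // θ ∈ d.rts (s : A →+* k)}, zq hX (hd.mp_ok s θ.2) x y, ?_⟩
  rw [map_sum]
  rfl

omit [IsAlgClosed k] [CharZero k] in
/-- values of the coordinates: as in `GT/TrB.lean` -/
theorem mp_at {d : GD A m} {S : A →ₐ[k] Om k} {s : A →ₐ[k] k} {v : Place k (Om k)}
    (h : ∀ a : A, v.At (S a) (s a)) {θ : Om k} {t : k} (hθ : v.At θ t) :
    MpAt v (d.mp (S : A →+* Om k) θ) (d.mp (s : A →+* k) t) := by
  have h' : ∀ a : A, v.At ((S : A →+* Om k) a) ((s : A →+* k) a) := h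
  have key : ∀ q : Polynomial A, v.At ((Polynomial.eval₂RingHom (S : A →+* Om k) θ) q)
      ((Polynomial.eval₂RingHom (s : A →+* k) t) q) := fun q => trx_at h' q hθ
  intro i
  constructor
  · intro n
    change v.At (((d.G i).map (Polynomial.eval₂RingHom (S : A →+* Om k) θ)).coeff n)
      (((d.G i).map (Polynomial.eval₂RingHom (s : A →+* k) t)).coeff n)
    rw [coeff_map, coeff_map]
    exact key _
  · intro n
    change v.At (((d.H i).map (Polynomial.eval₂RingHom (S : A →+* Om k) θ)).coeff n)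
      (((d.H i).map (Polynomial.eval₂RingHom (s : A →+* k) t)).coeff n)
    rw [coeff_map, coeff_map]
    exact key _

/-- The roots of `h` over `Om k` and over `k` correspond to each other under the reduction. (The same
argument is in `GT/TrB.lean`: the roots are integral, `h` is separable modulo the maximal ideal,
and the number of the roots is the degree.) -/
theorem rts_equiv {d : GD A m} (hm : d.h.Monic)
    (hsep : ∃ u w : Polynomial A, u * d.h + w * Polynomial.derivative d.h = 1)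
    {S : A →ₐ[k] Om k} {s : A →ₐ[k] k} {v : Place k (Om k)} (h : ∀ a : A, v.At (S a) (s a)) :
    ∃ e : {θ // θ ∈ d.rts (S : A →+* Om k)} ≃ {t // t ∈ d.rts (s : A →+* k)},
      ∀ θ : {θ // θ ∈ d.rts (S : A →+* Om k)}, v.At θ.1 (e θ).1 := by
  have h' : ∀ a : A, v.At ((S : A →+* Om k) a) ((s : A →+* k) a) := h
  have hex : ∀ θ : {θ // θ ∈ d.rts (S : A →+* Om k)},
      ∃ t : {θ // θ ∈ d.rts (s : A →+* k)}, v.At (θ.1 : Om k) (t.1 : k) := by
    rintro ⟨θ, hθ⟩
    rw [trx_rts hm] at hθ
    obtain ⟨t, ht⟩ := DCI57.exists_at v (trx_mem h' hm hθ)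
    refine ⟨⟨t, ?_⟩, ht⟩
    rw [trx_rts hm]
    have h3 := trx_at h' d.h ht
    rw [hθ] at h3
    exact h3.unique (Place.at_zero_iff.mpr v.vanishes_zero)
  choose F hF using hex
  have hbij : Function.Bijective F := by
    constructor
    · intro θ₁ θ₂ he
      apply Subtype.ext
      have h₁ := hF θ₁
      have h₂ := hF θ₂
      rw [← he] at h₂
      exact trx_inj h' hm hsep h₁ h₂ ((trx_rts hm _ _).mp θ₁.2)
        ((trx_rts hm _ _).mp θ₂.2)
    · rintro ⟨t, ht⟩
      obtain ⟨θ, h1, h2⟩ := trx_surj h' hm ((trx_rts hm _ _).mp ht)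
      refine ⟨⟨θ, (trx_rts hm _ _).mpr h1⟩, ?_⟩
      apply Subtype.ext
      exact (hF ⟨θ, (trx_rts hm _ _).mpr h1⟩).unique h2
  exact ⟨Equiv.ofBijective F hbij, hF⟩

end Pool.Agent.GTM
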